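import Pool.Agent.Lib.MP_1ef7cf_nt.Mg.G003
import Pool.Agent.Lib.MP_1ef7cf_nt_g.Defs

section

/-!
# Regrouping of Dirichlet series
-/

open NumberField IsDedekindDomain Pool.Agent.ST

namespace Pool.Agent.STg

/-- regrouping of a Dirichlet series: `ι` a type with a norm function with finite fibers
(`HasSum.sigma` for `Equiv.sigmaFiberEquiv N`). -/
theorem hasSum_regroup {ι : Type*} (N : ι → ℕ) (hf : ∀ n : ℕ, {i | N i = n}.Finite) (c : ι → ℤ)
    {w S : ℂ} (h : HasSum (fun i => (c i : ℂ) * (N i : ℂ) ^ (-w)) S) :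
    HasSum (fun n : ℕ => ((∑ᶠ i ∈ {i | N i = n}, c i : ℤ) : ℂ) * (n : ℂ) ^ (-w)) S := by
  classical
  have h1 : HasSum ((fun i => (c i : ℂ) * (N i : ℂ) ^ (-w)) ∘ (Equiv.sigmaFiberEquiv N)) S :=
    (Equiv.hasSum_iff (Equiv.sigmaFiberEquiv N)).2 h
  refine HasSum.sigma h1 fun n => ?_
  have : Fintype {x : ι // N x = n} := (hf n).fintype
  have h2 : (((∑ᶠ i ∈ {i | N i = n}, c i : ℤ) : ℂ)) * (n : ℂ) ^ (-w) =
      ∑ x : {x : ι // N x = n}, (c x : ℂ) * (N x : ℂ) ^ (-w) := by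
    rw [finsum_mem_eq_finite_toFinset_sum _ (hf n), Int.cast_sum, Finset.sum_mul]
    rw [← Finset.sum_subtype (p := fun x => N x = n) (hf n).toFinset (fun x => by simp)
      (fun x => (c x : ℂ) * (N x : ℂ) ^ (-w))]
    refine Finset.sum_congr rfl fun x hx => ?_
    have h3 : N x = n := by simpa using hx
    rw [h3]
  rw [h2]
  exact hasSum_fintype _

variable {K : Type*} [Field K] [NumberField K]

/-- the ideals prime to `m` are the ideals prime to `2` -/
lemma coprime_iff_two {m : Ideal (𝓞 K)}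
    (hm : ∀ v : HeightOneSpectrum (𝓞 K), v.asIdeal ∣ m ↔ (2 : 𝓞 K) ∈ v.asIdeal) (hm0 : m ≠ ⊥)
    {I : Ideal (𝓞 K)} (hI : I ≠ ⊥) : IsCoprime I m ↔ IsCoprime I (Ideal.span {(2 : 𝓞 K)}) := by
  have key : ∀ A B : Ideal (𝓞 K), (∀ v : HeightOneSpectrum (𝓞 K), A ≤ v.asIdeal → B ≤ v.asIdeal) →
      IsCoprime I B → IsCoprime I A := by
    intro A B h hB
    rw [Ideal.isCoprime_iff_sup_eq] at hB ⊢
    by_contra hcon
    obtain ⟨P, hP, hle⟩ := Ideal.exists_le_maximal _ hcon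
    have hI' : I ≤ P := le_sup_left.trans hle
    have hP0 : P ≠ ⊥ := by
      rintro rfl
      exact hI (le_bot_iff.1 hI')
    have h1 := h ⟨P, hP.isPrime, hP0⟩ (le_sup_right.trans hle)
    have h2 : I ⊔ B ≤ P := sup_le hI' h1
    rw [hB, top_le_iff] at h2
    exact hP.ne_top h2
  have h2' : ∀ v : HeightOneSpectrum (𝓞 K), Ideal.span {(2 : 𝓞 K)} ≤ v.asIdeal ↔
      m ≤ v.asIdeal := by
    intro v
    rw [Ideal.span_singleton_le_iff_mem, ← hm v, Ideal.dvd_iff_le]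
  exact ⟨key _ _ fun v => (h2' v).1, key _ _ fun v => (h2' v).2⟩

end Pool.Agent.STg
end

section

/-!
# The fields `Rk` and `Nk`: easy facts
-/

open Complex

namespace Pool.Agent.STg

variable (U : UD) (k : ℕ)

lemma UD.r_mem : U.r ∈ Rk U k :=
  IntermediateField.subset_adjoin ℚ _ (Set.mem_insert _ _)

lemma ck_mem : ck k ∈ Rk U k :=
  IntermediateField.subset_adjoin ℚ _ (Set.mem_insert_of_mem _ rfl)

/-- `ε > 0`, `ε ^ 2 = T ε + 1`, `r ^ 2 = ε` -/
lemma UD.e_pos (U : UD) : 0 < U.e := by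
  unfold UD.e
  have h1 : |(U.T : ℝ)| < Real.sqrt ((U.T : ℝ) ^ 2 + 4) := by
    rw [← Real.sqrt_sq_eq_abs]
    exact Real.sqrt_lt_sqrt (sq_nonneg _) (by linarith)
  have h2 := neg_abs_le (U.T : ℝ)
  linarith

lemma UD.e_sq (U : UD) : U.e ^ 2 = U.T * U.e + 1 := by
  unfold UD.e
  have h1 : Real.sqrt ((U.T : ℝ) ^ 2 + 4) ^ 2 = (U.T : ℝ) ^ 2 + 4 :=
    Real.sq_sqrt (by positivity)
  linear_combination h1 / 4

lemma UD.r_pos (U : UD) : 0 < U.r := Real.sqrt_pos.mpr U.e_pos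

lemma UD.r_sq (U : UD) : U.r ^ 2 = U.e := Real.sq_sqrt U.e_pos.le

lemma zk_eq (k : ℕ) : zk k = (Real.cos (2 * Real.pi / 2 ^ k) : ℂ) +
    (Real.sin (2 * Real.pi / 2 ^ k) : ℂ) * I := by
  unfold zk
  have h1 : (2 * Real.pi * I / 2 ^ k : ℂ) = ((2 * Real.pi / 2 ^ k : ℝ) : ℂ) * I := by
    push_cast
    ring
  rw [h1, Complex.exp_mul_I, Complex.ofReal_cos, Complex.ofReal_sin]

lemma zk_norm (k : ℕ) : ‖zk k‖ = 1 := by
  unfold zk
  have h1 : (2 * Real.pi * I / 2 ^ k : ℂ) = ((2 * Real.pi / 2 ^ k : ℝ) : ℂ) * I := by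
    push_cast
    ring
  rw [h1, Complex.norm_exp_ofReal_mul_I]

lemma conj_zk (k : ℕ) : starRingEnd ℂ (zk k) = (zk k)⁻¹ := by
  rw [Complex.inv_def, Complex.normSq_eq_norm_sq, zk_norm]
  simp

/-- for `k ≥ 2`: `i = ζ ^ (2 ^ (k - 2))` -/
lemma I_eq_zk {k : ℕ} (hk : 2 ≤ k) : I = zk k ^ (2 ^ (k - 2)) := by
  obtain ⟨m, rfl⟩ : ∃ m, k = m + 2 := ⟨k - 2, by omega⟩
  unfold zk
  rw [← Complex.exp_nat_mul, Nat.add_sub_cancel]
  have h1 : ((2 ^ m : ℕ) : ℂ) * (2 * Real.pi * I / 2 ^ (m + 2)) = (Real.pi / 2) * I := by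
    push_cast
    rw [pow_add]
    have h2 : (2 : ℂ) ^ m ≠ 0 := pow_ne_zero _ two_ne_zero
    field_simp
  rw [h1, Complex.exp_pi_div_two_mul_I]

end Pool.Agent.STg
end

section

/-!
# Real and imaginary parts of elements of `Nk`
-/

open Complex

namespace Pool.Agent.STg

variable (U : UD) (k : ℕ)

lemma V3b_cos_mem (n : ℕ) : Real.cos (n * (2 * Real.pi / 2 ^ k)) ∈ Rk U k := by
  induction n using Nat.strong_induction_on with
  | _ n ih =>
    match n, ih with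
    | 0, _ =>
      simp only [Nat.cast_zero, zero_mul, Real.cos_zero]
      exact one_mem _
    | 1, _ =>
      simp only [Nat.cast_one, one_mul]
      exact ck_mem U k
    | n + 2, ih =>
      have h1 := ih n (by omega)
      have h2 := ih (n + 1) (by omega)
      have h3 := ck_mem U k
      unfold ck at h3
      set θ : ℝ := 2 * Real.pi / 2 ^ k with hθ
      have h4 : Real.cos (((n + 2 : ℕ) : ℝ) * θ) =
          (1 + 1) * Real.cos (((n + 1 : ℕ) : ℝ) * θ) * Real.cos θ - Real.cos ((n : ℝ) * θ) := by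
        have h5 : ((n + 2 : ℕ) : ℝ) * θ = ((n + 1 : ℕ) : ℝ) * θ + θ := by
          push_cast
          ring
        have h6 : (n : ℝ) * θ = ((n + 1 : ℕ) : ℝ) * θ - θ := by
          push_cast
          ring
        rw [h5, h6, Real.cos_add, Real.cos_sub]
        ring
      rw [h4]
      exact sub_mem (mul_mem (mul_mem (add_mem (one_mem _) (one_mem _)) h2) h3) h1

/-- `sin (2 π / 2 ^ k)` is in `ℚ(cos (2 π / 2 ^ k))`: for `k ≥ 3` it is
`cos (2 π (2 ^ (k - 2) - 1) / 2 ^ k)`, a polynomial (Chebyshev) in `cos (2 π / 2 ^ k)`; for `k ≤ 2` it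
is `0` or `1`. -/
lemma sin_mem : Real.sin (2 * Real.pi / 2 ^ k) ∈ Rk U k := by
  by_cases hk : k < 2
  · have h1 : Real.sin (2 * Real.pi / 2 ^ k) = 0 := by
      interval_cases k
      · rw [pow_zero, div_one, Real.sin_two_pi]
      · rw [pow_one, mul_div_cancel_left₀ _ two_ne_zero, Real.sin_pi]
    rw [h1]
    exact zero_mem _
  · obtain ⟨m, rfl⟩ : ∃ m, k = m + 2 := ⟨k - 2, by omega⟩
    have h1 := V3b_cos_mem U (m + 2) (2 ^ m - 1)
    have h2 : ((2 ^ m - 1 : ℕ) : ℝ) * (2 * Real.pi / 2 ^ (m + 2)) =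
        Real.pi / 2 - 2 * Real.pi / 2 ^ (m + 2) := by
      rw [Nat.cast_sub Nat.one_le_two_pow]
      push_cast
      rw [pow_add]
      have h3 : (2 : ℝ) ^ m ≠ 0 := pow_ne_zero _ two_ne_zero
      field_simp
    rw [h2, Real.cos_pi_div_two_sub] at h1
    exact h1

/-- **Real and imaginary parts.** The numbers `a + b i` with `a, b ∈ Rk` form a field which contains the
generators of `Nk`. -/
theorem re_im_mem {x : ℂ} (hx : x ∈ Nk U k) : x.re ∈ Rk U k ∧ x.im ∈ Rk U k := by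
  unfold Nk at hx
  induction hx using IntermediateField.adjoin_induction with
  | mem x hx =>
    rcases hx with rfl | rfl | rfl
    · rw [Complex.I_re, Complex.I_im]
      exact ⟨zero_mem _, one_mem _⟩
    · rw [Complex.ofReal_re, Complex.ofReal_im]
      exact ⟨U.r_mem k, zero_mem _⟩
    · have h1 : (zk k).re = Real.cos (2 * Real.pi / 2 ^ k) := by
        rw [zk_eq, Complex.add_re, Complex.ofReal_re, Complex.re_ofReal_mul, Complex.I_re,
          mul_zero, add_zero]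
      have h2 : (zk k).im = Real.sin (2 * Real.pi / 2 ^ k) := by
        rw [zk_eq, Complex.add_im, Complex.ofReal_im, Complex.im_ofReal_mul, Complex.I_im,
          mul_one, zero_add]
      rw [h1, h2]
      exact ⟨ck_mem U k, sin_mem U k⟩
  | algebraMap q =>
    have h1 : (algebraMap ℚ ℂ q) = ((q : ℝ) : ℂ) := by simp
    rw [h1, Complex.ofReal_re, Complex.ofReal_im]
    refine ⟨?_, zero_mem _⟩
    have h2 := (Rk U k).algebraMap_mem q
    simpa using h2
  | add x y _ _ hx hy =>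
    rw [Complex.add_re, Complex.add_im]
    exact ⟨add_mem hx.1 hy.1, add_mem hx.2 hy.2⟩
  | inv x _ hx =>
    rw [Complex.inv_re, Complex.inv_im]
    have h1 : Complex.normSq x ∈ Rk U k := by
      rw [Complex.normSq_apply]
      exact add_mem (mul_mem hx.1 hx.1) (mul_mem hx.2 hx.2)
    exact ⟨div_mem hx.1 h1, div_mem (neg_mem hx.2) h1⟩
  | mul x y _ _ hx hy =>
    rw [Complex.mul_re, Complex.mul_im]
    exact ⟨sub_mem (mul_mem hx.1 hy.1) (mul_mem hx.2 hy.2),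
      add_mem (mul_mem hx.1 hy.2) (mul_mem hx.2 hy.1)⟩

end Pool.Agent.STg
end
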