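import Mathlib

section

/-!
# The fields `Rk` and `Nk`
-/
end

section

/-!
# The fields `Rk` and `Nk`
-/
end
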