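import Pool.Agent.Lib.MP_1ef7cf_nt_g.Q

section

/-!
# Systems of representatives of the primary residue classes
-/

open Complex

namespace Pool.Agent.STg

/-- `(1 + i) ^ 3` divides `4`. -/
lemma cube_dvd_four : (⟨1, 1⟩ : GaussianInt) ^ 3 ∣ 4 := by
  refine ⟨⟨-1, -1⟩, ?_⟩
  ext <;> simp [pow_succ]

private lemma Q2_finite {f : GaussianInt} (hf : f ≠ 0) :
    Finite (GaussianInt ⧸ Ideal.span {f}) := by
  have hN : 0 < gN f := gN_pos hf
  have hdvd : f ∣ ((gN f : ℕ) : GaussianInt) := ⟨star f, (mul_star_eq f).symm⟩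
  have hN' : ((gN f : ℕ) : ℤ) ≠ 0 := by exact_mod_cast hN.ne'
  refine Finite.of_surjective (α := Fin (gN f) × Fin (gN f))
    (fun x => Ideal.Quotient.mk (Ideal.span {f}) ⟨(x.1 : ℕ), (x.2 : ℕ)⟩) ?_
  intro q
  obtain ⟨b, rfl⟩ := Ideal.Quotient.mk_surjective q
  have h1 : 0 ≤ b.re % (gN f : ℤ) := Int.emod_nonneg _ hN'
  have h2 : 0 ≤ b.im % (gN f : ℤ) := Int.emod_nonneg _ hN'
  have h3 : b.re % (gN f : ℤ) < gN f := Int.emod_lt_of_pos _ (by exact_mod_cast hN)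
  have h4 : b.im % (gN f : ℤ) < gN f := Int.emod_lt_of_pos _ (by exact_mod_cast hN)
  refine ⟨(⟨(b.re % (gN f : ℤ)).toNat, by omega⟩, ⟨(b.im % (gN f : ℤ)).toNat, by omega⟩), ?_⟩
  rw [Ideal.Quotient.eq, Ideal.mem_span_singleton]
  refine dvd_trans hdvd ⟨⟨-(b.re / (gN f : ℤ)), -(b.im / (gN f : ℤ))⟩, ?_⟩
  have e1 := Int.emod_add_mul_ediv b.re (gN f : ℤ)
  have e2 := Int.emod_add_mul_ediv b.im (gN f : ℤ)
  ext
  · simp only [Zsqrtd.re_sub, Zsqrtd.re_mul, Zsqrtd.re_natCast, Zsqrtd.im_natCast,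
      Int.toNat_of_nonneg h1]
    linarith
  · simp only [Zsqrtd.im_sub, Zsqrtd.im_mul, Zsqrtd.re_natCast, Zsqrtd.im_natCast,
      Int.toNat_of_nonneg h2]
    linarith

/-- Systems of representatives exist: `ℤ[i] / f` is finite for `f ≠ 0`; choose one primary element
prime to `f` in each residue class containing one. -/
lemma exists_isPR {f : GaussianInt} (hf : f ≠ 0) : ∃ S, IsPR f S := by
  classical
  have := Q2_finite hf
  set mk := Ideal.Quotient.mk (Ideal.span {f}) with hmk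
  set W : Set (GaussianInt ⧸ Ideal.span {f}) :=
    {q | ∃ b : GaussianInt, (Prim b ∧ IsCoprime b f) ∧ mk b = q} with hW
  have hex : ∀ q : GaussianInt ⧸ Ideal.span {f}, ∃ b : GaussianInt, q ∈ W →
      (Prim b ∧ IsCoprime b f) ∧ mk b = q := by
    intro q
    by_cases hq : q ∈ W
    · obtain ⟨b, hb⟩ := hq
      exact ⟨b, fun _ => hb⟩
    · exact ⟨0, fun h => absurd h hq⟩
  choose c hc using hex
  refine ⟨(Set.toFinite W).toFinset.image c, ?_, ?_⟩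
  · intro a ha
    rw [Finset.mem_image] at ha
    obtain ⟨q, hq, rfl⟩ := ha
    rw [Set.Finite.mem_toFinset] at hq
    exact (hc q hq).1
  · intro β hβ hβf
    have hq : mk β ∈ W := ⟨β, ⟨hβ, hβf⟩, rfl⟩
    refine ⟨c (mk β), ⟨?_, ?_⟩, ?_⟩
    · rw [Finset.mem_image]
      exact ⟨mk β, (Set.Finite.mem_toFinset _).2 hq, rfl⟩
    · have h1 := (hc (mk β) hq).2
      rw [hmk, Ideal.Quotient.eq, Ideal.mem_span_singleton] at h1
      rw [← neg_sub]
      exact (dvd_neg).2 h1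
    · rintro a ⟨ha, hfa⟩
      rw [Finset.mem_image] at ha
      obtain ⟨q, hqW, rfl⟩ := ha
      rw [Set.Finite.mem_toFinset] at hqW
      have h2 := (hc q hqW).2
      have h3 : mk β = mk (c q) := by
        rw [hmk, Ideal.Quotient.eq, Ideal.mem_span_singleton]
        exact hfa
      rw [h3, h2]

lemma isPR_PR {f : GaussianInt} (hf : f ≠ 0) : IsPR f (PR f) := by
  unfold PR
  rw [dif_pos (exists_isPR hf)]
  exact (exists_isPR hf).choose_spec

/-- Congruent to a primary element modulo a multiple of `(1 + i) ^ 3` implies primary. -/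
lemma Prim.of_dvd {f a b : GaussianInt} (h3 : (⟨1, 1⟩ : GaussianInt) ^ 3 ∣ f) (ha : Prim a)
    (h : f ∣ a - b) : Prim b := by
  have h1 := dvd_sub (ha : (⟨1, 1⟩ : GaussianInt) ^ 3 ∣ a - 1) (h3.trans h)
  have h2 : a - 1 - (a - b) = b - 1 := by ring
  rw [h2] at h1
  exact h1

private lemma Q2_bij {f β : GaussianInt} (hf : f ≠ 0) (hβ : Prim β) (hβf : IsCoprime β f) :
    ∃ i : ∀ a ∈ PR f, GaussianInt, (∀ a ha, i a ha ∈ PR f) ∧
      (∀ a₁ h₁ a₂ h₂, i a₁ h₁ = i a₂ h₂ → a₁ = a₂) ∧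
      (∀ b ∈ PR f, ∃ a ha, i a ha = b) ∧ ∀ a ha, f ∣ β * a - i a ha := by
  have hS := isPR_PR hf
  have hex : ∀ a, ∀ _ : a ∈ PR f, ∃ c, c ∈ PR f ∧ f ∣ β * a - c := by
    intro a ha
    obtain ⟨h1, h2⟩ := hS.1 a ha
    obtain ⟨c, hc, -⟩ := hS.2 (β * a) (Prim.mul hβ h1) (IsCoprime.mul_left hβf h2)
    exact ⟨c, hc⟩
  choose i hi1 hi2 using hex
  have hinj : ∀ a₁ h₁ a₂ h₂, i a₁ h₁ = i a₂ h₂ → a₁ = a₂ := by
    intro a₁ h₁ a₂ h₂ h
    have e1 := hi2 a₁ h₁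
    have e2 := hi2 a₂ h₂
    rw [h] at e1
    have e3 := dvd_sub e1 e2
    have e4 : β * a₁ - i a₂ h₂ - (β * a₂ - i a₂ h₂) = β * (a₁ - a₂) := by ring
    rw [e4] at e3
    have e5 : f ∣ a₁ - a₂ := hβf.symm.dvd_of_dvd_mul_left e3
    obtain ⟨p1, p2⟩ := hS.1 a₁ h₁
    obtain ⟨c, -, hc⟩ := hS.2 a₁ p1 p2
    have r1 := hc a₁ ⟨h₁, by rw [sub_self]; exact dvd_zero f⟩
    have r2 := hc a₂ ⟨h₂, e5⟩
    rw [r1, r2]
  refine ⟨i, hi1, hinj, ?_, hi2⟩
  intro b hb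
  obtain ⟨a, ha, h⟩ := Finset.surj_on_of_inj_on_of_card_le i hi1
    (fun a₁ a₂ h₁ h₂ h => hinj a₁ h₁ a₂ h₂ h) le_rfl b hb
  exact ⟨a, ha, h.symm⟩

/-- **Multiplication by `β` permutes the classes.** If `F` is periodic modulo `f` on the primary
elements prime to `f`, then `∑ F (β a) = ∑ F a` over the representatives `a`. Proof: the map
sending `a` to the representative of `β a` is a bijection of `PR f` (injective because `β` is
invertible modulo `f`). -/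
lemma sum_PR_mul {A : Type*} [AddCommMonoid A] {f β : GaussianInt} (hf : f ≠ 0)
    (h3 : (⟨1, 1⟩ : GaussianInt) ^ 3 ∣ f) (hβ : Prim β) (hβf : IsCoprime β f)
    (F : GaussianInt → A)
    (hF : ∀ a b, Prim a → IsCoprime a f → f ∣ a - b → F a = F b) :
    ∑ a ∈ PR f, F (β * a) = ∑ a ∈ PR f, F a := by
  obtain ⟨i, h1, h2, h4, h5⟩ := Q2_bij hf hβ hβf
  refine Finset.sum_bij i h1 h2 h4 (fun a ha => ?_)
  obtain ⟨p1, p2⟩ := (isPR_PR hf).1 a ha
  exact hF _ _ (Prim.mul hβ p1) (IsCoprime.mul_left hβf p2) (h5 a ha)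

lemma prod_PR_mul {A : Type*} [CommMonoid A] {f β : GaussianInt} (hf : f ≠ 0)
    (h3 : (⟨1, 1⟩ : GaussianInt) ^ 3 ∣ f) (hβ : Prim β) (hβf : IsCoprime β f)
    (F : GaussianInt → A)
    (hF : ∀ a b, Prim a → IsCoprime a f → f ∣ a - b → F a = F b) :
    ∏ a ∈ PR f, F (β * a) = ∏ a ∈ PR f, F a := by
  obtain ⟨i, h1, h2, h4, h5⟩ := Q2_bij hf hβ hβf
  refine Finset.prod_bij i h1 h2 h4 (fun a ha => ?_)
  obtain ⟨p1, p2⟩ := (isPR_PR hf).1 a ha
  exact hF _ _ (Prim.mul hβ p1) (IsCoprime.mul_left hβf p2) (h5 a ha)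

end Pool.Agent.STg
end

section

/-!
# The coordinates `sM`
-/

open Complex

namespace Pool.Agent.STg

private lemma Q3a_coprime {k a : ℕ} (ha : Odd a) : a.Coprime (2 ^ k) :=
  Nat.Coprime.pow_right k ((Nat.coprime_two_right).mpr ha)

private lemma Q3a_coe {k a : ℕ} (ha : Odd a) : ((nu k a : (ZMod (2 ^ k))ˣ) : ZMod (2 ^ k)) = (a : ZMod (2 ^ k)) := by
  unfold nu
  rw [dif_pos (Q3a_coprime ha)]
  exact ZMod.coe_unitOfCoprime _ _

lemma nu_mul {k a b : ℕ} (ha : Odd a) (hb : Odd b) : nu k (a * b) = nu k a * nu k b := by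
  apply Units.ext
  rw [Units.val_mul, Q3a_coe ha, Q3a_coe hb, Q3a_coe (ha.mul hb), Nat.cast_mul]

lemma nu_eq_of_mod {k a b : ℕ} (ha : Odd a) (hb : Odd b) (h : a ≡ b [MOD 2 ^ k]) :
    nu k a = nu k b := by
  apply Units.ext
  rw [Q3a_coe ha, Q3a_coe hb]
  exact (ZMod.natCast_eq_natCast_iff a b (2 ^ k)).mpr h

lemma nu_eq_iff {k a b : ℕ} (ha : Odd a) (hb : Odd b) : nu k a = nu k b ↔ a ≡ b [MOD 2 ^ k] := by
  refine ⟨fun h => ?_, nu_eq_of_mod ha hb⟩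
  have h1 : ((nu k a : (ZMod (2 ^ k))ˣ) : ZMod (2 ^ k)) = ((nu k b : (ZMod (2 ^ k))ˣ) : ZMod (2 ^ k)) := by
    rw [h]
  rw [Q3a_coe ha, Q3a_coe hb] at h1
  exact (ZMod.natCast_eq_natCast_iff a b (2 ^ k)).mp h1

lemma nu_one (k : ℕ) : nu k 1 = 1 := by
  apply Units.ext
  rw [Q3a_coe odd_one, Nat.cast_one, Units.val_one]

lemma zc_mul_zc (k : ℕ) : zc k * zc k = 1 := by
  unfold zc
  rw [Prod.mk_mul_mk]
  simp

lemma zc_inv_mul (k : ℕ) (g : Gam k) : zc k * (zc k * g) = g := by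
  rw [← mul_assoc, zc_mul_zc, one_mul]

section U

variable (U : UD)

lemma UD.f_ne_zero (J : ℕ) : U.f J ≠ 0 := by
  have hδ : U.δ ≠ 0 := by
    intro h
    have h1 := U.one_lt
    rw [h] at h1
    simp [gN] at h1
  unfold UD.f
  refine mul_ne_zero (pow_ne_zero _ ?_) hδ
  exact two_ne_zero

lemma UD.δ_ne_zero : U.δ ≠ 0 := by
  intro h
  have h1 := U.one_lt
  rw [h] at h1
  simp [gN] at h1

lemma UD.cube_dvd {J : ℕ} (hJ : 2 ≤ J) : (⟨1, 1⟩ : GaussianInt) ^ 3 ∣ U.f J := by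
  have h1 : (4 : GaussianInt) = 2 ^ 2 := by norm_num
  have h2 : (2 : GaussianInt) ^ 2 ∣ 2 ^ J := pow_dvd_pow _ hJ
  unfold UD.f
  refine Dvd.dvd.mul_right ?_ _
  exact cube_dvd_four.trans (h1 ▸ h2)

lemma UD.two_dvd {J : ℕ} (hJ : 1 ≤ J) : (2 : GaussianInt) ∣ U.f J := by
  unfold UD.f
  refine Dvd.dvd.mul_right ?_ _
  exact dvd_pow_self _ (by omega)

lemma UD.δ_dvd (J : ℕ) : U.δ ∣ U.f J := Dvd.intro_left _ rfl

/-- coprime to `f` iff coprime to `δ`, for primary elements -/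
lemma UD.coprime_f {a : GaussianInt} (ha : Prim a) (J : ℕ) (h : IsCoprime a U.δ) :
    IsCoprime a (U.f J) := by
  unfold UD.f
  exact IsCoprime.mul_right (ha.coprime_two.pow_right) h

lemma UD.coprime_δ {a : GaussianInt} {J : ℕ} (h : IsCoprime a (U.f J)) : IsCoprime a U.δ := by
  unfold UD.f at h
  exact h.of_mul_right_right

lemma sM_mul {k : ℕ} {a b : GaussianInt} (ha : Prim a) (hb : Prim b) (haδ : IsCoprime a U.δ)
    (hbδ : IsCoprime b U.δ) : sM U k (a * b) = sM U k a * sM U k b := by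
  unfold sM
  rw [Prod.mk_mul_mk, gN_mul, nu_mul ha.odd hb.odd, U.psi.mul a b ha hb haδ hbδ]

/-- periodicity of the coordinates modulo `2 ^ J δ`: if `f ∣ a - b` then `16 δ ∣ a - b` and
`2 ^ k ∣ N(a) - N(b)` -/
lemma sM_per {k J : ℕ} (hJ : k + 4 ≤ J) {a b : GaussianInt} (ha : Prim a) (haδ : IsCoprime a U.δ)
    (h : U.f J ∣ a - b) : sM U k a = sM U k b := by
  have hb : Prim b := Prim.of_dvd (U.cube_dvd (by omega)) ha h
  have h16 : (16 : GaussianInt) * U.δ ∣ a - b := by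
    refine dvd_trans ?_ h
    unfold UD.f
    refine mul_dvd_mul ?_ dvd_rfl
    have h1 : (16 : GaussianInt) = 2 ^ 4 := by norm_num
    rw [h1]
    exact pow_dvd_pow _ (by omega)
  have h2 : gN a ≡ gN b [MOD 2 ^ k] := by
    obtain ⟨c, hc⟩ := h
    have hc' : a - b = (((2 : ℤ) ^ J : ℤ) : GaussianInt) * (U.δ * c) := by
      rw [hc]
      unfold UD.f
      push_cast
      ring
    have hre : a.re - b.re = 2 ^ J * (U.δ * c).re := by
      have := congrArg Zsqrtd.re hc'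
      rw [Zsqrtd.re_smul] at this
      simpa using this
    have him : a.im - b.im = 2 ^ J * (U.δ * c).im := by
      have := congrArg Zsqrtd.im hc'
      rw [Zsqrtd.im_smul] at this
      simpa using this
    have hN : ∀ x : GaussianInt, ((gN x : ℕ) : ℤ) = x.re * x.re + x.im * x.im := by
      intro x
      unfold gN
      rw [Int.natAbs_of_nonneg (GaussianInt.norm_nonneg x), Zsqrtd.norm_def]
      ring
    have hdvd : ((2 ^ J : ℕ) : ℤ) ∣ ((gN b : ℕ) : ℤ) - ((gN a : ℕ) : ℤ) := by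
      rw [hN, hN]
      refine ⟨-((U.δ * c).re * (a.re + b.re) + (U.δ * c).im * (a.im + b.im)), ?_⟩
      push_cast
      linear_combination (-(a.re + b.re)) * hre + (-(a.im + b.im)) * him
    have h3 : gN a ≡ gN b [MOD 2 ^ J] := (Nat.modEq_iff_dvd).mpr hdvd
    exact h3.of_dvd (pow_dvd_pow 2 (by omega))
  unfold sM
  rw [U.psi.per a b ha haδ h16, nu_eq_of_mod ha.odd hb.odd h2]

end U

end Pool.Agent.STg
end
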