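import Mathlib

section

set_option autoImplicit false

namespace Pool.Agent.STg.F

/-- TASK F15 (Dickson polynomials).
PROOF. `dickson_pow`: over `ZMod p`, `dickson 1 1 (p ^ f) = X ^ (p ^ f)`: induction on `f` with `Polynomial.dickson_one_one_mul`
(`dickson 1 1 (m n) = (dickson 1 1 m).comp (dickson 1 1 n)`) and `Polynomial.dickson_one_one_zmod_p` (`pow_comp`, `X_comp`). So in `ℤ[X]`
every coefficient of `dickson 1 1 (p ^ f) - X ^ (p ^ f)` is divisible by `p` (`Polynomial.map_dickson`; `Polynomial.map (Int.castRingHom (ZMod p))` is zero), i.e. it is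
`C p * Q` (`Polynomial.C_dvd_iff_dvd_coeff`, `ZMod.intCast_zmod_eq_zero_iff_dvd`). Map `ℤ[X] → R[X]` and evaluate at `x`.
`dickson_cos`: induction on `n` with `Polynomial.dickson_add_two` and the addition formula, or `Polynomial.dickson_one_one_eq_chebyshev_T`/`Polynomial.Chebyshev.T_real_cos`
(`Chebyshev.C` has the lemma `Polynomial.Chebyshev.C_two_mul_real_cos` or similar). -/
theorem dickson_pow {p : ℕ} (hp : p.Prime) (f : ℕ) {R : Type*} [CommRing R] (x : R) :
    (p : R) ∣ (Polynomial.dickson 1 (1 : R) (p ^ f)).eval x - x ^ (p ^ f) := by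
  haveI : Fact p.Prime := ⟨hp⟩
  have h1 : ∀ f : ℕ, Polynomial.dickson 1 (1 : ZMod p) (p ^ f) = Polynomial.X ^ (p ^ f) := by
    intro f
    induction f with
    | zero => simp
    | succ n ih =>
      rw [pow_succ, Polynomial.dickson_one_one_mul, ih, Polynomial.dickson_one_one_zmod_p,
        Polynomial.pow_comp, Polynomial.X_comp, ← pow_mul, mul_comm]
  have h2 : Polynomial.C (p : ℤ) ∣
      Polynomial.dickson 1 (1 : ℤ) (p ^ f) - Polynomial.X ^ (p ^ f) := by
    rw [Polynomial.C_dvd_iff_dvd_coeff]
    intro i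
    rw [← ZMod.intCast_zmod_eq_zero_iff_dvd, ← eq_intCast (Int.castRingHom (ZMod p)),
      ← Polynomial.coeff_map, Polynomial.map_sub, Polynomial.map_dickson, Polynomial.map_pow,
      Polynomial.map_X, map_one, h1 f, sub_self, Polynomial.coeff_zero]
  obtain ⟨Q, hQ⟩ := h2
  refine ⟨(Q.map (Int.castRingHom R)).eval x, ?_⟩
  have h3 := congrArg (fun P : Polynomial ℤ => (P.map (Int.castRingHom R)).eval x) hQ
  simpa [Polynomial.map_dickson] using h3

theorem dickson_cos (n : ℕ) (θ : ℝ) :
    (Polynomial.dickson 1 (1 : ℝ) n).eval (2 * Real.cos θ) = 2 * Real.cos (n * θ) := by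
  rw [Polynomial.dickson_one_one_eq_chebyshev_C, Polynomial.Chebyshev.C_two_mul_real_cos]
  simp

end Pool.Agent.STg.F
end

section

/-!
# A prime with a given residue symbol
-/

namespace Pool.Agent.STg

private lemma R5a_u {l : ℕ} (hl : l.Prime) (hl2 : l ≠ 2) : ∃ u : ℕ, jacobiSym u l = -1 := by
  have := Fact.mk hl
  obtain ⟨a, ha⟩ := FiniteField.exists_nonsquare (F := ZMod l) (by
    rw [ZMod.ringChar_zmod_n]; exact hl2)
  refine ⟨a.val, ?_⟩
  rw [← jacobiSym.legendreSym.to_jacobiSym, legendreSym.eq_neg_one_iff]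
  simpa using ha

/-- There is a prime number `p = 1` modulo `4`, not dividing `d > 1` (squarefree), with
`(d | p) = -1`. Proof: if an odd prime `l` divides `d`, choose by Dirichlet's theorem
(`Nat.forall_exists_prime_gt_and_eq_mod`) a prime `p = 1` modulo `8` and modulo all odd primes
dividing `d / l`, and a non-residue modulo `l`; then `(d | p) = (l | p) = (p | l) = -1` by
reciprocity. If `d = 2` choose `p = 5` modulo `8`. -/
lemma exists_nonresidue {d : ℕ} (hd : Squarefree d) (h1 : 1 < d) :
    ∃ p : ℕ, p.Prime ∧ p % 4 = 1 ∧ ¬ p ∣ d ∧ jacobiSym d p = -1 := by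
  by_cases h : ∃ l : ℕ, l.Prime ∧ l ≠ 2 ∧ l ∣ d
  · obtain ⟨l, hl, hl2, m, rfl⟩ := h
    have hlodd : Odd l := hl.odd_of_ne_two hl2
    have hm0 : m ≠ 0 := by rintro rfl; simp at h1
    have hlm : Nat.Coprime l m := Nat.coprime_of_squarefree_mul hd
    have hcop : Nat.Coprime (4 * m) l := by
      apply Nat.Coprime.mul_left
      · have : Nat.Coprime 2 l := (Nat.coprime_primes Nat.prime_two hl).2 (Ne.symm hl2)
        exact Nat.Coprime.pow_left 2 this
      · exact hlm.symm
    obtain ⟨u, hu⟩ := R5a_u hl hl2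
    have hul : Nat.Coprime u l := by
      have h0 : jacobiSym u l ≠ 0 := by rw [hu]; norm_num
      rw [Ne, jacobiSym.eq_zero_iff] at h0
      push Not at h0
      have := h0 hl.ne_zero
      simpa [Nat.coprime_iff_gcd_eq_one] using this
    obtain ⟨a, ha1, ha2⟩ := Nat.chineseRemainder hcop 1 u
    have hacop : Nat.Coprime a (4 * m * l) := by
      apply Nat.Coprime.mul_right
      · have := ha1.gcd_eq
        rw [Nat.coprime_iff_gcd_eq_one, this]
        simp
      · have := ha2.gcd_eq
        rw [Nat.coprime_iff_gcd_eq_one, this]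
        exact hul
    obtain ⟨p, hpgt, hp, hpa⟩ := Nat.forall_exists_prime_gt_and_modEq (l * m)
      (q := 4 * m * l) (a := a) (Nat.mul_ne_zero (Nat.mul_ne_zero (by norm_num) hm0) hl.ne_zero) hacop
    have hp1 : p ≡ 1 [MOD 4 * m] := (hpa.of_mul_right l).trans ha1
    have hpu : p ≡ u [MOD l] := (hpa.of_mul_left (4 * m)).trans ha2
    have hp4 : p % 4 = 1 := by
      have := hp1.of_mul_right m
      simpa [Nat.ModEq] using this
    have hpodd : Odd p := by
      rw [Nat.odd_iff]; omega
    refine ⟨p, hp, hp4, ?_, ?_⟩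
    · intro hdvd
      have := Nat.le_of_dvd (by omega) hdvd
      omega
    · push_cast
      rw [jacobiSym.mul_left]
      have e1 : jacobiSym (m : ℤ) p = 1 := by
        rw [jacobiSym.mod_right _ hpodd]
        have e2 : p % (4 * (m : ℤ).natAbs) = 1 := by
          rw [Int.natAbs_natCast]
          have h3 : p % (4 * m) = 1 % (4 * m) := hp1
          rw [h3]
          exact Nat.mod_eq_of_lt (by omega)
        rw [e2, jacobiSym.one_right]
      have e3 : jacobiSym (l : ℤ) p = -1 := by
        rw [← jacobiSym.quadratic_reciprocity_one_mod_four hp4 hlodd, ← hu]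
        apply jacobiSym.mod_left'
        have h3 : p % l = u % l := hpu
        exact_mod_cast h3
      rw [e1, e3]
      norm_num
  · push Not at h
    have hd2 : d = 2 := by
      obtain ⟨q, hq, hqd⟩ := Nat.exists_prime_and_dvd h1.ne'
      have hq2 : q = 2 := by
        by_contra h2
        exact h q hq h2 hqd
      subst hq2
      obtain ⟨m, rfl⟩ := hqd
      by_cases hm1 : m = 1
      · rw [hm1]
      · obtain ⟨r, hr, hrm⟩ := Nat.exists_prime_and_dvd hm1
        have hr2 : r = 2 := by
          by_contra h2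
          exact h r hr h2 (Dvd.dvd.mul_left hrm 2)
        subst hr2
        have := hd 2 (Nat.mul_dvd_mul_left 2 hrm)
        exact absurd this (by decide)
    subst hd2
    refine ⟨5, by norm_num, by norm_num, by norm_num, ?_⟩
    push_cast
    rw [jacobiSym.at_two (by decide)]
    decide

end Pool.Agent.STg
end
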