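import Pool.Agent.Lib.MP_1ef7cf_nt_g.Q
import Pool.Agent.Lib.MP_1ef7cf_nt_g.Mg.G026
import Pool.Agent.Lib.MP_1ef7cf_nt_g.D1a

section

/-!
# An element with `Ψ(τ) Ψ(τ') = -1`
-/

namespace Pool.Agent.STg

variable (U : UD)

lemma UD.Ψ_one : U.Ψ 1 = 1 := by
  have h := U.psi.mul 1 1 prim_one prim_one isCoprime_one_left isCoprime_one_left
  rw [mul_one] at h
  exact (mul_eq_left.1 h.symm)

lemma R5b_gN_star (a : GaussianInt) : gN (star a) = gN a := by
  unfold gN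
  rw [Zsqrtd.norm_conj]

lemma R5b_prime {a : GaussianInt} (h : Nat.Prime (gN a)) : Prime a := by
  apply Irreducible.prime
  refine ⟨fun hu => ?_, fun x y hxy => ?_⟩
  · rw [← Zsqrtd.norm_eq_one_iff] at hu
    exact h.one_lt.ne' hu
  · have h1 : gN x * gN y = gN a := by rw [hxy, gN_mul]
    rw [← h1] at h
    rcases (Nat.prime_mul_iff.1 h) with ⟨_, h2⟩ | ⟨_, h2⟩
    · exact Or.inr (Zsqrtd.norm_eq_one_iff.1 h2)
    · exact Or.inl (Zsqrtd.norm_eq_one_iff.1 h2)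

lemma R5b_gN_dvd {a b : GaussianInt} (h : a ∣ b) : gN a ∣ gN b := by
  obtain ⟨c, rfl⟩ := h
  rw [gN_mul]
  exact Dvd.intro _ rfl

lemma R5b_cop {a : GaussianInt} (h : Nat.Prime (gN a)) {δ : GaussianInt}
    (hd : ¬ gN a ∣ gN δ) : IsCoprime a δ :=
  ((R5b_prime h).irreducible.coprime_iff_not_dvd).2 (fun h1 => hd (R5b_gN_dvd h1))

lemma R5b_prim_star {a : GaussianInt} (h : Prim a) : Prim (star a) := by
  rw [prim_iff] at h ⊢
  obtain ⟨⟨k, hk⟩, h2⟩ := h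
  rw [Zsqrtd.re_star, Zsqrtd.im_star]
  refine ⟨⟨-k, by rw [hk]; ring⟩, ?_⟩
  omega

lemma R5b_star_dvd {a b : GaussianInt} (h : a ∣ b) : star a ∣ star b := by
  obtain ⟨c, rfl⟩ := h
  exact ⟨star c, by rw [star_mul, mul_comm]⟩

/-- There is a primary prime `τ`, prime to `δ` and to its conjugate `δ'`, such that
`Ψ(τ) Ψ(τ') = -1` where `τ'` is the conjugate (which is primary too). Proof: `p = N(τ)` as in
`exists_nonresidue` with `d = N(δ)`; `Ψ(τ') = δ ^ ((p - 1) / 2)` modulo `τ'` gives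
`Ψ(τ') = (δ') ^ ((p - 1) / 2)` modulo `τ`, so `Ψ(τ) Ψ(τ') = N(δ) ^ ((p - 1) / 2) = (d | p)`
modulo `τ`. -/
lemma exists_tau : ∃ τ : GaussianInt, Prim τ ∧ Prim (star τ) ∧ IsCoprime τ U.δ ∧
    IsCoprime (star τ) U.δ ∧ U.Ψ τ * U.Ψ (star τ) = -1 := by
  obtain ⟨p, hp, hp4, hpd, hj⟩ := exists_nonresidue U.sqf U.one_lt
  have hfact : Fact p.Prime := ⟨hp⟩
  obtain ⟨x, y, hxy⟩ := Nat.Prime.sq_add_sq (p := p) (by omega)
  have hN0 : gN (⟨x, y⟩ : GaussianInt) = p := by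
    unfold gN
    rw [Zsqrtd.norm_def, ← hxy]
    have : ((⟨x, y⟩ : GaussianInt).re * (⟨x, y⟩ : GaussianInt).re -
        -1 * (⟨x, y⟩ : GaussianInt).im * (⟨x, y⟩ : GaussianInt).im) = ((x ^ 2 + y ^ 2 : ℕ) : ℤ) := by
      push_cast
      ring
    rw [this, Int.natAbs_natCast]
  obtain ⟨u, hu, hτ⟩ := exists_prim_assoc (a := (⟨x, y⟩ : GaussianInt)) (by
    unfold gOdd
    rw [hN0, Nat.odd_iff]; omega)
  obtain ⟨τ, hτe⟩ : ∃ τ : GaussianInt, τ = u * ⟨x, y⟩ := ⟨_, rfl⟩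
  rw [← hτe] at hτ
  have hN : gN τ = p := by
    rw [hτe, gN_mul, hN0]
    have : gN u = 1 := Zsqrtd.norm_eq_one_iff.2 hu
    rw [this, one_mul]
  have hN' : gN (star τ) = p := by rw [R5b_gN_star, hN]
  have hPr : Nat.Prime (gN τ) := by rw [hN]; exact hp
  have hPr' : Nat.Prime (gN (star τ)) := by rw [hN']; exact hp
  have hc1 : IsCoprime τ U.δ := R5b_cop hPr (by rw [hN]; exact hpd)
  have hc2 : IsCoprime (star τ) U.δ := R5b_cop hPr' (by rw [hN']; exact hpd)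
  have hτ' := R5b_prim_star hτ
  refine ⟨τ, hτ, hτ', hc1, hc2, ?_⟩
  have hnd : ¬ τ ∣ U.δ := fun h => hpd (by rw [← hN]; exact R5b_gN_dvd h)
  have hnd' : ¬ star τ ∣ U.δ := fun h => hpd (by rw [← hN']; exact R5b_gN_dvd h)
  have h1 := U.psi.leg τ (R5b_prime hPr) hτ hnd
  have h2 := U.psi.leg (star τ) (R5b_prime hPr') hτ' hnd'
  rw [hN] at h1
  rw [hN'] at h2
  have h3 : τ ∣ (star U.δ) ^ ((p - 1) / 2) - (((U.Ψ (star τ) : ℤˣ) : ℤ) : GaussianInt) := by
    have h4 := R5b_star_dvd h2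
    rw [star_star, star_sub, star_pow] at h4
    have h5 : star (((U.Ψ (star τ) : ℤˣ) : ℤ) : GaussianInt) =
        (((U.Ψ (star τ) : ℤˣ) : ℤ) : GaussianInt) := by
      rw [star_intCast]
    rwa [h5] at h4
  have h6 : τ ∣ (U.δ * star U.δ) ^ ((p - 1) / 2) -
      (((U.Ψ τ : ℤˣ) : ℤ) : GaussianInt) * (((U.Ψ (star τ) : ℤˣ) : ℤ) : GaussianInt) := by
    have e : (U.δ * star U.δ) ^ ((p - 1) / 2) -
        (((U.Ψ τ : ℤˣ) : ℤ) : GaussianInt) * (((U.Ψ (star τ) : ℤˣ) : ℤ) : GaussianInt) =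
        (U.δ ^ ((p - 1) / 2) - (((U.Ψ τ : ℤˣ) : ℤ) : GaussianInt)) * (star U.δ) ^ ((p - 1) / 2) +
        (((U.Ψ τ : ℤˣ) : ℤ) : GaussianInt) *
          ((star U.δ) ^ ((p - 1) / 2) - (((U.Ψ (star τ) : ℤˣ) : ℤ) : GaussianInt)) := by
      rw [mul_pow]; ring
    rw [e]
    exact dvd_add (h1.mul_right _) (h3.mul_left _)
  rw [mul_star_eq] at h6
  have hp2 : (p - 1) / 2 = p / 2 := by omega
  have h7 : (p : ℤ) ∣ ((gN U.δ : ℕ) : ℤ) ^ (p / 2) - (-1) := by
    rw [← jacobiSym.legendreSym.to_jacobiSym] at hj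
    have h8 := legendreSym.eq_pow p ((gN U.δ : ℕ) : ℤ)
    rw [hj] at h8
    rw [← ZMod.intCast_eq_intCast_iff_dvd_sub]
    push_cast at h8 ⊢
    exact h8
  have hτp : τ ∣ ((p : ℤ) : GaussianInt) := by
    have h8 := mul_star_eq τ
    rw [hN] at h8
    rw [Int.cast_natCast, ← h8]
    exact Dvd.intro _ rfl
  have h9 : τ ∣ (((gN U.δ : ℕ) : GaussianInt)) ^ ((p - 1) / 2) - (-1) := by
    rw [hp2]
    obtain ⟨c, hc⟩ := h7
    have h10 : (((gN U.δ : ℕ) : GaussianInt)) ^ (p / 2) - (-1) =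
        ((p : ℤ) : GaussianInt) * (c : GaussianInt) := by
      rw [← Int.cast_mul, ← hc]
      push_cast
      rfl
    rw [h10]
    exact hτp.mul_right _
  have h11 : τ ∣ (((U.Ψ τ * U.Ψ (star τ) : ℤˣ) : ℤ) : GaussianInt) + 1 := by
    have h12 := dvd_sub h9 h6
    have e : (((gN U.δ : ℕ) : GaussianInt)) ^ ((p - 1) / 2) - (-1) -
        ((((gN U.δ : ℕ) : GaussianInt)) ^ ((p - 1) / 2) -
          (((U.Ψ τ : ℤˣ) : ℤ) : GaussianInt) * (((U.Ψ (star τ) : ℤˣ) : ℤ) : GaussianInt)) =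
        (((U.Ψ τ * U.Ψ (star τ) : ℤˣ) : ℤ) : GaussianInt) + 1 := by
      push_cast
      ring
    rwa [e] at h12
  rcases Int.units_eq_one_or (U.Ψ τ * U.Ψ (star τ)) with h12 | h12
  · exfalso
    rw [h12] at h11
    have h13 := R5b_gN_dvd h11
    rw [hN] at h13
    have h14 : gN ((((1 : ℤˣ) : ℤ) : GaussianInt) + 1) = 4 := by
      have : ((((1 : ℤˣ) : ℤ) : GaussianInt) + 1) = ((2 : ℤ) : GaussianInt) := by
        push_cast; norm_num
      rw [this]
      unfold gN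
      rw [Zsqrtd.norm_intCast]
      norm_num
    rw [h14] at h13
    have h15 := Nat.le_of_dvd (by norm_num) h13
    interval_cases p <;> omega
  · exact h12

end Pool.Agent.STg
end

section

/-!
# Applications of homomorphisms; algebraic numbers
-/

open Complex Polynomial

namespace Pool.Agent.STg

section ap

lemma ap_of_mem {E : Type*} [Field E] [Algebra ℚ E] {F : IntermediateField ℚ E}
    (φ : F →+* ℂ) {x : E} (hx : x ∈ F) : ap φ x = φ ⟨x, hx⟩ := by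
  unfold ap
  rw [dif_pos hx]

lemma ap_add {E : Type*} [Field E] [Algebra ℚ E] {F : IntermediateField ℚ E}
    (φ : F →+* ℂ) {x y : E} (hx : x ∈ F) (hy : y ∈ F) : ap φ (x + y) = ap φ x + ap φ y := by
  rw [ap_of_mem φ (add_mem hx hy), ap_of_mem φ hx, ap_of_mem φ hy, ← map_add]
  rfl

lemma ap_sub {E : Type*} [Field E] [Algebra ℚ E] {F : IntermediateField ℚ E}
    (φ : F →+* ℂ) {x y : E} (hx : x ∈ F) (hy : y ∈ F) : ap φ (x - y) = ap φ x - ap φ y := by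
  rw [ap_of_mem φ (sub_mem hx hy), ap_of_mem φ hx, ap_of_mem φ hy, ← map_sub]
  rfl

lemma ap_mul {E : Type*} [Field E] [Algebra ℚ E] {F : IntermediateField ℚ E}
    (φ : F →+* ℂ) {x y : E} (hx : x ∈ F) (hy : y ∈ F) : ap φ (x * y) = ap φ x * ap φ y := by
  rw [ap_of_mem φ (mul_mem hx hy), ap_of_mem φ hx, ap_of_mem φ hy, ← map_mul]
  rfl

lemma ap_inv {E : Type*} [Field E] [Algebra ℚ E] {F : IntermediateField ℚ E}
    (φ : F →+* ℂ) {x : E} (hx : x ∈ F) : ap φ x⁻¹ = (ap φ x)⁻¹ := by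
  rw [ap_of_mem φ (inv_mem hx), ap_of_mem φ hx, ← map_inv₀]
  rfl

lemma ap_div {E : Type*} [Field E] [Algebra ℚ E] {F : IntermediateField ℚ E}
    (φ : F →+* ℂ) {x y : E} (hx : x ∈ F) (hy : y ∈ F) : ap φ (x / y) = ap φ x / ap φ y := by
  rw [div_eq_mul_inv, ap_mul φ hx (inv_mem hy), ap_inv φ hy, div_eq_mul_inv]

lemma ap_pow {E : Type*} [Field E] [Algebra ℚ E] {F : IntermediateField ℚ E}
    (φ : F →+* ℂ) {x : E} (hx : x ∈ F) (n : ℕ) : ap φ (x ^ n) = ap φ x ^ n := by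
  rw [ap_of_mem φ (pow_mem hx n), ap_of_mem φ hx, ← map_pow]
  rfl

lemma ap_prod {E : Type*} [Field E] [Algebra ℚ E] {F : IntermediateField ℚ E}
    (φ : F →+* ℂ) {ι : Type*} (s : Finset ι) (x : ι → E) (hx : ∀ i ∈ s, x i ∈ F) :
    ap φ (∏ i ∈ s, x i) = ∏ i ∈ s, ap φ (x i) := by
  classical
  induction s using Finset.induction_on with
  | empty =>
    rw [Finset.prod_empty, Finset.prod_empty, ap_of_mem φ (one_mem F)]
    exact map_one φ
  | insert i s hi ih =>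
    rw [Finset.prod_insert hi, Finset.prod_insert hi, ap_mul φ (hx i (Finset.mem_insert_self _ _))
      (prod_mem fun j hj => hx j (Finset.mem_insert_of_mem hj)),
      ih fun j hj => hx j (Finset.mem_insert_of_mem hj)]

lemma ap_ratCast {E : Type*} [Field E] [Algebra ℚ E] {F : IntermediateField ℚ E}
    (φ : F →+* ℂ) (q : ℚ) : ap φ (algebraMap ℚ E q) = (q : ℂ) := by
  rw [ap_of_mem φ (F.algebraMap_mem q)]
  have h : (⟨algebraMap ℚ E q, F.algebraMap_mem q⟩ : F) = (q : F) := by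
    apply Subtype.ext
    simp
  rw [h, map_ratCast]

lemma ap_one {E : Type*} [Field E] [Algebra ℚ E] {F : IntermediateField ℚ E}
    (φ : F →+* ℂ) : ap φ 1 = 1 := by
  rw [ap_of_mem φ (one_mem F)]
  exact map_one φ

lemma ap_zero {E : Type*} [Field E] [Algebra ℚ E] {F : IntermediateField ℚ E}
    (φ : F →+* ℂ) : ap φ 0 = 0 := by
  rw [ap_of_mem φ (zero_mem F)]
  exact map_zero φ

lemma ap_eq_zero {E : Type*} [Field E] [Algebra ℚ E] {F : IntermediateField ℚ E}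
    (φ : F →+* ℂ) {x : E} (hx : x ∈ F) : ap φ x = 0 ↔ x = 0 := by
  rw [ap_of_mem φ hx, map_eq_zero]
  exact ⟨fun h => congrArg Subtype.val h, fun h => Subtype.ext h⟩

end ap

lemma D3a_I_mem : I ∈ Qb := by
  unfold Qb
  rw [mem_algebraicClosure_iff]
  refine ⟨Polynomial.X ^ 2 + 1, ?_, ?_⟩
  · intro h
    have h1 := congrArg (Polynomial.eval 0) h
    simp at h1
  · simp

lemma D3a_le : QI ≤ Qb := by
  unfold QI
  rw [IntermediateField.adjoin_le_iff]
  intro x hx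
  rw [Set.mem_singleton_iff] at hx
  rw [hx]
  exact D3a_I_mem

/-- `ap h` fixes the elements of `ℚ(i)`. -/
lemma ap_QI (h : Qb →+* ℂ) (hI : ap h I = I) {x : ℂ} (hx : x ∈ QI) : ap h x = x := by
  unfold QI at hx
  have key : ∀ y ∈ IntermediateField.adjoin ℚ {I}, y ∈ Qb ∧ ap h y = y := by
    intro y hy
    induction hy using IntermediateField.adjoin_induction with
    | mem x hx =>
      rw [Set.mem_singleton_iff] at hx
      rw [hx]
      exact ⟨D3a_I_mem, hI⟩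
    | algebraMap q =>
      refine ⟨Qb.algebraMap_mem q, ?_⟩
      rw [ap_ratCast]
      rfl
    | add x y _ _ hx hy => exact ⟨add_mem hx.1 hy.1, by rw [ap_add h hx.1 hy.1, hx.2, hy.2]⟩
    | inv x _ hx => exact ⟨inv_mem hx.1, by rw [ap_inv h hx.1, hx.2]⟩
    | mul x y _ _ hx hy => exact ⟨mul_mem hx.1 hy.1, by rw [ap_mul h hx.1 hy.1, hx.2, hy.2]⟩
  exact (key x hx).2

lemma D3a_gauss (a : GaussianInt) : (a : ℂ) ∈ QI := by
  rw [GaussianInt.toComplex_def]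
  refine add_mem ?_ (mul_mem ?_ I_mem_QI)
  · exact intCast_mem QI a.re
  · exact intCast_mem QI a.im

lemma gauss_mem_Qb (a : GaussianInt) : (a : ℂ) ∈ Qb := by
  exact D3a_le (D3a_gauss a)

lemma ap_gauss (h : Qb →+* ℂ) (hI : ap h I = I) (a : GaussianInt) : ap h (a : ℂ) = a := by
  exact ap_QI h hI (D3a_gauss a)

/-- a root of a non-zero polynomial with coefficients in `ℚ(i)` is algebraic -/
lemma mem_Qb_of_root {q : Polynomial QI} (hq : q ≠ 0) {t : ℂ} (ht : aeval t q = 0) : t ∈ Qb := by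
  have h1 : Algebra.IsAlgebraic ℚ QI := by
    refine ⟨fun x => ?_⟩
    have h2 : IsAlgebraic ℚ (x : ℂ) := by
      have := D3a_le x.2
      unfold Qb at this
      rwa [mem_algebraicClosure_iff] at this
    exact (isAlgebraic_algebraMap_iff (algebraMap QI ℂ).injective).1 h2
  unfold Qb
  rw [mem_algebraicClosure_iff]
  have h3 : IsAlgebraic QI t := ⟨q, hq, ht⟩
  exact h3.restrictScalars ℚ

/-- a root of a monic quadratic polynomial with algebraic coefficients is algebraic -/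
lemma mem_Qb_of_quad {a b t : ℂ} (ha : a ∈ Qb) (hb : b ∈ Qb) (h : t ^ 2 + a * t + b = 0) :
    t ∈ Qb := by
  have h1 : Algebra.IsAlgebraic ℚ Qb := algebraicClosure.isAlgebraic ℚ ℂ
  unfold Qb
  rw [mem_algebraicClosure_iff]
  have h3 : IsAlgebraic Qb t := by
    refine ⟨Polynomial.X ^ 2 + (C (⟨a, ha⟩ : Qb) * Polynomial.X + C (⟨b, hb⟩ : Qb)), ?_, ?_⟩
    · exact (Polynomial.monic_X_pow_add (by
        refine lt_of_le_of_lt (Polynomial.degree_linear_le) ?_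
        norm_num)).ne_zero
    · simp only [map_add, map_mul, map_pow, aeval_X, aeval_C]
      rw [← add_assoc]
      exact h
  exact h3.restrictScalars ℚ

end Pool.Agent.STg
end
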