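import Pool.Agent.Lib.MP_1ef7cf_nt_g.Mg.G030
import Pool.Agent.Lib.MP_1ef7cf_nt_g.Mg.G028
import Pool.Agent.Lib.MP_1ef7cf_nt_g.Mg.G029
import Pool.Agent.Lib.MP_1ef7cf_nt_g.D1a

section

/-!
# Fixed elements
-/

open Complex

namespace Pool.Agent.STg

variable (U : UD) (k : ℕ)

lemma V3c_zk_mem : zk k ∈ Qb := by
  have h1 : zk k ^ (2 ^ k) = 1 := by
    unfold zk
    rw [← Complex.exp_nat_mul]
    have h2 : ((2 ^ k : ℕ) : ℂ) * (2 * Real.pi * I / 2 ^ k) = 2 * Real.pi * I := by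
      push_cast
      have h3 : (2 : ℂ) ^ k ≠ 0 := pow_ne_zero _ two_ne_zero
      field_simp
    rw [h2, Complex.exp_two_pi_mul_I]
  unfold Qb
  rw [mem_algebraicClosure_iff']
  refine IsIntegral.of_pow (n := 2 ^ k) (pow_pos two_pos k) ?_
  rw [h1]
  exact isIntegral_one

lemma V3c_rat_mem (q : ℚ) : (q : ℂ) ∈ Qb := by
  have h1 := Qb.algebraMap_mem q
  simpa using h1

lemma V3c_int_mem (n : ℤ) : (n : ℂ) ∈ Qb := by
  have h1 := V3c_rat_mem (n : ℚ)
  simpa using h1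

lemma V3c_e_mem : (U.e : ℂ) ∈ Qb := by
  have h1 : (U.e : ℂ) ^ 2 + ((-U.T : ℤ) : ℂ) * (U.e : ℂ) + ((-1 : ℤ) : ℂ) = 0 := by
    have h2 : ((U.e ^ 2 : ℝ) : ℂ) = ((U.T * U.e + 1 : ℝ) : ℂ) := by rw [U.e_sq]
    push_cast at h2 ⊢
    linear_combination h2
  exact mem_Qb_of_quad (V3c_int_mem _) (V3c_int_mem _) h1

lemma V3c_r_mem : (U.r : ℂ) ∈ Qb := by
  have h1 : (U.r : ℂ) ^ 2 + 0 * (U.r : ℂ) + (-(U.e : ℂ)) = 0 := by
    have h2 : ((U.r ^ 2 : ℝ) : ℂ) = (U.e : ℂ) := by rw [U.r_sq]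
    push_cast at h2
    linear_combination h2
  exact mem_Qb_of_quad (zero_mem _) (neg_mem (V3c_e_mem U)) h1

lemma V3c_ck_mem : (ck k : ℂ) ∈ Qb := by
  have h1 : (ck k : ℂ) = (zk k + (zk k)⁻¹) / ((2 : ℤ) : ℂ) := by
    rw [← conj_zk, zk_eq, map_add, map_mul, Complex.conj_ofReal, Complex.conj_ofReal,
      Complex.conj_I]
    unfold ck
    push_cast
    ring
  rw [h1]
  exact div_mem (add_mem (V3c_zk_mem k) (inv_mem (V3c_zk_mem k))) (V3c_int_mem 2)

/-- elements of `Rk` are algebraic -/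
lemma Rk_mem_Qb {x : ℝ} (hx : x ∈ Rk U k) : (x : ℂ) ∈ Qb := by
  unfold Rk at hx
  induction hx using IntermediateField.adjoin_induction with
  | mem x hx =>
    rcases hx with rfl | rfl
    · exact V3c_r_mem U
    · exact V3c_ck_mem k
  | algebraMap q =>
    have h1 := V3c_rat_mem q
    simpa using h1
  | add x y _ _ hx hy =>
    rw [Complex.ofReal_add]
    exact add_mem hx hy
  | inv x _ hx =>
    rw [Complex.ofReal_inv]
    exact inv_mem hx
  | mul x y _ _ hx hy =>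
    rw [Complex.ofReal_mul]
    exact mul_mem hx hy

/-- **Fixed elements.** An algebraic number which is fixed by all embeddings fixing `i`, `A`, `ζ` is
in `ℚ(i, A, ζ)`, which is contained in `Nk` (`A = r + i / r`). (If `x ∉ F = ℚ(i, A, ζ)` then the
minimal polynomial of `x` over `F` has another root `y ≠ x` in `ℂ`, and there is an `F`-embedding
of `Qb` with `x ↦ y`.) -/
theorem mem_Nk_of_fixed {x : ℂ} (hx : x ∈ Qb)
    (h : ∀ h : Qb →+* ℂ, ap h I = I → ap h U.A = U.A → ap h (zk k) = zk k → ap h x = x) :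
    x ∈ Nk U k := by
  have hI : I ∈ Nk U k := IntermediateField.subset_adjoin ℚ _ (by simp)
  have hr : (U.r : ℂ) ∈ Nk U k := IntermediateField.subset_adjoin ℚ _ (by simp)
  have hz : zk k ∈ Nk U k := IntermediateField.subset_adjoin ℚ _ (by simp)
  have hIQ : I ∈ Qb := by
    refine mem_Qb_of_quad (zero_mem _) (one_mem _) (t := I) ?_
    simp
  have hA : U.A ∈ Nk U k := add_mem hr (div_mem hI hr)
  have hAQ : U.A ∈ Qb := add_mem (V3c_r_mem U) (div_mem hIQ (V3c_r_mem U))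
  set F : IntermediateField ℚ ℂ := Nk U k with hF
  let K : IntermediateField F ℂ := algebraicClosure F ℂ
  have hQK : ∀ y ∈ Qb, y ∈ K := by
    intro y hy
    have h1 : IsAlgebraic ℚ y := mem_algebraicClosure_iff.mp hy
    exact mem_algebraicClosure_iff.mpr (h1.extendScalars (algebraMap ℚ F).injective)
  have hfix : ∀ σ : K ≃ₐ[F] K, σ ⟨x, hQK x hx⟩ = ⟨x, hQK x hx⟩ := by
    intro σ
    let i : Qb →+* K :=
      { toFun := fun y => ⟨(y : ℂ), hQK y y.2⟩
        map_one' := rfl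
        map_mul' := fun _ _ => rfl
        map_zero' := rfl
        map_add' := fun _ _ => rfl }
    let g : Qb →+* ℂ := (algebraMap K ℂ).comp ((σ : K →+* K).comp i)
    have hg : ∀ (y : ℂ) (hy : y ∈ Qb), ap g y = ((σ ⟨y, hQK y hy⟩ : K) : ℂ) := by
      intro y hy
      rw [ap_of_mem g hy]
      rfl
    have hgF : ∀ y : ℂ, y ∈ Qb → y ∈ F → ap g y = y := by
      intro y hy hyF
      rw [hg y hy]
      have h2 : (⟨y, hQK y hy⟩ : K) = algebraMap F K ⟨y, hyF⟩ := rfl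
      rw [h2, σ.commutes]
      rfl
    have h3 := h g (hgF I hIQ hI) (hgF _ hAQ hA) (hgF _ (V3c_zk_mem k) hz)
    rw [hg x hx] at h3
    exact Subtype.ext h3
  have : IsGalois F K := inferInstance
  have hbot := (InfiniteGalois.mem_bot_iff_fixed (k := F) (K := K) (⟨x, hQK x hx⟩ : K)).mpr hfix
  rw [IntermediateField.mem_bot] at hbot
  obtain ⟨y, hy⟩ := hbot
  have h4 : (y : ℂ) = x := congrArg (fun z : K => (z : ℂ)) hy
  rw [← h4]
  exact y.2

end Pool.Agent.STg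
end

section

/-!
# Extensions of embeddings of `Rk` to the algebraic numbers, and their coordinates
-/

open Complex

namespace Pool.Agent.STg

variable (U : UD) (k : ℕ)

lemma V4_lift {F E : Type*} [Field F] [Field E] [Algebra F E] [Algebra.IsAlgebraic F E]
    (ψ : F →+* ℂ) : ∃ h : E →+* ℂ, ∀ x, h (algebraMap F E x) = ψ x := by
  let _ := ψ.toAlgebra
  let g : E →ₐ[F] ℂ := IsAlgClosed.lift
  exact ⟨(g : E →+* ℂ), fun x => g.commutes x⟩

lemma V4_I_mem : I ∈ Qb := by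
  refine mem_Qb_of_quad (zero_mem _) (one_mem _) (t := I) ?_
  simp

/-- the field of the numbers `a + b i`, `a, b ∈ Rk` -/
def V4_L : Subfield ℂ where
  carrier := {z | z.re ∈ Rk U k ∧ z.im ∈ Rk U k}
  mul_mem' := by
    rintro x y hx hy
    show (x * y).re ∈ Rk U k ∧ (x * y).im ∈ Rk U k
    rw [Complex.mul_re, Complex.mul_im]
    exact ⟨sub_mem (mul_mem hx.1 hy.1) (mul_mem hx.2 hy.2),
      add_mem (mul_mem hx.1 hy.2) (mul_mem hx.2 hy.1)⟩
  one_mem' := by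
    show (1 : ℂ).re ∈ Rk U k ∧ (1 : ℂ).im ∈ Rk U k
    rw [Complex.one_re, Complex.one_im]
    exact ⟨one_mem _, zero_mem _⟩
  add_mem' := by
    rintro x y hx hy
    show (x + y).re ∈ Rk U k ∧ (x + y).im ∈ Rk U k
    rw [Complex.add_re, Complex.add_im]
    exact ⟨add_mem hx.1 hy.1, add_mem hx.2 hy.2⟩
  zero_mem' := by
    show (0 : ℂ).re ∈ Rk U k ∧ (0 : ℂ).im ∈ Rk U k
    rw [Complex.zero_re, Complex.zero_im]
    exact ⟨zero_mem _, zero_mem _⟩
  neg_mem' := by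
    rintro x hx
    show (-x).re ∈ Rk U k ∧ (-x).im ∈ Rk U k
    rw [Complex.neg_re, Complex.neg_im]
    exact ⟨neg_mem hx.1, neg_mem hx.2⟩
  inv_mem' := by
    rintro x hx
    show (x⁻¹).re ∈ Rk U k ∧ (x⁻¹).im ∈ Rk U k
    rw [Complex.inv_re, Complex.inv_im]
    have h1 : Complex.normSq x ∈ Rk U k := by
      rw [Complex.normSq_apply]
      exact add_mem (mul_mem hx.1 hx.1) (mul_mem hx.2 hx.2)
    exact ⟨div_mem hx.1 h1, div_mem (neg_mem hx.2) h1⟩

lemma V4_L_mem {z : ℂ} : z ∈ V4_L U k ↔ z.re ∈ Rk U k ∧ z.im ∈ Rk U k := Iff.rfl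

lemma V4_L_le {z : ℂ} (hz : z ∈ V4_L U k) : z ∈ Qb := by
  have h1 : z = (z.re : ℂ) + (z.im : ℂ) * I := (Complex.re_add_im z).symm
  rw [h1]
  exact add_mem (Rk_mem_Qb U k hz.1) (mul_mem (Rk_mem_Qb U k hz.2) V4_I_mem)

/-- `a + b i ↦ φ a + i φ b` -/
noncomputable def V4_psi (φ : Rk U k →+* ℂ) : V4_L U k →+* ℂ where
  toFun z := φ ⟨(z : ℂ).re, z.2.1⟩ + I * φ ⟨(z : ℂ).im, z.2.2⟩
  map_one' := by
    have h1 : (⟨((1 : V4_L U k) : ℂ).re, (1 : V4_L U k).2.1⟩ : Rk U k) = 1 :=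
      Subtype.ext (by simp)
    have h2 : (⟨((1 : V4_L U k) : ℂ).im, (1 : V4_L U k).2.2⟩ : Rk U k) = 0 :=
      Subtype.ext (by simp)
    rw [h1, h2, map_one, map_zero, mul_zero, add_zero]
  map_zero' := by
    have h1 : (⟨((0 : V4_L U k) : ℂ).re, (0 : V4_L U k).2.1⟩ : Rk U k) = 0 :=
      Subtype.ext (by simp)
    have h2 : (⟨((0 : V4_L U k) : ℂ).im, (0 : V4_L U k).2.2⟩ : Rk U k) = 0 :=
      Subtype.ext (by simp)
    rw [h1, h2, map_zero, mul_zero, add_zero]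
  map_add' x y := by
    have h1 : (⟨((x + y : V4_L U k) : ℂ).re, (x + y).2.1⟩ : Rk U k) =
        ⟨(x : ℂ).re, x.2.1⟩ + ⟨(y : ℂ).re, y.2.1⟩ := Subtype.ext (by simp)
    have h2 : (⟨((x + y : V4_L U k) : ℂ).im, (x + y).2.2⟩ : Rk U k) =
        ⟨(x : ℂ).im, x.2.2⟩ + ⟨(y : ℂ).im, y.2.2⟩ := Subtype.ext (by simp)
    rw [h1, h2, map_add, map_add]
    ring
  map_mul' x y := by
    have h1 : (⟨((x * y : V4_L U k) : ℂ).re, (x * y).2.1⟩ : Rk U k) =
        ⟨(x : ℂ).re, x.2.1⟩ * ⟨(y : ℂ).re, y.2.1⟩ -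
          ⟨(x : ℂ).im, x.2.2⟩ * ⟨(y : ℂ).im, y.2.2⟩ := Subtype.ext (by simp)
    have h2 : (⟨((x * y : V4_L U k) : ℂ).im, (x * y).2.2⟩ : Rk U k) =
        ⟨(x : ℂ).re, x.2.1⟩ * ⟨(y : ℂ).im, y.2.2⟩ +
          ⟨(x : ℂ).im, x.2.2⟩ * ⟨(y : ℂ).re, y.2.1⟩ := Subtype.ext (by simp)
    rw [h1, h2, map_sub, map_add, map_mul, map_mul, map_mul, map_mul]
    linear_combination (-φ ⟨(x : ℂ).im, x.2.2⟩ * φ ⟨(y : ℂ).im, y.2.2⟩) * Complex.I_sq

/-- **Extension.** `a + b i ↦ φ a + i φ b` is a homomorphism on the field of the numbers `a + b i`,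
`a, b ∈ Rk` (the field `Rk` is real); extend it to the algebraic numbers. -/
theorem exists_ext_Rk (φ : Rk U k →+* ℂ) : ∃ h : Qb →+* ℂ, ap h I = I ∧
    ∀ x : ℝ, x ∈ Rk U k → ap h (x : ℂ) = ap φ x := by
  let i : V4_L U k →+* Qb :=
    { toFun := fun y => ⟨(y : ℂ), V4_L_le U k y.2⟩
      map_one' := rfl
      map_mul' := fun _ _ => rfl
      map_zero' := rfl
      map_add' := fun _ _ => rfl }
  let _ : Algebra (V4_L U k) Qb := i.toAlgebra
  have hst : IsScalarTower ℚ (V4_L U k) Qb :=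
    IsScalarTower.of_algebraMap_eq' (Subsingleton.elim _ _)
  have hQ : Algebra.IsAlgebraic ℚ Qb := by
    refine ⟨fun m => (isAlgebraic_algebraMap_iff (A := ℂ)
      (RingHom.injective (algebraMap Qb ℂ))).1 (mem_algebraicClosure_iff.1 m.2)⟩
  have halg : Algebra.IsAlgebraic (V4_L U k) Qb := Algebra.IsAlgebraic.tower_top (K := ℚ) _
  obtain ⟨h, hh⟩ := V4_lift (F := V4_L U k) (E := Qb) (V4_psi U k φ)
  have key : ∀ (z : ℂ) (hz : z ∈ V4_L U k), ap h z = φ ⟨z.re, hz.1⟩ + I * φ ⟨z.im, hz.2⟩ := by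
    intro z hz
    rw [ap_of_mem h (V4_L_le U k hz)]
    exact hh ⟨z, hz⟩
  refine ⟨h, ?_, ?_⟩
  · have hI : I ∈ V4_L U k := by
      rw [V4_L_mem, Complex.I_re, Complex.I_im]
      exact ⟨zero_mem _, one_mem _⟩
    rw [key I hI]
    have h1 : (⟨I.re, hI.1⟩ : Rk U k) = 0 := Subtype.ext (by simp)
    have h2 : (⟨I.im, hI.2⟩ : Rk U k) = 1 := Subtype.ext (by simp)
    rw [h1, h2, map_zero, map_one, zero_add, mul_one]
  · intro x hx
    have hx' : (x : ℂ) ∈ V4_L U k := by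
      rw [V4_L_mem, Complex.ofReal_re, Complex.ofReal_im]
      exact ⟨hx, zero_mem _⟩
    rw [key _ hx', ap_of_mem φ hx]
    have h1 : (⟨(x : ℂ).re, hx'.1⟩ : Rk U k) = ⟨x, hx⟩ := Subtype.ext (by simp)
    have h2 : (⟨(x : ℂ).im, hx'.2⟩ : Rk U k) = 0 := Subtype.ext (by simp)
    rw [h1, h2, map_zero, mul_zero, add_zero]

lemma V4_conj_mem {x : ℂ} (hx : x ∈ Qb) : starRingEnd ℂ x ∈ Qb := by
  have h1 : IsAlgebraic ℚ x := mem_algebraicClosure_iff.mp hx
  have h2 := h1.algHom ((Complex.conjAe : ℂ →ₐ[ℝ] ℂ).restrictScalars ℚ)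
  exact mem_algebraicClosure_iff.mpr h2

/-- `conj ∘ h ∘ conj` -/
theorem exists_conj (h : Qb →+* ℂ) : ∃ h' : Qb →+* ℂ,
    ∀ x ∈ Qb, ap h' x = starRingEnd ℂ (ap h (starRingEnd ℂ x)) := by
  let c : Qb →+* Qb :=
    { toFun := fun y => ⟨starRingEnd ℂ (y : ℂ), V4_conj_mem y.2⟩
      map_one' := Subtype.ext (by simp)
      map_mul' := fun _ _ => Subtype.ext (by simp)
      map_zero' := Subtype.ext (by simp)
      map_add' := fun _ _ => Subtype.ext (by simp) }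
  refine ⟨(starRingEnd ℂ).comp (h.comp c), fun x hx => ?_⟩
  rw [ap_of_mem _ hx, ap_of_mem h (V4_conj_mem hx)]
  rfl

lemma V4_zk_pow (m : ℕ) : zk k ^ m + (zk k ^ m)⁻¹ =
    2 * (Real.cos (2 * Real.pi * m / 2 ^ k) : ℂ) := by
  unfold zk
  rw [← Complex.exp_nat_mul, ← Complex.exp_neg, Complex.ofReal_cos]
  unfold Complex.cos
  have h1 : (m : ℂ) * (2 * Real.pi * I / 2 ^ k) = ((2 * Real.pi * m / 2 ^ k : ℝ) : ℂ) * I := by
    push_cast
    ring
  rw [h1]
  have h2 : -(((2 * Real.pi * m / 2 ^ k : ℝ) : ℂ) * I) =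
      -((2 * Real.pi * m / 2 ^ k : ℝ) : ℂ) * I := by ring
  rw [h2]
  ring

lemma V4_zk_ne : zk k ≠ 0 := by
  unfold zk
  exact Complex.exp_ne_zero _

lemma V4_two_ck : zk k + (zk k)⁻¹ = 2 * (ck k : ℂ) := by
  have h1 := V4_zk_pow k 1
  rw [pow_one, Nat.cast_one, mul_one] at h1
  exact h1

lemma V4_ap_two (h : Qb →+* ℂ) : ap h 2 = 2 := by
  have h1 := ap_ratCast h 2
  simpa using h1

lemma V4_ap_zk_add (h : Qb →+* ℂ) : ap h (zk k) + (ap h (zk k))⁻¹ = 2 * ap h (ck k : ℂ) := by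
  have hz := V3c_zk_mem k
  have h1 : ap h (zk k + (zk k)⁻¹) = ap h (2 * (ck k : ℂ)) := by rw [V4_two_ck]
  have h2 : (2 : ℂ) ∈ Qb := by
    have := V3c_int_mem 2
    exact_mod_cast this
  rw [ap_add h hz (inv_mem hz), ap_inv h hz, ap_mul h h2 (V3c_ck_mem k), V4_ap_two] at h1
  exact h1

lemma V4_cancel {w y : ℂ} (hw : w ≠ 0) (hy : y ≠ 0) (h : w + w⁻¹ = y + y⁻¹) :
    w = y ∨ w = y⁻¹ := by
  have h1 : (w - y) * (w * y - 1) = 0 := by
    field_simp at h
    linear_combination h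
  rcases mul_eq_zero.mp h1 with h2 | h2
  · exact Or.inl (sub_eq_zero.mp h2)
  · right
    exact eq_inv_of_mul_eq_one_left (sub_eq_zero.mp h2)

lemma V4_I_pow {n : ℕ} (hn : n % 4 = 1) : I ^ n = I := by
  have h1 : n = 4 * (n / 4) + 1 := by omega
  rw [h1, pow_add, pow_mul, Complex.I_pow_four, one_pow, one_mul, pow_one]

lemma V4_I_ne_neg : I ≠ -I := by
  intro h
  have h1 := congrArg Complex.im h
  rw [Complex.neg_im, Complex.I_im] at h1
  norm_num at h1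

/-- embeddings map `ζ` to a power of `ζ`; if `h i = i`, `k ≥ 2`, `h (cos (2 π / 2 ^ k)) = cos (2 π n / 2 ^ k)`
with `n = 1` modulo `4` then `h ζ = ζ ^ n`. (`h ζ = ζ ^ m`, `m` odd, `ζ ^ m + ζ ^ (-m) =
ζ ^ n + ζ ^ (-n)` so `m = n` or `-n` modulo `2 ^ k`; `h i = i` gives `m = 1` modulo `4`.)
For `k ≤ 1`: `ζ = 1` or `-1`. -/
theorem ap_zk (h : Qb →+* ℂ) (hI : ap h I = I) {n : ℕ} (hn : n % 4 = 1)
    (hc : ap h (ck k : ℂ) = (Real.cos (2 * Real.pi * n / 2 ^ k) : ℂ)) : ap h (zk k) = zk k ^ n := by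
  have hz := V3c_zk_mem k
  have hz0 := V4_zk_ne k
  have hw0 : ap h (zk k) ≠ 0 := by
    intro h0
    exact hz0 ((ap_eq_zero h hz).mp h0)
  have h1 := V4_ap_zk_add k h
  rw [hc, ← V4_zk_pow] at h1
  rcases V4_cancel hw0 (pow_ne_zero n hz0) h1 with h2 | h2
  · exact h2
  · by_cases hk : k < 2
    · have h3 : zk k ^ 2 = 1 := by
        have h4 : zk k = 1 ∨ zk k = -1 := by
          interval_cases k
          · left
            unfold zk
            rw [pow_zero, div_one, Complex.exp_two_pi_mul_I]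
          · right
            unfold zk
            rw [pow_one]
            have h5 : (2 * Real.pi * I / 2 : ℂ) = Real.pi * I := by ring
            rw [h5, Complex.exp_pi_mul_I]
        rcases h4 with h4 | h4 <;> rw [h4] <;> norm_num
      rw [h2]
      have h6 : zk k ^ n * zk k ^ n = 1 := by
        rw [← pow_add, ← two_mul, pow_mul, h3, one_pow]
      exact inv_eq_of_mul_eq_one_left h6
    · exfalso
      have hI' := I_eq_zk (k := k) (by omega)
      have h3 : ap h I = (ap h (zk k)) ^ (2 ^ (k - 2)) := by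
        conv_lhs => rw [hI']
        rw [ap_pow h hz]
      rw [hI, h2, ← inv_pow, ← pow_mul, mul_comm n, pow_mul, inv_pow, ← hI', inv_pow,
        V4_I_pow hn, Complex.inv_I] at h3
      exact V4_I_ne_neg h3

/-- every embedding of `Rk` has a coordinate `n = 1` modulo `4` for `cos (2 π / 2 ^ k)` -/
theorem exists_coord (φ : Rk U k →+* ℂ) : ∃ n : ℕ, n % 4 = 1 ∧
    ap φ (ck k) = (Real.cos (2 * Real.pi * n / 2 ^ k) : ℂ) := by
  obtain ⟨h, hI, hφ⟩ := exists_ext_Rk U k φ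
  rw [← hφ _ (ck_mem U k)]
  have hz := V3c_zk_mem k
  have hz0 := V4_zk_ne k
  have hadd := V4_ap_zk_add k h
  by_cases hk : k < 2
  · refine ⟨1, rfl, ?_⟩
    have h4 : ap h (zk k) = zk k := by
      have h4 : zk k = 1 ∨ zk k = -1 := by
        interval_cases k
        · left
          unfold zk
          rw [pow_zero, div_one, Complex.exp_two_pi_mul_I]
        · right
          unfold zk
          rw [pow_one]
          have h5 : (2 * Real.pi * I / 2 : ℂ) = Real.pi * I := by ring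
          rw [h5, Complex.exp_pi_mul_I]
      rcases h4 with h4 | h4
      · rw [h4, ap_one]
      · rw [h4]
        have h5 := ap_ratCast h (-1)
        simpa using h5
    rw [h4, V4_two_ck] at hadd
    have h6 := mul_left_cancel₀ two_ne_zero hadd
    rw [← h6]
    unfold ck
    rw [Nat.cast_one, mul_one]
  · have hprim : IsPrimitiveRoot (zk k) (2 ^ k) := by
      have h := Complex.isPrimitiveRoot_exp (2 ^ k) (by positivity)
      unfold zk
      push_cast at h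
      exact h
    have h1 : ap h (zk k) ^ (2 ^ k) = 1 := by
      rw [← ap_pow h hz, hprim.pow_eq_one, ap_one]
    obtain ⟨m, -, hm⟩ := hprim.eq_pow_of_pow_eq_one h1
    have hI' := I_eq_zk (k := k) (by omega)
    have h3 : ap h I = (ap h (zk k)) ^ (2 ^ (k - 2)) := by
      conv_lhs => rw [hI']
      rw [ap_pow h hz]
    rw [hI, ← hm, ← pow_mul, mul_comm m, pow_mul, ← hI'] at h3
    have hm4 : m % 4 = 1 := by
      have h5 : m = 4 * (m / 4) + m % 4 := by omega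
      have h6 : I ^ m = I ^ (m % 4) := by
        conv_lhs => rw [h5]
        rw [pow_add, pow_mul, Complex.I_pow_four, one_pow, one_mul]
      rw [h6] at h3
      have h7 : m % 4 < 4 := Nat.mod_lt _ (by norm_num)
      interval_cases hr : m % 4
      · exfalso
        rw [pow_zero] at h3
        have h8 := congrArg Complex.im h3
        rw [Complex.I_im, Complex.one_im] at h8
        norm_num at h8
      · rfl
      · exfalso
        rw [Complex.I_sq] at h3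
        have h8 := congrArg Complex.im h3
        rw [Complex.I_im, Complex.neg_im, Complex.one_im] at h8
        norm_num at h8
      · exfalso
        have h9 : I ^ 3 = -I := by
          rw [pow_succ, Complex.I_sq]
          ring
        rw [h9] at h3
        exact V4_I_ne_neg h3
    refine ⟨m, hm4, ?_⟩
    rw [← hm, V4_zk_pow] at hadd
    exact (mul_left_cancel₀ two_ne_zero hadd).symm

lemma V4_r_ne : (U.r : ℂ) ≠ 0 := by
  exact_mod_cast U.r_pos.ne'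

lemma V4_conj_A : starRingEnd ℂ U.A = (U.r : ℂ) - I / (U.r : ℂ) := by
  unfold UD.A
  rw [map_add, map_div₀, Complex.conj_ofReal, Complex.conj_I]
  ring

lemma V4_ap_A (h : Qb →+* ℂ) (hI : ap h I = I) :
    ap h U.A = ap h (U.r : ℂ) + I / ap h (U.r : ℂ) ∧
      ap h (starRingEnd ℂ U.A) = ap h (U.r : ℂ) - I / ap h (U.r : ℂ) := by
  have hr := V3c_r_mem U
  constructor
  · unfold UD.A
    rw [ap_add h hr (div_mem V4_I_mem hr), ap_div h V4_I_mem hr, hI]
  · rw [V4_conj_A, ap_sub h hr (div_mem V4_I_mem hr), ap_div h V4_I_mem hr, hI]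

lemma V4_sign (s : ℤˣ) : ((s : ℤ) : ℂ) * ((s : ℤ) : ℂ) = 1 ∧ ((s : ℤ) : ℂ) ≠ 0 := by
  rcases Int.units_eq_one_or s with rfl | rfl
  · norm_num
  · norm_num

/-- over the first embedding: `h r = s r` gives `h A = s A` and `conj (h (conj A)) = s A` -/
theorem ap_A_first (h : Qb →+* ℂ) (hI : ap h I = I) {s : ℤˣ}
    (hr : ap h (U.r : ℂ) = ((s : ℤ) : ℂ) * (U.r : ℂ)) : ap h U.A = ((s : ℤ) : ℂ) * U.A ∧
      starRingEnd ℂ (ap h (starRingEnd ℂ U.A)) = ((s : ℤ) : ℂ) * U.A := by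
  obtain ⟨h1, h2⟩ := V4_ap_A U h hI
  obtain ⟨hs, hs0⟩ := V4_sign s
  have hr0 := V4_r_ne U
  have h3 : I / (((s : ℤ) : ℂ) * (U.r : ℂ)) = ((s : ℤ) : ℂ) * (I / (U.r : ℂ)) := by
    field_simp
    linear_combination (-1 : ℂ) * hs
  rw [h1, h2, hr, h3]
  constructor
  · unfold UD.A
    ring
  · rw [map_sub, map_mul, map_mul, map_div₀, Complex.conj_ofReal, Complex.conj_I, map_intCast]
    unfold UD.A
    ring

/-- over the second embedding: `h ε = -1 / ε`, so `h r = κ i / r`, `κ = 1` or `-1`: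
`h A = κ A`, and `conj (h (conj A)) = - κ A`. -/
theorem ap_A_second (h : Qb →+* ℂ) (hI : ap h I = I)
    (he : ap h (U.e : ℂ) = -((U.e : ℂ))⁻¹) : ∃ s : ℤˣ, ap h U.A = ((s : ℤ) : ℂ) * U.A ∧
      starRingEnd ℂ (ap h (starRingEnd ℂ U.A)) = (((-s : ℤˣ) : ℤ) : ℂ) * U.A := by
  obtain ⟨h1, h2⟩ := V4_ap_A U h hI
  have hr0 := V4_r_ne U
  have hrm := V3c_r_mem U
  have hre : (U.e : ℂ) = (U.r : ℂ) ^ 2 := by
    rw [← U.r_sq]
    push_cast
    rfl
  rw [hre, ap_pow h hrm] at he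
  have h3 : (ap h (U.r : ℂ) * (U.r : ℂ) - I) * (ap h (U.r : ℂ) * (U.r : ℂ) + I) = 0 := by
    have h4 : ap h (U.r : ℂ) ^ 2 * (U.r : ℂ) ^ 2 = -1 := by
      rw [he]
      field_simp
    linear_combination h4 - Complex.I_sq
  obtain ⟨s, hs⟩ : ∃ s : ℤˣ, ap h (U.r : ℂ) = ((s : ℤ) : ℂ) * (I / (U.r : ℂ)) := by
    rcases mul_eq_zero.mp h3 with h4 | h4
    · refine ⟨1, ?_⟩
      field_simp
      push_cast
      linear_combination h4
    · refine ⟨-1, ?_⟩
      field_simp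
      push_cast
      linear_combination h4
  obtain ⟨hss, hs0⟩ := V4_sign s
  have h5 : I / (((s : ℤ) : ℂ) * (I / (U.r : ℂ))) = ((s : ℤ) : ℂ) * (U.r : ℂ) := by
    have hI0 := Complex.I_ne_zero
    field_simp
    linear_combination (-1 : ℂ) * hss
  refine ⟨s, ?_, ?_⟩
  · rw [h1, hs, h5]
    unfold UD.A
    ring
  · rw [h2, hs, h5, map_sub, map_mul, map_mul, map_div₀, Complex.conj_ofReal, Complex.conj_I,
      map_intCast]
    unfold UD.A
    push_cast
    ring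

end Pool.Agent.STg
end

section

/-!
# The part of a point over `1 + i`; a recursion
-/

open Complex

namespace Pool.Agent.STg

lemma E3a_coe_oneI : (((⟨1, 1⟩ : GaussianInt)) : ℂ) = 1 + I := by
  rw [GaussianInt.toComplex_def']
  push_cast
  ring

lemma E3a_not_unit : ¬ IsUnit (⟨1, 1⟩ : GaussianInt) := by
  intro h
  have h1 := (Zsqrtd.norm_eq_one_iff).2 h
  revert h1
  decide

lemma E3a_even {a : GaussianInt} (ha : ¬ gOdd a) : ∃ b : GaussianInt, a = ⟨1, 1⟩ * b := by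
  have h1 : Even (gN a) := Nat.not_odd_iff_even.1 ha
  have h2 : Even (a.re * a.re + a.im * a.im) := by
    unfold gN at h1
    rw [Int.natAbs_even, Zsqrtd.norm_def] at h1
    have e : a.re * a.re - -1 * a.im * a.im = a.re * a.re + a.im * a.im := by ring
    rw [e] at h1
    exact h1
  have h3 : Even (a.re + a.im) := by
    rw [Int.even_add, Int.even_mul, Int.even_mul, or_self, or_self] at h2
    exact Int.even_add.2 h2
  obtain ⟨m, hm⟩ := h3
  refine ⟨⟨m, m - a.re⟩, ?_⟩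
  ext
  · rw [Zsqrtd.re_mul]
    change a.re = 1 * m + -1 * 1 * (m - a.re)
    ring
  · rw [Zsqrtd.im_mul]
    change a.im = 1 * (m - a.re) + 1 * m
    linarith

lemma E3a_exists {f : GaussianInt} (hf : f ≠ 0) : ∃ (b : ℕ) (β : GaussianInt), gOdd β ∧
    f = ⟨1, 1⟩ ^ b * β := by
  have key : ∀ n : ℕ, ∀ f : GaussianInt, f ≠ 0 → gN f ≤ n →
      ∃ (b : ℕ) (β : GaussianInt), gOdd β ∧ f = ⟨1, 1⟩ ^ b * β := by
    intro n
    induction n with
    | zero =>
      intro f hf hn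
      exact absurd (gN_pos hf) (by omega)
    | succ n ih =>
      intro f hf hn
      by_cases hodd : gOdd f
      · exact ⟨0, f, hodd, by rw [pow_zero, one_mul]⟩
      · obtain ⟨b, hb⟩ := E3a_even hodd
        have hb0 : b ≠ 0 := by
          intro h
          apply hf
          rw [hb, h, mul_zero]
        have hN : gN f = 2 * gN b := by
          rw [hb, gN_mul]
          rfl
        have hp := gN_pos hb0
        obtain ⟨c, β, h1, h2⟩ := ih b hb0 (by omega)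
        refine ⟨c + 1, β, h1, ?_⟩
        rw [hb, h2, pow_succ']
        ring
  exact key _ f hf le_rfl

/-- `f = 2 ^ J δ = (1 + i) ^ m δ₁` with `δ₁` odd, `m ≥ 2 J` -/
lemma UD.exists_odd_part (U : UD) (J : ℕ) : ∃ (m : ℕ) (δ₁ : GaussianInt), 2 * J ≤ m ∧ gOdd δ₁ ∧
    U.f J = ⟨1, 1⟩ ^ m * δ₁ := by
  obtain ⟨b, β, h1, h2⟩ := E3a_exists U.δ_ne_zero
  refine ⟨2 * J + b, ⟨0, -1⟩ ^ J * β, by omega, ?_, ?_⟩
  · have h3 : ∀ n : ℕ, gN ((⟨0, -1⟩ : GaussianInt) ^ n) = 1 := by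
      intro n
      induction n with
      | zero =>
        rw [pow_zero]
        exact gN_one
      | succ n ih =>
        rw [pow_succ, gN_mul, ih]
        rfl
    unfold gOdd
    rw [gN_mul, h3, one_mul]
    exact h1
  · have h4 : (2 : GaussianInt) = ⟨0, -1⟩ * ⟨1, 1⟩ ^ 2 := by
      ext <;> rfl
    unfold UD.f
    rw [h2, pow_add, pow_mul]
    nth_rewrite 1 [h4]
    rw [mul_pow]
    ring

lemma E3a_odd_coprime {β : GaussianInt} (hβ : gOdd β) :
    IsCoprime β (⟨1, 1⟩ : GaussianInt) := by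
  obtain ⟨m, hm⟩ := hβ
  refine ⟨star β, -((m : GaussianInt) * ⟨1, -1⟩), ?_⟩
  have h1 := mul_star_eq β
  have h2 : (⟨1, -1⟩ : GaussianInt) * ⟨1, 1⟩ = 2 := by
    ext <;> rfl
  have h3 : star β * β + -((m : GaussianInt) * ⟨1, -1⟩) * ⟨1, 1⟩ =
      β * star β - (m : GaussianInt) * ((⟨1, -1⟩ : GaussianInt) * ⟨1, 1⟩) := by ring
  rw [h3, h1, h2, hm]
  push_cast
  ring

lemma E3a_sub_one {x : GaussianInt} (hx : IsCoprime x (⟨1, 1⟩ : GaussianInt)) :
    ∃ b : GaussianInt, x = 1 + ⟨1, 1⟩ * b := by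
  by_cases h : gOdd (x - 1)
  · exfalso
    have h1 : ¬ gOdd x := by
      intro hx1
      unfold gOdd gN at h hx1
      rw [Int.natAbs_odd, Zsqrtd.norm_def] at h hx1
      have e1 : x.re * x.re - -1 * x.im * x.im = x.re * x.re + x.im * x.im := by ring
      have e2 : (x - 1).re * (x - 1).re - -1 * (x - 1).im * (x - 1).im =
          (x.re * x.re + x.im * x.im) + (1 - 2 * x.re) := by
        rw [Zsqrtd.re_sub, Zsqrtd.im_sub, Zsqrtd.re_one, Zsqrtd.im_one]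
        ring
      rw [e1] at hx1
      rw [e2, Int.odd_add] at h
      have h3 : Even (1 - 2 * x.re) := h.1 hx1
      obtain ⟨c, hc⟩ := h3
      omega
    obtain ⟨b, hb⟩ := E3a_even h1
    exact E3a_not_unit (hx.isUnit_of_dvd' ⟨b, hb⟩ dvd_rfl)
  · obtain ⟨b, hb⟩ := E3a_even h
    exact ⟨b, by rw [← hb]; ring⟩

/-- Let `f = (1 + i) ^ m δ₁`, `m ≥ 1`, `δ₁` odd, `a` prime to `f`. Then
`(1 + i) ^ (m - 1) a / f = a / ((1 + i) δ₁) = w₀ + z` modulo `Lam` with `δ₁ z ∈ Lam`; and `z ∈ Lam`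
iff `δ₁` is a unit. (`a = b δ₁ + c (1 + i)`, `z = c / δ₁`, `b` odd.) -/
lemma exists_z {f δ₁ : GaussianInt} {m : ℕ} (hm : 1 ≤ m) (hδ₁ : gOdd δ₁)
    (hf : f = ⟨1, 1⟩ ^ m * δ₁) {a : GaussianInt} (ha : IsCoprime a f) :
    ∃ z : ℂ, (δ₁ : ℂ) * z ∈ Lam ∧ (z ∈ Lam ↔ IsUnit δ₁) ∧
      (1 + I) ^ (m - 1) * ((a : ℂ) / (f : ℂ)) - ((1 + I) / 2 + z) ∈ Lam := by
  have hI := I_mul_I
  have hδ0 : δ₁ ≠ 0 := by
    rintro rfl
    have : gN 0 = 0 := rfl
    unfold gOdd at hδ₁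
    rw [this] at hδ₁
    exact (Nat.not_odd_iff_even.2 (by decide : Even 0)) hδ₁
  have hδC : (δ₁ : ℂ) ≠ 0 := by
    intro h
    apply hδ0
    rw [← GaussianInt.toComplex_inj, h, map_zero]
  have h1I : (1 + I : ℂ) ≠ 0 := by
    intro h
    have h1 := congrArg Complex.re h
    rw [add_re, one_re, I_re, add_zero, zero_re] at h1
    exact one_ne_zero h1
  obtain ⟨p, q, hpq⟩ := E3a_odd_coprime hδ₁
  have ha1 : IsCoprime a (⟨1, 1⟩ : GaussianInt) := by
    apply ha.of_isCoprime_of_dvd_right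
    rw [hf]
    exact (dvd_pow_self _ (by omega)).mul_right _
  have haδ : IsCoprime a δ₁ := by
    apply ha.of_isCoprime_of_dvd_right
    rw [hf]
    exact dvd_mul_left _ _
  have hp1 : IsCoprime p (⟨1, 1⟩ : GaussianInt) := ⟨δ₁, q, by rw [mul_comm δ₁ p]; exact hpq⟩
  have hqδ : IsCoprime q δ₁ := ⟨⟨1, 1⟩, p, by rw [mul_comm _ q, add_comm]; exact hpq⟩
  obtain ⟨b, hb⟩ := E3a_sub_one (ha1.mul_left hp1)
  refine ⟨((a * q : GaussianInt) : ℂ) / (δ₁ : ℂ), ?_, ⟨?_, ?_⟩, ?_⟩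
  · exact ⟨a * q, by
      change ((a * q : GaussianInt) : ℂ) = _
      rw [mul_div_cancel₀ _ hδC]⟩
  · rintro ⟨c, hc⟩
    change (c : ℂ) = _ at hc
    have h1 : a * q = δ₁ * c := by
      apply GaussianInt.toComplex_inj.1
      rw [eq_div_iff hδC] at hc
      rw [← hc, ← map_mul, mul_comm c δ₁]
    exact (haδ.mul_left hqδ).isUnit_of_dvd' ⟨c, h1⟩ dvd_rfl
  · intro h
    obtain ⟨u, hu⟩ := h.exists_left_inv
    refine ⟨u * (a * q), ?_⟩
    change ((u * (a * q) : GaussianInt) : ℂ) = _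
    rw [eq_div_iff hδC, ← map_mul]
    congr 1
    calc u * (a * q) * δ₁ = (u * δ₁) * (a * q) := by ring
      _ = a * q := by rw [hu, one_mul]
  · refine ⟨b - ⟨0, 1⟩, ?_⟩
    change ((b - ⟨0, 1⟩ : GaussianInt) : ℂ) = _
    have h2 : (a : ℂ) * (p : ℂ) = 1 + (1 + I) * (b : ℂ) := by
      rw [← map_mul, hb, map_add, map_mul, E3a_coe_oneI, map_one]
    have h3 : (p : ℂ) * (δ₁ : ℂ) + (q : ℂ) * (1 + I) = 1 := by
      rw [← E3a_coe_oneI, ← map_mul, ← map_mul, ← map_add, hpq, map_one]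
    have e0 : (((⟨0, 1⟩ : GaussianInt)) : ℂ) = I := by
      rw [GaussianInt.toComplex_def']
      push_cast
      ring
    obtain ⟨n, rfl⟩ : ∃ n, m = n + 1 := ⟨m - 1, by omega⟩
    have e1 : (1 + I) ^ (n + 1 - 1) * ((a : ℂ) / (f : ℂ)) = (a : ℂ) / ((1 + I) * (δ₁ : ℂ)) := by
      rw [hf, map_mul, map_pow, E3a_coe_oneI, Nat.add_sub_cancel, pow_succ, mul_assoc,
        mul_div_assoc', mul_div_mul_left _ _ (pow_ne_zero n h1I)]
    have e2 : ((a * q : GaussianInt) : ℂ) / (δ₁ : ℂ) =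
        ((a : ℂ) * (q : ℂ) * (1 + I)) / ((1 + I) * (δ₁ : ℂ)) := by
      rw [map_mul, mul_comm (1 + I) (δ₁ : ℂ), mul_div_mul_right _ _ h1I]
    have e3 : (b : ℂ) - I + (1 + I) / 2 = ((a : ℂ) * (p : ℂ) * (δ₁ : ℂ)) / ((1 + I) * (δ₁ : ℂ)) := by
      rw [mul_div_mul_right _ _ hδC, eq_div_iff h1I]
      linear_combination (-1) * h2 - (1 / 2) * hI
    rw [map_sub, e0, e1, e2, sub_add_eq_sub_sub, eq_sub_iff_add_eq, eq_sub_iff_add_eq]
    have e4 : (b : ℂ) - I + (a : ℂ) * (q : ℂ) * (1 + I) / ((1 + I) * (δ₁ : ℂ)) + (1 + I) / 2 =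
      ((b : ℂ) - I + (1 + I) / 2) + (a : ℂ) * (q : ℂ) * (1 + I) / ((1 + I) * (δ₁ : ℂ)) := by ring
    rw [e4, e3, ← add_div]
    congr 1
    linear_combination (a : ℂ) * h3

/-- The recursion: if `d j ^ 2 = c * d (j + 1)` and `d' j ^ 2 = c * d' (j + 1)` for `j < n`,
and `d n = d' n` then `d 0 = d' 0`. -/
lemma eq_of_rec {Γ : Type*} [LinearOrderedCommGroupWithZero Γ] (c : Γ) (d d' : ℕ → Γ) (n : ℕ)
    (h : ∀ j < n, d j ^ 2 = c * d (j + 1)) (h' : ∀ j < n, d' j ^ 2 = c * d' (j + 1))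
    (hn : d n = d' n) : d 0 = d' 0 := by
  have key : ∀ j ≤ n, d (n - j) = d' (n - j) := by
    intro j
    induction j with
    | zero =>
      intro _
      exact hn
    | succ j ih =>
      intro hj
      have h1 := ih (by omega)
      have h2 := h (n - (j + 1)) (by omega)
      have h3 := h' (n - (j + 1)) (by omega)
      have e : n - (j + 1) + 1 = n - j := by omega
      rw [e] at h2 h3
      rw [h1, ← h3] at h2
      exact (pow_left_inj₀ zero_le zero_le two_ne_zero).1 h2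
  have h1 := key n le_rfl
  rw [Nat.sub_self] at h1
  exact h1

end Pool.Agent.STg
end
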