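import Pool.Agent.Lib.MP_1ef7cf_nt_g.Mg.G042
import Pool.Agent.Lib.MP_1ef7cf_nt_g.Mg.G031
import Pool.Agent.Lib.MP_1ef7cf_nt_g.Mg.G029
import Pool.Agent.Lib.MP_1ef7cf_nt_g.Mg.G030

section

/-!
# The valuation over `2` of `X (a / f) - t` does not depend on `a` and `t`
-/

open Complex

namespace Pool.Agent.STg

variable (D : LemData) (V : ValuationSubring ℂ)

lemma E3_coe_oneI : (((⟨1, 1⟩ : GaussianInt)) : ℂ) = 1 + I := by
  rw [GaussianInt.toComplex_def']
  push_cast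
  ring

lemma E3_coe_pow (j : ℕ) : (((⟨1, 1⟩ : GaussianInt) ^ j : GaussianInt) : ℂ) = (1 + I) ^ j := by
  rw [map_pow, E3_coe_oneI]

lemma E3_not_unit : ¬ IsUnit (⟨1, 1⟩ : GaussianInt) := by
  intro h
  have h1 := (Zsqrtd.norm_eq_one_iff).2 h
  revert h1
  decide

lemma E3_odd_coprime {β : GaussianInt} (hβ : gOdd β) :
    IsCoprime β (⟨1, 1⟩ : GaussianInt) := by
  obtain ⟨m, hm⟩ := hβ
  refine ⟨star β, -((m : GaussianInt) * ⟨1, -1⟩), ?_⟩
  have h1 := mul_star_eq β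
  have h2 : (⟨1, -1⟩ : GaussianInt) * ⟨1, 1⟩ = 2 := by
    ext <;> rfl
  have h3 : star β * β + -((m : GaussianInt) * ⟨1, -1⟩) * ⟨1, 1⟩ =
      β * star β - (m : GaussianInt) * ((⟨1, -1⟩ : GaussianInt) * ⟨1, 1⟩) := by ring
  rw [h3, h1, h2, hm]
  push_cast
  ring

lemma E3_mem_of_coprime {β c : GaussianInt} (h : IsCoprime β c) {w : ℂ}
    (hβw : (β : ℂ) * w ∈ Lam) (hc : (c : ℂ) * w ∈ Lam) : w ∈ Lam := by
  obtain ⟨a, b, hab⟩ := h
  have h1 : w = (a : ℂ) * ((β : ℂ) * w) + (b : ℂ) * ((c : ℂ) * w) := by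
    have h2 : ((a * β + b * c : GaussianInt) : ℂ) = 1 := by
      rw [hab]
      exact map_one GaussianInt.toComplex
    rw [map_add, map_mul, map_mul] at h2
    calc w = 1 * w := (one_mul w).symm
      _ = ((a : ℂ) * (β : ℂ) + (b : ℂ) * (c : ℂ)) * w := by rw [h2]
      _ = _ := by ring
  rw [h1]
  exact Lam_add (Lam_mul a hβw) (Lam_mul b hc)

lemma E3_exact {f b c : GaussianInt} (hf : f ≠ 0) (hb : IsCoprime b f)
    (h : (c : ℂ) * ((b : ℂ) / (f : ℂ)) ∈ Lam) : f ∣ c := by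
  have hfC : (f : ℂ) ≠ 0 := by
    intro h0
    apply hf
    rw [← GaussianInt.toComplex_inj, h0, map_zero]
  obtain ⟨e, he⟩ := h
  change (e : ℂ) = _ at he
  rw [mul_div_assoc', eq_div_iff hfC] at he
  have h1 : e * f = c * b := by
    apply GaussianInt.toComplex_inj.1
    rw [map_mul, map_mul]
    exact he
  have h2 : f ∣ c * b := ⟨e, by rw [← h1, mul_comm]⟩
  exact hb.symm.dvd_of_dvd_mul_right h2

lemma E3_seq {f δ₁ : GaussianInt} {m : ℕ} (h2 : V.valuation (2 : ℂ) < 1) (hm : 1 ≤ m)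
    (hf0 : f ≠ 0) (hδ₁ : gOdd δ₁) (hf : f = ⟨1, 1⟩ ^ m * δ₁) {α : GaussianInt} (hα : gOdd α)
    (hαf : IsCoprime α f) {b : GaussianInt} (hb : IsCoprime b f) {u : ℂ} (hu : u ∉ Lam)
    (hαu : (α : ℂ) * u ∈ Lam) :
    (∀ j < m - 1, V.valuation (D.X ((1 + I) ^ j * ((b : ℂ) / (f : ℂ))) -
        D.X ((1 + I) ^ j * u)) ^ 2 = V.valuation (2 : ℂ) *
      V.valuation (D.X ((1 + I) ^ (j + 1) * ((b : ℂ) / (f : ℂ))) - D.X ((1 + I) ^ (j + 1) * u))) ∧
    (IsUnit δ₁ → V.valuation (D.X ((1 + I) ^ (m - 1) * ((b : ℂ) / (f : ℂ))) -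
        D.X ((1 + I) ^ (m - 1) * u)) = 1) ∧
    (¬ IsUnit δ₁ → V.valuation (D.X ((1 + I) ^ (m - 1) * ((b : ℂ) / (f : ℂ))) -
        D.X ((1 + I) ^ (m - 1) * u)) = V.valuation (2 : ℂ)) := by
  have hpow : ∀ j, f ∣ ⟨1, 1⟩ ^ j → m ≤ j := by
    intro j hj
    have h3 : (⟨1, 1⟩ : GaussianInt) ^ m ∣ ⟨1, 1⟩ ^ j := by
      refine dvd_trans ?_ hj
      rw [hf]
      exact dvd_mul_right _ _
    exact (pow_dvd_pow_iff (by decide) E3_not_unit).1 h3
  set w : ℂ := (b : ℂ) / (f : ℂ) with hw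
  have hwn : ∀ j, j < m → (1 + I) ^ j * w ∉ Lam := by
    intro j hj h
    rw [← E3_coe_pow, hw] at h
    exact absurd (hpow j (E3_exact hf0 hb h)) (by omega)
  have hαw : ∀ j, j < m → (α : ℂ) * ((1 + I) ^ j * w) ∉ Lam := by
    intro j hj h
    rw [← E3_coe_pow, ← mul_assoc, ← map_mul, hw] at h
    have h3 := E3_exact hf0 hb h
    exact absurd (hpow j (hαf.symm.dvd_of_dvd_mul_left h3)) (by omega)
  have hun : ∀ j, (1 + I) ^ j * u ∉ Lam := by
    intro j h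
    rw [← E3_coe_pow] at h
    exact hu (E3_mem_of_coprime (E3_odd_coprime hα).pow_right hαu h)
  have hfw : ∀ j, (f : ℂ) * ((1 + I) ^ j * w) ∈ Lam := by
    intro j
    have hfC : (f : ℂ) ≠ 0 := by
      intro h0
      apply hf0
      rw [← GaussianInt.toComplex_inj, h0, map_zero]
    refine ⟨⟨1, 1⟩ ^ j * b, ?_⟩
    change ((⟨1, 1⟩ ^ j * b : GaussianInt) : ℂ) = _
    rw [map_mul, E3_coe_pow, hw, mul_left_comm, mul_div_cancel₀ _ hfC]
  have hαuj : ∀ j, (α : ℂ) * ((1 + I) ^ j * u) ∈ Lam := by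
    intro j
    have e : (α : ℂ) * ((1 + I) ^ j * u) =
        (((⟨1, 1⟩ : GaussianInt) ^ j : GaussianInt) : ℂ) * ((α : ℂ) * u) := by
      rw [E3_coe_pow]
      ring
    rw [e]
    exact Lam_mul _ hαu
  have hα2f : IsCoprime α (2 * f) := by
    refine IsCoprime.mul_right ?_ hαf
    have h4 : (2 : GaussianInt) = ⟨1, -1⟩ * ⟨1, 1⟩ := by
      ext <;> rfl
    have h5 : (⟨1, -1⟩ : GaussianInt) = ⟨0, -1⟩ * ⟨1, 1⟩ := by
      ext <;> rfl
    have h7 : (⟨0, 1⟩ : GaussianInt) * ⟨0, -1⟩ = 1 := by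
      ext <;> rfl
    have h6 : IsCoprime α (⟨0, -1⟩ : GaussianInt) := ⟨0, ⟨0, 1⟩, by rw [zero_mul, zero_add, h7]⟩
    rw [h4, h5]
    exact (h6.mul_right (E3_odd_coprime hα)).mul_right (E3_odd_coprime hα)
  have hadd : ∀ j, j < m → (1 + I) ^ j * w + (1 + I) ^ j * u ∉ Lam := by
    intro j hj h
    apply hαw j hj
    have h3 := Lam_sub (Lam_mul α h) (hαuj j)
    rw [mul_add, add_sub_cancel_right] at h3
    exact h3
  have hsub : ∀ j, j < m → (1 + I) ^ j * w - (1 + I) ^ j * u ∉ Lam := by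
    intro j hj h
    apply hαw j hj
    have h3 := Lam_add (Lam_mul α h) (hαuj j)
    rw [mul_sub, sub_add_cancel] at h3
    exact h3
  have hfα : ∀ j, ((f * α : GaussianInt) : ℂ) * ((1 + I) ^ j * w) ∈ Lam ∧
      ((f * α : GaussianInt) : ℂ) * ((1 + I) ^ j * u) ∈ Lam := by
    intro j
    constructor
    · rw [map_mul, mul_comm (f : ℂ), mul_assoc]
      exact Lam_mul _ (hfw j)
    · rw [map_mul, mul_assoc]
      exact Lam_mul _ (hαuj j)
  have h2u : ∀ j, 2 * ((f : ℂ) * ((1 + I) ^ j * u)) ∉ Lam := by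
    intro j h
    apply hun j
    refine E3_mem_of_coprime hα2f (hαuj j) ?_
    rw [map_mul, map_ofNat, mul_assoc]
    exact h
  have h2f : ∀ j, 2 * ((f : ℂ) * ((1 + I) ^ j * w)) ∈ Lam := by
    intro j
    have h3 := Lam_mul 2 (hfw j)
    rw [map_ofNat] at h3
    exact h3
  have hα0 : f * α ≠ 0 := by
    refine mul_ne_zero hf0 ?_
    rintro rfl
    unfold gOdd at hα
    exact (Nat.not_odd_iff_even.2 (by decide : Even (gN 0))) hα
  refine ⟨?_, ?_⟩
  · intro j hj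
    have e3 : ∀ x : ℂ, (1 + I) * ((1 + I) ^ j * x) = (1 + I) ^ (j + 1) * x := by
      intro x
      rw [← mul_assoc, ← pow_succ']
    have h3 := D.val_sq V (w := (1 + I) ^ j * w) (u := (1 + I) ^ j * u)
      (by rw [e3]; exact hwn _ (by omega))
      (by rw [e3]; exact hun _)
      (hadd j (by omega)) (hsub j (by omega))
      (by
        by_cases h4 : 2 * ((1 + I) ^ j * w) ∈ Lam
        · exact D.val_two_torsion V (by rw [e3]; exact hwn _ (by omega)) h4
        · exact D.val_one V h2 hf0 (hfw j) h4)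
      (D.val_one_odd V h2 hα (hun j) (hαuj j))
      (by
        refine D.val_one V h2 hα0 ?_ ?_
        · rw [mul_add]
          exact Lam_add (hfα j).1 (hfα j).2
        · intro h
          apply h2u j
          have h4 := Lam_sub (Lam_mul f h) (h2f j)
          have e : (f : ℂ) * (2 * ((1 + I) ^ j * w + (1 + I) ^ j * u)) -
              2 * ((f : ℂ) * ((1 + I) ^ j * w)) = 2 * ((f : ℂ) * ((1 + I) ^ j * u)) := by ring
          rw [e] at h4
          exact h4)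
      (by
        refine D.val_one V h2 hα0 ?_ ?_
        · rw [mul_sub]
          exact Lam_sub (hfα j).1 (hfα j).2
        · intro h
          apply h2u j
          have h4 := Lam_sub (h2f j) (Lam_mul f h)
          have e : 2 * ((f : ℂ) * ((1 + I) ^ j * w)) -
              (f : ℂ) * (2 * ((1 + I) ^ j * w - (1 + I) ^ j * u)) =
              2 * ((f : ℂ) * ((1 + I) ^ j * u)) := by ring
          rw [e] at h4
          exact h4)
    rw [e3, e3] at h3
    exact h3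
  · obtain ⟨z, hz1, hz2, hz3⟩ := exists_z hm hδ₁ hf hb
    rw [← hw] at hz3
    obtain ⟨e, he⟩ := hz3
    change (e : ℂ) = _ at he
    have hX : D.X ((1 + I) ^ (m - 1) * w) = D.X ((1 + I) / 2 + z) := by
      have e1 : (1 + I) ^ (m - 1) * w = ((1 + I) / 2 + z) + (e : ℂ) := by
        rw [he]
        ring
      rw [e1, D.X_add]
    rw [hX]
    have hαδ : IsCoprime α δ₁ := by
      apply hαf.of_isCoprime_of_dvd_right
      rw [hf]
      exact dvd_mul_left _ _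
    have hodd : gOdd (δ₁ * α) := by
      unfold gOdd
      rw [gN_mul]
      exact Nat.odd_mul.2 ⟨hδ₁, hα⟩
    have hδu : (δ₁ : ℂ) * ((1 + I) ^ (m - 1) * u) ∉ Lam := fun h =>
      hun (m - 1) (E3_mem_of_coprime hαδ (hαuj _) h)
    have h3 := D.val_w0 V h2 hodd (z := z) (u := (1 + I) ^ (m - 1) * u) (hun _)
      (by
        intro h
        apply hδu
        have h4 := Lam_sub (Lam_mul δ₁ h) hz1
        rw [mul_add, add_sub_cancel_left] at h4
        exact h4)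
      (by
        intro h
        apply hδu
        have h4 := Lam_sub hz1 (Lam_mul δ₁ h)
        rw [mul_sub, sub_sub_cancel] at h4
        exact h4)
      (by
        rw [map_mul, mul_comm (δ₁ : ℂ), mul_assoc]
        exact Lam_mul _ hz1)
      (by
        rw [map_mul, mul_assoc]
        exact Lam_mul _ (hαuj _))
    constructor
    · intro hun'
      exact h3.2 (hz2.2 hun')
    · intro hun'
      exact h3.1 (fun h => hun' (hz2.1 h))

/-- **Independence of `a` and `t`.** `f = (1 + i) ^ m δ₁` as above, `m ≥ 4`. Put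
`d j = v (X ((1 + i) ^ j w) - X ((1 + i) ^ j u))`, `w = a / f`, `α u ∈ Lam`. For `j < m - 1`:
`d j ^ 2 = v 2 d (j + 1)` by `val_sq`: `v (X ((1 + i) ^ j u)) = 1` by `val_one_odd`;
`v (X ((1 + i) ^ j (w + u))) = 1` by `val_one`, since `2 (1 + i) ^ j (w + u) ∈ Lam` would imply
`2 (1 + i) ^ j f u ∈ Lam`, `u ∈ Lam` as `α` is prime to `2 f`; the same for `w - u`;
`v (X ((1 + i) ^ j w)) = 1`: for `j < m - 2` by `val_one` (`2 (1 + i) ^ j w ∉ Lam` because `w` is of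
exact order `(1 + i) ^ m δ₁`), for `j = m - 2` by `val_one` or `val_two_torsion`. Finally
`d (m - 1)` is `v 2` or `1` (`exists_z`, `val_w0` with `β = δ₁ α`; `z + u ∉ Lam` because `α` is prime
to `δ₁`), depending only on `δ₁`. Use `eq_of_rec`. -/
theorem LemData.val_indep (h2 : V.valuation (2 : ℂ) < 1) (U : UD) {J : ℕ} (hJ : 2 ≤ J)
    {α : GaussianInt} (hα : Prim α) (hαδ : IsCoprime α U.δ) {a a' t t' : ℂ}
    (ha : ∃ b : GaussianInt, IsCoprime b (U.f J) ∧ a = (b : ℂ) / (U.f J : ℂ))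
    (ha' : ∃ b : GaussianInt, IsCoprime b (U.f J) ∧ a' = (b : ℂ) / (U.f J : ℂ))
    (ht : t ∈ TFin D.X α) (ht' : t' ∈ TFin D.X α) :
    V.valuation (D.X a - t) = V.valuation (D.X a' - t') := by
  obtain ⟨m, δ₁, hm, hδ₁, hf⟩ := U.exists_odd_part J
  obtain ⟨b, hb, rfl⟩ := ha
  obtain ⟨b', hb', rfl⟩ := ha'
  have hα0 : α ≠ 0 := hα.odd.ne_zero
  obtain ⟨u, hu, hαu, rfl⟩ := (D.mem_TFin hα0 t).1 ht
  obtain ⟨u', hu', hαu', rfl⟩ := (D.mem_TFin hα0 t').1 ht'
  have hαf := U.coprime_f hα J hαδ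
  obtain ⟨s1, s2, s3⟩ := E3_seq D V h2 (by omega) (U.f_ne_zero J) hδ₁ hf hα.odd hαf hb hu hαu
  obtain ⟨r1, r2, r3⟩ := E3_seq D V h2 (by omega) (U.f_ne_zero J) hδ₁ hf hα.odd hαf hb' hu' hαu'
  have h3 := eq_of_rec (V.valuation (2 : ℂ))
    (fun j => V.valuation (D.X ((1 + I) ^ j * ((b : ℂ) / (U.f J : ℂ))) - D.X ((1 + I) ^ j * u)))
    (fun j => V.valuation (D.X ((1 + I) ^ j * ((b' : ℂ) / (U.f J : ℂ))) - D.X ((1 + I) ^ j * u')))
    (m - 1) s1 r1 (by
      by_cases hun : IsUnit δ₁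
      · exact (s2 hun).trans (r2 hun).symm
      · exact (s3 hun).trans (r3 hun).symm)
  change V.valuation (D.X ((1 + I) ^ 0 * ((b : ℂ) / (U.f J : ℂ))) - D.X ((1 + I) ^ 0 * u)) =
    V.valuation (D.X ((1 + I) ^ 0 * ((b' : ℂ) / (U.f J : ℂ))) - D.X ((1 + I) ^ 0 * u')) at h3
  rw [pow_zero, one_mul, one_mul, one_mul, one_mul] at h3
  exact h3

end Pool.Agent.STg
end

section

/-!
# An element with the coordinates of the conjugation
-/

namespace Pool.Agent.STg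

variable (U : UD)

/-- **An element with the coordinates of the conjugation.** Choose `τ` as in `exists_tau`
(`τ' = star τ`, `δ' = star δ`). As `τ` is prime to `2 δ δ'` there is `τ₁` with `τ τ₁ = 1` modulo
`2 ^ (k + 5) δ δ'`; it is primary (modulo `(1 + i) ^ 3`, which divides `4`) and prime to `2 δ`. By
the Chinese remainder theorem choose `α` with `α = τ' τ₁` modulo `2 ^ (k + 5) δ` and `α = c` modulo
`q` (`q` is prime to `2 δ`). Then `Ψ(τ) Ψ(τ₁) = Ψ(τ τ₁) = Ψ(1) = 1`, so `Ψ(τ₁) = Ψ(τ)` and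
`Ψ(α) = Ψ(τ' τ₁) = Ψ(τ') Ψ(τ) = -1` (`Ψ` is periodic modulo `16 δ`), and
`N(α) = N(τ') N(τ₁) = N(τ) N(τ₁) = N(τ τ₁) = 1` modulo `2 ^ k` (the norm modulo `2 ^ k` is periodic
modulo `2 ^ k`). -/
theorem exists_zc (k : ℕ) {q : GaussianInt} (hq : IsCoprime q (2 * U.δ))
    (c : GaussianInt) : ∃ α : GaussianInt, Prim α ∧ IsCoprime α U.δ ∧ sM U k α = zc k ∧
      q ∣ α - c := by
  obtain ⟨τ, hτ, hτ', hτδ, hτ'δ, hΨ⟩ := exists_tau U
  have hcube := U.cube_dvd (J := k + 5) (by omega)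
  obtain ⟨a, b, hab⟩ := U.coprime_f hτ (k + 5) hτδ
  have hτa : U.f (k + 5) ∣ τ * a - 1 := ⟨-b, by linear_combination hab⟩
  have ha : Prim a := by
    unfold Prim
    have h1 : a - 1 = (τ * a - 1) - (τ - 1) * a := by ring
    rw [h1]
    exact dvd_sub (hcube.trans hτa) (Dvd.dvd.mul_right hτ _)
  have haδ : IsCoprime a U.δ := by
    refine ⟨τ, b * 2 ^ (k + 5), ?_⟩
    unfold UD.f at hab
    linear_combination hab
  have h1δ : IsCoprime (1 : GaussianInt) U.δ := isCoprime_one_left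
  have hτaδ : IsCoprime (τ * a) U.δ := IsCoprime.mul_left hτδ haδ
  have hτ'aδ : IsCoprime (star τ * a) U.δ := IsCoprime.mul_left hτ'δ haδ
  have hs1 : sM U k (τ * a) = 1 := by
    rw [sM_per U (k := k) (J := k + 5) (by omega) (hτ.mul ha) hτaδ hτa]
    unfold sM
    rw [U.Ψ_one, gN_one, nu_one]
    rfl
  have hsm : sM U k τ * sM U k a = 1 := by
    rw [← sM_mul U hτ ha hτδ haδ, hs1]
  have hgN : gN (star τ) = gN τ := by
    unfold gN
    rw [Zsqrtd.norm_conj]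
  have hΨ' : U.Ψ (star τ) = -1 * U.Ψ τ := by
    rw [← hΨ]
    rcases Int.units_eq_one_or (U.Ψ τ) with h | h <;> rw [h] <;> simp
  have hst : sM U k (star τ) = zc k * sM U k τ := by
    unfold sM zc
    rw [Prod.mk_mul_mk, hgN, hΨ', one_mul]
  have hs2 : sM U k (star τ * a) = zc k := by
    rw [sM_mul U hτ' ha hτ'δ haδ, hst, mul_assoc, hsm, mul_one]
  have hFq : IsCoprime (U.f (k + 5)) q := by
    unfold UD.f
    have h2 : IsCoprime q 2 := hq.of_mul_right_left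
    have h3 : IsCoprime q U.δ := hq.of_mul_right_right
    exact (IsCoprime.mul_right h2.pow_right h3).symm
  obtain ⟨u, v, huv⟩ := hFq
  have hdvd : U.f (k + 5) ∣ star τ * a - (star τ * a * (v * q) + c * (u * U.f (k + 5))) := by
    refine ⟨u * (star τ * a) - c * u, ?_⟩
    linear_combination (-(star τ * a)) * huv
  refine ⟨star τ * a * (v * q) + c * (u * U.f (k + 5)), ?_, ?_, ?_, ?_⟩
  · exact Prim.of_dvd hcube (hτ'.mul ha) hdvd
  · obtain ⟨w, hw⟩ := (U.δ_dvd (k + 5)).trans hdvd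
    have h4 : star τ * a * (v * q) + c * (u * U.f (k + 5)) = star τ * a + U.δ * (-w) := by
      linear_combination -hw
    rw [h4]
    exact IsCoprime.add_mul_left_left hτ'aδ _
  · rw [← sM_per U (k := k) (J := k + 5) (by omega) (hτ'.mul ha) hτ'aδ hdvd, hs2]
  · refine ⟨star τ * a * v - c * v, ?_⟩
    linear_combination c * huv

end Pool.Agent.STg
end
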