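import Pool.Agent.Lib.MP_1ef7cf_nt_g.Mg.G039
import Pool.Agent.Lib.MP_1ef7cf_nt_g.Mg.G029
import Pool.Agent.Lib.MP_1ef7cf_nt_h.Q1
import Pool.Agent.Lib.MP_1ef7cf_nt_g.Mg.G044

section

/-!
# `X (a / f) - t` is a unit over odd primes
-/

open Complex

namespace Pool.Agent.STg

variable (D : LemData) (V : ValuationSubring ℂ)

lemma E4_coe_ne {f : GaussianInt} (hf : f ≠ 0) : (f : ℂ) ≠ 0 := by
  intro h0
  apply hf
  rw [← GaussianInt.toComplex_inj, h0, map_zero]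

lemma E4_exact {f b c : GaussianInt} (hf : f ≠ 0) (hb : IsCoprime b f)
    (h : (c : ℂ) * ((b : ℂ) / (f : ℂ)) ∈ Lam) : f ∣ c := by
  have hfC := E4_coe_ne hf
  obtain ⟨e, he⟩ := h
  change (e : ℂ) = _ at he
  rw [mul_div_assoc', eq_div_iff hfC] at he
  have h1 : e * f = c * b := by
    apply GaussianInt.toComplex_inj.1
    rw [map_mul, map_mul]
    exact he
  have h2 : f ∣ c * b := ⟨e, by rw [← h1, mul_comm]⟩
  exact hb.symm.dvd_of_dvd_mul_right h2

lemma E4_mul_div {f b : GaussianInt} (hf : f ≠ 0) : (f : ℂ) * ((b : ℂ) / (f : ℂ)) ∈ Lam :=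
  ⟨b, by
    change (b : ℂ) = _
    rw [mul_div_cancel₀ _ (E4_coe_ne hf)]⟩

lemma E4_div_notMem {f a : GaussianInt} (hf : ¬ IsUnit f) (hf0 : f ≠ 0) (ha : IsCoprime a f) :
    (a : ℂ) / (f : ℂ) ∉ Lam := by
  intro h
  apply hf
  have h1 := E4_exact (c := 1) hf0 ha (by rw [map_one, one_mul]; exact h)
  exact isUnit_of_dvd_one h1

/-- `a / f` plus or minus an `α`-torsion point is not in the lattice, if `α` is prime to `f`. -/
lemma add_notMem {f α a : GaussianInt} (hf : ¬ IsUnit f) (hf0 : f ≠ 0) (hα : IsCoprime α f)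
    (ha : IsCoprime a f) {u : ℂ} (hu : (α : ℂ) * u ∈ Lam) :
    (a : ℂ) / (f : ℂ) + u ∉ Lam ∧ (a : ℂ) / (f : ℂ) - u ∉ Lam := by
  have key : (α : ℂ) * ((a : ℂ) / (f : ℂ)) ∉ Lam := by
    intro h
    apply hf
    have h1 := E4_exact hf0 ha h
    exact hα.isUnit_of_dvd' h1 dvd_rfl
  constructor
  · intro h
    apply key
    have h1 := Lam_sub (Lam_mul α h) hu
    rw [mul_add, add_sub_cancel_right] at h1
    exact h1
  · intro h
    apply key
    have h1 := Lam_add (Lam_mul α h) hu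
    rw [mul_sub, sub_add_cancel] at h1
    exact h1

lemma E4_frob {p : ℕ} (hp : p.Prime) (h : V.valuation (p : ℂ) < 1) {x y : ℂ}
    (hx : V.valuation x ≤ 1) (hy : V.valuation y ≤ 1)
    (hxy : V.valuation (x ^ p - y ^ p) < 1) : V.valuation (x - y) < 1 := by
  have hx' : x ∈ V := (ValuationSubring.valuation_le_one_iff V x).1 hx
  have hy' : y ∈ V := (ValuationSubring.valuation_le_one_iff V y).1 hy
  obtain ⟨r, hr⟩ := exists_add_pow_prime_eq hp ((⟨x, hx'⟩ : V) - ⟨y, hy'⟩) (⟨y, hy'⟩ : V)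
  rw [sub_add_cancel] at hr
  have hr' := congrArg (fun z : V => (z : ℂ)) hr
  have hr2 : x ^ p = (x - y) ^ p + y ^ p + (p : ℂ) * (x - y) * y * (r : ℂ) := hr'
  have hvr : V.valuation (((x - y) * y) * (r : ℂ)) ≤ 1 :=
    (ValuationSubring.valuation_le_one_iff V _).2
      (mul_mem (mul_mem (sub_mem hx' hy') hy') r.2)
  have h1 : V.valuation ((p : ℂ) * (((x - y) * y) * (r : ℂ))) < 1 := by
    rw [map_mul]
    exact mul_lt_one_of_lt_of_le h hvr
  have h2 : V.valuation ((x - y) ^ p) < 1 := by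
    have e : (x - y) ^ p = (x ^ p - y ^ p) - (p : ℂ) * (((x - y) * y) * (r : ℂ)) := by
      rw [hr2]
      ring
    rw [e]
    exact lt_of_le_of_lt (Valuation.map_sub _ _ _) (max_lt hxy h1)
  rw [map_pow] at h2
  exact (pow_lt_one_iff_of_nonneg zero_le hp.ne_zero).1 h2

lemma E4_gN_one_iff {π : GaussianInt} : gN π = 1 ↔ IsUnit π := Zsqrtd.norm_eq_one_iff

lemma E4_prime {π : GaussianInt} (hπ : Prime π) : ∃ p : ℕ, p.Prime ∧ π ∣ (p : GaussianInt) ∧
    (gN π = p ∨ gN π = p ^ 2) := by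
  have h1 : π ∣ ((gN π : ℕ) : GaussianInt) := ⟨star π, (mul_star_eq π).symm⟩
  have hn0 : gN π ≠ 0 := (gN_pos hπ.ne_zero).ne'
  have key : ∀ n : ℕ, n ≠ 0 → π ∣ (n : GaussianInt) → ∃ p : ℕ, p.Prime ∧ π ∣ (p : GaussianInt) := by
    intro n
    induction n using Nat.recOnMul with
    | zero =>
      intro h
      exact absurd rfl h
    | one =>
      intro _ h
      rw [Nat.cast_one] at h
      exact absurd (isUnit_of_dvd_one h) hπ.not_isUnit
    | prime p hp =>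
      intro _ h
      exact ⟨p, hp, h⟩
    | mul a b iha ihb =>
      intro hab h
      rw [Nat.cast_mul] at h
      rcases hπ.dvd_or_dvd h with h | h
      · exact iha (left_ne_zero_of_mul hab) h
      · exact ihb (right_ne_zero_of_mul hab) h
  obtain ⟨p, hp, hd⟩ := key _ hn0 h1
  refine ⟨p, hp, hd, ?_⟩
  obtain ⟨c, hc⟩ := hd
  have h2 : gN (p : GaussianInt) = p ^ 2 := by
    unfold gN
    rw [Zsqrtd.norm_natCast, Int.natAbs_mul, Int.natAbs_natCast, pow_two]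
  rw [hc, gN_mul] at h2
  have h3 : gN π ∣ p ^ 2 := ⟨_, h2.symm⟩
  obtain ⟨k, hk, hk2⟩ := (Nat.dvd_prime_pow hp).1 h3
  have h4 : k ≠ 0 := by
    rintro rfl
    rw [pow_zero] at hk2
    exact hπ.not_isUnit (E4_gN_one_iff.1 hk2)
  have h5 : k = 1 ∨ k = 2 := by omega
  rcases h5 with rfl | rfl
  · left
    rw [hk2, pow_one]
  · right
    exact hk2

/-- If `v π < 1`, `π` a Gaussian prime, then `x ^ N(π)` and `y ^ N(π)` are congruent only if `x` and
`y` are: `N(π) = p` or `p ^ 2` is a power of the residue characteristic. -/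
lemma val_pow_sub {π : GaussianInt} (hπ : Prime π) (h : V.valuation (π : ℂ) < 1) {x y : ℂ}
    (hx : V.valuation x ≤ 1) (hy : V.valuation y ≤ 1)
    (hxy : V.valuation (x ^ gN π - y ^ gN π) < 1) : V.valuation (x - y) < 1 := by
  obtain ⟨p, hp, ⟨c, hc⟩, hN⟩ := E4_prime hπ
  have hvp : V.valuation (p : ℂ) < 1 := by
    have e : (p : ℂ) = (((p : GaussianInt)) : ℂ) := (map_natCast _ p).symm
    rw [e, hc, map_mul, map_mul]
    exact mul_lt_one_of_lt_of_le h (val_gauss V c)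
  rcases hN with hN | hN
  · rw [hN] at hxy
    exact E4_frob V hp hvp hx hy hxy
  · rw [hN, pow_two, pow_mul, pow_mul] at hxy
    have h1 : V.valuation (x ^ p) ≤ 1 := by
      rw [map_pow]
      exact pow_le_one₀ zero_le hx
    have h2 : V.valuation (y ^ p) ≤ 1 := by
      rw [map_pow]
      exact pow_le_one₀ zero_le hy
    exact E4_frob V hp hvp hx hy (E4_frob V hp hvp h1 h2 hxy)

/-- **Odd primes.** Case `π ∤ f`: `val_sub_eq_one` (`β = f α`). Case `f = π f₁`, `π ∤ f₁` (`δ` has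
squarefree norm, so `π ^ 2 ∤ δ`): let `π'` be the primary associate of `π`, `f = π' f₁'`,
`w = a / f`; `v (X w) ≤ 1` by `val_le_one'`. Choose
`a'` with `π' a' = a` modulo `f₁'`, `w' = a' / f₁'`, so `π' w' = π' w` modulo `Lam`. By `frob_congr`
for `w` and `w'` and `val_pow_sub`, `v (X w - X w') < 1`; and `v (X w' - X u) = 1` by
`val_sub_eq_one` (`β = f₁' α`). -/
theorem LemData.val_unit_odd (U : UD) {J : ℕ} (hJ : 2 ≤ J) {π : GaussianInt} (hπ : Prime π)
    (hodd : gOdd π) (h : V.valuation (π : ℂ) < 1) {α : GaussianInt} (hα : Prim α)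
    (hαδ : IsCoprime α U.δ) (hπα : ¬ π ∣ α) {a : GaussianInt} (ha : IsCoprime a (U.f J)) {t : ℂ}
    (ht : t ∈ TFin D.X α) : V.valuation (D.X ((a : ℂ) / (U.f J : ℂ)) - t) = 1 := by
  have hα0 : α ≠ 0 := hα.odd.ne_zero
  obtain ⟨u, hu, hαu, rfl⟩ := (D.mem_TFin hα0 t).1 ht
  have hαf := U.coprime_f hα J hαδ
  have hf0 := U.f_ne_zero J
  have h2nu : ¬ IsUnit (2 : GaussianInt) := by
    intro h2
    have h3 := E4_gN_one_iff.2 h2
    revert h3
    decide
  have hfnu : ¬ IsUnit (U.f J) := fun h2 => h2nu (isUnit_of_dvd_unit (U.two_dvd (by omega)) h2)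
  by_cases hπf : π ∣ U.f J
  · -- the prime divides the modulus
    have hπ2 : ¬ π ∣ 2 := by
      intro h2
      have h3 := (val_gauss_lt V hπ h 2).2 h2
      have h4 := val_two V hπ hodd h
      rw [map_ofNat] at h3
      rw [h4] at h3
      exact lt_irrefl _ h3
    have hπ2J : ¬ π ∣ 2 ^ J := fun h2 => hπ2 (hπ.dvd_of_dvd_pow h2)
    have hπδ : π ∣ U.δ := by
      rcases hπ.dvd_or_dvd hπf with h2 | h2
      · exact absurd h2 hπ2J
      · exact h2
    obtain ⟨δ', hδ'⟩ := hπδ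
    have hπδ' : ¬ π ∣ δ' := by
      rintro ⟨c, hc⟩
      have h2 : gN π * gN π ∣ gN U.δ := by
        rw [hδ', hc, gN_mul, gN_mul]
        exact ⟨gN c, by ring⟩
      have h3 := U.sqf (gN π) h2
      rw [Nat.isUnit_iff] at h3
      exact hπ.not_isUnit (E4_gN_one_iff.1 h3)
    obtain ⟨e, he, hprim⟩ := exists_prim_assoc hodd
    obtain ⟨e', he'⟩ := he.exists_left_inv
    obtain ⟨π', hπ'⟩ : ∃ x : GaussianInt, x = e * π := ⟨_, rfl⟩
    rw [← hπ'] at hprim
    have hassoc : Associated π π' := ⟨he.unit, by rw [IsUnit.unit_spec, hπ', mul_comm]⟩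
    have hπ'p : Prime π' := hassoc.prime hπ
    have hv' : V.valuation (π' : ℂ) < 1 := by
      rw [hπ', map_mul, map_mul, mul_comm]
      exact mul_lt_one_of_lt_of_le h (val_gauss V e)
    obtain ⟨g, hg⟩ : ∃ x : GaussianInt, x = e' * (2 ^ J * δ') := ⟨_, rfl⟩
    have hfg : U.f J = π' * g := by
      unfold UD.f
      rw [hδ', hπ', hg]
      calc 2 ^ J * (π * δ') = 1 * (2 ^ J * (π * δ')) := (one_mul _).symm
        _ = (e' * e) * (2 ^ J * (π * δ')) := by rw [he']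
        _ = _ := by ring
    have hg0 : g ≠ 0 := by
      intro h0
      apply hf0
      rw [hfg, h0, mul_zero]
    have hπ'g : ¬ π' ∣ g := by
      intro h2
      have h3 : π ∣ g := (hassoc.dvd_iff_dvd_left).2 h2
      rw [hg] at h3
      rcases hπ.dvd_or_dvd h3 with h4 | h4
      · exact hπ.not_isUnit (isUnit_of_dvd_unit h4 (IsUnit.of_mul_eq_one e he'))
      · rcases hπ.dvd_or_dvd h4 with h5 | h5
        · exact hπ2J h5
        · exact hπδ' h5
    have hgnu : ¬ IsUnit g := by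
      intro h2
      apply h2nu
      have h3 : (2 : GaussianInt) ∣ g := by
        rw [hg]
        exact Dvd.dvd.mul_left (Dvd.dvd.mul_right (dvd_pow_self 2 (by omega)) _) _
      exact isUnit_of_dvd_unit h3 h2
    have hgf : g ∣ U.f J := by
      rw [hfg]
      exact dvd_mul_left _ _
    have hag : IsCoprime a g := ha.of_isCoprime_of_dvd_right hgf
    have hαg : IsCoprime α g := hαf.of_isCoprime_of_dvd_right hgf
    have hπg : IsCoprime π' g := (Irreducible.coprime_iff_not_dvd hπ'p.irreducible).2 hπ'g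
    obtain ⟨x, y, hxy⟩ := hπg
    obtain ⟨a', ha'⟩ : ∃ z : GaussianInt, z = x * a := ⟨_, rfl⟩
    have ha'g : IsCoprime a' g := by
      rw [ha']
      exact IsCoprime.mul_left ⟨π', y, by rw [mul_comm π' x]; exact hxy⟩ hag
    have hgC := E4_coe_ne hg0
    have hπC := E4_coe_ne hπ'p.ne_zero
    have hπw : (π' : ℂ) * ((a : ℂ) / (U.f J : ℂ)) = (a : ℂ) / (g : ℂ) := by
      rw [hfg, map_mul, mul_div_assoc', mul_div_mul_left _ _ hπC]
    have hπw' : (a : ℂ) / (g : ℂ) = (π' : ℂ) * ((a' : ℂ) / (g : ℂ)) + ((y * a : GaussianInt) : ℂ) := by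
      have h3 : (x : ℂ) * (π' : ℂ) + (y : ℂ) * (g : ℂ) = 1 := by
        rw [← map_mul, ← map_mul, ← map_add, hxy, map_one]
      rw [ha', map_mul, map_mul, mul_div_assoc', div_add' _ _ _ hgC, div_left_inj' hgC]
      linear_combination (-(a : ℂ)) * h3
    have hag' := E4_div_notMem hgnu hg0 hag
    have hw1 : (π' : ℂ) * ((a : ℂ) / (U.f J : ℂ)) ∉ Lam := by
      rw [hπw]
      exact hag'
    have hw2 : (π' : ℂ) * ((a' : ℂ) / (g : ℂ)) ∉ Lam := by
      intro h3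
      apply hag'
      rw [hπw']
      exact Lam_add h3 ⟨y * a, rfl⟩
    have hw3 : (a' : ℂ) / (g : ℂ) ∉ Lam := fun h3 => hw2 (Lam_mul π' h3)
    have hX : D.X ((π' : ℂ) * ((a : ℂ) / (U.f J : ℂ))) = D.X ((π' : ℂ) * ((a' : ℂ) / (g : ℂ))) := by
      rw [hπw, hπw', D.X_add]
    have hgw : (g : ℂ) * ((π' : ℂ) * ((a : ℂ) / (U.f J : ℂ))) ∈ Lam := by
      rw [hπw]
      exact E4_mul_div hg0
    have hv1 := D.val_le_one' V hπ'p hprim.odd hv' hπ'g hw1 hgw
    have hv2 := D.val_le_one V hπ'p hprim.odd hv' hπ'g hw3 (E4_mul_div hg0)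
    have hc1 := D.frob_congr V hπ'p hprim hv' hw1 hv1
    have hc2 := D.frob_congr V hπ'p hprim hv' hw2 hv2
    rw [hX] at hc1
    have hc3 : V.valuation (D.X ((a : ℂ) / (U.f J : ℂ)) - D.X ((a' : ℂ) / (g : ℂ))) < 1 := by
      apply val_pow_sub V hπ'p hv' hv1 hv2
      have e1 : D.X ((a : ℂ) / (U.f J : ℂ)) ^ gN π' - D.X ((a' : ℂ) / (g : ℂ)) ^ gN π' =
          (D.X ((π' : ℂ) * ((a' : ℂ) / (g : ℂ))) - D.X ((a' : ℂ) / (g : ℂ)) ^ gN π') -
            (D.X ((π' : ℂ) * ((a' : ℂ) / (g : ℂ))) - D.X ((a : ℂ) / (U.f J : ℂ)) ^ gN π') := by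
        ring
      rw [e1]
      exact lt_of_le_of_lt (Valuation.map_sub _ _ _) (max_lt hc2 hc1)
    have hπ'α : ¬ π' ∣ α := fun h3 => hπα ((hassoc.dvd_iff_dvd_left).2 h3)
    have hc4 : V.valuation (D.X ((a' : ℂ) / (g : ℂ)) - D.X u) = 1 := by
      obtain ⟨h3, h4⟩ := add_notMem hgnu hg0 hαg ha'g hαu
      refine D.val_sub_eq_one V hπ'p hprim.odd hv' (β := g * α) ?_ hw3 hu h3 h4 ?_ ?_
      · intro h5
        rcases hπ'p.dvd_or_dvd h5 with h6 | h6
        · exact hπ'g h6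
        · exact hπ'α h6
      · rw [map_mul, mul_comm (g : ℂ), mul_assoc]
        exact Lam_mul _ (E4_mul_div hg0)
      · rw [map_mul, mul_assoc]
        exact Lam_mul _ hαu
    have e2 : D.X ((a : ℂ) / (U.f J : ℂ)) - D.X u =
        (D.X ((a : ℂ) / (U.f J : ℂ)) - D.X ((a' : ℂ) / (g : ℂ))) +
          (D.X ((a' : ℂ) / (g : ℂ)) - D.X u) := by ring
    rw [e2, Valuation.map_add_eq_of_lt_right _ (by rw [hc4]; exact hc3), hc4]
  · obtain ⟨h3, h4⟩ := add_notMem hfnu hf0 hαf ha hαu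
    refine D.val_sub_eq_one V hπ hodd h (β := U.f J * α) ?_ (E4_div_notMem hfnu hf0 ha) hu h3 h4
      ?_ ?_
    · intro h5
      rcases hπ.dvd_or_dvd h5 with h6 | h6
      · exact hπf h6
      · exact hπα h6
    · rw [map_mul, mul_comm (U.f J : ℂ), mul_assoc]
      exact Lam_mul _ (E4_mul_div hf0)
    · rw [map_mul, mul_assoc]
      exact Lam_mul _ hαu

end Pool.Agent.STg
end

section

/-!
# Valuations at odd primes
-/

open Complex

namespace Pool.Agent.STh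

open Pool.Agent.STg

/-! Generalize `LemData.val_unit_odd` in `MP_1ef7cf_nt_g/E4.lean` (there `π ^ 2 ∤ f`); `add_notMem`, `val_pow_sub`,
`E4_exact`, `E4_mul_div`, `E4_div_notMem` are general. -/

variable (D : LemData) (V : ValuationSubring ℂ)

/-- `v (X w) ≤ 1` if `π ^ j w` is a torsion point of order prime to `π` and not in `Lam`: induction on `j`;
`v (X w) > 1` would give `v (X (π w)) > 1` (`val_mul_gt`), and finally a contradiction to `val_le_one`. -/
theorem val_le_one_pow {π : GaussianInt} (hπ : Prime π) (hodd : gOdd π)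
    (h : V.valuation (π : ℂ) < 1) {β : GaussianInt} (hβ : ¬ π ∣ β) (j : ℕ) {w : ℂ}
    (hw : ((π ^ j : GaussianInt) : ℂ) * w ∉ Lam)
    (hβw : (β : ℂ) * (((π ^ j : GaussianInt) : ℂ) * w) ∈ Lam) : V.valuation (D.X w) ≤ 1 := by
  induction j generalizing w with
  | zero =>
    rw [pow_zero, map_one, one_mul] at hw hβw
    exact D.val_le_one V hπ hodd h hβ hw hβw
  | succ j ih =>
    have e1 : ((π ^ (j + 1) : GaussianInt) : ℂ) * w = ((π ^ j : GaussianInt) : ℂ) * ((π : ℂ) * w) := by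
      rw [pow_succ, map_mul, mul_assoc]
    rw [e1] at hw hβw
    have h1 := ih hw hβw
    by_contra hcon
    have h2 := D.val_mul_gt V hπ hodd h (z := w) (fun h3 => hw (Lam_mul _ h3)) (not_le.1 hcon)
    exact hcon (h2.trans_le h1).le

/-- If `π ^ j w = π ^ j w'` modulo `Lam`, `π` primary, both points as in `val_le_one_pow`, then
`v (X w - X w') < 1`: induction on `j` with `frob_congr` and `val_pow_sub`:
`X (π w) = (X w) ^ N(π)`, `X (π w') = (X w') ^ N(π)` modulo the maximal ideal. -/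
theorem val_sub_pow {π : GaussianInt} (hπ : Prime π) (hP : Prim π)
    (h : V.valuation (π : ℂ) < 1) {β : GaussianInt} (hβ : ¬ π ∣ β) (j : ℕ) {w w' : ℂ}
    (hw : ((π ^ j : GaussianInt) : ℂ) * w ∉ Lam) (hw' : ((π ^ j : GaussianInt) : ℂ) * w' ∉ Lam)
    (hβw : (β : ℂ) * (((π ^ j : GaussianInt) : ℂ) * w) ∈ Lam)
    (hww' : ((π ^ j : GaussianInt) : ℂ) * w - ((π ^ j : GaussianInt) : ℂ) * w' ∈ Lam) :
    V.valuation (D.X w - D.X w') < 1 := by
  induction j generalizing w w' with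
  | zero =>
    rw [pow_zero, map_one, one_mul, one_mul] at hww'
    obtain ⟨e, he⟩ := hww'
    change (e : ℂ) = _ at he
    have e1 : w = w' + (e : ℂ) := by
      rw [he]
      ring
    rw [e1, D.X_add, sub_self, map_zero]
    exact zero_lt_one
  | succ j ih =>
    have hβw' : (β : ℂ) * (((π ^ (j + 1) : GaussianInt) : ℂ) * w') ∈ Lam := by
      have h1 := Lam_sub hβw (Lam_mul β hww')
      rw [mul_sub, sub_sub_cancel] at h1
      exact h1
    have hv1 := val_le_one_pow D V hπ hP.odd h hβ (j + 1) hw hβw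
    have hv2 := val_le_one_pow D V hπ hP.odd h hβ (j + 1) hw' hβw'
    have e1 : ∀ x : ℂ, ((π ^ (j + 1) : GaussianInt) : ℂ) * x =
        ((π ^ j : GaussianInt) : ℂ) * ((π : ℂ) * x) := by
      intro x
      rw [pow_succ, map_mul, mul_assoc]
    rw [e1] at hw hw' hβw
    rw [e1, e1] at hww'
    have h1 := ih hw hw' hβw hww'
    have hc1 := D.frob_congr V hπ hP h (z := w) (fun h3 => hw (Lam_mul _ h3)) hv1
    have hc2 := D.frob_congr V hπ hP h (z := w') (fun h3 => hw' (Lam_mul _ h3)) hv2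
    apply val_pow_sub V hπ h hv1 hv2
    have e2 : D.X w ^ gN π - D.X w' ^ gN π =
        (D.X ((π : ℂ) * w) - D.X ((π : ℂ) * w')) -
          ((D.X ((π : ℂ) * w) - D.X w ^ gN π) - (D.X ((π : ℂ) * w') - D.X w' ^ gN π)) := by
      ring
    rw [e2]
    exact lt_of_le_of_lt (Valuation.map_sub _ _ _)
      (max_lt h1 (lt_of_le_of_lt (Valuation.map_sub _ _ _) (max_lt hc1 hc2)))

/-- **Odd primes.** `f = π ^ j f₁`, `π ∤ f₁` (`f₁` is not a unit: it is divisible by `1 + i`); let `π'` be the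
primary associate of `π`, `f = π' ^ j f₁'`, `w = a / f`. Choose `a'` with `π' ^ j a' = a` modulo `f₁'`,
`w' = a' / f₁'`, so `π' ^ j w' = π' ^ j w` modulo `Lam`. Then
`v (X w - X w') < 1` (`val_sub_pow`) and `v (X w' - X u) = 1` by `val_sub_eq_one` (`β = f₁' α`). -/
theorem val_unit_odd (U : UD) (J : ℕ) {π : GaussianInt} (hπ : Prime π)
    (hodd : gOdd π) (h : V.valuation (π : ℂ) < 1) {α : GaussianInt} (hα : Prim α)
    (hαn : IsCoprime α ((U.n : ℕ) : GaussianInt)) (hπα : ¬ π ∣ α) {a : GaussianInt}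
    (ha : IsCoprime a (U.f J)) {t : ℂ} (ht : t ∈ TFin U.D.X α) :
    V.valuation (U.D.X ((a : ℂ) / (U.f J : ℂ)) - t) = 1 := by
  have hα0 : α ≠ 0 := hα.odd.ne_zero
  obtain ⟨u, hu, hαu, rfl⟩ := (U.D.mem_TFin hα0 t).1 ht
  have hαf := U.coprime_f J hαn
  have hf0 := U.f_ne_zero J
  obtain ⟨j, f₁, hπf₁, hfj⟩ := WfDvdMonoid.max_power_factor hf0 hπ.irreducible
  obtain ⟨e, he, hprim⟩ := exists_prim_assoc hodd
  obtain ⟨e', he'⟩ := he.exists_left_inv
  obtain ⟨π', hπ'⟩ : ∃ x : GaussianInt, x = e * π := ⟨_, rfl⟩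
  rw [← hπ'] at hprim
  have hassoc : Associated π π' := ⟨he.unit, by rw [IsUnit.unit_spec, hπ', mul_comm]⟩
  have hπ'p : Prime π' := hassoc.prime hπ
  have hv' : V.valuation (π' : ℂ) < 1 := by
    rw [hπ', map_mul, map_mul, mul_comm]
    exact mul_lt_one_of_lt_of_le h (val_gauss V e)
  obtain ⟨g, hg⟩ : ∃ x : GaussianInt, x = e' ^ j * f₁ := ⟨_, rfl⟩
  obtain ⟨P, hP⟩ : ∃ x : GaussianInt, x = π' ^ j := ⟨_, rfl⟩
  have hfg : U.f J = P * g := by
    rw [hP, hfj, hπ', hg]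
    calc π ^ j * f₁ = (1 : GaussianInt) ^ j * (π ^ j * f₁) := by rw [one_pow, one_mul]
      _ = (e' * e) ^ j * (π ^ j * f₁) := by rw [he']
      _ = _ := by
        rw [mul_pow, mul_pow]
        ring
  have hg0 : g ≠ 0 := by
    intro h0
    apply hf0
    rw [hfg, h0, mul_zero]
  have hP0 : P ≠ 0 := by
    intro h0
    apply hf0
    rw [hfg, h0, zero_mul]
  have hπ'g : ¬ π' ∣ g := by
    intro h2
    have h3 : π ∣ g := (hassoc.dvd_iff_dvd_left).2 h2
    rw [hg] at h3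
    rcases hπ.dvd_or_dvd h3 with h4 | h4
    · exact hπ.not_isUnit (isUnit_of_dvd_unit (hπ.dvd_of_dvd_pow h4) (IsUnit.of_mul_eq_one e he'))
    · exact hπf₁ h4
  have hPodd : IsCoprime P (⟨1, 1⟩ : GaussianInt) := by
    rw [hP]
    exact (E3_odd_coprime hprim.odd).pow_left
  have hgnu : ¬ IsUnit g := by
    intro h2
    have h3 : (⟨1, 1⟩ : GaussianInt) ∣ P * g := by
      rw [← hfg]
      exact dvd_trans (dvd_pow_self _ (by norm_num)) (U.cube_dvd J)
    exact E3_not_unit (isUnit_of_dvd_unit (hPodd.symm.dvd_of_dvd_mul_left h3) h2)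
  have hgf : g ∣ U.f J := by
    rw [hfg]
    exact dvd_mul_left _ _
  have hag : IsCoprime a g := ha.of_isCoprime_of_dvd_right hgf
  have hαg : IsCoprime α g := hαf.of_isCoprime_of_dvd_right hgf
  have hPg : IsCoprime P g := by
    rw [hP]
    exact ((Irreducible.coprime_iff_not_dvd hπ'p.irreducible).2 hπ'g).pow_left
  obtain ⟨x, y, hxy⟩ := hPg
  obtain ⟨a', ha'⟩ : ∃ z : GaussianInt, z = x * a := ⟨_, rfl⟩
  have ha'g : IsCoprime a' g := by
    rw [ha']
    exact IsCoprime.mul_left ⟨P, y, by rw [mul_comm P x]; exact hxy⟩ hag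
  have hgC := E4_coe_ne hg0
  have hPC := E4_coe_ne hP0
  have hPw : (P : ℂ) * ((a : ℂ) / (U.f J : ℂ)) = (a : ℂ) / (g : ℂ) := by
    rw [hfg, map_mul, mul_div_assoc', mul_div_mul_left _ _ hPC]
  have hPw' : (a : ℂ) / (g : ℂ) = (P : ℂ) * ((a' : ℂ) / (g : ℂ)) + ((y * a : GaussianInt) : ℂ) := by
    have h3 : (x : ℂ) * (P : ℂ) + (y : ℂ) * (g : ℂ) = 1 := by
      rw [← map_mul, ← map_mul, ← map_add, hxy, map_one]
    rw [ha', map_mul, map_mul, mul_div_assoc', div_add' _ _ _ hgC, div_left_inj' hgC]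
    linear_combination (-(a : ℂ)) * h3
  have hag' := E4_div_notMem hgnu hg0 hag
  have hw1 : (P : ℂ) * ((a : ℂ) / (U.f J : ℂ)) ∉ Lam := by
    rw [hPw]
    exact hag'
  have hw2 : (P : ℂ) * ((a' : ℂ) / (g : ℂ)) ∉ Lam := by
    intro h3
    apply hag'
    rw [hPw']
    exact Lam_add h3 ⟨y * a, rfl⟩
  have hw3 : (a' : ℂ) / (g : ℂ) ∉ Lam := fun h3 => hw2 (Lam_mul P h3)
  have hsub : (P : ℂ) * ((a : ℂ) / (U.f J : ℂ)) - (P : ℂ) * ((a' : ℂ) / (g : ℂ)) ∈ Lam := by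
    rw [hPw, hPw', add_sub_cancel_left]
    exact ⟨y * a, rfl⟩
  have hgw : (g : ℂ) * ((P : ℂ) * ((a : ℂ) / (U.f J : ℂ))) ∈ Lam := by
    rw [hPw]
    exact E4_mul_div hg0
  have hc3 : V.valuation (U.D.X ((a : ℂ) / (U.f J : ℂ)) - U.D.X ((a' : ℂ) / (g : ℂ))) < 1 := by
    rw [hP] at hw1 hw2 hsub hgw
    exact val_sub_pow U.D V hπ'p hprim hv' hπ'g j hw1 hw2 hgw hsub
  have hπ'α : ¬ π' ∣ α := fun h3 => hπα ((hassoc.dvd_iff_dvd_left).2 h3)
  have hc4 : V.valuation (U.D.X ((a' : ℂ) / (g : ℂ)) - U.D.X u) = 1 := by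
    obtain ⟨h3, h4⟩ := add_notMem hgnu hg0 hαg ha'g hαu
    refine U.D.val_sub_eq_one V hπ'p hprim.odd hv' (β := g * α) ?_ hw3 hu h3 h4 ?_ ?_
    · intro h5
      rcases hπ'p.dvd_or_dvd h5 with h6 | h6
      · exact hπ'g h6
      · exact hπ'α h6
    · rw [map_mul, mul_comm (g : ℂ), mul_assoc]
      exact Lam_mul _ (E4_mul_div hg0)
    · rw [map_mul, mul_assoc]
      exact Lam_mul _ hαu
  have e2 : U.D.X ((a : ℂ) / (U.f J : ℂ)) - U.D.X u =
      (U.D.X ((a : ℂ) / (U.f J : ℂ)) - U.D.X ((a' : ℂ) / (g : ℂ))) +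
        (U.D.X ((a' : ℂ) / (g : ℂ)) - U.D.X u) := by ring
  rw [e2, Valuation.map_add_eq_of_lt_right _ (by rw [hc4]; exact hc3), hc4]

end Pool.Agent.STh
end
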