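import Pool.Agent.Lib.MP_1ef7cf_nt_g.D2a
import Pool.Agent.Lib.MP_1ef7cf_nt_g.Mg.G029
import Pool.Agent.Lib.MP_1ef7cf_nt_g.Mg.G028
import Pool.Agent.Lib.MP_1ef7cf_nt_g.D5a

section

/-!
# The elliptic units: periodicity, non-vanishing
-/

open Complex

namespace Pool.Agent.STg

variable (D : LemData) (U : UD)

lemma V1a_cast_ne {f : GaussianInt} (hf : f ≠ 0) : (f : ℂ) ≠ 0 := by
  intro h
  exact hf (GaussianInt.toComplex_eq_zero.mp h)

lemma V1a_inj {a b : GaussianInt} (h : (a : ℂ) = (b : ℂ)) : a = b :=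
  GaussianInt.toComplex_inj.mp h

/-- `a / f` is not in the lattice if `a` is prime to `f`, `f` not a unit; more generally
`α a / f` -/
lemma div_notMem {f a : GaussianInt} (hf : ¬ IsUnit f) (hf0 : f ≠ 0) (ha : IsCoprime a f) :
    (a : ℂ) / (f : ℂ) ∉ Lam := by
  intro h
  obtain ⟨c, hc⟩ := h
  have hc' : (c : ℂ) = (a : ℂ) / (f : ℂ) := hc
  have hfc := V1a_cast_ne hf0
  have h1 : ((c * f : GaussianInt) : ℂ) = (a : ℂ) := by
    rw [GaussianInt.toComplex_mul, hc']
    field_simp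
  have h2 : c * f = a := V1a_inj h1
  apply hf
  have h3 : IsCoprime f f := by
    have : IsCoprime (c * f) f := h2 ▸ ha
    exact this.of_mul_left_right
  exact isCoprime_self.mp h3

lemma UD.f_not_unit (U : UD) {J : ℕ} (hJ : 1 ≤ J) : ¬ IsUnit (U.f J) := by
  intro h
  have h1 : IsUnit U.δ := isUnit_of_mul_isUnit_right (show IsUnit (2 ^ J * U.δ) from h)
  have h2 : U.δ.norm.natAbs = 1 := Zsqrtd.norm_eq_one_iff.mpr h1
  have h3 := U.one_lt
  unfold gN at h3
  omega

lemma V1a_per {f a b : GaussianInt} (hf : f ≠ 0) (h : f ∣ a - b) :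
    ∃ c : GaussianInt, (a : ℂ) / (f : ℂ) = (b : ℂ) / (f : ℂ) + (c : ℂ) := by
  obtain ⟨c, hc⟩ := h
  refine ⟨c, ?_⟩
  have h1 : a = b + f * c := by
    rw [← hc]
    ring
  have hfc := V1a_cast_ne hf
  rw [h1, GaussianInt.toComplex_add, GaussianInt.toComplex_mul]
  field_simp

/-- periodicity of `th` -/
lemma th_per {α f a b : GaussianInt} (hf : f ≠ 0) (h : f ∣ a - b) :
    th D α f a = th D α f b := by
  obtain ⟨c, hc⟩ := V1a_per hf h
  unfold th
  rw [hc, D.X_add]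

lemma V1a_coprime {f a b : GaussianInt} (ha : IsCoprime a f) (h : f ∣ a - b) :
    IsCoprime b f := by
  obtain ⟨c, hc⟩ := h
  have h1 : b = a + f * (-c) := by
    have : a - b = f * c := hc
    linear_combination -this
  rw [h1]
  exact IsCoprime.add_mul_left_left ha (-c)

lemma ell_per {f a b : GaussianInt} (hf : ¬ IsUnit f) (hf0 : f ≠ 0) (ha : IsCoprime a f)
    (h : f ∣ a - b) : D.ell ((a : ℂ) / (f : ℂ)) = D.ell ((b : ℂ) / (f : ℂ)) := by
  obtain ⟨c, hc⟩ := V1a_per hf0 h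
  rw [hc, D.ell_add _ (div_notMem hf hf0 (V1a_coprime ha h))]

/-- `X (a / f) ≠ X u` for `α`-torsion points `u` by `X_inj`: otherwise `α a / f ∈ Lam`. -/
lemma th_ne_zero {α f a : GaussianInt} (hα0 : α ≠ 0) (hf : ¬ IsUnit f) (hf0 : f ≠ 0)
    (hα : IsCoprime α f) (ha : IsCoprime a f) : th D α f a ≠ 0 := by
  unfold th
  rw [Finset.prod_ne_zero_iff]
  intro t ht h0
  rw [D.mem_TFin hα0] at ht
  obtain ⟨u, hu, hαu, rfl⟩ := ht
  have h1 : D.X ((a : ℂ) / (f : ℂ)) = D.X u := sub_eq_zero.mp h0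
  have hαa : ((α * a : GaussianInt) : ℂ) / (f : ℂ) ∉ Lam :=
    div_notMem hf hf0 (IsCoprime.mul_left hα ha)
  rcases D.X_inj _ _ (div_notMem hf hf0 ha) hu h1 with h2 | h2
  · apply hαa
    have h3 := Lam_add (Lam_mul α h2) hαu
    have h4 : (α : ℂ) * ((a : ℂ) / (f : ℂ) - u) + (α : ℂ) * u =
        ((α * a : GaussianInt) : ℂ) / (f : ℂ) := by
      rw [GaussianInt.toComplex_mul]
      ring
    rwa [h4] at h3
  · apply hαa
    have h3 := Lam_sub (Lam_mul α h2) hαu
    have h4 : (α : ℂ) * ((a : ℂ) / (f : ℂ) + u) - (α : ℂ) * u =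
        ((α * a : GaussianInt) : ℂ) / (f : ℂ) := by
      rw [GaussianInt.toComplex_mul]
      ring
    rwa [h4] at h3

/-- `vv ≠ 0` and `vv (zc g) = 1 / vv g` -/
lemma vv_ne_zero {k J : ℕ} (hJ : 2 ≤ J) {α : GaussianInt} (hα : Prim α) (hαδ : IsCoprime α U.δ)
    (g : Gam k) : vv D U k J α g ≠ 0 := by
  classical
  have hf0 := U.f_ne_zero J
  have hfu := U.f_not_unit (J := J) (by omega)
  have hα0 : α ≠ 0 := hα.odd.ne_zero
  have h1 : ∀ a ∈ PR (U.f J), th D α (U.f J) a ≠ 0 := fun a ha =>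
    th_ne_zero D hα0 hfu hf0 (U.coprime_f hα J hαδ) ((isPR_PR hf0).1 a ha).2
  have h2 : ∀ g' : Gam k,
      (∏ a ∈ PR (U.f J), if sM U k a = g' then th D α (U.f J) a else 1) ≠ 0 := by
    intro g'
    rw [Finset.prod_ne_zero_iff]
    intro a ha
    split_ifs
    · exact h1 a ha
    · exact one_ne_zero
  unfold vv
  exact div_ne_zero (h2 _) (h2 _)

lemma vv_zc {k J : ℕ} (α : GaussianInt) (g : Gam k) :
    vv D U k J α (zc k * g) = (vv D U k J α g)⁻¹ := by
  unfold vv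
  rw [zc_inv_mul, inv_div]

lemma xv_pos {k J : ℕ} (g : Gam k) : 0 < xv D U k J g := Real.exp_pos _

lemma xv_zc {k J : ℕ} (g : Gam k) : xv D U k J (zc k * g) = (xv D U k J g)⁻¹ := by
  unfold xv
  rw [zc_inv_mul, ← Real.exp_neg]
  congr 1
  ring

end Pool.Agent.STg
end

section

/-!
# Sums over residue classes of Gaussian integers
-/

open NumberField IsDedekindDomain Pool.Agent.ST

namespace Pool.Agent.STg

variable (D : LemData) (U : UD)

/-- the primary Gaussian integers prime to `δ` -/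
abbrev PD (U : UD) : Type := {β : GaussianInt // Prim β ∧ IsCoprime β U.δ}

lemma finite_gN (n : ℕ) : {a : GaussianInt | gN a = n}.Finite := by
  have hinj : Function.Injective (fun a : GaussianInt => (a.re, a.im)) := by
    intro a b h
    have h' : a.re = b.re ∧ a.im = b.im := by simpa using h
    exact Zsqrtd.ext h'.1 h'.2
  refine Set.Finite.of_finite_image (f := fun a : GaussianInt => (a.re, a.im)) ?_ hinj.injOn
  refine ((Set.finite_Icc (-(n : ℤ)) n).prod (Set.finite_Icc (-(n : ℤ)) n)).subset ?_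
  rintro _ ⟨a, ha, rfl⟩
  have h := Q_gN a
  have ha' : gN a = n := ha
  rw [ha'] at h
  have hb : ∀ x y : ℤ, (n : ℤ) = x * x + y * y → -(n : ℤ) ≤ x ∧ x ≤ n := by
    intro x y hxy
    have h1 : x * x ≤ n := by nlinarith [mul_self_nonneg y]
    have h0 : (0 : ℤ) ≤ n := by positivity
    constructor
    · by_contra hc
      push Not at hc
      nlinarith
    · by_contra hc
      push Not at hc
      nlinarith
  exact ⟨⟨(hb _ _ h).1, (hb _ _ h).2⟩, ⟨(hb a.im a.re (by rw [h]; ring)).1,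
    (hb a.im a.re (by rw [h]; ring)).2⟩⟩

/-- `‖β‖ ^ (-2 w) = N(β) ^ (-w)` for `β ≠ 0` -/
lemma norm_cpow (β : GaussianInt) (hβ : β ≠ 0) (w : ℂ) :
    ((‖(β : ℂ)‖ : ℝ) : ℂ) ^ (-2 * w) = (gN β : ℂ) ^ (-w) := by
  have hpos : 0 < ‖(β : ℂ)‖ := by
    rw [norm_pos_iff]
    intro h
    exact hβ (GaussianInt.toComplex_eq_zero.1 h)
  have h1 : ((gN β : ℕ) : ℂ) = ((‖(β : ℂ)‖ ^ 2 : ℝ) : ℂ) := by
    rw [← gN_eq_sq β]
    simp
  rw [h1, Complex.cpow_def_of_ne_zero (by exact_mod_cast hpos.ne'),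
    Complex.cpow_def_of_ne_zero (by exact_mod_cast (pow_pos hpos 2).ne'),
    ← Complex.ofReal_log hpos.le, ← Complex.ofReal_log (pow_pos hpos 2).le, Real.log_pow]
  congr 1
  push_cast
  ring

/-- absolute convergence for `Re w > 1` -/
lemma summable_gN {w : ℂ} (hw : 1 < w.re) :
    Summable (fun β : PD U => (gN β.1 : ℂ) ^ (-w)) := by
  have hw' : 2 < 2 * w.re := by linarith
  have hs := EisensteinSeries.summable_one_div_norm_rpow hw'
  have hinj : Function.Injective (fun β : PD U => (![β.1.re, β.1.im] : Fin 2 → ℤ)) := by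
    intro a b h
    have h0 := congrFun h 0
    have h1 := congrFun h 1
    simp at h0 h1
    exact Subtype.ext (Zsqrtd.ext h0 h1)
  have hs' := hs.comp_injective hinj
  rw [← summable_norm_iff]
  refine Summable.of_nonneg_of_le (fun β => norm_nonneg _) (fun β => ?_) hs'
  have hβ0 : β.1 ≠ 0 := by
    intro h
    have h1 := β.2.1.odd
    rw [h] at h1
    simp [gOdd, gN] at h1
  have hN := gN_pos hβ0
  rw [Complex.norm_natCast_cpow_of_pos hN, Complex.neg_re]
  show ((gN β.1 : ℕ) : ℝ) ^ (-w.re) ≤ ‖(![β.1.re, β.1.im] : Fin 2 → ℤ)‖ ^ (-(2 * w.re))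
  have hle : ‖(![β.1.re, β.1.im] : Fin 2 → ℤ)‖ ^ 2 ≤ (gN β.1 : ℝ) := by
    have h2 : ((gN β.1 : ℕ) : ℝ) = (β.1.re : ℝ) * β.1.re + (β.1.im : ℝ) * β.1.im := by
      exact_mod_cast Q_gN β.1
    rw [h2]
    have h3 : ‖(![β.1.re, β.1.im] : Fin 2 → ℤ)‖ ≤
        Real.sqrt ((β.1.re : ℝ) * β.1.re + (β.1.im : ℝ) * β.1.im) := by
      rw [pi_norm_le_iff_of_nonneg (Real.sqrt_nonneg _)]
      intro i
      fin_cases i
      · refine Real.le_sqrt_of_sq_le ?_
        show ‖β.1.re‖ ^ 2 ≤ _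
        rw [Int.norm_eq_abs, sq_abs]
        nlinarith [mul_self_nonneg (β.1.im : ℝ)]
      · refine Real.le_sqrt_of_sq_le ?_
        show ‖β.1.im‖ ^ 2 ≤ _
        rw [Int.norm_eq_abs, sq_abs]
        nlinarith [mul_self_nonneg (β.1.re : ℝ)]
    calc ‖(![β.1.re, β.1.im] : Fin 2 → ℤ)‖ ^ 2 ≤
        Real.sqrt ((β.1.re : ℝ) * β.1.re + (β.1.im : ℝ) * β.1.im) ^ 2 :=
          pow_le_pow_left₀ (norm_nonneg _) h3 2
      _ = _ := Real.sq_sqrt (add_nonneg (mul_self_nonneg _) (mul_self_nonneg _))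
  have hpos : 0 < ‖(![β.1.re, β.1.im] : Fin 2 → ℤ)‖ := by
    rw [norm_pos_iff]
    intro h
    have h0 := congrFun h 0
    have h1 := congrFun h 1
    simp at h0 h1
    exact hβ0 (Zsqrtd.ext h0 h1)
  have h4 : ‖(![β.1.re, β.1.im] : Fin 2 → ℤ)‖ ^ (-(2 * w.re)) =
      (‖(![β.1.re, β.1.im] : Fin 2 → ℤ)‖ ^ 2) ^ (-w.re) := by
    rw [← Real.rpow_natCast, ← Real.rpow_mul hpos.le]
    congr 1
    push_cast
    ring
  rw [h4]
  exact Real.rpow_le_rpow_of_nonpos (by positivity) hle (by linarith)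

/-- One class: `N(a + f c) ^ (-w)` summed over `c ∈ ℤ[i]` is `‖f‖ ^ (-2 w) E(w)`, `E` as in `kron` for
`z = a / f`; the derivative at `0` is `E'(0) = c₀ - 2 ell (a / f)` since `E(0) = 0`. -/
lemma exists_G {f a : GaussianInt} (hf : ¬ IsUnit f) (hf0 : f ≠ 0) (ha : IsCoprime a f) :
    ∃ G : ℂ → ℂ, DifferentiableOn ℂ G {1}ᶜ ∧
      (∀ w : ℂ, 1 < w.re → HasSum (fun c : GaussianInt => (gN (a + f * c) : ℂ) ^ (-w)) (G w)) ∧
      deriv G 0 = ((D.c₀ - 2 * D.ell ((a : ℂ) / (f : ℂ)) : ℝ) : ℂ) := by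
  have hz : (a : ℂ) / (f : ℂ) ∉ Lam := div_notMem hf hf0 ha
  obtain ⟨E, hE, hsum, h0, hd⟩ := D.kron _ hz
  have hf' : (f : ℂ) ≠ 0 := fun h => hf0 (GaussianInt.toComplex_eq_zero.1 h)
  have hfpos : 0 < ‖(f : ℂ)‖ := norm_pos_iff.2 hf'
  have hfc : ((‖(f : ℂ)‖ : ℝ) : ℂ) ≠ 0 := by exact_mod_cast hfpos.ne'
  have hdp : Differentiable ℂ (fun w : ℂ => ((‖(f : ℂ)‖ : ℝ) : ℂ) ^ (-2 * w)) := by
    intro w
    exact (((differentiableAt_const (-2 : ℂ)).mul differentiableAt_id).const_cpow (Or.inl hfc))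
  refine ⟨fun w => ((‖(f : ℂ)‖ : ℝ) : ℂ) ^ (-2 * w) * E w, hdp.differentiableOn.mul hE, ?_, ?_⟩
  · intro w hw
    have h1 : (fun c : GaussianInt => (gN (a + f * c) : ℂ) ^ (-w)) = fun c : GaussianInt =>
        ((‖(f : ℂ)‖ : ℝ) : ℂ) ^ (-2 * w) *
          ((‖(a : ℂ) / (f : ℂ) + (c : ℂ)‖ : ℝ) : ℂ) ^ (-2 * w) := by
      funext c
      have hc0 : a + f * c ≠ 0 := by
        intro h
        have h2 : (a : ℂ) + (f : ℂ) * (c : ℂ) = 0 := by
          have h3 := congrArg GaussianInt.toComplex h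
          simpa using h3
        apply hz
        refine ⟨-c, ?_⟩
        show ((-c : GaussianInt) : ℂ) = (a : ℂ) / (f : ℂ)
        rw [GaussianInt.toComplex_neg, eq_div_iff hf']
        linear_combination -h2
      rw [← norm_cpow _ hc0 w, ← Complex.mul_cpow_ofReal_nonneg (norm_nonneg _) (norm_nonneg _),
        ← Complex.ofReal_mul, ← norm_mul]
      congr 3
      rw [GaussianInt.toComplex_add, GaussianInt.toComplex_mul]
      field_simp
    rw [h1]
    exact (hsum w hw).mul_left _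
  · have hE0 : DifferentiableAt ℂ E 0 :=
      (hE 0 (by simp)).differentiableAt (isOpen_compl_singleton.mem_nhds (by simp))
    have h1 := ((hdp 0).hasDerivAt.mul hE0.hasDerivAt).deriv
    simp only [h0, mul_zero, zero_add, Complex.cpow_zero, one_mul, hd] at h1
    exact h1

end Pool.Agent.STg
end

section

/-!
# The values of `X` at torsion points over `2`
-/

open Complex

namespace Pool.Agent.STg

variable (D : LemData) (V : ValuationSubring ℂ)

lemma E1_coe_oneI : (((⟨1, 1⟩ : GaussianInt)) : ℂ) = 1 + I := by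
  rw [GaussianInt.toComplex_def']
  push_cast
  ring

/-- odd Gaussian integers -/
lemma E1_even {a : GaussianInt} (ha : ¬ gOdd a) : ∃ b : GaussianInt, a = ⟨1, 1⟩ * b := by
  have h1 : Even (gN a) := Nat.not_odd_iff_even.1 ha
  have h2 : Even (a.re * a.re + a.im * a.im) := by
    unfold gN at h1
    rw [Int.natAbs_even, Zsqrtd.norm_def] at h1
    have e : a.re * a.re - -1 * a.im * a.im = a.re * a.re + a.im * a.im := by ring
    rw [e] at h1
    exact h1
  have h3 : Even (a.re + a.im) := by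
    rw [Int.even_add, Int.even_mul, Int.even_mul, or_self, or_self] at h2
    exact Int.even_add.2 h2
  obtain ⟨m, hm⟩ := h3
  refine ⟨⟨m, m - a.re⟩, ?_⟩
  ext
  · rw [Zsqrtd.re_mul]
    change a.re = 1 * m + -1 * 1 * (m - a.re)
    ring
  · rw [Zsqrtd.im_mul]
    change a.im = 1 * (m - a.re) + 1 * m
    linarith

lemma E1_induct {P : GaussianInt → Prop} (h1 : ∀ β, gOdd β → P β)
    (h2 : ∀ f, f ≠ 0 → P f → P (⟨1, 1⟩ * f)) {f : GaussianInt} (hf : f ≠ 0) : P f := by
  have key : ∀ n : ℕ, ∀ f : GaussianInt, f ≠ 0 → gN f ≤ n → P f := by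
    intro n
    induction n with
    | zero =>
      intro f hf hn
      exact absurd (gN_pos hf) (by omega)
    | succ n ih =>
      intro f hf hn
      by_cases hodd : gOdd f
      · exact h1 f hodd
      · obtain ⟨b, hb⟩ := E1_even hodd
        have hb0 : b ≠ 0 := by
          intro h
          apply hf
          rw [hb, h, mul_zero]
        have hN : gN f = 2 * gN b := by
          rw [hb, gN_mul]
          rfl
        have hp := gN_pos hb0
        rw [hb]
        exact h2 b hb0 (ih b hb0 (by omega))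
  exact key _ f hf le_rfl

lemma E1_val_nat (h2 : V.valuation (2 : ℂ) < 1) {n : ℕ} (hn : Odd n) :
    V.valuation (n : ℂ) = 1 := by
  obtain ⟨m, hm⟩ := hn
  have e : (n : ℂ) = 1 + 2 * ((m : GaussianInt) : ℂ) := by
    rw [hm, map_natCast]
    push_cast
    ring
  have h3 : V.valuation (2 * ((m : GaussianInt) : ℂ)) < 1 := by
    rw [map_mul]
    exact mul_lt_one_of_lt_of_le h2 (val_gauss V _)
  rw [e]
  exact Valuation.map_one_add_of_lt _ h3

lemma val_odd (h2 : V.valuation (2 : ℂ) < 1) {β : GaussianInt} (hβ : gOdd β) :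
    V.valuation (β : ℂ) = 1 := by
  refine le_antisymm (val_gauss V β) ?_
  by_contra hlt
  have hlt' : V.valuation (β : ℂ) < 1 := not_le.1 hlt
  have h1 : V.valuation ((gN β : ℕ) : ℂ) = 1 := E1_val_nat V h2 hβ
  have h3 : ((gN β : ℕ) : ℂ) = (β : ℂ) * ((star β : GaussianInt) : ℂ) := by
    rw [← map_mul, mul_star_eq, map_natCast]
  rw [h3, map_mul] at h1
  have h4 : V.valuation (β : ℂ) * V.valuation ((star β : GaussianInt) : ℂ) < 1 :=
    mul_lt_one_of_lt_of_le hlt' (val_gauss V _)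
  rw [h1] at h4
  exact lt_irrefl _ h4

lemma E1_oneI_notMem {w : ℂ} (hw' : (1 + I) * w ∉ Lam) : w ∉ Lam := by
  intro h
  apply hw'
  rw [← E1_coe_oneI]
  exact Lam_mul _ h

/-- If `v x ≠ 1`, `x = X w`, then `v (X ((1 + i) w)) > 1`, and if `v x > 1` then
`v (X ((1 + i) w)) > v x`: `2 i x X ((1 + i) w) = x ^ 2 - 1`. -/
lemma LemData.val_step (h2 : V.valuation (2 : ℂ) < 1) {w : ℂ} (hw' : (1 + I) * w ∉ Lam) :
    (1 < V.valuation (D.X w) → V.valuation (D.X w) < V.valuation (D.X ((1 + I) * w))) ∧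
      (V.valuation (D.X w) < 1 → 1 < V.valuation (D.X ((1 + I) * w))) := by
  have hw := E1_oneI_notMem hw'
  have h1 := congrArg V.valuation (D.X_oneI w hw hw')
  rw [map_mul, map_mul, map_mul, val_I, mul_one] at h1
  set y := V.valuation (D.X ((1 + I) * w)) with hy
  set x := V.valuation (D.X w) with hx
  set t := V.valuation (2 : ℂ) with ht
  constructor
  · intro hx1
    have h3 : V.valuation (D.X w ^ 2 - 1) = x ^ 2 := by
      have h4 : V.valuation (1 : ℂ) < V.valuation (D.X w ^ 2) := by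
        rw [map_one, map_pow, ← hx]
        exact one_lt_pow₀ hx1 two_ne_zero
      rw [Valuation.map_sub_eq_of_lt_left _ h4, map_pow]
    rw [h3] at h1
    have hx0 : 0 < x := lt_trans zero_lt_one hx1
    have h5 : y * t = x := by
      have h6 : (y * t) * x = x * x := by
        rw [mul_assoc, h1, pow_two]
      exact mul_right_cancel₀ hx0.ne' h6
    have hy0 : 0 < y := by
      rcases eq_or_ne y 0 with h7 | h7
      · rw [h7, zero_mul] at h5
        exact absurd h5 hx0.ne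
      · exact zero_lt_iff.2 h7
    calc x = y * t := h5.symm
      _ < y * 1 := (mul_lt_mul_iff_right₀ hy0).2 h2
      _ = y := mul_one y
  · intro hx1
    have h3 : V.valuation (D.X w ^ 2 - 1) = 1 := by
      have h4 : V.valuation (D.X w ^ 2) < V.valuation (1 : ℂ) := by
        rw [map_one, map_pow, ← hx]
        exact pow_lt_one₀ zero_le hx1 two_ne_zero
      rw [Valuation.map_sub_eq_of_lt_right _ h4, map_one]
    rw [h3] at h1
    by_contra hle
    have hle' : y ≤ 1 := not_lt.1 hle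
    have h5 : t * x < 1 := mul_lt_one_of_lt_of_le h2 hx1.le
    have h6 : (t * x) * y < 1 := mul_lt_one_of_lt_of_le h5 hle'
    rw [mul_comm, h1] at h6
    exact lt_irrefl _ h6

lemma E1_pow_coprime {β : GaussianInt} (hβ : gOdd β) (j : ℕ) :
    IsCoprime β ((⟨1, 1⟩ : GaussianInt) ^ j) := by
  apply IsCoprime.pow_right
  -- `β star β = N(β) = 2 m + 1`, `2 = (1 + i) (1 - i)`
  obtain ⟨m, hm⟩ := hβ
  refine ⟨star β, -((m : GaussianInt) * ⟨1, -1⟩), ?_⟩
  have h1 := mul_star_eq β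
  have h2 : (⟨1, -1⟩ : GaussianInt) * ⟨1, 1⟩ = 2 := by
    ext <;> rfl
  have h3 : star β * β + -((m : GaussianInt) * ⟨1, -1⟩) * ⟨1, 1⟩ =
      β * star β - (m : GaussianInt) * ((⟨1, -1⟩ : GaussianInt) * ⟨1, 1⟩) := by ring
  rw [h3, h1, h2, hm]
  push_cast
  ring

lemma E1_notMem {β c : GaussianInt} (h : IsCoprime β c) {w : ℂ} (hw : w ∉ Lam)
    (hβw : (β : ℂ) * w ∈ Lam) : (c : ℂ) * w ∉ Lam := by
  intro hc
  obtain ⟨a, b, hab⟩ := h
  apply hw
  have h1 : w = (a : ℂ) * ((β : ℂ) * w) + (b : ℂ) * ((c : ℂ) * w) := by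
    have h2 : ((a * β + b * c : GaussianInt) : ℂ) = 1 := by
      rw [hab]
      exact map_one GaussianInt.toComplex
    rw [map_add, map_mul, map_mul] at h2
    calc w = 1 * w := (one_mul w).symm
      _ = ((a : ℂ) * (β : ℂ) + (b : ℂ) * (c : ℂ)) * w := by rw [h2]
      _ = _ := by ring
  rw [h1]
  exact Lam_add (Lam_mul a hβw) (Lam_mul b hc)

/-- odd torsion points times powers of `1 + i` are not in the lattice -/
lemma E1_pow_notMem {β : GaussianInt} (hβ : gOdd β) {w : ℂ} (hw : w ∉ Lam)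
    (hβw : (β : ℂ) * w ∈ Lam) (j : ℕ) : (1 + I) ^ j * w ∉ Lam := by
  have h1 := E1_notMem (E1_pow_coprime hβ j) hw hβw
  rw [map_pow, E1_coe_oneI] at h1
  exact h1

lemma E1_pow_mem {β : GaussianInt} {w : ℂ} (hβw : (β : ℂ) * w ∈ Lam) (j : ℕ) :
    (β : ℂ) * ((1 + I) ^ j * w) ∈ Lam := by
  have h1 : (β : ℂ) * ((1 + I) ^ j * w) =
      (((⟨1, 1⟩ : GaussianInt) ^ j : GaussianInt) : ℂ) * ((β : ℂ) * w) := by
    rw [map_pow, E1_coe_oneI]
    ring
  rw [h1]
  exact Lam_mul _ hβw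

/-- **Odd torsion points**: `v (X w) = 1`. Choose `n ≥ 1` with `β ∣ (1 + i) ^ n - 1`, so
`X ((1 + i) ^ n w) = X w`; if `v (X w) ≠ 1` then `v (X ((1 + i) ^ j w))`, `j ≥ 1`, is strictly
increasing (`val_step`), a contradiction. -/
theorem LemData.val_one_odd (h2 : V.valuation (2 : ℂ) < 1) {β : GaussianInt} (hβ : gOdd β) {w : ℂ}
    (hw : w ∉ Lam) (hβw : (β : ℂ) * w ∈ Lam) : V.valuation (D.X w) = 1 := by
  by_contra hne
  have hstep : ∀ j : ℕ, (1 + I) * ((1 + I) ^ j * w) ∉ Lam := by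
    intro j
    have h1 := E1_pow_notMem hβ hw hβw (j + 1)
    rw [pow_succ', mul_assoc] at h1
    exact h1
  have h0 : 1 < V.valuation (D.X ((1 + I) * w)) := by
    have h1 := hstep 0
    rw [pow_zero, one_mul] at h1
    rcases lt_or_gt_of_ne hne with h3 | h3
    · exact (D.val_step V h2 h1).2 h3
    · exact lt_trans h3 ((D.val_step V h2 h1).1 h3)
  let s : ℕ → V.ValueGroup := fun j => V.valuation (D.X ((1 + I) ^ (j + 1) * w))
  have hs1 : ∀ j, 1 < s j ∧ s j < s (j + 1) := by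
    intro j
    induction j with
    | zero =>
      have h1 : 1 < s 0 := by
        change 1 < V.valuation (D.X ((1 + I) ^ (0 + 1) * w))
        rw [zero_add, pow_one]
        exact h0
      refine ⟨h1, ?_⟩
      have h3 := (D.val_step V h2 (hstep 1)).1 h1
      rw [← mul_assoc, ← pow_succ'] at h3
      exact h3
    | succ j ih =>
      have h1 : 1 < s (j + 1) := lt_trans ih.1 ih.2
      refine ⟨h1, ?_⟩
      have h3 := (D.val_step V h2 (hstep (j + 1 + 1))).1 h1
      rw [← mul_assoc, ← pow_succ'] at h3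
      exact h3
  have hmono : StrictMono s := strictMono_nat_of_lt_succ (fun j => (hs1 j).2)
  have hfin : (Set.range s).Finite := by
    refine Set.Finite.subset ((D.finite_T β hβ.ne_zero).image V.valuation) ?_
    rintro _ ⟨j, rfl⟩
    exact ⟨_, ⟨_, E1_pow_notMem hβ hw hβw (j + 1), E1_pow_mem hβw (j + 1), rfl⟩, rfl⟩
  exact Set.infinite_range_of_injective hmono.injective hfin

/-- `x ^ 2 - 2 i x' x - 1 = 0` with `v x' = 1`, `v 2 < 1` implies `v x = 1`. -/
lemma LemData.val_back (h2 : V.valuation (2 : ℂ) < 1) {w : ℂ} (hw : (1 + I) * w ∉ Lam)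
    (h : V.valuation (D.X ((1 + I) * w)) = 1) : V.valuation (D.X w) = 1 := by
  by_contra hne
  rcases lt_or_gt_of_ne hne with h3 | h3
  · exact absurd h ((D.val_step V h2 hw).2 h3).ne'
  · exact absurd h (lt_trans h3 ((D.val_step V h2 hw).1 h3)).ne'

/-- the values at `1 / 2`, `i / 2` -/
lemma LemData.val_two_torsion {w : ℂ} (hw : (1 + I) * w ∉ Lam) (h2w : 2 * w ∈ Lam) :
    V.valuation (D.X w) = 1 := by
  obtain ⟨a, ha⟩ := h2w
  change (a : ℂ) = 2 * w at ha
  have hodd : gOdd a := by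
    by_contra hev
    obtain ⟨b, hb⟩ := E1_even hev
    apply hw
    refine ⟨⟨0, 1⟩ * b, ?_⟩
    change ((⟨0, 1⟩ * b : GaussianInt) : ℂ) = (1 + I) * w
    rw [hb, map_mul, E1_coe_oneI] at ha
    rw [map_mul]
    have h3 : (((⟨0, 1⟩ : GaussianInt)) : ℂ) = I := by
      rw [GaussianInt.toComplex_def']
      push_cast
      ring
    rw [h3]
    have h4 : w = (1 + I) * (b : ℂ) / 2 := by
      rw [ha]
      ring
    rw [h4]
    have hI := I_mul_I
    linear_combination (-(b : ℂ) / 2) * hI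
  have hw2 : w = (a : ℂ) / 2 := by
    rw [ha]
    ring
  have h3 : Odd (a.re + a.im) := by
    unfold gOdd gN at hodd
    rw [Int.natAbs_odd, Zsqrtd.norm_def] at hodd
    have e : a.re * a.re - -1 * a.im * a.im = a.re * a.re + a.im * a.im := by ring
    rw [e, Int.odd_add, Int.odd_mul, Int.even_mul, or_self, and_self] at hodd
    exact Int.odd_add.2 hodd
  rcases Int.even_or_odd a.im with him | him
  · have hre : Odd a.re := (Int.odd_add.1 h3).2 him
    obtain ⟨x, hx⟩ := hre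
    obtain ⟨y, hy⟩ := him
    have e : w = 1 / 2 + (((⟨x, y⟩ : GaussianInt)) : ℂ) := by
      rw [hw2, GaussianInt.toComplex_def, GaussianInt.toComplex_def', hx, hy]
      push_cast
      ring
    rw [e, D.X_add, D.X_half, map_one]
  · have hre : Even a.re := by
      by_contra hre
      rw [Int.not_even_iff_odd] at hre
      exact (Int.not_even_iff_odd.2 him) ((Int.odd_add.1 h3).1 hre)
    obtain ⟨x, hx⟩ := hre
    obtain ⟨y, hy⟩ := him
    have e : w = I * (1 / 2) + (((⟨x, y⟩ : GaussianInt)) : ℂ) := by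
      rw [hw2, GaussianInt.toComplex_def, GaussianInt.toComplex_def', hx, hy]
      push_cast
      ring
    rw [e, D.X_add, D.X_I, D.X_half, Valuation.map_neg, map_one]

/-- **Torsion points with `2 w ∉ Lam`**: `v (X w) = 1`. `f = (1 + i) ^ b β`, `β` odd, induction
on `b`. `b = 0`: `val_one_odd`. Step: `w' = (1 + i) w`; `2 w ∉ Lam` gives `w' ∉ Lam` and
`(1 + i) w' ∉ Lam`; if `2 w' ∉ Lam` then `v (X w') = 1` by induction, otherwise by
`val_two_torsion`; then `val_back`. -/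
theorem LemData.val_one (h2 : V.valuation (2 : ℂ) < 1) {f : GaussianInt} (hf : f ≠ 0) {w : ℂ}
    (hfw : (f : ℂ) * w ∈ Lam) (hw : 2 * w ∉ Lam) : V.valuation (D.X w) = 1 := by
  have hI := I_mul_I
  refine E1_induct (P := fun f => ∀ w : ℂ, (f : ℂ) * w ∈ Lam → 2 * w ∉ Lam →
    V.valuation (D.X w) = 1) ?_ ?_ hf w hfw hw
  · intro β hβ w hβw hw
    refine D.val_one_odd V h2 hβ ?_ hβw
    intro h
    apply hw
    have := Lam_mul 2 h
    rw [map_ofNat] at this
    exact this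
  · intro f _ ih w hfw hw
    have h1 : (1 + I) * w ∉ Lam := by
      intro h
      apply hw
      have h3 := Lam_mul ⟨1, -1⟩ h
      have e : (((⟨1, -1⟩ : GaussianInt)) : ℂ) * ((1 + I) * w) = 2 * w := by
        rw [GaussianInt.toComplex_def']
        push_cast
        linear_combination (-w) * hI
      rw [e] at h3
      exact h3
    have h3 : (1 + I) * ((1 + I) * w) ∉ Lam := by
      intro h
      apply hw
      have h3 := Lam_mul ⟨0, -1⟩ h
      have e : (((⟨0, -1⟩ : GaussianInt)) : ℂ) * ((1 + I) * ((1 + I) * w)) = 2 * w := by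
        rw [GaussianInt.toComplex_def']
        push_cast
        linear_combination (-w * (2 + I)) * hI
      rw [e] at h3
      exact h3
    apply D.val_back V h2 h1
    by_cases h4 : 2 * ((1 + I) * w) ∈ Lam
    · exact D.val_two_torsion V h3 h4
    · refine ih _ ?_ h4
      rw [map_mul, E1_coe_oneI] at hfw
      have e : (f : ℂ) * ((1 + I) * w) = (1 + I) * (f : ℂ) * w := by ring
      rw [e]
      exact hfw

end Pool.Agent.STg
end

section

/-!
# Differences of values of `X` over `2`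
-/

open Complex

namespace Pool.Agent.STg

variable (D : LemData) (V : ValuationSubring ℂ)

lemma E2_coe_oneI : (((⟨1, 1⟩ : GaussianInt)) : ℂ) = 1 + I := by
  rw [GaussianInt.toComplex_def']
  push_cast
  ring

lemma E2_pow_coprime {β : GaussianInt} (hβ : gOdd β) (j : ℕ) :
    IsCoprime β ((⟨1, 1⟩ : GaussianInt) ^ j) := by
  apply IsCoprime.pow_right
  -- `β star β = N(β) = 2 m + 1`, `2 = (1 + i) (1 - i)`
  obtain ⟨m, hm⟩ := hβ
  refine ⟨star β, -((m : GaussianInt) * ⟨1, -1⟩), ?_⟩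
  have h1 := mul_star_eq β
  have h2 : (⟨1, -1⟩ : GaussianInt) * ⟨1, 1⟩ = 2 := by
    ext <;> rfl
  have h3 : star β * β + -((m : GaussianInt) * ⟨1, -1⟩) * ⟨1, 1⟩ =
      β * star β - (m : GaussianInt) * ((⟨1, -1⟩ : GaussianInt) * ⟨1, 1⟩) := by ring
  rw [h3, h1, h2, hm]
  push_cast
  ring

lemma E2_notMem {β c : GaussianInt} (h : IsCoprime β c) {w : ℂ} (hw : w ∉ Lam)
    (hβw : (β : ℂ) * w ∈ Lam) : (c : ℂ) * w ∉ Lam := by
  intro hc
  obtain ⟨a, b, hab⟩ := h
  apply hw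
  have h1 : w = (a : ℂ) * ((β : ℂ) * w) + (b : ℂ) * ((c : ℂ) * w) := by
    have h2 : ((a * β + b * c : GaussianInt) : ℂ) = 1 := by
      rw [hab]
      exact map_one GaussianInt.toComplex
    rw [map_add, map_mul, map_mul] at h2
    calc w = 1 * w := (one_mul w).symm
      _ = ((a : ℂ) * (β : ℂ) + (b : ℂ) * (c : ℂ)) * w := by rw [h2]
      _ = _ := by ring
  rw [h1]
  exact Lam_add (Lam_mul a hβw) (Lam_mul b hc)

/-- odd torsion points times powers of `1 + i` are not in the lattice -/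
lemma E2_pow_notMem {β : GaussianInt} (hβ : gOdd β) {w : ℂ} (hw : w ∉ Lam)
    (hβw : (β : ℂ) * w ∈ Lam) (j : ℕ) : (1 + I) ^ j * w ∉ Lam := by
  have h1 := E2_notMem (E2_pow_coprime hβ j) hw hβw
  rw [map_pow, E2_coe_oneI] at h1
  exact h1

lemma E2_pow_mem {β : GaussianInt} {w : ℂ} (hβw : (β : ℂ) * w ∈ Lam) (j : ℕ) :
    (β : ℂ) * ((1 + I) ^ j * w) ∈ Lam := by
  have h1 : (β : ℂ) * ((1 + I) ^ j * w) =
      (((⟨1, 1⟩ : GaussianInt) ^ j : GaussianInt) : ℂ) * ((β : ℂ) * w) := by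
    rw [map_pow, E2_coe_oneI]
    ring
  rw [h1]
  exact Lam_mul _ hβw

lemma E2_oneI_notMem {w : ℂ} (hw' : (1 + I) * w ∉ Lam) : w ∉ Lam := by
  intro h
  apply hw'
  rw [← E2_coe_oneI]
  exact Lam_mul _ h

/-- `x = X w`, `x' = X u`. `X_mul` gives `v (x - x') = v (1 + x x')`, and `X_oneI` gives
`X ((1 + i) w) - X ((1 + i) u) = (x - x') (1 + x x') / (2 i x x')`. -/
theorem LemData.val_sq {w u : ℂ} (hw : (1 + I) * w ∉ Lam) (hu : (1 + I) * u ∉ Lam)
    (hwu : w + u ∉ Lam) (hwu' : w - u ∉ Lam) (h1 : V.valuation (D.X w) = 1)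
    (h2 : V.valuation (D.X u) = 1) (h3 : V.valuation (D.X (w + u)) = 1)
    (h4 : V.valuation (D.X (w - u)) = 1) :
    V.valuation (D.X w - D.X u) ^ 2 =
      V.valuation (2 : ℂ) * V.valuation (D.X ((1 + I) * w) - D.X ((1 + I) * u)) := by
  have hw0 := E2_oneI_notMem hw
  have hu0 := E2_oneI_notMem hu
  have e1 := congrArg V.valuation (D.X_mul w u hw0 hu0 hwu hwu')
  rw [map_mul, map_mul, h3, h4, one_mul, one_mul, map_pow, map_pow] at e1
  have e2 : V.valuation (D.X w - D.X u) = V.valuation (1 + D.X w * D.X u) :=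
    (pow_left_inj₀ zero_le zero_le two_ne_zero).1 e1
  have e3 := D.X_oneI w hw0 hw
  have e4 := D.X_oneI u hu0 hu
  have e5 : 2 * (D.X ((1 + I) * w) - D.X ((1 + I) * u)) * (I * (D.X w * D.X u)) =
      (D.X w - D.X u) * (1 + D.X w * D.X u) := by
    linear_combination (D.X u) * e3 - (D.X w) * e4
  have e6 := congrArg V.valuation e5
  rw [map_mul, map_mul, map_mul, map_mul, map_mul, val_I, h1, h2, mul_one, mul_one, mul_one,
    ← e2] at e6
  rw [e6, pow_two]

lemma E2_ne (D : LemData) {w u : ℂ} (hw : w ∉ Lam) (hu : u ∉ Lam) (hwu : w + u ∉ Lam)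
    (hwu' : w - u ∉ Lam) : D.X w - D.X u ≠ 0 := by
  intro h
  rcases D.X_inj w u hw hu (sub_eq_zero.1 h) with h1 | h1
  · exact hwu' h1
  · exact hwu h1

lemma E2_rec {Γ : Type*} [LinearOrderedCommGroupWithZero Γ] {r : ℕ → Γ} (h0 : ∀ j, r j ≠ 0)
    (h : ∀ j, r j ^ 2 = r (j + 1)) (hf : (Set.range r).Finite) : r 0 = 1 := by
  by_contra hne
  rcases lt_or_gt_of_ne hne with h1 | h1
  · have hs : ∀ j, r j < 1 ∧ r (j + 1) < r j := by
      have hlt : ∀ j, r j < 1 → r (j + 1) < r j := by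
        intro j hj
        rw [← h j, pow_two]
        calc r j * r j < r j * 1 := (mul_lt_mul_iff_right₀ (zero_lt_iff.2 (h0 j))).2 hj
          _ = r j := mul_one _
      intro j
      induction j with
      | zero => exact ⟨h1, hlt 0 h1⟩
      | succ j ih =>
        have h3 : r (j + 1) < 1 := lt_trans ih.2 ih.1
        exact ⟨h3, hlt _ h3⟩
    have hanti : StrictAnti r := strictAnti_nat_of_succ_lt (fun j => (hs j).2)
    exact Set.infinite_range_of_injective hanti.injective hf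
  · have hs : ∀ j, 1 < r j ∧ r j < r (j + 1) := by
      have hlt : ∀ j, 1 < r j → r j < r (j + 1) := by
        intro j hj
        rw [← h j, pow_two]
        calc r j = r j * 1 := (mul_one _).symm
          _ < r j * r j := (mul_lt_mul_iff_right₀ (zero_lt_iff.2 (h0 j))).2 hj
      intro j
      induction j with
      | zero => exact ⟨h1, hlt 0 h1⟩
      | succ j ih =>
        have h3 : 1 < r (j + 1) := lt_trans ih.1 ih.2
        exact ⟨h3, hlt _ h3⟩
    have hmono : StrictMono r := strictMono_nat_of_lt_succ (fun j => (hs j).2)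
    exact Set.infinite_range_of_injective hmono.injective hf

lemma E2_torsion_add {β : GaussianInt} {w u : ℂ} (hβw : (β : ℂ) * w ∈ Lam)
    (hβu : (β : ℂ) * u ∈ Lam) : (β : ℂ) * (w + u) ∈ Lam := by
  rw [mul_add]
  exact Lam_add hβw hβu

lemma E2_torsion_sub {β : GaussianInt} {w u : ℂ} (hβw : (β : ℂ) * w ∈ Lam)
    (hβu : (β : ℂ) * u ∈ Lam) : (β : ℂ) * (w - u) ∈ Lam := by
  rw [mul_sub]
  exact Lam_sub hβw hβu

/-- **Odd torsion points**: `v (X w - X u) = v 2`. Let `β` kill `w` and `u`, `β ∣ (1 + i) ^ n - 1`,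
`n ≥ 1`, `d j = v (X ((1 + i) ^ j w) - X ((1 + i) ^ j u))`. Then `d j ^ 2 = v 2 d (j + 1)`
(`val_sq`, `val_one_odd`) and `d n = d 0 ≠ 0`. So `(d 0) ^ (2 ^ n) = (v 2) ^ (2 ^ n - 1) d 0`, and
`d 0 ^ (2 ^ n - 1) = (v 2) ^ (2 ^ n - 1)`, `d 0 = v 2` (linearly ordered). -/
theorem LemData.val_sub_odd (h2 : V.valuation (2 : ℂ) < 1) {β : GaussianInt} (hβ : gOdd β)
    {w u : ℂ} (hw : w ∉ Lam) (hu : u ∉ Lam) (hwu : w + u ∉ Lam) (hwu' : w - u ∉ Lam)
    (hβw : (β : ℂ) * w ∈ Lam) (hβu : (β : ℂ) * u ∈ Lam) :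
    V.valuation (D.X w - D.X u) = V.valuation (2 : ℂ) := by
  have ht0 : V.valuation (2 : ℂ) ≠ 0 := (Valuation.ne_zero_iff _).2 two_ne_zero
  have hadd := E2_torsion_add hβw hβu
  have hsub := E2_torsion_sub hβw hβu
  let r : ℕ → V.ValueGroup := fun j =>
    V.valuation (D.X ((1 + I) ^ j * w) - D.X ((1 + I) ^ j * u)) / V.valuation (2 : ℂ)
  have e1 : ∀ j : ℕ, (1 + I) ^ j * w + (1 + I) ^ j * u = (1 + I) ^ j * (w + u) :=
    fun j => (mul_add _ _ _).symm
  have e2 : ∀ j : ℕ, (1 + I) ^ j * w - (1 + I) ^ j * u = (1 + I) ^ j * (w - u) :=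
    fun j => (mul_sub _ _ _).symm
  have e3 : ∀ (j : ℕ) (x : ℂ), (1 + I) * ((1 + I) ^ j * x) = (1 + I) ^ (j + 1) * x := by
    intro j x
    rw [← mul_assoc, ← pow_succ']
  have h0 : ∀ j, r j ≠ 0 := by
    intro j
    refine div_ne_zero ((Valuation.ne_zero_iff _).2 ?_) ht0
    refine E2_ne D (E2_pow_notMem hβ hw hβw j) (E2_pow_notMem hβ hu hβu j) ?_ ?_
    · rw [e1]
      exact E2_pow_notMem hβ hwu hadd j
    · rw [e2]
      exact E2_pow_notMem hβ hwu' hsub j
  have h1 : ∀ j, r j ^ 2 = r (j + 1) := by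
    intro j
    have h3 := D.val_sq V (w := (1 + I) ^ j * w) (u := (1 + I) ^ j * u)
      (by rw [e3]; exact E2_pow_notMem hβ hw hβw _)
      (by rw [e3]; exact E2_pow_notMem hβ hu hβu _)
      (by rw [e1]; exact E2_pow_notMem hβ hwu hadd j)
      (by rw [e2]; exact E2_pow_notMem hβ hwu' hsub j)
      (D.val_one_odd V h2 hβ (E2_pow_notMem hβ hw hβw j) (E2_pow_mem hβw j))
      (D.val_one_odd V h2 hβ (E2_pow_notMem hβ hu hβu j) (E2_pow_mem hβu j))
      (by
        rw [e1]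
        exact D.val_one_odd V h2 hβ (E2_pow_notMem hβ hwu hadd j) (E2_pow_mem hadd j))
      (by
        rw [e2]
        exact D.val_one_odd V h2 hβ (E2_pow_notMem hβ hwu' hsub j) (E2_pow_mem hsub j))
    rw [e3, e3] at h3
    change (_ / _) ^ 2 = _ / _
    rw [div_pow, h3, pow_two, mul_div_mul_left _ _ ht0]
  have hfin : (Set.range r).Finite := by
    have hT := D.finite_T β hβ.ne_zero
    refine Set.Finite.subset ((hT.prod hT).image
      (fun p : ℂ × ℂ => V.valuation (p.1 - p.2) / V.valuation (2 : ℂ))) ?_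
    rintro _ ⟨j, rfl⟩
    exact ⟨(D.X ((1 + I) ^ j * w), D.X ((1 + I) ^ j * u)),
      ⟨⟨_, E2_pow_notMem hβ hw hβw j, E2_pow_mem hβw j, rfl⟩,
        ⟨_, E2_pow_notMem hβ hu hβu j, E2_pow_mem hβu j, rfl⟩⟩, rfl⟩
  have h3 := E2_rec h0 h1 hfin
  have h4 : V.valuation (D.X ((1 + I) ^ 0 * w) - D.X ((1 + I) ^ 0 * u)) / V.valuation (2 : ℂ) = 1 :=
    h3
  rw [pow_zero, one_mul, one_mul, div_eq_one_iff_eq ht0] at h4
  exact h4

lemma E2_w0_notMem {β : GaussianInt} (hβ : gOdd β) {z : ℂ} (hβz : (β : ℂ) * z ∈ Lam) :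
    z + (1 + I) / 2 ∉ Lam := by
  intro h
  apply w0_notMem hβ
  have h1 := Lam_sub (Lam_mul β h) hβz
  have e : (β : ℂ) * (z + (1 + I) / 2) - (β : ℂ) * z = (β : ℂ) * ((1 + I) / 2) := by ring
  rw [e] at h1
  exact h1

lemma E2_val_w0 (h2 : V.valuation (2 : ℂ) < 1) {β : GaussianInt} (hβ : gOdd β) {z : ℂ}
    (hz : z ∉ Lam) (hβz : (β : ℂ) * z ∈ Lam) : V.valuation (D.X (z + (1 + I) / 2)) = 1 := by
  have h1 := congrArg V.valuation (D.X_add_w0 z hz (E2_w0_notMem hβ hβz))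
  rw [map_mul, D.val_one_odd V h2 hβ hz hβz, mul_one, Valuation.map_neg, map_one] at h1
  exact h1

/-- **The point `w₀ + z`**, `w₀ = (1 + i) / 2`, `z` an odd torsion point. If `z ∉ Lam` then with
`w = w₀ + z`, `X w = -1 / X z` (`X_add_w0`) has valuation `1`,
`(1 + i) w = (1 + i) z` modulo `Lam` and `val_sq` (the points `w₀ + z + u`, `w₀ + z - u` have
`X = -1 / X (z + u)` etc.), `val_sub_odd` give `v (X w - X u) ^ 2 = (v 2) ^ 2`. If `z ∈ Lam` then
`X w = 0`. -/
theorem LemData.val_w0 (h2 : V.valuation (2 : ℂ) < 1) {β : GaussianInt} (hβ : gOdd β)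
    {z u : ℂ} (hu : u ∉ Lam) (hzu : z + u ∉ Lam) (hzu' : z - u ∉ Lam)
    (hβz : (β : ℂ) * z ∈ Lam) (hβu : (β : ℂ) * u ∈ Lam) :
    (z ∉ Lam → V.valuation (D.X ((1 + I) / 2 + z) - D.X u) = V.valuation (2 : ℂ)) ∧
      (z ∈ Lam → V.valuation (D.X ((1 + I) / 2 + z) - D.X u) = 1) := by
  have hI := I_mul_I
  constructor
  · intro hz
    have hadd := E2_torsion_add hβz hβu
    have hsub := E2_torsion_sub hβz hβu
    have ec : (1 + I) / 2 + z = z + (1 + I) / 2 := add_comm _ _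
    rw [ec]
    have ez : (1 + I) * (z + (1 + I) / 2) = (1 + I) * z + (((⟨0, 1⟩ : GaussianInt)) : ℂ) := by
      rw [GaussianInt.toComplex_def']
      push_cast
      linear_combination (1 / 2) * hI
    have hone : ∀ {x : ℂ}, x ∉ Lam → (β : ℂ) * x ∈ Lam → (1 + I) * x ∉ Lam := by
      intro x hx hβx
      have h3 := E2_pow_notMem hβ hx hβx 1
      rw [pow_one] at h3
      exact h3
    have hone' : ∀ {x : ℂ}, (β : ℂ) * x ∈ Lam → (β : ℂ) * ((1 + I) * x) ∈ Lam := by
      intro x hβx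
      have h3 := E2_pow_mem hβx 1
      rw [pow_one] at h3
      exact h3
    have h3 := D.val_sq V (w := z + (1 + I) / 2) (u := u)
      (by
        rw [ez]
        intro h
        apply hone hz hβz
        have h4 := Lam_sub h (⟨⟨0, 1⟩, rfl⟩ : (((⟨0, 1⟩ : GaussianInt)) : ℂ) ∈ Lam)
        rw [add_sub_cancel_right] at h4
        exact h4)
      (hone hu hβu)
      (by
        have e : z + (1 + I) / 2 + u = (z + u) + (1 + I) / 2 := by ring
        rw [e]
        exact E2_w0_notMem hβ hadd)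
      (by
        have e : z + (1 + I) / 2 - u = (z - u) + (1 + I) / 2 := by ring
        rw [e]
        exact E2_w0_notMem hβ hsub)
      (E2_val_w0 D V h2 hβ hz hβz)
      (D.val_one_odd V h2 hβ hu hβu)
      (by
        have e : z + (1 + I) / 2 + u = (z + u) + (1 + I) / 2 := by ring
        rw [e]
        exact E2_val_w0 D V h2 hβ hzu hadd)
      (by
        have e : z + (1 + I) / 2 - u = (z - u) + (1 + I) / 2 := by ring
        rw [e]
        exact E2_val_w0 D V h2 hβ hzu' hsub)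
    rw [ez, D.X_add] at h3
    have h4 := D.val_sub_odd V h2 hβ (hone hz hβz) (hone hu hβu)
      (by
        rw [← mul_add]
        exact hone hzu hadd)
      (by
        rw [← mul_sub]
        exact hone hzu' hsub)
      (hone' hβz) (hone' hβu)
    rw [h4, ← pow_two] at h3
    exact (pow_left_inj₀ zero_le zero_le two_ne_zero).1 h3
  · rintro ⟨a, rfl⟩
    have h3 : D.X ((1 + I) / 2 + (a : ℂ)) = 0 := by
      rw [D.X_add, D.X_w0]
    change V.valuation (D.X ((1 + I) / 2 + (a : ℂ)) - D.X u) = 1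
    rw [h3, zero_sub, Valuation.map_neg]
    exact D.val_one_odd V h2 hβ hu hβu

end Pool.Agent.STg
end
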