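import Pool.Agent.Lib.MP_1ef7cf_nt_g.Mg.G029
import Pool.Agent.Lib.MP_1ef7cf_nt_g.Mg.G042
import Pool.Agent.Lib.MP_1ef7cf_nt_g.Mg.G030
import Pool.Agent.Lib.MP_1ef7cf_nt_h.Defs

section

/-!
# Translation formulas
-/

open Complex

namespace Pool.Agent.STg

section U

variable (U : UD)

lemma Q3_aux {k J : ℕ} {β : GaussianInt} (hβ : Prim β) (hβδ : IsCoprime β U.δ) (g : Gam k)
    {a : GaussianInt} (ha : a ∈ PR (U.f J)) :
    sM U k (β * a) = sM U k β * g ↔ sM U k a = g := by
  have h1 := (isPR_PR (U.f_ne_zero J)).1 a ha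
  rw [sM_mul U hβ h1.1 hβδ (U.coprime_δ h1.2)]
  exact mul_right_inj _

open Classical in
/-- **Translation formula**: the sum of `F` over the classes with coordinates `sM β * g` is the sum
of `F (β a)` over the classes with coordinates `g`. -/
lemma sum_translate {A : Type*} [AddCommMonoid A] {k J : ℕ} (hJ : k + 4 ≤ J) {β : GaussianInt}
    (hβ : Prim β) (hβδ : IsCoprime β U.δ) (F : GaussianInt → A)
    (hF : ∀ a b, Prim a → IsCoprime a (U.f J) → U.f J ∣ a - b → F a = F b) (g : Gam k) :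
    ∑ a ∈ PR (U.f J), (if sM U k a = sM U k β * g then F a else 0) =
      ∑ a ∈ PR (U.f J), (if sM U k a = g then F (β * a) else 0) := by
  have h1 := sum_PR_mul (U.f_ne_zero J) (U.cube_dvd (J := J) (by omega)) hβ
    (U.coprime_f hβ J hβδ) (fun a => if sM U k a = sM U k β * g then F a else 0)
    (fun a b ha haf h => by
      rw [sM_per U hJ ha (U.coprime_δ haf) h, hF a b ha haf h])
  rw [← h1]
  refine Finset.sum_congr rfl (fun a ha => ?_)
  simp only [Q3_aux U hβ hβδ g ha]

open Classical in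
lemma prod_translate {A : Type*} [CommMonoid A] {k J : ℕ} (hJ : k + 4 ≤ J) {β : GaussianInt}
    (hβ : Prim β) (hβδ : IsCoprime β U.δ) (F : GaussianInt → A)
    (hF : ∀ a b, Prim a → IsCoprime a (U.f J) → U.f J ∣ a - b → F a = F b) (g : Gam k) :
    ∏ a ∈ PR (U.f J), (if sM U k a = sM U k β * g then F a else 1) =
      ∏ a ∈ PR (U.f J), (if sM U k a = g then F (β * a) else 1) := by
  have h1 := prod_PR_mul (U.f_ne_zero J) (U.cube_dvd (J := J) (by omega)) hβ
    (U.coprime_f hβ J hβδ) (fun a => if sM U k a = sM U k β * g then F a else 1)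
    (fun a b ha haf h => by
      rw [sM_per U hJ ha (U.coprime_δ haf) h, hF a b ha haf h])
  rw [← h1]
  refine Finset.prod_congr rfl (fun a ha => ?_)
  simp only [Q3_aux U hβ hβδ g ha]

open Classical in
/-- the number of classes with coordinates `sM β * g` is the number of classes with coordinates
`g` -/
lemma card_translate {k J : ℕ} (hJ : k + 4 ≤ J) {β : GaussianInt}
    (hβ : Prim β) (hβδ : IsCoprime β U.δ) (g : Gam k) :
    ((PR (U.f J)).filter (fun a => sM U k a = sM U k β * g)).card =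
      ((PR (U.f J)).filter (fun a => sM U k a = g)).card := by
  have h1 := sum_translate U hJ hβ hβδ (fun _ => (1 : ℕ)) (fun _ _ _ _ _ => rfl) g
  rw [Finset.card_filter, Finset.card_filter]
  exact h1

end U

end Pool.Agent.STg
end

section

/-!
# The elliptic units: absolute values
-/

open Complex

namespace Pool.Agent.STg

variable (D : LemData) (U : UD)

open Classical in
lemma V1_aux {k J : ℕ} (hJ : k + 4 ≤ J) {α : GaussianInt} (hα : Prim α)
    (hαδ : IsCoprime α U.δ) {C : ℝ} (hC : ∀ z : ℂ, (α : ℂ) * z ∉ Lam →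
    Real.log ‖∏ t ∈ TFin D.X α, (D.X z - t)‖ = D.ell (α * z) - gN α * D.ell z + C) (g : Gam k) :
    Real.log ‖∏ a ∈ PR (U.f J), (if sM U k a = g then th D α (U.f J) a else 1)‖ =
      SS D U k J (sM U k α * g) - gN α * SS D U k J g +
        C * ((PR (U.f J)).filter (fun a => sM U k a = g)).card := by
  have hf0 := U.f_ne_zero J
  have hfu := U.f_not_unit (J := J) (by omega)
  have hα0 : α ≠ 0 := hα.odd.ne_zero
  have hαf := U.coprime_f hα J hαδ
  have hmem : ∀ a ∈ PR (U.f J), IsCoprime a (U.f J) := fun a ha => ((isPR_PR hf0).1 a ha).2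
  rw [norm_prod, Real.log_prod (fun a ha => ?_)]
  · have h1 : ∀ a ∈ PR (U.f J), Real.log ‖(if sM U k a = g then th D α (U.f J) a else 1 : ℂ)‖ =
        (if sM U k a = g then D.ell (((α * a : GaussianInt) : ℂ) / (U.f J : ℂ)) else 0) -
        gN α * (if sM U k a = g then D.ell ((a : ℂ) / (U.f J : ℂ)) else 0) +
        C * (if sM U k a = g then 1 else 0) := by
      intro a ha
      split_ifs with h
      · have h2 := hC ((a : ℂ) / (U.f J : ℂ)) (by
          have h3 := div_notMem hfu hf0 (IsCoprime.mul_left hαf (hmem a ha))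
          rw [GaussianInt.toComplex_mul, mul_div_assoc] at h3
          exact h3)
        rw [GaussianInt.toComplex_mul, mul_div_assoc]
        unfold th
        rw [h2]
        ring
      · simp
    rw [Finset.sum_congr rfl h1, Finset.sum_add_distrib, Finset.sum_sub_distrib,
      ← Finset.mul_sum, ← Finset.mul_sum]
    have h4 := sum_translate U hJ hα hαδ (fun a => D.ell ((a : ℂ) / (U.f J : ℂ)))
      (fun a b _ haf h => ell_per D hfu hf0 haf h) g
    unfold SS
    rw [h4]
    congr 2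
    rw [Finset.card_filter]
    push_cast
    rfl
  · rw [norm_ne_zero_iff]
    split_ifs
    · exact th_ne_zero D hα0 hfu hf0 hαf (hmem a ha)
    · exact one_ne_zero

/-- `log ‖th(a)‖ = ell (α a / f) - N(α) ell (a / f) + C` (`theta`), `C` independent of `a`; sum over
the classes with coordinates `g` and `zc g`; their numbers are equal (`card_translate` with `β` such
that `sM β = zc`, hypothesis `hz`), so `C` cancels; `sum_translate` for the terms
`ell (α a / f)`. So `log ‖vv g‖ = SS (sM α g) - N(α) SS g - SS (zc sM α g) + N(α) SS (zc g)`. -/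
theorem log_vv {k J : ℕ} (hJ : k + 4 ≤ J) {α : GaussianInt} (hα : Prim α) (hαδ : IsCoprime α U.δ)
    (hz : ∃ β : GaussianInt, Prim β ∧ IsCoprime β U.δ ∧ sM U k β = zc k) (g : Gam k) :
    2 * Real.log ‖vv D U k J α g‖ = Real.log (xv D U k J (sM U k α * g)) -
      gN α * Real.log (xv D U k J g) := by
  classical
  obtain ⟨C, hC⟩ := D.theta α hα.odd
  obtain ⟨β, hβ, hβδ, hβz⟩ := hz
  have h1 := V1_aux D U hJ hα hαδ hC g
  have h2 := V1_aux D U hJ hα hαδ hC (zc k * g)
  have hcard := card_translate U hJ hβ hβδ g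
  rw [hβz] at hcard
  have hne := vv_ne_zero D U (k := k) (J := J) (by omega) hα hαδ g
  have hne' : (∏ a ∈ PR (U.f J), (if sM U k a = g then th D α (U.f J) a else 1)) ≠ 0 ∧
      (∏ a ∈ PR (U.f J), (if sM U k a = zc k * g then th D α (U.f J) a else 1)) ≠ 0 := by
    constructor
    · intro h
      apply hne
      unfold vv
      rw [h, zero_div]
    · intro h
      apply hne
      unfold vv
      rw [h, div_zero]
  have h3 : Real.log ‖vv D U k J α g‖ =
      Real.log ‖∏ a ∈ PR (U.f J), (if sM U k a = g then th D α (U.f J) a else 1)‖ -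
      Real.log ‖∏ a ∈ PR (U.f J), (if sM U k a = zc k * g then th D α (U.f J) a else 1)‖ := by
    unfold vv
    rw [norm_div, Real.log_div (norm_ne_zero_iff.mpr hne'.1) (norm_ne_zero_iff.mpr hne'.2)]
  rw [h3, h1, h2, hcard]
  have hcomm : zc k * (sM U k α * g) = sM U k α * (zc k * g) := mul_left_comm _ _ _
  unfold xv
  rw [Real.log_exp, Real.log_exp, hcomm]
  ring

/-- `xv (sM α g) = xv g ^ N(α) ‖vv g‖ ^ 2` -/
theorem xv_vv {k J : ℕ} (hJ : k + 4 ≤ J) {α : GaussianInt} (hα : Prim α) (hαδ : IsCoprime α U.δ)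
    (hz : ∃ β : GaussianInt, Prim β ∧ IsCoprime β U.δ ∧ sM U k β = zc k) (g : Gam k) :
    xv D U k J (sM U k α * g) = xv D U k J g ^ gN α * ‖vv D U k J α g‖ ^ 2 := by
  have h1 := log_vv D U hJ hα hαδ hz g
  have hx := xv_pos D U (k := k) (J := J) g
  have hx' := xv_pos D U (k := k) (J := J) (sM U k α * g)
  have hv : 0 < ‖vv D U k J α g‖ :=
    norm_pos_iff.mpr (vv_ne_zero D U (k := k) (J := J) (by omega) hα hαδ g)
  rw [← Real.exp_log hx', ← Real.exp_log (mul_pos (pow_pos hx (gN α)) (pow_pos hv 2))]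
  congr 1
  rw [Real.log_mul (pow_pos hx _).ne' (pow_pos hv 2).ne', Real.log_pow, Real.log_pow]
  push_cast
  linarith

end Pool.Agent.STg
end

section

/-!
# Operations on Galois functions
-/

open Complex

namespace Pool.Agent.STh

open Pool.Agent.STg

/-! Adapt `MP_1ef7cf_nt_g/U1a.lean`. -/

variable {U : UD} {k : ℕ}

lemma isGF_one : IsGF U k (fun _ => 1) := by
  refine ⟨fun _ => one_pos, fun _ => one_mem _, ?_, ?_⟩
  · intro φ s n _ _ _ _ g
    rw [ap_one, ofReal_one]
  · intro φ _ g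
    rw [ap_one, norm_one]

lemma IsGF.mul {y y' : Gam (U.M k) → ℝ} (h : IsGF U k y) (h' : IsGF U k y') :
    IsGF U k (fun g => y g * y' g) := by
  refine ⟨fun g => mul_pos (h.pos g) (h'.pos g), fun g => mul_mem (h.mem g) (h'.mem g), ?_, ?_⟩
  · intro φ s n hn h1 h2 h3 g
    rw [ap_mul φ (h.mem g) (h'.mem g), h.gal φ s n hn h1 h2 h3 g, h'.gal φ s n hn h1 h2 h3 g, ofReal_mul]
  · intro φ h1 g
    rw [ap_mul φ (h.mem g) (h'.mem g), norm_mul, h.abs φ h1 g, h'.abs φ h1 g, one_mul]

lemma IsGF.inv {y : Gam (U.M k) → ℝ} (h : IsGF U k y) : IsGF U k (fun g => (y g)⁻¹) := by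
  refine ⟨fun g => inv_pos.mpr (h.pos g), fun g => inv_mem (h.mem g), ?_, ?_⟩
  · intro φ s n hn h1 h2 h3 g
    rw [ap_inv φ (h.mem g), h.gal φ s n hn h1 h2 h3 g, ofReal_inv]
  · intro φ h1 g
    rw [ap_inv φ (h.mem g), norm_inv, h.abs φ h1 g, inv_one]

lemma IsGF.pow {y : Gam (U.M k) → ℝ} (h : IsGF U k y) (n : ℕ) : IsGF U k (fun g => y g ^ n) := by
  refine ⟨fun g => pow_pos (h.pos g) n, fun g => pow_mem (h.mem g) n, ?_, ?_⟩
  · intro φ s m hm h1 h2 h3 g
    rw [ap_pow φ (h.mem g), h.gal φ s m hm h1 h2 h3 g, ofReal_pow]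
  · intro φ h1 g
    rw [ap_pow φ (h.mem g), norm_pow, h.abs φ h1 g, one_pow]

lemma IsGF.zpow {y : Gam (U.M k) → ℝ} (h : IsGF U k y) (n : ℤ) : IsGF U k (fun g => y g ^ n) := by
  cases n with
  | ofNat m =>
    have h1 : (fun g => y g ^ (Int.ofNat m)) = fun g => y g ^ m := by
      funext g
      exact zpow_natCast (y g) m
    rw [h1]
    exact h.pow m
  | negSucc m =>
    have h1 : (fun g => y g ^ (Int.negSucc m)) = fun g => (y g ^ (m + 1))⁻¹ := by
      funext g
      exact zpow_negSucc (y g) m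
    rw [h1]
    exact (h.pow (m + 1)).inv

lemma IsGF.translate {y : Gam (U.M k) → ℝ} (h : IsGF U k y) (γ : Gam (U.M k)) :
    IsGF U k (fun g => y (γ * g)) := by
  refine ⟨fun g => h.pos _, fun g => h.mem _, ?_, ?_⟩
  · intro φ s n hn h1 h2 h3 g
    rw [h.gal φ s n hn h1 h2 h3 (γ * g), mul_left_comm]
  · intro φ h1 g
    exact h.abs φ h1 _

end Pool.Agent.STh
end
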