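import Pool.Agent.Lib.MP_1ef7cf_nt_g.S1a

section

/-!
# Weighted numbers of ideals with given norm: a recursion
-/

open NumberField IsDedekindDomain

namespace Pool.Agent.STg

variable {F : Type*} [Field F] [NumberField F]

lemma S1_pow {χ : Ideal (𝓞 F) → ℤ} (hχ : CM χ) {P : Ideal (𝓞 F)} (hP : P ≠ ⊥) (k : ℕ) :
    χ (P ^ k) = χ P ^ k := by
  induction k with
  | zero => simpa [Ideal.one_eq_top] using hχ.one
  | succ k ih => rw [pow_succ, hχ.mul _ _ (pow_ne_zero k hP) hP, ih, pow_succ]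

lemma S1_fin {I : Ideal (𝓞 F)} (hI : I ≠ ⊥) :
    {x : HeightOneSpectrum (𝓞 F) × ℕ | 1 ≤ x.2 ∧ x.1.asIdeal ^ x.2 ∣ I}.Finite := by
  have h0 : Ideal.absNorm I ≠ 0 := by rwa [Ne, Ideal.absNorm_eq_zero_iff]
  have h1 : (⋃ m ∈ (Ideal.absNorm I).divisors,
      {x : HeightOneSpectrum (𝓞 F) × ℕ | 1 ≤ x.2 ∧ Ideal.absNorm x.1.asIdeal ^ x.2 = m}).Finite := by
    refine Set.Finite.biUnion (Finset.finite_toSet _) ?_
    intro m hm
    have hm' : m ∈ (Ideal.absNorm I).divisors := hm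
    exact finite_pairs (Nat.pos_of_mem_divisors hm').ne'
  refine h1.subset ?_
  rintro ⟨P, k⟩ ⟨hk, h⟩
  simp only [Set.mem_iUnion]
  refine ⟨Ideal.absNorm P.asIdeal ^ k, ?_, hk, rfl⟩
  rw [Nat.mem_divisors]
  refine ⟨?_, h0⟩
  rw [← map_pow]
  exact map_dvd Ideal.absNorm h

/-- **Recursion.** `cS n log n` is the sum over `I` with `N(I) = n` of `χ(I) log N(I)`; insert
`log_norm` and exchange the sums: the pairs `(I, (P, k))` with `P ^ k ∣ I`, `N(I) = n` correspond to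
the pairs `((P, k), J)` with `N(P) ^ k N(J) = n` by `I = P ^ k J`, and
`χ(I) = χ(P) ^ k χ(J)`. Finally sort by `m = N(P) ^ k`. -/
theorem recursion {χ : Ideal (𝓞 F) → ℤ} (hχ : CM χ) {n : ℕ} (hn : n ≠ 0) :
    (cS χ n : ℝ) * Real.log n = ∑ m ∈ n.divisors, bS χ m * (cS χ (n / m) : ℝ) := by
  classical
  have hA : ∀ m : ℕ, ∃ s : Finset (Ideal (𝓞 F)), m ≠ 0 → ∀ I, I ∈ s ↔ Ideal.absNorm I = m := by
    intro m
    by_cases hm : m = 0
    · exact ⟨∅, fun h => absurd hm h⟩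
    · exact ⟨(finite_norm (F := F) hm).toFinset, fun _ I => by
        rw [Set.Finite.mem_toFinset]; rfl⟩
  choose A hA using hA
  have hB : ∀ m : ℕ, ∃ s : Finset (HeightOneSpectrum (𝓞 F) × ℕ), m ≠ 0 →
      ∀ x, x ∈ s ↔ (1 ≤ x.2 ∧ Ideal.absNorm x.1.asIdeal ^ x.2 = m) := by
    intro m
    by_cases hm : m = 0
    · exact ⟨∅, fun h => absurd hm h⟩
    · exact ⟨(finite_pairs (F := F) hm).toFinset, fun _ x => by
        rw [Set.Finite.mem_toFinset]; rfl⟩
  choose B hB using hB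
  have hT : ∀ I : Ideal (𝓞 F), ∃ s : Finset (HeightOneSpectrum (𝓞 F) × ℕ), I ≠ ⊥ →
      ∀ x, x ∈ s ↔ (1 ≤ x.2 ∧ x.1.asIdeal ^ x.2 ∣ I) := by
    intro I
    by_cases hI : I = ⊥
    · exact ⟨∅, fun h => absurd hI h⟩
    · exact ⟨(S1_fin hI).toFinset, fun _ x => by
        rw [Set.Finite.mem_toFinset]; rfl⟩
  choose T hT using hT
  have hc : ∀ m : ℕ, m ≠ 0 → cS χ m = ∑ I ∈ A m, χ I := by
    intro m hm
    unfold cS
    have : {I : Ideal (𝓞 F) | Ideal.absNorm I = m} = ↑(A m) := by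
      ext I
      rw [Finset.mem_coe, hA m hm I]; rfl
    rw [this, finsum_mem_coe_finset]
  have hb : ∀ m : ℕ, m ≠ 0 → bS χ m = ∑ x ∈ B m,
      (χ x.1.asIdeal : ℝ) ^ x.2 * Real.log (Ideal.absNorm x.1.asIdeal) := by
    intro m hm
    unfold bS
    have : {x : HeightOneSpectrum (𝓞 F) × ℕ | 1 ≤ x.2 ∧ Ideal.absNorm x.1.asIdeal ^ x.2 = m}
        = ↑(B m) := by
      ext x
      rw [Finset.mem_coe, hB m hm x]; rfl
    rw [this, finsum_mem_coe_finset]
  have hl : ∀ I : Ideal (𝓞 F), I ≠ ⊥ → Real.log (Ideal.absNorm I) =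
      ∑ x ∈ T I, Real.log (Ideal.absNorm x.1.asIdeal) := by
    intro I hI
    rw [log_norm hI]
    have : {x : HeightOneSpectrum (𝓞 F) × ℕ | 1 ≤ x.2 ∧ x.1.asIdeal ^ x.2 ∣ I} = ↑(T I) := by
      ext x
      rw [Finset.mem_coe, hT I hI x]; rfl
    rw [this, finsum_mem_coe_finset]
  have hne : ∀ I ∈ A n, I ≠ ⊥ := by
    intro I hI h
    rw [hA n hn, h, Ideal.absNorm_bot] at hI
    exact hn hI.symm
  have hL : (cS χ n : ℝ) * Real.log n = ∑ y ∈ (A n).sigma T,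
      (χ y.1 : ℝ) * Real.log (Ideal.absNorm y.2.1.asIdeal) := by
    rw [hc n hn, Finset.sum_sigma, Int.cast_sum, Finset.sum_mul]
    refine Finset.sum_congr rfl ?_
    intro I hI
    have h1 : (χ I : ℝ) * Real.log n = ∑ x ∈ T I, (χ I : ℝ) * Real.log (Ideal.absNorm x.1.asIdeal) := by
      rw [← Finset.mul_sum, ← hl I (hne I hI), (hA n hn I).1 hI]
    exact h1
  have hR : ∑ m ∈ n.divisors, bS χ m * (cS χ (n / m) : ℝ) =
      ∑ z ∈ n.divisors.sigma (fun m => B m ×ˢ A (n / m)),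
        ((χ z.2.1.1.asIdeal : ℝ) ^ z.2.1.2 * Real.log (Ideal.absNorm z.2.1.1.asIdeal)) *
          (χ z.2.2 : ℝ) := by
    rw [Finset.sum_sigma]
    refine Finset.sum_congr rfl ?_
    intro m hm
    have hm0 : m ≠ 0 := (Nat.pos_of_mem_divisors hm).ne'
    have hm1 : n / m ≠ 0 := by
      have := Nat.div_pos (Nat.divisor_le hm) (Nat.pos_of_ne_zero hm0)
      omega
    rw [hb m hm0, hc _ hm1, Int.cast_sum, Finset.sum_mul_sum, Finset.sum_product]
  rw [hL, hR]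
  symm
  refine Finset.sum_bij (fun z _ => ⟨z.2.1.1.asIdeal ^ z.2.1.2 * z.2.2, z.2.1⟩) ?_ ?_ ?_ ?_
  · rintro ⟨m, ⟨⟨P, k⟩, J⟩⟩ hz
    rw [Finset.mem_sigma, Finset.mem_product] at hz
    obtain ⟨hm, hx, hJ⟩ := hz
    simp only at hm hx hJ
    have hm0 : m ≠ 0 := (Nat.pos_of_mem_divisors hm).ne'
    have hm1 : n / m ≠ 0 := by
      have := Nat.div_pos (Nat.divisor_le hm) (Nat.pos_of_ne_zero hm0)
      omega
    rw [hB m hm0] at hx
    rw [hA _ hm1] at hJ
    obtain ⟨hk, hx⟩ := hx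
    simp only at hk hx
    have hI : Ideal.absNorm (P.asIdeal ^ k * J) = n := by
      rw [map_mul, map_pow, hx, hJ, Nat.mul_div_cancel' (Nat.dvd_of_mem_divisors hm)]
    have hI0 : P.asIdeal ^ k * J ≠ ⊥ := by
      intro h
      rw [h, Ideal.absNorm_bot] at hI
      exact hn hI.symm
    rw [Finset.mem_sigma]
    refine ⟨(hA n hn _).2 hI, ?_⟩
    simp only
    rw [hT _ hI0]
    exact ⟨hk, dvd_mul_right _ _⟩
  · rintro ⟨m, ⟨⟨P, k⟩, J⟩⟩ hz ⟨m', ⟨⟨P', k'⟩, J'⟩⟩ hz' h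
    rw [Finset.mem_sigma, Finset.mem_product] at hz hz'
    obtain ⟨hm, hx, hJ⟩ := hz
    obtain ⟨hm', hx', hJ'⟩ := hz'
    simp only at hm hx hJ hm' hx' hJ'
    have hm0 : m ≠ 0 := (Nat.pos_of_mem_divisors hm).ne'
    have hm0' : m' ≠ 0 := (Nat.pos_of_mem_divisors hm').ne'
    rw [hB m hm0] at hx
    rw [hB m' hm0'] at hx'
    simp only [Sigma.mk.injEq, heq_eq_eq, Prod.mk.injEq] at h
    obtain ⟨h1, rfl, rfl⟩ := h
    have hmm : m = m' := by rw [← hx.2, ← hx'.2]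
    subst hmm
    have h2 : J = J' := by
      exact mul_left_cancel₀ (pow_ne_zero _ P.ne_bot) h1
    subst h2
    rfl
  · rintro ⟨I, ⟨P, k⟩⟩ hy
    rw [Finset.mem_sigma] at hy
    obtain ⟨hI, hx⟩ := hy
    simp only at hI hx
    have hI0 := hne I hI
    rw [hT I hI0] at hx
    obtain ⟨hk, ⟨J, hJ⟩⟩ := hx
    simp only at hk hJ
    subst hJ
    have hN := (hA n hn _).1 hI
    rw [map_mul, map_pow] at hN
    have hm0 : Ideal.absNorm P.asIdeal ^ k ≠ 0 := by
      intro h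
      rw [h, zero_mul] at hN
      exact hn hN.symm
    have hdiv : n / Ideal.absNorm P.asIdeal ^ k = Ideal.absNorm J := by
      rw [← hN, Nat.mul_div_cancel_left _ (Nat.pos_of_ne_zero hm0)]
    have hJ0 : Ideal.absNorm J ≠ 0 := by
      intro h
      rw [h, mul_zero] at hN
      exact hn hN.symm
    refine ⟨⟨Ideal.absNorm P.asIdeal ^ k, ⟨⟨P, k⟩, J⟩⟩, ?_, rfl⟩
    rw [Finset.mem_sigma, Finset.mem_product]
    refine ⟨?_, ?_, ?_⟩
    · simp only
      rw [Nat.mem_divisors]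
      exact ⟨⟨_, hN.symm⟩, hn⟩
    · simp only
      rw [hB _ hm0]
      exact ⟨hk, rfl⟩
    · simp only
      rw [hdiv, hA _ hJ0]
  · rintro ⟨m, ⟨⟨P, k⟩, J⟩⟩ hz
    rw [Finset.mem_sigma, Finset.mem_product] at hz
    obtain ⟨hm, hx, hJ⟩ := hz
    simp only at hm hx hJ
    have hm0 : m ≠ 0 := (Nat.pos_of_mem_divisors hm).ne'
    have hm1 : n / m ≠ 0 := by
      have := Nat.div_pos (Nat.divisor_le hm) (Nat.pos_of_ne_zero hm0)
      omega
    rw [hA _ hm1] at hJ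
    have hJ0 : J ≠ ⊥ := by
      intro h
      rw [h, Ideal.absNorm_bot] at hJ
      exact hm1 hJ.symm
    simp only
    rw [hχ.mul _ _ (pow_ne_zero _ P.ne_bot) hJ0, S1_pow hχ P.ne_bot]
    push_cast
    ring

lemma bS_one (χ : Ideal (𝓞 F) → ℤ) : bS χ 1 = 0 := by
  unfold bS
  have : {x : HeightOneSpectrum (𝓞 F) × ℕ | 1 ≤ x.2 ∧ Ideal.absNorm x.1.asIdeal ^ x.2 = 1}
      = ∅ := by
    ext ⟨P, k⟩
    simp only [Set.mem_setOf_eq, Set.mem_empty_iff_false, iff_false, not_and]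
    intro hk h
    have h2 := S1a_two_le P
    have : 2 ^ k ≤ 1 := by
      calc 2 ^ k ≤ Ideal.absNorm P.asIdeal ^ k := Nat.pow_le_pow_left h2 k
        _ = 1 := h
    have h3 : k < 2 ^ k := Nat.lt_two_pow_self
    omega
  rw [this, finsum_mem_empty]

lemma cS_one {χ : Ideal (𝓞 F) → ℤ} (hχ : CM χ) : cS χ 1 = 1 := by
  unfold cS
  have : {I : Ideal (𝓞 F) | Ideal.absNorm I = 1} = {⊤} := by
    ext I
    simp only [Set.mem_setOf_eq, Set.mem_singleton_iff]
    exact Ideal.absNorm_eq_one_iff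
  rw [this, finsum_mem_singleton, hχ.one]

/-- strong induction with `recursion` -/
theorem cS_eq {F' : Type*} [Field F'] [NumberField F'] {χ : Ideal (𝓞 F) → ℤ}
    {χ' : Ideal (𝓞 F') → ℤ} (hχ : CM χ) (hχ' : CM χ') (hb : ∀ m, m ≠ 0 → bS χ m = bS χ' m)
    {n : ℕ} (hn : n ≠ 0) : cS χ n = cS χ' n := by
  induction n using Nat.strong_induction_on with
  | _ n ih =>
    by_cases h1 : n = 1
    · subst h1
      rw [cS_one hχ, cS_one hχ']
    · have hlog : Real.log n ≠ 0 := by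
        have : (1 : ℝ) < n := by
          have : 1 < n := by omega
          exact_mod_cast this
        exact (Real.log_pos this).ne'
      have h := recursion hχ hn
      have h' := recursion hχ' hn
      have hs : ∑ m ∈ n.divisors, bS χ m * (cS χ (n / m) : ℝ) =
          ∑ m ∈ n.divisors, bS χ' m * (cS χ' (n / m) : ℝ) := by
        refine Finset.sum_congr rfl ?_
        intro m hm
        have hm0 : m ≠ 0 := (Nat.pos_of_mem_divisors hm).ne'
        by_cases hm1 : m = 1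
        · subst hm1
          rw [bS_one, bS_one, zero_mul, zero_mul]
        · have hm2 : n / m ≠ 0 := by
            have := Nat.div_pos (Nat.divisor_le hm) (Nat.pos_of_ne_zero hm0)
            omega
          have hlt : n / m < n := Nat.div_lt_self (Nat.pos_of_ne_zero hn) (by omega)
          rw [hb m hm0, ih _ hlt hm2]
      rw [← h, ← h'] at hs
      have := mul_right_cancel₀ hlog hs
      exact_mod_cast this

end Pool.Agent.STg
end

section

/-!
# Weighted numbers of ideals with given norm, complex weights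
-/

open NumberField IsDedekindDomain

namespace Pool.Agent.STh

open Pool.Agent.STg

/-! Adapt `MP_1ef7cf_nt_g/S1a.lean` and `MP_1ef7cf_nt_g/S1.lean` (there the weights are integers). `finite_norm`,
`finite_pairs`, `log_norm`, `S1_fin`, `S1a_two_le` are general. -/

variable {F : Type*} [Field F] [NumberField F]

/-- the number of the ideals of norm `n`, weighted by `χ` -/
noncomputable def cS (χ : Ideal (𝓞 F) → ℂ) (n : ℕ) : ℂ :=
  ∑ᶠ I ∈ {I : Ideal (𝓞 F) | Ideal.absNorm I = n}, χ I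

/-- the sum of `χ(P) ^ k log N(P)` over the pairs `(P, k)`, `k ≥ 1`, with `N(P) ^ k = m` -/
noncomputable def bS (χ : Ideal (𝓞 F) → ℂ) (m : ℕ) : ℂ :=
  ∑ᶠ x ∈ {x : HeightOneSpectrum (𝓞 F) × ℕ | 1 ≤ x.2 ∧ Ideal.absNorm x.1.asIdeal ^ x.2 = m},
    χ x.1.asIdeal ^ x.2 * (Real.log (Ideal.absNorm x.1.asIdeal) : ℂ)

/-- completely multiplicative functions on the non-zero ideals -/
structure CM (χ : Ideal (𝓞 F) → ℂ) : Prop where
  one : χ ⊤ = 1
  mul : ∀ I J : Ideal (𝓞 F), I ≠ ⊥ → J ≠ ⊥ → χ (I * J) = χ I * χ J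

private lemma S1_pow {χ : Ideal (𝓞 F) → ℂ} (hχ : CM χ) {P : Ideal (𝓞 F)} (hP : P ≠ ⊥) (k : ℕ) :
    χ (P ^ k) = χ P ^ k := by
  induction k with
  | zero => simpa [Ideal.one_eq_top] using hχ.one
  | succ k ih => rw [pow_succ, hχ.mul _ _ (pow_ne_zero k hP) hP, ih, pow_succ]

private lemma S1_bS_one (χ : Ideal (𝓞 F) → ℂ) : bS χ 1 = 0 := by
  unfold bS
  have : {x : HeightOneSpectrum (𝓞 F) × ℕ | 1 ≤ x.2 ∧ Ideal.absNorm x.1.asIdeal ^ x.2 = 1}
      = ∅ := by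
    ext ⟨P, k⟩
    simp only [Set.mem_setOf_eq, Set.mem_empty_iff_false, iff_false, not_and]
    intro hk h
    have h2 := S1a_two_le P
    have : 2 ^ k ≤ 1 := by
      calc 2 ^ k ≤ Ideal.absNorm P.asIdeal ^ k := Nat.pow_le_pow_left h2 k
        _ = 1 := h
    have h3 : k < 2 ^ k := Nat.lt_two_pow_self
    omega
  rw [this, finsum_mem_empty]

/-- **Recursion.** -/
theorem recursion {χ : Ideal (𝓞 F) → ℂ} (hχ : CM χ) {n : ℕ} (hn : n ≠ 0) :
    cS χ n * (Real.log n : ℂ) = ∑ m ∈ n.divisors, bS χ m * cS χ (n / m) := by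
  classical
  have hA : ∀ m : ℕ, ∃ s : Finset (Ideal (𝓞 F)), m ≠ 0 → ∀ I, I ∈ s ↔ Ideal.absNorm I = m := by
    intro m
    by_cases hm : m = 0
    · exact ⟨∅, fun h => absurd hm h⟩
    · exact ⟨(finite_norm (F := F) hm).toFinset, fun _ I => by
        rw [Set.Finite.mem_toFinset]; rfl⟩
  choose A hA using hA
  have hB : ∀ m : ℕ, ∃ s : Finset (HeightOneSpectrum (𝓞 F) × ℕ), m ≠ 0 →
      ∀ x, x ∈ s ↔ (1 ≤ x.2 ∧ Ideal.absNorm x.1.asIdeal ^ x.2 = m) := by
    intro m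
    by_cases hm : m = 0
    · exact ⟨∅, fun h => absurd hm h⟩
    · exact ⟨(finite_pairs (F := F) hm).toFinset, fun _ x => by
        rw [Set.Finite.mem_toFinset]; rfl⟩
  choose B hB using hB
  have hT : ∀ I : Ideal (𝓞 F), ∃ s : Finset (HeightOneSpectrum (𝓞 F) × ℕ), I ≠ ⊥ →
      ∀ x, x ∈ s ↔ (1 ≤ x.2 ∧ x.1.asIdeal ^ x.2 ∣ I) := by
    intro I
    by_cases hI : I = ⊥
    · exact ⟨∅, fun h => absurd hI h⟩
    · exact ⟨(S1_fin hI).toFinset, fun _ x => by
        rw [Set.Finite.mem_toFinset]; rfl⟩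
  choose T hT using hT
  have hc : ∀ m : ℕ, m ≠ 0 → cS χ m = ∑ I ∈ A m, χ I := by
    intro m hm
    unfold cS
    have : {I : Ideal (𝓞 F) | Ideal.absNorm I = m} = ↑(A m) := by
      ext I
      rw [Finset.mem_coe, hA m hm I]; rfl
    rw [this, finsum_mem_coe_finset]
  have hb : ∀ m : ℕ, m ≠ 0 → bS χ m = ∑ x ∈ B m,
      χ x.1.asIdeal ^ x.2 * (Real.log (Ideal.absNorm x.1.asIdeal) : ℂ) := by
    intro m hm
    unfold bS
    have : {x : HeightOneSpectrum (𝓞 F) × ℕ | 1 ≤ x.2 ∧ Ideal.absNorm x.1.asIdeal ^ x.2 = m}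
        = ↑(B m) := by
      ext x
      rw [Finset.mem_coe, hB m hm x]; rfl
    rw [this, finsum_mem_coe_finset]
  have hl : ∀ I : Ideal (𝓞 F), I ≠ ⊥ → Real.log (Ideal.absNorm I) =
      ∑ x ∈ T I, Real.log (Ideal.absNorm x.1.asIdeal) := by
    intro I hI
    rw [log_norm hI]
    have : {x : HeightOneSpectrum (𝓞 F) × ℕ | 1 ≤ x.2 ∧ x.1.asIdeal ^ x.2 ∣ I} = ↑(T I) := by
      ext x
      rw [Finset.mem_coe, hT I hI x]; rfl
    rw [this, finsum_mem_coe_finset]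
  have hne : ∀ I ∈ A n, I ≠ ⊥ := by
    intro I hI h
    rw [hA n hn, h, Ideal.absNorm_bot] at hI
    exact hn hI.symm
  have hL : cS χ n * (Real.log n : ℂ) = ∑ y ∈ (A n).sigma T,
      χ y.1 * (Real.log (Ideal.absNorm y.2.1.asIdeal) : ℂ) := by
    rw [hc n hn, Finset.sum_sigma, Finset.sum_mul]
    refine Finset.sum_congr rfl ?_
    intro I hI
    have h1 : χ I * (Real.log n : ℂ) =
        ∑ x ∈ T I, χ I * (Real.log (Ideal.absNorm x.1.asIdeal) : ℂ) := by
      rw [← Finset.mul_sum, ← Complex.ofReal_sum, ← hl I (hne I hI), (hA n hn I).1 hI]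
    exact h1
  have hR : ∑ m ∈ n.divisors, bS χ m * cS χ (n / m) =
      ∑ z ∈ n.divisors.sigma (fun m => B m ×ˢ A (n / m)),
        (χ z.2.1.1.asIdeal ^ z.2.1.2 * (Real.log (Ideal.absNorm z.2.1.1.asIdeal) : ℂ)) *
          χ z.2.2 := by
    rw [Finset.sum_sigma]
    refine Finset.sum_congr rfl ?_
    intro m hm
    have hm0 : m ≠ 0 := (Nat.pos_of_mem_divisors hm).ne'
    have hm1 : n / m ≠ 0 := by
      have := Nat.div_pos (Nat.divisor_le hm) (Nat.pos_of_ne_zero hm0)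
      omega
    rw [hb m hm0, hc _ hm1, Finset.sum_mul_sum, Finset.sum_product]
  rw [hL, hR]
  symm
  refine Finset.sum_bij (fun z _ => ⟨z.2.1.1.asIdeal ^ z.2.1.2 * z.2.2, z.2.1⟩) ?_ ?_ ?_ ?_
  · rintro ⟨m, ⟨⟨P, k⟩, J⟩⟩ hz
    rw [Finset.mem_sigma, Finset.mem_product] at hz
    obtain ⟨hm, hx, hJ⟩ := hz
    simp only at hm hx hJ
    have hm0 : m ≠ 0 := (Nat.pos_of_mem_divisors hm).ne'
    have hm1 : n / m ≠ 0 := by
      have := Nat.div_pos (Nat.divisor_le hm) (Nat.pos_of_ne_zero hm0)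
      omega
    rw [hB m hm0] at hx
    rw [hA _ hm1] at hJ
    obtain ⟨hk, hx⟩ := hx
    simp only at hk hx
    have hI : Ideal.absNorm (P.asIdeal ^ k * J) = n := by
      rw [map_mul, map_pow, hx, hJ, Nat.mul_div_cancel' (Nat.dvd_of_mem_divisors hm)]
    have hI0 : P.asIdeal ^ k * J ≠ ⊥ := by
      intro h
      rw [h, Ideal.absNorm_bot] at hI
      exact hn hI.symm
    rw [Finset.mem_sigma]
    refine ⟨(hA n hn _).2 hI, ?_⟩
    simp only
    rw [hT _ hI0]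
    exact ⟨hk, dvd_mul_right _ _⟩
  · rintro ⟨m, ⟨⟨P, k⟩, J⟩⟩ hz ⟨m', ⟨⟨P', k'⟩, J'⟩⟩ hz' h
    rw [Finset.mem_sigma, Finset.mem_product] at hz hz'
    obtain ⟨hm, hx, hJ⟩ := hz
    obtain ⟨hm', hx', hJ'⟩ := hz'
    simp only at hm hx hJ hm' hx' hJ'
    have hm0 : m ≠ 0 := (Nat.pos_of_mem_divisors hm).ne'
    have hm0' : m' ≠ 0 := (Nat.pos_of_mem_divisors hm').ne'
    rw [hB m hm0] at hx
    rw [hB m' hm0'] at hx'
    simp only [Sigma.mk.injEq, heq_eq_eq, Prod.mk.injEq] at h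
    obtain ⟨h1, rfl, rfl⟩ := h
    have hmm : m = m' := by rw [← hx.2, ← hx'.2]
    subst hmm
    have h2 : J = J' := by
      exact mul_left_cancel₀ (pow_ne_zero _ P.ne_bot) h1
    subst h2
    rfl
  · rintro ⟨I, ⟨P, k⟩⟩ hy
    rw [Finset.mem_sigma] at hy
    obtain ⟨hI, hx⟩ := hy
    simp only at hI hx
    have hI0 := hne I hI
    rw [hT I hI0] at hx
    obtain ⟨hk, ⟨J, hJ⟩⟩ := hx
    simp only at hk hJ
    subst hJ
    have hN := (hA n hn _).1 hI
    rw [map_mul, map_pow] at hN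
    have hm0 : Ideal.absNorm P.asIdeal ^ k ≠ 0 := by
      intro h
      rw [h, zero_mul] at hN
      exact hn hN.symm
    have hdiv : n / Ideal.absNorm P.asIdeal ^ k = Ideal.absNorm J := by
      rw [← hN, Nat.mul_div_cancel_left _ (Nat.pos_of_ne_zero hm0)]
    have hJ0 : Ideal.absNorm J ≠ 0 := by
      intro h
      rw [h, mul_zero] at hN
      exact hn hN.symm
    refine ⟨⟨Ideal.absNorm P.asIdeal ^ k, ⟨⟨P, k⟩, J⟩⟩, ?_, rfl⟩
    rw [Finset.mem_sigma, Finset.mem_product]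
    refine ⟨?_, ?_, ?_⟩
    · simp only
      rw [Nat.mem_divisors]
      exact ⟨⟨_, hN.symm⟩, hn⟩
    · simp only
      rw [hB _ hm0]
      exact ⟨hk, rfl⟩
    · simp only
      rw [hdiv, hA _ hJ0]
  · rintro ⟨m, ⟨⟨P, k⟩, J⟩⟩ hz
    rw [Finset.mem_sigma, Finset.mem_product] at hz
    obtain ⟨hm, hx, hJ⟩ := hz
    simp only at hm hx hJ
    have hm0 : m ≠ 0 := (Nat.pos_of_mem_divisors hm).ne'
    have hm1 : n / m ≠ 0 := by
      have := Nat.div_pos (Nat.divisor_le hm) (Nat.pos_of_ne_zero hm0)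
      omega
    rw [hA _ hm1] at hJ
    have hJ0 : J ≠ ⊥ := by
      intro h
      rw [h, Ideal.absNorm_bot] at hJ
      exact hm1 hJ.symm
    simp only
    rw [hχ.mul _ _ (pow_ne_zero _ P.ne_bot) hJ0, S1_pow hχ P.ne_bot]
    ring

lemma cS_one {χ : Ideal (𝓞 F) → ℂ} (hχ : CM χ) : cS χ 1 = 1 := by
  unfold cS
  have : {I : Ideal (𝓞 F) | Ideal.absNorm I = 1} = {⊤} := by
    ext I
    simp only [Set.mem_setOf_eq, Set.mem_singleton_iff]
    exact Ideal.absNorm_eq_one_iff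
  rw [this, finsum_mem_singleton, hχ.one]

/-- strong induction with `recursion` -/
theorem cS_eq {F' : Type*} [Field F'] [NumberField F'] {χ : Ideal (𝓞 F) → ℂ}
    {χ' : Ideal (𝓞 F') → ℂ} (hχ : CM χ) (hχ' : CM χ') (hb : ∀ m, m ≠ 0 → bS χ m = bS χ' m)
    {n : ℕ} (hn : n ≠ 0) : cS χ n = cS χ' n := by
  induction n using Nat.strong_induction_on with
  | _ n ih =>
    by_cases h1 : n = 1
    · subst h1
      rw [cS_one hχ, cS_one hχ']
    · have hlog : (Real.log n : ℂ) ≠ 0 := by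
        rw [Complex.ofReal_ne_zero]
        have : (1 : ℝ) < n := by
          have : 1 < n := by omega
          exact_mod_cast this
        exact (Real.log_pos this).ne'
      have h := recursion hχ hn
      have h' := recursion hχ' hn
      have hs : ∑ m ∈ n.divisors, bS χ m * cS χ (n / m) =
          ∑ m ∈ n.divisors, bS χ' m * cS χ' (n / m) := by
        refine Finset.sum_congr rfl ?_
        intro m hm
        have hm0 : m ≠ 0 := (Nat.pos_of_mem_divisors hm).ne'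
        by_cases hm1 : m = 1
        · subst hm1
          rw [S1_bS_one, S1_bS_one, zero_mul, zero_mul]
        · have hm2 : n / m ≠ 0 := by
            have := Nat.div_pos (Nat.divisor_le hm) (Nat.pos_of_ne_zero hm0)
            omega
          have hlt : n / m < n := Nat.div_lt_self (Nat.pos_of_ne_zero hn) (by omega)
          rw [hb m hm0, ih _ hlt hm2]
      rw [← h, ← h'] at hs
      have := mul_right_cancel₀ hlog hs
      exact this

end Pool.Agent.STh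
end
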