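import Pool.Agent.Lib.MP_1ef7cf_nt.RQ
import Pool.Agent.Lib.MP_1ef7cf_nt.SDefs3
import Pool.Agent.Lib.MP_1ef7cf_nt.Act

section

/-!
# Part F: the fields `K(√e, cos (2 π / 2 ^ k))` as ray class fields. Definitions
-/

open NumberField IsDedekindDomain nonZeroDivisors IntermediateField

namespace Pool.Agent.STg.F

open Pool.Agent.ST

variable {K : Type*} [Field K] [NumberField K] [Algebra K ℝ]

/-- The data: a real quadratic field `K ⊂ ℝ`, its second embedding `σ₂` and a unit `e > 0` of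
norm `-1`. -/
structure FD (σ₂ : K →+* ℝ) (e : (𝓞 K)ˣ) : Prop where
  deg : Module.finrank ℚ K = 2
  ne : σ₂ ≠ sg1 K
  pos : 0 < algebraMap K ℝ ((e : 𝓞 K) : K)
  nrm : σ₂ ((e : 𝓞 K) : K) = -(algebraMap K ℝ ((e : 𝓞 K) : K))⁻¹

/-- the trace of the unit -/
noncomputable def tre (e : (𝓞 K)ˣ) : ℤ := Algebra.trace ℤ (𝓞 K) (e : 𝓞 K)

/-- the square root of the unit -/
noncomputable def se (e : (𝓞 K)ˣ) : ℝ := Real.sqrt (algebraMap K ℝ ((e : 𝓞 K) : K))

/-- `1` if `e` is a square modulo the ideal `v`, `-1` otherwise. -/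
noncomputable def chiP (e : (𝓞 K)ˣ) (v : Ideal (𝓞 K)) : ℤ :=
  open Classical in if IsSquare (Ideal.Quotient.mk v (e : 𝓞 K)) then 1 else -1

/-- The multiplicative extension of `chiP` to the nonzero ideals. -/
noncomputable def chiI (e : (𝓞 K)ˣ) (I : Ideal (𝓞 K)) : ℤ :=
  ((UniqueFactorizationMonoid.normalizedFactors I).map (chiP e)).prod

/-- The field `K(√e, cos (2 π / 2 ^ k))`. -/
noncomputable abbrev Lf (e : (𝓞 K)ˣ) (k : ℕ) : IntermediateField K ℝ :=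
  StarkRQ.layer K⟮se e⟯ k

/-- Every prime above `2` divides `m`. -/
def Above (m : Ideal (𝓞 K)) : Prop :=
  ∀ v : HeightOneSpectrum (𝓞 K), (2 : 𝓞 K) ∈ v.asIdeal → v.asIdeal ∣ m

/-- The conditions on the levels `j` and `k` for which `K(√e, cos (2 π / 2 ^ k))` is the ray class
field of modulus `2 ^ j ∞₂` (if `𝓞 K` is principal). -/
structure Lev (e : (𝓞 K)ˣ) (j k : ℕ) : Prop where
  j4 : 4 ≤ j
  k2 : 2 ≤ k
  nrm : ∀ b : 𝓞 K, b - 1 ∈ (Ideal.span {(2 : 𝓞 K)}) ^ j → (2 : ℤ) ^ k ∣ Algebra.norm ℤ b - 1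
  gen : ∀ b : 𝓞 K, IsCoprime (Ideal.span {b}) (Ideal.span {(2 : 𝓞 K)}) →
    ((2 : ℤ) ^ k ∣ Algebra.norm ℤ b - 1 ∨ (2 : ℤ) ^ k ∣ Algebra.norm ℤ b + 1) →
    ∃ i : ℕ, b - (e : 𝓞 K) ^ i ∈ (Ideal.span {(2 : 𝓞 K)}) ^ j ∨
      b + (e : 𝓞 K) ^ i ∈ (Ideal.span {(2 : 𝓞 K)}) ^ j

end Pool.Agent.STg.F
end

section

set_option autoImplicit false

open NumberField IsDedekindDomain nonZeroDivisors IntermediateField

namespace Pool.Agent.STg.F

open Pool.Agent.ST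

variable {K : Type*} [Field K] [NumberField K] [Algebra K ℝ] {σ₂ : K →+* ℝ} {e : (𝓞 K)ˣ}

/-- TASK F02 (Euler's criterion modulo a prime ideal not above `2`).
PROOF. `k := 𝓞 K ⧸ v` is a finite field (`Ideal.Quotient.field`, `v.isMaximal`; see the proof of `ST.pn_eq_of_isFrob_one` in
MP_1ef7cf_nt/Frob2.lean) with `Nat.card k = absNorm v` (`Ideal.absNorm_apply`, `Submodule.cardQuot_apply`), its characteristic is not `2`
because `2 ∉ v`. So `absNorm v` is odd (`FiniteField.odd_card_of_char_ne_two`) and `Fintype.card k / 2 = (absNorm v - 1) / 2`.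
The class `u` of `e` is nonzero (a unit). `FiniteField.pow_dichotomy` : `u ^ (card / 2) = 1 ∨ = -1`; `FiniteField.isSquare_iff` :
`IsSquare u ↔ u ^ (card / 2) = 1`. Translate with `Ideal.Quotient.eq_zero_iff_mem` / `Ideal.Quotient.eq`.
`chiP_eq_of`: from `chiP_spec` and `h`, `(chiP e v : 𝓞 K) - s ∈ v`; both are `± 1`; if they were different, `2` or `-2` would be in `v`. -/
theorem odd_absNorm (v : HeightOneSpectrum (𝓞 K)) (h2 : (2 : 𝓞 K) ∉ v.asIdeal) :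
    Odd (Ideal.absNorm v.asIdeal) := by
  haveI : Finite (𝓞 K ⧸ v.asIdeal) := Ideal.finiteQuotientOfFreeOfNeBot v.asIdeal v.ne_bot
  haveI : v.asIdeal.IsMaximal := v.isMaximal
  letI : Field (𝓞 K ⧸ v.asIdeal) := Ideal.Quotient.field v.asIdeal
  haveI : Fintype (𝓞 K ⧸ v.asIdeal) := Fintype.ofFinite _
  have h1 : Ideal.absNorm v.asIdeal = Fintype.card (𝓞 K ⧸ v.asIdeal) := by
    rw [Ideal.absNorm_apply, Submodule.cardQuot_apply, Nat.card_eq_fintype_card]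
  have hc : ringChar (𝓞 K ⧸ v.asIdeal) ≠ 2 := by
    intro hc
    apply h2
    have : ((2 : ℕ) : 𝓞 K ⧸ v.asIdeal) = 0 := (ringChar.spec _ 2).2 (by rw [hc])
    rw [← Ideal.Quotient.eq_zero_iff_mem]
    rw [map_ofNat]
    exact_mod_cast this
  rw [h1, Nat.odd_iff]
  exact FiniteField.odd_card_of_char_ne_two hc

omit [NumberField K] [Algebra K ℝ] in
theorem chiP_sq (e : (𝓞 K)ˣ) (v : Ideal (𝓞 K)) : chiP e v = 1 ∨ chiP e v = -1 := by
  unfold chiP
  split_ifs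
  · exact Or.inl rfl
  · exact Or.inr rfl

theorem chiP_spec (e : (𝓞 K)ˣ) (v : HeightOneSpectrum (𝓞 K)) (h2 : (2 : 𝓞 K) ∉ v.asIdeal) :
    (e : 𝓞 K) ^ ((Ideal.absNorm v.asIdeal - 1) / 2) - ((chiP e v.asIdeal : ℤ) : 𝓞 K) ∈
      v.asIdeal := by
  haveI : Finite (𝓞 K ⧸ v.asIdeal) := Ideal.finiteQuotientOfFreeOfNeBot v.asIdeal v.ne_bot
  haveI : v.asIdeal.IsMaximal := v.isMaximal
  letI : Field (𝓞 K ⧸ v.asIdeal) := Ideal.Quotient.field v.asIdeal
  haveI : Fintype (𝓞 K ⧸ v.asIdeal) := Fintype.ofFinite _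
  have h1 : Ideal.absNorm v.asIdeal = Fintype.card (𝓞 K ⧸ v.asIdeal) := by
    rw [Ideal.absNorm_apply, Submodule.cardQuot_apply, Nat.card_eq_fintype_card]
  have hc : ringChar (𝓞 K ⧸ v.asIdeal) ≠ 2 := by
    intro hc
    apply h2
    have : ((2 : ℕ) : 𝓞 K ⧸ v.asIdeal) = 0 := (ringChar.spec _ 2).2 (by rw [hc])
    rw [← Ideal.Quotient.eq_zero_iff_mem]
    rw [map_ofNat]
    exact_mod_cast this
  have hodd := odd_absNorm v h2
  have h3 : (Ideal.absNorm v.asIdeal - 1) / 2 = Fintype.card (𝓞 K ⧸ v.asIdeal) / 2 := by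
    rw [← h1]
    obtain ⟨k, hk⟩ := hodd
    omega
  have hu : (Ideal.Quotient.mk v.asIdeal (e : 𝓞 K)) ≠ 0 := by
    have := (e.isUnit.map (Ideal.Quotient.mk v.asIdeal))
    exact this.ne_zero
  rw [← Ideal.Quotient.eq_zero_iff_mem, map_sub, map_pow, map_intCast, h3, sub_eq_zero]
  have hd := FiniteField.pow_dichotomy hc hu
  have hs := FiniteField.isSquare_iff hc hu
  unfold chiP
  split_ifs with hsq
  · rw [hs.1 hsq]
    simp
  · rcases hd with hd | hd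
    · exact absurd (hs.2 hd) hsq
    · rw [hd]
      simp

theorem chiP_eq_of (e : (𝓞 K)ˣ) (v : HeightOneSpectrum (𝓞 K)) (h2 : (2 : 𝓞 K) ∉ v.asIdeal)
    {s : ℤ} (hs : s = 1 ∨ s = -1)
    (h : (e : 𝓞 K) ^ ((Ideal.absNorm v.asIdeal - 1) / 2) - ((s : ℤ) : 𝓞 K) ∈ v.asIdeal) :
    chiP e v.asIdeal = s := by
  have h1 := chiP_spec e v h2
  have h3 := v.asIdeal.sub_mem h1 h
  have h4 : ((s - chiP e v.asIdeal : ℤ) : 𝓞 K) ∈ v.asIdeal := by
    have : ((s - chiP e v.asIdeal : ℤ) : 𝓞 K) = ((e : 𝓞 K) ^ ((Ideal.absNorm v.asIdeal - 1) / 2) -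
      ((chiP e v.asIdeal : ℤ) : 𝓞 K)) - ((e : 𝓞 K) ^ ((Ideal.absNorm v.asIdeal - 1) / 2) - ((s : ℤ) : 𝓞 K)) := by
      push_cast
      ring
    rw [this]
    exact h3
  rcases chiP_sq e v.asIdeal with hc | hc <;> rcases hs with hs | hs
  · rw [hc, hs]
  · exfalso
    rw [hc, hs] at h4
    norm_num at h4
    exact h2 h4
  · exfalso
    rw [hc, hs] at h4
    norm_num at h4
    exact h2 h4
  · rw [hc, hs]

end Pool.Agent.STg.F
end

section

/-!
# Part F: the fields `K(d ^ (1 / 4), cos (2 π / Q))`. Definitions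

Here `K ⊂ ℝ` is a real quadratic field, `a = √d ∈ 𝓞 K`, `d` a natural number which is not a square.
-/

open NumberField IsDedekindDomain nonZeroDivisors IntermediateField

namespace Pool.Agent.STh.F

open Pool.Agent.ST

variable {K : Type*} [Field K] [NumberField K] [Algebra K ℝ]

/-- The data: a real quadratic field `K ⊂ ℝ`, its second embedding `σ₂`, and `a = √d > 0` in `K`. -/
structure FD (σ₂ : K →+* ℝ) (d : ℕ) (a : 𝓞 K) : Prop where
  deg : Module.finrank ℚ K = 2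
  ne : σ₂ ≠ sg1 K
  sq : a ^ 2 = (d : 𝓞 K)
  pos : 0 < algebraMap K ℝ (a : K)
  nsq : ¬ IsSquare d

/-- `√a`, the fourth root of `d` -/
noncomputable def se (a : 𝓞 K) : ℝ := Real.sqrt (algebraMap K ℝ (a : K))

/-- `1` if `a` is a square modulo the ideal `v`, `-1` otherwise. -/
noncomputable def chiP (a : 𝓞 K) (v : Ideal (𝓞 K)) : ℤ :=
  open Classical in if IsSquare (Ideal.Quotient.mk v a) then 1 else -1

/-- The multiplicative extension of `chiP` to the nonzero ideals. -/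
noncomputable def chiI (a : 𝓞 K) (I : Ideal (𝓞 K)) : ℤ :=
  ((UniqueFactorizationMonoid.normalizedFactors I).map (chiP a)).prod

/-- `chiI` on the ideals prime to `m`, `0` on the other ideals -/
noncomputable def chiK (a : 𝓞 K) (m I : Ideal (𝓞 K)) : ℤ :=
  open Classical in if I ≠ ⊥ ∧ IsCoprime I m then chiI a I else 0

/-- the sum of `chiK` over the ideals of norm `l` -/
noncomputable def cK (a : 𝓞 K) (m : Ideal (𝓞 K)) (l : ℕ) : ℤ :=
  ∑ᶠ I ∈ {I : Ideal (𝓞 K) | Ideal.absNorm I = l}, chiK a m I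

/-- The field `K(√a, cos (2 π / Q))`. -/
noncomputable def Lf (a : 𝓞 K) (Q : ℕ) : IntermediateField K ℝ :=
  K⟮se a⟯ ⊔ K⟮Real.cos (2 * Real.pi / Q)⟯

/-- Every prime which contains `Q` divides `m`. -/
def Above (Q : ℕ) (m : Ideal (𝓞 K)) : Prop :=
  ∀ v : HeightOneSpectrum (𝓞 K), (Q : 𝓞 K) ∈ v.asIdeal → v.asIdeal ∣ m

/-- the automorphism `σ` has the coordinates `s`, `b` -/
structure Co (a : 𝓞 K) (Q : ℕ) {H : IntermediateField K ℝ} (σ : H ≃ₐ[K] H) (s : ℤ) (b : ℕ) :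
    Prop where
  hs : act σ (se a) = (s : ℝ) * se a
  hc : act σ (Real.cos (2 * Real.pi / Q)) = Real.cos (2 * Real.pi * b / Q)

/-- The Dirichlet series of the numbers `s cK(l)`, `l = b` or `-b` modulo `Q`, has a continuation `G` with
`G 0 = 0` and `G' 0 = -t`. -/
def GK (a : 𝓞 K) (m : Ideal (𝓞 K)) (Q : ℕ) (s : ℤ) (b : ℕ) (t : ℝ) : Prop :=
  ∃ G : ℂ → ℂ, DifferentiableOn ℂ G {1}ᶜ ∧ G 0 = 0 ∧
    (∀ w : ℂ, 1 < w.re → HasSum (fun l : ℕ =>
      (((if l ≠ 0 ∧ ((Q : ℤ) ∣ (l : ℤ) - b ∨ (Q : ℤ) ∣ (l : ℤ) + b) then s * cK a m l else 0 : ℤ)) : ℂ) *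
        (l : ℂ) ^ (-w)) (G w)) ∧
    deriv G 0 = ((-t : ℝ) : ℂ)

end Pool.Agent.STh.F
end
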