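import Pool.Agent.Lib.MP_1ef7cf_nt.Mg.G003
import Pool.Agent.Lib.MP_1ef7cf_nt.RCF
import Pool.Agent.Lib.MP_1ef7cf_nt_g.Mg.G023
import Pool.Agent.Lib.MP_1ef7cf_nt_g.S1a

section

set_option autoImplicit false

open NumberField IsDedekindDomain nonZeroDivisors IntermediateField

namespace Pool.Agent.STg.F

open Pool.Agent.ST

variable {K : Type*} [Field K] [NumberField K] [Algebra K ℝ] {σ₂ : K →+* ℝ} {e : (𝓞 K)ˣ}

theorem decomp (hK : Module.finrank ℚ K = 2) {l : ℕ} (hl : l.Prime) :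
    (∃ v : HeightOneSpectrum (𝓞 K), Ideal.span {(l : 𝓞 K)} = v.asIdeal ∧
      Ideal.absNorm v.asIdeal = l ^ 2) ∨
    (∃ v w : HeightOneSpectrum (𝓞 K), Ideal.span {(l : 𝓞 K)} = v.asIdeal * w.asIdeal ∧
      Ideal.absNorm v.asIdeal = l ∧ Ideal.absNorm w.asIdeal = l) := by
  have hl0 : (l : 𝓞 K) ≠ 0 := by exact_mod_cast hl.ne_zero
  have hn : Ideal.absNorm (Ideal.span {(l : 𝓞 K)}) = l ^ 2 := by
    rw [Ideal.absNorm_span_singleton]
    have h1 : (l : 𝓞 K) = algebraMap ℤ (𝓞 K) (l : ℤ) := by simp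
    rw [h1, Algebra.norm_algebraMap, RingOfIntegers.rank, hK]
    simp [Int.natAbs_pow]
  have hbot : Ideal.span {(l : 𝓞 K)} ≠ ⊥ := by
    rw [Ne, Ideal.span_singleton_eq_bot]; exact hl0
  have htop : Ideal.span {(l : 𝓞 K)} ≠ ⊤ := by
    intro h
    rw [h, Ideal.absNorm_top] at hn
    have := hl.one_lt
    nlinarith
  obtain ⟨m, hm, hle⟩ := Ideal.exists_le_maximal _ htop
  have hmbot : m ≠ ⊥ := by
    intro h; rw [h, le_bot_iff] at hle; exact hbot hle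
  obtain ⟨I, hI⟩ := Ideal.dvd_iff_le.mpr hle
  have hmul : Ideal.absNorm m * Ideal.absNorm I = l ^ 2 := by
    rw [← map_mul, ← hI, hn]
  have hm1 : Ideal.absNorm m ≠ 1 := by
    rw [Ne, Ideal.absNorm_eq_one_iff]; exact hm.ne_top
  obtain ⟨k, hk, hk2⟩ := (Nat.dvd_prime_pow hl).mp (Dvd.intro _ hmul)
  let v : HeightOneSpectrum (𝓞 K) := ⟨m, hm.isPrime, hmbot⟩
  have hk0 : k ≠ 0 := by
    rintro rfl; exact hm1 (by simpa using hk2)
  rcases (by omega : k = 1 ∨ k = 2) with rfl | rfl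
  · right
    rw [pow_one] at hk2
    have hI1 : Ideal.absNorm I = l := by
      rw [hk2, pow_two] at hmul
      exact Nat.eq_of_mul_eq_mul_left hl.pos hmul
    have hIp : I.IsPrime := Ideal.isPrime_of_irreducible_absNorm (by rw [hI1]; exact hl)
    have hIbot : I ≠ ⊥ := by
      intro h; rw [h, Ideal.absNorm_bot] at hI1; exact hl.ne_zero hI1.symm
    exact ⟨v, ⟨I, hIp, hIbot⟩, hI, hk2, hI1⟩
  · left
    refine ⟨v, ?_, hk2⟩
    have hI1 : Ideal.absNorm I = 1 := by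
      rw [hk2] at hmul
      have hp : 0 < l ^ 2 := pow_pos hl.pos 2
      nlinarith
    rw [Ideal.absNorm_eq_one_iff] at hI1
    rw [hI, hI1, Ideal.mul_top]

theorem exists_int (v : HeightOneSpectrum (𝓞 K)) {l : ℕ} (hl : l.Prime)
    (h : Ideal.absNorm v.asIdeal = l) (x : 𝓞 K) : ∃ a : ℤ, x - (a : 𝓞 K) ∈ v.asIdeal := by
  have hcard : Nat.card (𝓞 K ⧸ v.asIdeal) = l := by
    rw [← h]; rfl
  haveI : Finite (𝓞 K ⧸ v.asIdeal) := Nat.finite_of_card_ne_zero (by rw [hcard]; exact hl.ne_zero)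
  haveI := Fact.mk hl
  have hne : (1 : 𝓞 K ⧸ v.asIdeal) ≠ 0 := by
    haveI := v.isPrime
    exact one_ne_zero
  have hz : AddSubgroup.zmultiples (1 : 𝓞 K ⧸ v.asIdeal) = ⊤ :=
    zmultiples_eq_top_of_prime_card (p := l) hcard hne
  have hx : Ideal.Quotient.mk v.asIdeal x ∈ AddSubgroup.zmultiples (1 : 𝓞 K ⧸ v.asIdeal) := by
    rw [hz]; trivial
  obtain ⟨a, ha⟩ := AddSubgroup.mem_zmultiples_iff.mp hx
  refine ⟨a, ?_⟩
  rw [← Ideal.Quotient.eq_zero_iff_mem, map_sub, ← ha, map_intCast]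
  simp

omit [NumberField K] [Algebra K ℝ] in
/-- PROOF. If `(a : 𝓞 K) ∈ v` and `l ∤ a` then `1 ∈ v` (Bezout in `ℤ`), contradiction. -/
theorem dvd_of_mem (v : HeightOneSpectrum (𝓞 K)) {l : ℕ} (hl : l.Prime)
    (h : (l : 𝓞 K) ∈ v.asIdeal) {a : ℤ} (ha : (a : 𝓞 K) ∈ v.asIdeal) : (l : ℤ) ∣ a := by
  by_contra hna
  have hc : IsCoprime (l : ℤ) a := (Nat.prime_iff_prime_int.mp hl).coprime_iff_not_dvd.mpr hna
  obtain ⟨x, y, hxy⟩ := hc
  apply v.isPrime.ne_top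
  rw [Ideal.eq_top_iff_one]
  have h1 : (1 : 𝓞 K) = (x : 𝓞 K) * (l : 𝓞 K) + (y : 𝓞 K) * (a : 𝓞 K) := by
    have := congrArg (Int.cast : ℤ → 𝓞 K) hxy
    push_cast at this
    exact this.symm
  rw [h1]
  exact Ideal.add_mem _ (Ideal.mul_mem_left _ _ h) (Ideal.mul_mem_left _ _ ha)

end Pool.Agent.STg.F
end

section

/-!
# Local types
-/

open NumberField IsDedekindDomain

namespace Pool.Agent.STg

variable {F : Type*} [Field F] [NumberField F]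

/-- two primes over `p`, of norm `p`, with values `a`, `b` -/
def LT1 (χ : Ideal (𝓞 F) → ℤ) (p : ℕ) (a b : ℤ) : Prop :=
  ∃ P Q : HeightOneSpectrum (𝓞 F), P ≠ Q ∧ Ideal.absNorm P.asIdeal = p ∧
    Ideal.absNorm Q.asIdeal = p ∧ χ P.asIdeal = a ∧ χ Q.asIdeal = b ∧
    ∀ R : HeightOneSpectrum (𝓞 F), (p : 𝓞 F) ∈ R.asIdeal → R = P ∨ R = Q

/-- one prime over `p`, of norm `p ^ 2`, with value `a` -/
def LT2 (χ : Ideal (𝓞 F) → ℤ) (p : ℕ) (a : ℤ) : Prop :=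
  ∃ P : HeightOneSpectrum (𝓞 F), Ideal.absNorm P.asIdeal = p ^ 2 ∧ χ P.asIdeal = a ∧
    ∀ R : HeightOneSpectrum (𝓞 F), (p : 𝓞 F) ∈ R.asIdeal → R = P

/-- one prime over `p`, of norm `p`, with value `a` -/
def LT3 (χ : Ideal (𝓞 F) → ℤ) (p : ℕ) (a : ℤ) : Prop :=
  ∃ P : HeightOneSpectrum (𝓞 F), Ideal.absNorm P.asIdeal = p ∧ χ P.asIdeal = a ∧
    ∀ R : HeightOneSpectrum (𝓞 F), (p : 𝓞 F) ∈ R.asIdeal → R = P

lemma LT1.symm {χ : Ideal (𝓞 F) → ℤ} {p : ℕ} {a b : ℤ} (h : LT1 χ p a b) : LT1 χ p b a := by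
  obtain ⟨P, Q, hne, hP, hQ, ha, hb, h1⟩ := h
  exact ⟨Q, P, hne.symm, hQ, hP, hb, ha, fun R hR => (h1 R hR).symm⟩

/-- the norm of a prime is a power `p ^ f`, `f ≥ 1`, of a prime number, and `p ∈ P` -/
lemma exists_norm_pow (P : HeightOneSpectrum (𝓞 F)) : ∃ p f : ℕ, p.Prime ∧ 1 ≤ f ∧
    Ideal.absNorm P.asIdeal = p ^ f ∧ (p : 𝓞 F) ∈ P.asIdeal := by
  have hmax : P.asIdeal.IsMaximal := P.isMaximal
  letI : Field (𝓞 F ⧸ P.asIdeal) := Ideal.Quotient.field P.asIdeal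
  haveI : Finite (𝓞 F ⧸ P.asIdeal) := Ideal.finiteQuotientOfFreeOfNeBot P.asIdeal P.ne_bot
  letI : Fintype (𝓞 F ⧸ P.asIdeal) := Fintype.ofFinite _
  obtain ⟨p, hchar, n, hp, hcard⟩ := FiniteField.card' (𝓞 F ⧸ P.asIdeal)
  have hN : Ideal.absNorm P.asIdeal = p ^ (n : ℕ) := by
    rw [Ideal.absNorm_apply, Submodule.cardQuot_apply, Nat.card_eq_fintype_card]
    exact hcard
  refine ⟨p, n, hp, n.pos, hN, ?_⟩
  have h1 := Ideal.absNorm_mem P.asIdeal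
  rw [hN, Nat.cast_pow] at h1
  exact P.isPrime.mem_of_pow_mem _ h1

lemma S2a_mem {R : HeightOneSpectrum (𝓞 F)} {k p j : ℕ} (hp : p.Prime)
    (hk : 1 ≤ k) (h : Ideal.absNorm R.asIdeal ^ k = p ^ j) : (p : 𝓞 F) ∈ R.asIdeal := by
  obtain ⟨q, f, hq, hf, hN, hmem⟩ := exists_norm_pow R
  rw [hN, ← pow_mul] at h
  have h1 : q ∣ p ^ j := by
    rw [← h]
    exact dvd_pow_self q (Nat.mul_ne_zero (by omega) (by omega))
  have h2 : q = p := (Nat.prime_dvd_prime_iff_eq hq hp).mp (hq.dvd_of_dvd_pow h1)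
  rw [← h2]
  exact hmem

lemma bS_of_not_pow (χ : Ideal (𝓞 F) → ℤ) {m : ℕ} (hm : ¬ ∃ p j : ℕ, p.Prime ∧ 1 ≤ j ∧ m = p ^ j) :
    bS χ m = 0 := by
  unfold bS
  refine finsum_mem_eq_zero_of_forall_eq_zero fun x hx => ?_
  exfalso
  obtain ⟨q, f, hq, hf, hN, _⟩ := exists_norm_pow x.1
  refine hm ⟨q, f * x.2, hq, Nat.mul_pos hf hx.1, ?_⟩
  rw [← hx.2, hN, pow_mul]

/-- if `N(R) ^ k = p ^ j`, `k ≥ 1`, then `p ∈ R`: so only `P` and `Q` contribute, with `k = j` -/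
lemma LT1.bS {χ : Ideal (𝓞 F) → ℤ} {p : ℕ} (hp : p.Prime) {a b : ℤ} (h : LT1 χ p a b) {j : ℕ}
    (hj : 1 ≤ j) : Pool.Agent.STg.bS χ (p ^ j) = ((a : ℝ) ^ j + (b : ℝ) ^ j) * Real.log p := by
  obtain ⟨P, Q, hne, hP, hQ, ha, hb, h1⟩ := h
  have hset : {x : HeightOneSpectrum (𝓞 F) × ℕ | 1 ≤ x.2 ∧
      Ideal.absNorm x.1.asIdeal ^ x.2 = p ^ j} = {(P, j), (Q, j)} := by
    ext ⟨R, k⟩
    constructor
    · rintro ⟨hk, hx⟩
      rcases h1 R (S2a_mem hp hk hx) with hR | hR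
      · left
        have hx' : Ideal.absNorm R.asIdeal ^ k = p ^ j := hx
        rw [hR, hP] at hx'
        rw [hR, Nat.pow_right_injective hp.two_le hx']
      · right
        have hx' : Ideal.absNorm R.asIdeal ^ k = p ^ j := hx
        rw [hR, hQ] at hx'
        change (R, k) = (Q, j)
        rw [hR, Nat.pow_right_injective hp.two_le hx']
    · rintro (hx | hx)
      · rw [hx]
        exact ⟨hj, by change Ideal.absNorm P.asIdeal ^ j = p ^ j; rw [hP]⟩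
      · have hx' : (R, k) = (Q, j) := hx
        rw [hx']
        exact ⟨hj, by change Ideal.absNorm Q.asIdeal ^ j = p ^ j; rw [hQ]⟩
  unfold Pool.Agent.STg.bS
  rw [hset, finsum_mem_pair (fun h2 => hne (congrArg Prod.fst h2))]
  simp only [hP, hQ, ha, hb]
  ring

lemma LT2.bS {χ : Ideal (𝓞 F) → ℤ} {p : ℕ} (hp : p.Prime) {a : ℤ} (h : LT2 χ p a) {j : ℕ}
    (hj : 1 ≤ j) : Pool.Agent.STg.bS χ (p ^ j) =
      if Even j then 2 * (a : ℝ) ^ (j / 2) * Real.log p else 0 := by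
  obtain ⟨P, hP, ha, h1⟩ := h
  have hset : {x : HeightOneSpectrum (𝓞 F) × ℕ | 1 ≤ x.2 ∧
      Ideal.absNorm x.1.asIdeal ^ x.2 = p ^ j} = {x | x.1 = P ∧ 2 * x.2 = j} := by
    ext ⟨R, k⟩
    constructor
    · rintro ⟨hk, hx⟩
      have hR := h1 R (S2a_mem hp hk hx)
      have hx' : Ideal.absNorm R.asIdeal ^ k = p ^ j := hx
      rw [hR, hP, ← pow_mul] at hx'
      exact ⟨hR, Nat.pow_right_injective hp.two_le hx'⟩
    · rintro ⟨hR, hk⟩
      have hR' : R = P := hR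
      have hk' : 2 * k = j := hk
      refine ⟨?_, ?_⟩
      · change 1 ≤ k
        omega
      · change Ideal.absNorm R.asIdeal ^ k = p ^ j
        rw [hR', hP, ← pow_mul, hk']
  unfold Pool.Agent.STg.bS
  rw [hset]
  split_ifs with hev
  · obtain ⟨i, hi⟩ := hev
    have hset2 : {x : HeightOneSpectrum (𝓞 F) × ℕ | x.1 = P ∧ 2 * x.2 = j} = {(P, i)} := by
      ext ⟨R, k⟩
      constructor
      · rintro ⟨hR, hk⟩
        have hR' : R = P := hR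
        have hk' : 2 * k = j := hk
        change (R, k) = (P, i)
        rw [hR', show k = i by omega]
      · intro hx
        have hx' : (R, k) = (P, i) := hx
        rw [hx']
        exact ⟨rfl, by change 2 * i = j; omega⟩
    have hi2 : j / 2 = i := by omega
    rw [hset2, finsum_mem_singleton]
    simp only [hP, ha, hi2]
    rw [Nat.cast_pow, Real.log_pow]
    push_cast
    ring
  · refine finsum_mem_eq_zero_of_forall_eq_zero fun x hx => ?_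
    exact absurd ⟨x.2, by rw [← hx.2]; ring⟩ hev

lemma LT3.bS {χ : Ideal (𝓞 F) → ℤ} {p : ℕ} (hp : p.Prime) {a : ℤ} (h : LT3 χ p a) {j : ℕ}
    (hj : 1 ≤ j) : Pool.Agent.STg.bS χ (p ^ j) = (a : ℝ) ^ j * Real.log p := by
  obtain ⟨P, hP, ha, h1⟩ := h
  have hset : {x : HeightOneSpectrum (𝓞 F) × ℕ | 1 ≤ x.2 ∧
      Ideal.absNorm x.1.asIdeal ^ x.2 = p ^ j} = {(P, j)} := by
    ext ⟨R, k⟩
    constructor
    · rintro ⟨hk, hx⟩
      have hR := h1 R (S2a_mem hp hk hx)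
      have hx' : Ideal.absNorm R.asIdeal ^ k = p ^ j := hx
      rw [hR, hP] at hx'
      change (R, k) = (P, j)
      rw [hR, Nat.pow_right_injective hp.two_le hx']
    · intro hx
      have hx' : (R, k) = (P, j) := hx
      rw [hx']
      exact ⟨hj, by change Ideal.absNorm P.asIdeal ^ j = p ^ j; rw [hP]⟩
  unfold Pool.Agent.STg.bS
  rw [hset, finsum_mem_singleton]
  simp only [hP, ha]

lemma bS_two {χ : Ideal (𝓞 F) → ℤ}
    (h2 : ∀ P : HeightOneSpectrum (𝓞 F), (2 : 𝓞 F) ∈ P.asIdeal → χ P.asIdeal = 0) {j : ℕ}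
    (hj : 1 ≤ j) : Pool.Agent.STg.bS χ (2 ^ j) = 0 := by
  unfold Pool.Agent.STg.bS
  refine finsum_mem_eq_zero_of_forall_eq_zero fun x hx => ?_
  have h1 : ((2 : ℕ) : 𝓞 F) ∈ x.1.asIdeal := S2a_mem Nat.prime_two hx.1 hx.2
  rw [Nat.cast_ofNat] at h1
  have h3 : x.2 ≠ 0 := by
    have := hx.1
    omega
  rw [h2 x.1 h1, Int.cast_zero, zero_pow h3, zero_mul]

end Pool.Agent.STg
end
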