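import Pool.Agent.Lib.MP_1ef7cf_nt_g.Mg.G034
import Pool.Agent.Lib.MP_1ef7cf_nt_g.D1a
import Pool.Agent.Lib.MP_1ef7cf_nt_g.D2a
import Pool.Agent.Lib.MP_1ef7cf_nt_g.Mg.G029
import Pool.Agent.Lib.MP_1ef7cf_nt_g.Mg.G040

section

/-!
# The ring of integers of `ℚ(i)`
-/

open NumberField IsDedekindDomain Pool.Agent.ST Complex

namespace Pool.Agent.STg

instance : FiniteDimensional ℚ QI := by
  exact IntermediateField.adjoin.finiteDimensional Complex.isIntegral_rat_I

instance : NumberField QI := by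
  exact ⟨⟩

lemma gauss_mem_QI (a : GaussianInt) : (a : ℂ) ∈ QI := by
  rw [GaussianInt.toComplex_def]
  exact QI.add_mem (intCast_mem QI a.re) (QI.mul_mem (intCast_mem QI a.im) I_mem_QI)

/-- elements of `ℚ(i)` are `(a / n)` with `a ∈ ℤ[i]`, `n` a positive integer -/
lemma exists_div_of_mem_QI {x : ℂ} (hx : x ∈ QI) : ∃ (a : GaussianInt) (n : ℕ), n ≠ 0 ∧
    x = (a : ℂ) / (n : ℂ) := by
  have hx' : x ∈ Algebra.adjoin ℚ {I} := by
    rw [← IntermediateField.adjoin_simple_toSubalgebra_of_isAlgebraic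
      (Complex.isIntegral_rat_I).isAlgebraic]
    exact hx
  clear hx
  induction hx' using Algebra.adjoin_induction with
  | mem x hx =>
    rw [Set.mem_singleton_iff] at hx
    refine ⟨⟨0, 1⟩, 1, one_ne_zero, ?_⟩
    rw [hx, GaussianInt.toComplex_def']
    simp
  | algebraMap r =>
    refine ⟨⟨r.num, 0⟩, r.den, r.den_nz, ?_⟩
    rw [GaussianInt.toComplex_def']
    simp
    exact_mod_cast (Rat.num_div_den r).symm
  | add x y hx hy ihx ihy =>
    obtain ⟨a, n, hn, rfl⟩ := ihx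
    obtain ⟨b, m, hm, rfl⟩ := ihy
    have hn' : (n : ℂ) ≠ 0 := Nat.cast_ne_zero.mpr hn
    have hm' : (m : ℂ) ≠ 0 := Nat.cast_ne_zero.mpr hm
    refine ⟨a * (m : GaussianInt) + b * (n : GaussianInt), n * m, mul_ne_zero hn hm, ?_⟩
    simp only [GaussianInt.toComplex_add, GaussianInt.toComplex_mul, map_natCast, Nat.cast_mul]
    field_simp
  | mul x y hx hy ihx ihy =>
    obtain ⟨a, n, hn, rfl⟩ := ihx
    obtain ⟨b, m, hm, rfl⟩ := ihy
    have hn' : (n : ℂ) ≠ 0 := Nat.cast_ne_zero.mpr hn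
    have hm' : (m : ℂ) ≠ 0 := Nat.cast_ne_zero.mpr hm
    refine ⟨a * b, n * m, mul_ne_zero hn hm, ?_⟩
    simp only [GaussianInt.toComplex_mul, Nat.cast_mul]
    field_simp

/-- the map `ℤ[i] → ℚ(i)` -/
private noncomputable def D7_f : GaussianInt →+* QI :=
  (GaussianInt.toComplex).codRestrict QI gauss_mem_QI

private lemma D7_f_coe (a : GaussianInt) : ((D7_f a : QI) : ℂ) = a := rfl

private lemma D7_f_inj : Function.Injective D7_f := by
  intro a b hab
  have h := congrArg (fun z : QI => (z : ℂ)) hab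
  exact GaussianInt.toComplex_injective h

private lemma D7_integral (a : GaussianInt) : IsIntegral ℤ (D7_f a) := by
  have h1 : IsIntegral ℤ a := by
    refine ⟨Polynomial.X ^ 2 - Polynomial.C (2 * a.re) * Polynomial.X + Polynomial.C a.norm, ?_, ?_⟩
    · rw [show (Polynomial.X ^ 2 - Polynomial.C (2 * a.re) * Polynomial.X + Polynomial.C a.norm : Polynomial ℤ)
        = Polynomial.X ^ 2 + (Polynomial.C (-(2 * a.re)) * Polynomial.X + Polynomial.C a.norm) from by
          rw [map_neg]; ring]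
      apply Polynomial.monic_X_pow_add
      refine lt_of_le_of_lt Polynomial.degree_linear_le ?_
      norm_num
    · simp only [Polynomial.eval₂_add, Polynomial.eval₂_sub, Polynomial.eval₂_mul, Polynomial.eval₂_pow,
        Polynomial.eval₂_X, Polynomial.eval₂_C]
      ext
      · simp [Zsqrtd.norm, pow_two]
        ring
      · simp [Zsqrtd.norm, pow_two]
        ring
  exact h1.map D7_f.toIntAlgHom

private lemma D7_surj (y : 𝓞 QI) : ∃ a : GaussianInt, D7_f a = (y : QI) := by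
  let _ : Algebra GaussianInt QI := D7_f.toAlgebra
  have hfs : FaithfulSMul GaussianInt QI := (faithfulSMul_iff_algebraMap_injective _ _).mpr D7_f_inj
  have hfr : IsFractionRing GaussianInt QI := by
    apply IsFractionRing.of_field
    intro z
    obtain ⟨a, n, hn, hz⟩ := exists_div_of_mem_QI z.2
    refine ⟨a, (n : GaussianInt), ?_⟩
    apply Subtype.ext
    rw [hz]
    show _ = ((D7_f a / D7_f (n : GaussianInt) : QI) : ℂ)
    rw [map_natCast]
    simp [D7_f_coe]
  have hy : IsIntegral GaussianInt (y : QI) := by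
    have h1 : IsIntegral ℤ (y : QI) := RingOfIntegers.isIntegral_coe y
    exact h1.tower_top
  obtain ⟨a, ha⟩ := IsIntegrallyClosed.algebraMap_eq_of_integral hy
  exact ⟨a, ha⟩

/-- There is the isomorphism `ℤ[i] → 𝓞 (ℚ(i))`: `ℤ[i]` is integrally closed (it is a Euclidean domain)
and its fraction field is `ℚ(i)` (`exists_div_of_mem_QI`). -/
lemma exists_gi : ∃ g : GaussianInt ≃+* 𝓞 QI, ∀ a : GaussianInt, (((g a : 𝓞 QI) : QI) : ℂ) = a := by
  let f : GaussianInt →+* 𝓞 QI :=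
    { toFun := fun a => ⟨D7_f a, D7_integral a⟩
      map_one' := by apply RingOfIntegers.ext; exact map_one D7_f
      map_zero' := by apply RingOfIntegers.ext; exact map_zero D7_f
      map_add' := by intro a b; apply RingOfIntegers.ext; exact map_add D7_f a b
      map_mul' := by intro a b; apply RingOfIntegers.ext; exact map_mul D7_f a b }
  have hf : ∀ a, ((f a : 𝓞 QI) : QI) = D7_f a := fun a => rfl
  have hbij : Function.Bijective f := by
    constructor
    · intro a b hab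
      apply D7_f_inj
      rw [← hf, ← hf, hab]
    · intro y
      obtain ⟨a, ha⟩ := D7_surj y
      refine ⟨a, ?_⟩
      apply RingOfIntegers.ext
      rw [hf, ha]
  refine ⟨RingEquiv.ofBijective f hbij, ?_⟩
  intro a
  show (((f a : 𝓞 QI) : QI) : ℂ) = a
  rw [hf]
  rfl

/-- the isomorphism `ℤ[i] → 𝓞 (ℚ(i))` -/
noncomputable def gi : GaussianInt ≃+* 𝓞 QI := exists_gi.choose

lemma gi_coe (a : GaussianInt) : (((gi a : 𝓞 QI) : QI) : ℂ) = a := exists_gi.choose_spec a

private def D7_e : GaussianInt ≃ₗ[ℤ] (Fin 2 → ℤ) where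
  toFun := fun a => ![a.re, a.im]
  invFun := fun v => ⟨v 0, v 1⟩
  left_inv := fun _ => rfl
  right_inv := fun v => by
    ext i
    fin_cases i <;> rfl
  map_add' := fun a b => by
    ext i
    fin_cases i <;> rfl
  map_smul' := fun c a => by
    ext i
    fin_cases i <;> simp

private noncomputable def D7_basis : Module.Basis (Fin 2) ℤ GaussianInt :=
  Module.Basis.ofEquivFun D7_e

private lemma D7_norm (a : GaussianInt) : Algebra.norm ℤ a = a.norm := by
  have hs : ∀ v : Fin 2 → ℤ, D7_e.symm v = ⟨v 0, v 1⟩ := fun v => rfl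
  have b0 : D7_basis 0 = (⟨1, 0⟩ : GaussianInt) := by
    rw [D7_basis, Module.Basis.coe_ofEquivFun]
    show D7_e.symm (Pi.single 0 1) = _
    rw [hs]
    simp
  have b1 : D7_basis 1 = (⟨0, 1⟩ : GaussianInt) := by
    rw [D7_basis, Module.Basis.coe_ofEquivFun]
    show D7_e.symm (Pi.single 1 1) = _
    rw [hs]
    simp
  have hr : ∀ x : GaussianInt, D7_basis.repr x 0 = x.re ∧ D7_basis.repr x 1 = x.im := by
    intro x
    constructor <;> rw [D7_basis, Module.Basis.ofEquivFun_repr_apply] <;> rfl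
  rw [Algebra.norm_eq_matrix_det D7_basis a, Matrix.det_fin_two]
  simp only [Algebra.leftMulMatrix_eq_repr_mul, b0, b1, (hr _).1, (hr _).2]
  simp [Zsqrtd.norm]

/-- The number of residue classes modulo `a ≠ 0` in `ℤ[i]` is the norm `a a'`. (For instance:
`Ideal.absNorm_span_singleton` and `Algebra.norm ℤ a = a.norm` computed in the basis `1, i`.) -/
lemma card_quot (a : GaussianInt) (ha : a ≠ 0) :
    Nat.card (GaussianInt ⧸ Ideal.span {a}) = gN a := by
  have h1 : Module.Free ℤ GaussianInt := Module.Free.of_basis D7_basis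
  have h2 : Module.Finite ℤ GaussianInt := Module.Finite.of_basis D7_basis
  have h3 := Ideal.absNorm_span_singleton a
  rw [Ideal.absNorm_apply, Submodule.cardQuot_apply, D7_norm] at h3
  exact h3

/-- The primes of `ℚ(i)` are generated by the Gaussian primes. -/
theorem exists_prime_pn (p : PrI QI) : ∃ π : GaussianInt, Prime π ∧ pn p = gN π ∧
    ∀ a : GaussianInt, gi a ∈ p.asIdeal ↔ π ∣ a := by
  obtain ⟨π, hπ⟩ := (IsPrincipalIdealRing.principal (Ideal.comap gi p.asIdeal)).principal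
  have hπ' : Ideal.comap gi p.asIdeal = Ideal.span {π} := hπ
  have hmem : ∀ a : GaussianInt, gi a ∈ p.asIdeal ↔ π ∣ a := by
    intro a
    rw [← Ideal.mem_span_singleton, ← hπ', Ideal.mem_comap]
  have hπ0 : π ≠ 0 := by
    rintro rfl
    apply p.ne_bot
    rw [Submodule.eq_bot_iff]
    intro x hx
    obtain ⟨a, rfl⟩ := gi.surjective x
    rw [zero_dvd_iff.mp ((hmem a).mp hx), map_zero]
  have hprime : (Ideal.span {π} : Ideal GaussianInt).IsPrime := by
    rw [← hπ']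
    have := p.isPrime
    exact Ideal.comap_isPrime _ _
  refine ⟨π, (Ideal.span_singleton_prime hπ0).mp hprime, ?_, hmem⟩
  rw [← card_quot π hπ0]
  unfold pn
  rw [Ideal.absNorm_apply, Submodule.cardQuot_apply]
  refine Nat.card_congr (Ideal.quotientEquiv (Ideal.span {π}) p.asIdeal gi ?_).toEquiv.symm
  rw [← hπ']
  exact (Ideal.map_comap_of_surjective gi gi.surjective p.asIdeal).symm

/-- Valuation rings over `P` and Gaussian integers. -/
theorem OverP.gauss {E : IntermediateField QI ℂ} [NumberField E] {P : PrI E}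
    {V : ValuationSubring ℂ} (h : OverP P V) (a : GaussianInt) :
    V.valuation (a : ℂ) < 1 ↔ gi a ∈ (und QI P).asIdeal := by
  have h1 := h.lt (algebraMap (𝓞 QI) (𝓞 E) (gi a))
  have e : algebraMap E ℂ ((algebraMap (𝓞 QI) (𝓞 E) (gi a) : 𝓞 E) : E) = (a : ℂ) := by
    rw [← gi_coe a]
    rfl
  rw [e] at h1
  exact h1

end Pool.Agent.STg
end

section

/-!
# Square roots of the values of `X` at odd torsion points
-/

open Complex Pool.Agent.STg

namespace Pool.Agent.STh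

/-- elements of `Lam` have integral real and imaginary parts -/
lemma Lam_re {z : ℂ} (h : z ∈ Lam) : ∃ a b : ℤ, z.re = a ∧ z.im = b := by
  obtain ⟨a, rfl⟩ := h
  refine ⟨a.re, a.im, ?_, ?_⟩
  · simp
  · simp

lemma Lam_I {z : ℂ} (h : z ∈ Lam) : I * z ∈ Lam := by
  have h1 := Lam_mul ⟨0, 1⟩ h
  have e : (((⟨0, 1⟩ : GaussianInt)) : ℂ) = I := by
    rw [GaussianInt.toComplex_def']
    simp
  rwa [e] at h1

lemma Lam_one_I {z : ℂ} (h : z ∈ Lam) : (1 + I) * z ∈ Lam := by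
  rw [add_mul, one_mul]
  exact Lam_add h (Lam_I h)

lemma Lam_nat (n : ℕ) {z : ℂ} (h : z ∈ Lam) : (n : ℂ) * z ∈ Lam := by
  have h1 := Lam_mul (n : GaussianInt) h
  rwa [map_natCast] at h1

lemma Lam_int (n : ℤ) {z : ℂ} (h : z ∈ Lam) : (n : ℂ) * z ∈ Lam := by
  have h1 := Lam_mul (n : GaussianInt) h
  rwa [map_intCast] at h1

lemma Lam_one : (1 : ℂ) ∈ Lam := ⟨1, map_one _⟩

/-- odd multiples of `(1 + i) / 4` are not in the lattice -/
lemma c_notMem {m : ℕ} (hm : Odd m) : (m : ℂ) * ((1 + I) / 4) ∉ Lam := by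
  intro h
  obtain ⟨a, b, ha, hb⟩ := Lam_re h
  have h1 : ((m : ℂ) * ((1 + I) / 4)).re = (m : ℝ) / 4 := by
    have e : (m : ℂ) * ((1 + I) / 4) = (((m : ℝ) / 4 : ℝ) : ℂ) + (((m : ℝ) / 4 : ℝ) : ℂ) * I := by
      push_cast
      ring
    rw [e]
    simp
  rw [h1] at ha
  have h2 : (m : ℝ) = 4 * (a : ℝ) := by linarith
  have h3 : (m : ℤ) = 4 * a := by exact_mod_cast h2
  obtain ⟨k, hk⟩ := hm
  omega

/-- odd multiples of `i / 2` are not in the lattice -/
lemma hI_notMem {m : ℕ} (hm : Odd m) : (m : ℂ) * (I / 2) ∉ Lam := by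
  intro h
  obtain ⟨a, b, ha, hb⟩ := Lam_re h
  have h1 : ((m : ℂ) * (I / 2)).im = (m : ℝ) / 2 := by
    have e : (m : ℂ) * (I / 2) = (((m : ℝ) / 2 : ℝ) : ℂ) * I := by
      push_cast
      ring
    rw [e]
    simp
  rw [h1] at hb
  have h2 : (m : ℝ) = 2 * (b : ℝ) := by linarith
  have h3 : (m : ℤ) = 2 * b := by exact_mod_cast h2
  obtain ⟨k, hk⟩ := hm
  omega

lemma half_notMem {m : ℕ} (hm : Odd m) : (m : ℂ) * (1 / 2) ∉ Lam := by
  intro h
  have h1 := Lam_I h
  have e : I * ((m : ℂ) * (1 / 2)) = (m : ℂ) * (I / 2) := by ring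
  rw [e] at h1
  exact hI_notMem hm h1

lemma w0_notMem' {m : ℕ} (hm : Odd m) : (m : ℂ) * ((1 + I) / 2) ∉ Lam := by
  intro h
  obtain ⟨a, b, ha, hb⟩ := Lam_re h
  have h1 : ((m : ℂ) * ((1 + I) / 2)).re = (m : ℝ) / 2 := by
    have e : (m : ℂ) * ((1 + I) / 2) = (((m : ℝ) / 2 : ℝ) : ℂ) + (((m : ℝ) / 2 : ℝ) : ℂ) * I := by
      push_cast
      ring
    rw [e]
    simp
  rw [h1] at ha
  have h2 : (m : ℝ) = 2 * (a : ℝ) := by linarith
  have h3 : (m : ℤ) = 2 * a := by exact_mod_cast h2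
  obtain ⟨k, hk⟩ := hm
  omega

/-- if `m z` is in the lattice and `m p` is not then `z + p` and `z - p` are not in the lattice -/
lemma notMem_add {m : ℕ} {z p : ℂ} (hz : (m : ℂ) * z ∈ Lam) (hp : (m : ℂ) * p ∉ Lam) :
    z + p ∉ Lam := by
  intro h
  apply hp
  have h1 := Lam_sub (Lam_nat m h) hz
  have e : (m : ℂ) * (z + p) - (m : ℂ) * z = (m : ℂ) * p := by ring
  rwa [e] at h1

lemma notMem_sub {m : ℕ} {z p : ℂ} (hz : (m : ℂ) * z ∈ Lam) (hp : (m : ℂ) * p ∉ Lam) :
    z - p ∉ Lam := by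
  intro h
  apply hp
  have h1 := Lam_sub hz (Lam_nat m h)
  have e : (m : ℂ) * z - (m : ℂ) * (z - p) = (m : ℂ) * p := by ring
  rwa [e] at h1

lemma two_notMem {m : ℕ} (hm : Odd m) {z : ℂ} (hz : z ∉ Lam) (hmz : (m : ℂ) * z ∈ Lam) :
    2 * z ∉ Lam := by
  intro h
  apply hz
  obtain ⟨k, hk⟩ := hm
  have h1 := Lam_sub hmz (Lam_nat k h)
  have e : (m : ℂ) * z - (k : ℂ) * (2 * z) = z := by
    rw [hk]
    push_cast
    ring
  rwa [e] at h1

lemma oneI_notMem {m : ℕ} (hm : Odd m) {z : ℂ} (hz : z ∉ Lam) (hmz : (m : ℂ) * z ∈ Lam) :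
    (1 + I) * z ∉ Lam := by
  intro h
  apply two_notMem hm hz hmz
  have h1 := Lam_sub h (Lam_I h)
  have e : (1 + I) * z - I * ((1 + I) * z) = 2 * z := by
    linear_combination (-z) * I_sq
  rwa [e] at h1

section X

variable (D : LemData)

/-- `X ((1 + i) / 4) = - i` -/
lemma X_c : D.X ((1 + I) / 4) = -I := by
  have hc : ((1 + I) / 4 : ℂ) ∉ Lam := by
    have := c_notMem (m := 1) odd_one
    rwa [Nat.cast_one, one_mul] at this
  have h2 : (1 + I) * ((1 + I) / 4) = I * (1 / 2) := by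
    linear_combination (1 / 4 : ℂ) * I_sq
  have hc2 : (1 + I) * ((1 + I) / 4) ∉ Lam := by
    rw [h2]
    have := hI_notMem (m := 1) odd_one
    rw [Nat.cast_one, one_mul] at this
    have e : I * (1 / 2) = I / 2 := by ring
    rwa [e]
  have h3 := D.X_oneI _ hc hc2
  rw [h2, D.X_I, D.X_half] at h3
  have h4 : (D.X ((1 + I) / 4) + I) ^ 2 = 0 := by
    linear_combination (-1 : ℂ) * h3 + I_sq
  have h5 := pow_eq_zero_iff (two_ne_zero) |>.1 h4
  linear_combination h5

/-- `X (u + i / 2) (1 + X u) = 1 - X u` -/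
lemma X_add_hI {u : ℂ} (hu : u ∉ Lam) (hu2 : u + I / 2 ∉ Lam) :
    D.X (u + I / 2) * (1 + D.X u) = 1 - D.X u := by
  have h1 : -I * u ∉ Lam := by
    intro h
    apply hu
    have := Lam_I h
    have e : I * (-I * u) = u := by linear_combination (-u) * I_sq
    rwa [e] at this
  have h2 : -I * u + 1 / 2 ∉ Lam := by
    intro h
    apply hu2
    have := Lam_I h
    have e : I * (-I * u + 1 / 2) = u + I / 2 := by linear_combination (-u) * I_sq
    rwa [e] at this
  have h3 := D.X_add_half _ h1 h2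
  have e1 : D.X (-I * u) = -D.X u := by
    rw [neg_mul, D.X_neg, D.X_I]
  have e2 : D.X (-I * u + 1 / 2) = -D.X (u + I / 2) := by
    have e3 : I * (-I * u + 1 / 2) = u + I / 2 := by linear_combination (-u) * I_sq
    rw [← e3, D.X_I, neg_neg]
  rw [e1, e2] at h3
  linear_combination h3

/-- `x ≠ 0, 1, -1` -/
lemma X_cube_ne {m : ℕ} (hm : Odd m) {z : ℂ} (hz : z ∉ Lam) (hmz : (m : ℂ) * z ∈ Lam) :
    D.X z ^ 3 - D.X z ≠ 0 := by
  have h0 : D.X z ≠ 0 := by
    intro h
    have h1 := D.X_add_w0 z hz (notMem_add hmz (w0_notMem' hm))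
    rw [h, mul_zero] at h1
    norm_num at h1
  have h1 : D.X z ≠ 1 := by
    intro h
    have h1 := D.X_add_half z hz (notMem_add hmz (half_notMem hm))
    rw [h] at h1
    norm_num at h1
  have h2 : D.X z ≠ -1 := by
    intro h
    have h1 := X_add_hI D hz (notMem_add hmz (hI_notMem hm))
    rw [h] at h1
    norm_num at h1
  intro h
  have h3 : D.X z * ((D.X z - 1) * (D.X z + 1)) = 0 := by linear_combination h
  rcases mul_eq_zero.1 h3 with h4 | h4
  · exact h0 h4
  · rcases mul_eq_zero.1 h4 with h5 | h5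
    · exact h1 (sub_eq_zero.1 h5)
    · exact h2 (eq_neg_of_add_eq_zero_left h5)

/-- **the ordinate** `y = (X (z + c) - X (z - c)) (X z + i) ^ 2 / (4 (1 + i))`, `c = (1 + i) / 4` -/
lemma exists_y {m : ℕ} (hm : Odd m) {z : ℂ} (hz : z ∉ Lam) (hmz : (m : ℂ) * z ∈ Lam) :
    ((D.X (z + (1 + I) / 4) - D.X (z - (1 + I) / 4)) * (D.X z + I) ^ 2 / (4 * (1 + I))) ^ 2 =
      D.X z ^ 3 - D.X z := by
  have hp : z + (1 + I) / 4 ∉ Lam := notMem_add hmz (c_notMem hm)
  have hq : z - (1 + I) / 4 ∉ Lam := notMem_sub hmz (c_notMem hm)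
  have hz1 : (1 + I) * z ∉ Lam := oneI_notMem hm hz hmz
  have hmz1 : (m : ℂ) * ((1 + I) * z) ∈ Lam := by
    have := Lam_one_I hmz
    have e : (1 + I) * ((m : ℂ) * z) = (m : ℂ) * ((1 + I) * z) := by ring
    rwa [e] at this
  have hab : D.X (z + (1 + I) / 4) * D.X (z - (1 + I) / 4) = -1 := by
    have e : z - (1 + I) / 4 + (1 + I) / 2 = z + (1 + I) / 4 := by ring
    have h1 := D.X_add_w0 (z - (1 + I) / 4) hq (by rw [e]; exact hp)
    rwa [e] at h1
  have hu2 : (1 + I) * z + I / 2 ∉ Lam := notMem_add hmz1 (hI_notMem hm)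
  have e1 : (1 + I) * (z + (1 + I) / 4) = (1 + I) * z + I / 2 := by
    linear_combination (1 / 4 : ℂ) * I_sq
  have h1 := D.X_oneI (z + (1 + I) / 4) hp (by rw [e1]; exact hu2)
  rw [e1] at h1
  have h2 := D.X_oneI z hz hz1
  have h3 := X_add_hI D hz1 hu2
  have hx := X_cube_ne D hm hz hmz
  generalize D.X (z + (1 + I) / 4) = a at *
  generalize D.X (z - (1 + I) / 4) = b at *
  generalize D.X ((1 + I) * z + I / 2) = s at *
  generalize D.X ((1 + I) * z) = t at *
  generalize D.X z = x at *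
  have hI : I ^ 2 = -1 := I_sq
  have hx0 : x ≠ 0 := by
    rintro rfl
    apply hx
    ring
  have ha0 : a ≠ 0 := by
    rintro rfl
    rw [zero_mul] at hab
    norm_num at hab
  -- `s (x + i) ^ 2 = - (x - i) ^ 2`
  have h4 : s * (x + I) ^ 2 = -(x - I) ^ 2 := by
    have h5 : (2 * I * x) * (s * (1 + t)) = (2 * I * x) * (1 - t) := by rw [h3]
    linear_combination h5 - (s + 1) * h2 + (s + 1) * hI
  -- `a - 1 / a = 2 i s`
  have h5 : b = -1 / a := by
    rw [eq_div_iff ha0]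
    linear_combination hab
  have h6 : a ^ 2 - 1 = 2 * I * s * a := by linear_combination -h1
  have h7 : ((a - b) * (x + I) ^ 2) ^ 2 = 32 * I * (x ^ 3 - x) := by
    have h8 : (a - b) ^ 2 = (2 * I * s) ^ 2 + 4 := by
      have h9 : a + b = 2 * I * s := by
        apply mul_right_cancel₀ ha0
        linear_combination h6 + hab
      have h10 : (a - b) ^ 2 = (a + b) ^ 2 - 4 * (a * b) := by ring
      rw [h10, h9, hab]
      ring
    have h11 : ((a - b) * (x + I) ^ 2) ^ 2 = (a - b) ^ 2 * ((x + I) ^ 2) ^ 2 := by ring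
    rw [h11, h8]
    have h12 : ((2 * I * s) ^ 2 + 4) * ((x + I) ^ 2) ^ 2 =
        4 * I ^ 2 * (s * (x + I) ^ 2) ^ 2 + 4 * ((x + I) ^ 2) ^ 2 := by ring
    rw [h12, h4, hI]
    ring_nf
    have hI3 : I ^ 3 = -I := by linear_combination I * hI
    rw [hI3]
    ring
  have h8 : (4 * (1 + I)) ^ 2 = 32 * I := by
    linear_combination (16 : ℂ) * hI
  rw [div_pow, h7, h8]
  field_simp

/-- `X (2 z) (4 (x ^ 3 - x)) = (x ^ 2 + 1) ^ 2` -/
lemma X_two {m : ℕ} (hm : Odd m) {z : ℂ} (hz : z ∉ Lam) (hmz : (m : ℂ) * z ∈ Lam) :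
    D.X (2 * z) * (4 * (D.X z ^ 3 - D.X z)) = (D.X z ^ 2 + 1) ^ 2 := by
  have hz1 : (1 + I) * z ∉ Lam := oneI_notMem hm hz hmz
  have hz2 : 2 * z ∉ Lam := two_notMem hm hz hmz
  have e1 : (1 + I) * ((1 + I) * z) = I * (2 * z) := by linear_combination z * I_sq
  have hz3 : (1 + I) * ((1 + I) * z) ∉ Lam := by
    rw [e1]
    intro h
    apply hz2
    have h1 := Lam_neg (Lam_I h)
    have e : -(I * (I * (2 * z))) = 2 * z := by linear_combination (-(2 * z)) * I_sq
    rwa [e] at h1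
  have h1 := D.X_oneI z hz hz1
  have h2 := D.X_oneI _ hz1 hz3
  rw [e1, D.X_I] at h2
  have hx := X_cube_ne D hm hz hmz
  generalize D.X (2 * z) = s at *
  generalize D.X ((1 + I) * z) = t at *
  generalize D.X z = x at *
  have hI : I ^ 2 = -1 := I_sq
  have hx0 : x ≠ 0 := by
    rintro rfl
    apply hx
    ring
  have h3 : (-s * (2 * I * t)) * (2 * I * x) ^ 2 = (t ^ 2 - 1) * (2 * I * x) ^ 2 := by rw [h2]
  have h4 : (t ^ 2 - 1) * (2 * I * x) ^ 2 = (t * (2 * I * x)) ^ 2 - (2 * I * x) ^ 2 := by ring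
  have h5 : (-s * (2 * I * t)) * (2 * I * x) ^ 2 = -s * (2 * I) * (t * (2 * I * x)) * (2 * I * x) := by
    ring
  rw [h4, h5, h1] at h3
  linear_combination h3 + (4 * s * x * (x ^ 2 - 1)) * hI - 4 * x ^ 2 * hI

/-- **Square roots**: `X u` is a square in every field containing the values of `X` at the `4 m`-torsion
points, for the `m`-torsion points `u`, `m` odd. -/
lemma exists_sqrt {m : ℕ} (hm : Odd m) {F : IntermediateField QI ℂ}
    (hF : ∀ w : ℂ, w ∉ Lam → ((4 * m : ℕ) : ℂ) * w ∈ Lam → D.X w ∈ F)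
    {u : ℂ} (hu : u ∉ Lam) (hmu : (m : ℂ) * u ∈ Lam) : ∃ ρ ∈ F, ρ ^ 2 = D.X u := by
  obtain ⟨k, hk⟩ := id hm
  -- `u = 2 z` modulo the lattice
  have hmz : (m : ℂ) * (((k + 1 : ℕ) : ℂ) * u) ∈ Lam := by
    have := Lam_nat (k + 1) hmu
    have e : ((k + 1 : ℕ) : ℂ) * ((m : ℂ) * u) = (m : ℂ) * (((k + 1 : ℕ) : ℂ) * u) := by ring
    rwa [e] at this
  have hXz : D.X (2 * (((k + 1 : ℕ) : ℂ) * u)) = D.X u := by
    obtain ⟨a, ha⟩ := hmu
    have ha' : (a : ℂ) = (m : ℂ) * u := ha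
    have e : 2 * (((k + 1 : ℕ) : ℂ) * u) = u + (a : ℂ) := by
      rw [ha', hk]
      push_cast
      ring
    rw [e, D.X_add]
  have hz : ((k + 1 : ℕ) : ℂ) * u ∉ Lam := by
    intro h
    apply hu
    have h1 := Lam_sub (Lam_nat 2 h) hmu
    have e : ((2 : ℕ) : ℂ) * (((k + 1 : ℕ) : ℂ) * u) - (m : ℂ) * u = u := by
      rw [hk]
      push_cast
      ring
    rwa [e] at h1
  set z : ℂ := ((k + 1 : ℕ) : ℂ) * u with hzdef
  have h4 : ∀ w : ℂ, (m : ℂ) * w ∈ Lam → ((4 * m : ℕ) : ℂ) * w ∈ Lam := by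
    intro w hw
    have := Lam_nat 4 hw
    have e : ((4 : ℕ) : ℂ) * ((m : ℂ) * w) = ((4 * m : ℕ) : ℂ) * w := by
      push_cast
      ring
    rwa [e] at this
  have hc4 : ((4 * m : ℕ) : ℂ) * ((1 + I) / 4) ∈ Lam := by
    have h1 := Lam_nat m (Lam_one_I Lam_one)
    have e : (m : ℂ) * ((1 + I) * 1) = ((4 * m : ℕ) : ℂ) * ((1 + I) / 4) := by
      push_cast
      ring
    rwa [e] at h1
  have hIF : I ∈ F := F.algebraMap_mem (⟨I, I_mem_QI⟩ : QI)
  have h1F : (1 : ℂ) ∈ F := F.one_mem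
  have hxF : D.X z ∈ F := hF z hz (h4 z hmz)
  have haF : D.X (z + (1 + I) / 4) ∈ F := by
    refine hF _ (notMem_add hmz (c_notMem hm)) ?_
    rw [mul_add]
    exact Lam_add (h4 z hmz) hc4
  have hbF : D.X (z - (1 + I) / 4) ∈ F := by
    refine hF _ (notMem_sub hmz (c_notMem hm)) ?_
    rw [mul_sub]
    exact Lam_sub (h4 z hmz) hc4
  have hy := exists_y D hm hz hmz
  have h2 := X_two D hm hz hmz
  rw [hXz] at h2
  have hx := X_cube_ne D hm hz hmz
  set y : ℂ := (D.X (z + (1 + I) / 4) - D.X (z - (1 + I) / 4)) * (D.X z + I) ^ 2 / (4 * (1 + I))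
    with hydef
  have h2F : (2 : ℂ) ∈ F := by
    have := F.add_mem h1F h1F
    rwa [one_add_one_eq_two] at this
  have h4F : (4 : ℂ) ∈ F := by
    have := F.add_mem h2F h2F
    have e : (2 : ℂ) + 2 = 4 := by norm_num
    rwa [e] at this
  have hyF : y ∈ F := by
    rw [hydef]
    exact F.div_mem (F.mul_mem (F.sub_mem haF hbF) (pow_mem (F.add_mem hxF hIF) 2))
      (F.mul_mem h4F (F.add_mem h1F hIF))
  refine ⟨(D.X z ^ 2 + 1) / (2 * y), ?_, ?_⟩
  · exact F.div_mem (F.add_mem (pow_mem hxF 2) h1F) (F.mul_mem h2F hyF)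
  · have hy0 : y ≠ 0 := by
      intro h
      rw [h] at hy
      apply hx
      rw [← hy]
      ring
    rw [div_pow, div_eq_iff (pow_ne_zero 2 (mul_ne_zero two_ne_zero hy0))]
    rw [← h2, ← hy]
    ring

end X

end Pool.Agent.STh
end

section

/-!
# Fourth roots of odd numbers and of `2` in the torsion fields
-/

open Complex Pool.Agent.STg

namespace Pool.Agent.STh

open Classical in
/-- Let `T` be a finite set of non-zero complex numbers with `- T = T` all of whose elements are squares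
in `F`. Then the product of the squares of the elements of `T` is an eighth power in `F`. -/
lemma exists_half {F : IntermediateField QI ℂ} (T : Finset ℂ) (h0 : ∀ t ∈ T, t ≠ 0)
    (hneg : ∀ t ∈ T, -t ∈ T) (hsq : ∀ t ∈ T, ∃ ρ ∈ F, ρ ^ 2 = t) :
    ∃ R ∈ F, R ^ 8 = ∏ t ∈ T, t ^ 2 := by
  -- the square roots
  choose! ρ hρF hρ using hsq
  -- the half system
  let p : ℂ → Prop := fun t => 0 < t.im ∨ (t.im = 0 ∧ 0 < t.re)
  have hp : ∀ t : ℂ, t ≠ 0 → (¬ p t ↔ p (-t)) := by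
    intro t ht
    have h1 : ¬ (t.re = 0 ∧ t.im = 0) := by
      rintro ⟨h2, h3⟩
      exact ht (Complex.ext h2 h3)
    simp only [p, Complex.neg_im, Complex.neg_re]
    constructor
    · intro h
      push Not at h
      obtain ⟨h2, h3⟩ := h
      rcases lt_or_eq_of_le h2 with h4 | h4
      · left
        linarith
      · right
        refine ⟨by rw [h4, neg_zero], ?_⟩
        have h5 := h3 h4
        rcases lt_or_eq_of_le h5 with h6 | h6
        · linarith
        · exact absurd ⟨h6, h4⟩ h1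
    · rintro (h | ⟨h, h'⟩) (h2 | ⟨h2, h3⟩)
      · linarith
      · linarith
      · linarith
      · linarith
  have h1 : ∏ t ∈ T, t ^ 2 = (∏ t ∈ T.filter p, t ^ 2) * ∏ t ∈ T.filter (fun t => ¬ p t), t ^ 2 :=
    (Finset.prod_filter_mul_prod_filter_not T p (fun t => t ^ 2)).symm
  have h2 : ∏ t ∈ T.filter (fun t => ¬ p t), t ^ 2 = ∏ t ∈ T.filter p, t ^ 2 := by
    refine Finset.prod_nbij' (fun t => -t) (fun t => -t) ?_ ?_ ?_ ?_ ?_
    · intro t ht
      rw [Finset.mem_filter] at ht ⊢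
      exact ⟨hneg t ht.1, (hp t (h0 t ht.1)).1 ht.2⟩
    · intro t ht
      rw [Finset.mem_filter] at ht ⊢
      refine ⟨hneg t ht.1, ?_⟩
      rw [hp (-t) (neg_ne_zero.2 (h0 t ht.1)), neg_neg]
      exact ht.2
    · intro t _
      exact neg_neg t
    · intro t _
      exact neg_neg t
    · intro t _
      exact (neg_sq t).symm
  refine ⟨∏ t ∈ T.filter p, ρ t, prod_mem fun t ht => hρF t (Finset.mem_filter.1 ht).1, ?_⟩
  rw [h1, h2, ← Finset.prod_pow, ← Finset.prod_mul_distrib]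
  refine Finset.prod_congr rfl fun t ht => ?_
  have h3 := hρ t (Finset.mem_filter.1 ht).1
  calc ρ t ^ 8 = (ρ t ^ 2) ^ 2 * (ρ t ^ 2) ^ 2 := by ring
    _ = t ^ 2 * t ^ 2 := by rw [h3]

variable (D : LemData)

/-- **Fourth roots of odd numbers**: `δ m` is a fourth power, `δ ^ 4 = 1`, in every field containing the
values of `X` at the `4 m`-torsion points, `m` odd. -/
theorem exists_fourth {m : ℕ} (hm : Odd m) {F : IntermediateField QI ℂ}
    (hF : ∀ w : ℂ, w ∉ Lam → ((4 * m : ℕ) : ℂ) * w ∈ Lam → D.X w ∈ F) :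
    ∃ s ∈ F, ∃ δ : ℂ, δ ^ 4 = 1 ∧ s ^ 4 = δ * m := by
  have hgN : gN (m : GaussianInt) = m ^ 2 := by
    unfold gN
    rw [Zsqrtd.norm_natCast, pow_two, ← Nat.cast_mul, Int.natAbs_natCast]
  have hodd : gOdd (m : GaussianInt) := by
    unfold gOdd
    rw [hgN]
    exact hm.pow
  obtain ⟨c, hc, h1, -⟩ := D.X_prod (m : GaussianInt) hodd
  have hmC : (((m : GaussianInt)) : ℂ) = (m : ℂ) := map_natCast GaussianInt.toComplex m
  have hm0 : (m : ℂ) ≠ 0 := by
    rw [Nat.cast_ne_zero]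
    rintro rfl
    exact absurd hm (by decide)
  obtain ⟨R, hR, hR8⟩ := exists_half (F := F) (TFin D.X (m : GaussianInt))
    (fun t ht => D.T_ne_zero hodd ht) (by
      intro t ht
      obtain ⟨u, hu, hmu, rfl⟩ := (D.mem_TFin hodd.ne_zero t).1 ht
      refine (D.mem_TFin hodd.ne_zero _).2 ⟨I * u, ?_, ?_, D.X_I u⟩
      · intro h
        apply hu
        have h2 := Lam_neg (Lam_I h)
        have e : -(I * (I * u)) = u := by linear_combination (-u) * I_sq
        rwa [e] at h2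
      · have h2 := Lam_I hmu
        have e : I * ((((m : GaussianInt)) : ℂ) * u) = (((m : GaussianInt)) : ℂ) * (I * u) := by ring
        rwa [e] at h2) (by
      intro t ht
      obtain ⟨u, hu, hmu, rfl⟩ := (D.mem_TFin hodd.ne_zero t).1 ht
      rw [hmC] at hmu
      exact exists_sqrt D hm hF hu hmu)
  rw [← hR8, hmC] at h1
  have hR0 : R ≠ 0 := by
    rintro rfl
    norm_num at h1
  have hc2 : c ^ 2 = 1 := by
    rcases hc with rfl | rfl
    · norm_num
    · norm_num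
  have h2 : ((m : ℂ) * R ^ 4) ^ 4 = 1 := by
    have h3 : ((m : ℂ) * R ^ 4) ^ 2 = c := by
      calc ((m : ℂ) * R ^ 4) ^ 2 = c ^ 2 * ((m : ℂ) ^ 2 * R ^ 8) := by
            rw [hc2]
            ring
        _ = c * (c * (m : ℂ) ^ 2 * R ^ 8) := by ring
        _ = c := by rw [h1, mul_one]
    calc ((m : ℂ) * R ^ 4) ^ 4 = (((m : ℂ) * R ^ 4) ^ 2) ^ 2 := by ring
      _ = 1 := by rw [h3, hc2]
  refine ⟨R⁻¹, inv_mem hR, ((m : ℂ) * R ^ 4)⁻¹, ?_, ?_⟩
  · rw [inv_pow, h2, inv_one]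
  · field_simp

lemma quarter_notMem : (1 / 4 : ℂ) ∉ Lam := by
  intro h
  have h1 := Lam_nat 2 h
  have e : ((2 : ℕ) : ℂ) * (1 / 4) = ((1 : ℕ) : ℂ) * (1 / 2) := by norm_num
  rw [e] at h1
  exact half_notMem odd_one h1

lemma eighth_notMem : ((1 + I) / 8 : ℂ) ∉ Lam := by
  intro h
  have h1 := Lam_nat 2 h
  have e : ((2 : ℕ) : ℂ) * ((1 + I) / 8) = ((1 : ℕ) : ℂ) * ((1 + I) / 4) := by
    push_cast
    ring
  rw [e] at h1
  exact c_notMem odd_one h1

/-- **Fourth root of `2`**: `1 + i` is a square in every field containing the values of `X` at the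
`8`-torsion points. -/
theorem exists_sqrt_oneI {F : IntermediateField QI ℂ}
    (hF : ∀ w : ℂ, w ∉ Lam → ((8 : ℕ) : ℂ) * w ∈ Lam → D.X w ∈ F) :
    ∃ s ∈ F, s ^ 2 = 1 + I := by
  have hI : I ^ 2 = -1 := I_sq
  have hIF : I ∈ F := F.algebraMap_mem ⟨I, I_mem_QI⟩
  have hc : ((1 + I) / 4 : ℂ) ∉ Lam := by
    have := c_notMem (m := 1) odd_one
    rwa [Nat.cast_one, one_mul] at this
  -- `X (1 / 4)`
  have e1 : (1 + I) * (1 / 4 : ℂ) = (1 + I) / 4 := by ring
  have h1 := D.X_oneI (1 / 4) quarter_notMem (by rw [e1]; exact hc)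
  rw [e1, X_c D] at h1
  -- `X ((1 + i) / 8)`
  have e2 : (1 + I) * ((1 + I) / 8 : ℂ) = I * (1 / 4) := by
    linear_combination (1 / 8 : ℂ) * hI
  have hI4 : I * (1 / 4 : ℂ) ∉ Lam := by
    intro h
    apply quarter_notMem
    have h2 := Lam_neg (Lam_I h)
    have e : -(I * (I * (1 / 4 : ℂ))) = 1 / 4 := by linear_combination (-1 / 4 : ℂ) * hI
    rwa [e] at h2
  have h2 := D.X_oneI ((1 + I) / 8) eighth_notMem (by rw [e2]; exact hI4)
  rw [e2, D.X_I] at h2
  have hx : D.X (1 / 4) ∈ F := by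
    refine hF _ quarter_notMem ?_
    have e : ((8 : ℕ) : ℂ) * (1 / 4) = ((2 : ℕ) : ℂ) * 1 := by norm_num
    rw [e]
    exact Lam_nat 2 Lam_one
  have hy : D.X ((1 + I) / 8) ∈ F := by
    refine hF _ eighth_notMem ?_
    have e : ((8 : ℕ) : ℂ) * ((1 + I) / 8) = (1 + I) * 1 := by
      push_cast
      ring
    rw [e]
    exact Lam_one_I Lam_one
  generalize D.X (1 / 4) = x at *
  generalize D.X ((1 + I) / 8) = y at *
  have h3 : x ^ 2 - 2 * x - 1 = 0 := by linear_combination -h1 - 2 * x * hI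
  have h4 : (y + I * x) ^ 2 = -2 * x := by
    linear_combination (-1 : ℂ) * h2 - h3 + x ^ 2 * hI
  have hx0 : x ≠ 0 := by
    rintro rfl
    norm_num at h3
  have hρ0 : y + I * x ≠ 0 := by
    intro h
    rw [h] at h4
    apply hx0
    have h5 : x * 2 = 0 := by linear_combination h4
    exact (mul_eq_zero.1 h5).resolve_right two_ne_zero
  have hρF : y + I * x ∈ F := add_mem hy (mul_mem hIF hx)
  have h2F : (2 : ℂ) ∈ F := by
    have h := add_mem F.one_mem F.one_mem
    rwa [one_add_one_eq_two] at h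
  have h1I : (1 + I : ℂ) ≠ 0 := by
    intro h
    have h5 := congrArg Complex.im h
    simp at h5
  refine ⟨((y + I * x) + 2 * I / (y + I * x)) / 2 * (x - 1) / (1 + I), ?_, ?_⟩
  · exact div_mem (mul_mem (div_mem (add_mem hρF (div_mem (mul_mem h2F hIF) hρF)) h2F)
      (sub_mem hx F.one_mem)) (add_mem F.one_mem hIF)
  · generalize y + I * x = ρ at *
    have h5 : (ρ + 2 * I / ρ) ^ 2 = 4 * (I - 1) := by
      have h6 : (ρ + 2 * I / ρ) ^ 2 * ρ ^ 2 = 4 * (I - 1) * ρ ^ 2 := by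
        have h7 : (ρ + 2 * I / ρ) ^ 2 * ρ ^ 2 = (ρ ^ 2 + 2 * I) ^ 2 := by
          field_simp
        rw [h7, h4]
        linear_combination 4 * h3 + 4 * hI
      exact mul_right_cancel₀ (pow_ne_zero 2 hρ0) h6
    have h6 : (x - 1) ^ 2 = 2 := by linear_combination h3
    have h7 : (1 + I) ^ 2 = 2 * I := by linear_combination hI
    rw [div_pow, mul_pow, div_pow, h5, h6, h7, div_eq_iff (mul_ne_zero two_ne_zero I_ne_zero)]
    linear_combination (-2 : ℂ) * hI

end Pool.Agent.STh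
end

section

/-!
# The character of `δ`
-/

open NumberField IsDedekindDomain Pool.Agent.ST

namespace Pool.Agent.STg

open Classical in
/-- The character of `δ` on the ideals of `ℚ(i)`: `Ψ(β)` if the ideal is generated by a primary `β`
prime to `δ`, and `0` otherwise. -/
noncomputable def chiM (U : UD) (I : Ideal (𝓞 QI)) : ℤ :=
  if h : ∃ β : GaussianInt, Prim β ∧ IsCoprime β U.δ ∧ I = Ideal.span {gi β} then
    ((U.Ψ h.choose : ℤˣ) : ℤ) else 0

variable (U : UD)

lemma S4a_assoc {a b : GaussianInt} (h : Ideal.span {gi a} = Ideal.span {gi b}) :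
    Associated a b := by
  rw [Ideal.span_singleton_eq_span_singleton] at h
  have h2 := h.map (gi.symm : 𝓞 QI ≃+* GaussianInt)
  simpa using h2

lemma chiM_span {β : GaussianInt} (hβ : Prim β) (hβδ : IsCoprime β U.δ) :
    chiM U (Ideal.span {gi β}) = ((U.Ψ β : ℤˣ) : ℤ) := by
  have h : ∃ β' : GaussianInt, Prim β' ∧ IsCoprime β' U.δ ∧
      Ideal.span {gi β} = Ideal.span {gi β'} := ⟨β, hβ, hβδ, rfl⟩
  unfold chiM
  rw [dif_pos h]
  have h1 := h.choose_spec
  have h2 : h.choose = β := (Prim.eq_of_associated h1.1 hβ (S4a_assoc h1.2.2).symm)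
  rw [h2]

lemma S4a_zero {I : Ideal (𝓞 QI)} (h : ¬ ∃ β : GaussianInt, Prim β ∧ IsCoprime β U.δ ∧
    I = Ideal.span {gi β}) : chiM U I = 0 := by
  unfold chiM
  rw [dif_neg h]

lemma S4a_gen (I : Ideal (𝓞 QI)) : ∃ a : GaussianInt, I = Ideal.span {gi a} := by
  have h1 : IsPrincipalIdealRing (𝓞 QI) :=
    IsPrincipalIdealRing.of_surjective (gi : GaussianInt →+* 𝓞 QI) gi.surjective
  obtain ⟨x, hx⟩ := h1.principal I
  refine ⟨gi.symm x, ?_⟩
  rw [RingEquiv.apply_symm_apply]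
  exact hx

lemma S4a_Psi_one : U.Ψ 1 = 1 := by
  have h := U.psi.mul 1 1 prim_one prim_one isCoprime_one_left isCoprime_one_left
  rw [mul_one] at h
  exact (mul_eq_left.1 h.symm)

/-- a divisor of a primary element prime to `δ` is associated to such an element -/
lemma S4a_div {a b β : GaussianInt} (hβ : Prim β) (hβδ : IsCoprime β U.δ)
    (h : Associated (a * b) β) : ∃ a' : GaussianInt, Prim a' ∧ IsCoprime a' U.δ ∧
    Ideal.span {gi a} = Ideal.span {gi a'} := by
  have hdvd : a ∣ β := (Dvd.intro b rfl).trans h.dvd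
  have hodd : gOdd a := by
    obtain ⟨c, hc⟩ := hdvd
    have h1 := hβ.odd
    unfold gOdd at h1 ⊢
    rw [hc, gN_mul] at h1
    exact (Nat.odd_mul.1 h1).1
  obtain ⟨u, hu, hP⟩ := exists_prim_assoc hodd
  have hass : Associated a (u * a) := by
    obtain ⟨v, hv⟩ := hu
    exact ⟨v, by rw [hv, mul_comm]⟩
  refine ⟨u * a, hP, ?_, ?_⟩
  · exact (IsCoprime.of_isCoprime_of_dvd_left hβδ (hass.symm.dvd.trans hdvd))
  · rw [Ideal.span_singleton_eq_span_singleton]
    exact hass.map (gi : GaussianInt ≃+* 𝓞 QI)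

lemma cm_chiM : CM (chiM U) := by
  constructor
  · have h : (⊤ : Ideal (𝓞 QI)) = Ideal.span {gi 1} := by
      rw [map_one, Ideal.span_singleton_one]
    rw [h, chiM_span U prim_one isCoprime_one_left, S4a_Psi_one]
    rfl
  · intro I J hI hJ
    obtain ⟨a, rfl⟩ := S4a_gen I
    obtain ⟨b, rfl⟩ := S4a_gen J
    have hmul : Ideal.span {gi a} * Ideal.span {gi b} = Ideal.span {gi (a * b)} := by
      rw [Ideal.span_singleton_mul_span_singleton, map_mul]
    by_cases h1 : ∃ β : GaussianInt, Prim β ∧ IsCoprime β U.δ ∧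
        Ideal.span {gi a} = Ideal.span {gi β}
    · by_cases h2 : ∃ β : GaussianInt, Prim β ∧ IsCoprime β U.δ ∧
          Ideal.span {gi b} = Ideal.span {gi β}
      · obtain ⟨a', ha1, ha2, ha3⟩ := h1
        obtain ⟨b', hb1, hb2, hb3⟩ := h2
        rw [ha3, hb3, Ideal.span_singleton_mul_span_singleton, ← map_mul,
          chiM_span U (ha1.mul hb1) (ha2.mul_left hb2), chiM_span U ha1 ha2, chiM_span U hb1 hb2,
          U.psi.mul a' b' ha1 hb1 ha2 hb2]
        push_cast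
        rfl
      · rw [S4a_zero U h2, mul_zero]
        apply S4a_zero
        rintro ⟨β, hβ1, hβ2, hβ3⟩
        rw [hmul] at hβ3
        have h4 := S4a_assoc hβ3
        rw [mul_comm] at h4
        exact h2 (S4a_div U hβ1 hβ2 h4)
    · rw [S4a_zero U h1, zero_mul]
      apply S4a_zero
      rintro ⟨β, hβ1, hβ2, hβ3⟩
      rw [hmul] at hβ3
      exact h1 (S4a_div U hβ1 hβ2 (S4a_assoc hβ3))

lemma chiM_two (P : HeightOneSpectrum (𝓞 QI)) (h : (2 : 𝓞 QI) ∈ P.asIdeal) :
    chiM U P.asIdeal = 0 := by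
  apply S4a_zero
  rintro ⟨β, hβ1, -, hβ3⟩
  rw [hβ3, Ideal.mem_span_singleton] at h
  have h1 : β ∣ 2 := by
    have h2 := map_dvd (gi.symm : 𝓞 QI ≃+* GaussianInt) h
    rw [RingEquiv.symm_apply_apply, map_ofNat] at h2
    exact h2
  have h2 : IsUnit β := hβ1.coprime_two.isUnit_of_dvd h1
  apply P.isPrime.ne_top
  rw [hβ3, Ideal.span_singleton_eq_top]
  exact h2.map (gi : GaussianInt ≃+* 𝓞 QI)

/-- the norm of the ideal `(gi a)` is `N(a)` (`card_quot`) -/
lemma absNorm_gi {a : GaussianInt} (ha : a ≠ 0) : Ideal.absNorm (Ideal.span {gi a}) = gN a := by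
  rw [← card_quot a ha, Ideal.absNorm_apply, Submodule.cardQuot_apply]
  refine (Nat.card_congr (Ideal.quotientEquiv (Ideal.span {a}) (Ideal.span {gi a}) gi ?_).toEquiv).symm
  rw [Ideal.map_span, Set.image_singleton]
  rfl

/-- the weighted number of ideals in terms of primary elements: `cS (chiM U) n` is the sum of `Ψ(β)`
over the primary `β` prime to `δ` of norm `n` -/
lemma cS_chiM (n : ℕ) (hn : n ≠ 0) : cS (chiM U) n =
    ∑ᶠ β ∈ {β : GaussianInt | Prim β ∧ IsCoprime β U.δ ∧ gN β = n}, ((U.Ψ β : ℤˣ) : ℤ) := by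
  set A : Set GaussianInt := {β : GaussianInt | Prim β ∧ IsCoprime β U.δ ∧ gN β = n} with hA
  have hne : ∀ β ∈ A, β ≠ 0 := by
    rintro β ⟨-, -, h3⟩ rfl
    apply hn
    rw [← h3]
    rfl
  have hinj : Set.InjOn (fun β : GaussianInt => Ideal.span {gi β}) A := by
    intro a ha b hb hab
    exact Prim.eq_of_associated ha.1 hb.1 (S4a_assoc hab)
  have h1 : ∑ᶠ β ∈ A, ((U.Ψ β : ℤˣ) : ℤ) =
      ∑ᶠ I ∈ (fun β : GaussianInt => Ideal.span {gi β}) '' A, chiM U I := by
    rw [finsum_mem_image hinj]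
    exact finsum_mem_congr rfl fun β hβ => (chiM_span U hβ.1 hβ.2.1).symm
  rw [h1]
  unfold cS
  apply finsum_mem_inter_support_eq
  ext I
  simp only [Set.mem_inter_iff, Set.mem_setOf_eq, Function.mem_support, Set.mem_image]
  constructor
  · rintro ⟨hI, hχ⟩
    refine ⟨?_, hχ⟩
    by_contra hcon
    apply hχ
    apply S4a_zero
    rintro ⟨β, hβ1, hβ2, hβ3⟩
    apply hcon
    refine ⟨β, ⟨hβ1, hβ2, ?_⟩, hβ3.symm⟩
    have hβ0 : β ≠ 0 := by
      rintro rfl
      apply hn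
      rw [← hI, hβ3, map_zero, Ideal.span_singleton_zero, Ideal.absNorm_bot]
    rw [← absNorm_gi hβ0, ← hβ3, hI]
  · rintro ⟨⟨β, hβ, rfl⟩, hχ⟩
    refine ⟨?_, hχ⟩
    rw [absNorm_gi (hne β hβ)]
    exact hβ.2.2

/-- norms of primary elements are `1` modulo `4` -/
lemma cS_chiM_three {n : ℕ} (hn : n % 4 = 3) : cS (chiM U) n = 0 := by
  rw [cS_chiM U n (by omega)]
  have h : {β : GaussianInt | Prim β ∧ IsCoprime β U.δ ∧ gN β = n} = ∅ := by
    rw [Set.eq_empty_iff_forall_notMem]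
    rintro β ⟨h1, -, h3⟩
    have := h1.gN_mod
    omega
  rw [h, finsum_mem_empty]

end Pool.Agent.STg
end
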