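import Pool.Agent.Lib.MP_1ef7cf_nt_g.D1
import Pool.Agent.Lib.MP_1ef7cf_nt_g.D2a
import Pool.Agent.Lib.MP_1ef7cf_nt_g.D2b
import Pool.Agent.Lib.MP_1ef7cf_nt_g.Mg.G030
import Pool.Agent.Lib.MP_1ef7cf_nt_g.Mg.G035
import Pool.Agent.Lib.MP_1ef7cf_nt_h.Q1
import Pool.Agent.Lib.MP_1ef7cf_nt_g.Mg.G024

section

/-!
# The identity of polynomials
-/

open Complex Polynomial

namespace Pool.Agent.STg

variable (D : LemData)

/-- The identity of polynomials obtained from `X_prod` and the ladder at the infinitely many values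
`X z`, `z = (n + 1) √2` (`nt_sqrt`, `X_sqrt_injective`). -/
lemma LemData.poly_identity {β : GaussianInt} (hβ : gOdd β) : ∃ (A B : Polynomial QI) (c : ℂ),
    B ≠ 0 ∧ c ≠ 0 ∧
    A.map (algebraMap QI ℂ) * ∏ t ∈ TFin D.X β, (Polynomial.X - C t) ^ 2 =
      (C c * Polynomial.X * ∏ t ∈ TFin D.X β, (1 + C t * Polynomial.X) ^ 2) *
        B.map (algebraMap QI ℂ) := by
  obtain ⟨A, B, hAB⟩ := D.isRat hβ.ne_zero
  obtain ⟨c, hc, _, hX⟩ := D.X_prod β hβ
  have hc0 : c ≠ 0 := by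
    rcases hc with rfl | rfl
    · exact one_ne_zero
    · exact neg_ne_zero.2 one_ne_zero
  refine ⟨A, B, c, ?_, hc0, ?_⟩
  · rintro rfl
    have h := (hAB _ (nt_sqrt 0)).1
    rw [map_zero] at h
    exact h rfl
  · refine Polynomial.eq_of_infinite_eval_eq _ _ ?_
    refine (Set.infinite_range_of_injective D.X_sqrt_injective).mono ?_
    rintro _ ⟨n, rfl⟩
    have hz := nt_sqrt n
    obtain ⟨_, h2⟩ := hAB _ hz
    have h3 := hX _ (hz β hβ.ne_zero)
    simp only [Set.mem_ofPred_eq, Polynomial.eval_mul, Polynomial.eval_map_algebraMap,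
      Polynomial.eval_prod, Polynomial.eval_pow, Polynomial.eval_sub, Polynomial.eval_X,
      Polynomial.eval_C, Polynomial.eval_add, Polynomial.eval_one]
    rw [← h2]
    linear_combination (aeval (D.X (((n : ℂ) + 1) * (Real.sqrt 2 : ℂ))) B) * h3

end Pool.Agent.STg
end

section

/-!
# The polynomials `∏ (x - t) ^ 2` have coefficients in `ℚ(i)`
-/

open Complex Polynomial

namespace Pool.Agent.STg

variable (D : LemData)

theorem LemData.exists_den {β : GaussianInt} (hβ : gOdd β) : ∃ q : Polynomial QI,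
    q.map (algebraMap QI ℂ) = ∏ t ∈ TFin D.X β, (Polynomial.X - C t) ^ 2 := by
  obtain ⟨A, B, c, hB, hc, h⟩ := D.poly_identity hβ
  exact exists_descent hB (Polynomial.monic_prod_of_monic _ _
    (fun t _ => (Polynomial.monic_X_sub_C t).pow 2)) (D.coprime_den hβ c hc) h

end Pool.Agent.STg
end

section

/-!
# The quartic symbol on the ideals of `ℚ(i)`
-/

open NumberField IsDedekindDomain Pool.Agent.ST

namespace Pool.Agent.STh

open Pool.Agent.STg

/-! Adapt `MP_1ef7cf_nt_g/S4a.lean` (`δ` there is `n` here, `Ψ` is `κ`). `S4a_assoc`, `S4a_gen`, `absNorm_gi` are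
general. -/

open Classical in
/-- The quartic symbol on the ideals of `ℚ(i)`: `κ(β)` if the ideal is generated by a primary `β`
prime to `n`, and `0` otherwise. -/
noncomputable def chiM (U : UD) (I : Ideal (𝓞 QI)) : ℂ :=
  if h : ∃ β : GaussianInt, Prim β ∧ IsCoprime β ((U.n : ℕ) : GaussianInt) ∧
    I = Ideal.span {gi β} then (((U.κ h.choose : GaussianIntˣ) : GaussianInt) : ℂ) else 0

/-- the sum of the real parts of `κ(β)` over the primary `β` prime to `n` of norm `l` -/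
noncomputable def cM (U : UD) (l : ℕ) : ℤ :=
  ∑ᶠ β ∈ {β : GaussianInt | Prim β ∧ IsCoprime β ((U.n : ℕ) : GaussianInt) ∧ gN β = l},
    ((U.κ β : GaussianIntˣ) : GaussianInt).re

variable (U : UD)

lemma chiM_span {β : GaussianInt} (hβ : Prim β) (hβn : IsCoprime β ((U.n : ℕ) : GaussianInt)) :
    chiM U (Ideal.span {gi β}) = (((U.κ β : GaussianIntˣ) : GaussianInt) : ℂ) := by
  have h : ∃ β' : GaussianInt, Prim β' ∧ IsCoprime β' ((U.n : ℕ) : GaussianInt) ∧
      Ideal.span {gi β} = Ideal.span {gi β'} := ⟨β, hβ, hβn, rfl⟩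
  unfold chiM
  rw [dif_pos h]
  have h1 := h.choose_spec
  have h2 : h.choose = β := (Prim.eq_of_associated h1.1 hβ (S4a_assoc h1.2.2).symm)
  rw [h2]

lemma S4a_zero' {I : Ideal (𝓞 QI)} (h : ¬ ∃ β : GaussianInt, Prim β ∧
    IsCoprime β ((U.n : ℕ) : GaussianInt) ∧ I = Ideal.span {gi β}) : chiM U I = 0 := by
  unfold chiM
  rw [dif_neg h]

/-- a divisor of a primary element prime to `n` is associated to such an element -/
lemma S4a_div' {a b β : GaussianInt} (hβ : Prim β) (hβn : IsCoprime β ((U.n : ℕ) : GaussianInt))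
    (h : Associated (a * b) β) : ∃ a' : GaussianInt, Prim a' ∧
    IsCoprime a' ((U.n : ℕ) : GaussianInt) ∧ Ideal.span {gi a} = Ideal.span {gi a'} := by
  have hdvd : a ∣ β := (Dvd.intro b rfl).trans h.dvd
  have hodd : gOdd a := by
    obtain ⟨c, hc⟩ := hdvd
    have h1 := hβ.odd
    unfold gOdd at h1 ⊢
    rw [hc, gN_mul] at h1
    exact (Nat.odd_mul.1 h1).1
  obtain ⟨u, hu, hP⟩ := exists_prim_assoc hodd
  have hass : Associated a (u * a) := by
    obtain ⟨v, hv⟩ := hu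
    exact ⟨v, by rw [hv, mul_comm]⟩
  refine ⟨u * a, hP, ?_, ?_⟩
  · exact (IsCoprime.of_isCoprime_of_dvd_left hβn (hass.symm.dvd.trans hdvd))
  · rw [Ideal.span_singleton_eq_span_singleton]
    exact hass.map (gi : GaussianInt ≃+* 𝓞 QI)

lemma cm_chiM : CM (chiM U) := by
  constructor
  · have h : (⊤ : Ideal (𝓞 QI)) = Ideal.span {gi 1} := by
      rw [map_one, Ideal.span_singleton_one]
    rw [h, chiM_span U prim_one isCoprime_one_left, U.κ_one]
    simp
  · intro I J hI hJ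
    obtain ⟨a, rfl⟩ := S4a_gen I
    obtain ⟨b, rfl⟩ := S4a_gen J
    have hmul : Ideal.span {gi a} * Ideal.span {gi b} = Ideal.span {gi (a * b)} := by
      rw [Ideal.span_singleton_mul_span_singleton, map_mul]
    by_cases h1 : ∃ β : GaussianInt, Prim β ∧ IsCoprime β ((U.n : ℕ) : GaussianInt) ∧
        Ideal.span {gi a} = Ideal.span {gi β}
    · by_cases h2 : ∃ β : GaussianInt, Prim β ∧ IsCoprime β ((U.n : ℕ) : GaussianInt) ∧
          Ideal.span {gi b} = Ideal.span {gi β}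
      · obtain ⟨a', ha1, ha2, ha3⟩ := h1
        obtain ⟨b', hb1, hb2, hb3⟩ := h2
        rw [ha3, hb3, Ideal.span_singleton_mul_span_singleton, ← map_mul,
          chiM_span U (ha1.mul hb1) (ha2.mul_left hb2), chiM_span U ha1 ha2, chiM_span U hb1 hb2,
          U.mul a' b' (U.ne_zero_of ha2) (U.ne_zero_of hb2), Units.val_mul,
          GaussianInt.toComplex_mul]
      · rw [S4a_zero' U h2, mul_zero]
        apply S4a_zero'
        rintro ⟨β, hβ1, hβ2, hβ3⟩
        rw [hmul] at hβ3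
        have h4 := S4a_assoc hβ3
        rw [mul_comm] at h4
        exact h2 (S4a_div' U hβ1 hβ2 h4)
    · rw [S4a_zero' U h1, zero_mul]
      apply S4a_zero'
      rintro ⟨β, hβ1, hβ2, hβ3⟩
      rw [hmul] at hβ3
      exact h1 (S4a_div' U hβ1 hβ2 (S4a_assoc hβ3))

lemma chiM_n (P : HeightOneSpectrum (𝓞 QI)) (h : (U.n : 𝓞 QI) ∈ P.asIdeal) :
    chiM U P.asIdeal = 0 := by
  apply S4a_zero'
  rintro ⟨β, hβ1, hβ2, hβ3⟩
  rw [hβ3, Ideal.mem_span_singleton] at h
  have h1 : β ∣ ((U.n : ℕ) : GaussianInt) := by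
    have h2 := map_dvd (gi.symm : 𝓞 QI ≃+* GaussianInt) h
    rw [RingEquiv.symm_apply_apply, map_natCast] at h2
    exact h2
  have h2 : IsUnit β := hβ2.isUnit_of_dvd' dvd_rfl h1
  apply P.isPrime.ne_top
  rw [hβ3, Ideal.span_singleton_eq_top]
  exact h2.map (gi : GaussianInt ≃+* 𝓞 QI)

lemma S4a_inj (l : ℕ) : Set.InjOn (fun β : GaussianInt => Ideal.span {gi β})
    {β : GaussianInt | Prim β ∧ IsCoprime β ((U.n : ℕ) : GaussianInt) ∧ gN β = l} := by
  intro a ha b hb hab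
  exact Prim.eq_of_associated ha.1 hb.1 (S4a_assoc hab)

lemma S4a_ne {l : ℕ} (hl : l ≠ 0) {β : GaussianInt} (h : gN β = l) : β ≠ 0 := by
  rintro rfl
  apply hl
  rw [← h]
  rfl

lemma S4a_finite {l : ℕ} (hl : l ≠ 0) :
    {β : GaussianInt | Prim β ∧ IsCoprime β ((U.n : ℕ) : GaussianInt) ∧ gN β = l}.Finite := by
  refine Set.Finite.of_injOn (t := {I : Ideal (𝓞 QI) | Ideal.absNorm I = l}) ?_ (S4a_inj U l)
    (finite_norm hl)
  intro β hβ
  change Ideal.absNorm (Ideal.span {gi β}) = l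
  rw [absNorm_gi (S4a_ne hl hβ.2.2)]
  exact hβ.2.2

lemma S4a_star {β : GaussianInt} {l : ℕ} (h : Prim β ∧ IsCoprime β ((U.n : ℕ) : GaussianInt) ∧
    gN β = l) : Prim (star β) ∧ IsCoprime (star β) ((U.n : ℕ) : GaussianInt) ∧
    gN (star β) = l := by
  obtain ⟨h1, h2, h3⟩ := h
  refine ⟨R5b_prim_star h1, ?_, by rw [R5b_gN_star, h3]⟩
  obtain ⟨c, e, hce⟩ := h2
  refine ⟨star c, star e, ?_⟩
  have h4 := congrArg star hce
  rw [star_add, star_mul, star_mul, star_one, star_natCast] at h4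
  rw [← h4]
  ring

lemma S4a_im {l : ℕ} (hl : l ≠ 0) :
    ∑ β ∈ (S4a_finite U hl).toFinset, ((U.κ β : GaussianIntˣ) : GaussianInt).im = 0 := by
  have h1 : ∑ β ∈ (S4a_finite U hl).toFinset, ((U.κ β : GaussianIntˣ) : GaussianInt).im =
      ∑ β ∈ (S4a_finite U hl).toFinset, (-((U.κ β : GaussianIntˣ) : GaussianInt).im) := by
    refine Finset.sum_bij (fun β _ => star β) ?_ ?_ ?_ ?_
    · intro β hβ
      rw [Set.Finite.mem_toFinset] at hβ ⊢
      exact S4a_star U hβ
    · intro a _ b _ hab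
      exact star_injective hab
    · intro β hβ
      refine ⟨star β, ?_, star_star β⟩
      rw [Set.Finite.mem_toFinset] at hβ ⊢
      exact S4a_star U hβ
    · intro β _
      rw [U.st, Zsqrtd.im_star, neg_neg]
  rw [Finset.sum_neg_distrib] at h1
  omega

/-- the weighted number of ideals in terms of primary elements. The set of the `β` is stable under `star`
(`star β` is primary, see `D3a.lean`/`Q2.lean` of `MP_1ef7cf_nt_g` for `Prim`, and prime to `n`), `κ (star β) = star (κ β)`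
(`U.st`), so the imaginary parts cancel. -/
lemma cS_chiM (l : ℕ) (hl : l ≠ 0) : cS (chiM U) l = ((cM U l : ℤ) : ℂ) := by
  set A : Set GaussianInt := {β : GaussianInt | Prim β ∧
    IsCoprime β ((U.n : ℕ) : GaussianInt) ∧ gN β = l} with hA
  have hfin : A.Finite := S4a_finite U hl
  have h1 : ∑ᶠ β ∈ A, (((U.κ β : GaussianIntˣ) : GaussianInt) : ℂ) =
      ∑ᶠ I ∈ (fun β : GaussianInt => Ideal.span {gi β}) '' A, chiM U I := by
    rw [finsum_mem_image (S4a_inj U l)]
    exact finsum_mem_congr rfl fun β hβ => (chiM_span U hβ.1 hβ.2.1).symm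
  have h2 : cS (chiM U) l = ∑ᶠ β ∈ A, (((U.κ β : GaussianIntˣ) : GaussianInt) : ℂ) := by
    rw [h1]
    unfold cS
    apply finsum_mem_inter_support_eq
    ext I
    simp only [Set.mem_inter_iff, Set.mem_setOf_eq, Function.mem_support, Set.mem_image]
    constructor
    · rintro ⟨hI, hχ⟩
      refine ⟨?_, hχ⟩
      by_contra hcon
      apply hχ
      apply S4a_zero'
      rintro ⟨β, hβ1, hβ2, hβ3⟩
      apply hcon
      refine ⟨β, ⟨hβ1, hβ2, ?_⟩, hβ3.symm⟩
      rw [← absNorm_gi (U.ne_zero_of hβ2), ← hβ3, hI]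
    · rintro ⟨⟨β, hβ, rfl⟩, hχ⟩
      refine ⟨?_, hχ⟩
      rw [absNorm_gi (S4a_ne hl hβ.2.2)]
      exact hβ.2.2
  rw [h2]
  unfold cM
  rw [finsum_mem_eq_finite_toFinset_sum _ hfin, finsum_mem_eq_finite_toFinset_sum _ hfin]
  have h3 : ∀ u : GaussianInt, (u : ℂ) = ((u.re : ℤ) : ℂ) + ((u.im : ℤ) : ℂ) * Complex.I :=
    fun u => GaussianInt.toComplex_def u
  rw [Finset.sum_congr rfl (fun β _ => h3 _), Finset.sum_add_distrib, ← Finset.sum_mul,
    ← Int.cast_sum, ← Int.cast_sum, S4a_im U hl, Int.cast_zero, zero_mul, add_zero]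

/-- norms of primary elements are `1` modulo `4` -/
lemma cM_three {l : ℕ} (hl : l % 4 = 3) : cM U l = 0 := by
  unfold cM
  have h : {β : GaussianInt | Prim β ∧ IsCoprime β ((U.n : ℕ) : GaussianInt) ∧ gN β = l} = ∅ := by
    rw [Set.eq_empty_iff_forall_notMem]
    rintro β ⟨h1, -, h3⟩
    have := h1.gN_mod
    omega
  rw [h, finsum_mem_empty]

end Pool.Agent.STh
end
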