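import Pool.Agent.Lib.MP_1ef7cf_nt_g.Mg.G030
import Pool.Agent.Lib.MP_1ef7cf_nt_g.Mg.G032
import Pool.Agent.Lib.MP_1ef7cf_nt_g.Mg.G035

section

/-!
# The values of `X` at torsion points are algebraic and permuted by the embeddings fixing `i`
-/

open Complex Polynomial

namespace Pool.Agent.STg

variable (D : LemData)

/-- `ap h` maps roots of polynomials over `ℚ(i)` to roots. -/
lemma D3_root (h : Qb →+* ℂ) (hI : ap h I = I) {q : Polynomial QI} {t : ℂ} (ht : t ∈ Qb)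
    (hq : aeval t q = 0) : aeval (ap h t) q = 0 := by
  have hle : ∀ x : QI, (x : ℂ) ∈ Qb := by
    intro x
    have h1 : aeval (x : ℂ) (Polynomial.X - C x : Polynomial QI) = 0 := by
      rw [map_sub, aeval_X, aeval_C, sub_eq_zero]
      rfl
    exact mem_Qb_of_root (Polynomial.X_sub_C_ne_zero x) h1
  let ι : QI →+* Qb :=
    { toFun := fun x => ⟨x, hle x⟩
      map_one' := rfl
      map_mul' := fun _ _ => rfl
      map_zero' := rfl
      map_add' := fun _ _ => rfl }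
  let t0 : Qb := ⟨t, ht⟩
  have h1 : eval₂ ι t0 q = 0 := by
    apply Subtype.ext
    have h2 := Polynomial.hom_eval₂ q ι (algebraMap Qb ℂ) t0
    have h3 : (algebraMap Qb ℂ).comp ι = algebraMap QI ℂ := by
      ext x
      rfl
    rw [h3] at h2
    have h4 : (algebraMap Qb ℂ) (eval₂ ι t0 q) = ((eval₂ ι t0 q : Qb) : ℂ) := rfl
    rw [h4] at h2
    rw [h2]
    exact hq
  have h2 := Polynomial.hom_eval₂ q ι h t0
  rw [h1, map_zero] at h2
  have h3 : h.comp ι = algebraMap QI ℂ := by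
    ext x
    change h ⟨x, hle x⟩ = (x : ℂ)
    rw [← ap_of_mem h (hle x)]
    exact ap_QI h hI x.2
  rw [h3] at h2
  rw [ap_of_mem h ht]
  exact h2.symm

/-- **Odd case**: `t` is a root of the polynomial of `exists_den`, `ap h` maps it to a root of the same
polynomial. -/
lemma LemData.stable_odd {β : GaussianInt} (hβ : gOdd β) {t : ℂ} (ht : t ∈ TSet D.X β) :
    t ∈ Qb ∧ ∀ h : Qb →+* ℂ, ap h I = I → ap h t ∈ TSet D.X β := by
  obtain ⟨q, hq⟩ := D.exists_den hβ
  have hβ0 : β ≠ 0 := gOdd.ne_zero hβ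
  have hev : ∀ x : ℂ, aeval x q = ∏ t ∈ TFin D.X β, (x - t) ^ 2 := by
    intro x
    have h1 : aeval x q = eval x (q.map (algebraMap QI ℂ)) := by
      rw [Polynomial.eval_map_algebraMap]
    rw [h1, hq, Polynomial.eval_prod]
    refine Finset.prod_congr rfl fun t _ => ?_
    simp
  have hq0 : q ≠ 0 := by
    rintro rfl
    rw [Polynomial.map_zero] at hq
    have h1 : (∏ t ∈ TFin D.X β, (Polynomial.X - C t) ^ 2).Monic :=
      Polynomial.monic_prod_of_monic _ _ fun t _ => (Polynomial.monic_X_sub_C t).pow 2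
    exact h1.ne_zero hq.symm
  have htF : t ∈ TFin D.X β := (D.mem_TFin hβ0 t).2 ht
  have hroot : aeval t q = 0 := by
    rw [hev]
    exact Finset.prod_eq_zero htF (by simp)
  have htQ : t ∈ Qb := mem_Qb_of_root hq0 hroot
  refine ⟨htQ, fun h hI => ?_⟩
  have h1 := D3_root h hI htQ hroot
  rw [hev, Finset.prod_eq_zero_iff] at h1
  obtain ⟨t', ht', h2⟩ := h1
  have h3 : ap h t = t' := sub_eq_zero.1 (pow_eq_zero_iff (two_ne_zero) |>.1 h2)
  rw [h3]
  exact (D.mem_TFin hβ0 t').1 ht'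

/-- **Step.** Let `t = X u`, `(1 + i) f u ∈ Lam`, `u ∉ Lam`. If `(1 + i) u ∈ Lam` then
`u = (1 + i) / 2 =: w₀` modulo `Lam` (`sub_w0_mem`), so `t = 0` and `ap h t = 0 = X w₀`.
Otherwise let `s = X ((1 + i) u)`, `t ^ 2 - 2 i s t - 1 = 0` (`X_oneI`), `s ∈ TSet f`, so `t ∈ Qb`.
`ap h s = X u''` with `u'' ∉ Lam`, `f u'' ∈ Lam`. Put `v = u'' / (1 + i)`; `v ∉ Lam` and `X v` is a
root of `x ^ 2 - 2 i (ap h s) x - 1`, as is `ap h t`; the other root is `-1 / X v = X (v + w₀)`. -/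
lemma LemData.stable_step {f : GaussianInt} (hs : ∀ t ∈ TSet D.X f, t ∈ Qb ∧
    ∀ h : Qb →+* ℂ, ap h I = I → ap h t ∈ TSet D.X f) {t : ℂ} (ht : t ∈ TSet D.X (⟨1, 1⟩ * f)) :
    t ∈ Qb ∧ ∀ h : Qb →+* ℂ, ap h I = I → ap h t ∈ TSet D.X (⟨1, 1⟩ * f) := by
  obtain ⟨u, hu, hfu, rfl⟩ := ht
  have hcast : (((⟨1, 1⟩ * f : GaussianInt)) : ℂ) = (1 + I) * (f : ℂ) := by
    rw [map_mul]
    congr 1
    rw [GaussianInt.toComplex_def]
    simp
  rw [hcast] at hfu
  by_cases h1 : (1 + I) * u ∈ Lam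
  · obtain ⟨a, ha⟩ := sub_w0_mem hu h1
    change GaussianInt.toComplex a = _ at ha
    have h2 : D.X u = 0 := by
      have h3 : u = (1 + I) / 2 + (a : ℂ) := by
        rw [ha]
        ring
      rw [h3, D.X_add, D.X_w0]
    rw [h2]
    refine ⟨zero_mem Qb, fun h _ => ?_⟩
    rw [ap_zero]
    exact ⟨u, hu, by rw [hcast]; exact hfu, h2⟩
  · have hrel := D.X_oneI u hu h1
    obtain ⟨hsQ, hs2⟩ := hs (D.X ((1 + I) * u)) ⟨(1 + I) * u, h1, by
      rw [show (f : ℂ) * ((1 + I) * u) = (1 + I) * (f : ℂ) * u by ring]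
      exact hfu, rfl⟩
    have hIQ : I ∈ Qb := by
      have := gauss_mem_Qb (⟨0, 1⟩ : GaussianInt)
      rw [GaussianInt.toComplex_def] at this
      simpa using this
    have haQ : -(2 * I * D.X ((1 + I) * u)) ∈ Qb := by
      refine neg_mem (mul_mem (mul_mem ?_ hIQ) hsQ)
      exact ofNat_mem Qb 2
    have hbQ : (-1 : ℂ) ∈ Qb := neg_mem (one_mem Qb)
    have hquad : D.X u ^ 2 + -(2 * I * D.X ((1 + I) * u)) * D.X u + -1 = 0 := by
      linear_combination -hrel
    have htQ : D.X u ∈ Qb := mem_Qb_of_quad haQ hbQ hquad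
    refine ⟨htQ, fun h hI => ?_⟩
    obtain ⟨u'', hu'', hfu'', hX''⟩ := hs2 h hI
    have hT : ap h (D.X u) ^ 2 - 2 * I * D.X u'' * ap h (D.X u) - 1 = 0 := by
      have e1 : ap h (D.X u ^ 2 + -(2 * I * D.X ((1 + I) * u)) * D.X u + -1) = 0 := by
        rw [hquad, ap_zero]
      have h2Q : (2 : ℂ) ∈ Qb := ofNat_mem Qb 2
      have e2 : ap h (2 : ℂ) = 2 := by
        have := ap_gauss h hI (2 : GaussianInt)
        rwa [map_ofNat] at this
      have e3 : ap h (-1 : ℂ) = -1 := by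
        have := ap_gauss h hI (-1 : GaussianInt)
        rwa [map_neg, map_one] at this
      have e4 : ap h (-(2 * I * D.X ((1 + I) * u))) = -(2 * I * D.X u'') := by
        rw [show -(2 * I * D.X ((1 + I) * u)) = (-1) * (2 * I * D.X ((1 + I) * u)) by ring,
          ap_mul h hbQ (mul_mem (mul_mem h2Q hIQ) hsQ), ap_mul h (mul_mem h2Q hIQ) hsQ,
          ap_mul h h2Q hIQ, e2, e3, hI, hX'']
        ring
      rw [ap_add h (add_mem (pow_mem htQ 2) (mul_mem haQ htQ)) hbQ, ap_add h (pow_mem htQ 2)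
        (mul_mem haQ htQ), ap_pow h htQ, ap_mul h haQ htQ, e3, e4] at e1
      linear_combination e1
    have h1I : (1 + I : ℂ) ≠ 0 := by
      intro h0
      have := congrArg Complex.re h0
      simp at this
    obtain ⟨v, hv⟩ : ∃ v : ℂ, (1 + I) * v = u'' := ⟨u'' / (1 + I), by field_simp⟩
    have hLI : ∀ z ∈ Lam, (1 + I) * z ∈ Lam := by
      intro z hz
      have := Lam_mul (⟨1, 1⟩ : GaussianInt) hz
      have hc : (((⟨1, 1⟩ : GaussianInt)) : ℂ) = 1 + I := by
        rw [GaussianInt.toComplex_def]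
        simp
      rwa [hc] at this
    have hvL : v ∉ Lam := by
      intro h0
      apply hu''
      rw [← hv]
      exact hLI v h0
    have hrel2 := D.X_oneI v hvL (by rw [hv]; exact hu'')
    rw [hv] at hrel2
    have hprod : (ap h (D.X u) - D.X v) * (ap h (D.X u) + D.X v - 2 * I * D.X u'') = 0 := by
      linear_combination hT + hrel2
    rcases mul_eq_zero.1 hprod with h3 | h3
    · rw [sub_eq_zero.1 h3]
      refine ⟨v, hvL, ?_, rfl⟩
      rw [hcast, show (1 + I) * (f : ℂ) * v = (f : ℂ) * ((1 + I) * v) by ring, hv]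
      exact hfu''
    · have hw : v + (1 + I) / 2 ∉ Lam := by
        intro h0
        have h4 := hLI _ h0
        have h5 : (1 + I) * (v + (1 + I) / 2) = u'' + I := by
          rw [← hv]
          linear_combination (1 / 2 : ℂ) * Complex.I_sq
        rw [h5] at h4
        have h6 : I ∈ Lam := ⟨⟨0, 1⟩, by
          change GaussianInt.toComplex _ = _
          rw [GaussianInt.toComplex_def]
          simp⟩
        have h7 := Lam_sub h4 h6
        rw [add_sub_cancel_right] at h7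
        exact hu'' h7
      have h4 := D.X_add_w0 v hvL hw
      have h5 : D.X v ≠ 0 := by
        intro h0
        rw [h0, mul_zero] at h4
        norm_num at h4
      have h6 : ap h (D.X u) = D.X (v + (1 + I) / 2) := by
        apply mul_right_cancel₀ h5
        rw [h4]
        linear_combination D.X v * h3 + hrel2
      rw [h6]
      refine ⟨v + (1 + I) / 2, hw, ?_, rfl⟩
      rw [hcast, show (1 + I) * (f : ℂ) * (v + (1 + I) / 2) = (f : ℂ) * ((1 + I) * v) +
        (f : ℂ) * ((1 + I) * ((1 + I) / 2)) by ring, hv]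
      refine Lam_add hfu'' (Lam_mul f ?_)
      refine ⟨⟨0, 1⟩, ?_⟩
      change GaussianInt.toComplex _ = _
      rw [GaussianInt.toComplex_def]
      simp
      linear_combination -(1 / 2 : ℂ) * Complex.I_sq

lemma D3_even {f : GaussianInt} (hf : ¬ gOdd f) : ∃ f' : GaussianInt, f = ⟨1, 1⟩ * f' := by
  have h1 : Even (f.re * f.re + f.im * f.im) := by
    unfold gOdd gN at hf
    rw [Nat.not_odd_iff_even, Int.natAbs_even] at hf
    have : f.norm = f.re * f.re + f.im * f.im := by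
      rw [Zsqrtd.norm_def]
      ring
    rwa [this] at hf
  have h2 : Even (f.re + f.im) := by
    rw [Int.even_add, Int.even_mul, Int.even_mul] at h1
    rw [Int.even_add]
    tauto
  obtain ⟨c, hc⟩ := h2
  refine ⟨⟨c, c - f.re⟩, ?_⟩
  apply Zsqrtd.ext
  · simp
  · simp
    omega

/-- `f = (1 + i) ^ b β` with `β` odd; induction on `b`. -/
theorem LemData.stable {f : GaussianInt} (hf : f ≠ 0) {t : ℂ} (ht : t ∈ TSet D.X f) :
    t ∈ Qb ∧ ∀ h : Qb →+* ℂ, ap h I = I → ap h t ∈ TSet D.X f := by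
  have key : ∀ (N : ℕ) (f : GaussianInt), gN f = N → f ≠ 0 → ∀ t ∈ TSet D.X f,
      t ∈ Qb ∧ ∀ h : Qb →+* ℂ, ap h I = I → ap h t ∈ TSet D.X f := by
    intro N
    induction N using Nat.strong_induction_on with
    | _ N ih =>
      intro f hN hf t ht
      by_cases hodd : gOdd f
      · exact D.stable_odd hodd ht
      · obtain ⟨f', rfl⟩ := D3_even hodd
        have hf' : f' ≠ 0 := right_ne_zero_of_mul hf
        have h1 : gN (⟨1, 1⟩ * f') = 2 * gN f' := by
          rw [gN_mul]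
          rfl
        have h2 := gN_pos hf'
        exact D.stable_step (ih (gN f') (by omega) f' rfl hf') ht
  exact key _ f rfl hf t ht

end Pool.Agent.STg
end

section

/-!
# Good primes: definitions
-/

open NumberField IsDedekindDomain Pool.Agent.ST Complex

namespace Pool.Agent.STg

/-- `A ^ 2 = T + 2 i` -/
lemma UD.A_sq (U : UD) : U.A ^ 2 = (U.T : ℂ) + 2 * I := by
  set S := Real.sqrt ((U.T : ℝ) ^ 2 + 4) with hS
  have hS2 : S ^ 2 = (U.T : ℝ) ^ 2 + 4 := Real.sq_sqrt (by positivity)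
  have hS0 : 0 ≤ S := Real.sqrt_nonneg _
  have he : U.e = (U.T + S) / 2 := rfl
  have hepos : 0 < U.e := by
    rw [he]
    have h1 : |(U.T : ℝ)| < S := by
      apply abs_lt_of_sq_lt_sq _ hS0
      rw [hS2]; linarith
    have h2 := neg_abs_le (U.T : ℝ)
    linarith
  have hr2 : U.r ^ 2 = U.e := Real.sq_sqrt hepos.le
  have hr0 : U.r ≠ 0 := by
    intro h
    rw [h] at hr2
    simp at hr2
    exact hepos.ne hr2
  have hrel : U.e ^ 2 = U.T * U.e + 1 := by
    rw [he]; nlinarith [hS2]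
  have hr4 : U.r ^ 4 = U.T * U.r ^ 2 + 1 := by
    have : U.r ^ 4 = (U.r ^ 2) ^ 2 := by ring
    rw [this, hr2, hrel]
  have hrc : (U.r : ℂ) ≠ 0 := by exact_mod_cast hr0
  have hr4c : (U.r : ℂ) ^ 4 = (U.T : ℂ) * (U.r : ℂ) ^ 2 + 1 := by exact_mod_cast congrArg (fun t : ℝ => (t : ℂ)) hr4
  rw [UD.A]
  field_simp
  linear_combination hr4c + (1 : ℂ) * I_sq

lemma UD.A_sq' (U : UD) : U.A ^ 2 = (((⟨U.T, 2⟩ : GaussianInt)) : ℂ) := by
  rw [UD.A_sq, GaussianInt.toComplex_def]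
  simp

lemma UD.A_ne_zero (U : UD) : U.A ≠ 0 := by
  intro h
  have h1 := UD.A_sq U
  rw [h] at h1
  have h2 := congrArg Complex.im h1
  simp at h2

lemma zk_pow (k : ℕ) : zk k ^ (2 ^ k) = 1 := by
  rw [zk, ← Complex.exp_nat_mul]
  have h : ((2 ^ k : ℕ) : ℂ) * (2 * Real.pi * I / 2 ^ k) = 2 * Real.pi * I := by
    push_cast
    field_simp
  rw [h, Complex.exp_two_pi_mul_I]

/-- good valuation rings -/
structure GoodV (D : LemData) (U : UD) (f : GaussianInt) (V : ValuationSubring ℂ) : Prop where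
  two : V.valuation (2 : ℂ) = 1
  vf : V.valuation (f : ℂ) = 1
  tr : V.valuation U.A = 1
  le : ∀ w : ℂ, w ∉ Lam → (f : ℂ) * w ∈ Lam → V.valuation (D.X w) ≤ 1
  sub : ∀ w u : ℂ, w ∉ Lam → (f : ℂ) * w ∈ Lam → u ∉ Lam → (f : ℂ) * u ∈ Lam → D.X w ≠ D.X u →
    V.valuation (D.X w - D.X u) = 1

/-- `E` contains all numbers we need -/
structure Cont (D : LemData) (U : UD) (k : ℕ) (f : GaussianInt) (E : IntermediateField QI ℂ) :
    Prop where
  X : ∀ w : ℂ, w ∉ Lam → (f : ℂ) * w ∈ Lam → D.X w ∈ E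
  A : U.A ∈ E
  z : zk k ∈ E

/-- the property of the automorphisms -/
def PropG (D : LemData) (U : UD) (k : ℕ) (f : GaussianInt) {E : IntermediateField QI ℂ}
    (σ : E ≃ₐ[QI] E) : Prop :=
  ∃ β : GaussianInt, Prim β ∧ IsCoprime β f ∧
    (∀ w : ℂ, w ∉ Lam → (f : ℂ) * w ∈ Lam → ∀ x : E, (x : ℂ) = D.X w →
      ((σ x : E) : ℂ) = D.X (β * w)) ∧
    (∀ x : E, (x : ℂ) = U.A → ((σ x : E) : ℂ) = (((U.Ψ β : ℤˣ) : ℤ) : ℂ) * U.A) ∧
    (∀ x : E, (x : ℂ) = zk k → ((σ x : E) : ℂ) = zk k ^ gN β)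

variable {D : LemData} {U : UD} {k : ℕ} {f : GaussianInt} {E : IntermediateField QI ℂ}
  [NumberField E]

/-- extension of homomorphisms to algebraic extensions -/
lemma D8a_ext {E M L : Type} [Field E] [Field M] [Field L] [IsAlgClosed L] (i : E →+* M) (j : E →+* L)
    (hi : ∀ m : M, ∃ p : Polynomial E, p ≠ 0 ∧ p.eval₂ i m = 0) : ∃ h : M →+* L, ∀ x, h (i x) = j x := by
  let _ := i.toAlgebra
  let _ := j.toAlgebra
  have : Algebra.IsAlgebraic E M := ⟨fun m => hi m⟩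
  exact ⟨((IsAlgClosed.lift : M →ₐ[E] L) : M →+* L), fun x => AlgHom.commutes (IsAlgClosed.lift : M →ₐ[E] L) x⟩

/-- Automorphisms of `E` extend to `Qb`. (`E ≤ Qb` as `E` is a number field; `Qb` is algebraic over
`E`: `IsAlgClosed.lift`.) -/
lemma exists_ext (σ : E ≃ₐ[QI] E) : ∃ h : Qb →+* ℂ, ap h I = I ∧
    ∀ x : E, ap h (x : ℂ) = ((σ x : E) : ℂ) := by
  have hmem : ∀ x : E, (x : ℂ) ∈ Qb := by
    intro x
    have h1 : IsAlgebraic ℚ x := Algebra.IsAlgebraic.isAlgebraic x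
    have h2 : IsAlgebraic ℚ ((algebraMap E ℂ) x) := h1.algebraMap
    exact mem_algebraicClosure_iff.2 h2
  have hQb : ∀ m : Qb, IsAlgebraic ℚ m := fun m =>
    (isAlgebraic_algebraMap_iff (A := ℂ) (RingHom.injective (algebraMap Qb ℂ))).1
      (mem_algebraicClosure_iff.1 m.2)
  let i : E →+* Qb :=
    { toFun := fun x => ⟨(x : ℂ), hmem x⟩
      map_one' := rfl
      map_mul' := fun _ _ => rfl
      map_zero' := rfl
      map_add' := fun _ _ => rfl }
  let j : E →+* ℂ := (algebraMap E ℂ).comp (σ : E ≃+* E).toRingHom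
  obtain ⟨h, hh⟩ := D8a_ext i j (by
    intro m
    have hm : IsAlgebraic ℚ m := hQb m
    obtain ⟨p, hp0, hp⟩ := hm
    refine ⟨p.map (algebraMap ℚ E), (Polynomial.map_ne_zero_iff (algebraMap ℚ E).injective).2 hp0, ?_⟩
    rw [Polynomial.eval₂_map]
    have : i.comp (algebraMap ℚ E) = algebraMap ℚ Qb := Subsingleton.elim _ _
    rw [this]
    exact hp)
  have key : ∀ x : E, ap h (x : ℂ) = ((σ x : E) : ℂ) := by
    intro x
    rw [ap_of_mem h (hmem x)]
    exact hh x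
  refine ⟨h, ?_, key⟩
  have hI := key (algebraMap QI E ⟨I, I_mem_QI⟩)
  rw [σ.commutes] at hI
  exact hI

end Pool.Agent.STg
end
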