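import Pool.Agent.Lib.MP_1ef7cf_nt_g.Mg.G042
import Pool.Agent.Lib.MP_1ef7cf_nt_g.Mg.G033
import Pool.Agent.Lib.MP_1ef7cf_nt_g.Mg.G031
import Pool.Agent.Lib.MP_1ef7cf_nt_h.Mg.G007

section

/-!
# The elliptic units are algebraic
-/

open Complex

namespace Pool.Agent.STg

variable (D : LemData) (U : UD)

lemma t_mem_Qb {α : GaussianInt} (hα0 : α ≠ 0) {t : ℂ} (ht : t ∈ TFin D.X α) : t ∈ Qb := by
  rw [D.mem_TFin hα0] at ht
  exact (D.stable hα0 ht).1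

lemma X_div_mem_Qb {f a : GaussianInt} (hf : ¬ IsUnit f) (hf0 : f ≠ 0) (ha : IsCoprime a f) :
    D.X ((a : ℂ) / (f : ℂ)) ∈ Qb := by
  refine (D.stable hf0 ⟨(a : ℂ) / (f : ℂ), div_notMem hf hf0 ha, ?_, rfl⟩).1
  have hfc := V1a_cast_ne hf0
  rw [mul_div_cancel₀ _ hfc]
  exact ⟨a, rfl⟩

lemma th_mem_Qb {α f a : GaussianInt} (hα0 : α ≠ 0) (hf : ¬ IsUnit f) (hf0 : f ≠ 0)
    (ha : IsCoprime a f) : th D α f a ∈ Qb := by
  unfold th
  exact prod_mem (fun t ht => sub_mem (X_div_mem_Qb D hf hf0 ha) (t_mem_Qb D hα0 ht))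

lemma vv_mem_Qb {k J : ℕ} (hJ : 2 ≤ J) {α : GaussianInt} (hα : Prim α) (g : Gam k) :
    vv D U k J α g ∈ Qb := by
  classical
  have hf0 := U.f_ne_zero J
  have hfu := U.f_not_unit (J := J) (by omega)
  have hα0 : α ≠ 0 := hα.odd.ne_zero
  have h1 : ∀ g' : Gam k,
      (∏ a ∈ PR (U.f J), if sM U k a = g' then th D α (U.f J) a else 1) ∈ Qb := by
    intro g'
    refine prod_mem (fun a ha => ?_)
    split_ifs
    · exact th_mem_Qb D hα0 hfu hf0 ((isPR_PR hf0).1 a ha).2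
    · exact one_mem _
  unfold vv
  exact div_mem (h1 _) (h1 _)

end Pool.Agent.STg
end

section

/-!
# Extension of embeddings of `Rk` to the algebraic numbers
-/

open Complex

namespace Pool.Agent.STh

open Pool.Agent.STg

/-! Adapt `MP_1ef7cf_nt_g/V4.lean`. `exists_conj` there (`conj ∘ h ∘ conj`) is general. -/

variable (U : UD) (k : ℕ)

/-- the field of the numbers `a + b i`, `a, b ∈ Rk` -/
def V4a_L : Subfield ℂ where
  carrier := {z | z.re ∈ Rk U k ∧ z.im ∈ Rk U k}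
  mul_mem' := by
    rintro x y hx hy
    show (x * y).re ∈ Rk U k ∧ (x * y).im ∈ Rk U k
    rw [Complex.mul_re, Complex.mul_im]
    exact ⟨sub_mem (mul_mem hx.1 hy.1) (mul_mem hx.2 hy.2),
      add_mem (mul_mem hx.1 hy.2) (mul_mem hx.2 hy.1)⟩
  one_mem' := by
    show (1 : ℂ).re ∈ Rk U k ∧ (1 : ℂ).im ∈ Rk U k
    rw [Complex.one_re, Complex.one_im]
    exact ⟨one_mem _, zero_mem _⟩
  add_mem' := by
    rintro x y hx hy
    show (x + y).re ∈ Rk U k ∧ (x + y).im ∈ Rk U k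
    rw [Complex.add_re, Complex.add_im]
    exact ⟨add_mem hx.1 hy.1, add_mem hx.2 hy.2⟩
  zero_mem' := by
    show (0 : ℂ).re ∈ Rk U k ∧ (0 : ℂ).im ∈ Rk U k
    rw [Complex.zero_re, Complex.zero_im]
    exact ⟨zero_mem _, zero_mem _⟩
  neg_mem' := by
    rintro x hx
    show (-x).re ∈ Rk U k ∧ (-x).im ∈ Rk U k
    rw [Complex.neg_re, Complex.neg_im]
    exact ⟨neg_mem hx.1, neg_mem hx.2⟩
  inv_mem' := by
    rintro x hx
    show (x⁻¹).re ∈ Rk U k ∧ (x⁻¹).im ∈ Rk U k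
    rw [Complex.inv_re, Complex.inv_im]
    have h1 : Complex.normSq x ∈ Rk U k := by
      rw [Complex.normSq_apply]
      exact add_mem (mul_mem hx.1 hx.1) (mul_mem hx.2 hx.2)
    exact ⟨div_mem hx.1 h1, div_mem (neg_mem hx.2) h1⟩

lemma V4a_L_mem {z : ℂ} : z ∈ V4a_L U k ↔ z.re ∈ Rk U k ∧ z.im ∈ Rk U k := Iff.rfl

lemma V4a_L_le {z : ℂ} (hz : z ∈ V4a_L U k) : z ∈ Qb := by
  have h1 : z = (z.re : ℂ) + (z.im : ℂ) * I := (Complex.re_add_im z).symm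
  rw [h1]
  exact add_mem (Rk_mem_Qb U k hz.1) (mul_mem (Rk_mem_Qb U k hz.2) V4_I_mem)

/-- `a + b i ↦ φ a + i φ b` -/
noncomputable def V4a_psi (φ : Rk U k →+* ℂ) : V4a_L U k →+* ℂ where
  toFun z := φ ⟨(z : ℂ).re, z.2.1⟩ + I * φ ⟨(z : ℂ).im, z.2.2⟩
  map_one' := by
    have h1 : (⟨((1 : V4a_L U k) : ℂ).re, (1 : V4a_L U k).2.1⟩ : Rk U k) = 1 :=
      Subtype.ext (by simp)
    have h2 : (⟨((1 : V4a_L U k) : ℂ).im, (1 : V4a_L U k).2.2⟩ : Rk U k) = 0 :=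
      Subtype.ext (by simp)
    rw [h1, h2, map_one, map_zero, mul_zero, add_zero]
  map_zero' := by
    have h1 : (⟨((0 : V4a_L U k) : ℂ).re, (0 : V4a_L U k).2.1⟩ : Rk U k) = 0 :=
      Subtype.ext (by simp)
    have h2 : (⟨((0 : V4a_L U k) : ℂ).im, (0 : V4a_L U k).2.2⟩ : Rk U k) = 0 :=
      Subtype.ext (by simp)
    rw [h1, h2, map_zero, mul_zero, add_zero]
  map_add' x y := by
    have h1 : (⟨((x + y : V4a_L U k) : ℂ).re, (x + y).2.1⟩ : Rk U k) =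
        ⟨(x : ℂ).re, x.2.1⟩ + ⟨(y : ℂ).re, y.2.1⟩ := Subtype.ext (by simp)
    have h2 : (⟨((x + y : V4a_L U k) : ℂ).im, (x + y).2.2⟩ : Rk U k) =
        ⟨(x : ℂ).im, x.2.2⟩ + ⟨(y : ℂ).im, y.2.2⟩ := Subtype.ext (by simp)
    rw [h1, h2, map_add, map_add]
    ring
  map_mul' x y := by
    have h1 : (⟨((x * y : V4a_L U k) : ℂ).re, (x * y).2.1⟩ : Rk U k) =
        ⟨(x : ℂ).re, x.2.1⟩ * ⟨(y : ℂ).re, y.2.1⟩ -
          ⟨(x : ℂ).im, x.2.2⟩ * ⟨(y : ℂ).im, y.2.2⟩ := Subtype.ext (by simp)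
    have h2 : (⟨((x * y : V4a_L U k) : ℂ).im, (x * y).2.2⟩ : Rk U k) =
        ⟨(x : ℂ).re, x.2.1⟩ * ⟨(y : ℂ).im, y.2.2⟩ +
          ⟨(x : ℂ).im, x.2.2⟩ * ⟨(y : ℂ).re, y.2.1⟩ := Subtype.ext (by simp)
    rw [h1, h2, map_sub, map_add, map_mul, map_mul, map_mul, map_mul]
    linear_combination (-φ ⟨(x : ℂ).im, x.2.2⟩ * φ ⟨(y : ℂ).im, y.2.2⟩) * Complex.I_sq

/-- **Extension.** `a + b i ↦ φ a + i φ b` is a homomorphism on the field of the numbers `a + b i`,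
`a, b ∈ Rk` (the field `Rk` is real); extend it to the algebraic numbers. -/
theorem exists_ext_Rk (φ : Rk U k →+* ℂ) : ∃ h : Qb →+* ℂ, ap h I = I ∧
    ∀ x : ℝ, x ∈ Rk U k → ap h (x : ℂ) = ap φ x := by
  let i : V4a_L U k →+* Qb :=
    { toFun := fun y => ⟨(y : ℂ), V4a_L_le U k y.2⟩
      map_one' := rfl
      map_mul' := fun _ _ => rfl
      map_zero' := rfl
      map_add' := fun _ _ => rfl }
  let _ : Algebra (V4a_L U k) Qb := i.toAlgebra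
  have hst : IsScalarTower ℚ (V4a_L U k) Qb :=
    IsScalarTower.of_algebraMap_eq' (Subsingleton.elim _ _)
  have hQ : Algebra.IsAlgebraic ℚ Qb := by
    refine ⟨fun m => (isAlgebraic_algebraMap_iff (A := ℂ)
      (RingHom.injective (algebraMap Qb ℂ))).1 (mem_algebraicClosure_iff.1 m.2)⟩
  have halg : Algebra.IsAlgebraic (V4a_L U k) Qb := Algebra.IsAlgebraic.tower_top (K := ℚ) _
  obtain ⟨h, hh⟩ := V4_lift (F := V4a_L U k) (E := Qb) (V4a_psi U k φ)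
  have key : ∀ (z : ℂ) (hz : z ∈ V4a_L U k), ap h z = φ ⟨z.re, hz.1⟩ + I * φ ⟨z.im, hz.2⟩ := by
    intro z hz
    rw [ap_of_mem h (V4a_L_le U k hz)]
    exact hh ⟨z, hz⟩
  refine ⟨h, ?_, ?_⟩
  · have hI : I ∈ V4a_L U k := by
      rw [V4a_L_mem, Complex.I_re, Complex.I_im]
      exact ⟨zero_mem _, one_mem _⟩
    rw [key I hI]
    have h1 : (⟨I.re, hI.1⟩ : Rk U k) = 0 := Subtype.ext (by simp)
    have h2 : (⟨I.im, hI.2⟩ : Rk U k) = 1 := Subtype.ext (by simp)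
    rw [h1, h2, map_zero, map_one, zero_add, mul_one]
  · intro x hx
    have hx' : (x : ℂ) ∈ V4a_L U k := by
      rw [V4a_L_mem, Complex.ofReal_re, Complex.ofReal_im]
      exact ⟨hx, zero_mem _⟩
    rw [key _ hx', ap_of_mem φ hx]
    have h1 : (⟨(x : ℂ).re, hx'.1⟩ : Rk U k) = ⟨x, hx⟩ := Subtype.ext (by simp)
    have h2 : (⟨(x : ℂ).im, hx'.2⟩ : Rk U k) = 0 := Subtype.ext (by simp)
    rw [h1, h2, map_zero, mul_zero, add_zero]

end Pool.Agent.STh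
end
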