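import Pool.Agent.Lib.MP_1ef7cf_nt.Act
import Pool.Agent.Lib.MP_1ef7cf_nt_g.Mg.G023

section

set_option autoImplicit false

open NumberField IsDedekindDomain nonZeroDivisors IntermediateField

namespace Pool.Agent.STg.F

open Pool.Agent.ST

variable {K : Type*} [Field K] [NumberField K] [Algebra K ℝ] {σ₂ : K →+* ℝ} {e : (𝓞 K)ˣ}

private lemma F17_aux (H : IntermediateField K ℝ) (e : (𝓞 K)ˣ) (s : 𝓞 H)
    (hs2 : s ^ 2 = algebraMap (𝓞 K) (𝓞 H) (e : 𝓞 K))
    (v : HeightOneSpectrum (𝓞 K)) (h2 : (2 : 𝓞 K) ∉ v.asIdeal) (P : Ideal (𝓞 H)) [P.IsPrime]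
    (hP : P.under (𝓞 K) = v.asIdeal) (x : 𝓞 H)
    (hφ : x - s ^ Ideal.absNorm v.asIdeal ∈ P)
    (hx : x = -((chiP e v.asIdeal : ℤ) : 𝓞 H) * s) : False := by
  have hmem : ∀ y : 𝓞 K, y ∈ v.asIdeal → algebraMap (𝓞 K) (𝓞 H) y ∈ P := by
    intro y hy
    rw [← hP] at hy
    exact hy
  have hodd := odd_absNorm v h2
  obtain ⟨j, hj⟩ := hodd
  have hspec := chiP_spec e v h2
  have hj2 : (Ideal.absNorm v.asIdeal - 1) / 2 = j := by omega
  rw [hj2] at hspec
  have h3 := hmem _ hspec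
  rw [map_sub, map_pow, map_intCast, ← hs2] at h3
  have h4 : s ^ Ideal.absNorm v.asIdeal - ((chiP e v.asIdeal : ℤ) : 𝓞 H) * s ∈ P := by
    have h5 := P.mul_mem_left s h3
    have h6 : s * ((s ^ 2) ^ j - ((chiP e v.asIdeal : ℤ) : 𝓞 H)) =
        s ^ Ideal.absNorm v.asIdeal - ((chiP e v.asIdeal : ℤ) : 𝓞 H) * s := by
      rw [hj]; ring
    rwa [h6] at h5
  have h7 := P.add_mem hφ h4
  have h8 : (2 : 𝓞 H) * s ∈ P := by
    have h9 : x - s ^ Ideal.absNorm v.asIdeal + (s ^ Ideal.absNorm v.asIdeal -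
        ((chiP e v.asIdeal : ℤ) : 𝓞 H) * s) = -((chiP e v.asIdeal : ℤ) : 𝓞 H) * (2 * s) := by
      rw [hx]; ring
    rw [h9] at h7
    rcases chiP_sq e v.asIdeal with hc | hc
    · rw [hc] at h7
      push_cast at h7
      rw [neg_one_mul] at h7
      exact P.neg_mem_iff.1 h7
    · rw [hc] at h7
      push_cast at h7
      rwa [neg_neg, one_mul] at h7
  rcases (inferInstance : P.IsPrime).mem_or_mem h8 with h | h
  · apply h2
    rw [← hP]
    change algebraMap (𝓞 K) (𝓞 H) 2 ∈ P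
    rwa [map_ofNat]
  · have h10 : s ^ 2 ∈ P := P.pow_mem_of_mem h 2 (by norm_num)
    rw [hs2] at h10
    have hu : IsUnit (algebraMap (𝓞 K) (𝓞 H) (e : 𝓞 K)) := e.isUnit.map _
    exact (inferInstance : P.IsPrime).ne_top (P.eq_top_of_isUnit_mem h10 hu)

/-- TASK F17 (Frobenius automorphisms on `√e`). -/
theorem frob_sqrt (D : FD σ₂ e) (H : IntermediateField K ℝ) (hH : se e ∈ H)
    (v : HeightOneSpectrum (𝓞 K)) (h2 : (2 : 𝓞 K) ∉ v.asIdeal) (P : Ideal (𝓞 H)) [P.IsPrime]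
    (hP : P.under (𝓞 K) = v.asIdeal) (φ : H ≃ₐ[K] H)
    (hφ : ∀ x : 𝓞 H, φ • x - x ^ Ideal.absNorm v.asIdeal ∈ P) :
    act φ (se e) = (chiP e v.asIdeal : ℝ) * se e := by
  have hr2 : se e ^ 2 = algebraMap K ℝ ((e : 𝓞 K) : K) := Real.sq_sqrt D.pos.le
  have hsq : (⟨se e, hH⟩ : H) ^ 2 = algebraMap K H ((e : 𝓞 K) : K) := Subtype.ext hr2
  have hint : IsIntegral ℤ (⟨se e, hH⟩ : H) := by
    apply IsIntegral.of_pow (n := 2) (by norm_num)
    rw [hsq]
    exact (RingOfIntegers.isIntegral_coe (e : 𝓞 K)).algebraMap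
  obtain ⟨s, hs⟩ : ∃ s : 𝓞 H, (s : H) = ⟨se e, hH⟩ := ⟨⟨⟨se e, hH⟩, hint⟩, rfl⟩
  have hs2 : s ^ 2 = algebraMap (𝓞 K) (𝓞 H) (e : 𝓞 K) := by
    apply RingOfIntegers.coe_injective
    rw [map_pow]
    exact (congrArg (· ^ 2) hs).trans hsq
  rw [act_of_mem φ hH]
  have hφ2 : (φ ⟨se e, hH⟩) ^ 2 = (⟨se e, hH⟩ : H) ^ 2 := by
    rw [← map_pow, hsq, φ.commutes]
  have hcoe : (((φ • s : 𝓞 H)) : H) = φ ⟨se e, hH⟩ := by
    rw [← hs]; rfl
  have hcm : ∀ c : ℤ, (((-((c : ℤ) : 𝓞 H) * s : 𝓞 H)) : H) = -(c : H) * ⟨se e, hH⟩ := by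
    intro c
    rw [← hs]
    simp
  have key := F17_aux H e s hs2 v h2 P hP (φ • s) (hφ s)
  rcases sq_eq_sq_iff_eq_or_eq_neg.1 hφ2 with h | h <;> rcases chiP_sq e v.asIdeal with hc | hc
  · rw [h, hc]; simp
  · exfalso
    apply key
    apply RingOfIntegers.ext
    refine Eq.trans ?_ (hcm _).symm
    rw [hc]
    refine hcoe.trans ?_
    rw [h]
    simp
  · exfalso
    apply key
    apply RingOfIntegers.ext
    refine Eq.trans ?_ (hcm _).symm
    rw [hc]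
    refine hcoe.trans ?_
    rw [h]
    simp
  · rw [h, hc]; simp

omit [Algebra K ℝ] in
/-- PROOF. `𝓞 K ⧸ v` is a finite field with `absNorm v` elements and characteristic `p` (`FiniteField.card`). -/
theorem absNorm_pow (v : HeightOneSpectrum (𝓞 K)) : ∃ p f : ℕ, p.Prime ∧ 1 ≤ f ∧
    Ideal.absNorm v.asIdeal = p ^ f ∧ (p : 𝓞 K) ∈ v.asIdeal := by
  have := v.isMaximal
  let _ : Field (𝓞 K ⧸ v.asIdeal) := Ideal.Quotient.field _
  have : Finite (𝓞 K ⧸ v.asIdeal) := Ideal.finiteQuotientOfFreeOfNeBot _ v.ne_bot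
  let _ := Fintype.ofFinite (𝓞 K ⧸ v.asIdeal)
  obtain ⟨p, hp⟩ := CharP.exists (𝓞 K ⧸ v.asIdeal)
  obtain ⟨n, hn, hc⟩ := FiniteField.card (𝓞 K ⧸ v.asIdeal) p
  refine ⟨p, n, hn, n.pos, ?_, ?_⟩
  · rw [Ideal.absNorm_apply, Submodule.cardQuot_apply, ← hc, Nat.card_eq_fintype_card]
  · rw [← Ideal.Quotient.eq_zero_iff_mem, map_natCast]
    exact CharP.cast_eq_zero _ p

end Pool.Agent.STg.F
end

section

/-!
# Basic facts: values of the embeddings, norms
-/

open NumberField IsDedekindDomain nonZeroDivisors IntermediateField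

namespace Pool.Agent.STh.F

open Pool.Agent.ST

variable {K : Type*} [Field K] [NumberField K] [Algebra K ℝ] {σ₂ : K →+* ℝ} {d : ℕ} {a : 𝓞 K}

private lemma F01_trace_real (D : FD σ₂ d a) (x : 𝓞 K) :
    ((Algebra.trace ℤ (𝓞 K) x : ℤ) : ℝ) = algebraMap K ℝ (x : K) + σ₂ (x : K) := by
  classical
  have h1 := trace_eq_sum_embeddings (K := ℚ) (L := K) ℂ (x := (x : K))
  have hne : cemb (sg1 K) ≠ cemb σ₂ := by
    intro h
    apply D.ne
    ext y
    have := DFunLike.congr_fun h y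
    have h3 : ((sg1 K y : ℝ) : ℂ) = (σ₂ y : ℂ) := this
    exact_mod_cast h3.symm
  have huniv : (Finset.univ : Finset (K →ₐ[ℚ] ℂ)) = {cemb (sg1 K), cemb σ₂} := by
    symm
    apply Finset.eq_of_subset_of_card_le (Finset.subset_univ _)
    rw [Finset.card_univ, AlgHom.card, D.deg, Finset.card_pair hne]
  rw [huniv, Finset.sum_pair hne] at h1
  have h3 : ((Algebra.trace ℚ K (x : K) : ℚ) : ℂ) = ((sg1 K x + σ₂ x : ℝ) : ℂ) := by
    rw [Complex.ofReal_add]
    exact h1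
  have h4 : ((Algebra.trace ℚ K (x : K) : ℚ) : ℝ) = sg1 K x + σ₂ x := by exact_mod_cast h3
  rw [← Algebra.coe_trace_int (K := K) x] at h4
  push_cast at h4
  exact h4

private lemma F01_sqK (D : FD σ₂ d a) : (a : K) ^ 2 = (d : K) := by
  have h := congrArg (algebraMap (𝓞 K) K) D.sq
  rw [map_pow, map_natCast] at h
  exact h

private lemma F01_not_rat (D : FD σ₂ d a) (q : ℚ) (h : (a : K) = algebraMap ℚ K q) : False := by
  have h1 := F01_sqK D
  rw [h, ← map_pow] at h1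
  have h2 : q ^ 2 = (d : ℚ) := by
    apply (algebraMap ℚ K).injective
    rw [h1, map_natCast]
  apply D.nsq
  rw [← Rat.isSquare_natCast_iff]
  exact ⟨q, by rw [← h2, sq]⟩

lemma FD.d_pos (D : FD σ₂ d a) : 0 < d := by
  rcases Nat.eq_zero_or_pos d with h | h
  · exfalso
    apply D.nsq
    rw [h]
    exact ⟨0, rfl⟩
  · exact h

/-- `a > 0`, `a ^ 2 = d` -/
lemma FD.alg (D : FD σ₂ d a) : algebraMap K ℝ (a : K) = Real.sqrt d := by
  have h := congrArg (algebraMap K ℝ) (F01_sqK D)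
  rw [map_pow, map_natCast] at h
  rw [← h, Real.sqrt_sq D.pos.le]

/-- `K = ℚ(a)`: the degree is `2` and `a` is not rational (`d` is not a square) -/
lemma FD.adjoin (D : FD σ₂ d a) : IntermediateField.adjoin ℚ {(a : K)} = ⊤ := by
  have h1 := Module.finrank_mul_finrank ℚ (IntermediateField.adjoin ℚ {(a : K)}) K
  rw [D.deg] at h1
  have h2 : Module.finrank ℚ (IntermediateField.adjoin ℚ {(a : K)}) ∣ 2 := ⟨_, h1.symm⟩
  rcases (Nat.dvd_prime Nat.prime_two).1 h2 with h3 | h3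
  · exfalso
    rw [IntermediateField.finrank_eq_one_iff] at h3
    have h4 : (a : K) ∈ IntermediateField.adjoin ℚ {(a : K)} :=
      IntermediateField.mem_adjoin_simple_self ℚ _
    rw [h3, IntermediateField.mem_bot] at h4
    obtain ⟨q, hq⟩ := h4
    exact F01_not_rat D q hq.symm
  · rw [h3] at h1
    have h4 : Module.finrank (IntermediateField.adjoin ℚ {(a : K)}) K = 1 := by omega
    exact IntermediateField.finrank_eq_one_iff_eq_top.mp h4

/-- `σ₂ a = ± √d`; the sign `+` would give `σ₂ = sg1 K` (`FD.adjoin`) -/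
lemma FD.sig (D : FD σ₂ d a) : σ₂ (a : K) = -Real.sqrt d := by
  have h := congrArg σ₂ (F01_sqK D)
  rw [map_pow, map_natCast] at h
  have h1 : (σ₂ (a : K) - Real.sqrt d) * (σ₂ (a : K) + Real.sqrt d) = 0 := by
    have h2 : Real.sqrt d ^ 2 = (d : ℝ) := Real.sq_sqrt (Nat.cast_nonneg d)
    linear_combination h - h2
  rcases mul_eq_zero.mp h1 with h2 | h2
  · exfalso
    have h3 : sg1 K (a : K) = σ₂ (a : K) := by
      have h4 : sg1 K (a : K) = Real.sqrt d := D.alg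
      rw [h4]
      linarith
    obtain ⟨q, hq⟩ := exists_rat_of_eq D.deg D.ne h3
    exact F01_not_rat D q hq
  · linarith

lemma FD.se_sq (D : FD σ₂ d a) : se a ^ 2 = algebraMap K ℝ (a : K) := by
  exact Real.sq_sqrt D.pos.le

lemma FD.se_pos (D : FD σ₂ d a) : 0 < se a := by
  exact Real.sqrt_pos.mpr D.pos

/-- See `norm_real` in `MP_1ef7cf_nt_g/F01.lean` (also for the next lemmas). -/
theorem norm_real (D : FD σ₂ d a) (x : 𝓞 K) :
    ((Algebra.norm ℤ x : ℤ) : ℝ) = algebraMap K ℝ (x : K) * σ₂ (x : K) := by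
  have h := norm_eq D.deg D.ne (x : K)
  rw [← Algebra.coe_norm_int (K := K) x] at h
  push_cast at h
  exact h

theorem absNorm_nat (x : 𝓞 K) : Ideal.absNorm (Ideal.span {x}) = (Algebra.norm ℤ x).natAbs := by
  rw [Ideal.absNorm_span_singleton]

theorem norm_one_add (D : FD σ₂ d a) (m : ℤ) (x : 𝓞 K) :
    Algebra.norm ℤ (1 + (m : 𝓞 K) * x) =
      1 + m * Algebra.trace ℤ (𝓞 K) x + m ^ 2 * Algebra.norm ℤ x := by
  have ht := F01_trace_real D x
  have hn := norm_real D x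
  have hn' := norm_real D (1 + (m : 𝓞 K) * x)
  apply Int.cast_injective (α := ℝ)
  push_cast
  rw [ht, hn, hn']
  simp only [map_add, map_mul, map_one, map_intCast]
  ring

end Pool.Agent.STh.F
end
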