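import Pool.Agent.Lib.MP_1ef7cf_nt_g.Mg.G044
import Pool.Agent.Lib.MP_1ef7cf_nt_g.Mg.G045
import Pool.Agent.Lib.MP_1ef7cf_nt_g.Mg.G046
import Pool.Agent.Lib.MP_1ef7cf_nt_g.Mg.G049
import Pool.Agent.Lib.MP_1ef7cf_nt_h.U2a
import Pool.Agent.Lib.MP_1ef7cf_nt_h.Mg.G014

section

/-!
# The numbers `xv` are units
-/

open Complex

namespace Pool.Agent.STg

variable (D : LemData) (U : UD)

lemma E5_even {a : GaussianInt} (ha : ¬ gOdd a) : ∃ b : GaussianInt, a = ⟨1, 1⟩ * b := by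
  have h1 : Even (gN a) := Nat.not_odd_iff_even.1 ha
  have h2 : Even (a.re * a.re + a.im * a.im) := by
    unfold gN at h1
    rw [Int.natAbs_even, Zsqrtd.norm_def] at h1
    have e : a.re * a.re - -1 * a.im * a.im = a.re * a.re + a.im * a.im := by ring
    rw [e] at h1
    exact h1
  have h3 : Even (a.re + a.im) := by
    rw [Int.even_add, Int.even_mul, Int.even_mul, or_self, or_self] at h2
    exact Int.even_add.2 h2
  obtain ⟨m, hm⟩ := h3
  refine ⟨⟨m, m - a.re⟩, ?_⟩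
  ext
  · rw [Zsqrtd.re_mul]
    change a.re = 1 * m + -1 * 1 * (m - a.re)
    ring
  · rw [Zsqrtd.im_mul]
    change a.im = 1 * (m - a.re) + 1 * m
    linarith

lemma E5_val_two (V : ValuationSubring ℂ) {π : GaussianInt} (hπ : Prime π)
    (h : V.valuation (π : ℂ) < 1) (hodd : ¬ gOdd π) : V.valuation (2 : ℂ) < 1 := by
  obtain ⟨b, hb⟩ := E5_even hodd
  have h1 : ¬ IsUnit (⟨1, 1⟩ : GaussianInt) := by
    intro h
    have h1 := (Zsqrtd.norm_eq_one_iff).2 h
    revert h1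
    decide
  have h2 : IsUnit b := by
    rcases hπ.irreducible.isUnit_or_isUnit hb with h3 | h3
    · exact absurd h3 h1
    · exact h3
  obtain ⟨c, hc⟩ := h2.exists_right_inv
  have h3 : (2 : GaussianInt) = π * (c * ⟨1, -1⟩) := by
    have h4 : (2 : GaussianInt) = ⟨1, 1⟩ * ⟨1, -1⟩ := by
      ext <;> rfl
    rw [h4, hb]
    calc (⟨1, 1⟩ : GaussianInt) * ⟨1, -1⟩ = ⟨1, 1⟩ * 1 * ⟨1, -1⟩ := by rw [mul_one]
      _ = _ := by
        rw [← hc]
        ring
  have h4 : V.valuation ((2 : GaussianInt) : ℂ) < 1 := by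
    rw [h3, map_mul, map_mul]
    exact mul_lt_one_of_lt_of_le h (val_gauss V _)
  rw [map_ofNat] at h4
  exact h4

/-- `LemData.val_unit_odd` if `π` is odd; `LemData.val_indep` if `π` is even (then `v 2 < 1`): all
`v (X (a / f) - t)` are equal to `e₀`, and `v (th a) = e₀ ^ (number of t)`. -/
lemma val_th (V : ValuationSubring ℂ) {π : GaussianInt} (hπ : Prime π)
    (h : V.valuation (π : ℂ) < 1) {J : ℕ} (hJ : 2 ≤ J) {α : GaussianInt} (hα : Prim α)
    (hαδ : IsCoprime α U.δ) (hπα : ¬ π ∣ α) : ∃ e, e ≠ 0 ∧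
      ∀ a : GaussianInt, IsCoprime a (U.f J) → V.valuation (th D α (U.f J) a) = e := by
  have h1 : th D α (U.f J) 1 ≠ 0 :=
    th_ne_zero D hα.odd.ne_zero (U.f_not_unit (by omega)) (U.f_ne_zero J) (U.coprime_f hα J hαδ)
      isCoprime_one_left
  refine ⟨V.valuation (th D α (U.f J) 1), (Valuation.ne_zero_iff _).2 h1, ?_⟩
  intro a ha
  unfold th
  rw [map_prod, map_prod]
  refine Finset.prod_congr rfl ?_
  intro t ht
  by_cases hodd : gOdd π
  · rw [D.val_unit_odd V U hJ hπ hodd h hα hαδ hπα ha ht,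
      D.val_unit_odd V U hJ hπ hodd h hα hαδ hπα isCoprime_one_left ht]
  · exact D.val_indep V (E5_val_two V hπ h hodd) U hJ hα hαδ ⟨a, ha, rfl⟩
      ⟨1, isCoprime_one_left, rfl⟩ ht ht

/-- The numerator and the denominator of `vv g` have the same number of factors (`card_translate` with
`β` such that `sM β = zc`: `exists_zc`). -/
lemma val_vv (V : ValuationSubring ℂ) {π : GaussianInt} (hπ : Prime π)
    (h : V.valuation (π : ℂ) < 1) {k J : ℕ} (hJ : k + 4 ≤ J) {α : GaussianInt} (hα : Prim α)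
    (hαδ : IsCoprime α U.δ) (hπα : ¬ π ∣ α) (g : Gam k) :
    V.valuation (vv D U k J α g) = 1 := by
  classical
  obtain ⟨e, he, hth⟩ := val_th D U V hπ h (J := J) (by omega) hα hαδ hπα
  obtain ⟨β, hβ, hβδ, hβz, _⟩ := exists_zc U k (q := 1) isCoprime_one_left 1
  have hPR := isPR_PR (U.f_ne_zero J)
  have key : ∀ g' : Gam k, V.valuation (∏ a ∈ PR (U.f J),
      if sM U k a = g' then th D α (U.f J) a else 1) =
      e ^ ((PR (U.f J)).filter (fun a => sM U k a = g')).card := by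
    intro g'
    rw [← Finset.prod_filter, map_prod, ← Finset.prod_const]
    refine Finset.prod_congr rfl ?_
    intro a ha
    exact hth a (hPR.1 a (Finset.mem_filter.1 ha).1).2
  have hcard := card_translate U hJ hβ hβδ g
  rw [hβz] at hcard
  have h1 := key g
  have h2 := key (zc k * g)
  have h3 : vv D U k J α g = (∏ a ∈ PR (U.f J), if sM U k a = g then th D α (U.f J) a else 1) /
      (∏ a ∈ PR (U.f J), if sM U k a = zc k * g then th D α (U.f J) a else 1) := by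
    unfold vv
    congr 1
  have hcard' : ((PR (U.f J)).filter (fun a => sM U k a = zc k * g)).card =
      ((PR (U.f J)).filter (fun a => sM U k a = g)).card := by
    refine Eq.trans ?_ (hcard.trans ?_)
    · congr 1
    · congr 1
  rw [h3, map_div₀, h1, h2, hcard', div_self (pow_ne_zero _ he)]

lemma E5_eq_one_iff (V : ValuationSubring ℂ) (x : ℂ) :
    V.valuation x = 1 ↔ x ≠ 0 ∧ x ∈ V ∧ x⁻¹ ∈ V := by
  rw [← ValuationSubring.valuation_le_one_iff, ← ValuationSubring.valuation_le_one_iff, map_inv₀]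
  constructor
  · intro h
    refine ⟨?_, h.le, ?_⟩
    · rintro rfl
      rw [map_zero] at h
      exact zero_ne_one h
    · rw [h, inv_one]
  · rintro ⟨h1, h2, h3⟩
    have h4 : V.valuation x ≠ 0 := (Valuation.ne_zero_iff _).2 h1
    refine le_antisymm h2 ?_
    by_contra h5
    have h6 : V.valuation x < 1 := not_le.1 h5
    have h7 : V.valuation x * (V.valuation x)⁻¹ < 1 := mul_lt_one_of_lt_of_le h6 h3
    rw [mul_inv_cancel₀ h4] at h7
    exact lt_irrefl _ h7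

/-- the conjugate valuation ring (`ValuationSubring.comap`) -/
lemma exists_conj_val (V : ValuationSubring ℂ) : ∃ V' : ValuationSubring ℂ, ∀ x : ℂ,
    (V'.valuation x < 1 ↔ V.valuation (starRingEnd ℂ x) < 1) ∧
      (V'.valuation x = 1 ↔ V.valuation (starRingEnd ℂ x) = 1) := by
  refine ⟨V.comap (starRingEnd ℂ), ?_⟩
  intro x
  have hmem : ∀ y : ℂ, y ∈ V.comap (starRingEnd ℂ) ↔ starRingEnd ℂ y ∈ V := fun y => Iff.rfl
  have h1 : (V.comap (starRingEnd ℂ)).valuation x = 1 ↔ V.valuation (starRingEnd ℂ x) = 1 := by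
    rw [E5_eq_one_iff, E5_eq_one_iff, hmem, hmem, map_inv₀, Ne, Ne, map_eq_zero]
  refine ⟨?_, h1⟩
  rw [lt_iff_le_and_ne, lt_iff_le_and_ne, Ne, Ne, h1, ValuationSubring.valuation_le_one_iff,
    ValuationSubring.valuation_le_one_iff, hmem]

lemma E5_star_prime {π : GaussianInt} (hπ : Prime π) : Prime (star π) :=
  (MulEquiv.prime_iff (starRingAut (R := GaussianInt))).2 hπ

lemma E5_q {m π : GaussianInt} (hπ : Prime π) : ∃ q : GaussianInt, IsCoprime q m ∧
    ∀ α : GaussianInt, IsCoprime α m → q ∣ α - 1 → ¬ π ∣ α := by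
  by_cases h : π ∣ m
  · exact ⟨1, isCoprime_one_left, fun α hα _ h1 => hπ.not_isUnit (hα.isUnit_of_dvd' h1 h)⟩
  · refine ⟨π, (Irreducible.coprime_iff_not_dvd hπ.irreducible).2 h, ?_⟩
    intro α _ h1 h2
    apply hπ.not_isUnit
    apply isUnit_of_dvd_one
    have h3 := dvd_sub h2 h1
    rw [sub_sub_cancel] at h3
    exact h3

/-- An element `α` with `sM α = zc` and prime to `π` and its conjugate `π'`: `exists_zc` with
`c = 1` and `q` the product of those of `π`, `π'` which do not divide `2 δ`. -/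
lemma exists_zc_coprime (k : ℕ) {π : GaussianInt} (hπ : Prime π) : ∃ α : GaussianInt, Prim α ∧
    IsCoprime α U.δ ∧ sM U k α = zc k ∧ ¬ π ∣ α ∧ ¬ star π ∣ α := by
  obtain ⟨q, hq, hq'⟩ := E5_q (m := 2 * U.δ) hπ
  obtain ⟨r, hr, hr'⟩ := E5_q (m := 2 * U.δ) (E5_star_prime hπ)
  obtain ⟨α, h1, h2, h3, h4⟩ := exists_zc U k (q := q * r) (hq.mul_left hr) 1
  have h5 : IsCoprime α (2 * U.δ) := h1.coprime_two.mul_right h2
  exact ⟨α, h1, h2, h3, hq' α h5 ((dvd_mul_right _ _).trans h4),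
    hr' α h5 ((dvd_mul_left _ _).trans h4)⟩

/-- **The numbers `xv` are units over all primes.** Let `α` be as in `exists_zc_coprime`. By `xv_vv` and `xv_zc`:
`xv g ^ (-1) = xv g ^ N(α) vv conj(vv)`; `v (vv) = 1` by `val_vv`, `v (conj vv) = 1` by `val_vv` for
the conjugate valuation and `star π`. So `v (xv g) ^ (N(α) + 1) = 1`. -/
theorem val_xv (V : ValuationSubring ℂ) {π : GaussianInt} (hπ : Prime π)
    (h : V.valuation (π : ℂ) < 1) {k J : ℕ} (hJ : k + 4 ≤ J) (g : Gam k) :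
    V.valuation ((xv D U k J g : ℝ) : ℂ) = 1 := by
  obtain ⟨α, hα, hαδ, hz, hπα, hsα⟩ := exists_zc_coprime U k hπ
  have h1 := xv_vv D U hJ hα hαδ ⟨α, hα, hαδ, hz⟩ g
  rw [hz, xv_zc] at h1
  have hpos := xv_pos D U (k := k) (J := J) g
  have h2 : xv D U k J g ^ (gN α + 1) * ‖vv D U k J α g‖ ^ 2 = 1 := by
    calc xv D U k J g ^ (gN α + 1) * ‖vv D U k J α g‖ ^ 2 =
        xv D U k J g * (xv D U k J g ^ gN α * ‖vv D U k J α g‖ ^ 2) := by ring
      _ = 1 := by rw [← h1, mul_inv_cancel₀ hpos.ne']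
  have h3 : ((xv D U k J g : ℝ) : ℂ) ^ (gN α + 1) *
      (vv D U k J α g * starRingEnd ℂ (vv D U k J α g)) = 1 := by
    rw [mul_conj, normSq_eq_norm_sq, ← ofReal_pow, ← ofReal_mul, h2, ofReal_one]
  have hv1 := val_vv D U V hπ h hJ hα hαδ hπα g
  have hv2 : V.valuation (starRingEnd ℂ (vv D U k J α g)) = 1 := by
    obtain ⟨V', hV'⟩ := exists_conj_val V
    rw [← (hV' _).2]
    refine val_vv D U V' (E5_star_prime hπ) ?_ hJ hα hαδ hsα g
    rw [(hV' _).1, GaussianInt.toComplex_star, Complex.conj_conj]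
    exact h
  have h4 := congrArg V.valuation h3
  rw [map_mul, map_mul, hv1, hv2, mul_one, mul_one, map_one, map_pow] at h4
  exact (pow_eq_one_iff_of_nonneg zero_le (by omega)).1 h4

end Pool.Agent.STg
end

section

/-!
# The coordinates of the embeddings
-/

open Complex

namespace Pool.Agent.STh

open Pool.Agent.STg

variable (U : UD) (k : ℕ)

lemma V4_zq_prim {Q : ℕ} (hQ : Q ≠ 0) : IsPrimitiveRoot (zq Q) Q :=
  Complex.isPrimitiveRoot_exp Q hQ

lemma V4_zq_mem {Q : ℕ} (hQ : Q ≠ 0) : zq Q ∈ Qb := by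
  unfold Qb
  rw [mem_algebraicClosure_iff']
  refine IsIntegral.of_pow (n := Q) (Nat.pos_of_ne_zero hQ) ?_
  rw [(V4_zq_prim hQ).pow_eq_one]
  exact isIntegral_one

lemma V4_zq_pow (Q m : ℕ) : zq Q ^ m + (zq Q ^ m)⁻¹ =
    2 * (Real.cos (2 * Real.pi * m / Q) : ℂ) := by
  unfold zq
  rw [← Complex.exp_nat_mul, ← Complex.exp_neg, Complex.ofReal_cos]
  unfold Complex.cos
  have h1 : (m : ℂ) * (2 * Real.pi * I / Q) = ((2 * Real.pi * m / Q : ℝ) : ℂ) * I := by
    push_cast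
    ring
  rw [h1]
  have h2 : -(((2 * Real.pi * m / Q : ℝ) : ℂ) * I) =
      -((2 * Real.pi * m / Q : ℝ) : ℂ) * I := by ring
  rw [h2]
  ring

lemma V4_zq_ne (Q : ℕ) : zq Q ≠ 0 := by
  unfold zq
  exact Complex.exp_ne_zero _

lemma V4_two_cq (Q : ℕ) : zq Q + (zq Q)⁻¹ = 2 * (cq Q : ℂ) := by
  have h1 := V4_zq_pow Q 1
  rw [pow_one, Nat.cast_one, mul_one] at h1
  exact h1

lemma V4_ap_zq_add (h : Qb →+* ℂ) :
    ap h (zq (U.M k)) + (ap h (zq (U.M k)))⁻¹ = 2 * ap h (cq (U.M k) : ℂ) := by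
  have hz := V4_zq_mem (U.M_ne_zero k)
  have h1 : ap h (zq (U.M k) + (zq (U.M k))⁻¹) = ap h (2 * (cq (U.M k) : ℂ)) := by rw [V4_two_cq]
  have h2 : (2 : ℂ) ∈ Qb := by
    have := V3c_int_mem 2
    exact_mod_cast this
  rw [ap_add h hz (inv_mem hz), ap_inv h hz, ap_mul h h2 (Rk_mem_Qb U k (cq_mem U k)),
    V4_ap_two] at h1
  exact h1

lemma V4_four_dvd : 4 ∣ U.M k := (by norm_num : (4 : ℕ) ∣ 64).trans (U.dvd64 k)

lemma V4_unitI : ∃ u : GaussianIntˣ, ((u : GaussianInt) : ℂ) = I := by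
  refine ⟨⟨⟨0, 1⟩, ⟨0, -1⟩, by decide, by decide⟩, ?_⟩
  rw [GaussianInt.toComplex_def]
  simp

/-- embeddings map `ζ` to a power of `ζ`; if `h i = i` and `h (cos (2 π / Q)) = cos (2 π m / Q)`
with `m = 1` modulo `4` then `h ζ = ζ ^ m`. (`h ζ = ζ ^ j`, `j` prime to `Q`, `ζ ^ j + ζ ^ (-j) =
ζ ^ m + ζ ^ (-m)` so `j = m` or `-m` modulo `Q`; `h i = i` gives `j = 1` modulo `4`, `i = ζ ^ (Q / 4)`, `4 ∣ Q`.) -/
theorem ap_zq (h : Qb →+* ℂ) (hI : ap h I = I) {m : ℕ} (hm : m % 4 = 1)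
    (hc : ap h (cq (U.M k) : ℂ) = (Real.cos (2 * Real.pi * m / U.M k) : ℂ)) :
    ap h (zq (U.M k)) = zq (U.M k) ^ m := by
  have hz := V4_zq_mem (U.M_ne_zero k)
  have hz0 := V4_zq_ne (U.M k)
  have hw0 : ap h (zq (U.M k)) ≠ 0 := by
    intro h0
    exact hz0 ((ap_eq_zero h hz).mp h0)
  have h1 := V4_ap_zq_add U k h
  rw [hc, ← V4_zq_pow] at h1
  rcases V4_cancel hw0 (pow_ne_zero m hz0) h1 with h2 | h2
  · exact h2
  · exfalso
    have hI' := I_eq_zq (U.M_ne_zero k) (V4_four_dvd U k)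
    have h3 : ap h I = (ap h (zq (U.M k))) ^ (U.M k / 4) := by
      conv_lhs => rw [hI']
      rw [ap_pow h hz]
    rw [hI, h2, ← inv_pow, ← pow_mul, mul_comm m, pow_mul, inv_pow, ← hI', inv_pow,
      V4_I_pow hm, Complex.inv_I] at h3
    exact V4_I_ne_neg h3

/-- every embedding of `Rk` has a coordinate `m`, prime to `Q` and `1` modulo `4`, for
`cos (2 π / Q)` -/
theorem exists_coord (φ : Rk U k →+* ℂ) : ∃ m : ℕ, m % 4 = 1 ∧ m.Coprime (U.M k) ∧
    ap φ (cq (U.M k)) = (Real.cos (2 * Real.pi * m / U.M k) : ℂ) := by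
  obtain ⟨h, hI, hφ⟩ := exists_ext_Rk U k φ
  rw [← hφ _ (cq_mem U k)]
  have hQ := U.M_ne_zero k
  have hz := V4_zq_mem hQ
  have hadd := V4_ap_zq_add U k h
  have hprim := V4_zq_prim hQ
  have h1 : ap h (zq (U.M k)) ^ (U.M k) = 1 := by
    rw [← ap_pow h hz, hprim.pow_eq_one, ap_one]
  have : NeZero (U.M k) := ⟨hQ⟩
  obtain ⟨m, -, hm⟩ := hprim.eq_pow_of_pow_eq_one h1
  have hI' := I_eq_zq hQ (V4_four_dvd U k)
  have h3 : ap h I = (ap h (zq (U.M k))) ^ (U.M k / 4) := by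
    conv_lhs => rw [hI']
    rw [ap_pow h hz]
  rw [hI, ← hm, ← pow_mul, mul_comm m, pow_mul, ← hI'] at h3
  have hm4 : m % 4 = 1 := by
    have h5 : m = 4 * (m / 4) + m % 4 := by omega
    have h6 : I ^ m = I ^ (m % 4) := by
      conv_lhs => rw [h5]
      rw [pow_add, pow_mul, Complex.I_pow_four, one_pow, one_mul]
    rw [h6] at h3
    have h7 : m % 4 < 4 := Nat.mod_lt _ (by norm_num)
    interval_cases hr : m % 4
    · exfalso
      rw [pow_zero] at h3
      have h8 := congrArg Complex.im h3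
      rw [Complex.I_im, Complex.one_im] at h8
      norm_num at h8
    · rfl
    · exfalso
      rw [Complex.I_sq] at h3
      have h8 := congrArg Complex.im h3
      rw [Complex.I_im, Complex.neg_im, Complex.one_im] at h8
      norm_num at h8
    · exfalso
      have h9 : I ^ 3 = -I := by
        rw [pow_succ, Complex.I_sq]
        ring
      rw [h9] at h3
      exact V4_I_ne_neg h3
  refine ⟨m, hm4, ?_, ?_⟩
  · rw [← hprim.pow_iff_coprime (Nat.pos_of_ne_zero hQ)]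
    rw [hm]
    refine ⟨h1, fun l hl => ?_⟩
    rw [← ap_pow h hz] at hl
    have h2 : ap h (zq (U.M k) ^ l - 1) = 0 := by
      rw [ap_sub h (pow_mem hz l) (one_mem _), hl, ap_one, sub_self]
    have h4 := (ap_eq_zero h (sub_mem (pow_mem hz l) (one_mem _))).mp h2
    exact hprim.dvd_of_pow_eq_one l (sub_eq_zero.mp h4)
  · rw [← hm, V4_zq_pow] at hadd
    exact (mul_left_cancel₀ two_ne_zero hadd).symm

/-- over the first embedding: `h r = s r`, `s = 1` or `-1` gives `conj (h (conj r)) = s r` -/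
theorem ap_r_first (h : Qb →+* ℂ) {s : ℤˣ}
    (hr : ap h (U.r : ℂ) = ((s : ℤ) : ℂ) * (U.r : ℂ)) :
    starRingEnd ℂ (ap h (starRingEnd ℂ (U.r : ℂ))) = ((s : ℤ) : ℂ) * (U.r : ℂ) := by
  rw [Complex.conj_ofReal, hr, map_mul, Complex.conj_ofReal, map_intCast]

/-- over the second embedding: `h √d = -√d`, so `(h r) ^ 2 = -r ^ 2`, `h r = u r` with `u = i` or
`-i`, and `conj (h (conj r)) = -u r`. -/
theorem ap_r_second (h : Qb →+* ℂ) (he : ap h (U.e : ℂ) = -(U.e : ℂ)) :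
    ∃ u : GaussianIntˣ, ap h (U.r : ℂ) = ((u : GaussianInt) : ℂ) * (U.r : ℂ) ∧
      starRingEnd ℂ (ap h (starRingEnd ℂ (U.r : ℂ))) =
        (((-u : GaussianIntˣ) : GaussianInt) : ℂ) * (U.r : ℂ) := by
  have hrm : (U.r : ℂ) ∈ Qb := Rk_mem_Qb U 0 (U.r_mem 0)
  have hre : (U.e : ℂ) = (U.r : ℂ) ^ 2 := by
    rw [← U.r_sq]
    push_cast
    rfl
  rw [hre, ap_pow h hrm] at he
  have h3 : (ap h (U.r : ℂ) - I * (U.r : ℂ)) * (ap h (U.r : ℂ) + I * (U.r : ℂ)) = 0 := by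
    linear_combination he - (U.r : ℂ) ^ 2 * Complex.I_sq
  obtain ⟨u, hu⟩ := V4_unitI
  rw [Complex.conj_ofReal]
  rcases mul_eq_zero.mp h3 with h4 | h4
  · have h5 : ap h (U.r : ℂ) = I * (U.r : ℂ) := sub_eq_zero.mp h4
    refine ⟨u, by rw [hu]; exact h5, ?_⟩
    rw [h5, map_mul, Complex.conj_ofReal, Complex.conj_I, Units.val_neg, map_neg, hu]
  · have h5 : ap h (U.r : ℂ) = -I * (U.r : ℂ) := by linear_combination h4
    refine ⟨-u, by rw [Units.val_neg, map_neg, hu]; exact h5, ?_⟩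
    rw [h5, map_mul, Complex.conj_ofReal, map_neg, Complex.conj_I, neg_neg, neg_neg, hu]

end Pool.Agent.STh
end

section

/-!
# Descent of Galois functions
-/

open Complex

namespace Pool.Agent.STh

open Pool.Agent.STg

/-! Adapt `MP_1ef7cf_nt_g/U2.lean`. -/

variable (U : UD)

/-- **Descent.** `mem`: `y (pr g)` is fixed by the embeddings over `Rk U k` (`exists_coord`,
`ap_cq_succ`, `nu_eq_of_cos`: `pr (1, nu m) = 1`), use `mem_Rk_of_fixed`. `gal`, `abs`: extend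
`φ` (`exists_ext_succ`), `exists_coord`, `nu_eq_of_cos`. -/
theorem isGF_down {k : ℕ} {y : Gam (U.M k) → ℝ} (h : IsGF U (k + 1) (fun g => y (pr U k g))) :
    IsGF U k y := by
  have hcop : ∀ {m : ℕ}, m.Coprime (U.M (k + 1)) → m.Coprime (U.M k) :=
    fun hm => Nat.Coprime.coprime_dvd_right (UD.M_dvd U (Nat.le_succ k)) hm
  have hmem : ∀ g, y g ∈ Rk U k := by
    intro g
    obtain ⟨g', rfl⟩ := pr_surjective U k g
    refine mem_Rk_of_fixed U (h.mem g') ?_
    intro φ' hφ'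
    obtain ⟨m, hm, hmc, hc⟩ := exists_coord U (k + 1) φ'
    have h1 := ap_cq_succ U φ' hc
    rw [hφ' _ (cq_mem U k)] at h1
    have h2 : Real.cos (2 * Real.pi * m / U.M k)
        = Real.cos (2 * Real.pi * (1 : ℕ) / U.M k) := by
      have h3 : cq (U.M k) = Real.cos (2 * Real.pi * m / U.M k) := by exact_mod_cast h1
      rw [← h3]
      unfold cq
      simp
    have h4 : nu (U.M k) m = 1 := by
      rw [nu_eq_of_cos U hm (by norm_num) (hcop hmc) (Nat.coprime_one_left _) h2, nu_one]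
    have h5 := h.gal φ' 1 m hm hmc (by
      rw [hφ' _ (UD.r_mem U k)]
      simp) hc g'
    rw [map_mul, pr_mk U (hcop hmc), h4, map_one] at h5
    have h6 : ((1 : GaussianIntˣ), (1 : (ZMod (U.M k))ˣ)) = 1 := rfl
    rw [h6, one_mul] at h5
    exact h5
  refine ⟨?_, hmem, ?_, ?_⟩
  · intro g
    obtain ⟨g', rfl⟩ := pr_surjective U k g
    exact h.pos g'
  · intro φ s m hm hmc hr hc g
    obtain ⟨g', rfl⟩ := pr_surjective U k g
    obtain ⟨φ', hφ'⟩ := exists_ext_succ U φ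
    obtain ⟨m', hm', hmc', hc'⟩ := exists_coord U (k + 1) φ'
    have h1 := ap_cq_succ U φ' hc'
    rw [hφ' _ (cq_mem U k), hc] at h1
    have h2 : Real.cos (2 * Real.pi * m / U.M k) = Real.cos (2 * Real.pi * m' / U.M k) := by
      exact_mod_cast h1
    have h4 : nu (U.M k) m = nu (U.M k) m' := nu_eq_of_cos U hm hm' hmc (hcop hmc') h2
    have h5 := h.gal φ' s m' hm' hmc' (by rw [hφ' _ (UD.r_mem U k), hr]) hc' g'
    rw [map_mul, pr_mk U (hcop hmc'), ← h4] at h5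
    rw [← hφ' _ (hmem (pr U k g'))]
    exact h5
  · intro φ he g
    obtain ⟨g', rfl⟩ := pr_surjective U k g
    obtain ⟨φ', hφ'⟩ := exists_ext_succ U φ
    have h1 : U.e ∈ Rk U k := UD.e_mem U k
    have h2 := h.abs φ' (by rw [hφ' _ h1, he]) g'
    rw [← hφ' _ (hmem (pr U k g'))]
    exact h2

end Pool.Agent.STh
end
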