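import Mathlib

section

set_option autoImplicit false

open Complex Filter Topology
open scoped ComplexConjugate

namespace Pool.Agent.STg.An

/-! functions with proportional moduli are proportional. -/

/-- Proof: `Set.Countable.isPathConnected_compl_of_one_lt_rank` (`rank ℝ ℂ = 2`,
`Complex.rank_real_complex`). -/
theorem preconn_compl {D : Set ℂ} (hD : D.Countable) : IsPreconnected Dᶜ := by
  have h : 1 < Module.rank ℝ ℂ := by
    rw [Complex.rank_real_complex]
    norm_num
  exact (hD.isPathConnected_compl_of_one_lt_rank h).isConnected.isPreconnected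

/-- Proof: if `g = 0` on `Dᶜ` then `f = 0` on `Dᶜ`, `c = 0`. Otherwise let `g z₀ ≠ 0`. Near `z₀` the
function `f / g` is differentiable and has constant norm `C`, so it is constant near `z₀`
(`Complex.eventually_eq_of_isLocalMax_norm`). So `f = c * g` near `z₀`, hence on the preconnected
open set `Dᶜ` (`AnalyticOnNhd.eqOn_of_preconnected_of_eventuallyEq`,
`DifferentiableOn.analyticOnNhd`). -/
theorem modulus {D : Set ℂ} (hD : IsClosed D) (hc : D.Countable) {f g : ℂ → ℂ}
    (hf : DifferentiableOn ℂ f Dᶜ) (hg : DifferentiableOn ℂ g Dᶜ) {C : ℝ}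
    (h : ∀ z ∈ Dᶜ, ‖f z‖ = C * ‖g z‖) : ∃ c : ℂ, ∀ z ∈ Dᶜ, f z = c * g z := by
  have hopen : IsOpen Dᶜ := hD.isOpen_compl
  by_cases h0 : ∀ z ∈ Dᶜ, g z = 0
  · refine ⟨0, fun z hz => ?_⟩
    have h1 := h z hz
    rw [h0 z hz, norm_zero, mul_zero, norm_eq_zero] at h1
    rw [h1, zero_mul]
  · push Not at h0
    obtain ⟨z₀, hz₀, hg0⟩ := h0
    have hnhds : Dᶜ ∈ 𝓝 z₀ := hopen.mem_nhds hz₀
    have hgc : ContinuousAt g z₀ := (hg.differentiableAt hnhds).continuousAt
    have hgne : ∀ᶠ z in 𝓝 z₀, g z ≠ 0 := hgc.eventually_ne hg0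
    have hdiff : ∀ᶠ z in 𝓝 z₀, DifferentiableAt ℂ (fun z => f z / g z) z := by
      filter_upwards [hgne, hopen.eventually_mem hz₀] with z h1 h2
      exact (hf.differentiableAt (hopen.mem_nhds h2)).div
        (hg.differentiableAt (hopen.mem_nhds h2)) h1
    have hnorm : ∀ᶠ z in 𝓝 z₀, ‖f z / g z‖ = C := by
      filter_upwards [hgne, hopen.eventually_mem hz₀] with z h1 h2
      rw [norm_div, h z h2, mul_div_assoc, div_self (norm_ne_zero_iff.mpr h1), mul_one]
    have hloc : IsLocalMax (norm ∘ fun z => f z / g z) z₀ := by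
      have h00 : ‖f z₀ / g z₀‖ = C := hnorm.self_of_nhds
      filter_upwards [hnorm] with z hz
      simp only [Function.comp]
      rw [hz, h00]
    have hconst := Complex.eventually_eq_of_isLocalMax_norm hdiff hloc
    refine ⟨f z₀ / g z₀, ?_⟩
    have hfa : AnalyticOnNhd ℂ f Dᶜ := hf.analyticOnNhd hopen
    have hga : AnalyticOnNhd ℂ (fun z => (f z₀ / g z₀) * g z) Dᶜ :=
      (hg.const_mul _).analyticOnNhd hopen
    have heq : f =ᶠ[𝓝 z₀] fun z => (f z₀ / g z₀) * g z := by
      filter_upwards [hconst, hgne] with z h1 h2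
      rw [← h1, div_mul_cancel₀ _ h2]
    exact hfa.eqOn_of_preconnected_of_eventuallyEq hga (preconn_compl hc) hz₀ heq

/-- Two entire functions which agree for `1 < re s` are equal (`AnalyticOnNhd.eq_of_eventuallyEq`). -/
theorem entire_eq {F G : ℂ → ℂ} (hF : Differentiable ℂ F) (hG : Differentiable ℂ G)
    (h : ∀ s : ℂ, 1 < s.re → F s = G s) : F = G := by
  have hFa : AnalyticOnNhd ℂ F Set.univ := hF.differentiableOn.analyticOnNhd isOpen_univ
  have hGa : AnalyticOnNhd ℂ G Set.univ := hG.differentiableOn.analyticOnNhd isOpen_univ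
  refine hFa.eq_of_eventuallyEq hGa (z₀ := 2) ?_
  have hopen : IsOpen {s : ℂ | 1 < s.re} := isOpen_lt continuous_const Complex.continuous_re
  filter_upwards [hopen.mem_nhds (by norm_num : (2 : ℂ) ∈ {s : ℂ | 1 < s.re})] with s hs
  exact h s hs

end Pool.Agent.STg.An
end

section

set_option autoImplicit false

open Complex Filter Topology
open scoped ComplexConjugate

namespace Pool.Agent.STg.An

/-! local integrability of the theta kernels. -/

/-- Proof: as in Mathlib's `HurwitzZeta.hurwitzEvenFEPair`: `HurwitzZeta.continuousOn_evenKernel`,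
`ContinuousOn.locallyIntegrableOn` with `measurableSet_Ioi`. -/
theorem ek_int (x y : UnitAddCircle) : MeasureTheory.LocallyIntegrableOn
    (fun t : ℝ => ((HurwitzZeta.evenKernel x t * HurwitzZeta.evenKernel y t : ℝ) : ℂ))
    (Set.Ioi 0) :=
  (continuous_ofReal.comp_continuousOn ((HurwitzZeta.continuousOn_evenKernel x).mul
    (HurwitzZeta.continuousOn_evenKernel y))).locallyIntegrableOn measurableSet_Ioi

theorem ck_int (x y : UnitAddCircle) : MeasureTheory.LocallyIntegrableOn
    (fun t : ℝ => ((HurwitzZeta.cosKernel x t * HurwitzZeta.cosKernel y t : ℝ) : ℂ))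
    (Set.Ioi 0) :=
  (continuous_ofReal.comp_continuousOn ((HurwitzZeta.continuousOn_cosKernel x).mul
    (HurwitzZeta.continuousOn_cosKernel y))).locallyIntegrableOn measurableSet_Ioi

/-! the functional equation. -/

/-- Proof: `HurwitzZeta.evenKernel_functional_equation` at `1 / t`, and
`(t ^ (1 / 2)) * (t ^ (1 / 2)) = t ^ 1`. -/
theorem ek_feq (x y : UnitAddCircle) (t : ℝ) (ht : 0 < t) :
    ((HurwitzZeta.evenKernel x (1 / t) * HurwitzZeta.evenKernel y (1 / t) : ℝ) : ℂ) =
      ((1 : ℂ) * ((t ^ (1 : ℝ) : ℝ) : ℂ)) •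
        ((HurwitzZeta.cosKernel x t * HurwitzZeta.cosKernel y t : ℝ) : ℂ) := by
  rw [HurwitzZeta.evenKernel_functional_equation x, HurwitzZeta.evenKernel_functional_equation y,
    one_div_one_div, one_mul, smul_eq_mul, ← Complex.ofReal_mul]
  congr 1
  have h1 : (1 / t) ^ (1 / 2 : ℝ) = (t ^ (1 / 2 : ℝ))⁻¹ := by
    rw [one_div, Real.inv_rpow ht.le]
  have h2 : t ^ (1 / 2 : ℝ) * t ^ (1 / 2 : ℝ) = t := by
    rw [← Real.rpow_add ht]
    norm_num
  rw [h1, Real.rpow_one, one_div, inv_inv]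
  calc t ^ (1 / 2 : ℝ) * HurwitzZeta.cosKernel x t * (t ^ (1 / 2 : ℝ) * HurwitzZeta.cosKernel y t)
      = (t ^ (1 / 2 : ℝ) * t ^ (1 / 2 : ℝ))
        * (HurwitzZeta.cosKernel x t * HurwitzZeta.cosKernel y t) := by ring
    _ = t * (HurwitzZeta.cosKernel x t * HurwitzZeta.cosKernel y t) := by rw [h2]

end Pool.Agent.STg.An
end

section

set_option autoImplicit false

open Complex Filter Topology
open scoped ComplexConjugate

namespace Pool.Agent.STg.An

/-! functions with proportional moduli outside of a larger set. -/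

/-- Proof: the complement of the countable set `D` is dense (`Set.Countable.dense_compl`), and both
sides of `h` are continuous on the open set `D0ᶜ`, so `h` holds on `D0ᶜ`; now use `modulus`. -/
theorem modulus' {D0 D : Set ℂ} (hD0 : IsClosed D0) (h0 : D0 ⊆ D) (hc : D.Countable)
    {f g : ℂ → ℂ} (hf : DifferentiableOn ℂ f D0ᶜ) (hg : DifferentiableOn ℂ g D0ᶜ) {C : ℝ}
    (h : ∀ z ∈ Dᶜ, ‖f z‖ = C * ‖g z‖) : ∃ c : ℂ, ∀ z ∈ D0ᶜ, f z = c * g z := by
  refine modulus hD0 (hc.mono h0) hf hg (C := C) fun z hz => ?_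
  have hdense : Dense Dᶜ := hc.dense_compl ℝ
  have hcl : z ∈ closure Dᶜ := hdense z
  have hne : (𝓝[Dᶜ] z).NeBot := mem_closure_iff_nhdsWithin_neBot.mp hcl
  have hnhds : D0ᶜ ∈ 𝓝 z := hD0.isOpen_compl.mem_nhds hz
  have h1 : Tendsto (fun w => ‖f w‖) (𝓝[Dᶜ] z) (𝓝 ‖f z‖) :=
    ((hf.differentiableAt hnhds).continuousAt.norm.tendsto).mono_left nhdsWithin_le_nhds
  have h2 : Tendsto (fun w => C * ‖g w‖) (𝓝[Dᶜ] z) (𝓝 (C * ‖g z‖)) :=
    (((hg.differentiableAt hnhds).continuousAt.norm.tendsto).const_mul C).mono_left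
      nhdsWithin_le_nhds
  refine tendsto_nhds_unique (h1.congr' ?_) h2
  filter_upwards [self_mem_nhdsWithin] with w hw
  exact h w hw

end Pool.Agent.STg.An
end
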