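import Pool.Agent.Lib.MP_1ef7cf_nt_g.Mg.G014
import Pool.Agent.Lib.MP_1ef7cf_nt_g.Mg.G001

section

set_option autoImplicit false

open Complex Filter Topology
open scoped ComplexConjugate

namespace Pool.Agent.STg.An

/-! the modulus of the two sides. -/

private theorem AnD9_oneI_mem : (1 + I : ℂ) ∈ Lam := add_mem_Lam one_mem_Lam I_mem_Lam

private theorem AnD9_not1 {β : GaussianInt} {z : ℂ} (hz : (1 + I) * ((β : ℂ) * z) ∉ Lam) :
    (β : ℂ) * z ∉ Lam := fun h => hz (mul_mem_Lam AnD9_oneI_mem h)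

private theorem AnD9_not2 {β : GaussianInt} {z : ℂ} (hz : (1 + I) * ((β : ℂ) * z) ∉ Lam) :
    z ∉ Lam := fun h => AnD9_not1 hz (mul_mem_Lam (coe_mem_Lam β) h)

private theorem AnD9_not3 {β : GaussianInt} {z : ℂ} (hz : (1 + I) * ((β : ℂ) * z) ∉ Lam) :
    (β : ℂ) * (z + w0) ∉ Lam := by
  intro h
  apply hz
  have h1 : (1 + I) * ((β : ℂ) * z) = (1 + I) * ((β : ℂ) * (z + w0)) - (β : ℂ) * I := by
    unfold w0
    linear_combination (-(β : ℂ) / 2) * I_sq
  rw [h1]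
  exact sub_mem_Lam (mul_mem_Lam AnD9_oneI_mem h) (mul_mem_Lam (coe_mem_Lam β) I_mem_Lam)

private theorem AnD9_not4 {β : GaussianInt} {z : ℂ} (hz : (1 + I) * ((β : ℂ) * z) ∉ Lam) :
    z + w0 ∉ Lam := fun h => AnD9_not3 hz (mul_mem_Lam (coe_mem_Lam β) h)

private theorem AnD9_not5 {β : GaussianInt} (hβ : gOdd β) {z : ℂ}
    (hz : (1 + I) * ((β : ℂ) * z) ∉ Lam) : (β : ℂ) * z + w0 ∉ Lam := by
  intro h
  apply AnD9_not3 hz
  have h1 : (β : ℂ) * (z + w0) = ((β : ℂ) * z + w0) + ((β : ℂ) * w0 - w0) := by ring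
  rw [h1]
  exact add_mem_Lam h (odd_mul_w0 hβ)

/-- Proof: `XX (z + w0) = -1 / XX z` (`XX_add_w0`), so
`XX (z + w0) - t = -(1 + t XX z) / XX z`. -/
theorem prod_shift {c : ℝ} (hK : Kron c) {β : GaussianInt} (hβ : gOdd β) {z : ℂ}
    (hz : (1 + I) * ((β : ℂ) * z) ∉ Lam) :
    ‖∏ t ∈ TFin XX β, (XX (z + w0) - t)‖ * ‖XX z‖ ^ (TFin XX β).card =
      ‖∏ t ∈ TFin XX β, (1 + t * XX z)‖ := by
  have h1 : XX (z + w0) * XX z = -1 := XX_add_w0 hK (AnD9_not2 hz) (AnD9_not4 hz)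
  rw [norm_prod, norm_prod, ← Finset.prod_const, ← Finset.prod_mul_distrib]
  refine Finset.prod_congr rfl fun t _ => ?_
  rw [← norm_mul]
  have h2 : (XX (z + w0) - t) * XX z = -(1 + t * XX z) := by
    rw [sub_mul, h1]
    ring
  rw [h2, norm_neg]

/-- Proof. Let `N = gN β`, `n = (TFin XX β).card`, `2 n + 1 = N` (`card_TFin`), const = numbers which do
not depend on `z`. `theta_XX` at `z` and at `z + w0` (`β (z + w0)` is congruent to `β z + w0` by
`odd_mul_w0`, `ell_add`), `log_norm_XX` for `β z` and for `z`, `prod_shift`: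
`log ‖LL β z‖ = 2 ell (β z + w0) - 2 ell (β z) + 2 (ell (β z) - N ell z) + const`,
`log ‖MM β z‖ = log ‖XX z‖ + 2 (ell (β z + w0) - N ell (z + w0)) + 2 n log ‖XX z‖ + const
= 2 ell (β z + w0) - 2 N ell z + const`. The difference is constant; take `Real.exp`
(`LL_ne_zero`, `MM_ne_zero`). -/
theorem LM_modulus {c : ℝ} (hK : Kron c) {β : GaussianInt} (hβ : gOdd β) :
    ∃ C : ℝ, ∀ z : ℂ, (1 + I) * ((β : ℂ) * z) ∉ Lam → ‖LL β z‖ = C * ‖MM β z‖ := by
  obtain ⟨C₁, hC1⟩ := theta_XX hK hβ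
  set P := Real.log ‖PP (1 / 2)‖ with hP
  set n := (TFin XX β).card with hn
  have hcard : 2 * n + 1 = gN β := card_TFin hK hβ
  have hN : (gN β : ℝ) = 2 * n + 1 := by
    rw [← hcard]
    push_cast
    ring
  refine ⟨Real.exp ((2 * (gN β : ℝ) - 2) * ell w0 + ((gN β : ℝ) - 1) * P), fun z hz => ?_⟩
  have n1 := AnD9_not1 hz
  have n2 := AnD9_not2 hz
  have n3 := AnD9_not3 hz
  have n4 := AnD9_not4 hz
  have n5 := AnD9_not5 hβ hz
  have hL := LL_ne_zero hK hβ hz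
  have hM := MM_ne_zero hK hβ hz
  have hX : XX z ≠ 0 := by
    intro h
    apply hM
    unfold MM
    rw [h, zero_mul]
  have hXb : XX (β * z) ≠ 0 := XX_ne_zero hK hz
  have hA : (∏ t ∈ TFin XX β, (XX z - t)) ≠ 0 :=
    Finset.prod_ne_zero_iff.mpr fun t ht => sub_ne_zero_T hK hβ n1 ht
  have hB : (∏ t ∈ TFin XX β, (1 + t * XX z)) ≠ 0 :=
    Finset.prod_ne_zero_iff.mpr fun t ht => one_add_ne_zero_T hK hβ hz ht
  have hA' : (∏ t ∈ TFin XX β, (XX (z + w0) - t)) ≠ 0 :=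
    Finset.prod_ne_zero_iff.mpr fun t ht => sub_ne_zero_T hK hβ n3 ht
  have e1 := hC1 z n1
  have e2 := hC1 (z + w0) n3
  have e3 := log_norm_XX hK n2 n4
  have e4 := log_norm_XX hK n1 n5
  have e5 : ell ((β : ℂ) * (z + w0)) = ell ((β : ℂ) * z + w0) := by
    obtain ⟨a, ha⟩ := odd_mul_w0 hβ
    have h1 : (β : ℂ) * (z + w0) = ((β : ℂ) * z + w0) + (a : ℂ) := by
      have h2 : (a : ℂ) = (β : ℂ) * w0 - w0 := ha
      rw [h2]
      ring
    rw [h1]
    exact ell_add hK n5 a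
  have e6 : Real.log ‖∏ t ∈ TFin XX β, (1 + t * XX z)‖ =
      Real.log ‖∏ t ∈ TFin XX β, (XX (z + w0) - t)‖ + n * Real.log ‖XX z‖ := by
    rw [← prod_shift hK hβ hz, Real.log_mul (norm_ne_zero_iff.mpr hA')
      (pow_ne_zero _ (norm_ne_zero_iff.mpr hX)), Real.log_pow]
  have e7 : Real.log ‖LL β z‖ = Real.log ‖XX (β * z)‖ +
      2 * Real.log ‖∏ t ∈ TFin XX β, (XX z - t)‖ := by
    unfold LL
    rw [Finset.prod_pow, norm_mul, norm_pow, Real.log_mul (norm_ne_zero_iff.mpr hXb)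
      (pow_ne_zero _ (norm_ne_zero_iff.mpr hA)), Real.log_pow]
    push_cast
    ring
  have e8 : Real.log ‖MM β z‖ = Real.log ‖XX z‖ +
      2 * Real.log ‖∏ t ∈ TFin XX β, (1 + t * XX z)‖ := by
    unfold MM
    rw [Finset.prod_pow, norm_mul, norm_pow, Real.log_mul (norm_ne_zero_iff.mpr hX)
      (pow_ne_zero _ (norm_ne_zero_iff.mpr hB)), Real.log_pow]
    push_cast
    ring
  have e9 : Real.log ‖LL β z‖ = ((2 * (gN β : ℝ) - 2) * ell w0 + ((gN β : ℝ) - 1) * P) +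
      Real.log ‖MM β z‖ := by
    rw [e7, e8, e6, e4, e1, e2, e5, e3, hN]
    ring
  have hLn : 0 < ‖LL β z‖ := norm_pos_iff.mpr hL
  have hMn : 0 < ‖MM β z‖ := norm_pos_iff.mpr hM
  calc ‖LL β z‖ = Real.exp (Real.log ‖LL β z‖) := (Real.exp_log hLn).symm
    _ = Real.exp ((2 * (gN β : ℝ) - 2) * ell w0 + ((gN β : ℝ) - 1) * P) * ‖MM β z‖ := by
        rw [e9, Real.exp_add, Real.exp_log hMn]

end Pool.Agent.STg.An
end

section

set_option autoImplicit false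

open Complex Filter Topology
open scoped ComplexConjugate

namespace Pool.Agent.STg.An

/-! the multiplication formula up to a constant. -/

/-- Proof: `modulus'` with `D0 = {z | β z ∈ Lam}`, `D = {z | (1 + I) β z ∈ Lam}` (`isClosed_DD`,
`countable_DD`), `LM_modulus`; `LL β` and `MM β` are differentiable on `D0ᶜ` (`XX_diff`; `z ∈ Lam` implies
`β z ∈ Lam`). -/
theorem exists_LM {c : ℝ} (hK : Kron c) {β : GaussianInt} (hβ : gOdd β) :
    ∃ κ : ℂ, ∀ z : ℂ, (β : ℂ) * z ∉ Lam → LL β z = κ * MM β z := by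
  have hβ0 : (β : ℂ) ≠ 0 := by
    intro h
    exact ne_zero_of_gOdd hβ (GaussianInt.toComplex_eq_zero.mp h)
  have h1I : (1 + I : ℂ) ≠ 0 := by
    intro h
    have h1 := congrArg Complex.re h
    simp at h1
  have h1Im : (1 + I : ℂ) ∈ Lam := add_mem_Lam one_mem_Lam I_mem_Lam
  obtain ⟨C, hC⟩ := LM_modulus hK hβ
  have hX : ∀ z ∈ {z : ℂ | (β : ℂ) * z ∈ Lam}ᶜ, DifferentiableAt ℂ XX z := fun z hz =>
    XX_diff fun h => hz (mul_mem_Lam (coe_mem_Lam β) h)
  have hXb : ∀ z ∈ {z : ℂ | (β : ℂ) * z ∈ Lam}ᶜ,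
      DifferentiableAt ℂ (fun w => XX ((β : ℂ) * w)) z := fun z hz => by
    have h1 : DifferentiableAt ℂ XX ((β : ℂ) * z) := XX_diff hz
    have h2 : DifferentiableAt ℂ (fun w => (β : ℂ) * w) z := by fun_prop
    exact h1.comp z h2
  have hL : DifferentiableOn ℂ (LL β) {z : ℂ | (β : ℂ) * z ∈ Lam}ᶜ := by
    intro z hz
    refine DifferentiableAt.differentiableWithinAt ?_
    have h1 := hX z hz
    have h2 := hXb z hz
    unfold LL
    refine h2.mul ?_
    refine DifferentiableAt.fun_finsetProd fun t _ => ?_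
    fun_prop
  have hM : DifferentiableOn ℂ (MM β) {z : ℂ | (β : ℂ) * z ∈ Lam}ᶜ := by
    intro z hz
    refine DifferentiableAt.differentiableWithinAt ?_
    have h1 := hX z hz
    unfold MM
    refine h1.mul ?_
    refine DifferentiableAt.fun_finsetProd fun t _ => ?_
    fun_prop
  obtain ⟨κ, hκ⟩ := modulus' (D0 := {z : ℂ | (β : ℂ) * z ∈ Lam})
    (D := {z : ℂ | ((1 + I) * (β : ℂ)) * z ∈ Lam}) (isClosed_DD _)
    (fun z hz => by
      change ((1 + I) * (β : ℂ)) * z ∈ Lam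
      rw [mul_assoc]
      exact mul_mem_Lam h1Im hz)
    (countable_DD (mul_ne_zero h1I hβ0)) hL hM (C := C)
    (fun z hz => hC z fun h => hz (by
      change ((1 + I) * (β : ℂ)) * z ∈ Lam
      rw [mul_assoc]
      exact h))
  exact ⟨κ, fun z hz => hκ z hz⟩

end Pool.Agent.STg.An
end

section

set_option autoImplicit false

open Complex Filter Topology
open scoped ComplexConjugate

namespace Pool.Agent.STg.An

/-! the square of the constant is `1`. -/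

/-- Proof. Choose `z` with `(1 + I) β z ∉ Lam` (the other points are a countable set). With `x = XX z`,
`y = XX (β z)`: `XX (z + w0) = -1 / x`, `XX (β (z + w0)) = XX (β z + w0) = -1 / y` (`odd_mul_w0`, `XX_add`),
so with `n = card T`, `A = ∏ (x - t) ^ 2`, `B = ∏ (1 + t x) ^ 2`:
`LL β (z + w0) = -(1 / y) * B / x ^ (2 n)`, `MM β (z + w0) = -(1 / x) * A / x ^ (2 n)`. The formula at
`z + w0` says `x B = κ y A`, at `z` it says `y A = κ x B`; as `x B ≠ 0`, `κ ^ 2 = 1`. -/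
theorem LM_sq {c : ℝ} (hK : Kron c) {β : GaussianInt} (hβ : gOdd β) {κ : ℂ}
    (h : ∀ z : ℂ, (β : ℂ) * z ∉ Lam → LL β z = κ * MM β z) : κ ^ 2 = 1 := by
  have hβ0 : (β : ℂ) ≠ 0 := by
    intro h1
    exact ne_zero_of_gOdd hβ (GaussianInt.toComplex_eq_zero.mp h1)
  have h1I : (1 + I : ℂ) ≠ 0 := by
    intro h1
    have h2 := congrArg Complex.re h1
    simp at h2
  have h1Im : (1 + I : ℂ) ∈ Lam := add_mem_Lam one_mem_Lam I_mem_Lam
  obtain ⟨z, hz'⟩ := (eventually_notMem (mul_ne_zero h1I hβ0)).exists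
  have hz : (1 + I) * ((β : ℂ) * z) ∉ Lam := by rwa [mul_assoc] at hz'
  have n1 : (β : ℂ) * z ∉ Lam := fun h1 => hz (mul_mem_Lam h1Im h1)
  have n2 : z ∉ Lam := fun h1 => n1 (mul_mem_Lam (coe_mem_Lam β) h1)
  have n3 : (β : ℂ) * (z + w0) ∉ Lam := by
    intro h1
    apply hz
    have h2 : (1 + I) * ((β : ℂ) * z) = (1 + I) * ((β : ℂ) * (z + w0)) - (β : ℂ) * I := by
      unfold w0
      linear_combination (-(β : ℂ) / 2) * I_sq
    rw [h2]
    exact sub_mem_Lam (mul_mem_Lam h1Im h1) (mul_mem_Lam (coe_mem_Lam β) I_mem_Lam)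
  have n4 : z + w0 ∉ Lam := fun h1 => n3 (mul_mem_Lam (coe_mem_Lam β) h1)
  obtain ⟨a, ha⟩ := odd_mul_w0 hβ
  have ha' : (a : ℂ) = (β : ℂ) * w0 - w0 := ha
  have e0 : (β : ℂ) * (z + w0) = ((β : ℂ) * z + w0) + (a : ℂ) := by
    rw [ha']
    ring
  have n5 : (β : ℂ) * z + w0 ∉ Lam := by
    intro h1
    apply n3
    rw [e0]
    exact add_mem_Lam h1 (coe_mem_Lam a)
  have hM := MM_ne_zero hK hβ hz
  have hX : XX z ≠ 0 := by
    intro h1
    apply hM
    unfold MM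
    rw [h1, zero_mul]
  have hXb : XX (β * z) ≠ 0 := XX_ne_zero hK hz
  have e1 : XX (z + w0) * XX z = -1 := XX_add_w0 hK n2 n4
  have e2 : XX ((β : ℂ) * (z + w0)) * XX ((β : ℂ) * z) = -1 := by
    rw [e0, XX_add hK]
    exact XX_add_w0 hK n1 n5
  have f1 := h z n1
  have f2 := h (z + w0) n3
  set n := (TFin XX β).card with hn
  have g1 : (∏ t ∈ TFin XX β, (XX (z + w0) - t) ^ 2) * (XX z ^ 2) ^ n =
      ∏ t ∈ TFin XX β, (1 + t * XX z) ^ 2 := by
    rw [hn, ← Finset.prod_const, ← Finset.prod_mul_distrib]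
    refine Finset.prod_congr rfl fun t _ => ?_
    have h2 : (XX (z + w0) - t) * XX z = -(1 + t * XX z) := by
      rw [sub_mul, e1]
      ring
    rw [← mul_pow, h2, neg_sq]
  have g2 : (∏ t ∈ TFin XX β, (1 + t * XX (z + w0)) ^ 2) * (XX z ^ 2) ^ n =
      ∏ t ∈ TFin XX β, (XX z - t) ^ 2 := by
    rw [hn, ← Finset.prod_const, ← Finset.prod_mul_distrib]
    refine Finset.prod_congr rfl fun t _ => ?_
    have h2 : (1 + t * XX (z + w0)) * XX z = XX z - t := by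
      rw [add_mul, mul_assoc, e1]
      ring
    rw [← mul_pow, h2]
  unfold LL MM at f1 f2
  set A := ∏ t ∈ TFin XX β, (XX z - t) ^ 2 with hA
  set Bq := ∏ t ∈ TFin XX β, (1 + t * XX z) ^ 2 with hB
  have k1 : XX ((β : ℂ) * (z + w0)) * Bq = κ * (XX (z + w0) * A) := by
    rw [← g1, ← g2]
    linear_combination ((XX z ^ 2) ^ n) * f2
  -- multiply by `x y`
  have k2 : XX z * Bq = κ * (XX (β * z) * A) := by
    linear_combination (-(XX z * XX (β * z))) * k1 + (-(XX z * Bq)) * e2 * (-1) +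
      κ * XX (β * z) * A * e1 * (-1) * (-1) * (-1)
  have k3 : XX z * Bq = κ ^ 2 * (XX z * Bq) := by
    linear_combination k2 + κ * f1
  have hxB : XX z * Bq ≠ 0 := hM
  have k4 : (κ ^ 2 - 1) * (XX z * Bq) = 0 := by
    rw [sub_mul, one_mul, ← k3, sub_self]
  rcases mul_eq_zero.mp k4 with h5 | h5
  · linear_combination h5
  · exact absurd h5 hxB

end Pool.Agent.STg.An
end
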