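import Pool.Agent.Lib.MP_1ef7cf_nt_g.Lem
import Pool.Agent.Lib.MP_1ef7cf_nt_g.AnDefs

section

set_option autoImplicit false

open Complex Filter Topology
open scoped ComplexConjugate

namespace Pool.Agent.STg.An

/-! elementary facts on the lattice. -/

/-- Proof: `Lam` is the range of `GaussianInt.toComplex`, `a ↦ a.re + a.im i`
(`GaussianInt.toComplex_def`). -/
theorem mem_Lam {z : ℂ} : z ∈ Lam ↔ ∃ m n : ℤ, z = (m : ℂ) + (n : ℂ) * I := by
  constructor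
  · rintro ⟨a, rfl⟩
    exact ⟨a.re, a.im, GaussianInt.toComplex_def a⟩
  · rintro ⟨m, n, rfl⟩
    exact ⟨⟨m, n⟩, GaussianInt.toComplex_def _⟩

theorem coe_mem_Lam (a : GaussianInt) : (a : ℂ) ∈ Lam := ⟨a, rfl⟩

theorem zero_mem_Lam : (0 : ℂ) ∈ Lam := mem_Lam.mpr ⟨0, 0, by simp⟩

theorem add_mem_Lam {z w : ℂ} (hz : z ∈ Lam) (hw : w ∈ Lam) : z + w ∈ Lam := by
  obtain ⟨a, rfl⟩ := hz
  obtain ⟨b, rfl⟩ := hw
  exact ⟨a + b, map_add GaussianInt.toComplex a b⟩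

theorem neg_mem_Lam {z : ℂ} (hz : z ∈ Lam) : -z ∈ Lam := by
  obtain ⟨a, rfl⟩ := hz
  exact ⟨-a, map_neg GaussianInt.toComplex a⟩

theorem sub_mem_Lam {z w : ℂ} (hz : z ∈ Lam) (hw : w ∈ Lam) : z - w ∈ Lam := by
  rw [sub_eq_add_neg]
  exact add_mem_Lam hz (neg_mem_Lam hw)

theorem mul_mem_Lam {z w : ℂ} (hz : z ∈ Lam) (hw : w ∈ Lam) : z * w ∈ Lam := by
  obtain ⟨a, rfl⟩ := hz
  obtain ⟨b, rfl⟩ := hw
  exact ⟨a * b, map_mul GaussianInt.toComplex a b⟩

/-- Proof: `a`, `-a` lie in `Lam`. -/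
theorem add_coe_mem_iff {z : ℂ} (a : GaussianInt) : z + (a : ℂ) ∈ Lam ↔ z ∈ Lam := by
  constructor
  · intro h
    have := sub_mem_Lam h (coe_mem_Lam a)
    rwa [add_sub_cancel_right] at this
  · intro h
    exact add_mem_Lam h (coe_mem_Lam a)

theorem neg_mem_iff_Lam {z : ℂ} : -z ∈ Lam ↔ z ∈ Lam := by
  constructor
  · intro h
    have := neg_mem_Lam h
    rwa [neg_neg] at this
  · exact neg_mem_Lam

theorem I_mem_Lam : I ∈ Lam := mem_Lam.mpr ⟨0, 1, by simp⟩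

/-- Proof: `z = -i (i z)`. -/
theorem I_mul_mem_iff {z : ℂ} : I * z ∈ Lam ↔ z ∈ Lam := by
  constructor
  · intro h
    have h1 := neg_mem_Lam (mul_mem_Lam I_mem_Lam h)
    have h2 : -(I * (I * z)) = z := by
      rw [← mul_assoc, I_mul_I]
      ring
    rwa [h2] at h1
  · exact mul_mem_Lam I_mem_Lam

theorem one_mem_Lam : (1 : ℂ) ∈ Lam := mem_Lam.mpr ⟨1, 0, by simp⟩

end Pool.Agent.STg.An
end

section

set_option autoImplicit false

open Complex Filter Topology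
open scoped ComplexConjugate

namespace Pool.Agent.STg.An

/-! topology of the lattice. -/

theorem AnL3_inj : Function.Injective (fun a : GaussianInt => (a.re, a.im)) := by
  intro a b h
  rw [Prod.mk.injEq] at h
  exact Zsqrtd.ext h.1 h.2

/-- Proof: `‖a‖² = a.re² + a.im²`, so `|a.re|, |a.im| ≤ R`: a subset of the image of the finite set
`Icc (-⌈R⌉) ⌈R⌉ ×ˢ Icc (-⌈R⌉) ⌈R⌉`. -/
theorem finite_norm_le (R : ℝ) : {a : GaussianInt | ‖(a : ℂ)‖ ≤ R}.Finite := by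
  have hfin : ((Set.Icc (-⌈R⌉) ⌈R⌉) ×ˢ (Set.Icc (-⌈R⌉) ⌈R⌉) : Set (ℤ × ℤ)).Finite :=
    (Set.finite_Icc _ _).prod (Set.finite_Icc _ _)
  refine (hfin.preimage (AnL3_inj.injOn)).subset ?_
  intro a ha
  have ha' : ‖(a : ℂ)‖ ≤ R := ha
  have h1 : |(a.re : ℝ)| ≤ R := by
    have := Complex.abs_re_le_norm (a : ℂ)
    rw [← GaussianInt.intCast_re] at this
    exact this.trans ha'
  have h2 : |(a.im : ℝ)| ≤ R := by
    have := Complex.abs_im_le_norm (a : ℂ)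
    rw [← GaussianInt.intCast_im] at this
    exact this.trans ha'
  have key : ∀ m : ℤ, |(m : ℝ)| ≤ R → m ∈ Set.Icc (-⌈R⌉) ⌈R⌉ := by
    intro m hm
    rw [abs_le] at hm
    have h3 := Int.le_ceil R
    constructor
    · have : (-(⌈R⌉ : ℝ)) ≤ m := by linarith
      exact_mod_cast this
    · have : (m : ℝ) ≤ (⌈R⌉ : ℝ) := by linarith
      exact_mod_cast this
  exact ⟨key _ h1, key _ h2⟩

/-- Proof: the norm of a nonzero Gaussian integer is a positive integer. -/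
theorem one_le_norm_NZ (a : NZ) : 1 ≤ ‖((a : GaussianInt) : ℂ)‖ := by
  have h1 : (a : GaussianInt).norm ≠ 0 := by
    intro h
    exact a.2 (by
      have := (Zsqrtd.norm_eq_zero_iff (d := -1) (by norm_num) (a : GaussianInt)).mp h
      exact this)
  have h2 : 0 ≤ (a : GaussianInt).norm := GaussianInt.norm_nonneg _
  have h3 : (1 : ℤ) ≤ (a : GaussianInt).norm := by omega
  have h4 : ‖((a : GaussianInt) : ℂ)‖ ^ 2 = ((a : GaussianInt).norm : ℝ) := by
    rw [← Complex.normSq_eq_norm_sq, ← GaussianInt.intCast_real_norm]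
  have h5 : (1 : ℝ) ≤ ‖((a : GaussianInt) : ℂ)‖ ^ 2 := by
    rw [h4]
    exact_mod_cast h3
  nlinarith [norm_nonneg ((a : GaussianInt) : ℂ)]

theorem countable_Lam : Lam.Countable := by
  have : Countable GaussianInt := AnL3_inj.countable
  exact Set.countable_range _

/-- Proof: `z` has only finitely many lattice points at distance `≤ 1` (`finite_norm_le`), so the
distance from `z` to `Lam` is positive if `z ∉ Lam`. -/
theorem exists_dist_pos {z : ℂ} (hz : z ∉ Lam) :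
    ∃ ε : ℝ, 0 < ε ∧ ∀ a : GaussianInt, ε ≤ ‖z + (a : ℂ)‖ := by
  have hfin : {a : GaussianInt | ‖z + (a : ℂ)‖ ≤ 1}.Finite := by
    refine (finite_norm_le (1 + ‖z‖)).subset fun a ha => ?_
    have ha' : ‖z + (a : ℂ)‖ ≤ 1 := ha
    have h1 : ‖(a : ℂ)‖ ≤ ‖z + (a : ℂ)‖ + ‖z‖ := by
      have := norm_sub_le (z + (a : ℂ)) z
      rwa [add_sub_cancel_left] at this
    have h2 : ‖(a : ℂ)‖ ≤ 1 + ‖z‖ := by linarith
    exact h2
  have hpos : ∀ a : GaussianInt, 0 < ‖z + (a : ℂ)‖ := by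
    intro a
    rw [norm_pos_iff]
    intro h
    apply hz
    rw [← add_coe_mem_iff a, h]
    exact zero_mem_Lam
  rcases Set.eq_empty_or_nonempty {a : GaussianInt | ‖z + (a : ℂ)‖ ≤ 1} with he | hne
  · refine ⟨1, one_pos, fun a => ?_⟩
    by_contra hlt
    have : a ∈ {a : GaussianInt | ‖z + (a : ℂ)‖ ≤ 1} := (not_le.mp hlt).le
    rw [he] at this
    exact this
  · obtain ⟨a0, _, ha0⟩ := Set.exists_min_image _ (fun a : GaussianInt => ‖z + (a : ℂ)‖) hfin hne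
    refine ⟨min 1 ‖z + (a0 : ℂ)‖, lt_min one_pos (hpos a0), fun a => ?_⟩
    by_cases h : ‖z + (a : ℂ)‖ ≤ 1
    · exact (min_le_right _ _).trans (ha0 a h)
    · exact (min_le_left _ _).trans (not_le.mp h).le

/-- Proof: `exists_dist_pos`. -/
theorem isClosed_Lam : IsClosed Lam := by
  rw [← isOpen_compl_iff, Metric.isOpen_iff]
  intro z hz
  obtain ⟨ε, hε, h⟩ := exists_dist_pos hz
  refine ⟨ε, hε, fun w hw hwL => ?_⟩
  obtain ⟨a, ha⟩ := hwL
  have h1 := h (-a)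
  have h2 : ((-a : GaussianInt) : ℂ) = -(a : ℂ) := map_neg GaussianInt.toComplex a
  rw [h2, ← sub_eq_add_neg] at h1
  rw [Metric.mem_ball, dist_comm, dist_eq_norm, ← ha] at hw
  exact absurd hw (not_lt.mpr h1)

/-- The points with `α z ∈ Lam`. -/
theorem isClosed_DD (α : ℂ) : IsClosed {z : ℂ | α * z ∈ Lam} :=
  isClosed_Lam.preimage (continuous_const.mul continuous_id)

theorem countable_DD {α : ℂ} (hα : α ≠ 0) : {z : ℂ | α * z ∈ Lam}.Countable :=
  countable_Lam.preimage_of_injOn ((mul_right_injective₀ hα).injOn)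

/-- A punctured neighbourhood of `0` does not meet the closed countable set `{z | α z ∈ Lam}`.
Proof: if `0 < ‖z‖ < 1 / ‖α‖` then `0 < ‖α z‖ < 1`, so `α z ∉ Lam` (`one_le_norm_NZ`). -/
theorem eventually_notMem {α : ℂ} (hα : α ≠ 0) : ∀ᶠ z in 𝓝[≠] (0 : ℂ), α * z ∉ Lam := by
  have hpos : 0 < ‖α‖ := norm_pos_iff.mpr hα
  rw [eventually_nhdsWithin_iff]
  filter_upwards [Metric.ball_mem_nhds (0 : ℂ) (one_div_pos.mpr hpos)] with z hz hz0 hmem
  obtain ⟨a, ha⟩ := hmem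
  have hz0' : z ≠ 0 := hz0
  rw [Metric.mem_ball, dist_zero_right] at hz
  have h1 : ‖α * z‖ < 1 := by
    rw [norm_mul]
    calc ‖α‖ * ‖z‖ < ‖α‖ * (1 / ‖α‖) := mul_lt_mul_of_pos_left hz hpos
      _ = 1 := mul_one_div_cancel hpos.ne'
  have ha' : (a : ℂ) = α * z := ha
  have hane : a ≠ 0 := by
    rintro rfl
    have h0 : ((0 : GaussianInt) : ℂ) = 0 := map_zero GaussianInt.toComplex
    rw [h0] at ha'
    exact mul_ne_zero hα hz0' ha'.symm
  have h2 := one_le_norm_NZ ⟨a, hane⟩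
  have h3 : ‖(a : ℂ)‖ = ‖α * z‖ := by rw [ha']
  have h4 : 1 ≤ ‖(a : ℂ)‖ := h2
  linarith

end Pool.Agent.STg.An
end
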