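import Pool.Agent.Lib.MP_1ef7cf_nt_g.AnDefs
import Pool.Agent.Lib.MP_1ef7cf_nt_g.Mg.G004
import Pool.Agent.Lib.MP_1ef7cf_nt_g.Mg.G001

section

set_option autoImplicit false

open Complex Filter Topology
open scoped ComplexConjugate

namespace Pool.Agent.STg.An

/-! the theta series of the lattice. -/

/-- The coordinates of a Gaussian integer. -/
def AnK5_equiv : GaussianInt ≃ ℤ × ℤ where
  toFun := fun a => (a.re, a.im)
  invFun := fun p => ⟨p.1, p.2⟩
  left_inv := fun _ => rfl
  right_inv := fun _ => rfl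

/-- Proof: `HurwitzZeta.hasSum_int_evenKernel` for `z.re` and `z.im`; the product of the two sums is a
sum over `ℤ × ℤ` (all terms are nonnegative: `HasSum.mul_of_nonneg` or `Summable.mul_of_nonneg` and
`HasSum.mul`), and `a ↦ (a.re, a.im)` is a bijection of `GaussianInt` with `ℤ × ℤ`;
`‖z + a‖² = (a.re + z.re)² + (a.im + z.im)²`. -/
theorem theta_sum (z : ℂ) {t : ℝ} (ht : 0 < t) :
    HasSum (fun a : GaussianInt => Real.exp (-Real.pi * ‖z + (a : ℂ)‖ ^ 2 * t))
      (HurwitzZeta.evenKernel (z.re : UnitAddCircle) t *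
        HurwitzZeta.evenKernel (z.im : UnitAddCircle) t) := by
  have h1 := HurwitzZeta.hasSum_int_evenKernel z.re ht
  have h2 := HurwitzZeta.hasSum_int_evenKernel z.im ht
  have hs := h1.summable.mul_of_nonneg h2.summable (fun _ => (Real.exp_pos _).le)
    (fun _ => (Real.exp_pos _).le)
  have h3 := h1.mul h2 hs
  have h4 := (AnK5_equiv.hasSum_iff).mpr h3
  refine h4.congr_fun ?_ |> fun h => h
  intro a
  simp only [Function.comp, AnK5_equiv, Equiv.coe_fn_mk]
  rw [← Real.exp_add]
  congr 1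
  rw [Complex.sq_norm, Complex.normSq_apply, Complex.add_re, Complex.add_im,
    ← GaussianInt.intCast_re, ← GaussianInt.intCast_im]
  ring

/-- Proof: `theta_sum` with `z = 0`, the term `a = 0` is `1`. -/
theorem theta_sum_zero {t : ℝ} (ht : 0 < t) :
    HasSum (fun a : NZ => Real.exp (-Real.pi * ‖((a : GaussianInt) : ℂ)‖ ^ 2 * t))
      (HurwitzZeta.evenKernel (0 : UnitAddCircle) t *
        HurwitzZeta.evenKernel (0 : UnitAddCircle) t - 1) := by
  classical
  have h := theta_sum 0 ht
  have h0 : (fun a : GaussianInt => Real.exp (-Real.pi * ‖(0 : ℂ) + (a : ℂ)‖ ^ 2 * t))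
      = fun a : GaussianInt => Real.exp (-Real.pi * ‖(a : ℂ)‖ ^ 2 * t) := by
    funext a; rw [zero_add]
  rw [h0] at h
  have h1 := h.sub (hasSum_ite_eq (0 : GaussianInt) (1 : ℝ))
  have h2 : Function.support (fun a : GaussianInt =>
      Real.exp (-Real.pi * ‖(a : ℂ)‖ ^ 2 * t) - (if a = 0 then (1 : ℝ) else 0))
      ⊆ {a : GaussianInt | a ≠ 0} := by
    intro a ha
    rw [Function.mem_support] at ha
    intro h3
    apply ha
    rw [h3]
    simp
  have h3 := (hasSum_subtype_iff_of_support_subset h2).mpr h1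
  simp only [Complex.zero_re, Complex.zero_im, QuotientAddGroup.mk_zero] at h3
  have h4 : ∀ a : NZ, Real.exp (-Real.pi * ‖((a : GaussianInt) : ℂ)‖ ^ 2 * t)
      = ((fun a : GaussianInt => Real.exp (-Real.pi * ‖(a : ℂ)‖ ^ 2 * t)
        - (if a = 0 then (1 : ℝ) else 0)) ∘ (Subtype.val : NZ → GaussianInt)) a := by
    intro a
    simp only [Function.comp]
    rw [if_neg a.2, sub_zero]
  rw [funext h4]
  exact h3

/-- Proof: `x = 0` in `ℝ / ℤ` iff `x` is an integer (`AddCircle.coe_eq_zero_iff`); `mem_Lam`. -/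
theorem circle_zero_iff (z : ℂ) :
    ((z.re : UnitAddCircle) = 0 ∧ (z.im : UnitAddCircle) = 0) ↔ z ∈ Lam := by
  rw [mem_Lam, AddCircle.coe_eq_zero_iff, AddCircle.coe_eq_zero_iff]
  constructor
  · rintro ⟨⟨m, hm⟩, n, hn⟩
    refine ⟨m, n, ?_⟩
    rw [zsmul_one] at hm hn
    apply Complex.ext
    · simp [← hm]
    · simp [← hn]
  · rintro ⟨m, n, h⟩
    refine ⟨⟨m, ?_⟩, n, ?_⟩
    · rw [zsmul_one, h]; simp
    · rw [zsmul_one, h]; simp

end Pool.Agent.STg.An
end

section

set_option autoImplicit false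

open Complex Filter Topology
open scoped ComplexConjugate

namespace Pool.Agent.STg.An

/-! the Dirichlet series is real. -/

theorem AnK8_comp_diff {F : ℂ → ℂ} (hF : Differentiable ℂ F) :
    Differentiable ℂ (conj ∘ F ∘ conj) := fun s =>
  differentiableAt_conj_conj_iff.mpr (hF (conj s))

theorem AnK8_cpow (r : ℝ) (hr : 0 ≤ r) (s : ℂ) :
    conj ((r : ℂ) ^ (-2 * conj s)) = (r : ℂ) ^ (-2 * s) := by
  have harg : ((r : ℝ) : ℂ).arg ≠ Real.pi := by
    rw [Complex.arg_ofReal_of_nonneg hr]
    exact Real.pi_pos.ne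
  have h := Complex.conj_cpow (r : ℂ) (-2 * s) harg
  rw [Complex.conj_ofReal] at h
  rw [h]
  congr 2
  rw [map_mul, map_neg, Complex.conj_ofNat]

/-- Proof: `G s = conj (F (conj s))` is entire (`differentiableAt_conj_iff` or similar) and for
`1 < re s` the series for `F (conj s)`, conjugated termwise, gives `G s / (s - 1) = F s / (s - 1)`; so
`F = G` (`entire_eq`). -/
theorem DirS0_conj {F : ℂ → ℂ} (hF : DirS0 F) (s : ℂ) : F (conj s) = conj (F s) := by
  obtain ⟨hd, h1, hsum⟩ := hF
  have heq : conj ∘ F ∘ conj = F := by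
    apply entire_eq (AnK8_comp_diff hd) hd
    intro s hs
    have hs' : 1 < (conj s).re := by rw [Complex.conj_re]; exact hs
    have e1 := hsum s hs
    have e2 := (hsum (conj s) hs').map (starRingEnd ℂ) Complex.continuous_conj
    have e3 : (fun a : NZ => ((‖((a : GaussianInt) : ℂ)‖ : ℝ) : ℂ) ^ (-2 * s))
        = (starRingEnd ℂ) ∘ fun a : NZ => ((‖((a : GaussianInt) : ℂ)‖ : ℝ) : ℂ)
          ^ (-2 * conj s) := by
      funext a
      exact (AnK8_cpow _ (norm_nonneg _) s).symm
    rw [← e3] at e2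
    have e4 := e1.unique e2
    rw [map_div₀, map_sub, map_one, Complex.conj_conj] at e4
    have hs1 : s - 1 ≠ 0 := by
      intro h
      have : s = 1 := sub_eq_zero.mp h
      rw [this] at hs
      simp at hs
    show conj (F (conj s)) = F s
    field_simp at e4
    exact e4.symm
  have h2 := congrFun heq (conj s)
  simp only [Function.comp, Complex.conj_conj] at h2
  exact h2.symm

/-- Proof: `DirS0_conj` at `0`. -/
theorem DirS0_im {F : ℂ → ℂ} (hF : DirS0 F) : (F 0).im = 0 := by
  have h := DirS0_conj hF 0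
  rw [map_zero] at h
  exact Complex.conj_eq_iff_im.mp h.symm

/-- Proof: `F` is real on the real line, so the derivative along the real line is real (or
`deriv (conj ∘ F ∘ conj) 0 = conj (deriv F 0)`, `deriv_conj_conj`). -/
theorem DirS0_deriv_im {F : ℂ → ℂ} (hF : DirS0 F) : (deriv F 0).im = 0 := by
  have h1 : conj ∘ F ∘ conj = F := by
    funext s
    simp only [Function.comp]
    rw [DirS0_conj hF s, Complex.conj_conj]
  have h2 := congrFun (deriv_conj_conj (f := F)) 0
  rw [h1] at h2
  simp only [Function.comp, map_zero] at h2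
  exact Complex.conj_eq_iff_im.mp h2.symm

end Pool.Agent.STg.An
end
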