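import Pool.Agent.Lib.MP_1ef7cf_nt_g.AnDefs
import Pool.Agent.Lib.MP_1ef7cf_nt_g.Mg.G001
import Pool.Agent.Lib.MP_1ef7cf_nt_g.Mg.G004

section

set_option autoImplicit false

open Complex Filter Topology
open scoped ComplexConjugate

namespace Pool.Agent.STg.An

/-! the distribution relation of the Dirichlet series. -/

theorem AnD2_coe_ne {β : GaussianInt} (hβ : β ≠ 0) : (β : ℂ) ≠ 0 := by
  intro h
  exact hβ (GaussianInt.toComplex_eq_zero.1 h)

/-- Proof: `(r, b) ↦ r + β b` is a bijection of `S × GaussianInt` with `GaussianInt`, so for `1 < re s` the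
series at `w` is the sum over `r ∈ S` of the series over `b` of
`‖w + r + β b‖ ^ (-2 s) = ‖β‖ ^ (-2 s) * ‖(w + r) / β + b‖ ^ (-2 s)` (`Complex.mul_cpow_ofReal_nonneg`).
Both sides are entire: `entire_eq`. -/
theorem dist_DirS {β : GaussianInt} (hβ : β ≠ 0) {S : Finset GaussianInt} (hS : RS β S) {w : ℂ}
    {F : ℂ → ℂ} (hF : DirS w F) {G : GaussianInt → ℂ → ℂ}
    (hG : ∀ r ∈ S, DirS ((w + r) / β) (G r)) (s : ℂ) :
    F s = ((‖(β : ℂ)‖ : ℝ) : ℂ) ^ (-2 * s) * ∑ r ∈ S, G r s := by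
  classical
  have hβ' := AnD2_coe_ne hβ
  have hn : ((‖(β : ℂ)‖ : ℝ) : ℂ) ≠ 0 := by
    exact_mod_cast (norm_pos_iff.2 hβ').ne'
  have hH : Differentiable ℂ (fun s : ℂ => ((‖(β : ℂ)‖ : ℝ) : ℂ) ^ (-2 * s) * ∑ r ∈ S, G r s) := by
    have h1 : Differentiable ℂ (fun s : ℂ => ((‖(β : ℂ)‖ : ℝ) : ℂ) ^ (-2 * s)) := fun s =>
      ((differentiableAt_id.const_mul (-2 : ℂ)).const_cpow (Or.inl hn))
    refine h1.mul ?_
    exact Differentiable.fun_sum fun r hr => (hG r hr).1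
  refine congrFun (entire_eq hF.1 hH fun s hs => ?_) s
  have hs1 : s - 1 ≠ 0 := by
    intro h0
    have h1 : s = 1 := by linear_combination h0
    rw [h1] at hs
    simp at hs
  have h1 := hF.2 s hs
  have key : ∀ r ∈ S, HasSum (fun a : GaussianInt =>
      if β ∣ a - r then ((‖w + (a : ℂ)‖ : ℝ) : ℂ) ^ (-2 * s) else 0)
      (((‖(β : ℂ)‖ : ℝ) : ℂ) ^ (-2 * s) * (G r s / (s - 1))) := by
    intro r hr
    have hinj : Function.Injective (fun b : GaussianInt => r + β * b) := by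
      intro b b' hbb
      have : β * b = β * b' := by simpa using hbb
      exact mul_left_cancel₀ hβ this
    rw [← hinj.hasSum_iff (f := fun a : GaussianInt =>
      if β ∣ a - r then ((‖w + (a : ℂ)‖ : ℝ) : ℂ) ^ (-2 * s) else 0)]
    · have h2 := ((hG r hr).2 s hs).mul_left (((‖(β : ℂ)‖ : ℝ) : ℂ) ^ (-2 * s))
      refine h2.congr_fun ?_
      intro b
      have hd : β ∣ (r + β * b) - r := ⟨b, by ring⟩
      simp only [Function.comp_apply, if_pos hd]
      rw [← Complex.mul_cpow_ofReal_nonneg (norm_nonneg _) (norm_nonneg _), ← Complex.ofReal_mul,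
        ← norm_mul]
      congr 3
      rw [GaussianInt.toComplex_add, GaussianInt.toComplex_mul]
      field_simp
      ring
    · intro a ha
      have hd : ¬ β ∣ a - r := by
        rintro ⟨b, hb⟩
        exact ha ⟨b, by simp only; rw [← hb]; ring⟩
      simp only [if_neg hd]
  have h2 := hasSum_sum key
  have h3 : (fun a : GaussianInt => ∑ r ∈ S,
      if β ∣ a - r then ((‖w + (a : ℂ)‖ : ℝ) : ℂ) ^ (-2 * s) else 0) =
      fun a : GaussianInt => ((‖w + (a : ℂ)‖ : ℝ) : ℂ) ^ (-2 * s) := by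
    funext a
    obtain ⟨r, ⟨hr1, hr2⟩, hr3⟩ := hS a
    rw [Finset.sum_eq_single_of_mem r hr1]
    · rw [if_pos hr2]
    · intro r' hr' hne
      rw [if_neg]
      intro hd
      exact hne (hr3 r' ⟨hr', hd⟩)
  rw [h3] at h2
  have h4 := h1.unique h2
  rw [← Finset.mul_sum, ← Finset.sum_div, ← mul_div_assoc] at h4
  exact (div_left_inj' hs1).1 h4

end Pool.Agent.STg.An
end

section

set_option autoImplicit false

open Complex Filter Topology
open scoped ComplexConjugate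

namespace Pool.Agent.STg.An

/-! convergence of lattice sums. -/

/-- Proof: `EisensteinSeries.summable_one_div_norm_rpow` (sum over `Fin 2 → ℤ` of the sup norm to the
power `-r`, `2 < r`); for `a = m + n i` the sup norm of `![m, n]` is at most `‖a‖`, so
`‖a‖ ^ (-r) ≤ ‖![m, n]‖ ^ (-r)` for `a ≠ 0`. -/
theorem summable_NZ {r : ℝ} (hr : 2 < r) :
    Summable (fun a : NZ => ‖((a : GaussianInt) : ℂ)‖ ^ (-r)) := by
  have h1 := EisensteinSeries.summable_one_div_norm_rpow hr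
  let e : NZ → (Fin 2 → ℤ) := fun a => ![(a : GaussianInt).re, (a : GaussianInt).im]
  have he : Function.Injective e := by
    intro a b hab
    have h0 := congrFun hab 0
    have h1 := congrFun hab 1
    simp only [e, Matrix.cons_val_zero, Matrix.cons_val_one] at h0 h1
    exact Subtype.ext (Zsqrtd.ext h0 h1)
  have h2 := h1.comp_injective he
  refine Summable.of_nonneg_of_le (fun a => Real.rpow_nonneg (norm_nonneg _) _) (fun a => ?_) h2
  simp only [Function.comp]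
  have hle : ‖e a‖ ≤ ‖((a : GaussianInt) : ℂ)‖ := by
    rw [pi_norm_le_iff_of_nonneg (norm_nonneg _)]
    intro i
    fin_cases i
    · have := Complex.abs_re_le_norm ((a : GaussianInt) : ℂ)
      rw [← GaussianInt.intCast_re] at this
      simpa [e, Int.norm_eq_abs] using this
    · have := Complex.abs_im_le_norm ((a : GaussianInt) : ℂ)
      rw [← GaussianInt.intCast_im] at this
      simpa [e, Int.norm_eq_abs] using this
  have hpos : 0 < ‖e a‖ := by
    rw [norm_pos_iff]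
    intro h
    apply a.2
    have h0 := congrFun h 0
    have h1 := congrFun h 1
    simp only [e, Matrix.cons_val_zero, Matrix.cons_val_one, Pi.zero_apply] at h0 h1
    exact Zsqrtd.ext h0 h1
  exact Real.rpow_le_rpow_of_nonpos hpos hle (by linarith)

/-- Proof: for all `a` outside of a finite set `‖a‖ ≥ 2 ‖z‖ + 1` and then `‖z + a‖ ≥ ‖a‖ / 2`, so
`‖z + a‖ ^ (-r) ≤ 2 ^ r * ‖a‖ ^ (-r)`; compare with `summable_NZ` (extended by `0` to all `a`). -/
theorem summable_shift (z : ℂ) {r : ℝ} (hr : 2 < r) :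
    Summable (fun a : GaussianInt => ‖z + (a : ℂ)‖ ^ (-r)) := by
  have h1 : Summable (fun a : GaussianInt => ‖(a : ℂ)‖ ^ (-r)) := by
    have h2 : Function.support (fun a : GaussianInt => ‖(a : ℂ)‖ ^ (-r)) ⊆ {a | a ≠ 0} := by
      intro a ha h0
      apply ha
      have h0' : a = 0 := h0
      simp only [h0', GaussianInt.toComplex_zero, norm_zero]
      exact Real.zero_rpow (by linarith)
    exact ((hasSum_subtype_iff_of_support_subset h2).mp (summable_NZ hr).hasSum).summable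
  refine Summable.of_norm_bounded_eventually (h1.mul_left ((2 : ℝ) ^ r)) ?_
  have hfin : {a : GaussianInt | ‖(a : ℂ)‖ ≤ 2 * ‖z‖ + 1}.Finite := finite_norm_le _
  filter_upwards [hfin.compl_mem_cofinite] with a ha
  have ha' : 2 * ‖z‖ + 1 < ‖(a : ℂ)‖ := by
    by_contra hcon
    exact ha (not_lt.mp hcon)
  have hzn := norm_nonneg z
  have h3 : ‖(a : ℂ)‖ / 2 ≤ ‖z + (a : ℂ)‖ := by
    have h4 : ‖(a : ℂ)‖ ≤ ‖z + (a : ℂ)‖ + ‖z‖ := by
      have := norm_sub_le (z + (a : ℂ)) z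
      rwa [add_sub_cancel_left] at this
    linarith
  rw [Real.norm_of_nonneg (Real.rpow_nonneg (norm_nonneg _) _)]
  have h5 : 0 < ‖(a : ℂ)‖ / 2 := by linarith
  calc ‖z + (a : ℂ)‖ ^ (-r) ≤ (‖(a : ℂ)‖ / 2) ^ (-r) :=
        Real.rpow_le_rpow_of_nonpos h5 h3 (by linarith)
    _ = (2 : ℝ) ^ r * ‖(a : ℂ)‖ ^ (-r) := by
        rw [Real.div_rpow (norm_nonneg _) (by norm_num), Real.rpow_neg (by norm_num : (0 : ℝ) ≤ 2),
          div_inv_eq_mul, mul_comm]

end Pool.Agent.STg.An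
end

section

set_option autoImplicit false

open Complex Filter Topology
open scoped ComplexConjugate

namespace Pool.Agent.STg.An

/-! convergence of the product. -/

theorem AnS1_re (p : ℕ × ℕ) : (gp p).re = (p.1 : ℝ) + 1 := by
  simp [gp]

theorem AnS1_im (p : ℕ × ℕ) : (gp p).im = (p.2 : ℝ) := by
  simp [gp]

/-- the Gaussian integer -/
def AnS1_g (p : ℕ × ℕ) : GaussianInt := ⟨(p.1 : ℤ) + 1, (p.2 : ℤ)⟩

theorem AnS1_g_coe (p : ℕ × ℕ) : ((AnS1_g p : GaussianInt) : ℂ) = gp p := by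
  rw [GaussianInt.toComplex_def]
  simp [AnS1_g, gp]

theorem gp_ne_zero' (p : ℕ × ℕ) : gp p ≠ 0 := by
  intro h
  have h1 := AnS1_re p
  rw [h, Complex.zero_re] at h1
  have h2 : (0 : ℝ) ≤ p.1 := Nat.cast_nonneg _
  linarith

theorem AnS1_g_ne (p : ℕ × ℕ) : AnS1_g p ≠ 0 := by
  intro h
  apply gp_ne_zero' p
  rw [← AnS1_g_coe, h]
  simp

/-- Proof: `gp p` is the nonzero Gaussian integer `⟨p.1 + 1, p.2⟩`. -/
theorem gp_coe (p : ℕ × ℕ) : ∃ a : NZ, ((a : GaussianInt) : ℂ) = gp p :=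
  ⟨⟨AnS1_g p, AnS1_g_ne p⟩, AnS1_g_coe p⟩

theorem gp_ne_zero (p : ℕ × ℕ) : gp p ≠ 0 := gp_ne_zero' p

/-- Proof: `p ↦ ⟨p.1 + 1, p.2⟩` is an injection `ℕ × ℕ → NZ`; use `summable_NZ` with `r = 4`
(`Summable.comp_injective`). -/
theorem summable_gp : Summable (fun p : ℕ × ℕ => (‖gp p‖ ^ 4)⁻¹) := by
  have h1 := summable_NZ (r := 4) (by norm_num)
  have hinj : Function.Injective (fun p : ℕ × ℕ => (⟨AnS1_g p, AnS1_g_ne p⟩ : NZ)) := by
    intro p q h
    have h2 : AnS1_g p = AnS1_g q := congrArg Subtype.val h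
    have h3 := congrArg Zsqrtd.re h2
    have h4 := congrArg Zsqrtd.im h2
    simp only [AnS1_g] at h3 h4
    ext
    · omega
    · omega
  refine (h1.comp_injective hinj).congr ?_
  intro p
  show ‖((AnS1_g p : GaussianInt) : ℂ)‖ ^ (-4 : ℝ) = (‖gp p‖ ^ 4)⁻¹
  rw [AnS1_g_coe, Real.rpow_neg (norm_nonneg _)]
  congr 1
  exact_mod_cast Real.rpow_natCast (‖gp p‖) 4

/-- Proof: `‖z ^ 4 / gp p ^ 4‖ = ‖z‖ ^ 4 * (‖gp p‖ ^ 4)⁻¹`. -/
theorem summable_zgp (z : ℂ) : Summable (fun p : ℕ × ℕ => ‖z ^ 4 / gp p ^ 4‖) := by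
  refine (summable_gp.mul_left (‖z‖ ^ 4)).congr ?_
  intro p
  rw [norm_div, norm_pow, norm_pow, div_eq_mul_inv]

end Pool.Agent.STg.An
end
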