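import Pool.Agent.Lib.MP_1ef7cf_nt_g.AnDefs
import Pool.Agent.Lib.MP_1ef7cf_nt_g.Mg.G004

section

set_option autoImplicit false

open Complex Filter Topology
open scoped ComplexConjugate

namespace Pool.Agent.STg.An

/-! special points. -/

theorem AnL2_re_notMem {z : ℂ} (h : ∀ m : ℤ, z.re ≠ m) : z ∉ Lam := by
  intro hz
  obtain ⟨m, n, hmn⟩ := mem_Lam.mp hz
  apply h m
  rw [hmn]
  simp

theorem AnL2_im_notMem {z : ℂ} (h : ∀ m : ℤ, z.im ≠ m) : z ∉ Lam := by
  intro hz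
  obtain ⟨m, n, hmn⟩ := mem_Lam.mp hz
  apply h n
  rw [hmn]
  simp

theorem AnL2_half (m : ℤ) : (1 / 2 : ℝ) ≠ m := by
  intro h
  have h1 : (1 : ℝ) = ((2 * m : ℤ) : ℝ) := by push_cast; linarith
  have h2 : (1 : ℤ) = 2 * m := by exact_mod_cast h1
  omega

/-- Proof: compare real parts: `1 / 2` is not an integer. -/
theorem half_notMem : (1 / 2 : ℂ) ∉ Lam := by
  refine AnL2_re_notMem fun m => ?_
  have : (1 / 2 : ℂ).re = 1 / 2 := by norm_num
  rw [this]
  exact AnL2_half m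

theorem I_half_notMem : I / 2 ∉ Lam := by
  refine AnL2_im_notMem fun m => ?_
  have : (I / 2 : ℂ).im = 1 / 2 := by simp
  rw [this]
  exact AnL2_half m

theorem w0_notMem : w0 ∉ Lam := by
  refine AnL2_re_notMem fun m => ?_
  have : w0.re = 1 / 2 := by simp [w0]
  rw [this]
  exact AnL2_half m

/-- Proof: `w0 + 1 / 2 = 1 + i / 2`. -/
theorem w0_add_half_notMem : w0 + 1 / 2 ∉ Lam := by
  refine AnL2_im_notMem fun m => ?_
  have : (w0 + 1 / 2).im = 1 / 2 := by simp [w0]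
  rw [this]
  exact AnL2_half m

/-- Proof: `w0 - 1 / 2 = i / 2`. -/
theorem w0_sub_half_notMem : w0 - 1 / 2 ∉ Lam := by
  refine AnL2_im_notMem fun m => ?_
  have : (w0 - 1 / 2).im = 1 / 2 := by simp [w0]
  rw [this]
  exact AnL2_half m

theorem two_w0_mem : w0 + w0 ∈ Lam := by
  refine mem_Lam.mpr ⟨1, 1, ?_⟩
  unfold w0
  push_cast
  ring

/-- For odd `β` the point `β w0` is congruent to `w0`. Proof: `β = m + n i`, `gN β = m² + n²` is odd, so
`m - 1 + n` is even, and `(β - 1) w0 = ((m - 1 - n) + (m - 1 + n) i) / 2` lies in `Lam`. -/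
theorem odd_mul_w0 {β : GaussianInt} (hβ : gOdd β) : (β : ℂ) * w0 - w0 ∈ Lam := by
  have h1 : Odd β.norm := by
    unfold gOdd gN at hβ
    exact Int.natAbs_odd.mp hβ
  have h2 : β.norm = β.re * β.re + β.im * β.im := by
    rw [Zsqrtd.norm_def]; ring
  rw [h2] at h1
  have h3 : Odd (β.re + β.im) := by
    rw [Int.odd_add] at h1
    rw [Int.odd_add]
    rw [Int.odd_mul, Int.even_mul] at h1
    simpa using h1
  obtain ⟨k, hk⟩ := h3
  refine mem_Lam.mpr ⟨k - β.im, k, ?_⟩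
  rw [GaussianInt.toComplex_def]
  unfold w0
  have h4 : (β.re : ℂ) = 2 * k + 1 - β.im := by
    have : β.re = 2 * k + 1 - β.im := by omega
    rw [this]
    push_cast
    ring
  rw [h4]
  push_cast
  have hI : I * I = -1 := I_mul_I
  linear_combination ((β.im : ℂ) / 2) * hI

theorem odd_mul_w0_notMem {β : GaussianInt} (hβ : gOdd β) : (β : ℂ) * w0 ∉ Lam := by
  intro h
  have h1 := sub_mem_Lam h (odd_mul_w0 hβ)
  rw [sub_sub_cancel] at h1
  exact w0_notMem h1

/-- Odd elements are not zero. -/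
theorem ne_zero_of_gOdd {β : GaussianInt} (hβ : gOdd β) : β ≠ 0 := by
  rintro rfl
  unfold gOdd gN at hβ
  simp at hβ

/-- The norm: `‖β‖² = gN β`. -/
theorem norm_sq_coe (β : GaussianInt) : ‖(β : ℂ)‖ ^ 2 = (gN β : ℝ) := by
  rw [← Complex.normSq_eq_norm_sq, ← GaussianInt.intCast_real_norm]
  unfold gN
  have h : (0 : ℤ) ≤ β.norm := GaussianInt.norm_nonneg β
  have h2 : ((β.norm.natAbs : ℤ)) = β.norm := Int.natAbs_of_nonneg h
  have h3 : ((β.norm.natAbs : ℤ) : ℝ) = (β.norm : ℝ) := by rw [h2]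
  rw [← h3]
  simp

/-- If `u`, `-u` are congruent and `β u ∈ Lam` with `β` odd then `u ∈ Lam`. Proof: `2 u ∈ Lam` and
`(gN β) u = conj β * β * u ∈ Lam`, and `gN β` is odd: `u = (gN β) u - ((gN β - 1) / 2) (2 u)`. -/
theorem mem_of_two_mul {β : GaussianInt} (hβ : gOdd β) {u : ℂ} (hu : (β : ℂ) * u ∈ Lam)
    (h2 : u + u ∈ Lam) : u ∈ Lam := by
  have hc : conj (β : ℂ) ∈ Lam := by
    refine mem_Lam.mpr ⟨β.re, -β.im, ?_⟩
    rw [GaussianInt.toComplex_def]
    simp
  have h3 : conj (β : ℂ) * ((β : ℂ) * u) ∈ Lam := mul_mem_Lam hc hu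
  have h4 : conj (β : ℂ) * ((β : ℂ) * u) = (gN β : ℂ) * u := by
    have : conj (β : ℂ) * (β : ℂ) = (gN β : ℂ) := by
      rw [Complex.conj_mul', ← Complex.ofReal_pow, norm_sq_coe]
      simp
    rw [← mul_assoc, this]
  rw [h4] at h3
  obtain ⟨k, hk⟩ := hβ
  have h5 : (k : ℂ) * (u + u) ∈ Lam := by
    refine mul_mem_Lam (mem_Lam.mpr ⟨k, 0, by simp⟩) h2
  have h6 := sub_mem_Lam h3 h5
  have h7 : (gN β : ℂ) * u - (k : ℂ) * (u + u) = u := by
    rw [hk]
    push_cast
    ring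
  rwa [h7] at h6

end Pool.Agent.STg.An
end

section

set_option autoImplicit false

open Complex Filter Topology
open scoped ComplexConjugate

namespace Pool.Agent.STg.An

/-! residue systems. -/

theorem AnD1_coe_norm_le {a β : GaussianInt} (h : a.norm.natAbs < β.norm.natAbs) :
    ‖(a : ℂ)‖ ≤ ‖(β : ℂ)‖ := by
  have h1 := norm_sq_coe a
  have h2 := norm_sq_coe β
  unfold gN at h1 h2
  have h3 : ((a.norm.natAbs : ℕ) : ℝ) ≤ ((β.norm.natAbs : ℕ) : ℝ) := by exact_mod_cast h.le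
  rw [← h1, ← h2] at h3
  exact le_of_sq_le_sq h3 (norm_nonneg _)

/-- Proof: every `a` is congruent to an element of the finite set `{b | ‖b‖ ≤ ‖β‖}` (`a % β`,
`EuclideanDomain`/`GaussianInt.norm_mod_lt`, `finite_norm_le`). So the set of residue classes is finite;
let `S` be a set of representatives (for example the image of `a ↦ Quotient.out (mk a)` in
`GaussianInt ⧸ Ideal.span {β}`, `Ideal.Quotient.eq`, `Ideal.mem_span_singleton`). -/
theorem exists_RS {β : GaussianInt} (hβ : β ≠ 0) : ∃ S : Finset GaussianInt, RS β S := by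
  classical
  let J : Ideal GaussianInt := Ideal.span {β}
  have hfin := finite_norm_le ‖(β : ℂ)‖
  let rep : GaussianInt → GaussianInt := fun a => Quotient.out (Ideal.Quotient.mk J a)
  have hrep : ∀ a, β ∣ a - rep a := by
    intro a
    have h1 : Ideal.Quotient.mk J (rep a) = Ideal.Quotient.mk J a := Quotient.out_eq _
    have h2 := (Ideal.Quotient.eq.1 h1.symm)
    exact Ideal.mem_span_singleton.1 h2
  have hrep2 : ∀ a b, β ∣ a - b → rep a = rep b := by
    intro a b hab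
    have h1 : Ideal.Quotient.mk J a = Ideal.Quotient.mk J b :=
      Ideal.Quotient.eq.2 (Ideal.mem_span_singleton.2 hab)
    show Quotient.out (Ideal.Quotient.mk J a) = Quotient.out (Ideal.Quotient.mk J b)
    rw [h1]
  refine ⟨hfin.toFinset.image rep, fun a => ?_⟩
  have hmod : β ∣ a - a % β := by
    refine ⟨a / β, ?_⟩
    have := EuclideanDomain.mod_add_div a β
    linear_combination -this
  refine ⟨rep a, ⟨?_, hrep a⟩, ?_⟩
  · rw [Finset.mem_image]
    refine ⟨a % β, ?_, ?_⟩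
    · rw [Set.Finite.mem_toFinset]
      exact AnD1_coe_norm_le (GaussianInt.natAbs_norm_mod_lt a hβ)
    · exact (hrep2 _ _ hmod).symm
  · rintro r ⟨hr, har⟩
    rw [Finset.mem_image] at hr
    obtain ⟨b, -, rfl⟩ := hr
    have h1 : β ∣ a - b := by
      have h2 : a - b = (a - rep b) - (b - rep b) := by ring
      rw [h2]
      exact dvd_sub har (hrep b)
    exact (hrep2 _ _ h1).symm

/-- Proof: exactly one element of `S` is divisible by `β` (the one congruent to `0`). -/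
theorem RS_zero {β : GaussianInt} {S : Finset GaussianInt} (hS : RS β S) :
    ∃ r₀ : GaussianInt, r₀ ∈ S ∧ β ∣ r₀ ∧ ∀ r ∈ S, β ∣ r → r = r₀ := by
  obtain ⟨r₀, ⟨h1, h2⟩, h3⟩ := hS 0
  refine ⟨r₀, h1, ?_, fun r hr hβr => h3 r ⟨hr, ?_⟩⟩
  · rw [zero_sub] at h2
    exact (dvd_neg).1 h2
  · rw [zero_sub]
    exact (dvd_neg).2 hβr

/-- Proof: `β ∣ r` iff `r / β ∈ Lam`. -/
theorem div_mem_iff {β : GaussianInt} (hβ : β ≠ 0) (r : GaussianInt) :
    (r : ℂ) / (β : ℂ) ∈ Lam ↔ β ∣ r := by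
  have hβ' : (β : ℂ) ≠ 0 := by
    intro h
    exact hβ (GaussianInt.toComplex_eq_zero.1 h)
  constructor
  · rintro ⟨a, ha⟩
    refine ⟨a, ?_⟩
    have h : (r : ℂ) = ((β * a : GaussianInt) : ℂ) := by
      rw [GaussianInt.toComplex_mul]
      simp only at ha
      rw [ha]
      field_simp
    exact GaussianInt.toComplex_inj.1 h
  · rintro ⟨a, rfl⟩
    rw [GaussianInt.toComplex_mul, mul_div_cancel_left₀ _ hβ']
    exact coe_mem_Lam a

end Pool.Agent.STg.An
end
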