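import Pool.Agent.Lib.MP_1ef7cf_nt_g.AnDefs
import Pool.Agent.Lib.MP_1ef7cf_nt_g.Mg.G002

section

set_option autoImplicit false

open Complex Filter Topology
open scoped ComplexConjugate

namespace Pool.Agent.STg.An

/-! the first quadrant is a fundamental domain for the multiplication by `i`. -/

/-- The element `i ^ k ((m + 1) + n i)`. -/
def AnS6_f (q : Fin 4 × (ℕ × ℕ)) : GaussianInt :=
  match q with
  | (0, p) => ⟨(p.1 : ℤ) + 1, (p.2 : ℤ)⟩
  | (1, p) => ⟨-(p.2 : ℤ), (p.1 : ℤ) + 1⟩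
  | (2, p) => ⟨-((p.1 : ℤ) + 1), -(p.2 : ℤ)⟩
  | (3, p) => ⟨(p.2 : ℤ), -((p.1 : ℤ) + 1)⟩

theorem AnS6_ne (q : Fin 4 × (ℕ × ℕ)) : AnS6_f q ≠ 0 := by
  obtain ⟨k, m, n⟩ := q
  intro h
  rw [Zsqrtd.ext_iff] at h
  fin_cases k <;> simp [AnS6_f] at h <;> omega

theorem AnS6_inj : Function.Injective AnS6_f := by
  rintro ⟨k, m, n⟩ ⟨k', m', n'⟩ h
  rw [Zsqrtd.ext_iff] at h
  fin_cases k <;> fin_cases k' <;> simp [AnS6_f] at h ⊢ <;> omega

theorem AnS6_surj (a : GaussianInt) (ha : a ≠ 0) : ∃ q, AnS6_f q = a := by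
  obtain ⟨x, y⟩ := a
  have hne : x ≠ 0 ∨ y ≠ 0 := by
    by_contra h
    push Not at h
    apply ha
    rw [Zsqrtd.ext_iff]
    exact h
  by_cases h0 : 0 < x ∧ 0 ≤ y
  · refine ⟨(0, (x - 1).toNat, y.toNat), ?_⟩
    rw [Zsqrtd.ext_iff]
    simp [AnS6_f]
    omega
  by_cases h1 : x ≤ 0 ∧ 0 < y
  · refine ⟨(1, (y - 1).toNat, (-x).toNat), ?_⟩
    rw [Zsqrtd.ext_iff]
    simp [AnS6_f]
    omega
  by_cases h2 : x < 0 ∧ y ≤ 0
  · refine ⟨(2, (-x - 1).toNat, (-y).toNat), ?_⟩
    rw [Zsqrtd.ext_iff]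
    simp [AnS6_f]
    omega
  · refine ⟨(3, (-y - 1).toNat, x.toNat), ?_⟩
    rw [Zsqrtd.ext_iff]
    simp [AnS6_f]
    omega

theorem AnS6_coe (q : Fin 4 × (ℕ × ℕ)) :
    ((AnS6_f q : GaussianInt) : ℂ) = I ^ (q.1 : ℕ) * gp q.2 := by
  obtain ⟨k, m, n⟩ := q
  have h3 : I ^ 3 = -I := by rw [pow_succ, I_sq]; ring
  fin_cases k
  · simp [AnS6_f, GaussianInt.toComplex_def, gp]
  · simp [AnS6_f, GaussianInt.toComplex_def, gp]
    linear_combination (-(n : ℂ)) * I_sq
  · simp [AnS6_f, GaussianInt.toComplex_def, gp]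
    ring
  · simp [AnS6_f, GaussianInt.toComplex_def, gp, h3]
    linear_combination (n : ℂ) * I_sq

/-- Proof: `(k, (m, n)) ↦ i ^ k ((m + 1) + n i)` is a bijection from `Fin 4 × (ℕ × ℕ)` to the nonzero
Gaussian integers: these are the quadrants `x > 0, y ≥ 0`; `x ≤ 0, y > 0`; `x < 0, y ≤ 0`;
`x ≥ 0, y < 0`. -/
theorem exists_quadrant : ∃ e : NZ ≃ Fin 4 × (ℕ × ℕ),
    ∀ a : NZ, ((a : GaussianInt) : ℂ) = I ^ ((e a).1 : ℕ) * gp (e a).2 := by
  have hbij : Function.Bijective (fun q : Fin 4 × (ℕ × ℕ) => (⟨AnS6_f q, AnS6_ne q⟩ : NZ)) := by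
    constructor
    · intro q q' h
      exact AnS6_inj (Subtype.ext_iff.1 h)
    · rintro ⟨a, ha⟩
      obtain ⟨q, hq⟩ := AnS6_surj a ha
      exact ⟨q, Subtype.ext hq⟩
  refine ⟨(Equiv.ofBijective _ hbij).symm, fun a => ?_⟩
  have h := (Equiv.ofBijective _ hbij).apply_symm_apply a
  rw [← AnS6_coe]
  have h' := Subtype.ext_iff.1 h
  simp only [Equiv.ofBijective_apply] at h'
  rw [h']

end Pool.Agent.STg.An
end

section

set_option autoImplicit false

open Complex Filter Topology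
open scoped ComplexConjugate

namespace Pool.Agent.STg.An

/-! the zeros of `sg`. -/

/-- Proof: `z ^ 4 = gp p ^ 4` iff `z = i ^ k gp p` for some `k`, and by `exists_quadrant` these are the
nonzero lattice points. -/
theorem factor_zero_iff {z : ℂ} (hz : z ≠ 0) :
    (∃ p : ℕ × ℕ, 1 - z ^ 4 / gp p ^ 4 = 0) ↔ z ∈ Lam := by
  constructor
  · rintro ⟨p, hp⟩
    have hg : gp p ≠ 0 := gp_ne_zero p
    obtain ⟨a, ha⟩ := gp_coe p
    have hgL : gp p ∈ Lam := by rw [← ha]; exact coe_mem_Lam _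
    have h1 : z ^ 4 = gp p ^ 4 := by
      have h2 : z ^ 4 / gp p ^ 4 = 1 := (sub_eq_zero.1 hp).symm
      rwa [div_eq_one_iff_eq (pow_ne_zero 4 hg)] at h2
    have h2 : (z - gp p) * (z + gp p) * ((z - I * gp p) * (z + I * gp p)) = 0 := by
      have h3 : (z - gp p) * (z + gp p) * ((z - I * gp p) * (z + I * gp p)) =
          z ^ 4 - gp p ^ 4 - (I ^ 2 + 1) * (z ^ 2 * gp p ^ 2 - gp p ^ 4) := by ring
      rw [h3, I_sq, h1]
      ring
    rcases mul_eq_zero.1 h2 with h3 | h3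
    · rcases mul_eq_zero.1 h3 with h4 | h4
      · rw [sub_eq_zero.1 h4]; exact hgL
      · rw [eq_neg_of_add_eq_zero_left h4]; exact neg_mem_Lam hgL
    · rcases mul_eq_zero.1 h3 with h4 | h4
      · rw [sub_eq_zero.1 h4]; exact mul_mem_Lam I_mem_Lam hgL
      · rw [eq_neg_of_add_eq_zero_left h4]; exact neg_mem_Lam (mul_mem_Lam I_mem_Lam hgL)
  · rintro ⟨a, ha⟩
    have ha' : (a : ℂ) = z := ha
    obtain ⟨e, he⟩ := exists_quadrant
    have ha0 : a ≠ 0 := by
      rintro rfl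
      apply hz
      rw [← ha']
      simp
    have h1 := he ⟨a, ha0⟩
    refine ⟨(e ⟨a, ha0⟩).2, ?_⟩
    have h2 : ((a : GaussianInt) : ℂ) = I ^ ((e ⟨a, ha0⟩).1 : ℕ) * gp (e ⟨a, ha0⟩).2 := h1
    rw [← ha', h2, mul_pow, ← pow_mul, mul_comm _ 4, pow_mul, I_pow_four, one_pow, one_mul,
      div_self (pow_ne_zero 4 (gp_ne_zero _)), sub_self]

/-- Proof: if `z ∉ Lam` no factor vanishes and the product of the nonzero factors `1 + f p` with `f`
summable is not zero (`tprod_one_add_ne_zero_of_summable`). Conversely a product with a factor `0`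
is `0` (the product is multipliable, `multipliable_one_add_of_summable`), and `sg 0 = 0`. -/
theorem sg_eq_zero_iff (z : ℂ) : sg z = 0 ↔ z ∈ Lam := by
  by_cases hz : z = 0
  · rw [hz]
    constructor
    · intro _
      exact zero_mem_Lam
    · intro _
      unfold sg
      rw [zero_mul]
  · constructor
    · intro h
      by_contra hL
      unfold sg at h
      rcases mul_eq_zero.1 h with h1 | h1
      · exact hz h1
      · have h2 : ∏' p : ℕ × ℕ, (1 + -(z ^ 4 / gp p ^ 4)) ≠ 0 := by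
          apply tprod_one_add_ne_zero_of_summable
          · intro p hp
            apply hL
            rw [← factor_zero_iff hz]
            refine ⟨p, ?_⟩
            rw [← hp]
            ring
          · have h3 := summable_zgp z
            simpa [norm_neg] using h3
        apply h2
        rw [← h1]
        congr 1
    · intro h
      obtain ⟨p, hp⟩ := (factor_zero_iff hz).2 h
      unfold sg
      rw [tprod_of_exists_eq_zero ⟨p, hp⟩, mul_zero]

theorem sg_ne_zero {z : ℂ} (hz : z ∉ Lam) : sg z ≠ 0 := fun h => hz ((sg_eq_zero_iff z).1 h)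

end Pool.Agent.STg.An
end

section

set_option autoImplicit false

open Complex Filter Topology
open scoped ComplexConjugate

namespace Pool.Agent.STg.An

/-! `sg` is entire. -/

/-- Proof: on the open disc `ball 0 R` the terms satisfy `‖z ^ 4 / gp p ^ 4‖ ≤ R ^ 4 (‖gp p‖ ^ 4)⁻¹`, a
summable bound (`summable_gp`), so the product converges locally uniformly
(`Summable.hasProdLocallyUniformlyOn_one_add` or similar, for `1 + (-(z ^ 4 / gp p ^ 4))`) and the limit
is differentiable (`HasProdLocallyUniformlyOn.differentiableOn` or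
`TendstoLocallyUniformlyOn.differentiableOn`, the finite products are polynomials). -/
theorem prod_diff : Differentiable ℂ (fun z : ℂ => ∏' p : ℕ × ℕ, (1 - z ^ 4 / gp p ^ 4)) := by
  intro z0
  set R : ℝ := ‖z0‖ + 1 with hR
  have hR0 : 0 < R := by positivity
  have hb : ∀ᶠ p : ℕ × ℕ in cofinite, ∀ z ∈ Metric.ball (0 : ℂ) R,
      ‖-(z ^ 4 / gp p ^ 4)‖ ≤ R ^ 4 * (‖gp p‖ ^ 4)⁻¹ := by
    refine Eventually.of_forall fun p z hz => ?_
    rw [norm_neg, norm_div, norm_pow, norm_pow, div_eq_mul_inv]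
    have h1 : ‖z‖ < R := by simpa using hz
    have h2 : ‖z‖ ^ 4 ≤ R ^ 4 := pow_le_pow_left₀ (norm_nonneg _) h1.le 4
    exact mul_le_mul_of_nonneg_right h2 (by positivity)
  have hcts : ∀ p : ℕ × ℕ, ContinuousOn (fun z : ℂ => -(z ^ 4 / gp p ^ 4)) (Metric.ball 0 R) := by
    intro p
    have : Continuous (fun z : ℂ => -(z ^ 4 / gp p ^ 4)) := by
      have := gp_ne_zero p
      fun_prop
    exact this.continuousOn
  have hprod := (summable_gp.mul_left (R ^ 4)).hasProdLocallyUniformlyOn_one_add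
    (Metric.isOpen_ball (x := (0 : ℂ)) (ε := R)) hb hcts
  have hd := TendstoLocallyUniformlyOn.differentiableOn hprod
    (Eventually.of_forall fun s => by
      apply Differentiable.differentiableOn
      have hne : ∀ p, gp p ≠ 0 := gp_ne_zero
      have h1 : ∀ p ∈ s, Differentiable ℂ (fun z : ℂ => 1 + -(z ^ 4 / gp p ^ 4)) := by
        intro p _
        fun_prop
      exact Differentiable.fun_finsetProd h1) Metric.isOpen_ball
  have hz0 : z0 ∈ Metric.ball (0 : ℂ) R := by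
    rw [mem_ball_zero_iff, hR]
    linarith
  have h2 := hd.differentiableAt (Metric.isOpen_ball.mem_nhds hz0)
  have h3 : (fun z : ℂ => ∏' p : ℕ × ℕ, (1 - z ^ 4 / gp p ^ 4)) =
      fun z : ℂ => ∏' p : ℕ × ℕ, (1 + -(z ^ 4 / gp p ^ 4)) := by
    funext z
    congr 1
  rw [h3]
  exact h2

theorem sg_diff : Differentiable ℂ sg :=
  differentiable_id.mul prod_diff

end Pool.Agent.STg.An
end
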