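import Pool.Agent.Lib.MP_1ef7cf_nt_g.Mg.G003
import Pool.Agent.Lib.MP_1ef7cf_nt_g.Mg.G005
import Pool.Agent.Lib.MP_1ef7cf_nt_g.Mg.G002
import Pool.Agent.Lib.MP_1ef7cf_nt_g.Mg.G007
import Pool.Agent.Lib.MP_1ef7cf_nt_g.Mg.G008

section

set_option autoImplicit false

open Complex Filter Topology
open scoped ComplexConjugate

namespace Pool.Agent.STg.An

/-! the Dirichlet series of a shifted lattice. -/

theorem AnK6_rpow {r : ℝ} (hr : 0 < r) (s : ℂ) :
    1 / (((r ^ 2 : ℝ) : ℂ) ^ s) = ((r : ℝ) : ℂ) ^ (-2 * s) := by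
  have hr' : ((r : ℝ) : ℂ) ≠ 0 := by exact_mod_cast hr.ne'
  have h2 : ((r ^ 2 : ℝ) : ℂ) = ((r : ℝ) : ℂ) * ((r : ℝ) : ℂ) := by push_cast; ring
  rw [h2, Complex.mul_cpow_ofReal_nonneg hr.le hr.le, ← Complex.cpow_add _ _ hr', one_div,
    ← Complex.cpow_neg]
  congr 1
  ring

theorem AnK6_countable : Countable GaussianInt := by
  have h : Function.Injective (fun a : GaussianInt => (a.re, a.im)) := by
    intro a b hab
    rw [Zsqrtd.ext_iff]
    simpa using hab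
  exact h.countable

theorem AnK6_main {ι : Type} [Countable ι] (x y : UnitAddCircle) (r : ι → ℝ) (hr : ∀ i, 0 < r i) (Θ : ℝ → ℝ)
    (hF : ∀ t : ℝ, 0 < t → HasSum (fun i => Real.exp (-Real.pi * r i ^ 2 * t)) (Θ t))
    (hΘ : ∀ t : ℝ, 0 < t → ((Θ t : ℝ) : ℂ) = (FEP x y).f t - (FEP x y).f₀)
    {s : ℂ} (hs : 1 < s.re) (hsum : Summable (fun i => r i ^ (-(2 * s.re)))) :
    HasSum (fun i => ((r i : ℝ) : ℂ) ^ (-2 * s))
      ((Real.pi : ℂ) ^ s * (Complex.Gamma s)⁻¹ * (FEP x y).Λ s) := by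
  have hk : (FEP x y).k < s.re := hs
  have hm := ((FEP x y).hasMellin hk).2
  have hs0 : 0 < s.re := by linarith
  have h := hasSum_mellin_pi_mul (ι := ι) (a := fun _ => (1 : ℂ)) (q := fun i => r i ^ 2)
    (F := fun t => (FEP x y).f t - (FEP x y).f₀) (s := s)
    (fun i => Or.inr (by have := hr i; positivity)) hs0 ?_ ?_
  · rw [hm] at h
    have hpi : ((Real.pi : ℝ) : ℂ) ≠ 0 := by exact_mod_cast Real.pi_ne_zero
    have hG : Complex.Gamma s ≠ 0 := Complex.Gamma_ne_zero_of_re_pos hs0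
    have h2 := h.mul_left ((Real.pi : ℂ) ^ s * (Complex.Gamma s)⁻¹)
    have hps : ((Real.pi : ℝ) : ℂ) ^ s ≠ 0 := by
      rw [Complex.cpow_ne_zero_iff]
      exact Or.inl hpi
    have h3 : (fun i => ((r i : ℝ) : ℂ) ^ (-2 * s)) = fun i => (Real.pi : ℂ) ^ s *
        (Complex.Gamma s)⁻¹ * ((Real.pi : ℂ) ^ (-s) * Complex.Gamma s * 1 /
          (((r i ^ 2 : ℝ)) : ℂ) ^ s) := by
      funext i
      rw [← AnK6_rpow (hr i) s, Complex.cpow_neg]
      field_simp
    rw [h3]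
    exact h2
  · intro t ht
    have h1 := hF t ht
    rw [← hasSum_ofReal, hΘ t ht] at h1
    simpa using h1
  · refine hsum.congr fun i => ?_
    have hi := hr i
    rw [norm_one, ← Real.rpow_natCast (r i) 2, ← Real.rpow_mul hi.le, one_div, ← Real.rpow_neg hi.le]
    norm_num

/-- Proof. `P = FEP z.re z.im`, `P.f₀ = 0` (`circle_zero_iff`), `P.g₀ = 1`, `P.k = 1`. For `1 < re s`
`P.hasMellin` gives `mellin P.f s = P.Λ s = P.Λ₀ s - 1 / (1 - s)`, and `hasSum_mellin_pi_mul` (with all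
coefficients `1`, `p a = ‖z + a‖ ^ 2`, `theta_sum`, `summable_shift`) gives
`HasSum (π ^ (-s) Γ(s) ‖z + a‖ ^ (-2 s)) (mellin P.f s)`. Hence the claim with
`F s = π ^ s * (Γ s)⁻¹ * ((s - 1) * P.Λ₀ s + 1)`, which is entire (`differentiable_one_div_Gamma`,
`WeakFEPair.differentiable_Λ₀`), `F 0 = 0`, `F 1 = π`. -/
theorem exists_DirS {z : ℂ} (hz : z ∉ Lam) :
    ∃ F : ℂ → ℂ, DirS z F ∧ F 0 = 0 ∧ F 1 = (Real.pi : ℂ) := by
  have hpi : ((Real.pi : ℝ) : ℂ) ≠ 0 := by exact_mod_cast Real.pi_ne_zero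
  have hf0 : (FEP z.re z.im).f₀ = 0 := by
    have h1 : ¬ ((z.re : UnitAddCircle) = 0 ∧ (z.im : UnitAddCircle) = 0) := by
      rw [circle_zero_iff]; exact hz
    simp only [FEP, if_neg h1]
  refine ⟨fun s => (Real.pi : ℂ) ^ s * (Complex.Gamma s)⁻¹ * ((s - 1) * (FEP z.re z.im).Λ₀ s + 1),
    ⟨?_, ?_⟩, ?_, ?_⟩
  · have h1 : Differentiable ℂ (fun s : ℂ => (Real.pi : ℂ) ^ s) := fun s =>
      (differentiableAt_id.const_cpow (Or.inl hpi))
    have h2 := Complex.differentiable_one_div_Gamma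
    have h3 := (FEP z.re z.im).differentiable_Λ₀
    exact (h1.mul h2).mul (((differentiable_id.sub_const 1).mul h3).add_const 1)
  · intro s hs
    have := AnK6_countable
    have hpos : ∀ a : GaussianInt, 0 < ‖z + (a : ℂ)‖ := fun a => by
      rw [norm_pos_iff]
      intro h
      exact hz ((add_coe_mem_iff a).1 (h ▸ zero_mem_Lam))
    have h := AnK6_main (z.re : UnitAddCircle) (z.im : UnitAddCircle)
      (fun a : GaussianInt => ‖z + (a : ℂ)‖) hpos
      (fun t => HurwitzZeta.evenKernel (z.re : UnitAddCircle) t *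
        HurwitzZeta.evenKernel (z.im : UnitAddCircle) t) (fun t ht => theta_sum z ht)
      (fun t _ => by rw [hf0, sub_zero]; rfl) hs (summable_shift z (by linarith))
    convert h using 1
    have hs1 : s - 1 ≠ 0 := by
      intro h0
      have h1 : s = 1 := by linear_combination h0
      rw [h1] at hs
      simp at hs
    have hs2 : (1 : ℂ) - s ≠ 0 := by
      intro h0
      exact hs1 (by linear_combination -h0)
    have hL : (FEP z.re z.im).Λ s = (FEP z.re z.im).Λ₀ s - 1 / (1 - s) := by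
      rw [WeakFEPair.Λ, hf0]
      simp [FEP]
    rw [hL]
    field_simp
    ring
  · simp [Complex.Gamma_zero]
  · simp
end Pool.Agent.STg.An
end

section

set_option autoImplicit false

open Complex Filter Topology
open scoped ComplexConjugate

namespace Pool.Agent.STg.An

/-! the number of residue classes. -/

theorem AnD3_notMem {β : GaussianInt} (hβ : β ≠ 0) {w : ℂ} (hw : w ∉ Lam) (r : GaussianInt) :
    (w + r) / β ∉ Lam := by
  intro h
  apply hw
  have h1 : w = (β : ℂ) * ((w + r) / β) - r := by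
    have := AnD2_coe_ne hβ
    field_simp
    ring
  rw [h1]
  exact sub_mem_Lam (mul_mem_Lam (coe_mem_Lam β) h) (coe_mem_Lam r)

/-- Proof: `dist_DirS` for `w = 1 / 2` at `s = 1`, with the functions of `exists_DirS`
(`(1 / 2 + r) / β ∉ Lam`, else `1 / 2 ∈ Lam`): `π = ‖β‖ ^ (-2) * (S.card * π)`; `norm_sq_coe`. -/
theorem RS_card {β : GaussianInt} (hβ : β ≠ 0) {S : Finset GaussianInt} (hS : RS β S) :
    S.card = gN β := by
  obtain ⟨F, hF, -, hF1⟩ := exists_DirS half_notMem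
  choose G hG hG0 hG1 using fun r : GaussianInt => exists_DirS (AnD3_notMem hβ half_notMem r)
  have h := dist_DirS hβ hS hF (fun r _ => hG r) 1
  rw [hF1] at h
  simp only [hG1, Finset.sum_const, nsmul_eq_mul] at h
  have hpi : ((Real.pi : ℝ) : ℂ) ≠ 0 := by exact_mod_cast Real.pi_ne_zero
  have hβ' := AnD2_coe_ne hβ
  have hn : ((‖(β : ℂ)‖ : ℝ) : ℂ) ≠ 0 := by
    exact_mod_cast (norm_pos_iff.2 hβ').ne'
  have h2 : ((‖(β : ℂ)‖ : ℝ) : ℂ) ^ (-2 * (1 : ℂ)) = ((((‖(β : ℂ)‖ : ℝ) : ℂ)) ^ 2)⁻¹ := by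
    rw [mul_one, Complex.cpow_neg]
    congr 1
    norm_num
  rw [h2] at h
  have h3 : ((S.card : ℕ) : ℂ) = (((‖(β : ℂ)‖ : ℝ) : ℂ)) ^ 2 := by
    field_simp at h
    exact h.symm
  have h4 : ((S.card : ℕ) : ℝ) = ‖(β : ℂ)‖ ^ 2 := by exact_mod_cast h3
  rw [norm_sq_coe] at h4
  exact_mod_cast h4

end Pool.Agent.STg.An
end

section

set_option autoImplicit false

open Complex Filter Topology
open scoped ComplexConjugate

namespace Pool.Agent.STg.An

/-! the modulus of `Phi`. -/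

/-- Proof: `‖sg z‖ = exp (ell z + π ‖z‖² / 2)` for `z ∉ Lam`, and
`‖z + u‖² + ‖z - u‖² = 2 ‖z‖² + 2 ‖u‖²` (`parallelogram_law_with_norm`). -/
theorem log_norm_Phi {u z : ℂ} (hu : u ∉ Lam) (hz : z ∉ Lam) (h1 : z + u ∉ Lam)
    (h2 : z - u ∉ Lam) :
    Real.log ‖Phi u z‖ = ell (z + u) + ell (z - u) - 2 * ell z - 2 * ell u := by
  have h3 : ‖sg (z + u)‖ ≠ 0 := norm_ne_zero_iff.2 (sg_ne_zero h1)
  have h4 : ‖sg (z - u)‖ ≠ 0 := norm_ne_zero_iff.2 (sg_ne_zero h2)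
  have h5 : ‖sg z‖ ≠ 0 := norm_ne_zero_iff.2 (sg_ne_zero hz)
  have h6 : ‖sg u‖ ≠ 0 := norm_ne_zero_iff.2 (sg_ne_zero hu)
  have h7 : ‖Phi u z‖ = ‖sg (z + u)‖ * ‖sg (z - u)‖ / (‖sg z‖ ^ 2 * ‖sg u‖ ^ 2) := by
    unfold Phi
    rw [norm_div, norm_neg, norm_mul, norm_mul, norm_pow, norm_pow]
  have h8 := parallelogram_law_with_norm ℝ z u
  have h9 : ‖z + u‖ ^ 2 + ‖z - u‖ ^ 2 = 2 * (‖z‖ ^ 2 + ‖u‖ ^ 2) := h8
  rw [h7, Real.log_div (mul_ne_zero h3 h4) (mul_ne_zero (pow_ne_zero 2 h5) (pow_ne_zero 2 h6)),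
    Real.log_mul h3 h4, Real.log_mul (pow_ne_zero 2 h5) (pow_ne_zero 2 h6), Real.log_pow, Real.log_pow]
  unfold ell
  push_cast
  linear_combination (Real.pi / 2) * h9

end Pool.Agent.STg.An
end

section

set_option autoImplicit false

open Complex Filter Topology
open scoped ComplexConjugate

namespace Pool.Agent.STg.An

/-! the Dirichlet series of the lattice. -/

/-- Proof. `P = FEP 0 0`, `P.f₀ = 1`, `P.g₀ = 1`, `P.k = 1`. For `1 < re s` `P.hasMellin` gives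
`mellin (P.f - 1) s = P.Λ₀ s - 1 / s - 1 / (1 - s)`, and `hasSum_mellin_pi_mul` (index type `NZ`,
`p a = ‖a‖ ^ 2`, `theta_sum_zero`, `summable_NZ`) gives
`HasSum (π ^ (-s) Γ(s) ‖a‖ ^ (-2 s)) (mellin (P.f - 1) s)`. Hence the claim with
`F s = π ^ s * ((Γ s)⁻¹ * ((s - 1) * P.Λ₀ s + 1) - (s - 1) * (Γ (s + 1))⁻¹)`
(`Γ (s + 1) = s Γ s` for `s ≠ 0`, `Complex.Gamma_add_one`), `F 1 = π`. -/
theorem exists_DirS0 : ∃ F : ℂ → ℂ, DirS0 F := by
  have hpi : ((Real.pi : ℝ) : ℂ) ≠ 0 := by exact_mod_cast Real.pi_ne_zero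
  have hf0 : (FEP 0 0).f₀ = 1 := by
    simp [FEP]
  refine ⟨fun s => (Real.pi : ℂ) ^ s * ((Complex.Gamma s)⁻¹ * ((s - 1) * (FEP 0 0).Λ₀ s + 1) -
    (s - 1) * (Complex.Gamma (s + 1))⁻¹), ?_, ?_, ?_⟩
  · have h1 : Differentiable ℂ (fun s : ℂ => (Real.pi : ℂ) ^ s) := fun s =>
      (differentiableAt_id.const_cpow (Or.inl hpi))
    have h2 := Complex.differentiable_one_div_Gamma
    have h3 := (FEP 0 0).differentiable_Λ₀
    have h4 : Differentiable ℂ (fun s : ℂ => (Complex.Gamma (s + 1))⁻¹) :=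
      h2.comp (differentiable_id.add_const 1)
    exact h1.mul ((h2.mul (((differentiable_id.sub_const 1).mul h3).add_const 1)).sub
      ((differentiable_id.sub_const 1).mul h4))
  · simp
  · intro s hs
    have := AnK6_countable
    have hpos : ∀ a : NZ, 0 < ‖((a : GaussianInt) : ℂ)‖ := fun a =>
      lt_of_lt_of_le one_pos (one_le_norm_NZ a)
    have h := AnK6_main (0 : UnitAddCircle) (0 : UnitAddCircle)
      (fun a : NZ => ‖((a : GaussianInt) : ℂ)‖) hpos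
      (fun t => HurwitzZeta.evenKernel (0 : UnitAddCircle) t *
        HurwitzZeta.evenKernel (0 : UnitAddCircle) t - 1) (fun t ht => theta_sum_zero ht)
      (fun t _ => by rw [hf0]; simp only [FEP]; push_cast; ring) hs (summable_NZ (by linarith))
    convert h using 1
    have hs1 : s - 1 ≠ 0 := by
      intro h0
      have h1 : s = 1 := by linear_combination h0
      rw [h1] at hs
      simp at hs
    have hs2 : (1 : ℂ) - s ≠ 0 := by
      intro h0
      exact hs1 (by linear_combination -h0)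
    have hs0 : s ≠ 0 := by
      intro h0
      rw [h0] at hs
      simp at hs
      linarith
    have hL : (FEP 0 0).Λ s = (FEP 0 0).Λ₀ s - 1 / s - 1 / (1 - s) := by
      rw [WeakFEPair.Λ, hf0]
      simp [FEP]
    have hG : Complex.Gamma s ≠ 0 := Complex.Gamma_ne_zero_of_re_pos (by linarith)
    have hG1 := Complex.Gamma_add_one s hs0
    beta_reduce
    rw [hL, hG1]
    field_simp
    ring
end Pool.Agent.STg.An
end
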