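import Pool.Agent.Lib.MP_1ef7cf_nt_g.Mg.G020
import Pool.Agent.Lib.MP_1ef7cf_nt_g.Mg.G006
import Pool.Agent.Lib.MP_1ef7cf_nt_g.Mg.G005
import Pool.Agent.Lib.MP_1ef7cf_nt_g.AnT7

section

set_option autoImplicit false

open Complex Filter Topology
open scoped ComplexConjugate

namespace Pool.Agent.STg.An

/-! the derivative at `0`. -/

/-- Proof: near `0` by `ident` the function `F s / (s - 1)` equals
`‖z‖ ^ (-2 s) + F0 s / (s - 1) + s ‖z‖ ^ 2 F0 (s + 1) + RR z s`; the derivatives at `0` of the four terms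
are `-2 log ‖z‖`, `-F0' 0 - F0 0`, `‖z‖ ^ 2 F0 1 = π ‖z‖ ^ 2` and `deriv (RR z) 0`. -/
theorem deriv_zero {z : ℂ} (hz : z ∉ Lam) {F F0 : ℂ → ℂ} (hF : DirS z F) (hF0 : DirS0 F0) :
    deriv (fun s => F s / (s - 1)) 0 =
      ((-2 * Real.log ‖z‖ : ℝ) : ℂ) + (-deriv F0 0 - F0 0) + ((Real.pi * ‖z‖ ^ 2 : ℝ) : ℂ) +
        deriv (RR z) 0 := by
  have hz0 : z ≠ 0 := by
    rintro rfl
    exact hz zero_mem_Lam
  have hzn : ((‖z‖ : ℝ) : ℂ) ≠ 0 := by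
    have := norm_ne_zero_iff.2 hz0
    exact_mod_cast this
  have h0U : (0 : ℂ) ∈ UU := by
    unfold UU
    rw [Metric.mem_ball, dist_eq_norm]
    norm_num
  have hUopen : IsOpen UU := Metric.isOpen_ball
  have hev : (fun s => F s / (s - 1)) =ᶠ[𝓝 0] fun s => ((‖z‖ : ℝ) : ℂ) ^ (-2 * s) + F0 s / (s - 1) +
      s * ((‖z‖ ^ 2 : ℝ) : ℂ) * F0 (s + 1) + RR z s := by
    filter_upwards [hUopen.mem_nhds h0U,
      (isOpen_ne (x := (1 : ℂ))).mem_nhds (show (0 : ℂ) ≠ 1 by norm_num)] with s hs hs1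
    have h1 := ident hz hF hF0 hs
    have h2 : s - 1 ≠ 0 := sub_ne_zero.2 hs1
    rw [h1]
    field_simp
  rw [hev.deriv_eq]
  have hd1 : HasDerivAt (fun s : ℂ => ((‖z‖ : ℝ) : ℂ) ^ (-2 * s)) ((-2 * Real.log ‖z‖ : ℝ) : ℂ) 0 := by
    have h1 : HasDerivAt (fun s : ℂ => -2 * s) (-2) 0 := by
      simpa using (hasDerivAt_id (0 : ℂ)).const_mul (-2)
    have h2 := h1.const_cpow (c := ((‖z‖ : ℝ) : ℂ)) (Or.inl hzn)
    have h3 : ((‖z‖ : ℝ) : ℂ) ^ (-2 * (0 : ℂ)) * Complex.log ((‖z‖ : ℝ) : ℂ) * (-2) =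
        ((-2 * Real.log ‖z‖ : ℝ) : ℂ) := by
      rw [mul_zero, Complex.cpow_zero, ← Complex.ofReal_log (norm_nonneg z)]
      push_cast
      ring
    rw [h3] at h2
    exact h2
  have hd2 : HasDerivAt (fun s : ℂ => F0 s / (s - 1)) (-deriv F0 0 - F0 0) 0 := by
    have h1 := (hF0.1 0).hasDerivAt
    have h2 : HasDerivAt (fun s : ℂ => s - 1) 1 0 := (hasDerivAt_id (0 : ℂ)).sub_const 1
    have h3 := h1.div h2 (by norm_num)
    have h4 : (deriv F0 0 * ((0 : ℂ) - 1) - F0 0 * 1) / ((0 : ℂ) - 1) ^ 2 =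
        -deriv F0 0 - F0 0 := by
      norm_num
    rw [h4] at h3
    exact h3
  have hd3 : HasDerivAt (fun s : ℂ => s * ((‖z‖ ^ 2 : ℝ) : ℂ) * F0 (s + 1))
      ((Real.pi * ‖z‖ ^ 2 : ℝ) : ℂ) 0 := by
    have h1 : HasDerivAt (fun s : ℂ => s * ((‖z‖ ^ 2 : ℝ) : ℂ)) ((‖z‖ ^ 2 : ℝ) : ℂ) 0 := by
      simpa only [id, one_mul] using (hasDerivAt_id (0 : ℂ)).mul_const ((‖z‖ ^ 2 : ℝ) : ℂ)
    have h2 : HasDerivAt (fun s : ℂ => F0 (s + 1)) (deriv F0 (0 + 1)) 0 :=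
      (hF0.1 (0 + 1)).hasDerivAt.comp_add_const 0 1
    have h3 := h1.mul h2
    have h4 : ((‖z‖ ^ 2 : ℝ) : ℂ) * F0 (0 + 1) + 0 * ((‖z‖ ^ 2 : ℝ) : ℂ) * deriv F0 (0 + 1) =
        ((Real.pi * ‖z‖ ^ 2 : ℝ) : ℂ) := by
      rw [zero_add, hF0.2.1]
      push_cast
      ring
    rw [h4] at h3
    exact h3
  have hd4 : HasDerivAt (RR z) (deriv (RR z) 0) 0 :=
    ((RR_diff hz).differentiableAt (hUopen.mem_nhds h0U)).hasDerivAt
  exact (((hd1.add hd2).add hd3).add hd4).deriv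

end Pool.Agent.STg.An
end

section

set_option autoImplicit false

open Complex Filter Topology
open scoped ComplexConjugate

namespace Pool.Agent.STg.An

/-! Kronecker's limit formula. -/

/-- Proof: `F` from `exists_DirS`, `F0` from `exists_DirS0`, `c = (-deriv F0 0 - F0 0).re` (the imaginary
part vanishes by `DirS0_im`, `DirS0_deriv_im`). By `RR_deriv` and `hasSum_log_NZ`
`deriv (RR z) 0 = -2 (log ‖sg z‖ - log ‖z‖)` (`HasSum.unique`), so by `deriv_zero` the derivative is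
`-2 log ‖z‖ + c + π ‖z‖ ^ 2 - 2 log ‖sg z‖ + 2 log ‖z‖ = c - 2 ell z`. -/
theorem exists_kron : ∃ c : ℝ, Kron c := by
  obtain ⟨F0, hF0⟩ := exists_DirS0
  refine ⟨(-deriv F0 0 - F0 0).re, ?_⟩
  intro z hz
  obtain ⟨F, hF, hF00, hF1⟩ := exists_DirS hz
  refine ⟨F, hF, hF00, hF1, ?_⟩
  rw [deriv_zero hz hF hF0]
  have hc : (-deriv F0 0 - F0 0) = (((-deriv F0 0 - F0 0).re : ℝ) : ℂ) := by
    apply Complex.ext
    · simp
    · simp [DirS0_im hF0, DirS0_deriv_im hF0]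
  have hR : deriv (RR z) 0 = ((-2 * (Real.log ‖sg z‖ - Real.log ‖z‖) : ℝ) : ℂ) := by
    have h1 := RR_deriv hz
    have h2 := (hasSum_log_NZ hz).mul_left (-(1 / 2))
    have h3 := Complex.hasSum_ofReal.2 h2
    rw [h1.unique h3]
    congr 1
    ring
  rw [hR, hc]
  set c := (-deriv F0 0 - F0 0).re
  unfold ell
  push_cast
  rw [Complex.ofReal_re]
  ring

end Pool.Agent.STg.An
end
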