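import Pool.Agent.Lib.MP_1ef7cf_nt_g.Mg.G014
import Pool.Agent.Lib.MP_1ef7cf_nt_g.Mg.G022
import Pool.Agent.Lib.MP_1ef7cf_nt_g.AnX2
import Pool.Agent.Lib.MP_1ef7cf_nt_g.Mg.G016
import Pool.Agent.Lib.MP_1ef7cf_nt_h.Per

section

set_option autoImplicit false

open Complex Filter Topology
open scoped ComplexConjugate

namespace Pool.Agent.STg.An

/-! the constant. -/

/-- Proof. Let `n = card T` and `p = 1 / PP (1 / 2) ≠ 0`. Multiply the formula by `z ^ (2 + 4 n)` and let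
`z → 0`, `z ≠ 0` (`β z ∉ Lam` eventually, `eventually_notMem`): `z ^ 2 XX z → p` (`XX_tendsto`),
`z ^ 2 XX (β z) → p / β ^ 2`, `z ^ 2 (XX z - t) → p`, `z ^ 2 (1 + t XX z) → t p`. So
`p / β ^ 2 * p ^ (2 n) = κ * p * ∏ (t p) ^ 2`, i.e. `1 = κ β ^ 2 ∏ t ^ 2`. -/
theorem LM_const {c : ℝ} (hK : Kron c) {β : GaussianInt} (hβ : gOdd β) {κ : ℂ}
    (h : ∀ z : ℂ, (β : ℂ) * z ∉ Lam → LL β z = κ * MM β z) :
    κ * (β : ℂ) ^ 2 * ∏ t ∈ TFin XX β, t ^ 2 = 1 := by
  have hβ0 : (β : ℂ) ≠ 0 := by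
    intro h1
    exact ne_zero_of_gOdd hβ (GaussianInt.toComplex_eq_zero.mp h1)
  set p : ℂ := 1 / PP (1 / 2) with hp
  have hp0 : p ≠ 0 := one_div_ne_zero PP_half_ne
  have t0 : Tendsto (fun z : ℂ => z ^ 2 * XX z) (𝓝[≠] 0) (𝓝 p) := XX_tendsto
  have tz : Tendsto (fun z : ℂ => z ^ 2) (𝓝[≠] 0) (𝓝 0) := by
    have h1 : Tendsto (fun z : ℂ => z ^ 2) (𝓝 0) (𝓝 (0 ^ 2)) := (continuous_pow 2).tendsto 0
    rw [zero_pow two_ne_zero] at h1
    exact h1.mono_left nhdsWithin_le_nhds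
  have tb : Tendsto (fun z : ℂ => (β : ℂ) * z) (𝓝[≠] 0) (𝓝[≠] 0) := by
    refine tendsto_nhdsWithin_iff.mpr ⟨?_, ?_⟩
    · have h1 : Tendsto (fun z : ℂ => (β : ℂ) * z) (𝓝 0) (𝓝 ((β : ℂ) * 0)) :=
        (continuous_const.mul continuous_id).tendsto 0
      rw [mul_zero] at h1
      exact h1.mono_left nhdsWithin_le_nhds
    · filter_upwards [self_mem_nhdsWithin] with z hz
      exact mul_ne_zero hβ0 hz
  have t1 : Tendsto (fun z : ℂ => z ^ 2 * XX (β * z)) (𝓝[≠] 0) (𝓝 (p / (β : ℂ) ^ 2)) := by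
    have h1 := (t0.comp tb).div_const ((β : ℂ) ^ 2)
    refine h1.congr fun z => ?_
    simp only [Function.comp_apply]
    field_simp
  have t2 : ∀ t : ℂ, Tendsto (fun z : ℂ => (z ^ 2 * (XX z - t)) ^ 2) (𝓝[≠] 0) (𝓝 (p ^ 2)) := by
    intro t
    have h1 := (t0.sub (tz.mul_const t)).pow 2
    rw [zero_mul, sub_zero] at h1
    refine h1.congr fun z => ?_
    ring
  have t3 : ∀ t : ℂ, Tendsto (fun z : ℂ => (z ^ 2 * (1 + t * XX z)) ^ 2) (𝓝[≠] 0)
      (𝓝 ((t * p) ^ 2)) := by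
    intro t
    have h1 := (tz.add (t0.const_mul t)).pow 2
    rw [zero_add] at h1
    refine h1.congr fun z => ?_
    ring
  set T := TFin XX β with hT
  have l1 : Tendsto (fun z : ℂ => (z ^ 2 * XX (β * z)) * ∏ t ∈ T, (z ^ 2 * (XX z - t)) ^ 2)
      (𝓝[≠] 0) (𝓝 (p / (β : ℂ) ^ 2 * ∏ _t ∈ T, p ^ 2)) :=
    t1.mul (tendsto_finsetProd T fun t _ => t2 t)
  have l2 : Tendsto (fun z : ℂ => κ * ((z ^ 2 * XX z) * ∏ t ∈ T, (z ^ 2 * (1 + t * XX z)) ^ 2))
      (𝓝[≠] 0) (𝓝 (κ * (p * ∏ t ∈ T, (t * p) ^ 2))) :=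
    (t0.mul (tendsto_finsetProd T fun t _ => t3 t)).const_mul κ
  have l3 : (fun z : ℂ => (z ^ 2 * XX (β * z)) * ∏ t ∈ T, (z ^ 2 * (XX z - t)) ^ 2) =ᶠ[𝓝[≠] 0]
      fun z : ℂ => κ * ((z ^ 2 * XX z) * ∏ t ∈ T, (z ^ 2 * (1 + t * XX z)) ^ 2) := by
    filter_upwards [eventually_notMem hβ0] with z hz
    have h1 := h z hz
    unfold LL MM at h1
    rw [← hT] at h1
    have h2 : ∏ t ∈ T, (z ^ 2 * (XX z - t)) ^ 2 =
        (∏ _t ∈ T, (z ^ 2) ^ 2) * ∏ t ∈ T, (XX z - t) ^ 2 := by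
      rw [← Finset.prod_mul_distrib]
      exact Finset.prod_congr rfl fun t _ => mul_pow _ _ _
    have h3 : ∏ t ∈ T, (z ^ 2 * (1 + t * XX z)) ^ 2 =
        (∏ _t ∈ T, (z ^ 2) ^ 2) * ∏ t ∈ T, (1 + t * XX z) ^ 2 := by
      rw [← Finset.prod_mul_distrib]
      exact Finset.prod_congr rfl fun t _ => mul_pow _ _ _
    rw [h2, h3]
    linear_combination (z ^ 2 * ∏ _t ∈ T, (z ^ 2) ^ 2) * h1
  have l4 := tendsto_nhds_unique (l1.congr' l3) l2
  have l5 : ∏ t ∈ T, (t * p) ^ 2 = (∏ t ∈ T, t ^ 2) * ∏ _t ∈ T, p ^ 2 := by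
    rw [← Finset.prod_mul_distrib]
    exact Finset.prod_congr rfl fun t _ => mul_pow _ _ _
  rw [l5] at l4
  have hq : (∏ _t ∈ T, p ^ 2) ≠ 0 := Finset.prod_ne_zero_iff.mpr fun _ _ => pow_ne_zero 2 hp0
  have hpq : p * ∏ _t ∈ T, p ^ 2 ≠ 0 := mul_ne_zero hp0 hq
  have l6 : (κ * (β : ℂ) ^ 2 * ∏ t ∈ T, t ^ 2) * (p * ∏ _t ∈ T, p ^ 2) =
      1 * (p * ∏ _t ∈ T, p ^ 2) := by
    have l7 : p * ∏ _t ∈ T, p ^ 2 = (β : ℂ) ^ 2 * (p / (β : ℂ) ^ 2 * ∏ _t ∈ T, p ^ 2) := by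
      field_simp
    rw [one_mul]
    conv_rhs => rw [l7, l4]
    ring
  exact mul_right_cancel₀ hpq l6

end Pool.Agent.STg.An
end

section

set_option autoImplicit false

open Complex Filter Topology
open scoped ComplexConjugate

namespace Pool.Agent.STg.An

theorem kron_field {c : ℝ} (hK : Kron c) (z : ℂ) (hz : z ∉ Lam) :
    ∃ E : ℂ → ℂ, DifferentiableOn ℂ E {1}ᶜ ∧
    (∀ s : ℂ, 1 < s.re →
      HasSum (fun a : GaussianInt => ((‖z + (a : ℂ)‖ : ℝ) : ℂ) ^ (-2 * s)) (E s)) ∧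
    E 0 = 0 ∧ deriv E 0 = ((c - 2 * ell z : ℝ) : ℂ) := by
  obtain ⟨F, hF, hF0, -, hd⟩ := hK z hz
  refine ⟨fun s => F s / (s - 1), ?_, hF.2, ?_, hd⟩
  · intro s hs
    have hs1 : s - 1 ≠ 0 := sub_ne_zero.2 (by simpa using hs)
    exact ((hF.1 s).div ((differentiableAt_id).sub_const 1) hs1).differentiableWithinAt
  · simp [hF0]

theorem kappa_cases {c : ℝ} (hK : Kron c) {β : GaussianInt} (hβ : gOdd β) {κ : ℂ}
    (h : ∀ z : ℂ, (β : ℂ) * z ∉ Lam → LL β z = κ * MM β z) : κ = 1 ∨ κ = -1 :=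
  sq_eq_one_iff.1 (LM_sq hK hβ h)

theorem X_prod_field {c : ℝ} (hK : Kron c) (β : GaussianInt) (hβ : gOdd β) :
    ∃ κ : ℂ, (κ = 1 ∨ κ = -1) ∧ κ * (β : ℂ) ^ 2 * ∏ t ∈ TFin XX β, t ^ 2 = 1 ∧
    ∀ z : ℂ, (β : ℂ) * z ∉ Lam →
      XX (β * z) * ∏ t ∈ TFin XX β, (XX z - t) ^ 2 = κ * XX z * ∏ t ∈ TFin XX β, (1 + t * XX z) ^ 2 := by
  obtain ⟨κ, hκ⟩ := exists_LM hK hβ
  refine ⟨κ, kappa_cases hK hβ hκ, LM_const hK hβ hκ, fun z hz => ?_⟩
  have h := hκ z hz
  unfold LL MM at h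
  rw [h, mul_assoc]

end Pool.Agent.STg.An

namespace Pool.Agent.STg

open An in
/-- The lemniscatic data exist. -/
theorem exists_lemData : Nonempty LemData := by
  obtain ⟨c, hK⟩ := exists_kron
  exact ⟨{
    X := XX
    ell := ell
    c₀ := c
    X_add := XX_add hK
    X_neg := XX_neg
    X_I := XX_I hK
    X_half := XX_half
    X_w0 := XX_w0
    X_inj := fun z u hz hu h => XX_inj hK hz hu h
    X_add_w0 := fun z hz hz' => XX_add_w0 hK hz hz'
    X_add_half := fun z hz hz' => XX_add_half hK hz hz'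
    X_oneI := fun z _ hz' => XX_oneI hK hz'
    X_mul := fun z u hz hu h1 h2 => XX_mul hK hz hu h1 h2
    finite_T := fun β hβ => finite_TSet hK hβ
    card_T := fun β hβ => card_TFin hK hβ
    X_prod := X_prod_field hK
    ell_add := fun z hz a => ell_add hK hz a
    theta := fun α hα => theta_XX hK hα
    kron := kron_field hK }⟩

end Pool.Agent.STg
end

section

/-!
# Sums over the classes with given coordinates
-/

open Complex

namespace Pool.Agent.STh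

open Pool.Agent.STg

/-! Adapt `MP_1ef7cf_nt_g/Q3.lean`. -/

variable (U : UD)

/-- periodicity of the coordinates modulo `f J`, `k ≤ J`: `UD.per` for the first coordinate; the
norms are congruent modulo `M J` -/
lemma sM_per {k J : ℕ} (hJ : k ≤ J) {a b : GaussianInt} (ha : Prim a)
    (han : IsCoprime a ((U.n : ℕ) : GaussianInt)) (h : U.f J ∣ a - b) : sM U k a = sM U k b := by
  have hn : ((U.n : ℕ) : GaussianInt) ∣ U.f J := by
    unfold UD.f
    obtain ⟨c, hc⟩ := U.n_dvd_M J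
    rw [hc]
    push_cast
    exact Dvd.intro _ rfl
  have hnab : ((U.n : ℕ) : GaussianInt) ∣ a - b := hn.trans h
  have hbn : IsCoprime b ((U.n : ℕ) : GaussianInt) := by
    obtain ⟨c, hc⟩ := hnab
    have e : b = a + ((U.n : ℕ) : GaussianInt) * (-c) := by linear_combination -hc
    rw [e]
    exact han.add_mul_left_left _
  have h2 : gN a ≡ gN b [MOD U.M k] := by
    obtain ⟨c, hc⟩ := h
    have hc' : a - b = (((U.M J : ℕ) : ℤ) : GaussianInt) * c := by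
      rw [hc]
      unfold UD.f
      push_cast
      ring
    have hre : a.re - b.re = ((U.M J : ℕ) : ℤ) * c.re := by
      have := congrArg Zsqrtd.re hc'
      rw [Zsqrtd.re_smul] at this
      simpa using this
    have him : a.im - b.im = ((U.M J : ℕ) : ℤ) * c.im := by
      have := congrArg Zsqrtd.im hc'
      rw [Zsqrtd.im_smul] at this
      simpa using this
    have hdvd : ((U.M J : ℕ) : ℤ) ∣ ((gN b : ℕ) : ℤ) - ((gN a : ℕ) : ℤ) := by
      rw [Q_gN, Q_gN]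
      refine ⟨-(c.re * (a.re + b.re) + c.im * (a.im + b.im)), ?_⟩
      linear_combination (-(a.re + b.re)) * hre + (-(a.im + b.im)) * him
    have h3 : gN a ≡ gN b [MOD U.M J] := (Nat.modEq_iff_dvd).mpr hdvd
    exact h3.of_dvd (U.M_dvd hJ)
  unfold sM
  rw [U.per ha han hnab, (nu_eq_iff (U.gN_coprime k han) (U.gN_coprime k hbn)).mpr h2]

lemma sM_translate_iff (k : ℕ) {a β : GaussianInt} (han : IsCoprime a ((U.n : ℕ) : GaussianInt))
    (hβn : IsCoprime β ((U.n : ℕ) : GaussianInt)) (g : Gam (U.M k)) :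
    sM U k (β * a) = sM U k β * g ↔ sM U k a = g := by
  rw [sM_mul U k hβn han]
  exact mul_right_inj _

open Classical in
/-- **Translation formula**: the sum of `F` over the classes with coordinates `sM β * g` is the sum
of `F (β a)` over the classes with coordinates `g` (`sum_PR_mul`). -/
lemma sum_translate {A : Type*} [AddCommMonoid A] {k J : ℕ} (hJ : k ≤ J) {β : GaussianInt}
    (hβ : Prim β) (hβn : IsCoprime β ((U.n : ℕ) : GaussianInt)) (F : GaussianInt → A)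
    (hF : ∀ a b, Prim a → IsCoprime a (U.f J) → U.f J ∣ a - b → F a = F b) (g : Gam (U.M k)) :
    ∑ a ∈ PR (U.f J), (if sM U k a = sM U k β * g then F a else 0) =
      ∑ a ∈ PR (U.f J), (if sM U k a = g then F (β * a) else 0) := by
  have h1 := sum_PR_mul (U.f_ne_zero J) (U.cube_dvd J) hβ
    (U.coprime_f J hβn) (fun a => if sM U k a = sM U k β * g then F a else 0)
    (fun a b ha haf h => by
      rw [sM_per U hJ ha (U.coprime_n haf) h, hF a b ha haf h])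
  rw [← h1]
  refine Finset.sum_congr rfl (fun a ha => ?_)
  have h2 := (isPR_PR (U.f_ne_zero J)).1 a ha
  simp only [sM_translate_iff U k (U.coprime_n h2.2) hβn g]

open Classical in
lemma prod_translate {A : Type*} [CommMonoid A] {k J : ℕ} (hJ : k ≤ J) {β : GaussianInt}
    (hβ : Prim β) (hβn : IsCoprime β ((U.n : ℕ) : GaussianInt)) (F : GaussianInt → A)
    (hF : ∀ a b, Prim a → IsCoprime a (U.f J) → U.f J ∣ a - b → F a = F b) (g : Gam (U.M k)) :
    ∏ a ∈ PR (U.f J), (if sM U k a = sM U k β * g then F a else 1) =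
      ∏ a ∈ PR (U.f J), (if sM U k a = g then F (β * a) else 1) := by
  have h1 := prod_PR_mul (U.f_ne_zero J) (U.cube_dvd J) hβ
    (U.coprime_f J hβn) (fun a => if sM U k a = sM U k β * g then F a else 1)
    (fun a b ha haf h => by
      rw [sM_per U hJ ha (U.coprime_n haf) h, hF a b ha haf h])
  rw [← h1]
  refine Finset.prod_congr rfl (fun a ha => ?_)
  have h2 := (isPR_PR (U.f_ne_zero J)).1 a ha
  simp only [sM_translate_iff U k (U.coprime_n h2.2) hβn g]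

open Classical in
/-- the number of classes with coordinates `sM β * g` is the number of classes with coordinates
`g` -/
lemma card_translate {k J : ℕ} (hJ : k ≤ J) {β : GaussianInt}
    (hβ : Prim β) (hβn : IsCoprime β ((U.n : ℕ) : GaussianInt)) (g : Gam (U.M k)) :
    ((PR (U.f J)).filter (fun a => sM U k a = sM U k β * g)).card =
      ((PR (U.f J)).filter (fun a => sM U k a = g)).card := by
  have h1 := sum_translate U hJ hβ hβn (fun _ => (1 : ℕ)) (fun _ _ _ _ _ => rfl) g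
  rw [Finset.card_filter, Finset.card_filter]
  exact h1

end Pool.Agent.STh
end
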