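import Pool.Agent.Lib.MP_1ef7cf_nt_g.AnDefs
import Pool.Agent.Lib.MP_1ef7cf_nt_g.Mg.G004
import Pool.Agent.Lib.MP_1ef7cf_nt_g.Mg.G023

section

set_option autoImplicit false

open Complex Filter Topology
open scoped ComplexConjugate

namespace Pool.Agent.STg.An

/-! `hh` as a function of `s`. -/

theorem AnH5_fac (w : ℂ) : 1 - w ^ 4 = (1 + w) * (1 - w) * ((1 + I * w) * (1 - I * w)) := by
  linear_combination (w ^ 2 * (1 - w ^ 2)) * Complex.I_sq

theorem AnH5_ne {w : ℂ} (hw : w ^ 4 ≠ 1) :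
    1 + w ≠ 0 ∧ 1 + I * w ≠ 0 ∧ 1 - w ≠ 0 ∧ 1 - I * w ≠ 0 := by
  have h : 1 - w ^ 4 ≠ 0 := fun h => hw (sub_eq_zero.mp h).symm
  rw [AnH5_fac] at h
  exact ⟨fun h1 => h (by rw [h1]; ring), fun h1 => h (by rw [h1]; ring),
    fun h1 => h (by rw [h1]; ring), fun h1 => h (by rw [h1]; ring)⟩

theorem AnH5_base {v : ℂ} (hv : v ≠ 0) (s : ℂ) :
    HasDerivAt (fun s : ℂ => ((‖v‖ : ℝ) : ℂ) ^ (-2 * s))
      (((‖v‖ : ℝ) : ℂ) ^ (-2 * s) * Complex.log ((‖v‖ : ℝ) : ℂ) * (-2)) s := by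
  have hv' : ((‖v‖ : ℝ) : ℂ) ≠ 0 := by
    rw [Ne, Complex.ofReal_eq_zero, norm_eq_zero]
    exact hv
  have h1 : HasDerivAt (fun s : ℂ => -2 * s) (-2) s := by
    simpa using (hasDerivAt_id s).const_mul (-2 : ℂ)
  exact h1.const_cpow (Or.inl hv')

/-- Proof: `1 - w ^ 4 = (1 + w) (1 - w) (1 + I w) (1 - I w)`, so all four bases are nonzero. -/
theorem hh_diff {w : ℂ} (hw : w ^ 4 ≠ 1) : Differentiable ℂ (fun s => hh s w) := by
  obtain ⟨h1, h2, h3, h4⟩ := AnH5_ne hw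
  intro s
  unfold hh
  exact ((((AnH5_base h1 s).differentiableAt.add (AnH5_base h2 s).differentiableAt).add
    (AnH5_base h3 s).differentiableAt).add (AnH5_base h4 s).differentiableAt).div_const 4

theorem hh_zero (w : ℂ) : hh 0 w = 1 := by
  unfold hh
  rw [mul_zero, Complex.cpow_zero, Complex.cpow_zero, Complex.cpow_zero, Complex.cpow_zero]
  norm_num

/-- Proof: the derivative of `c ^ (-2 s)` at `0` is `-2 log c`; the sum of the four logarithms is
`log ‖1 - w ^ 4‖`. -/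
theorem hh_deriv {w : ℂ} (hw : w ^ 4 ≠ 1) :
    HasDerivAt (fun s => hh s w) ((-(1 / 2) * Real.log ‖1 - w ^ 4‖ : ℝ) : ℂ) 0 := by
  obtain ⟨h1, h2, h3, h4⟩ := AnH5_ne hw
  have hd := ((((AnH5_base h1 0).add (AnH5_base h2 0)).add (AnH5_base h3 0)).add
    (AnH5_base h4 0)).div_const 4
  have hlog : Real.log ‖1 - w ^ 4‖ = Real.log ‖1 + w‖ + Real.log ‖1 - w‖
      + (Real.log ‖1 + I * w‖ + Real.log ‖1 - I * w‖) := by
    rw [AnH5_fac, norm_mul, norm_mul, norm_mul,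
      Real.log_mul (mul_ne_zero (norm_ne_zero_iff.mpr h1) (norm_ne_zero_iff.mpr h3))
        (mul_ne_zero (norm_ne_zero_iff.mpr h2) (norm_ne_zero_iff.mpr h4)),
      Real.log_mul (norm_ne_zero_iff.mpr h1) (norm_ne_zero_iff.mpr h3),
      Real.log_mul (norm_ne_zero_iff.mpr h2) (norm_ne_zero_iff.mpr h4)]
  refine hd.congr_deriv ?_
  rw [hlog]
  rw [mul_zero, Complex.cpow_zero, Complex.cpow_zero, Complex.cpow_zero, Complex.cpow_zero,
    ← Complex.ofReal_log (norm_nonneg _), ← Complex.ofReal_log (norm_nonneg _),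
    ← Complex.ofReal_log (norm_nonneg _), ← Complex.ofReal_log (norm_nonneg _)]
  push_cast
  ring

end Pool.Agent.STg.An
end

section

set_option autoImplicit false

open Complex Filter Topology
open scoped ComplexConjugate

namespace Pool.Agent.STg.An

/-! the functions `TT`. -/

theorem AnT1_ne (a : NZ) : ((a : GaussianInt) : ℂ) ≠ 0 := by
  intro h
  have h1 := one_le_norm_NZ a
  rw [h, norm_zero] at h1
  linarith

theorem AnT1_norm_ne (a : NZ) : ((‖((a : GaussianInt) : ℂ)‖ : ℝ) : ℂ) ≠ 0 := by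
  have := norm_ne_zero_iff.2 (AnT1_ne a)
  exact_mod_cast this

/-- Proof: if `(z / a) ^ 4 = 1` then `z = i ^ k a` lies in `Lam`. -/
theorem div_pow_ne {z : ℂ} (hz : z ∉ Lam) (a : NZ) : (z / ((a : GaussianInt) : ℂ)) ^ 4 ≠ 1 := by
  intro h
  apply hz
  set b : ℂ := ((a : GaussianInt) : ℂ) with hb
  have hb0 : b ≠ 0 := AnT1_ne a
  have hbL : b ∈ Lam := coe_mem_Lam _
  have h1 : z ^ 4 = b ^ 4 := by
    rw [div_pow, div_eq_one_iff_eq (pow_ne_zero 4 hb0)] at h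
    exact h
  have h2 : (z - b) * (z + b) * ((z - I * b) * (z + I * b)) = 0 := by
    have h3 : (z - b) * (z + b) * ((z - I * b) * (z + I * b)) =
        z ^ 4 - b ^ 4 - (I ^ 2 + 1) * (z ^ 2 * b ^ 2 - b ^ 4) := by ring
    rw [h3, I_sq, h1]
    ring
  rcases mul_eq_zero.1 h2 with h3 | h3
  · rcases mul_eq_zero.1 h3 with h4 | h4
    · rw [sub_eq_zero.1 h4]; exact hbL
    · rw [eq_neg_of_add_eq_zero_left h4]; exact neg_mem_Lam hbL
  · rcases mul_eq_zero.1 h3 with h4 | h4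
    · rw [sub_eq_zero.1 h4]; exact mul_mem_Lam I_mem_Lam hbL
    · rw [eq_neg_of_add_eq_zero_left h4]; exact neg_mem_Lam (mul_mem_Lam I_mem_Lam hbL)

theorem TT_diff {z : ℂ} (hz : z ∉ Lam) (a : NZ) : Differentiable ℂ (TT z a) := by
  have h1 := hh_diff (div_pow_ne hz a)
  have h2 := AnT1_norm_ne a
  unfold TT
  intro s
  apply DifferentiableAt.mul
  · apply DifferentiableAt.const_cpow
    · fun_prop
    · exact Or.inl h2
  · apply DifferentiableAt.sub
    · exact (h1 s).sub (differentiableAt_const _)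
    · fun_prop

theorem TT_zero (z : ℂ) (a : NZ) : TT z a 0 = 0 := by
  unfold TT
  rw [hh_zero]
  ring

theorem TT_deriv {z : ℂ} (hz : z ∉ Lam) (a : NZ) : deriv (TT z a) 0 =
    ((-(1 / 2) * Real.log ‖1 - (z / ((a : GaussianInt) : ℂ)) ^ 4‖ : ℝ) : ℂ) := by
  have h1 := hh_deriv (div_pow_ne hz a)
  have h2 := AnT1_norm_ne a
  set b : ℂ := ((a : GaussianInt) : ℂ) with hb
  set L : ℂ := ((-(1 / 2) * Real.log ‖1 - (z / b) ^ 4‖ : ℝ) : ℂ) with hL
  have hd1 : DifferentiableAt ℂ (fun s : ℂ => ((‖b‖ : ℝ) : ℂ) ^ (-2 * s)) 0 := by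
    apply DifferentiableAt.const_cpow
    · fun_prop
    · exact Or.inl h2
  have hd2 : HasDerivAt (fun s : ℂ => hh s (z / b) - 1 - s ^ 2 * ((‖z / b‖ ^ 2 : ℝ) : ℂ)) L 0 := by
    have h3 : HasDerivAt (fun s : ℂ => s ^ 2 * ((‖z / b‖ ^ 2 : ℝ) : ℂ)) 0 0 := by
      have h4 := (hasDerivAt_pow 2 (0 : ℂ)).mul_const ((‖z / b‖ ^ 2 : ℝ) : ℂ)
      simpa using h4
    have h5 := (h1.sub_const 1).sub h3
    rw [sub_zero] at h5
    exact h5
  have h3 := hd1.hasDerivAt.mul hd2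
  have h4 : HasDerivAt (TT z a) (deriv (fun s : ℂ => ((‖b‖ : ℝ) : ℂ) ^ (-2 * s)) 0 *
      (hh 0 (z / b) - 1 - 0 ^ 2 * ((‖z / b‖ ^ 2 : ℝ) : ℂ)) + ((‖b‖ : ℝ) : ℂ) ^ (-2 * (0 : ℂ)) * L) 0 := h3
  rw [h4.deriv, hh_zero]
  simp

end Pool.Agent.STg.An
end

section

set_option autoImplicit false

open NumberField IsDedekindDomain nonZeroDivisors IntermediateField

namespace Pool.Agent.STg.F

open Pool.Agent.ST

variable {K : Type*} [Field K] [NumberField K] [Algebra K ℝ] {σ₂ : K →+* ℝ} {e : (𝓞 K)ˣ}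

/-- TASK F04 (the multiplicative extension of the residue symbol).
PROOF. `ideal_induction`: for `I ≠ ⊥` use `UniqueFactorizationMonoid.induction_on_prime` (on `P I := IsCoprime I m → p I`), or strong
induction on `absNorm I`: if `I ≠ ⊤` there is a maximal ideal `M ≥ I`, `M ≠ ⊥`, so `M = v.asIdeal`, `I = v * I'` (`Ideal.dvd_iff_le`), `I' ≠ ⊥`,
`I'` and `v` are coprime to `m` (`IsCoprime.of_mul_left_right`, ...), `v ∤ m` by `ST.coprime_prime_iff`.
`chiI_mul`: `UniqueFactorizationMonoid.normalizedFactors_mul`. `chiI_prime`: `normalizedFactors_irreducible` (`v.irreducible`) and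
`normalize_eq`. `chiI_top`: `Ideal.one_eq_top`, `normalizedFactors_one`. `chiI_sq`: product of `±1` (`Multiset.prod_induction`) and `chiP_sq`.
`chiI_unit_mul`: `Ideal.span {(u : 𝓞 K) * b} = Ideal.span {b}` (`Ideal.span_singleton_mul_left_unit`). `chiI_span_mul`:
`Ideal.span_singleton_mul_span_singleton`. `notMem_two`: if `2 ∈ v` then `v ∣ span {2}` (`Ideal.dvd_span_singleton`), and `v ∣ I` contradicts
`IsCoprime I (span {2})`. -/
theorem ideal_induction {m : Ideal (𝓞 K)} {p : Ideal (𝓞 K) → Prop} (h1 : p ⊤)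
    (hv : ∀ (v : HeightOneSpectrum (𝓞 K)) (I : Ideal (𝓞 K)), ¬ v.asIdeal ∣ m → I ≠ ⊥ →
      IsCoprime I m → p I → p (v.asIdeal * I)) :
    ∀ I : Ideal (𝓞 K), I ≠ ⊥ → IsCoprime I m → p I := by
  intro I
  induction I using UniqueFactorizationMonoid.induction_on_prime with
  | h₁ => intro h; exact absurd rfl h
  | h₂ I hI =>
    intro _ _
    rw [Ideal.isUnit_iff] at hI
    rw [hI]
    exact h1
  | h₃ a q ha hq ih =>
    intro _ hco
    have hqv : q.IsPrime := Ideal.isPrime_of_prime hq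
    let v : HeightOneSpectrum (𝓞 K) := ⟨q, hqv, hq.ne_zero⟩
    have hco1 : IsCoprime q m := hco.of_mul_left_left
    have hco2 : IsCoprime a m := hco.of_mul_left_right
    refine hv v a ?_ ha hco2 (ih ha hco2)
    intro hd
    have hd' : q ∣ m := hd
    have := hco1.isUnit_of_dvd' dvd_rfl hd'
    exact hq.not_isUnit this

omit [Algebra K ℝ] in
theorem chiI_mul (e : (𝓞 K)ˣ) {I J : Ideal (𝓞 K)} (hI : I ≠ ⊥) (hJ : J ≠ ⊥) :
    chiI e (I * J) = chiI e I * chiI e J := by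
  unfold chiI
  rw [UniqueFactorizationMonoid.normalizedFactors_mul hI hJ, Multiset.map_add, Multiset.prod_add]

omit [Algebra K ℝ] in
theorem chiI_prime (e : (𝓞 K)ˣ) (v : HeightOneSpectrum (𝓞 K)) :
    chiI e v.asIdeal = chiP e v.asIdeal := by
  unfold chiI
  rw [UniqueFactorizationMonoid.normalizedFactors_irreducible v.irreducible, normalize_eq,
    Multiset.map_singleton, Multiset.prod_singleton]

omit [Algebra K ℝ] in
theorem chiI_top (e : (𝓞 K)ˣ) : chiI e ⊤ = 1 := by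
  unfold chiI
  rw [← Ideal.one_eq_top, UniqueFactorizationMonoid.normalizedFactors_one, Multiset.map_zero,
    Multiset.prod_zero]

omit [Algebra K ℝ] in
theorem chiI_sq (e : (𝓞 K)ˣ) (I : Ideal (𝓞 K)) : chiI e I = 1 ∨ chiI e I = -1 := by
  unfold chiI
  apply Multiset.prod_induction (fun x : ℤ => x = 1 ∨ x = -1)
  · rintro a b (rfl | rfl) (rfl | rfl) <;> simp
  · exact Or.inl rfl
  · intro a ha
    rw [Multiset.mem_map] at ha
    obtain ⟨v, _, rfl⟩ := ha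
    exact chiP_sq e v

omit [Algebra K ℝ] in
theorem chiI_span_mul (e : (𝓞 K)ˣ) {a b : 𝓞 K} (ha : a ≠ 0) (hb : b ≠ 0) :
    chiI e (Ideal.span {a * b}) = chiI e (Ideal.span {a}) * chiI e (Ideal.span {b}) := by
  rw [← Ideal.span_singleton_mul_span_singleton]
  apply chiI_mul
  · rwa [Ne, Ideal.span_singleton_eq_bot]
  · rwa [Ne, Ideal.span_singleton_eq_bot]

omit [Algebra K ℝ] in
theorem chiI_unit_mul (e u : (𝓞 K)ˣ) (b : 𝓞 K) :
    chiI e (Ideal.span {(u : 𝓞 K) * b}) = chiI e (Ideal.span {b}) := by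
  rw [Ideal.span_singleton_mul_left_unit u.isUnit]

omit [Algebra K ℝ] in
theorem notMem_two {I : Ideal (𝓞 K)} (h : IsCoprime I (Ideal.span {(2 : 𝓞 K)}))
    (v : HeightOneSpectrum (𝓞 K)) (hv : v.asIdeal ∣ I) : (2 : 𝓞 K) ∉ v.asIdeal := by
  intro h2
  have hd : v.asIdeal ∣ Ideal.span {(2 : 𝓞 K)} := Ideal.dvd_span_singleton.2 h2
  have := h.isUnit_of_dvd' hv hd
  exact v.irreducible.not_isUnit this

end Pool.Agent.STg.F
end
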