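import Pool.Agent.Lib.MP_1ef7cf_nt_g.Mg.G004
import Pool.Agent.Lib.MP_1ef7cf_nt_g.Mg.G023

section

set_option autoImplicit false

open Complex Filter Topology
open scoped ComplexConjugate

namespace Pool.Agent.STg.An

/-! symmetrization of the Dirichlet series. -/

/-- the Gaussian integer `i` -/
def AnT4_i : GaussianInt := ⟨0, 1⟩

theorem AnT4_i_coe : ((AnT4_i : GaussianInt) : ℂ) = I := by
  rw [GaussianInt.toComplex_def]
  simp [AnT4_i]

theorem AnT4_i_sq : AnT4_i * AnT4_i = -1 := by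
  ext <;> simp [AnT4_i]

/-- multiplication by `i` -/
def AnT4_J : NZ ≃ NZ where
  toFun a := ⟨AnT4_i * a, by
    intro h
    apply a.2
    have h1 : AnT4_i * (AnT4_i * (a : GaussianInt)) = 0 := by rw [h, mul_zero]
    rw [← mul_assoc, AnT4_i_sq] at h1
    simpa using h1⟩
  invFun a := ⟨-(AnT4_i * a), by
    intro h
    apply a.2
    have h1 : AnT4_i * (-(AnT4_i * (a : GaussianInt))) = 0 := by rw [h, mul_zero]
    rw [mul_neg, ← mul_assoc, AnT4_i_sq] at h1
    simpa using h1⟩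
  left_inv a := by
    apply Subtype.ext
    show -(AnT4_i * (AnT4_i * (a : GaussianInt))) = a
    rw [← mul_assoc, AnT4_i_sq]
    simp
  right_inv a := by
    apply Subtype.ext
    show AnT4_i * (-(AnT4_i * (a : GaussianInt))) = a
    rw [mul_neg, ← mul_assoc, AnT4_i_sq]
    simp

theorem AnT4_J_coe (a : NZ) : (((AnT4_J a : NZ) : GaussianInt) : ℂ) = I * ((a : GaussianInt) : ℂ) := by
  show ((AnT4_i * (a : GaussianInt) : GaussianInt) : ℂ) = I * ((a : GaussianInt) : ℂ)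
  rw [map_mul, AnT4_i_coe]

theorem AnT4_prod {b v t : ℂ} (s : ℂ) (h : ‖b‖ * ‖v‖ = ‖t‖) :
    ((‖b‖ : ℝ) : ℂ) ^ (-2 * s) * ((‖v‖ : ℝ) : ℂ) ^ (-2 * s) = ((‖t‖ : ℝ) : ℂ) ^ (-2 * s) := by
  rw [← Complex.mul_cpow_ofReal_nonneg (norm_nonneg _) (norm_nonneg _), ← Complex.ofReal_mul, h]

/-- Proof. Removing the term `a = 0` gives the sum over `NZ` of `f₀ a = ‖z + a‖ ^ (-2 s)`. Multiplication
by `i ^ k` is a bijection of `NZ`, so the functions `f_k a = ‖z + i ^ k a‖ ^ (-2 s)` have the same sum.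
With `w = z / a` we have `‖a‖ ^ (-2 s) * ‖1 + i ^ k w‖ ^ (-2 s) = ‖a + i ^ k z‖ ^ (-2 s)`
(product of nonnegative reals: `Complex.mul_cpow_ofReal_nonneg`), which is `f_{4 - k} a`; so the summand
is the average of the four `f_k`. -/
theorem symm_sum {z : ℂ} {F : ℂ → ℂ} (hF : DirS z F) {s : ℂ} (hs : 1 < s.re) :
    HasSum (fun a : NZ => ((‖((a : GaussianInt) : ℂ)‖ : ℝ) : ℂ) ^ (-2 * s) *
      hh s (z / ((a : GaussianInt) : ℂ))) (F s / (s - 1) - ((‖z‖ : ℝ) : ℂ) ^ (-2 * s)) := by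
  classical
  have h1 := hF.2 s hs
  set S := F s / (s - 1) - ((‖z‖ : ℝ) : ℂ) ^ (-2 * s) with hS
  set f : GaussianInt → ℂ := fun a => ((‖z + (a : ℂ)‖ : ℝ) : ℂ) ^ (-2 * s) with hf
  have h0 : f 0 = ((‖z‖ : ℝ) : ℂ) ^ (-2 * s) := by simp [hf]
  have h2 : HasSum (fun a : GaussianInt => f a - if a = 0 then f 0 else 0) S := by
    rw [hS, ← h0]
    exact h1.sub (hasSum_ite_eq 0 (f 0))
  have h3 : HasSum (fun a : NZ => f (a : GaussianInt)) S := by
    have hsupp : Function.support (fun a : GaussianInt => f a - if a = 0 then f 0 else 0) ⊆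
        {a : GaussianInt | a ≠ 0} := by
      intro a ha h
      apply ha
      rw [h]
      simp
    rw [← hasSum_subtype_iff_of_support_subset hsupp] at h2
    refine h2.congr_fun ?_
    intro a
    have ha : ((a : NZ) : GaussianInt) ≠ 0 := a.2
    show f a = f a - if (a : GaussianInt) = 0 then f 0 else 0
    rw [if_neg ha, sub_zero]
  have h4 := (AnT4_J.hasSum_iff (f := fun a : NZ => f (a : GaussianInt))).2 h3
  have h5 := (AnT4_J.hasSum_iff (f := (fun a : NZ => f (a : GaussianInt)) ∘ AnT4_J)).2 h4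
  have h6 := (AnT4_J.hasSum_iff (f := ((fun a : NZ => f (a : GaussianInt)) ∘ AnT4_J) ∘ AnT4_J)).2 h5
  have h7 := (((h3.add h6).add h5).add h4).div_const 4
  have h8 : (S + S + S + S) / 4 = S := by ring
  rw [h8] at h7
  refine h7.congr_fun ?_
  intro a
  have hb : 0 < ‖((a : GaussianInt) : ℂ)‖ := by
    have := one_le_norm_NZ a
    linarith
  simp only [Function.comp, hf]
  rw [AnT4_J_coe, AnT4_J_coe, AnT4_J_coe]
  set b : ℂ := ((a : GaussianInt) : ℂ) with hbdef
  have hb0 : b ≠ 0 := norm_pos_iff.1 hb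
  unfold hh
  have e1 := AnT4_prod (b := b) (v := 1 + z / b) (t := z + b) s (by
    rw [← norm_mul]; congr 1; field_simp; ring)
  have e2 := AnT4_prod (b := b) (v := 1 + I * (z / b)) (t := z + I * (I * (I * b))) s (by
    have h9 : z + I * (I * (I * b)) = -I * (b * (1 + I * (z / b))) := by
      have h10 : b * (1 + I * (z / b)) = b + I * z := by field_simp
      rw [h10]
      have h11 : I * (I * (I * b)) = I ^ 2 * (I * b) := by ring
      have h12 : -I * (b + I * z) = -I * b - I ^ 2 * z := by ring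
      rw [h11, h12, I_sq]
      ring
    rw [h9, norm_mul, norm_neg, norm_I, one_mul, norm_mul])
  have e3 := AnT4_prod (b := b) (v := 1 - z / b) (t := z + I * (I * b)) s (by
    have h9 : z + I * (I * b) = -(b * (1 - z / b)) := by
      have h10 : b * (1 - z / b) = b - z := by field_simp
      rw [h10]
      have h11 : I * (I * b) = I ^ 2 * b := by ring
      rw [h11, I_sq]
      ring
    rw [h9, norm_neg, norm_mul])
  have e4 := AnT4_prod (b := b) (v := 1 - I * (z / b)) (t := z + I * b) s (by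
    have h9 : z + I * b = I * (b * (1 - I * (z / b))) := by
      have h10 : b * (1 - I * (z / b)) = b - I * z := by field_simp
      rw [h10]
      have h12 : I * (b - I * z) = I * b - I ^ 2 * z := by ring
      rw [h12, I_sq]
      ring
    rw [h9, norm_mul, norm_I, one_mul, norm_mul])
  rw [← e1, ← e2, ← e3, ← e4]
  ring

end Pool.Agent.STg.An
end

section

set_option autoImplicit false

open NumberField IsDedekindDomain nonZeroDivisors IntermediateField

namespace Pool.Agent.STg.F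

open Pool.Agent.ST

/-- powers of `e₀` modulo `p` -/
theorem F03_pow (p : ℕ) [Fact p.Prime] (hp : p ≠ 2) (e₀ : ℤ) (f : ℕ) :
    ((e₀ : ZMod p)) ^ ((p ^ f - 1) / 2) = ((legendreSym p e₀ : ℤ) : ZMod p) ^ f := by
  have hodd : Odd p := (Fact.out : p.Prime).odd_of_ne_two hp
  induction f with
  | zero => simp
  | succ f ih =>
    have h1 : (p ^ (f + 1) - 1) / 2 = p * ((p ^ f - 1) / 2) + p / 2 := by
      have ho : Odd (p ^ f) := hodd.pow
      obtain ⟨a, ha⟩ := ho
      obtain ⟨b, hb⟩ := hodd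
      have h2 : (p ^ f - 1) / 2 = a := by omega
      rw [h2, pow_succ, ha]
      have h3 : (2 * a + 1) * p = 2 * (p * a + b) + 1 := by
        rw [hb]; ring
      rw [h3]
      have h4 : p / 2 = b := by omega
      rw [h4]
      omega
    rw [h1, pow_add, pow_mul, ZMod.pow_card, ih, ← legendreSym.eq_pow, pow_succ]

variable {K : Type*} [Field K] [NumberField K] [Algebra K ℝ] {σ₂ : K →+* ℝ} {e : (𝓞 K)ˣ}

/-- TASK F03 (the residue symbol of an element congruent to an integer). -/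
theorem chiP_int (e : (𝓞 K)ˣ) (v : HeightOneSpectrum (𝓞 K)) (h2 : (2 : 𝓞 K) ∉ v.asIdeal)
    (e₀ : ℤ) (h : (e : 𝓞 K) - (e₀ : 𝓞 K) ∈ v.asIdeal) :
    chiP e v.asIdeal = jacobiSym e₀ (Ideal.absNorm v.asIdeal) := by
  haveI : Finite (𝓞 K ⧸ v.asIdeal) := Ideal.finiteQuotientOfFreeOfNeBot v.asIdeal v.ne_bot
  haveI : v.asIdeal.IsMaximal := v.isMaximal
  letI : Field (𝓞 K ⧸ v.asIdeal) := Ideal.Quotient.field v.asIdeal
  haveI : Fintype (𝓞 K ⧸ v.asIdeal) := Fintype.ofFinite _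
  have h1 : Ideal.absNorm v.asIdeal = Fintype.card (𝓞 K ⧸ v.asIdeal) := by
    rw [Ideal.absNorm_apply, Submodule.cardQuot_apply, Nat.card_eq_fintype_card]
  obtain ⟨p, hp⟩ := CharP.exists (𝓞 K ⧸ v.asIdeal)
  obtain ⟨f, hpp, hf⟩ := FiniteField.card (𝓞 K ⧸ v.asIdeal) p
  haveI : Fact p.Prime := ⟨hpp⟩
  have hpv : ((p : ℤ) : 𝓞 K) ∈ v.asIdeal := by
    rw [← Ideal.Quotient.eq_zero_iff_mem, map_intCast]
    exact_mod_cast CharP.cast_eq_zero (𝓞 K ⧸ v.asIdeal) p
  have hp2 : p ≠ 2 := by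
    rintro rfl
    apply h2
    exact_mod_cast hpv
  have he0 : ((e₀ : ZMod p)) ≠ 0 := by
    intro h0
    have h3 : (p : ℤ) ∣ e₀ := (ZMod.intCast_zmod_eq_zero_iff_dvd e₀ p).1 h0
    have h4 : (e₀ : 𝓞 K) ∈ v.asIdeal := by
      obtain ⟨c, rfl⟩ := h3
      push_cast
      exact v.asIdeal.mul_mem_right _ (by exact_mod_cast hpv)
    have h5 : (e : 𝓞 K) ∈ v.asIdeal := by
      have := v.asIdeal.add_mem h h4
      rwa [sub_add_cancel] at this
    exact v.isPrime.ne_top (Ideal.eq_top_of_isUnit_mem _ h5 e.isUnit)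
  have hN : Ideal.absNorm v.asIdeal = p ^ (f : ℕ) := by rw [h1, hf]
  have hJ : jacobiSym e₀ (Ideal.absNorm v.asIdeal) = (legendreSym p e₀) ^ (f : ℕ) := by
    rw [hN, jacobiSym.pow_right, jacobiSym.legendreSym.to_jacobiSym]
  have hleg : legendreSym p e₀ = 1 ∨ legendreSym p e₀ = -1 := legendreSym.eq_one_or_neg_one p he0
  rw [hJ]
  apply chiP_eq_of e v h2
  · rcases hleg with hl | hl
    · rw [hl]; simp
    · rw [hl]; exact neg_one_pow_eq_or ℤ f
  · have h6 : (e : 𝓞 K) ^ ((Ideal.absNorm v.asIdeal - 1) / 2) - ((e₀ : 𝓞 K)) ^ ((Ideal.absNorm v.asIdeal - 1) / 2) ∈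
        v.asIdeal := by
      have := sub_dvd_pow_sub_pow (e : 𝓞 K) (e₀ : 𝓞 K) ((Ideal.absNorm v.asIdeal - 1) / 2)
      exact Ideal.mem_of_dvd _ this h
    have h7 : ((e₀ : 𝓞 K)) ^ ((Ideal.absNorm v.asIdeal - 1) / 2) - (((legendreSym p e₀) ^ (f : ℕ) : ℤ) : 𝓞 K) ∈
        v.asIdeal := by
      have h8 : ((e₀ ^ ((Ideal.absNorm v.asIdeal - 1) / 2) - (legendreSym p e₀) ^ (f : ℕ) : ℤ) : ZMod p) = 0 := by
        push_cast
        rw [hN, F03_pow p hp2 e₀ f, sub_self]
      have h9 := (ZMod.intCast_zmod_eq_zero_iff_dvd _ p).1 h8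
      obtain ⟨c, hc⟩ := h9
      have h10 : ((e₀ : 𝓞 K)) ^ ((Ideal.absNorm v.asIdeal - 1) / 2) - (((legendreSym p e₀) ^ (f : ℕ) : ℤ) : 𝓞 K)
          = ((p : ℤ) : 𝓞 K) * (c : 𝓞 K) := by
        have := congrArg (fun z : ℤ => (z : 𝓞 K)) hc
        push_cast at this ⊢
        exact this
      rw [h10]
      exact v.asIdeal.mul_mem_right _ hpv
    have := v.asIdeal.add_mem h6 h7
    rwa [sub_add_sub_cancel] at this

end Pool.Agent.STg.F
end
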