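import Pool.Agent.Lib.MP_1ef7cf_nt.Mg.G003
import Pool.Agent.Lib.MP_1ef7cf_nt.RCF
import Pool.Agent.Lib.MP_1ef7cf_nt_g.Mg.G026
import Pool.Agent.Lib.MP_1ef7cf_nt_g.Mg.G023

section

set_option autoImplicit false

open NumberField IsDedekindDomain nonZeroDivisors IntermediateField

namespace Pool.Agent.STg.F

open Pool.Agent.ST

variable {K : Type*} [Field K] [NumberField K] [Algebra K ℝ] {σ₂ : K →+* ℝ} {e : (𝓞 K)ˣ}

private lemma F16_step (θ : ℝ) (n : ℕ) :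
    Real.cos (((n + 2 : ℕ) : ℝ) * θ) =
      2 * Real.cos θ * Real.cos (((n + 1 : ℕ) : ℝ) * θ) - Real.cos ((n : ℝ) * θ) := by
  have h1 : ((n + 2 : ℕ) : ℝ) * θ = ((n + 1 : ℕ) : ℝ) * θ + θ := by push_cast; ring
  have h2 : (n : ℝ) * θ = ((n + 1 : ℕ) : ℝ) * θ - θ := by push_cast; ring
  rw [h1, h2, Real.cos_add, Real.cos_sub]
  ring

private lemma F16_mem (H : IntermediateField K ℝ) (θ : ℝ) (h : Real.cos θ ∈ H) (n : ℕ) :
    Real.cos ((n : ℝ) * θ) ∈ H := by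
  induction n using Nat.twoStepInduction with
  | zero => simpa using H.one_mem
  | one => simpa using h
  | more n ih1 ih2 =>
    rw [F16_step]
    exact H.sub_mem (H.mul_mem (H.mul_mem (by exact_mod_cast H.natCast_mem 2) h) ih2) ih1

/-- TASK F16 (the integers `2 cos (2 π n / 2 ^ k)`). -/
theorem cos_mul_mem (H : IntermediateField K ℝ) {k : ℕ} (hk : Real.cos (2 * Real.pi / 2 ^ k) ∈ H)
    (n : ℕ) : Real.cos (2 * Real.pi * n / 2 ^ k) ∈ H := by
  have h := F16_mem H _ hk n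
  rwa [show (n : ℝ) * (2 * Real.pi / 2 ^ k) = 2 * Real.pi * n / 2 ^ k by ring] at h

theorem cos_mem_of_le (H : IntermediateField K ℝ) {i k : ℕ} (hik : i ≤ k)
    (hk : Real.cos (2 * Real.pi / 2 ^ k) ∈ H) : Real.cos (2 * Real.pi / 2 ^ i) ∈ H := by
  have h := cos_mul_mem H hk (2 ^ (k - i))
  have h2 : 2 * Real.pi * ((2 ^ (k - i) : ℕ) : ℝ) / 2 ^ k = 2 * Real.pi / 2 ^ i := by
    obtain ⟨j, rfl⟩ := Nat.exists_eq_add_of_le hik
    rw [Nat.add_sub_cancel_left, pow_add]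
    push_cast
    field_simp
  rwa [h2] at h

theorem exists_y (H : IntermediateField K ℝ) {k : ℕ} (hk : Real.cos (2 * Real.pi / 2 ^ k) ∈ H)
    (n : ℕ) : ∃ y : 𝓞 H, ((y : H) : ℝ) = 2 * Real.cos (2 * Real.pi * n / 2 ^ k) := by
  have hm : 2 * Real.cos (2 * Real.pi * n / 2 ^ k) ∈ H :=
    H.mul_mem (by exact_mod_cast H.natCast_mem 2) (cos_mul_mem H hk n)
  have hi : IsIntegral ℤ (2 * Real.cos (2 * Real.pi * n / 2 ^ k)) := by
    have h := Real.isIntegral_two_mul_cos_rat_mul_pi (2 * n / 2 ^ k : ℚ)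
    have h2 : (((2 * n / 2 ^ k : ℚ) : ℝ) * Real.pi) = 2 * Real.pi * n / 2 ^ k := by
      push_cast
      ring
    rwa [h2] at h
  have hi2 : IsIntegral ℤ (⟨_, hm⟩ : H) := by
    rw [← isIntegral_algebraMap_iff (B := ℝ) (algebraMap H ℝ).injective]
    exact hi
  exact ⟨⟨⟨_, hm⟩, hi2⟩, rfl⟩

private lemma F16_inj (H : IntermediateField K ℝ) {a b : 𝓞 H} (h : ((a : H) : ℝ) = ((b : H) : ℝ)) :
    a = b := RingOfIntegers.ext (Subtype.ext h)

private lemma F16_sq (i : ℕ) : (2 * Real.cos (2 * Real.pi / 2 ^ (i + 1))) ^ 2 =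
    2 + 2 * Real.cos (2 * Real.pi / 2 ^ i) := by
  have h : 2 * Real.pi / 2 ^ i = 2 * (2 * Real.pi / 2 ^ (i + 1)) := by
    rw [pow_succ]; field_simp
  rw [h, Real.cos_two_mul]
  ring

private lemma F16_dvd (H : IntermediateField K ℝ) (i : ℕ)
    (hk : Real.cos (2 * Real.pi / 2 ^ (i + 2)) ∈ H) (y : 𝓞 H)
    (hy : ((y : H) : ℝ) = 2 * Real.cos (2 * Real.pi / 2 ^ (i + 2))) : 2 - y ∣ 2 ∧ 2 + y ∣ 2 := by
  induction i generalizing y with
  | zero =>
    have : y = 0 := by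
      apply F16_inj
      rw [hy]
      have h2 : 2 * Real.pi / 2 ^ (0 + 2) = Real.pi / 2 := by ring
      rw [h2, Real.cos_pi_div_two]
      simp
    subst this
    simp
  | succ i ih =>
    have hk' := cos_mem_of_le H (Nat.le_succ (i + 2)) (by exact hk)
    obtain ⟨z, hz⟩ := exists_y H hk' 1
    rw [Nat.cast_one, mul_one] at hz
    have h := ih hk' z hz
    have hyz : y ^ 2 = 2 + z := by
      apply F16_inj
      have h1 : (((y ^ 2 : 𝓞 H) : H) : ℝ) = ((y : H) : ℝ) ^ 2 := by push_cast; rfl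
      have h2 : (((2 + z : 𝓞 H) : H) : ℝ) = 2 + ((z : H) : ℝ) := by push_cast; rfl
      rw [h1, h2, hy, hz]
      exact F16_sq (i + 2)
    have h3 : (2 - y) * (2 + y) = 2 - z := by
      linear_combination -hyz
    exact ⟨(Dvd.intro _ h3).trans h.1, (Dvd.intro_left _ h3).trans h.1⟩

theorem y_dvd_two (H : IntermediateField K ℝ) {k : ℕ} (hk3 : 3 ≤ k)
    (hk : Real.cos (2 * Real.pi / 2 ^ k) ∈ H) (y : 𝓞 H)
    (hy : ((y : H) : ℝ) = 2 * Real.cos (2 * Real.pi / 2 ^ k)) : y ∣ 2 := by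
  obtain ⟨i, rfl⟩ := Nat.exists_eq_add_of_le' hk3
  have hk' := cos_mem_of_le H (Nat.le_succ (i + 2)) (by exact hk)
  obtain ⟨z, hz⟩ := exists_y H hk' 1
  rw [Nat.cast_one, mul_one] at hz
  have h := F16_dvd H i hk' z hz
  have hyz : y ^ 2 = 2 + z := by
    apply F16_inj
    have h1 : (((y ^ 2 : 𝓞 H) : H) : ℝ) = ((y : H) : ℝ) ^ 2 := by push_cast; rfl
    have h2 : (((2 + z : 𝓞 H) : H) : ℝ) = 2 + ((z : H) : ℝ) := by push_cast; rfl
    rw [h1, h2, hy, hz]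
    exact F16_sq (i + 2)
  exact (Dvd.intro y (by rw [← hyz]; ring)).trans h.2

end Pool.Agent.STg.F
end

section

set_option autoImplicit false

open NumberField IsDedekindDomain nonZeroDivisors IntermediateField

namespace Pool.Agent.STg.F

open Pool.Agent.ST

variable {K : Type*} [Field K] [NumberField K] [Algebra K ℝ] {σ₂ : K →+* ℝ} {e : (𝓞 K)ˣ}

private lemma F19_step (θ : ℝ) (n : ℕ) :
    Real.cos (((n + 2 : ℕ) : ℝ) * θ) =
      2 * Real.cos θ * Real.cos (((n + 1 : ℕ) : ℝ) * θ) + -Real.cos ((n : ℝ) * θ) := by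
  have h1 : ((n + 2 : ℕ) : ℝ) * θ = ((n + 1 : ℕ) : ℝ) * θ + θ := by push_cast; ring
  have h2 : (n : ℝ) * θ = ((n + 1 : ℕ) : ℝ) * θ - θ := by push_cast; ring
  rw [h1, h2, Real.cos_add, Real.cos_sub]
  ring

private lemma F19_act {H : IntermediateField K ℝ} (σ : H ≃ₐ[K] H) (θ θ' : ℝ)
    (hm : ∀ n : ℕ, Real.cos ((n : ℝ) * θ) ∈ H)
    (h : act σ (Real.cos θ) = Real.cos θ') (t : ℕ) :
    act σ (Real.cos ((t : ℝ) * θ)) = Real.cos ((t : ℝ) * θ') := by
  have h2m : (2 : ℝ) ∈ H := by exact_mod_cast H.natCast_mem 2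
  have h1m : Real.cos θ ∈ H := by simpa using hm 1
  have h2 : act σ (2 : ℝ) = 2 := by
    have h3 := act_algebraMap σ (2 : K)
    rwa [map_ofNat] at h3
  induction t using Nat.twoStepInduction with
  | zero => simp [act_one_right]
  | one => simpa using h
  | more n ih1 ih2 =>
    rw [F19_step, F19_step, act_add σ (H.mul_mem (H.mul_mem h2m h1m) (hm _)) (H.neg_mem (hm n)),
      act_mul σ (H.mul_mem h2m h1m) (hm _), act_mul σ h2m h1m, act_neg σ (hm n), h2, h, ih1, ih2]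

/-- TASK F19 (automorphisms and multiples of the angle). -/
theorem act_cos_mul {H : IntermediateField K ℝ} {k : ℕ}
    (hk : Real.cos (2 * Real.pi / 2 ^ k) ∈ H) (σ : H ≃ₐ[K] H) {n : ℕ}
    (h : act σ (Real.cos (2 * Real.pi / 2 ^ k)) = Real.cos (2 * Real.pi * n / 2 ^ k)) (t : ℕ) :
    act σ (Real.cos (2 * Real.pi * t / 2 ^ k)) =
      Real.cos (2 * Real.pi * ((n * t : ℕ) : ℝ) / 2 ^ k) := by
  have hm : ∀ n : ℕ, Real.cos ((n : ℝ) * (2 * Real.pi / 2 ^ k)) ∈ H := by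
    intro n
    have h3 := cos_mul_mem H hk n
    rwa [show 2 * Real.pi * n / 2 ^ k = (n : ℝ) * (2 * Real.pi / 2 ^ k) by ring] at h3
  have h2 := F19_act σ _ _ hm h t
  rw [show 2 * Real.pi * t / 2 ^ k = (t : ℝ) * (2 * Real.pi / 2 ^ k) by ring, h2]
  congr 1
  push_cast
  ring

theorem cos_mod_iff (k : ℕ) (a b : ℤ) :
    Real.cos (2 * Real.pi * a / 2 ^ k) = Real.cos (2 * Real.pi * b / 2 ^ k) ↔
      ((2 : ℤ) ^ k ∣ a - b ∨ (2 : ℤ) ^ k ∣ a + b) := by
  have h2 : (2 : ℝ) ^ k ≠ 0 := by positivity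
  have hpi := Real.pi_ne_zero
  rw [Real.cos_eq_cos_iff]
  constructor
  · rintro ⟨m, h | h⟩
    · left
      refine ⟨-m, ?_⟩
      have h3 : (b : ℝ) = m * 2 ^ k + a := by
        field_simp at h
        linarith
      have h4 : b = m * 2 ^ k + a := by exact_mod_cast h3
      rw [h4]; ring
    · right
      refine ⟨m, ?_⟩
      have h3 : (b : ℝ) = m * 2 ^ k - a := by
        field_simp at h
        linarith
      have h4 : b = m * 2 ^ k - a := by exact_mod_cast h3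
      rw [h4]; ring
  · rintro (⟨m, h⟩ | ⟨m, h⟩)
    · refine ⟨-m, Or.inl ?_⟩
      have h3 : (a : ℝ) - b = 2 ^ k * m := by exact_mod_cast h
      have h4 : (b : ℝ) = a - 2 ^ k * m := by linarith
      rw [h4]
      push_cast
      field_simp
      ring
    · refine ⟨m, Or.inr ?_⟩
      have h3 : (a : ℝ) + b = 2 ^ k * m := by exact_mod_cast h
      have h4 : (b : ℝ) = 2 ^ k * m - a := by linarith
      rw [h4]
      field_simp

end Pool.Agent.STg.F
end
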