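import Pool.Agent.Lib.MP_1ef7cf_nt_g.Mg.G024
import Pool.Agent.Lib.MP_1ef7cf_nt_g.Mg.G040

section

/-!
# Comparison of weighted numbers of ideals of two number fields by local types
-/

open NumberField IsDedekindDomain

namespace Pool.Agent.STg

variable {F : Type*} [Field F] [NumberField F]

/-- matching local types -/
def Match {F' : Type*} [Field F'] [NumberField F'] (χ : Ideal (𝓞 F) → ℤ)
    (χ' : Ideal (𝓞 F') → ℤ) (p : ℕ) : Prop :=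
  (∃ a b, LT1 χ p a b ∧ LT1 χ' p a b) ∨ (LT2 χ p 1 ∧ LT1 χ' p 1 (-1)) ∨
    (LT1 χ p 1 (-1) ∧ LT2 χ' p 1) ∨ (LT2 χ p (-1) ∧ LT2 χ' p (-1)) ∨
    ∃ a, LT3 χ p a ∧ LT1 χ' p 0 a

lemma S2_aux {p j : ℕ} : (if Even j then 2 * ((1 : ℤ) : ℝ) ^ (j / 2) * Real.log p else 0) =
    (((1 : ℤ) : ℝ) ^ j + ((-1 : ℤ) : ℝ) ^ j) * Real.log p := by
  push_cast
  split_ifs with h
  · rw [h.neg_one_pow, one_pow, one_pow]
    ring
  · rw [(Nat.not_even_iff_odd.1 h).neg_one_pow]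
    simp

theorem cS_eq_of_match {F' : Type*} [Field F'] [NumberField F'] {χ : Ideal (𝓞 F) → ℤ}
    {χ' : Ideal (𝓞 F') → ℤ} (hχ : CM χ) (hχ' : CM χ')
    (h2 : ∀ P : HeightOneSpectrum (𝓞 F), (2 : 𝓞 F) ∈ P.asIdeal → χ P.asIdeal = 0)
    (h2' : ∀ P : HeightOneSpectrum (𝓞 F'), (2 : 𝓞 F') ∈ P.asIdeal → χ' P.asIdeal = 0)
    (hm : ∀ p : ℕ, p.Prime → p ≠ 2 → Match χ χ' p) {n : ℕ} (hn : n ≠ 0) : cS χ n = cS χ' n := by
  refine cS_eq hχ hχ' (fun m hm0 => ?_) hn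
  by_cases hpow : ∃ p j : ℕ, p.Prime ∧ 1 ≤ j ∧ m = p ^ j
  · obtain ⟨p, j, hp, hj, rfl⟩ := hpow
    by_cases hp2 : p = 2
    · subst hp2
      rw [bS_two h2 hj, bS_two h2' hj]
    · rcases hm p hp hp2 with ⟨a, b, h, h'⟩ | ⟨h, h'⟩ | ⟨h, h'⟩ | ⟨h, h'⟩ | ⟨a, h, h'⟩
      · rw [h.bS hp hj, h'.bS hp hj]
      · rw [h.bS hp hj, h'.bS hp hj, S2_aux]
      · rw [h.bS hp hj, h'.bS hp hj, S2_aux]
      · rw [h.bS hp hj, h'.bS hp hj]
      · rw [h.bS hp hj, h'.bS hp hj]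
        have hj0 : j ≠ 0 := by omega
        push_cast
        rw [zero_pow hj0, zero_add]
  · rw [bS_of_not_pow χ hpow, bS_of_not_pow χ' hpow]

end Pool.Agent.STg
end

section

/-!
# Local types, complex weights
-/

open NumberField IsDedekindDomain

namespace Pool.Agent.STh

open Pool.Agent.STg

/-! Adapt `MP_1ef7cf_nt_g/S2a.lean` and `MP_1ef7cf_nt_g/S2.lean`. `exists_norm_pow`, `S2a_mem` are general. -/

variable {F : Type*} [Field F] [NumberField F]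

/-- two primes over `p`, of norm `p`, with values `a`, `b` -/
def LT1 (χ : Ideal (𝓞 F) → ℂ) (p : ℕ) (a b : ℂ) : Prop :=
  ∃ P Q : HeightOneSpectrum (𝓞 F), P ≠ Q ∧ Ideal.absNorm P.asIdeal = p ∧
    Ideal.absNorm Q.asIdeal = p ∧ χ P.asIdeal = a ∧ χ Q.asIdeal = b ∧
    ∀ R : HeightOneSpectrum (𝓞 F), (p : 𝓞 F) ∈ R.asIdeal → R = P ∨ R = Q

/-- one prime over `p`, of norm `p ^ 2`, with value `a` -/
def LT2 (χ : Ideal (𝓞 F) → ℂ) (p : ℕ) (a : ℂ) : Prop :=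
  ∃ P : HeightOneSpectrum (𝓞 F), Ideal.absNorm P.asIdeal = p ^ 2 ∧ χ P.asIdeal = a ∧
    ∀ R : HeightOneSpectrum (𝓞 F), (p : 𝓞 F) ∈ R.asIdeal → R = P

lemma bS_of_not_pow (χ : Ideal (𝓞 F) → ℂ) {m : ℕ}
    (hm : ¬ ∃ p j : ℕ, p.Prime ∧ 1 ≤ j ∧ m = p ^ j) : bS χ m = 0 := by
  unfold bS
  refine finsum_mem_eq_zero_of_forall_eq_zero fun x hx => ?_
  exfalso
  obtain ⟨q, f, hq, hf, hN, _⟩ := exists_norm_pow x.1
  refine hm ⟨q, f * x.2, hq, Nat.mul_pos hf hx.1, ?_⟩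
  rw [← hx.2, hN, pow_mul]

lemma LT1.bS {χ : Ideal (𝓞 F) → ℂ} {p : ℕ} (hp : p.Prime) {a b : ℂ} (h : LT1 χ p a b) {j : ℕ}
    (hj : 1 ≤ j) : Pool.Agent.STh.bS χ (p ^ j) = (a ^ j + b ^ j) * (Real.log p : ℂ) := by
  obtain ⟨P, Q, hne, hP, hQ, ha, hb, h1⟩ := h
  have hset : {x : HeightOneSpectrum (𝓞 F) × ℕ | 1 ≤ x.2 ∧
      Ideal.absNorm x.1.asIdeal ^ x.2 = p ^ j} = {(P, j), (Q, j)} := by
    ext ⟨R, k⟩
    constructor
    · rintro ⟨hk, hx⟩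
      rcases h1 R (S2a_mem hp hk hx) with hR | hR
      · left
        have hx' : Ideal.absNorm R.asIdeal ^ k = p ^ j := hx
        rw [hR, hP] at hx'
        rw [hR, Nat.pow_right_injective hp.two_le hx']
      · right
        have hx' : Ideal.absNorm R.asIdeal ^ k = p ^ j := hx
        rw [hR, hQ] at hx'
        change (R, k) = (Q, j)
        rw [hR, Nat.pow_right_injective hp.two_le hx']
    · rintro (hx | hx)
      · rw [hx]
        exact ⟨hj, by change Ideal.absNorm P.asIdeal ^ j = p ^ j; rw [hP]⟩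
      · have hx' : (R, k) = (Q, j) := hx
        rw [hx']
        exact ⟨hj, by change Ideal.absNorm Q.asIdeal ^ j = p ^ j; rw [hQ]⟩
  unfold Pool.Agent.STh.bS
  rw [hset, finsum_mem_pair (fun h2 => hne (congrArg Prod.fst h2))]
  simp only [hP, hQ, ha, hb]
  ring

lemma LT2.bS {χ : Ideal (𝓞 F) → ℂ} {p : ℕ} (hp : p.Prime) {a : ℂ} (h : LT2 χ p a) {j : ℕ}
    (hj : 1 ≤ j) : Pool.Agent.STh.bS χ (p ^ j) =
      if Even j then 2 * a ^ (j / 2) * (Real.log p : ℂ) else 0 := by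
  obtain ⟨P, hP, ha, h1⟩ := h
  have hset : {x : HeightOneSpectrum (𝓞 F) × ℕ | 1 ≤ x.2 ∧
      Ideal.absNorm x.1.asIdeal ^ x.2 = p ^ j} = {x | x.1 = P ∧ 2 * x.2 = j} := by
    ext ⟨R, k⟩
    constructor
    · rintro ⟨hk, hx⟩
      have hR := h1 R (S2a_mem hp hk hx)
      have hx' : Ideal.absNorm R.asIdeal ^ k = p ^ j := hx
      rw [hR, hP, ← pow_mul] at hx'
      exact ⟨hR, Nat.pow_right_injective hp.two_le hx'⟩
    · rintro ⟨hR, hk⟩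
      have hR' : R = P := hR
      have hk' : 2 * k = j := hk
      refine ⟨?_, ?_⟩
      · change 1 ≤ k
        omega
      · change Ideal.absNorm R.asIdeal ^ k = p ^ j
        rw [hR', hP, ← pow_mul, hk']
  unfold Pool.Agent.STh.bS
  rw [hset]
  split_ifs with hev
  · obtain ⟨i, hi⟩ := hev
    have hset2 : {x : HeightOneSpectrum (𝓞 F) × ℕ | x.1 = P ∧ 2 * x.2 = j} = {(P, i)} := by
      ext ⟨R, k⟩
      constructor
      · rintro ⟨hR, hk⟩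
        have hR' : R = P := hR
        have hk' : 2 * k = j := hk
        change (R, k) = (P, i)
        rw [hR', show k = i by omega]
      · intro hx
        have hx' : (R, k) = (P, i) := hx
        rw [hx']
        exact ⟨rfl, by change 2 * i = j; omega⟩
    have hi2 : j / 2 = i := by omega
    rw [hset2, finsum_mem_singleton]
    simp only [hP, ha, hi2]
    rw [Nat.cast_pow, Real.log_pow]
    push_cast
    ring
  · refine finsum_mem_eq_zero_of_forall_eq_zero fun x hx => ?_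
    exact absurd ⟨x.2, by rw [← hx.2]; ring⟩ hev

lemma bS_zero {χ : Ideal (𝓞 F) → ℂ} {p : ℕ} (hp : p.Prime)
    (h2 : ∀ P : HeightOneSpectrum (𝓞 F), (p : 𝓞 F) ∈ P.asIdeal → χ P.asIdeal = 0) {j : ℕ}
    (hj : 1 ≤ j) : Pool.Agent.STh.bS χ (p ^ j) = 0 := by
  unfold Pool.Agent.STh.bS
  refine finsum_mem_eq_zero_of_forall_eq_zero fun x hx => ?_
  have h1 : (p : 𝓞 F) ∈ x.1.asIdeal := S2a_mem hp hx.1 hx.2
  have h3 : x.2 ≠ 0 := by
    have := hx.1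
    omega
  rw [h2 x.1 h1, zero_pow h3, zero_mul]

/-- matching local types -/
def Match {F' : Type*} [Field F'] [NumberField F'] (χ : Ideal (𝓞 F) → ℂ)
    (χ' : Ideal (𝓞 F') → ℂ) (p : ℕ) : Prop :=
  (∃ a b, LT1 χ p a b ∧ LT1 χ' p a b) ∨ (∃ a, LT2 χ p (a ^ 2) ∧ LT1 χ' p a (-a)) ∨
    (∃ a, LT1 χ p a (-a) ∧ LT2 χ' p (a ^ 2)) ∨ ∃ a, LT2 χ p a ∧ LT2 χ' p a

/-- if `p ∣ N` both sides vanish (`bS_zero`) -/
theorem cS_eq_of_match {F' : Type*} [Field F'] [NumberField F'] {χ : Ideal (𝓞 F) → ℂ}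
    {χ' : Ideal (𝓞 F') → ℂ} (hχ : CM χ) (hχ' : CM χ') {N : ℕ}
    (h2 : ∀ P : HeightOneSpectrum (𝓞 F), (N : 𝓞 F) ∈ P.asIdeal → χ P.asIdeal = 0)
    (h2' : ∀ P : HeightOneSpectrum (𝓞 F'), (N : 𝓞 F') ∈ P.asIdeal → χ' P.asIdeal = 0)
    (hm : ∀ p : ℕ, p.Prime → ¬ p ∣ N → Match χ χ' p) {n : ℕ} (hn : n ≠ 0) :
    cS χ n = cS χ' n := by
  have haux : ∀ (a L : ℂ) (j : ℕ), (if Even j then 2 * (a ^ 2) ^ (j / 2) * L else 0) =
      (a ^ j + (-a) ^ j) * L := by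
    intro a L j
    split_ifs with h
    · rw [h.neg_pow, ← pow_mul, Nat.two_mul_div_two_of_even h]
      ring
    · rw [(Nat.not_even_iff_odd.1 h).neg_pow]
      ring
  refine cS_eq hχ hχ' (fun m hm0 => ?_) hn
  by_cases hpow : ∃ p j : ℕ, p.Prime ∧ 1 ≤ j ∧ m = p ^ j
  · obtain ⟨p, j, hp, hj, rfl⟩ := hpow
    by_cases hpN : p ∣ N
    · obtain ⟨c, hc⟩ := hpN
      rw [bS_zero hp (fun P hP => h2 P ?_) hj, bS_zero hp (fun P hP => h2' P ?_) hj]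
      · rw [hc, Nat.cast_mul]
        exact P.asIdeal.mul_mem_right _ hP
      · rw [hc, Nat.cast_mul]
        exact P.asIdeal.mul_mem_right _ hP
    · rcases hm p hp hpN with ⟨a, b, h, h'⟩ | ⟨a, h, h'⟩ | ⟨a, h, h'⟩ | ⟨a, h, h'⟩
      · rw [h.bS hp hj, h'.bS hp hj]
      · rw [h.bS hp hj, h'.bS hp hj, haux]
      · rw [h.bS hp hj, h'.bS hp hj, haux]
      · rw [h.bS hp hj, h'.bS hp hj]
  · rw [bS_of_not_pow χ hpow, bS_of_not_pow χ' hpow]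

end Pool.Agent.STh
end
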