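import Pool.Agent.Lib.MP_1ef7cf_nt.Frob2

section

/-!
# Valuation rings of `ℂ` over primes of number fields
-/

open NumberField IsDedekindDomain Pool.Agent.ST

namespace Pool.Agent.STg

section ovr

variable {E : Type*} [Field E] [NumberField E] [Algebra E ℂ]

/-- The valuation ring `V` of `ℂ` lies over the prime `P` of `E`. -/
structure OverP (P : PrI E) (V : ValuationSubring ℂ) : Prop where
  le : ∀ x : 𝓞 E, V.valuation (algebraMap E ℂ (x : E)) ≤ 1
  lt : ∀ x : 𝓞 E, V.valuation (algebraMap E ℂ (x : E)) < 1 ↔ x ∈ P.asIdeal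

/-- Mathlib: `Ideal.image_subset_nonunits_valuationSubring` for the image of `𝓞 E` in `ℂ` and the
image of `P`. If `x ∉ P` then `x y + p = 1` with `p ∈ P` (`P` is maximal), so `v x = 1`. -/
theorem exists_overP (P : PrI E) : ∃ V : ValuationSubring ℂ, OverP P V := by
  have hinj : Function.Injective ((algebraMap E ℂ).comp (algebraMap (𝓞 E) E)) :=
    (algebraMap E ℂ).injective.comp RingOfIntegers.coe_injective
  have hbij : Function.Bijective ((algebraMap E ℂ).comp (algebraMap (𝓞 E) E)).rangeRestrict := by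
    refine ⟨?_, RingHom.rangeRestrict_surjective _⟩
    intro a b hab
    apply hinj
    exact congrArg Subtype.val hab
  have hI : Ideal.map ((algebraMap E ℂ).comp (algebraMap (𝓞 E) E)).rangeRestrict P.asIdeal ≠ ⊤ := by
    intro htop
    rw [Ideal.eq_top_iff_one, Ideal.mem_map_iff_of_surjective _ hbij.2] at htop
    obtain ⟨x, hx, hx1⟩ := htop
    have h1 : x = 1 := by
      apply hbij.1
      rw [hx1, map_one]
    rw [h1] at hx
    exact P.isPrime.ne_top ((Ideal.eq_top_iff_one _).mpr hx)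
  obtain ⟨V, hV1, hV2⟩ := Ideal.image_subset_nonunits_valuationSubring _ hI
  have hle : ∀ x : 𝓞 E, V.valuation (algebraMap E ℂ (x : E)) ≤ 1 := by
    intro x
    rw [V.valuation_le_one_iff]
    exact hV1 ⟨x, rfl⟩
  have hlt : ∀ x : 𝓞 E, x ∈ P.asIdeal → V.valuation (algebraMap E ℂ (x : E)) < 1 := by
    intro x hx
    rw [← V.mem_nonunits_iff]
    exact hV2 ⟨_, Ideal.mem_map_of_mem _ hx, rfl⟩
  refine ⟨V, hle, fun x => ⟨?_, hlt x⟩⟩
  intro hx
  by_contra hmem
  obtain ⟨y, p, hp, hyp⟩ := P.isMaximal.exists_inv hmem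
  have h1 : V.valuation (algebraMap E ℂ ((1 : 𝓞 E) : E)) < 1 := by
    rw [← hyp]
    have e : algebraMap E ℂ ((y * x + p : 𝓞 E) : E) =
        algebraMap E ℂ (y : E) * algebraMap E ℂ (x : E) + algebraMap E ℂ (p : E) := by
      simp
    rw [e]
    refine (Valuation.map_add _ _ _).trans_lt (max_lt ?_ (hlt p hp))
    rw [map_mul]
    exact (mul_le_of_le_one_left' (hle y)).trans_lt hx
  have e : algebraMap E ℂ ((1 : 𝓞 E) : E) = 1 := by simp
  rw [e, map_one] at h1
  exact lt_irrefl _ h1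

variable {P : PrI E} {V : ValuationSubring ℂ}

omit [NumberField E] in
private lemma D4a_eq_one (h : OverP P V) {b : 𝓞 E} (hb : b ∉ P.asIdeal) :
    V.valuation (algebraMap E ℂ (b : E)) = 1 := by
  refine le_antisymm (h.le b) ?_
  by_contra hc
  exact hb ((h.lt b).mp (not_le.mp hc))

/-- The localization of `𝓞 E` at `P` is a valuation ring of `E` (Dedekind): `x` or `1 / x` is in it,
and `1 / x` in the maximal ideal contradicts `v x ≤ 1`. -/
lemma OverP.exists_div (h : OverP P V) {x : E} (hx : V.valuation (algebraMap E ℂ x) ≤ 1) :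
    ∃ a b : 𝓞 E, b ∉ P.asIdeal ∧ x * b = a := by
  obtain ⟨n, d, hnd | hnd⟩ := HeightOneSpectrum.exists_primeCompl_mul_eq_or_mul_eq P x
  · exact ⟨n, d, d.2, hnd⟩
  · refine ⟨d, n, ?_, hnd⟩
    intro hn
    have h1 := (h.lt n).mpr hn
    have h2 := D4a_eq_one h (b := (d : 𝓞 E)) d.2
    have h3 : algebraMap E ℂ x * algebraMap E ℂ (n : E) = algebraMap E ℂ ((d : 𝓞 E) : E) := by
      rw [← map_mul]
      exact congrArg _ hnd
    have h4 := congrArg V.valuation h3
    rw [map_mul, h2] at h4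
    exact absurd h4 ((mul_le_of_le_one_left' hx).trans_lt h1).ne

/-- Write `x = a / b`, `b ∉ P`: `σ x - x ^ q = (σ a b ^ q - a ^ q σ b) / (σ b b ^ q)`; the numerator is
in `P`; `σ b = b ^ q` modulo `P` is not in `P`. -/
theorem OverP.frob {K : Type*} [Field K] [NumberField K] [Algebra K E] (h : OverP P V)
    {σ : E ≃ₐ[K] E} (hσ : IsFrob K P σ) {x : E} (hx : V.valuation (algebraMap E ℂ x) ≤ 1) :
    V.valuation (algebraMap E ℂ (σ x) - algebraMap E ℂ x ^ pn (und K P)) < 1 := by
  obtain ⟨a, b, hb, hab⟩ := h.exists_div hx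
  have ha1 := (h.lt _).mpr (hσ a)
  have hb1 := (h.lt _).mpr (hσ b)
  have eco : ∀ y : 𝓞 E, algebraMap E ℂ (((σ • y - y ^ pn (und K P) : 𝓞 E)) : E) =
      algebraMap E ℂ (σ (y : E)) - algebraMap E ℂ (y : E) ^ pn (und K P) := by
    intro y
    rw [← map_pow, ← map_sub]
    rfl
  rw [eco] at ha1 hb1
  have vb := D4a_eq_one h hb
  have vb' : V.valuation (algebraMap E ℂ (b : E) ^ pn (und K P)) = 1 := by
    rw [map_pow, vb, one_pow]
  have vσb : V.valuation (algebraMap E ℂ (σ (b : E))) = 1 := by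
    have e : algebraMap E ℂ (σ (b : E)) = (algebraMap E ℂ (σ (b : E)) - algebraMap E ℂ (b : E) ^ pn (und K P))
        + algebraMap E ℂ (b : E) ^ pn (und K P) := by ring
    rw [e, ← vb']
    apply Valuation.map_add_eq_of_lt_right
    rw [vb']
    exact hb1
  have va : V.valuation (algebraMap E ℂ (a : E) ^ pn (und K P)) ≤ 1 := by
    rw [map_pow]
    exact pow_le_one₀ zero_le (h.le a)
  have e1 : algebraMap E ℂ x * algebraMap E ℂ (b : E) = algebraMap E ℂ (a : E) := by
    rw [← map_mul, hab]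
  have e2 : algebraMap E ℂ (σ x) * algebraMap E ℂ (σ (b : E)) = algebraMap E ℂ (σ (a : E)) := by
    rw [← map_mul, ← map_mul, hab]
  have e3 : (algebraMap E ℂ (σ x) - algebraMap E ℂ x ^ pn (und K P)) *
      (algebraMap E ℂ (σ (b : E)) * algebraMap E ℂ (b : E) ^ pn (und K P)) =
      (algebraMap E ℂ (σ (a : E)) - algebraMap E ℂ (a : E) ^ pn (und K P)) *
        algebraMap E ℂ (b : E) ^ pn (und K P) -
      algebraMap E ℂ (a : E) ^ pn (und K P) *
        (algebraMap E ℂ (σ (b : E)) - algebraMap E ℂ (b : E) ^ pn (und K P)) := by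
    rw [← e1, ← e2, mul_pow]
    ring
  have e4 := congrArg V.valuation e3
  rw [map_mul, map_mul, vσb, vb', one_mul, mul_one] at e4
  rw [e4]
  refine (Valuation.map_sub _ _ _).trans_lt (max_lt ?_ ?_)
  · rw [map_mul, vb', mul_one]
    exact ha1
  · rw [map_mul]
    exact (mul_le_of_le_one_left' va).trans_lt hb1

/-- `x = a / b` with `a, b ∈ 𝓞 E` non-zero; only finitely many primes contain `a` or `b`. -/
theorem finite_bad {x : E} (hx : x ≠ 0) :
    {P : PrI E | ¬ ∀ V, OverP P V → V.valuation (algebraMap E ℂ x) = 1}.Finite := by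
  obtain ⟨a, b, hb, hab⟩ := IsFractionRing.div_surjective (A := 𝓞 E) x
  have hb0 : b ≠ 0 := nonZeroDivisors.ne_zero hb
  have ha0 : a ≠ 0 := by
    rintro rfl
    rw [map_zero, zero_div] at hab
    exact hx hab.symm
  have hfin : ∀ c : 𝓞 E, c ≠ 0 → {P : PrI E | c ∈ P.asIdeal}.Finite := by
    intro c hc
    refine (Ideal.finite_factors (I := Ideal.span {c}) ?_).subset ?_
    · intro h0
      exact hc (Ideal.span_singleton_eq_bot.mp h0)
    · intro P hP
      exact Ideal.dvd_span_singleton.mpr hP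
  refine ((hfin a ha0).union (hfin b hb0)).subset ?_
  intro P hP
  by_contra hc
  apply hP
  intro V hV
  have h1 : a ∉ P.asIdeal := fun h => hc (Or.inl h)
  have h2 : b ∉ P.asIdeal := fun h => hc (Or.inr h)
  have h3 := D4a_eq_one hV h1
  have h4 := D4a_eq_one hV h2
  rw [← hab, map_div₀, map_div₀]
  rw [show algebraMap E ℂ (algebraMap (𝓞 E) E a) = algebraMap E ℂ (a : E) from rfl,
    show algebraMap E ℂ (algebraMap (𝓞 E) E b) = algebraMap E ℂ (b : E) from rfl, h3, h4, div_one]

/-- The ideal `{b ∈ 𝓞 E | b x ∈ 𝓞 E}` is not contained in a maximal ideal (`exists_overP`,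
`OverP.exists_div`; a maximal ideal of `𝓞 E` is not zero). -/
theorem isIntegral_of_overP {x : E}
    (h : ∀ (P : PrI E) (V : ValuationSubring ℂ), OverP P V → V.valuation (algebraMap E ℂ x) ≤ 1) :
    IsIntegral ℤ x := by
  have h1 : x ∈ (algebraMap (𝓞 E) E).range := by
    apply HeightOneSpectrum.mem_integers_of_valuation_le_one
    intro P
    obtain ⟨V, hV⟩ := exists_overP P
    obtain ⟨a, b, hb, hab⟩ := hV.exists_div (h P V hV)
    have h2 : P.valuation E (algebraMap (𝓞 E) E b) = 1 := by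
      rw [HeightOneSpectrum.valuation_of_algebraMap]
      exact (P.intValuation_eq_one_iff_mem_primeCompl b).mpr hb
    have h3 : P.valuation E (x * algebraMap (𝓞 E) E b) ≤ 1 := by
      have e : x * algebraMap (𝓞 E) E b = algebraMap (𝓞 E) E a := hab
      rw [e]
      exact P.valuation_le_one a
    rw [map_mul, h2, mul_one] at h3
    exact h3
  obtain ⟨y, rfl⟩ := h1
  exact RingOfIntegers.isIntegral_coe y

end ovr

end Pool.Agent.STg
end

section

/-!
# Frobenius elements generate the Galois group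
-/

open NumberField IsDedekindDomain Pool.Agent.ST

namespace Pool.Agent.STg

section gen

variable {K L : Type*} [Field K] [NumberField K] [Field L] [NumberField L] [Algebra K L]
  [IsGalois K L]

/-- Conjugates of Frobenius elements (Mathlib: `IsArithFrobAt.conj`; library: `isFrob_iff`). -/
lemma isFrob_conj {P : PrI L} {σ : L ≃ₐ[K] L} (h : IsFrob K P σ) (τ : L ≃ₐ[K] L) :
    ∃ P' : PrI L, und K P' = und K P ∧ IsFrob K P' (τ * σ * τ⁻¹) := by
  have hcomap : ∀ x : 𝓞 L, x ∈ P.asIdeal.comap (MulSemiringAction.toRingHom (L ≃ₐ[K] L) (𝓞 L) τ⁻¹) ↔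
      τ⁻¹ • x ∈ P.asIdeal := fun x => Iff.rfl
  have hprime : (P.asIdeal.comap (MulSemiringAction.toRingHom (L ≃ₐ[K] L) (𝓞 L) τ⁻¹)).IsPrime := by
    have := P.isPrime
    exact Ideal.comap_isPrime _ _
  have hne : P.asIdeal.comap (MulSemiringAction.toRingHom (L ≃ₐ[K] L) (𝓞 L) τ⁻¹) ≠ ⊥ := by
    intro h0
    apply P.ne_bot
    rw [Submodule.eq_bot_iff] at h0 ⊢
    intro x hx
    have h1 : τ • x = 0 := by
      apply h0
      rw [hcomap, inv_smul_smul]
      exact hx
    have h2 : τ⁻¹ • (τ • x) = 0 := by rw [h1, smul_zero]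
    rwa [inv_smul_smul] at h2
  let P' : PrI L := ⟨_, hprime, hne⟩
  have hund : und K P' = und K P := by
    apply HeightOneSpectrum.ext
    ext x
    rw [HeightOneSpectrum.under_asIdeal, HeightOneSpectrum.under_asIdeal, Ideal.under, Ideal.under,
      Ideal.mem_comap, Ideal.mem_comap]
    have e : τ⁻¹ • (algebraMap (𝓞 K) (𝓞 L) x) = algebraMap (𝓞 K) (𝓞 L) x := by
      apply RingOfIntegers.coe_injective
      exact (τ⁻¹).commutes (x : K)
    show τ⁻¹ • (algebraMap (𝓞 K) (𝓞 L) x) ∈ P.asIdeal ↔ algebraMap (𝓞 K) (𝓞 L) x ∈ P.asIdeal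
    rw [e]
  refine ⟨P', hund, ?_⟩
  intro x
  rw [hund]
  show τ⁻¹ • ((τ * σ * τ⁻¹) • x - x ^ pn (und K P)) ∈ P.asIdeal
  have h1 := h (τ⁻¹ • x)
  have e : τ⁻¹ • ((τ * σ * τ⁻¹) • x - x ^ pn (und K P)) = σ • (τ⁻¹ • x) - (τ⁻¹ • x) ^ pn (und K P) := by
    rw [smul_sub, smul_pow', smul_smul, smul_smul]
    congr 2
    group
  rw [e]
  exact h1

/-- Frobenius elements outside of a finite set generate the Galois group, normal case. The proof is
the one of `Pool.Agent.ST.frob_gen` (file MP_1ef7cf_nt/Gen.lean), where commutativity is only used to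
see that `T` is normal. -/
theorem frob_gen_normal (T : Subgroup (L ≃ₐ[K] L)) (hTn : T.Normal)
    (B : Set (PrI K)) (hB : B.Finite)
    (hT : ∀ P : PrI L, und K P ∉ B → Algebra.IsUnramifiedAt (𝓞 K) P.asIdeal →
      ∀ σ : L ≃ₐ[K] L, IsFrob K P σ → σ ∈ T) : T = ⊤ := by
  by_contra hne
  set F : IntermediateField K L := IntermediateField.fixedField T with hF
  have hfix : IntermediateField.fixingSubgroup F = T :=
    IntermediateField.fixingSubgroup_fixedField T
  have hFG : IsGalois K F := by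
    have : (IntermediateField.fixingSubgroup F).Normal := by rw [hfix]; exact hTn
    exact IsGalois.of_fixedField_normal_subgroup T
  have hne2 : (⊥ : IntermediateField K F) ≠ ⊤ := by
    intro h
    apply hne
    have h1 : Module.finrank K F = 1 := by
      rw [← IntermediateField.finrank_top', ← h, IntermediateField.finrank_bot]
    have h2 : F = ⊥ := IntermediateField.finrank_eq_one_iff.1 h1
    rw [← hfix, h2, IntermediateField.fixingSubgroup_bot]
  set R : Set (PrI L) := {P : PrI L | ¬ Algebra.IsUnramifiedAt (𝓞 K) P.asIdeal} with hR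
  have hB' : (B ∪ und K '' R).Finite := hB.union ((finite_ramified K).image _)
  obtain ⟨P₁, hP₁, hu₁, σ₁, hσ₁, -, hσ₁'⟩ := exists_frob (K := K) (L := F) ⊥ hne2 _ hB'
  obtain ⟨P, hP⟩ := exists_ovr (K := F) (L := L) P₁
  have hPK : und K P = und K P₁ := by rw [← hP, und_und]
  have hun : Algebra.IsUnramifiedAt (𝓞 K) P.asIdeal := by
    by_contra hn
    exact hP₁ (Or.inr ⟨P, hn, hPK⟩)
  obtain ⟨σ, hσ⟩ := exists_isFrob (K := K) P
  have hσT : σ ∈ T := hT P (fun h => hP₁ (Or.inl (hPK ▸ h))) hun σ hσ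
  have h3 : IsFrob K (und F P) (σ.restrictNormal F) :=
    isFrob_und (fun x => σ.restrictNormal_commutes F x) hσ
  rw [hP] at h3
  have h4 := isFrob_unique h3 hσ₁
  apply hσ₁'
  rw [← h4]
  ext x
  have h5 := σ.restrictNormal_commutes F x
  have h6 : σ (algebraMap F L x) = algebraMap F L x := by
    exact (IntermediateField.mem_fixedField_iff T (x : L)).1 x.2 σ hσT
  rw [h6] at h5
  rw [AlgEquiv.one_apply]
  exact h5

/-- Frobenius elements outside of a finite set generate the Galois group. Apply the previous theorem to the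
subgroup generated by the Frobenius elements at `P` with `und K P ∉ B`, which is normal by
`isFrob_conj`, and is contained in `T`. -/
theorem frob_gen' (T : Subgroup (L ≃ₐ[K] L)) (B : Set (PrI K)) (hB : B.Finite)
    (hT : ∀ P : PrI L, und K P ∉ B → ∀ σ : L ≃ₐ[K] L, IsFrob K P σ → σ ∈ T) : T = ⊤ := by
  have h1 : Subgroup.normalClosure {σ : L ≃ₐ[K] L | ∃ P : PrI L, und K P ∉ B ∧ IsFrob K P σ} = ⊤ := by
    refine frob_gen_normal _ Subgroup.normalClosure_normal B hB ?_
    intro P hP _ σ hσ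
    exact Subgroup.subset_normalClosure ⟨P, hP, hσ⟩
  have h2 : Subgroup.normalClosure {σ : L ≃ₐ[K] L | ∃ P : PrI L, und K P ∉ B ∧ IsFrob K P σ} ≤ T := by
    unfold Subgroup.normalClosure
    rw [Subgroup.closure_le]
    intro ρ hρ
    obtain ⟨σ, ⟨P, hP, hσ⟩, hc⟩ := Group.mem_conjugatesOfSet_iff.mp hρ
    obtain ⟨τ, hτ⟩ := isConj_iff.mp hc
    obtain ⟨P', hP', hF⟩ := isFrob_conj hσ τ
    rw [hτ] at hF
    exact hT P' (by rw [hP']; exact hP) ρ hF
  rw [h1] at h2
  exact top_le_iff.mp h2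

end gen

end Pool.Agent.STg
end
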