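import Pool.Agent.Lib.MP_1ef7cf_nt_g.Mg.G033
import Pool.Agent.Lib.MP_1ef7cf_nt_g.D5

section

/-!
# Good primes: finiteness
-/

open NumberField IsDedekindDomain Pool.Agent.ST Complex

namespace Pool.Agent.STg

variable {D : LemData} {U : UD} {k : ℕ} {f : GaussianInt} {E : IntermediateField QI ℂ}
  [NumberField E]

private theorem D8b_aux {c : ℂ} (hc : c ∈ E) :
    {P : PrI E | ∃ V, OverP P V ∧ c ≠ 0 ∧ V.valuation c ≠ 1}.Finite := by
  by_cases h0 : c = 0
  · refine Set.Finite.subset Set.finite_empty ?_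
    rintro P ⟨V, _, h, _⟩
    exact absurd h0 h
  · have hx : (⟨c, hc⟩ : E) ≠ 0 := fun h => h0 (congrArg Subtype.val h)
    refine Set.Finite.subset (finite_bad hx) ?_
    rintro P ⟨V, hV, _, h⟩ hall
    exact h (hall V hV)

/-- Only finitely many primes are not good (`finite_bad` for `2`, `f`, `A` and for the finitely many
non-zero differences of the values of `X`, and the non-zero values of `X`;
`TSet D.X f` is finite: `D.finite_T`). -/
theorem finite_notGood (hf : f ≠ 0) (hC : Cont D U k f E) :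
    {P : PrI E | ¬ ∀ V, OverP P V → GoodV D U f V}.Finite := by
  have hT : (TSet D.X f).Finite := D.finite_T f hf
  have hTE : ∀ t ∈ TSet D.X f, t ∈ E := by
    rintro t ⟨u, hu1, hu2, rfl⟩
    exact hC.X u hu1 hu2
  have hfE : (f : ℂ) ∈ E := E.algebraMap_mem (⟨(f : ℂ), gauss_mem_QI f⟩ : QI)
  have h2E : (2 : ℂ) ∈ E := by
    have h := add_mem E.one_mem E.one_mem
    rwa [one_add_one_eq_two] at h
  obtain ⟨S, hS⟩ : ∃ S : Set ℂ, S = ({2, (f : ℂ), U.A} : Set ℂ) ∪ (TSet D.X f ∪
    Set.image2 (fun a b => a - b) (TSet D.X f) (TSet D.X f)) := ⟨_, rfl⟩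
  have hSfin : S.Finite := by
    rw [hS]
    exact (Set.toFinite _).union (hT.union (hT.image2 _ hT))
  have hSE : ∀ c ∈ S, c ∈ E := by
    intro c hc
    rw [hS] at hc
    rcases hc with hc | hc | hc
    · rcases hc with rfl | rfl | rfl
      · exact h2E
      · exact hfE
      · exact hC.A
    · exact hTE c hc
    · obtain ⟨a, ha, b, hb, rfl⟩ := hc
      exact sub_mem (hTE a ha) (hTE b hb)
  refine Set.Finite.subset (hSfin.biUnion fun c hc => D8b_aux (hSE c hc)) ?_
  intro P hP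
  by_contra hcon
  refine hP fun V hV => ?_
  have h : ∀ c ∈ S, c ≠ 0 → V.valuation c = 1 := by
    intro c hc hc0
    by_contra hv
    exact hcon (Set.mem_biUnion hc ⟨V, hV, hc0, hv⟩)
  have h1 : ∀ w : ℂ, w ∉ Lam → (f : ℂ) * w ∈ Lam → D.X w ∈ TSet D.X f :=
    fun w hw hfw => ⟨w, hw, hfw, rfl⟩
  refine ⟨?_, ?_, ?_, ?_, ?_⟩
  · refine h 2 ?_ two_ne_zero
    rw [hS]
    exact Or.inl (Or.inl rfl)
  · refine h (f : ℂ) ?_ ?_
    · rw [hS]
      exact Or.inl (Or.inr (Or.inl rfl))
    · rw [Ne, GaussianInt.toComplex_eq_zero]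
      exact hf
  · refine h U.A ?_ U.A_ne_zero
    rw [hS]
    exact Or.inl (Or.inr (Or.inr rfl))
  · intro w hw hfw
    by_cases h0 : D.X w = 0
    · rw [h0, map_zero]
      exact zero_le_one
    · refine (h (D.X w) ?_ h0).le
      rw [hS]
      exact Or.inr (Or.inl (h1 w hw hfw))
  · intro w u hw hfw hu hfu hne
    refine h (D.X w - D.X u) ?_ (sub_ne_zero.mpr hne)
    rw [hS]
    exact Or.inr (Or.inr ⟨D.X w, h1 w hw hfw, D.X u, h1 u hu hfu, rfl⟩)

end Pool.Agent.STg
end

section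

/-!
# The multiplication by a prime is congruent to the Frobenius map
-/

open Complex

namespace Pool.Agent.STg

variable (D : LemData) (V : ValuationSubring ℂ) {π : GaussianInt}

private lemma D6a_mul_lt {a b : V.ValueGroup} (ha : a ≤ 1) (hb : b < 1) : a * b < 1 :=
  (mul_le_of_le_one_left' ha).trans_lt hb

private lemma D6a_prod_lt {s : Finset ℂ} (hs : s.Nonempty) (f g : ℂ → V.ValueGroup)
    (h : ∀ t ∈ s, f t < g t) : ∏ t ∈ s, f t < ∏ t ∈ s, g t := by
  classical
  induction hs using Finset.Nonempty.cons_induction with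
  | singleton a => simpa using h a (Finset.mem_singleton_self a)
  | cons a s ha hs ih =>
    rw [Finset.prod_cons, Finset.prod_cons]
    exact mul_lt_mul'' (h a (Finset.mem_cons_self a s)) (ih fun t ht => h t (Finset.mem_cons_of_mem ht))
      zero_le zero_le

/-- If `x = X z` has `v x > 1` then `v (X (π z)) > v x`: `y = 1 / x`, `t = 1 / τ`:
`1 / X (π z) = c y ∏ (y - τ) ^ 2 / ∏ (1 + y τ) ^ 2` by `X_prod`, and `v τ < 1` (`T_gt_one`), and
there is at least one `t`. -/
theorem LemData.val_mul_gt (hπ : Prime π) (hodd : gOdd π) (h : V.valuation (π : ℂ) < 1) {z : ℂ}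
    (hz : (π : ℂ) * z ∉ Lam) (hx : 1 < V.valuation (D.X z)) :
    V.valuation (D.X z) < V.valuation (D.X (π * z)) := by
  obtain ⟨c, hc, -, hmul⟩ := D.X_prod π hodd
  have hne : (TFin D.X π).Nonempty := by
    obtain ⟨u, hu, hu1, -⟩ := D.exists_red V hodd h
    exact ⟨D.X u, (D.mem_TFin hodd.ne_zero _).mpr ⟨u, hu, hu1, rfl⟩⟩
  have hcv : V.valuation c = 1 := by
    rcases hc with rfl | rfl
    · exact map_one _
    · rw [Valuation.map_neg, map_one]
  have h1 := congrArg V.valuation (hmul z hz)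
  rw [map_mul, map_mul, map_mul, hcv, one_mul, map_prod, map_prod] at h1
  have hxpos : 0 < V.valuation (D.X z) := lt_trans zero_lt_one hx
  have h2 : ∏ t ∈ TFin D.X π, V.valuation ((D.X z - t) ^ 2) <
      ∏ t ∈ TFin D.X π, V.valuation ((1 + t * D.X z) ^ 2) := by
    apply D6a_prod_lt V hne
    intro t ht
    have ht1 := D.T_gt_one V hπ hodd h ht
    have htpos : 0 < V.valuation t := lt_trans zero_lt_one ht1
    have a1 : V.valuation (D.X z) < V.valuation (t * D.X z) := by
      rw [map_mul]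
      calc V.valuation (D.X z) = 1 * V.valuation (D.X z) := (one_mul _).symm
        _ < V.valuation t * V.valuation (D.X z) := mul_lt_mul_of_pos_right ht1 hxpos
    have a2 : V.valuation t < V.valuation (t * D.X z) := by
      rw [map_mul]
      calc V.valuation t = V.valuation t * 1 := (mul_one _).symm
        _ < V.valuation t * V.valuation (D.X z) := mul_lt_mul_of_pos_left hx htpos
    have a3 : V.valuation (1 + t * D.X z) = V.valuation (t * D.X z) := by
      apply Valuation.map_add_eq_of_lt_right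
      rw [map_one]
      exact lt_trans hx a1
    rw [map_pow, map_pow, a3]
    apply pow_lt_pow_left₀ _ zero_le two_ne_zero
    exact (Valuation.map_sub _ _ _).trans_lt (max_lt a1 a2)
  by_contra hcon
  have hcon' := not_lt.mp hcon
  have h3 : V.valuation (D.X (π * z)) * ∏ t ∈ TFin D.X π, V.valuation ((D.X z - t) ^ 2) <
      V.valuation (D.X z) * ∏ t ∈ TFin D.X π, V.valuation ((1 + t * D.X z) ^ 2) :=
    (mul_le_mul_left hcon' _).trans_lt (mul_lt_mul_of_pos_left h2 hxpos)
  exact absurd h1 h3.ne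

private lemma D6a_prod_congr (s : Finset ℂ) (f g : ℂ → ℂ) (hf : ∀ t ∈ s, V.valuation (f t) ≤ 1)
    (hg : ∀ t ∈ s, V.valuation (g t) ≤ 1) (h : ∀ t ∈ s, V.valuation (f t - g t) < 1) :
    V.valuation (∏ t ∈ s, f t - ∏ t ∈ s, g t) < 1 ∧ V.valuation (∏ t ∈ s, f t) ≤ 1 ∧
      V.valuation (∏ t ∈ s, g t) ≤ 1 := by
  classical
  induction s using Finset.induction_on with
  | empty => simp
  | insert a s ha ih =>
    obtain ⟨i1, i2, i3⟩ := ih (fun t ht => hf t (Finset.mem_insert_of_mem ht))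
      (fun t ht => hg t (Finset.mem_insert_of_mem ht)) (fun t ht => h t (Finset.mem_insert_of_mem ht))
    have f1 := hf a (Finset.mem_insert_self a s)
    have g1 := hg a (Finset.mem_insert_self a s)
    have h1 := h a (Finset.mem_insert_self a s)
    rw [Finset.prod_insert ha, Finset.prod_insert ha]
    refine ⟨?_, ?_, ?_⟩
    · have e : f a * ∏ t ∈ s, f t - g a * ∏ t ∈ s, g t =
          f a * (∏ t ∈ s, f t - ∏ t ∈ s, g t) + (f a - g a) * ∏ t ∈ s, g t := by ring
      rw [e]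
      refine (Valuation.map_add _ _ _).trans_lt (max_lt ?_ ?_)
      · rw [map_mul]
        exact D6a_mul_lt V f1 i1
      · rw [map_mul]
        exact mul_lt_one_of_lt_of_le h1 i3
    · rw [map_mul]
      exact mul_le_one' f1 i2
    · rw [map_mul]
      exact mul_le_one' g1 i3

/-- `X (π z) ∏ (X z / t - 1) ^ 2 = c X z ∏ (1 / t + X z) ^ 2` (`X_prod`), `v (1 / t) < 1`
(`T_gt_one`), and `2 (number of t) + 1 = N(π)` (`card_T`). -/
lemma LemData.frob_congr' (hπ : Prime π) (hodd : gOdd π) (h : V.valuation (π : ℂ) < 1) :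
    ∃ c : ℂ, (c = 1 ∨ c = -1) ∧ ∀ z : ℂ, (π : ℂ) * z ∉ Lam → V.valuation (D.X z) ≤ 1 →
      V.valuation (D.X (π * z) - c * D.X z ^ gN π) < 1 := by
  obtain ⟨c, hc, -, hmul⟩ := D.X_prod π hodd
  refine ⟨c, hc, ?_⟩
  intro z hz hx
  have hcv : V.valuation c = 1 := by
    rcases hc with rfl | rfl
    · exact map_one _
    · rw [Valuation.map_neg, map_one]
  have h1 := hmul z hz
  generalize D.X (π * z) = X' at h1 ⊢
  generalize D.X z = x at h1 hx ⊢
  have hT : ∀ t ∈ TFin D.X π, t ≠ 0 ∧ V.valuation t⁻¹ < 1 := by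
    intro t ht
    have ht1 := D.T_gt_one V hπ hodd h ht
    refine ⟨D.T_ne_zero hodd ht, ?_⟩
    rw [map_inv₀]
    exact inv_lt_one_of_one_lt₀ ht1
  have e1 : ∏ t ∈ TFin D.X π, (x - t) ^ 2 =
      (∏ t ∈ TFin D.X π, t ^ 2) * ∏ t ∈ TFin D.X π, (x * t⁻¹ - 1) ^ 2 := by
    rw [← Finset.prod_mul_distrib]
    apply Finset.prod_congr rfl
    intro t ht
    have ht0 := (hT t ht).1
    field_simp
  have e2 : ∏ t ∈ TFin D.X π, (1 + t * x) ^ 2 =
      (∏ t ∈ TFin D.X π, t ^ 2) * ∏ t ∈ TFin D.X π, (t⁻¹ + x) ^ 2 := by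
    rw [← Finset.prod_mul_distrib]
    apply Finset.prod_congr rfl
    intro t ht
    have ht0 := (hT t ht).1
    field_simp
  have hP0 : ∏ t ∈ TFin D.X π, t ^ 2 ≠ 0 :=
    Finset.prod_ne_zero_iff.mpr fun t ht => pow_ne_zero 2 (hT t ht).1
  have h2 : X' * ∏ t ∈ TFin D.X π, (x * t⁻¹ - 1) ^ 2 = c * x * ∏ t ∈ TFin D.X π, (t⁻¹ + x) ^ 2 := by
    apply mul_left_cancel₀ hP0
    rw [e1, e2] at h1
    linear_combination h1
  have hxt : ∀ t ∈ TFin D.X π, V.valuation (x * t⁻¹) < 1 := by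
    intro t ht
    rw [map_mul]
    exact D6a_mul_lt V hx (hT t ht).2
  have h2v : V.valuation (2 : ℂ) ≤ 1 := by
    have := val_gauss V (⟨2, 0⟩ : GaussianInt)
    have e : ((⟨2, 0⟩ : GaussianInt) : ℂ) = 2 := by
      rw [GaussianInt.toComplex_def']
      simp
    rwa [e] at this
  obtain ⟨A1, A2, -⟩ := D6a_prod_congr V (TFin D.X π) (fun t => (x * t⁻¹ - 1) ^ 2) (fun _ => 1)
    (by
      intro t ht
      rw [map_pow]
      refine pow_le_one₀ zero_le ((Valuation.map_sub _ _ _).trans (max_le (hxt t ht).le ?_))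
      rw [map_one])
    (by
      intro t ht
      rw [map_one])
    (by
      intro t ht
      have e : (x * t⁻¹ - 1) ^ 2 - 1 = (x * t⁻¹) * (x * t⁻¹ - 2) := by ring
      rw [e, map_mul]
      exact mul_lt_one_of_lt_of_le (hxt t ht)
        ((Valuation.map_sub _ _ _).trans (max_le (hxt t ht).le h2v)))
  obtain ⟨B1, B2, B3⟩ := D6a_prod_congr V (TFin D.X π) (fun t => (t⁻¹ + x) ^ 2) (fun _ => x ^ 2)
    (by
      intro t ht
      rw [map_pow]
      exact pow_le_one₀ zero_le ((Valuation.map_add _ _ _).trans (max_le (hT t ht).2.le hx)))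
    (by
      intro t ht
      rw [map_pow]
      exact pow_le_one₀ zero_le hx)
    (by
      intro t ht
      have e : (t⁻¹ + x) ^ 2 - x ^ 2 = t⁻¹ * (t⁻¹ + 2 * x) := by ring
      rw [e, map_mul]
      refine mul_lt_one_of_lt_of_le (hT t ht).2
        ((Valuation.map_add _ _ _).trans (max_le (hT t ht).2.le ?_))
      rw [map_mul]
      exact mul_le_one' h2v hx)
  rw [Finset.prod_const_one] at A1
  rw [Finset.prod_const] at B1 B3
  have hN : x ^ gN π = x * (x ^ 2) ^ (TFin D.X π).card := by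
    rw [← D.card_T π hodd, ← pow_mul, pow_succ]
    ring
  rw [hN]
  generalize ∏ t ∈ TFin D.X π, (x * t⁻¹ - 1) ^ 2 = P at A1 A2 h2
  generalize ∏ t ∈ TFin D.X π, (t⁻¹ + x) ^ 2 = Q at B1 B2 h2
  generalize (x ^ 2) ^ (TFin D.X π).card = R at B1 B3 ⊢
  have hPv : V.valuation P = 1 := by
    have e : P = 1 + (P - 1) := by ring
    rw [e]
    exact Valuation.map_one_add_of_lt _ A1
  have hX' : V.valuation X' ≤ 1 := by
    have h3 := congrArg V.valuation h2
    rw [map_mul, map_mul, map_mul, hPv, hcv, mul_one, one_mul] at h3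
    rw [h3]
    exact mul_le_one' hx B2
  have e : X' - c * (x * R) = (-X') * (P - 1) + (c * x) * (Q - R) := by
    linear_combination (-1 : ℂ) * (-h2)
  rw [e]
  refine (Valuation.map_add _ _ _).trans_lt (max_lt ?_ ?_)
  · rw [map_mul, Valuation.map_neg]
    exact D6a_mul_lt V hX' A1
  · rw [map_mul, map_mul, hcv, one_mul]
    exact D6a_mul_lt V hx B1

/-- `π` primary: take `z = 1 / 2` in `frob_congr'`, `X (π / 2) = X (1 / 2) = 1`: `v (1 - c) < 1`,
and `v 2 = 1`, so `c = 1`. -/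
theorem LemData.frob_congr (hπ : Prime π) (hP : Prim π) (h : V.valuation (π : ℂ) < 1) {z : ℂ}
    (hz : (π : ℂ) * z ∉ Lam) (hx : V.valuation (D.X z) ≤ 1) :
    V.valuation (D.X (π * z) - D.X z ^ gN π) < 1 := by
  obtain ⟨c, hc, hfrob⟩ := D.frob_congr' V hπ hP.odd h
  have h1 : c = 1 := by
    rcases hc with h1 | h1
    · exact h1
    · exfalso
      have h2 := hfrob (1 / 2) (half_notMem hP.odd) (by rw [D.X_half, map_one])
      obtain ⟨k, hk⟩ := hP
      have e1 : (π : ℂ) * (1 / 2) = 1 / 2 + (((⟨-1, 1⟩ : GaussianInt) * k : GaussianInt) : ℂ) := by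
        have h3 : (π : ℂ) - 1 = (1 + I) ^ 3 * (k : ℂ) := by
          have h4 := congrArg (fun g : GaussianInt => (g : ℂ)) hk
          have e2 : ((⟨1, 1⟩ : GaussianInt) : ℂ) = 1 + I := by
            rw [GaussianInt.toComplex_def']
            simp
          simp only [GaussianInt.toComplex_sub, GaussianInt.toComplex_mul, map_pow, e2,
            GaussianInt.toComplex_one] at h4
          exact h4
        have e3 : ((⟨-1, 1⟩ : GaussianInt) : ℂ) = -1 + I := by
          rw [GaussianInt.toComplex_def']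
          simp
        rw [GaussianInt.toComplex_mul, e3]
        linear_combination (1 / 2 : ℂ) * h3 + ((k : ℂ) * (3 + I) / 2) * Complex.I_sq
      rw [e1, D.X_add, D.X_half, h1, one_pow] at h2
      have e4 : (1 : ℂ) - -1 * 1 = 2 := by ring
      rw [e4, val_two V hπ (Prim.odd ⟨k, hk⟩) h] at h2
      exact lt_irrefl _ h2
  have h2 := hfrob z hz hx
  rw [h1, one_mul] at h2
  exact h2

private lemma D6a_pow_notMem {β : GaussianInt} (hπ : Prime π) (hβ : ¬ π ∣ β) {w : ℂ} (hw : w ∉ Lam)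
    (hβw : (β : ℂ) * w ∈ Lam) (j : ℕ) : ((π ^ j : GaussianInt) : ℂ) * w ∉ Lam := by
  intro hcon
  have hcop : IsCoprime (π ^ j) β :=
    IsCoprime.pow_left ((Irreducible.coprime_iff_not_dvd hπ.irreducible).mpr hβ)
  obtain ⟨x, y, hxy⟩ := hcop
  apply hw
  have h1 := Lam_add (Lam_mul x hcon) (Lam_mul y hβw)
  have hxyC : (x : ℂ) * ((π ^ j : GaussianInt) : ℂ) + (y : ℂ) * (β : ℂ) = 1 := by
    have := congrArg (fun g : GaussianInt => (g : ℂ)) hxy
    simpa using this
  have e : (x : ℂ) * (((π ^ j : GaussianInt) : ℂ) * w) + (y : ℂ) * ((β : ℂ) * w) = w := by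
    linear_combination w * hxyC
  rwa [e] at h1

/-- `v (X w) ≤ 1` for torsion points of order prime to `π`: choose `n ≥ 1` with `β ∣ π ^ n - 1`; then
`X (π ^ n w) = X w`, and if `v (X w) > 1` then `v (X (π ^ j w))` increases (`val_mul_gt`). -/
theorem LemData.val_le_one (hπ : Prime π) (hodd : gOdd π) (h : V.valuation (π : ℂ) < 1)
    {β : GaussianInt} (hβ : ¬ π ∣ β) {w : ℂ} (hw : w ∉ Lam) (hβw : (β : ℂ) * w ∈ Lam) :
    V.valuation (D.X w) ≤ 1 := by
  by_contra hcon
  have hcon' := not_le.mp hcon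
  have hβ0 : β ≠ 0 := by
    rintro rfl
    exact hβ (dvd_zero π)
  have hstep : ∀ j : ℕ, ((π ^ (j + 1) : GaussianInt) : ℂ) * w = (π : ℂ) * (((π ^ j : GaussianInt) : ℂ) * w) := by
    intro j
    rw [pow_succ, GaussianInt.toComplex_mul]
    ring
  have hgt : ∀ j : ℕ, 1 < V.valuation (D.X (((π ^ j : GaussianInt) : ℂ) * w)) := by
    intro j
    induction j with
    | zero =>
      rw [pow_zero, GaussianInt.toComplex_one, one_mul]
      exact hcon'
    | succ j ih =>
      rw [hstep]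
      refine lt_trans ih (D.val_mul_gt V hπ hodd h ?_ ih)
      rw [← hstep]
      exact D6a_pow_notMem hπ hβ hw hβw (j + 1)
  have hmono : StrictMono (fun j : ℕ => V.valuation (D.X (((π ^ j : GaussianInt) : ℂ) * w))) := by
    apply strictMono_nat_of_lt_succ
    intro j
    show V.valuation (D.X (((π ^ j : GaussianInt) : ℂ) * w)) <
      V.valuation (D.X (((π ^ (j + 1) : GaussianInt) : ℂ) * w))
    rw [hstep]
    refine D.val_mul_gt V hπ hodd h ?_ (hgt j)
    rw [← hstep]
    exact D6a_pow_notMem hπ hβ hw hβw (j + 1)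
  have hinj : Function.Injective (fun j : ℕ => D.X (((π ^ j : GaussianInt) : ℂ) * w)) := by
    intro i j hij
    apply hmono.injective
    show V.valuation (D.X (((π ^ i : GaussianInt) : ℂ) * w)) =
      V.valuation (D.X (((π ^ j : GaussianInt) : ℂ) * w))
    exact congrArg V.valuation hij
  refine Set.infinite_of_injective_forall_mem hinj (s := TSet D.X β) ?_ (D.finite_T β hβ0)
  intro j
  refine ⟨_, D6a_pow_notMem hπ hβ hw hβw j, ?_, rfl⟩
  have h1 := Lam_mul (π ^ j) hβw
  have e : ((π ^ j : GaussianInt) : ℂ) * ((β : ℂ) * w) = (β : ℂ) * (((π ^ j : GaussianInt) : ℂ) * w) := by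
    ring
  rwa [e] at h1

/-- Torsion points of order `π β`, `π ∤ β`, which are not `π`-torsion points. If `v (X w) > 1` then
`v (X (π w)) > 1` (`val_mul_gt`), which contradicts `val_le_one` for `π w`. -/
theorem LemData.val_le_one' (hπ : Prime π) (hodd : gOdd π) (h : V.valuation (π : ℂ) < 1)
    {β : GaussianInt} (hβ : ¬ π ∣ β) {w : ℂ} (hw : (π : ℂ) * w ∉ Lam)
    (hβw : (β : ℂ) * (π * w) ∈ Lam) : V.valuation (D.X w) ≤ 1 := by
  by_contra hcon
  have hcon' := not_le.mp hcon
  have h1 := D.val_mul_gt V hπ hodd h hw hcon'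
  have h2 := D.val_le_one V hπ hodd h hβ hw hβw
  exact absurd h2 (not_le.mpr (lt_trans hcon' h1))

end Pool.Agent.STg
end
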