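import Pool.Agent.Lib.MP_1ef7cf_nt_g.Mg.G033
import Pool.Agent.Lib.MP_1ef7cf_nt_g.Mg.G037

section

/-!
# Finite Galois extensions of `ℚ(i)` containing the torsion values
-/

open NumberField IsDedekindDomain Pool.Agent.ST Complex

namespace Pool.Agent.STg

variable {D : LemData} {U : UD} {k : ℕ} {f : GaussianInt}

lemma LemData.X_mem_Qb (D : LemData) {f : GaussianInt} (hf : f ≠ 0) {w : ℂ} (hw : w ∉ Lam)
    (hfw : (f : ℂ) * w ∈ Lam) : D.X w ∈ Qb :=
  (D.stable hf ⟨w, hw, hfw, rfl⟩).1

lemma UD.A_mem_Qb (U : UD) : U.A ∈ Qb := by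
  refine mem_Qb_of_quad (a := 0) (b := -(((⟨U.T, 2⟩ : GaussianInt)) : ℂ)) (zero_mem _)
    (neg_mem (gauss_mem_Qb _)) ?_
  rw [U.A_sq']
  ring

lemma zk_mem_Qb (k : ℕ) : zk k ∈ Qb := by
  have h : IsIntegral ℚ (zk k) := by
    apply IsIntegral.of_pow (n := 2 ^ k) (by positivity)
    rw [zk_pow]
    exact isIntegral_one
  exact mem_algebraicClosure_iff.2 h.isAlgebraic

/-- A finite set of algebraic numbers is contained in a finite Galois extension of `ℚ(i)`. -/
lemma exists_gal (S : Set ℂ) (hS : S.Finite) (h : ∀ x ∈ S, x ∈ Qb) :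
    ∃ E : IntermediateField QI ℂ, FiniteDimensional QI E ∧ IsGalois QI E ∧ S ⊆ E := by
  have hint : ∀ x ∈ S, IsIntegral QI x := by
    intro x hx
    have h1 : IsAlgebraic ℚ x := mem_algebraicClosure_iff.1 (h x hx)
    exact h1.isIntegral.tower_top
  have hSf : Finite S := hS
  have hfd : FiniteDimensional QI (IntermediateField.adjoin QI S) :=
    IntermediateField.finiteDimensional_adjoin hint
  have hnc : IsNormalClosure QI (IntermediateField.adjoin QI S)
      (IntermediateField.normalClosure QI (IntermediateField.adjoin QI S) ℂ) :=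
    Algebra.IsAlgebraic.isNormalClosure_normalClosure
      (fun x => IsAlgClosed.splits _)
  have hn : Normal QI (IntermediateField.normalClosure QI (IntermediateField.adjoin QI S) ℂ) :=
    hnc.normal
  refine ⟨IntermediateField.normalClosure QI (IntermediateField.adjoin QI S) ℂ, inferInstance,
    ?_, ?_⟩
  · exact { }
  · exact (IntermediateField.subset_adjoin QI S).trans
      (IntermediateField.le_normalClosure (IntermediateField.adjoin QI S))

lemma numberField_E (E : IntermediateField QI ℂ) [FiniteDimensional QI E] : NumberField E :=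
  NumberField.of_module_finite QI E

lemma exists_cont (D : LemData) (U : UD) (k : ℕ) {f : GaussianInt} (hf : f ≠ 0) :
    ∃ E : IntermediateField QI ℂ, FiniteDimensional QI E ∧ IsGalois QI E ∧ Cont D U k f E := by
  obtain ⟨E, h1, h2, h3⟩ := exists_gal (TSet D.X f ∪ {U.A, zk k})
    ((D.finite_T f hf).union (Set.toFinite _)) (by
      intro x hx
      rcases hx with hx | hx
      · exact (D.stable hf hx).1
      · rcases hx with hx | hx
        · rw [hx]
          exact U.A_mem_Qb
        · rw [Set.mem_singleton_iff.1 hx]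
          exact zk_mem_Qb k)
  refine ⟨E, h1, h2, ?_, ?_, ?_⟩
  · intro w hw hfw
    exact h3 (Or.inl ⟨w, hw, hfw, rfl⟩)
  · exact h3 (Or.inr (Or.inl rfl))
  · exact h3 (Or.inr (Or.inr rfl))

end Pool.Agent.STg
end

section

/-!
# Frobenius elements at good primes: the values of `X`
-/

open NumberField IsDedekindDomain Pool.Agent.ST Complex

namespace Pool.Agent.STg

variable {D : LemData} {U : UD} {k : ℕ} {f : GaussianInt} {E : IntermediateField QI ℂ}
  [NumberField E]

/-- The values of `X`: `β` primary prime with `v β < 1`, `N(β) = pn`. `v (σ x - x ^ N(β)) < 1`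
(`OverP.frob`), `v (X (β w) - X w ^ N(β)) < 1` (`frob_congr`); `σ x` is a value `X u`
(`exists_ext`, `LemData.stable`), so `σ x = X (β w)` by `GoodV.sub`. -/
lemma frob_X (hf : f ≠ 0) {P : PrI E} {V : ValuationSubring ℂ} (hV : OverP P V)
    (hG : GoodV D U f V) {σ : E ≃ₐ[QI] E} (hσ : IsFrob QI P σ) {β : GaussianInt} (hβ : Prime β)
    (hP : Prim β) (hβV : V.valuation (β : ℂ) < 1) (hN : pn (und QI P) = gN β) {w : ℂ}
    (hw : w ∉ Lam) (hfw : (f : ℂ) * w ∈ Lam) {x : E} (hx : (x : ℂ) = D.X w) :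
    ((σ x : E) : ℂ) = D.X (β * w) := by
  have hvf : ¬ β ∣ f := by
    intro hd
    have h1 := (val_gauss_lt V hβ hβV f).2 hd
    rw [hG.vf] at h1
    exact lt_irrefl _ h1
  have hco : IsCoprime β f := (Irreducible.coprime_iff_not_dvd hβ.irreducible).2 hvf
  have hβw : (β : ℂ) * w ∉ Lam := by
    intro h
    obtain ⟨a, b, hab⟩ := hco
    apply hw
    have h1 : w = (a : ℂ) * ((β : ℂ) * w) + (b : ℂ) * ((f : ℂ) * w) := by
      have h2 : ((a * β + b * f : GaussianInt) : ℂ) = 1 := by
        rw [hab]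
        exact map_one GaussianInt.toComplex
      rw [map_add, map_mul, map_mul] at h2
      calc w = 1 * w := (one_mul w).symm
        _ = ((a : ℂ) * (β : ℂ) + (b : ℂ) * (f : ℂ)) * w := by rw [h2]
        _ = _ := by ring
    rw [h1]
    exact Lam_add (Lam_mul a h) (Lam_mul b hfw)
  have hle : V.valuation (D.X w) ≤ 1 := hG.le w hw hfw
  have h1 := D.frob_congr V hβ hP hβV hβw hle
  have hle' : V.valuation (algebraMap E ℂ x) ≤ 1 := by
    change V.valuation (x : ℂ) ≤ 1
    rw [hx]
    exact hle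
  have h2 := hV.frob hσ hle'
  rw [hN] at h2
  obtain ⟨h, hI, hh⟩ := exists_ext σ
  have h3 : ap h (D.X w) = ((σ x : E) : ℂ) := by
    rw [← hx]
    exact hh x
  have h4 := (D.stable hf (t := D.X w) ⟨w, hw, hfw, rfl⟩).2 h hI
  rw [h3] at h4
  obtain ⟨u, hu, hfu, hXu⟩ := h4
  by_contra hne
  have hfβ : (f : ℂ) * ((β : ℂ) * w) ∈ Lam := by
    have : (f : ℂ) * ((β : ℂ) * w) = (β : ℂ) * ((f : ℂ) * w) := by ring
    rw [this]
    exact Lam_mul β hfw
  have h5 := hG.sub u ((β : ℂ) * w) hu hfu hβw hfβ (by rw [hXu]; exact hne)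
  have h6 : V.valuation (D.X u - D.X (β * w)) < 1 := by
    have e : D.X u - D.X (β * w) =
        (algebraMap E ℂ (σ x) - algebraMap E ℂ x ^ gN β) -
          (D.X (β * w) - D.X w ^ gN β) := by
      have e1 : algebraMap E ℂ (σ x) = D.X u := hXu.symm
      have e2 : algebraMap E ℂ x = D.X w := hx
      rw [e1, e2]
      ring
    rw [e]
    exact lt_of_le_of_lt (Valuation.map_sub _ _ _) (max_lt h2 h1)
  rw [h5] at h6
  exact lt_irrefl _ h6

end Pool.Agent.STg
end
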