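import Pool.Agent.Lib.MP_1ef7cf_nt_g.D5a
import Pool.Agent.Lib.MP_1ef7cf_nt_g.Mg.G033
import Pool.Agent.Lib.MP_1ef7cf_nt_g.Mg.G037
import Pool.Agent.Lib.MP_1ef7cf_nt_g.Mg.G036

section

/-!
# Frobenius elements at good primes: square roots and roots of unity
-/

open NumberField IsDedekindDomain Pool.Agent.ST Complex

namespace Pool.Agent.STg

variable {D : LemData} {U : UD} {k : ℕ} {f : GaussianInt} {E : IntermediateField QI ℂ}
  [NumberField E]

/-- Fermat's little theorem for Gaussian primes. -/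
lemma D8d_fermat {β γ : GaussianInt} (hβ : Prime β) (hγ : ¬ β ∣ γ) : β ∣ γ ^ (gN β - 1) - 1 := by
  have hmax : (Ideal.span {β}).IsMaximal :=
    PrincipalIdealRing.isMaximal_of_irreducible hβ.irreducible
  let _ : Field (GaussianInt ⧸ Ideal.span {β}) := Ideal.Quotient.field _
  have hcard : Nat.card (GaussianInt ⧸ Ideal.span {β}) = gN β := card_quot β hβ.ne_zero
  have : Finite (GaussianInt ⧸ Ideal.span {β}) := by
    apply Nat.finite_of_card_ne_zero
    rw [hcard]
    exact (gN_pos hβ.ne_zero).ne'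
  have : Fintype (GaussianInt ⧸ Ideal.span {β}) := Fintype.ofFinite _
  have h1 : (Ideal.Quotient.mk (Ideal.span {β}) γ) ≠ 0 := by
    intro h
    rw [Ideal.Quotient.eq_zero_iff_mem, Ideal.mem_span_singleton] at h
    exact hγ h
  have h2 := FiniteField.pow_card_sub_one_eq_one _ h1
  rw [← Nat.card_eq_fintype_card, hcard, ← map_pow, ← map_one (Ideal.Quotient.mk (Ideal.span {β})),
    Ideal.Quotient.eq, Ideal.mem_span_singleton] at h2
  exact h2

/-- `σ A = A` or `-A`; `q = N(β)`: `A ^ (q - 1) = δ ^ ((q - 1) / 2) γ ^ (q - 1)` is congruent to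
`Ψ(β)` modulo `β` (`IsPsi.leg`, and Fermat: `β ∤ γ` as `v A = 1`); `v (2 A) = 1`. -/
lemma frob_A {P : PrI E} {V : ValuationSubring ℂ} (hV : OverP P V)
    (hG : GoodV D U f V) {σ : E ≃ₐ[QI] E} (hσ : IsFrob QI P σ) {β : GaussianInt} (hβ : Prime β)
    (hP : Prim β) (hβV : V.valuation (β : ℂ) < 1) (hN : pn (und QI P) = gN β) {x : E}
    (hx : (x : ℂ) = U.A) : ((σ x : E) : ℂ) = (((U.Ψ β : ℤˣ) : ℤ) : ℂ) * U.A := by
  have hodd : Odd (gN β) := hP.odd
  -- the square of `σ x`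
  have hxx : x ^ 2 = algebraMap QI E ⟨((⟨U.T, 2⟩ : GaussianInt) : ℂ), gauss_mem_QI _⟩ := by
    apply Subtype.ext
    change (x : ℂ) ^ 2 = ((⟨U.T, 2⟩ : GaussianInt) : ℂ)
    rw [hx]
    exact U.A_sq'
  have hσx : ((σ x : E) : ℂ) ^ 2 = U.A ^ 2 := by
    have h1 : (σ x) ^ 2 = x ^ 2 := by
      rw [← map_pow, hxx]
      exact σ.commutes _
    have h2 : ((σ x : E) : ℂ) ^ 2 = (x : ℂ) ^ 2 := congrArg (fun y : E => (y : ℂ)) h1
    rw [h2, hx]
  -- the prime does not divide `δ` and `γ`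
  have hval : V.valuation (U.δ : ℂ) * V.valuation (U.γ : ℂ) ^ 2 = 1 := by
    rw [← map_pow, ← map_mul]
    have h1 : (U.δ : ℂ) * (U.γ : ℂ) ^ 2 = U.A ^ 2 := by
      rw [U.A_sq', U.fac, map_mul, map_pow]
    rw [h1, map_pow, hG.tr, one_pow]
  have hδ : ¬ β ∣ U.δ := by
    intro hd
    have h1 := (val_gauss_lt V hβ hβV U.δ).2 hd
    have h2 : V.valuation (U.δ : ℂ) * V.valuation (U.γ : ℂ) ^ 2 < 1 :=
      mul_lt_one_of_lt_of_le h1 (pow_le_one₀ zero_le (val_gauss V U.γ))
    rw [hval] at h2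
    exact lt_irrefl _ h2
  have hγ : ¬ β ∣ U.γ := by
    intro hd
    have h1 := (val_gauss_lt V hβ hβV U.γ).2 hd
    have h2 : V.valuation (U.δ : ℂ) * V.valuation (U.γ : ℂ) ^ 2 < 1 :=
      (mul_comm _ _).trans_lt
        (mul_lt_one_of_lt_of_le (pow_lt_one₀ zero_le h1 two_ne_zero) (val_gauss V U.δ))
    rw [hval] at h2
    exact lt_irrefl _ h2
  set ψ : ℤ := ((U.Ψ β : ℤˣ) : ℤ) with hψ
  have hψ2 : ψ = 1 ∨ ψ = -1 := by
    rcases Int.units_eq_one_or (U.Ψ β) with h | h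
    · left
      rw [hψ, h]
      rfl
    · right
      rw [hψ, h]
      rfl
  have hleg : V.valuation ((U.δ : ℂ) ^ ((gN β - 1) / 2) - (ψ : ℂ)) < 1 := by
    have h1 := (val_gauss_lt V hβ hβV _).2 (U.psi.leg β hβ hP hδ)
    rw [map_sub, map_pow, map_intCast] at h1
    exact h1
  have hfer : V.valuation ((U.γ : ℂ) ^ (gN β - 1) - 1) < 1 := by
    have h1 := (val_gauss_lt V hβ hβV _).2 (D8d_fermat hβ hγ)
    rw [map_sub, map_pow, map_one] at h1
    exact h1
  have hle' : V.valuation (algebraMap E ℂ x) ≤ 1 := by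
    change V.valuation (x : ℂ) ≤ 1
    rw [hx, hG.tr]
  have h2 := hV.frob hσ hle'
  rw [hN] at h2
  -- the power of `A`
  obtain ⟨m, hm⟩ := hodd
  have hm1 : gN β - 1 = 2 * m := by omega
  have hm2 : (gN β - 1) / 2 = m := by omega
  rw [hm2] at hleg
  rw [hm1] at hfer
  have hA : U.A ^ gN β = U.A * ((U.δ : ℂ) ^ m * (U.γ : ℂ) ^ (2 * m)) := by
    have h1 : U.A ^ 2 = (U.δ : ℂ) * (U.γ : ℂ) ^ 2 := by
      rw [U.A_sq', U.fac, map_mul, map_pow]
    rw [hm, pow_succ, pow_mul, h1, mul_pow, ← pow_mul]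
    ring
  have h3 : V.valuation (((σ x : E) : ℂ) - (ψ : ℂ) * U.A) < 1 := by
    have e : ((σ x : E) : ℂ) - (ψ : ℂ) * U.A = (((σ x : E) : ℂ) - U.A ^ gN β) +
        (U.A * (((U.δ : ℂ) ^ m - (ψ : ℂ)) * (U.γ : ℂ) ^ (2 * m)) +
          U.A * ((ψ : ℂ) * ((U.γ : ℂ) ^ (2 * m) - 1))) := by
      rw [hA]
      ring
    have e1 : algebraMap E ℂ (σ x) = ((σ x : E) : ℂ) := rfl
    have e2 : algebraMap E ℂ x = U.A := hx
    rw [e1, e2] at h2
    rw [e]
    refine lt_of_le_of_lt (Valuation.map_add _ _ _) (max_lt h2 ?_)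
    refine lt_of_le_of_lt (Valuation.map_add _ _ _) (max_lt ?_ ?_)
    · rw [map_mul, map_mul, hG.tr, one_mul, map_pow]
      exact mul_lt_one_of_lt_of_le hleg (pow_le_one₀ zero_le (val_gauss V U.γ))
    · rw [map_mul, map_mul, hG.tr, one_mul]
      have h5 : V.valuation (ψ : ℂ) ≤ 1 := by
        rcases hψ2 with h | h
        · rw [h, Int.cast_one, map_one]
        · rw [h, Int.cast_neg, Int.cast_one, Valuation.map_neg, map_one]
      exact (mul_comm _ _).trans_lt (mul_lt_one_of_lt_of_le hfer h5)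
  -- the end
  have h2A : V.valuation (2 * U.A) = 1 := by
    rw [map_mul, hG.two, hG.tr, one_mul]
  have h4 : ((σ x : E) : ℂ) = U.A ∨ ((σ x : E) : ℂ) = -U.A := sq_eq_sq_iff_eq_or_eq_neg.1 hσx
  rcases hψ2 with h | h <;> rcases h4 with h5 | h5
  · rw [h, h5, Int.cast_one, one_mul]
  · exfalso
    rw [h, h5, Int.cast_one, one_mul] at h3
    have e : -U.A - U.A = -(2 * U.A) := by ring
    rw [e, Valuation.map_neg, h2A] at h3
    exact lt_irrefl _ h3
  · exfalso
    rw [h, h5, Int.cast_neg, Int.cast_one, neg_one_mul] at h3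
    have e : U.A - -U.A = 2 * U.A := by ring
    rw [e, h2A] at h3
    exact lt_irrefl _ h3
  · rw [h, h5, Int.cast_neg, Int.cast_one, neg_one_mul]

/-- Roots of unity of order a power of two are not congruent to `1` if `2` is a unit. -/
lemma D8d_root {V : ValuationSubring ℂ} (h2 : V.valuation (2 : ℂ) = 1) (k : ℕ) :
    ∀ η : ℂ, η ^ (2 ^ k) = 1 → V.valuation (η - 1) < 1 → η = 1 := by
  induction k with
  | zero =>
    intro η h _
    rw [pow_zero, pow_one] at h
    exact h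
  | succ k ih =>
    intro η h hv
    have hη : V.valuation η ≤ 1 := by
      have e : η = (η - 1) + 1 := by ring
      rw [e]
      exact le_trans (Valuation.map_add _ _ _) (max_le hv.le (by rw [map_one]))
    have h1 : V.valuation (η ^ 2 - 1) < 1 := by
      have e : η ^ 2 - 1 = (η - 1) * (η + 1) := by ring
      rw [e, map_mul]
      refine mul_lt_one_of_lt_of_le hv ?_
      exact le_trans (Valuation.map_add _ _ _) (max_le hη (by rw [map_one]))
    have h3 : η ^ 2 = 1 := by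
      apply ih _ _ h1
      rw [← pow_mul, ← pow_succ']
      exact h
    rcases mul_self_eq_one_iff.1 ((pow_two η).symm.trans h3) with h4 | h4
    · exact h4
    · exfalso
      rw [h4] at hv
      have e : (-1 : ℂ) - 1 = -2 := by norm_num
      rw [e, Valuation.map_neg, h2] at hv
      exact lt_irrefl _ hv

/-- `η = σ ζ / ζ ^ q` is a `2 ^ k`-th root of unity with `v (η - 1) < 1`; if `η ≠ 1` then
`η ^ (2 ^ j) = -1` for some `j`, so `v 2 < 1`. -/
lemma frob_z {P : PrI E} {V : ValuationSubring ℂ} (hV : OverP P V)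
    (hG : GoodV D U f V) {σ : E ≃ₐ[QI] E} (hσ : IsFrob QI P σ) {β : GaussianInt}
    (hN : pn (und QI P) = gN β) {x : E} (hx : (x : ℂ) = zk k) :
    ((σ x : E) : ℂ) = zk k ^ gN β := by
  have hz1 : zk k ^ (2 ^ k) = 1 := zk_pow k
  have hz0 : zk k ≠ 0 := by
    intro h
    rw [h, zero_pow (pow_ne_zero k two_ne_zero)] at hz1
    exact zero_ne_one hz1
  have hvz : V.valuation (zk k) = 1 := by
    have h1 : V.valuation (zk k) ^ (2 ^ k) = 1 := by
      rw [← map_pow, hz1, map_one]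
    exact (pow_eq_one_iff_of_nonneg zero_le (pow_ne_zero k two_ne_zero)).1 h1
  have hxx : x ^ (2 ^ k) = 1 := by
    apply Subtype.ext
    change (x : ℂ) ^ (2 ^ k) = 1
    rw [hx]
    exact hz1
  have hσx : ((σ x : E) : ℂ) ^ (2 ^ k) = 1 := by
    have h1 : (σ x) ^ (2 ^ k) = 1 := by
      rw [← map_pow, hxx, map_one]
    exact congrArg (fun y : E => (y : ℂ)) h1
  have hle' : V.valuation (algebraMap E ℂ x) ≤ 1 := by
    change V.valuation (x : ℂ) ≤ 1
    rw [hx, hvz]
  have h2 := hV.frob hσ hle'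
  rw [hN] at h2
  have e1 : algebraMap E ℂ (σ x) = ((σ x : E) : ℂ) := rfl
  have e2 : algebraMap E ℂ x = zk k := hx
  rw [e1, e2] at h2
  have hq0 : zk k ^ gN β ≠ 0 := pow_ne_zero _ hz0
  have h3 : ((σ x : E) : ℂ) / zk k ^ gN β = 1 := by
    apply D8d_root hG.two k
    · rw [div_pow, hσx, ← pow_mul, mul_comm (gN β), pow_mul, hz1, one_pow, div_one]
    · have e : ((σ x : E) : ℂ) / zk k ^ gN β - 1 = (((σ x : E) : ℂ) - zk k ^ gN β) / zk k ^ gN β := by
        rw [sub_div, div_self hq0]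
      rw [e, map_div₀, map_pow, hvz, one_pow, div_one]
      exact h2
  exact (div_eq_one_iff_eq hq0).1 h3

end Pool.Agent.STg
end

section

/-!
# Frobenius elements at good primes
-/

open NumberField IsDedekindDomain Pool.Agent.ST Complex

namespace Pool.Agent.STg

variable {D : LemData} {U : UD} {k : ℕ} {f : GaussianInt} {E : IntermediateField QI ℂ}
  [NumberField E]

lemma D8_odd {π : GaussianInt} (hπ : Prime π) (h2 : ¬ π ∣ 2) : gOdd π := by
  by_contra hodd
  unfold gOdd at hodd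
  rw [Nat.not_odd_iff_even, Nat.even_iff] at hodd
  have h := Q_gN π
  have hpar : (π.re + π.im) % 2 = 0 := by
    rcases Int.even_or_odd' π.re with ⟨a, ha | ha⟩ <;> rcases Int.even_or_odd' π.im with ⟨b, hb | hb⟩
    · omega
    · exfalso
      rw [ha, hb] at h
      have h1 : ((gN π : ℕ) : ℤ) = 2 * (2 * a * a + 2 * b * b + 2 * b) + 1 := by
        rw [h]
        ring
      omega
    · exfalso
      rw [ha, hb] at h
      have h1 : ((gN π : ℕ) : ℤ) = 2 * (2 * a * a + 2 * a + 2 * b * b) + 1 := by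
        rw [h]
        ring
      omega
    · omega
  have hc : π = (⟨1, 1⟩ : GaussianInt) * ⟨(π.re + π.im) / 2, (π.im - π.re) / 2⟩ := by
    ext
    · simp
      omega
    · simp
      omega
  have hdvd : π ∣ (⟨1, 1⟩ : GaussianInt) * ⟨(π.re + π.im) / 2, (π.im - π.re) / 2⟩ := by
    rw [← hc]
  rcases hπ.dvd_or_dvd hdvd with h3 | ⟨d, hd⟩
  · apply h2
    refine h3.trans ⟨⟨1, -1⟩, ?_⟩
    ext
    · simp
    · simp
  · rw [hd] at hc
    have h4 : π * 1 = π * ((⟨1, 1⟩ : GaussianInt) * d) := by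
      calc π * 1 = π := mul_one π
        _ = (⟨1, 1⟩ : GaussianInt) * (π * d) := hc
        _ = π * ((⟨1, 1⟩ : GaussianInt) * d) := by ring
    have h5 := mul_left_cancel₀ hπ.ne_zero h4
    have h6 := congrArg gN h5
    rw [gN_mul, gN_one] at h6
    have h7 : gN (⟨1, 1⟩ : GaussianInt) = 2 := by
      unfold gN
      rw [Q_norm]
      rfl
    rw [h7] at h6
    omega

/-- Combine: `π` from `exists_prime_pn`, odd since `v 2 = 1`, `β` its primary associate. -/
theorem frob_propG (hf : f ≠ 0) {P : PrI E} {V : ValuationSubring ℂ}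
    (hV : OverP P V) (hG : GoodV D U f V) {σ : E ≃ₐ[QI] E} (hσ : IsFrob QI P σ) :
    PropG D U k f σ := by
  obtain ⟨π, hπ, hpn, hdvd⟩ := exists_prime_pn (und QI P)
  have hval : ∀ a : GaussianInt, V.valuation (a : ℂ) < 1 ↔ π ∣ a := fun a =>
    (hV.gauss a).trans (hdvd a)
  have h2 : ¬ π ∣ 2 := by
    intro h
    have h1 := (hval 2).2 h
    have h3 : ((2 : GaussianInt) : ℂ) = 2 := map_ofNat GaussianInt.toComplex 2
    rw [h3, hG.two] at h1
    exact lt_irrefl _ h1
  obtain ⟨u, hu, hP⟩ := exists_prim_assoc (D8_odd hπ h2)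
  have hβ : Prime (u * π) := (associated_unit_mul_right π u hu).prime_iff.1 hπ
  have hβV : V.valuation ((u * π : GaussianInt) : ℂ) < 1 := (hval _).2 (Dvd.intro_left u rfl)
  have hgu : gN u = 1 := by
    obtain ⟨w, hw⟩ := hu.exists_right_inv
    have h1 := congrArg gN hw
    rw [gN_mul, gN_one] at h1
    exact Nat.eq_one_of_mul_eq_one_right h1
  have hN : pn (und QI P) = gN (u * π) := by
    rw [gN_mul, hgu, one_mul, hpn]
  have hcop : IsCoprime (u * π) f := by
    rw [Irreducible.coprime_iff_not_dvd hβ.irreducible]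
    intro h
    have h1 := (hval f).2 ((Dvd.intro_left u rfl).trans h)
    rw [hG.vf] at h1
    exact lt_irrefl _ h1
  exact ⟨u * π, hP, hcop, fun w hw hfw x hx => frob_X hf hV hG hσ hβ hP hβV hN hw hfw hx,
    fun x hx => frob_A hV hG hσ hβ hP hβV hN hx, fun x hx => frob_z hV hG hσ hN hx⟩

end Pool.Agent.STg
end
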