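import Pool.Agent.Lib.MP_1ef7cf_nt_g.Mg.G036
import Pool.Agent.Lib.MP_1ef7cf_nt_g.Mg.G038
import Pool.Agent.Lib.MP_1ef7cf_nt_g.Mg.G034
import Pool.Agent.Lib.MP_1ef7cf_nt_g.Mg.G029
import Pool.Agent.Lib.MP_1ef7cf_nt_g.Mg.G049
import Pool.Agent.Lib.MP_1ef7cf_nt_g.Mg.G046

section

/-!
# The action of the automorphisms on the torsion values of `X`
-/

open NumberField IsDedekindDomain Pool.Agent.ST Complex

namespace Pool.Agent.STg

variable {D : LemData} {U : UD} {k : ℕ} {f : GaussianInt}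

lemma D9_psi_one (U : UD) : U.Ψ 1 = 1 := by
  have h := U.psi.mul 1 1 prim_one prim_one isCoprime_one_left isCoprime_one_left
  rw [one_mul] at h
  exact (mul_eq_left.1 h.symm)

lemma propG_one {E : IntermediateField QI ℂ} : PropG D U k f (1 : E ≃ₐ[QI] E) := by
  refine ⟨1, prim_one, isCoprime_one_left, ?_, ?_, ?_⟩
  · intro w _ _ x hx
    rw [map_one, one_mul]
    exact hx
  · intro x hx
    rw [D9_psi_one, Units.val_one, Int.cast_one, one_mul]
    exact hx
  · intro x hx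
    rw [gN_one, pow_one]
    exact hx

/-- composition: `β` is multiplied. -/
lemma PropG.mul (hδ : U.δ ∣ f) {E : IntermediateField QI ℂ}
    (hC : Cont D U k f E) {σ τ : E ≃ₐ[QI] E}
    (hσ : PropG D U k f σ) (hτ : PropG D U k f τ) : PropG D U k f (σ * τ) := by
  obtain ⟨a, ha, haf, hX, hA, hz⟩ := hσ
  obtain ⟨b, hb, hbf, hX', hA', hz'⟩ := hτ
  have haδ : IsCoprime a U.δ := haf.of_isCoprime_of_dvd_right hδ
  have hbδ : IsCoprime b U.δ := hbf.of_isCoprime_of_dvd_right hδ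
  refine ⟨a * b, ha.mul hb, haf.mul_left hbf, ?_, ?_, ?_⟩
  · intro w hw hfw x hx
    have hbw : (b : ℂ) * w ∉ Lam := by
      intro h
      obtain ⟨c, d, hcd⟩ := hbf
      apply hw
      have h1 : w = (c : ℂ) * ((b : ℂ) * w) + (d : ℂ) * ((f : ℂ) * w) := by
        have h2 : ((c * b + d * f : GaussianInt) : ℂ) = 1 := by
          rw [hcd]
          exact map_one GaussianInt.toComplex
        rw [map_add, map_mul, map_mul] at h2
        calc w = 1 * w := (one_mul w).symm
          _ = ((c : ℂ) * (b : ℂ) + (d : ℂ) * (f : ℂ)) * w := by rw [h2]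
          _ = _ := by ring
      rw [h1]
      exact Lam_add (Lam_mul c h) (Lam_mul d hfw)
    have hfb : (f : ℂ) * ((b : ℂ) * w) ∈ Lam := by
      have : (f : ℂ) * ((b : ℂ) * w) = (b : ℂ) * ((f : ℂ) * w) := by ring
      rw [this]
      exact Lam_mul b hfw
    have h1 := hX ((b : ℂ) * w) hbw hfb (τ x) (hX' w hw hfw x hx)
    rw [AlgEquiv.mul_apply, h1, map_mul, mul_assoc]
  · intro x hx
    have h1 : τ x = (((U.Ψ b : ℤˣ) : ℤ) : E) * x := by
      apply Subtype.ext
      rw [hA' x hx]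
      change _ = ((((((U.Ψ b : ℤˣ) : ℤ) : E) : E) : ℂ)) * (x : ℂ)
      rw [hx]
      congr 1
    rw [AlgEquiv.mul_apply, h1, map_mul, map_intCast]
    change ((((((U.Ψ b : ℤˣ) : ℤ) : E) : E) : ℂ)) * ((σ x : E) : ℂ) = _
    rw [hA x hx, U.psi.mul a b ha hb haδ hbδ, Units.val_mul, Int.cast_mul]
    have h2 : ((((((U.Ψ b : ℤˣ) : ℤ) : E) : E) : ℂ)) = (((U.Ψ b : ℤˣ) : ℤ) : ℂ) := rfl
    rw [h2]
    ring
  · intro x hx
    have h1 : τ x = x ^ gN b := by
      apply Subtype.ext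
      rw [hz' x hx]
      change _ = (x : ℂ) ^ gN b
      rw [hx]
    rw [AlgEquiv.mul_apply, h1, map_pow]
    change ((σ x : E) : ℂ) ^ gN b = _
    rw [hz x hx, gN_mul, pow_mul]

lemma D9_pow (hδ : U.δ ∣ f) {E : IntermediateField QI ℂ}
    (hC : Cont D U k f E) {σ : E ≃ₐ[QI] E} (hσ : PropG D U k f σ) (n : ℕ) :
    PropG D U k f (σ ^ n) := by
  induction n with
  | zero =>
    rw [pow_zero]
    exact propG_one
  | succ n ih =>
    rw [pow_succ]
    exact PropG.mul hδ hC ih hσ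

/-- All automorphisms have the property: they form a subgroup (finite group), which contains the Frobenius
elements outside a finite set: `frob_gen'`, `frob_propG`, `finite_notGood`, `exists_overP`. -/
theorem propG_all (hf : f ≠ 0) (hδ : U.δ ∣ f) {E : IntermediateField QI ℂ}
    [FiniteDimensional QI E] [IsGalois QI E] (hC : Cont D U k f E) (σ : E ≃ₐ[QI] E) :
    PropG D U k f σ := by
  have hnf : NumberField E := numberField_E E
  have hfin : Finite (E ≃ₐ[QI] E) := inferInstance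
  let T : Subgroup (E ≃ₐ[QI] E) :=
    { carrier := {τ | PropG D U k f τ}
      mul_mem' := fun {a b} ha hb => PropG.mul hδ hC ha hb
      one_mem' := propG_one
      inv_mem' := by
        intro a ha
        have h1 : a⁻¹ = a ^ (orderOf a - 1) := by
          apply inv_eq_of_mul_eq_one_left
          rw [← pow_succ, Nat.sub_add_cancel (orderOf_pos a), pow_orderOf_eq_one]
        change PropG D U k f a⁻¹
        rw [h1]
        exact D9_pow hδ hC ha _ }
  have hT : T = ⊤ := by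
    apply frob_gen' T ((und QI) '' {P : PrI E | ¬ ∀ V, OverP P V → GoodV D U f V})
      ((finite_notGood hf hC).image _)
    intro P hP τ hτ
    have hgood : ∀ V, OverP P V → GoodV D U f V := by
      by_contra hcon
      exact hP ⟨P, hcon, rfl⟩
    obtain ⟨V, hV⟩ := exists_overP P
    exact frob_propG hf hV (hgood V hV) hτ
  have h1 : σ ∈ T := by
    rw [hT]
    exact Subgroup.mem_top σ
  exact h1

/-- **The action of the automorphisms of the algebraic numbers fixing `i`.** Restrict `h` to the field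
`E` of `exists_cont` (normal over `ℚ(i)`). -/
theorem D_main (D : LemData) (U : UD) (k : ℕ) {f : GaussianInt} (hf : f ≠ 0) (hδ : U.δ ∣ f)
    (h : Qb →+* ℂ) (hI : ap h I = I) : ∃ β : GaussianInt, Prim β ∧ IsCoprime β f ∧
      (∀ w : ℂ, w ∉ Lam → (f : ℂ) * w ∈ Lam → ap h (D.X w) = D.X (β * w)) ∧
      ap h U.A = (((U.Ψ β : ℤˣ) : ℤ) : ℂ) * U.A ∧ ap h (zk k) = zk k ^ gN β := by
  obtain ⟨E, hfd, hgal, hC⟩ := exists_cont D U k hf
  -- `E ⊆ Qb`
  have hEQ : ∀ x : E, (x : ℂ) ∈ Qb := by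
    intro x
    have h1 : IsIntegral QI (x : ℂ) := by
      have h2 : IsIntegral QI x := Algebra.IsIntegral.isIntegral x
      exact h2.map E.val
    have halg : Algebra.IsIntegral ℚ QI := inferInstance
    have h3 : IsIntegral ℚ (x : ℂ) := isIntegral_trans (x : ℂ) h1
    exact mem_algebraicClosure_iff.2 h3.isAlgebraic
  let φ : E →ₐ[QI] ℂ :=
    { toFun := fun x => h ⟨x, hEQ x⟩
      map_one' := map_one h
      map_mul' := fun x y => map_mul h ⟨x, hEQ x⟩ ⟨y, hEQ y⟩
      map_zero' := map_zero h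
      map_add' := fun x y => map_add h ⟨x, hEQ x⟩ ⟨y, hEQ y⟩
      commutes' := by
        intro r
        have h1 := ap_QI h hI r.2
        have h2 : (r : ℂ) ∈ Qb := hEQ (algebraMap QI E r)
        rw [ap_of_mem h h2] at h1
        exact h1 }
  have hφ : ∀ x : E, φ x = ap h (x : ℂ) := fun x => (ap_of_mem h (hEQ x)).symm
  have hmem : ∀ x : E, φ x ∈ E.toSubalgebra := by
    intro x
    have h1 : φ.fieldRange = E := AlgHom.fieldRange_of_normal φ
    have h2 : φ x ∈ φ.fieldRange := ⟨x, rfl⟩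
    rw [h1] at h2
    exact h2
  let ψ : E →ₐ[QI] E := AlgHom.codRestrict φ E.toSubalgebra hmem
  have hbij : Function.Bijective ψ := Algebra.IsAlgebraic.algHom_bijective ψ
  let σ : E ≃ₐ[QI] E := AlgEquiv.ofBijective ψ hbij
  have hσ : ∀ x : E, ((σ x : E) : ℂ) = ap h (x : ℂ) := fun x => hφ x
  obtain ⟨β, hP, hβf, hX, hA, hz⟩ := propG_all hf hδ hC σ
  refine ⟨β, hP, hβf, ?_, ?_, ?_⟩
  · intro w hw hfw
    have h1 := hX w hw hfw ⟨D.X w, hC.X w hw hfw⟩ rfl
    rw [hσ] at h1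
    exact h1
  · have h1 := hA ⟨U.A, hC.A⟩ rfl
    rw [hσ] at h1
    exact h1
  · have h1 := hz ⟨zk k, hC.z⟩ rfl
    rw [hσ] at h1
    exact h1

end Pool.Agent.STg
end

section

/-!
# The action of the automorphisms on the elliptic units
-/

open Complex

namespace Pool.Agent.STg

variable (D : LemData) (U : UD)

lemma V2_ap_inj (h : Qb →+* ℂ) {x y : ℂ} (hx : x ∈ Qb) (hy : y ∈ Qb)
    (hxy : ap h x = ap h y) : x = y := by
  have h1 : ap h (x - y) = 0 := by
    rw [ap_sub h hx hy, hxy, sub_self]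
  exact sub_eq_zero.mp ((ap_eq_zero h (sub_mem hx hy)).mp h1)

lemma V2_prim (k : ℕ) : IsPrimitiveRoot (zk k) (2 ^ k) := by
  have h := Complex.isPrimitiveRoot_exp (2 ^ k) (by positivity)
  unfold zk
  push_cast at h
  exact h

/-- if `β u`, `α u` are in the lattice, `α`, `β` coprime, then `u` is in the lattice -/
lemma V2_mem_Lam {α β : GaussianInt} (h : IsCoprime β α) {u : ℂ} (hα : (α : ℂ) * u ∈ Lam)
    (hβ : (β : ℂ) * u ∈ Lam) : u ∈ Lam := by
  obtain ⟨x, y, hxy⟩ := h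
  have h1 := Lam_add (Lam_mul x hβ) (Lam_mul y hα)
  have h2 : (x : ℂ) * ((β : ℂ) * u) + (y : ℂ) * ((α : ℂ) * u) = u := by
    have h3 := congrArg (fun z : GaussianInt => (z : ℂ)) hxy
    simp only [GaussianInt.toComplex_add, GaussianInt.toComplex_mul,
      GaussianInt.toComplex_one] at h3
    linear_combination u * h3
  rwa [h2] at h1

/-- `h (∏_t (X (a / f) - t)) = ∏_t (X (β a / f) - h t)`, and `h` permutes the `t`: `h (X u) = X (β u)`,
`β` prime to `α`. (`h` acts on `f α`-torsion points by `β`.) -/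
lemma ap_th {α f a β : GaussianInt} (hα0 : α ≠ 0) (hf : ¬ IsUnit f) (hf0 : f ≠ 0)
    (ha : IsCoprime a f) (h : Qb →+* ℂ) (hβ : IsCoprime β (f * α))
    (hX : ∀ w : ℂ, w ∉ Lam → ((f * α : GaussianInt) : ℂ) * w ∈ Lam →
      ap h (D.X w) = D.X (β * w)) : ap h (th D α f a) = th D α f (β * a) := by
  classical
  have hXm := X_div_mem_Qb D hf hf0 ha
  have htm : ∀ t ∈ TFin D.X α, t ∈ Qb := fun t ht => t_mem_Qb D hα0 ht
  have hfc := V1a_cast_ne hf0
  have hX1 : ap h (D.X ((a : ℂ) / (f : ℂ))) = D.X (((β * a : GaussianInt) : ℂ) / (f : ℂ)) := by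
    rw [hX _ (div_notMem hf hf0 ha) ?_, GaussianInt.toComplex_mul, mul_div_assoc]
    refine ⟨α * a, ?_⟩
    simp only [GaussianInt.toComplex_mul]
    field_simp
  have hmap : ∀ t ∈ TFin D.X α, ap h t ∈ TFin D.X α := by
    intro t ht
    rw [D.mem_TFin hα0] at ht ⊢
    obtain ⟨u, hu, hαu, rfl⟩ := ht
    refine ⟨β * u, ?_, ?_, ?_⟩
    · intro hβu
      exact hu (V2_mem_Lam hβ.of_mul_right_right hαu hβu)
    · have h1 := Lam_mul β hαu
      have h2 : (β : ℂ) * ((α : ℂ) * u) = (α : ℂ) * ((β : ℂ) * u) := by ring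
      rwa [h2] at h1
    · rw [hX u hu]
      have h1 := Lam_mul f hαu
      rw [GaussianInt.toComplex_mul, mul_assoc]
      exact h1
  have hinj : Set.InjOn (ap h) (TFin D.X α : Set ℂ) := by
    intro x hx y hy hxy
    exact V2_ap_inj h (htm x hx) (htm y hy) hxy
  have himg : (TFin D.X α).image (ap h) = TFin D.X α := by
    refine Finset.eq_of_subset_of_card_le (Finset.image_subset_iff.mpr hmap) ?_
    rw [Finset.card_image_of_injOn hinj]
  unfold th
  rw [ap_prod h (TFin D.X α) (fun t => D.X ((a : ℂ) / (f : ℂ)) - t)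
    (fun t ht => sub_mem hXm (htm t ht))]
  have h3 : ∀ t ∈ TFin D.X α, ap h (D.X ((a : ℂ) / (f : ℂ)) - t) =
      D.X (((β * a : GaussianInt) : ℂ) / (f : ℂ)) - ap h t := by
    intro t ht
    rw [ap_sub h hXm (htm t ht), hX1]
  rw [Finset.prod_congr rfl h3]
  conv_rhs => rw [← himg]
  rw [Finset.prod_image hinj]

/-- `h (vv g) = vv (sM β g)`: `ap_th` and `prod_translate`. -/
lemma ap_vv' {k J : ℕ} (hJ : k + 4 ≤ J) {α β : GaussianInt} (hα : Prim α)
    (hαδ : IsCoprime α U.δ) (hP : Prim β) (h : Qb →+* ℂ) (hβ : IsCoprime β (U.f J * α))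
    (hX : ∀ w : ℂ, w ∉ Lam → ((U.f J * α : GaussianInt) : ℂ) * w ∈ Lam →
      ap h (D.X w) = D.X (β * w)) (g : Gam k) :
    ap h (vv D U k J α g) = vv D U k J α (sM U k β * g) := by
  classical
  have hf0 := U.f_ne_zero J
  have hfu := U.f_not_unit (J := J) (by omega)
  have hα0 : α ≠ 0 := hα.odd.ne_zero
  have hβδ : IsCoprime β U.δ := U.coprime_δ (J := J) hβ.of_mul_right_left
  have hmem : ∀ a ∈ PR (U.f J), IsCoprime a (U.f J) := fun a ha => ((isPR_PR hf0).1 a ha).2
  have hQ : ∀ (g' : Gam k), ∀ a ∈ PR (U.f J),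
      (if sM U k a = g' then th D α (U.f J) a else 1) ∈ Qb := by
    intro g' a ha
    split_ifs
    · exact th_mem_Qb D hα0 hfu hf0 (hmem a ha)
    · exact one_mem _
  have h1 : ∀ g' : Gam k,
      ap h (∏ a ∈ PR (U.f J), if sM U k a = g' then th D α (U.f J) a else 1) =
        ∏ a ∈ PR (U.f J), if sM U k a = sM U k β * g' then th D α (U.f J) a else 1 := by
    intro g'
    rw [ap_prod h (PR (U.f J)) (fun a => if sM U k a = g' then th D α (U.f J) a else 1) (hQ g'),
      prod_translate U hJ hP hβδ (fun a => th D α (U.f J) a)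
        (fun a b _ _ hab => th_per D hf0 hab) g']
    refine Finset.prod_congr rfl (fun a ha => ?_)
    split_ifs
    · exact ap_th D hα0 hfu hf0 (hmem a ha) h hβ hX
    · exact ap_one h
  unfold vv
  rw [ap_div h (prod_mem (hQ g)) (prod_mem (hQ (zc k * g))), h1, h1,
    mul_left_comm (sM U k β) (zc k) g]

/-- **The Galois action on the elliptic units** in terms of the coordinates of `h`: combine `D_main`
(for `f α`) and `ap_vv'`; `h A = s A` gives `s = Ψ(β)` (`A ≠ 0`), `h ζ = ζ ^ n` gives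
`N(β) = n` modulo `2 ^ k`. -/
theorem ap_vv {k J : ℕ} (hJ : k + 4 ≤ J) {α : GaussianInt} (hα : Prim α)
    (hαδ : IsCoprime α U.δ) (h : Qb →+* ℂ) (hI : ap h I = I) {s : ℤˣ} {n : ℕ} (hn : Odd n)
    (hA : ap h U.A = ((s : ℤ) : ℂ) * U.A) (hz : ap h (zk k) = zk k ^ n) (g : Gam k) :
    ap h (vv D U k J α g) = vv D U k J α ((s, nu k n) * g) := by
  have hf0 := U.f_ne_zero J
  have hα0 : α ≠ 0 := hα.odd.ne_zero
  obtain ⟨β, hP, hβ, hX, hA', hz'⟩ := D_main D U k (f := U.f J * α) (mul_ne_zero hf0 hα0)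
    ((U.δ_dvd J).mul_right α) h hI
  have h1 := ap_vv' D U hJ hα hαδ hP h hβ hX g
  have hs : s = U.Ψ β := by
    rw [hA] at hA'
    have h2 := mul_right_cancel₀ U.A_ne_zero hA'
    apply Units.ext
    exact_mod_cast h2
  have hnu : nu k n = nu k (gN β) := by
    rw [hz] at hz'
    refine nu_eq_of_mod hn hP.odd ?_
    have h3 := ((V2_prim k).isOfFinOrder (pow_ne_zero k two_ne_zero)).pow_eq_pow_iff_modEq.mp hz'
    rwa [← (V2_prim k).eq_orderOf] at h3
  rw [h1]
  unfold sM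
  rw [hs, hnu]

end Pool.Agent.STg
end
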