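import Pool.Agent.Lib.MP_1ef7cf_nt_g.Mg.G027
import Pool.Agent.Lib.MP_1ef7cf_nt_g.Mg.G025
import Pool.Agent.Lib.MP_1ef7cf_nt_g.Mg.G021
import Pool.Agent.Lib.MP_1ef7cf_nt_g.Mg.G019

section

set_option autoImplicit false

open NumberField IsDedekindDomain nonZeroDivisors IntermediateField

namespace Pool.Agent.STg.F

open Pool.Agent.ST

variable {K : Type*} [Field K] [NumberField K] [Algebra K ℝ] {σ₂ : K →+* ℝ} {e : (𝓞 K)ˣ}

private lemma F18_inj (H : IntermediateField K ℝ) {a b : 𝓞 H} (h : ((a : H) : ℝ) = ((b : H) : ℝ)) :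
    a = b := RingOfIntegers.ext (Subtype.ext h)

private lemma F18_mem2 (H : IntermediateField K ℝ) (v : HeightOneSpectrum (𝓞 K))
    (h2 : (2 : 𝓞 K) ∉ v.asIdeal) (P : Ideal (𝓞 H)) (hP : P.under (𝓞 K) = v.asIdeal) :
    (2 : 𝓞 H) ∉ P := by
  intro h
  apply h2
  rw [← hP]
  change algebraMap (𝓞 K) (𝓞 H) 2 ∈ P
  rwa [map_ofNat]

private lemma F18_dickson (H : IntermediateField K ℝ) (n : ℕ) (y z : 𝓞 H) (θ : ℝ)
    (hy : ((y : H) : ℝ) = 2 * Real.cos θ) (hz : ((z : H) : ℝ) = 2 * Real.cos (n * θ)) :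
    z = (Polynomial.dickson 1 (1 : 𝓞 H) n).eval y := by
  apply F18_inj
  obtain ⟨f, hf⟩ : ∃ f : 𝓞 H →+* ℝ, ∀ x, f x = ((x : H) : ℝ) :=
    ⟨(algebraMap H ℝ).comp (algebraMap (𝓞 H) H), fun x => rfl⟩
  rw [hz, ← dickson_cos, ← hy, ← hf, ← hf, ← Polynomial.eval_map_apply, Polynomial.map_dickson, map_one]

private lemma F18_case (H : IntermediateField K ℝ)
    (v : HeightOneSpectrum (𝓞 K)) (h2 : (2 : 𝓞 K) ∉ v.asIdeal) (P : Ideal (𝓞 H)) [P.IsPrime]
    (hP : P.under (𝓞 K) = v.asIdeal) (φ : H ≃ₐ[K] H) (θ : ℝ)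
    (y z : 𝓞 H) (hφ : φ • y - y ^ Ideal.absNorm v.asIdeal ∈ P)
    (hy : ((y : H) : ℝ) = 2 * Real.cos θ)
    (hz : ((z : H) : ℝ) = 2 * Real.cos ((Ideal.absNorm v.asIdeal : ℕ) * θ))
    (hd : y ∣ 2) (hyz : φ • y = -z) : False := by
  have hP2 := F18_mem2 H v h2 P hP
  obtain ⟨p, f, hp, hf, hN, hpv⟩ := absNorm_pow v
  have hz2 := F18_dickson H _ y z θ hy hz
  have hdk := dickson_pow hp f y
  rw [← hN, ← hz2] at hdk
  have hpP : (p : 𝓞 H) ∈ P := by
    have h3 : algebraMap (𝓞 K) (𝓞 H) (p : 𝓞 K) ∈ P := by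
      rw [← hP] at hpv
      exact hpv
    rwa [map_natCast] at h3
  have h4 : z - y ^ Ideal.absNorm v.asIdeal ∈ P := P.mem_of_dvd hdk hpP
  have h5 : (2 : 𝓞 H) * z ∈ P := by
    have h6 := P.sub_mem h4 hφ
    have h7 : z - y ^ Ideal.absNorm v.asIdeal - (φ • y - y ^ Ideal.absNorm v.asIdeal) = 2 * z := by
      rw [hyz]; ring
    rwa [h7] at h6
  rcases (inferInstance : P.IsPrime).mem_or_mem h5 with h | h
  · exact hP2 h
  · have h8 : φ • y ∈ P := by rw [hyz]; exact P.neg_mem h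
    obtain ⟨c, hc⟩ := hd
    apply hP2
    have h9 : (2 : 𝓞 H) = φ • y * φ • c := by
      rw [← smul_mul', ← hc]
      apply F18_inj
      have : (((φ • (2 : 𝓞 H) : 𝓞 H) : H) : ℝ) = ((φ (2 : H) : H) : ℝ) := rfl
      rw [this, map_ofNat]
      rfl
    rw [h9]
    exact P.mul_mem_right _ h8

/-- TASK F18 (Frobenius automorphisms on `cos (2 π / 2 ^ k)`). -/
theorem frob_cos (H : IntermediateField K ℝ) {k : ℕ} (hk : Real.cos (2 * Real.pi / 2 ^ k) ∈ H)
    (v : HeightOneSpectrum (𝓞 K)) (h2 : (2 : 𝓞 K) ∉ v.asIdeal) (P : Ideal (𝓞 H)) [P.IsPrime]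
    (hP : P.under (𝓞 K) = v.asIdeal) (φ : H ≃ₐ[K] H)
    (hφ : ∀ x : 𝓞 H, φ • x - x ^ Ideal.absNorm v.asIdeal ∈ P) :
    act φ (Real.cos (2 * Real.pi / 2 ^ k)) =
      Real.cos (2 * Real.pi * (Ideal.absNorm v.asIdeal : ℕ) / 2 ^ k) := by
  obtain ⟨N, hNdef⟩ : ∃ N, N = Ideal.absNorm v.asIdeal := ⟨_, rfl⟩
  have hodd : Odd N := by rw [hNdef]; exact odd_absNorm v h2
  obtain ⟨j, hj⟩ := hodd
  rw [← hNdef]
  have hc1 : act φ (1 : ℝ) = 1 := act_one_right φ
  have hc2 : act φ (-1 : ℝ) = -1 := act_neg_one φ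
  have hc0 : act φ (0 : ℝ) = 0 := by
    have h3 := act_algebraMap φ (0 : K)
    rwa [map_zero] at h3
  induction k with
  | zero =>
    rw [pow_zero, div_one, div_one, Real.cos_two_pi, hc1,
      show 2 * Real.pi * (N : ℝ) = N * (2 * Real.pi) by ring, Real.cos_nat_mul_two_pi]
  | succ k ih =>
    have ih := ih (cos_mem_of_le H (Nat.le_succ k) hk)
    rcases Nat.lt_or_ge k 2 with hk2 | hk2
    · interval_cases k
      · have h3 : Real.cos (2 * Real.pi / 2 ^ (0 + 1)) = -1 := by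
          rw [show 2 * Real.pi / 2 ^ (0 + 1) = Real.pi by ring, Real.cos_pi]
        have h4 : Real.cos (2 * Real.pi * (N : ℝ) / 2 ^ (0 + 1)) = -1 := by
          rw [hj, show 2 * Real.pi * ((2 * j + 1 : ℕ) : ℝ) / 2 ^ (0 + 1) =
            j * (2 * Real.pi) + Real.pi by push_cast; ring, Real.cos_nat_mul_two_pi_add_pi]
        rw [h3, h4, hc2]
      · have h3 : Real.cos (2 * Real.pi / 2 ^ (1 + 1)) = 0 := by
          rw [show 2 * Real.pi / 2 ^ (1 + 1) = Real.pi / 2 by ring, Real.cos_pi_div_two]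
        have h4 : Real.cos (2 * Real.pi * (N : ℝ) / 2 ^ (1 + 1)) = 0 := by
          rw [Real.cos_eq_zero_iff]
          refine ⟨j, ?_⟩
          rw [hj]
          push_cast
          ring
        rw [h3, h4, hc0]
    · obtain ⟨y, hy⟩ := exists_y H hk 1
      rw [Nat.cast_one, mul_one] at hy
      obtain ⟨z, hz⟩ := exists_y H hk N
      have hcase := F18_case H v h2 P hP φ (2 * Real.pi / 2 ^ (k + 1)) y z (hφ y) hy (by
        rw [hz, hNdef]
        congr 2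
        ring) (y_dvd_two H (by omega) hk y hy)
      -- squares
      have hk' := cos_mem_of_le H (Nat.le_succ k) hk
      have hsq : (φ • y) ^ 2 = z ^ 2 := by
        apply F18_inj
        have h5 : ((((φ • y) ^ 2 : 𝓞 H) : H) : ℝ) = (act φ ((y : H) : ℝ)) ^ 2 := by
          rw [act_coe]; rfl
        have h6 : (((z ^ 2 : 𝓞 H) : H) : ℝ) = ((z : H) : ℝ) ^ 2 := rfl
        have h2m : (2 : ℝ) ∈ H := by exact_mod_cast H.natCast_mem 2
        have h7 : (2 * Real.cos (2 * Real.pi / 2 ^ (k + 1))) ^ 2 =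
            2 + 2 * Real.cos (2 * Real.pi / 2 ^ k) := by
          rw [show 2 * Real.pi / 2 ^ k = 2 * (2 * Real.pi / 2 ^ (k + 1)) by
            rw [pow_succ]; field_simp, Real.cos_two_mul]
          ring
        have h8 : (2 * Real.cos (2 * Real.pi * N / 2 ^ (k + 1))) ^ 2 =
            2 + 2 * Real.cos (2 * Real.pi * N / 2 ^ k) := by
          rw [show 2 * Real.pi * N / 2 ^ k = 2 * (2 * Real.pi * N / 2 ^ (k + 1)) by
            rw [pow_succ]; field_simp, Real.cos_two_mul]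
          ring
        have h9 : act φ (2 : ℝ) = 2 := by
          have h3 := act_algebraMap φ (2 : K)
          rwa [map_ofNat] at h3
        rw [h5, h6, hy, hz, h8, ← act_pow φ (H.mul_mem h2m hk), h7,
          act_add φ h2m (H.mul_mem h2m hk'), act_mul φ h2m hk', h9, ih]
      rcases sq_eq_sq_iff_eq_or_eq_neg.1 hsq with h | h
      · have h2m : (2 : ℝ) ∈ H := by exact_mod_cast H.natCast_mem 2
        have h5 : (((φ • y : 𝓞 H) : H) : ℝ) = act φ ((y : H) : ℝ) := by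
          rw [act_coe]; rfl
        have h9 : act φ (2 : ℝ) = 2 := by
          have h3 := act_algebraMap φ (2 : K)
          rwa [map_ofNat] at h3
        rw [h, hy, hz, act_mul φ h2m hk, h9] at h5
        linarith
      · exact (hcase h).elim

end Pool.Agent.STg.F
end

section

set_option autoImplicit false

open NumberField IsDedekindDomain nonZeroDivisors IntermediateField

namespace Pool.Agent.STg.F

open Pool.Agent.ST

variable {K : Type*} [Field K] [NumberField K] [Algebra K ℝ] {σ₂ : K →+* ℝ} {e : (𝓞 K)ˣ}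

/-- TASK F05 (the symbol of an ideal modulo which `e` is congruent to an integer).
PROOF. `ideal_induction` (F04) with `m = span {2}` for the property `p I := (e - e₀ ∈ I → chiI e I = jacobiSym e₀ (absNorm I))`.
`I = ⊤`: `chiI_top`, `absNorm ⊤ = 1`, `jacobiSym.one_right`. Step `v * I`: `e - e₀ ∈ v * I ≤ v` and `≤ I` (`Ideal.mul_le_left`, `Ideal.mul_le_right`),
`chiI_mul` (`v.ne_bot`), `chiI_prime`, `chiP_int` (F03; `2 ∉ v` because otherwise `v ∣ span {2}` by `Ideal.dvd_span_singleton`),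
`map_mul absNorm`, `jacobiSym.mul_right` (`absNorm ≠ 0`: `Ideal.absNorm_eq_zero_iff`). -/
theorem chiI_int (e : (𝓞 K)ˣ) {I : Ideal (𝓞 K)} (hI : I ≠ ⊥)
    (h2 : IsCoprime I (Ideal.span {(2 : 𝓞 K)})) (e₀ : ℤ)
    (h : (e : 𝓞 K) - (e₀ : 𝓞 K) ∈ I) : chiI e I = jacobiSym e₀ (Ideal.absNorm I) := by
  revert h
  refine ideal_induction (m := Ideal.span {(2 : 𝓞 K)})
    (p := fun I => (e : 𝓞 K) - (e₀ : 𝓞 K) ∈ I → chiI e I = jacobiSym e₀ (Ideal.absNorm I))
    ?_ ?_ I hI h2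
  · intro _
    have ht : Ideal.absNorm (⊤ : Ideal (𝓞 K)) = 1 := Ideal.absNorm_top
    rw [chiI_top e, ht]
    exact (jacobiSym.one_right e₀).symm
  · intro v J hv hJ hco ih hmem
    have h1 : (e : 𝓞 K) - (e₀ : 𝓞 K) ∈ v.asIdeal := (Ideal.mul_le_left (I := v.asIdeal) (J := J)) hmem
    have h3 : (e : 𝓞 K) - (e₀ : 𝓞 K) ∈ J := (Ideal.mul_le_right (I := v.asIdeal) (J := J)) hmem
    have h4 : (2 : 𝓞 K) ∉ v.asIdeal := by
      intro h
      apply hv
      rw [Ideal.dvd_iff_le, Ideal.span_singleton_le_iff_mem]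
      exact h
    have h5 : Ideal.absNorm v.asIdeal ≠ 0 := by
      rw [Ne, Ideal.absNorm_eq_zero_iff]; exact v.ne_bot
    have h6 : Ideal.absNorm J ≠ 0 := by
      rw [Ne, Ideal.absNorm_eq_zero_iff]; exact hJ
    have h7 : Ideal.absNorm (v.asIdeal * J) = Ideal.absNorm v.asIdeal * Ideal.absNorm J :=
      map_mul Ideal.absNorm _ _
    rw [chiI_mul e v.ne_bot hJ, chiI_prime, chiP_int e v h4 e₀ h1, ih h3, h7]
    haveI : NeZero (Ideal.absNorm v.asIdeal) := ⟨h5⟩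
    haveI : NeZero (Ideal.absNorm J) := ⟨h6⟩
    exact (jacobiSym.mul_right e₀ _ _).symm

end Pool.Agent.STg.F
end
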