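import Mathlib

section

set_option autoImplicit false

namespace Pool.Agent.STg.F

open scoped NumberTheorySymbols in
theorem F06_recA {m n : ℕ} (hm : Odd m) (hn : n % 4 = 3) :
    jacobiSym m n = ZMod.χ₄ (m : ZMod 4) * jacobiSym n m := by
  have hm2 : m % 2 = 1 := Nat.odd_iff.mp hm
  rcases (by omega : m % 4 = 1 ∨ m % 4 = 3) with h | h
  · rw [ZMod.χ₄_nat_one_mod_four h, one_mul]
    exact jacobiSym.quadratic_reciprocity_one_mod_four h
      (Nat.odd_iff.mpr (Nat.odd_of_mod_four_eq_three hn))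
  · rw [ZMod.χ₄_nat_three_mod_four h, neg_one_mul]
    exact jacobiSym.quadratic_reciprocity_three_mod_four h hn

theorem F06_mod {n m : ℕ} {y z : ℤ} (h : (m : ℤ) ∣ (n : ℤ) - y * z ^ 2)
    (hz : IsCoprime z (m : ℤ)) : jacobiSym n m = jacobiSym y m := by
  have h1 : ((n : ℤ)) % (m : ℤ) = (y * z ^ 2) % (m : ℤ) :=
    ((Int.modEq_iff_dvd.mpr h).symm)
  rw [jacobiSym.mod_left' h1, jacobiSym.mul_left, jacobiSym.sq_one', mul_one]
  exact Int.isCoprime_iff_gcd_eq_one.mp hz

theorem F06_two {n : ℕ} (h : n % 8 = 1 ∨ n % 8 = 7) : jacobiSym 2 n = 1 := by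
  have hn : Odd n := by
    rw [Nat.odd_iff]; omega
  rw [jacobiSym.at_two hn, ZMod.χ₈_nat_eq_if_mod_eight]
  rcases h with h | h
  · have : n % 2 ≠ 0 := by omega
    simp [h, this]
  · have : n % 2 ≠ 0 := by omega
    simp [h, this]

/-- the symbol of a nonzero integer, through its odd part -/
theorem F06_odd {n : ℕ} (h : n % 8 = 1 ∨ n % 8 = 7) {c : ℤ} (hc : c ≠ 0) :
    ∃ c' : ℕ, Odd c' ∧ (c' : ℤ) ∣ c ∧ jacobiSym c n = jacobiSym c.sign n * jacobiSym c' n := by
  obtain ⟨t, c', hc', h1⟩ := Nat.exists_eq_two_pow_mul_odd (n := c.natAbs)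
    (Int.natAbs_ne_zero.mpr hc)
  refine ⟨c', hc', ?_, ?_⟩
  · rw [Int.natCast_dvd, h1]; exact Dvd.intro_left _ rfl
  · conv_lhs => rw [← Int.sign_mul_natAbs c, h1]
    rw [jacobiSym.mul_left, Nat.cast_mul, jacobiSym.mul_left, Nat.cast_pow, jacobiSym.pow_left,
      Nat.cast_ofNat, F06_two h, one_pow, one_mul]

theorem F06_chi_neg (a : ZMod 4) : ZMod.χ₄ (-a) = - ZMod.χ₄ a := by
  revert a; decide

theorem F06_chi_natAbs (a : ℤ) : a.sign * ZMod.χ₄ (a.natAbs : ZMod 4) = ZMod.χ₄ (a : ZMod 4) := by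
  rcases lt_trichotomy a 0 with h | h | h
  · have h1 : ((a.natAbs : ℕ) : ZMod 4) = -(a : ZMod 4) := by
      have : ((a.natAbs : ℕ) : ℤ) = -a := Int.ofNat_natAbs_of_nonpos h.le
      calc ((a.natAbs : ℕ) : ZMod 4) = (((a.natAbs : ℕ) : ℤ) : ZMod 4) := (Int.cast_natCast _).symm
        _ = _ := by rw [this]; push_cast; rfl
    rw [Int.sign_eq_neg_one_of_neg h, h1, F06_chi_neg]; ring
  · subst h; simp
  · have h1 : ((a.natAbs : ℕ) : ZMod 4) = (a : ZMod 4) := by
      have : ((a.natAbs : ℕ) : ℤ) = a := Int.natAbs_of_nonneg h.le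
      calc ((a.natAbs : ℕ) : ZMod 4) = (((a.natAbs : ℕ) : ℤ) : ZMod 4) := (Int.cast_natCast _).symm
        _ = _ := by rw [this]
    rw [Int.sign_eq_one_of_pos h, h1]; ring

theorem F06_chi_sq {m : ℕ} (hm : Odd m) : ZMod.χ₄ (m : ZMod 4) * ZMod.χ₄ (m : ZMod 4) = 1 := by
  have hm2 : m % 2 = 1 := Nat.odd_iff.mp hm
  rcases (by omega : m % 4 = 1 ∨ m % 4 = 3) with h | h
  · rw [ZMod.χ₄_nat_one_mod_four h]; norm_num
  · rw [ZMod.χ₄_nat_three_mod_four h]; norm_num

/-- TASK F06 (quadratic reciprocity in `ℤ`).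
PROOF. Put `N = a ^ 2 + a c T - c ^ 2`, `n = N.natAbs`, `s = N.sign`. `a` odd, `8 ∣ c` give `N ≡ a ^ 2 ≡ 1` modulo `8`, so `N ≠ 0` and `n ≡ 1` modulo `8` if
`s = 1`, `n ≡ 7` modulo `8` if `s = -1`. `n` is odd, `IsCoprime c N` and `IsCoprime a N` (since `a`, `c` are coprime).
(1) `jacobiSym (-1) n = s` (`jacobiSym.at_neg_one`, `ZMod.χ₄_nat_mod_four`); `jacobiSym 2 n = 1` (`jacobiSym.at_two`, `ZMod.χ₈`).
(2) `jacobiSym c n = 1` if `s = 1` and `= c.sign` if `s = -1`: write `c.natAbs = 2 ^ t * c'` with `c'` odd (`Nat.exists_eq_two_pow_mul_odd`). Then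
`jacobiSym c n = jacobiSym c.sign n * (jacobiSym 2 n) ^ t * jacobiSym c' n` (`jacobiSym.mul_left`, `jacobiSym.pow_left`, `Int.sign_mul_natAbs`).
`jacobiSym c' n = jacobiSym n c'` times `(-1) ^ ((c' - 1)/2 (n - 1)/2)` (`jacobiSym.quadratic_reciprocity`, or
`jacobiSym.quadratic_reciprocity_one_mod_four` if `n % 4 = 1`; `jacobiSym.quadratic_reciprocity_three_mod_four` and
`jacobiSym.quadratic_reciprocity_one_mod_four` on `c'` if `n % 4 = 3`), and `jacobiSym n c' = jacobiSym (s a ^ 2) c' = jacobiSym s c'` since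
`n = s N ≡ s a ^ 2` modulo `c'` (`jacobiSym.mod_left'`) and `a` is prime to `c'` (`jacobiSym.sq_one'`). For `s = 1` everything is `1`. For `s = -1`:
`jacobiSym (-1) c' = χ₄ c'`, which cancels the reciprocity sign. Hence `jacobiSym c' n = 1` in both cases; and `jacobiSym c.sign n` is `1` if
`c.sign = 1`, `jacobiSym (-1) n = s` if `c.sign = -1`.
(3) `jacobiSym a n = a.sign * χ₄ a` if `s = 1` and `= χ₄ a` if `s = -1`: with `a' = a.natAbs` (odd): `jacobiSym a n = jacobiSym a.sign n * jacobiSym a' n`,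
`jacobiSym a' n = jacobiSym n a'` times the reciprocity sign, `n = s N ≡ - s c ^ 2` modulo `a'`, so `jacobiSym n a' = jacobiSym (-s) a'`. For `s = 1`: no
sign, `jacobiSym (-1) a' = χ₄ a'`. For `s = -1`: `jacobiSym 1 a' = 1` and the reciprocity sign is `χ₄ a'` (`n % 4 = 3`). So `jacobiSym a' n = χ₄ a'` in both
cases. `χ₄ a = a.sign * χ₄ a'` (`χ₄` is odd: `ZMod.χ₄` of `-x` is `- χ₄ x`).
(4) `jacobiSym (-(a c)) n = jacobiSym (-1) n * jacobiSym a n * jacobiSym c n`. -/
theorem rec_int {a c T : ℤ} (ha : Odd a) (hc : 8 ∣ c) (hac : IsCoprime a c) (hc0 : c ≠ 0) :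
    jacobiSym (-(a * c)) (a ^ 2 + a * c * T - c ^ 2).natAbs =
      if 0 < a ^ 2 + a * c * T - c ^ 2 then a.sign * ZMod.χ₄ (a : ZMod 4)
      else -(c.sign) * ZMod.χ₄ (a : ZMod 4) := by
  obtain ⟨k, hk⟩ := ha
  obtain ⟨c0, hc1⟩ := hc
  set N : ℤ := a ^ 2 + a * c * T - c ^ 2 with hN
  have ha0 : a ≠ 0 := by omega
  have hN8 : N % 8 = 1 := by
    obtain ⟨r, hr⟩ := Int.even_mul_succ_self k
    have : N = 1 + 8 * (r + a * c0 * T - 8 * c0 ^ 2) := by
      rw [hN, hc1]
      have : a ^ 2 = 1 + 8 * r := by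
        rw [hk]; linear_combination 4 * hr
      rw [this]; ring
    rw [this]; omega
  have hN0 : N ≠ 0 := by intro h; rw [h] at hN8; omega
  -- coprimality
  have ha_odd : Odd a.natAbs := by
    rw [Int.natAbs_odd]; exact ⟨k, hk⟩
  rcases lt_or_gt_of_ne hN0 with hneg | hpos
  · -- N < 0
    rw [if_neg (not_lt.mpr hneg.le)]
    set n : ℕ := N.natAbs with hn
    have hnN : (n : ℤ) = -N := Int.ofNat_natAbs_of_nonpos hneg.le
    have hn8 : n % 8 = 7 := by omega
    have hn4 : n % 4 = 3 := by omega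
    have hnodd : Odd n := Nat.odd_iff.mpr (Nat.odd_of_mod_four_eq_three hn4)
    obtain ⟨c', hc', hcd, hcs⟩ := F06_odd (Or.inr hn8) hc0
    have h1 : jacobiSym (-1) n = -1 := by
      rw [jacobiSym.at_neg_one hnodd, ZMod.χ₄_nat_three_mod_four hn4]
    have hsign : ∀ x : ℤ, x ≠ 0 → jacobiSym x.sign n = x.sign := by
      intro x hx
      rcases lt_or_gt_of_ne hx with h | h
      · rw [Int.sign_eq_neg_one_of_neg h, h1]
      · rw [Int.sign_eq_one_of_pos h, jacobiSym.one_left]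
    have h2 : jacobiSym c n = c.sign := by
      rw [hcs, hsign c hc0, F06_recA hc' hn4]
      have h3 : jacobiSym n c' = jacobiSym (-1) c' := by
        apply F06_mod (z := a)
        · rw [hnN, hN]
          have : (-(a ^ 2 + a * c * T - c ^ 2) - -1 * a ^ 2 : ℤ) = c * (c - a * T) := by ring
          rw [this]
          exact Dvd.dvd.mul_right hcd _
        · exact IsCoprime.of_isCoprime_of_dvd_right hac hcd
      rw [h3, jacobiSym.at_neg_one hc', F06_chi_sq hc', mul_one]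
    have h4 : jacobiSym a n = ZMod.χ₄ (a : ZMod 4) := by
      conv_lhs => rw [← Int.sign_mul_natAbs a]
      rw [jacobiSym.mul_left, hsign a ha0, F06_recA ha_odd hn4]
      have h3 : jacobiSym n a.natAbs = jacobiSym 1 a.natAbs := by
        apply F06_mod (z := c)
        · rw [hnN, hN]
          have : (-(a ^ 2 + a * c * T - c ^ 2) - 1 * c ^ 2 : ℤ) = a * (-a - c * T) := by ring
          rw [this]
          exact Dvd.dvd.mul_right (Int.natAbs_dvd.mpr dvd_rfl) _
        · exact IsCoprime.of_isCoprime_of_dvd_right hac.symm (Int.natAbs_dvd.mpr dvd_rfl)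
      rw [h3, jacobiSym.one_left, mul_one, F06_chi_natAbs]
    have h5 : (-(a * c) : ℤ) = (-1) * (a * c) := by ring
    rw [h5, jacobiSym.mul_left, jacobiSym.mul_left, h1, h2, h4]
    ring
  · rw [if_pos hpos]
    set n : ℕ := N.natAbs with hn
    have hnN : (n : ℤ) = N := Int.natAbs_of_nonneg (le_of_lt hpos)
    have hn8 : n % 8 = 1 := by omega
    have hn4 : n % 4 = 1 := by omega
    have hnodd : Odd n := Nat.odd_iff.mpr (Nat.odd_of_mod_four_eq_one hn4)
    obtain ⟨c', hc', hcd, hcs⟩ := F06_odd (Or.inl hn8) hc0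
    have h1 : jacobiSym (-1) n = 1 := by
      rw [jacobiSym.at_neg_one hnodd, ZMod.χ₄_nat_one_mod_four hn4]
    have hsign : ∀ x : ℤ, x ≠ 0 → jacobiSym x.sign n = 1 := by
      intro x hx
      rcases lt_or_gt_of_ne hx with h | h
      · rw [Int.sign_eq_neg_one_of_neg h, h1]
      · rw [Int.sign_eq_one_of_pos h, jacobiSym.one_left]
    have h2 : jacobiSym c n = 1 := by
      rw [hcs, hsign c hc0, one_mul, jacobiSym.quadratic_reciprocity_one_mod_four' hc' hn4]
      have h3 : jacobiSym n c' = jacobiSym 1 c' := by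
        apply F06_mod (z := a)
        · rw [hnN, hN]
          have : ((a ^ 2 + a * c * T - c ^ 2) - 1 * a ^ 2 : ℤ) = c * (a * T - c) := by ring
          rw [this]
          exact Dvd.dvd.mul_right hcd _
        · exact IsCoprime.of_isCoprime_of_dvd_right hac hcd
      rw [h3, jacobiSym.one_left]
    have h4 : jacobiSym a n = a.sign * ZMod.χ₄ (a : ZMod 4) := by
      conv_lhs => rw [← Int.sign_mul_natAbs a]
      rw [jacobiSym.mul_left, hsign a ha0, one_mul,
        jacobiSym.quadratic_reciprocity_one_mod_four' ha_odd hn4]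
      have h3 : jacobiSym n a.natAbs = jacobiSym (-1) a.natAbs := by
        apply F06_mod (z := c)
        · rw [hnN, hN]
          have : ((a ^ 2 + a * c * T - c ^ 2) - -1 * c ^ 2 : ℤ) = a * (a + c * T) := by ring
          rw [this]
          exact Dvd.dvd.mul_right (Int.natAbs_dvd.mpr dvd_rfl) _
        · exact IsCoprime.of_isCoprime_of_dvd_right hac.symm (Int.natAbs_dvd.mpr dvd_rfl)
      rw [h3, jacobiSym.at_neg_one ha_odd]
      have h6 : a.sign * a.sign = 1 := by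
        rcases lt_or_gt_of_ne ha0 with h | h
        · rw [Int.sign_eq_neg_one_of_neg h]; norm_num
        · rw [Int.sign_eq_one_of_pos h]; norm_num
      calc ZMod.χ₄ (a.natAbs : ZMod 4) = (a.sign * a.sign) * ZMod.χ₄ (a.natAbs : ZMod 4) := by
            rw [h6, one_mul]
        _ = _ := by rw [mul_assoc, F06_chi_natAbs]
    have h5 : (-(a * c) : ℤ) = (-1) * (a * c) := by ring
    rw [h5, jacobiSym.mul_left, jacobiSym.mul_left, h1, h2, h4]
    ring

end Pool.Agent.STg.F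
end

section

/-!
# Finite abelian `2`-groups with few quadratic characters
-/

set_option autoImplicit false

namespace Pool.Agent.STt

/-- A nontrivial finite abelian `2`-group has a nontrivial quadratic character. -/
lemma exists_char {Q : Type*} [CommGroup Q] [Finite Q] (h2 : IsPGroup 2 Q) (hne : Nontrivial Q) :
    ∃ χ : Q →* ℤˣ, χ ≠ 1 := by
  have : Fact (Nat.Prime 2) := ⟨Nat.prime_two⟩
  obtain ⟨n, hn⟩ := IsPGroup.iff_card.1 h2
  have hn0 : n ≠ 0 := by
    rintro rfl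
    rw [pow_zero] at hn
    exact (Finite.one_lt_card (α := Q)).ne' hn
  obtain ⟨m, rfl⟩ := Nat.exists_eq_succ_of_ne_zero hn0
  obtain ⟨N, hN⟩ := Sylow.exists_subgroup_card_pow_prime (G := Q) 2 (n := m) (by
    rw [hn]; exact pow_dvd_pow 2 (Nat.le_succ m))
  have hidx : N.index = 2 := by
    have h1 := N.card_mul_index
    rw [hN, hn, Nat.succ_eq_add_one, pow_succ] at h1
    exact Nat.eq_of_mul_eq_mul_left (by positivity) h1
  classical
  have hmul : ∀ x y : Q, x * y ∈ N ↔ (x ∈ N ↔ y ∈ N) := fun x y => Subgroup.mul_mem_iff_of_index_two hidx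
  refine ⟨{ toFun := fun x => if x ∈ N then 1 else -1
            map_one' := if_pos N.one_mem
            map_mul' := fun x y => ?_ }, ?_⟩
  · have h1 := hmul x y
    by_cases hx : x ∈ N <;> by_cases hy : y ∈ N
    · rw [if_pos hx, if_pos hy, if_pos (h1.2 (by tauto)), one_mul]
    · rw [if_pos hx, if_neg hy, if_neg (fun h => by tauto), one_mul]
    · rw [if_neg hx, if_pos hy, if_neg (fun h => by tauto), mul_one]
    · rw [if_neg hx, if_neg hy, if_pos (h1.2 (by tauto))]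
      rfl
  · intro h
    have h1 : N = ⊤ := by
      rw [eq_top_iff]
      intro x _
      by_contra hx
      have h2 := DFunLike.congr_fun h x
      change (if x ∈ N then (1 : ℤˣ) else -1) = 1 at h2
      rw [if_neg hx] at h2
      exact absurd h2 (by decide)
    rw [h1, Subgroup.index_top] at hidx
    omega

lemma cyclic_of_char {Q : Type*} [CommGroup Q] [Finite Q] (h2 : IsPGroup 2 Q)
    (huniq : ∀ χ₁ χ₂ : Q →* ℤˣ, χ₁ ≠ 1 → χ₂ ≠ 1 → χ₁ = χ₂) :
    ∃ g : Q, ∀ x : Q, x ∈ Subgroup.zpowers g := by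
  -- the generator
  obtain ⟨g, hg⟩ : ∃ g : Q, ∀ χ : Q →* ℤˣ, χ g = 1 → χ = 1 := by
    by_cases hex : ∃ χ : Q →* ℤˣ, χ ≠ 1
    · obtain ⟨χ₀, h0⟩ := hex
      have h1 : ∃ g : Q, χ₀ g ≠ 1 := by
        by_contra hcon
        push Not at hcon
        exact h0 (MonoidHom.ext hcon)
      obtain ⟨g, hg⟩ := h1
      refine ⟨g, fun χ hχ => ?_⟩
      by_contra hne
      exact hg (by rw [← huniq χ χ₀ hne h0]; exact hχ)
    · push Not at hex
      exact ⟨1, fun χ _ => hex χ⟩
  refine ⟨g, ?_⟩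
  by_contra hcon
  push Not at hcon
  obtain ⟨x, hx⟩ := hcon
  have hnt : Nontrivial (Q ⧸ Subgroup.zpowers g) := by
    refine ⟨⟨QuotientGroup.mk x, 1, ?_⟩⟩
    intro h
    exact hx ((QuotientGroup.eq_one_iff x).1 h)
  obtain ⟨χ, hχ⟩ := exists_char (h2.to_quotient (Subgroup.zpowers g)) hnt
  apply hχ
  have h3 := hg (χ.comp (QuotientGroup.mk' (Subgroup.zpowers g))) (by
    rw [MonoidHom.comp_apply]
    have : QuotientGroup.mk' (Subgroup.zpowers g) g = 1 :=
      (QuotientGroup.eq_one_iff g).2 (Subgroup.mem_zpowers g)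
    rw [this, map_one])
  refine MonoidHom.ext fun y => ?_
  obtain ⟨z, rfl⟩ := QuotientGroup.mk_surjective y
  exact DFunLike.congr_fun h3 z

/-- The structure of the group: `ker ψ` is cyclic. -/
lemma exists_gen_ker {G : Type*} [Group G] [Finite G] (hcomm : ∀ a b : G, a * b = b * a)
    (h2 : IsPGroup 2 G) {c : G} (hc : c * c = 1) (ψ : G →* ℤˣ) (hψ : ψ c = -1)
    (huniq : ∀ χ₁ χ₂ : G →* ℤˣ, χ₁ c = 1 → χ₂ c = 1 → χ₁ ≠ 1 → χ₂ ≠ 1 → χ₁ = χ₂) :
    ∃ g : G, ψ g = 1 ∧ ∀ x, ψ x = 1 → ∃ i : ℤ, x = g ^ i := by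
  let _ : CommGroup G := { (inferInstance : Group G) with mul_comm := hcomm }
  have h2' : IsPGroup 2 G := h2
  obtain ⟨q, hq⟩ := cyclic_of_char (Q := G ⧸ Subgroup.zpowers c)
    (h2'.to_quotient (Subgroup.zpowers c)) (fun χ₁ χ₂ h₁ h₂ => by
      have hc1 : QuotientGroup.mk' (Subgroup.zpowers c) c = 1 :=
        (QuotientGroup.eq_one_iff c).2 (Subgroup.mem_zpowers c)
      have hne : ∀ χ : G ⧸ Subgroup.zpowers c →* ℤˣ, χ ≠ 1 →
          χ.comp (QuotientGroup.mk' (Subgroup.zpowers c)) ≠ 1 := by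
        intro χ hχ h
        apply hχ
        refine MonoidHom.ext fun y => ?_
        obtain ⟨z, rfl⟩ := QuotientGroup.mk_surjective y
        exact DFunLike.congr_fun h z
      have h3 := huniq (χ₁.comp (QuotientGroup.mk' (Subgroup.zpowers c)))
        (χ₂.comp (QuotientGroup.mk' (Subgroup.zpowers c)))
        (by rw [MonoidHom.comp_apply, hc1, map_one]) (by rw [MonoidHom.comp_apply, hc1, map_one])
        (hne _ h₁) (hne _ h₂)
      refine MonoidHom.ext fun y => ?_
      obtain ⟨z, rfl⟩ := QuotientGroup.mk_surjective y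
      exact DFunLike.congr_fun h3 z)
  obtain ⟨g₀, rfl⟩ := QuotientGroup.mk_surjective q
  have key : ∀ x : G, ∃ i j : ℤ, x = g₀ ^ i * c ^ j := by
    intro x
    obtain ⟨i, hi⟩ := Subgroup.mem_zpowers_iff.1 (hq (QuotientGroup.mk x))
    have h4 : (QuotientGroup.mk (g₀ ^ i) : G ⧸ Subgroup.zpowers c) = QuotientGroup.mk x := by
      rw [← hi]; rfl
    obtain ⟨j, hj⟩ := Subgroup.mem_zpowers_iff.1 (QuotientGroup.eq.1 h4)
    exact ⟨i, j, by rw [hj, mul_inv_cancel_left]⟩
  -- move the generator to the kernel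
  obtain ⟨g, hg, hgc⟩ : ∃ g : G, ψ g = 1 ∧ ∀ x : G, ∃ i j : ℤ, x = g ^ i * c ^ j := by
    rcases Int.units_eq_one_or (ψ g₀) with h | h
    · exact ⟨g₀, h, key⟩
    · refine ⟨g₀ * c, by rw [map_mul, h, hψ]; rfl, fun x => ?_⟩
      obtain ⟨i, j, rfl⟩ := key x
      refine ⟨i, j - i, ?_⟩
      rw [mul_zpow, mul_assoc, ← zpow_add]
      congr 2
      ring
  refine ⟨g, hg, fun x hx => ?_⟩
  obtain ⟨i, j, rfl⟩ := hgc x
  rw [map_mul, map_zpow, hg, one_zpow, one_mul, map_zpow, hψ] at hx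
  have hj : Even j := by
    by_contra hodd
    rw [Int.not_even_iff_odd] at hodd
    rw [hodd.neg_one_zpow] at hx
    exact absurd hx (by decide)
  obtain ⟨r, hr⟩ := hj
  refine ⟨i, ?_⟩
  have hc2 : c ^ j = 1 := by
    rw [hr, zpow_add, ← mul_zpow, hc, one_zpow]
  rw [hc2, mul_one]

/-- A proper subgroup of a subgroup of a cyclic `2`-group consists of squares. -/
lemma chain_step {G : Type*} [Group G] {h : G} (hh : ∃ s : ℕ, h ^ (2 ^ s) = 1)
    {D D' : Subgroup G} (hD : ∀ x ∈ D, ∃ i : ℤ, x = h ^ i) (hle : D' ≤ D) (hne : D' ≠ D) :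
    ∀ x ∈ D', ∃ i : ℤ, x = (h ^ 2) ^ i := by
  intro x hx
  obtain ⟨i, rfl⟩ := hD x (hle hx)
  rcases Int.even_or_odd i with hi | hi
  · obtain ⟨r, hr⟩ := hi
    refine ⟨r, ?_⟩
    rw [← zpow_natCast, ← zpow_mul, hr]
    congr 1
    push_cast
    ring
  · exfalso
    apply hne
    apply le_antisymm hle
    obtain ⟨s, hs⟩ := hh
    have hcop : IsCoprime i ((2 : ℤ) ^ s) := by
      apply IsCoprime.pow_right
      rw [Int.isCoprime_iff_gcd_eq_one]
      have h2 := Int.odd_iff.1 hi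
      have h3 : Int.gcd i 2 ∣ 2 := by
        have := Int.gcd_dvd_right i 2
        exact_mod_cast this
      rcases (Nat.dvd_prime Nat.prime_two).1 h3 with h4 | h4
      · exact h4
      · exfalso
        have h5 := Int.gcd_dvd_left i 2
        rw [h4] at h5
        have h6 : (2 : ℤ) ∣ i := by exact_mod_cast h5
        omega
    obtain ⟨u, v, huv⟩ := hcop
    have h1 : h ∈ D' := by
      have h2 : h = (h ^ i) ^ u := by
        rw [← zpow_mul]
        have h3 : i * u = 1 - v * (2 : ℤ) ^ s := by linarith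
        have h4 : h ^ (v * (2 : ℤ) ^ s) = 1 := by
          rw [mul_comm, zpow_mul]
          have h5 : h ^ ((2 : ℤ) ^ s) = 1 := by
            have h6 : ((2 : ℤ) ^ s) = ((2 ^ s : ℕ) : ℤ) := by push_cast; rfl
            rw [h6, zpow_natCast, hs]
          rw [h5, one_zpow]
        rw [h3, zpow_sub, h4, zpow_one, inv_one, mul_one]
      rw [h2]
      exact D'.zpow_mem hx u
    intro y hy
    obtain ⟨j, rfl⟩ := hD y hy
    exact D'.zpow_mem h1 j

end Pool.Agent.STt
end
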