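import Pool.Agent.Lib.MP_1ef7cf_nt_g.Mg.G006
import Pool.Agent.Lib.MP_1ef7cf_nt_g.Mg.G008
import Pool.Agent.Lib.MP_1ef7cf_nt_g.Mg.G029
import Pool.Agent.Lib.MP_1ef7cf_nt_g.Mg.G030

section

set_option autoImplicit false

open Complex Filter Topology
open scoped ComplexConjugate

namespace Pool.Agent.STg.An

/-! the distribution relation of `ell`. -/

/-- Proof: `dist_DirS` with `w = α z`, `(w + r) / α = z + r / α` (not in `Lam`), the functions of `Kron`.
Dividing by `s - 1` and taking the derivative at `0`, where the functions `F`, `G r` vanish: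
`c - 2 ell (α z) = ∑ (c - 2 ell (z + r / α))`; `RS_card`. -/
theorem dist_ell {c : ℝ} (hK : Kron c) {α : GaussianInt} (hα : α ≠ 0) {S : Finset GaussianInt}
    (hS : RS α S) {z : ℂ} (hz : (α : ℂ) * z ∉ Lam) :
    ∑ r ∈ S, ell (z + (r : ℂ) / (α : ℂ)) = ell (α * z) + ((gN α : ℝ) - 1) * c / 2 := by
  have hα' := AnD2_coe_ne hα
  have hn : ((‖(α : ℂ)‖ : ℝ) : ℂ) ≠ 0 := by
    exact_mod_cast (norm_pos_iff.2 hα').ne'
  obtain ⟨F, hF, hF0, -, hFd⟩ := hK _ hz
  choose G hG hG0 hG1 hGd using fun r : GaussianInt => hK _ (AnD3_notMem hα hz r)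
  have h := dist_DirS hα hS hF (fun r _ => hG r)
  have hmo : ((0 : ℂ) - 1) ≠ 0 := by norm_num
  have hGder : ∀ r : GaussianInt, HasDerivAt (fun s => G r s / (s - 1))
      ((c - 2 * ell (((α : ℂ) * z + r) / α) : ℝ) : ℂ) 0 := by
    intro r
    have h1 : DifferentiableAt ℂ (fun s => G r s / (s - 1)) 0 :=
      ((hG r).1 0).div ((differentiableAt_id).sub_const 1) hmo
    have h2 := h1.hasDerivAt
    rw [hGd r] at h2
    exact h2
  have hsum := HasDerivAt.fun_sum (u := S) (fun r _ => hGder r)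
  have hpow : DifferentiableAt ℂ (fun s : ℂ => ((‖(α : ℂ)‖ : ℝ) : ℂ) ^ (-2 * s)) 0 :=
    (differentiableAt_id.const_mul (-2 : ℂ)).const_cpow (Or.inl hn)
  have hprod := hpow.hasDerivAt.mul hsum
  have hfun : ((fun s : ℂ => ((‖(α : ℂ)‖ : ℝ) : ℂ) ^ (-2 * s)) *
      fun s : ℂ => ∑ r ∈ S, G r s / (s - 1)) = fun s : ℂ => F s / (s - 1) := by
    funext s
    simp only [Pi.mul_apply]
    rw [h s, ← Finset.sum_div, mul_div_assoc]
  rw [hfun] at hprod
  have h3 := hprod.deriv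
  rw [hFd] at h3
  have h4 : ∑ r ∈ S, G r (0 : ℂ) / ((0 : ℂ) - 1) = 0 := by
    apply Finset.sum_eq_zero
    intro r _
    rw [hG0 r, zero_div]
  rw [h4] at h3
  simp only [mul_zero, zero_add, Complex.cpow_zero, one_mul] at h3
  have h5 : c - 2 * ell ((α : ℂ) * z) =
      ∑ r ∈ S, (c - 2 * ell (((α : ℂ) * z + r) / α)) := by
    exact_mod_cast h3
  rw [Finset.sum_sub_distrib, Finset.sum_const, nsmul_eq_mul, RS_card hα hS,
    ← Finset.mul_sum] at h5
  have h6 : ∑ r ∈ S, ell (((α : ℂ) * z + r) / α) = ∑ r ∈ S, ell (z + (r : ℂ) / (α : ℂ)) := by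
    refine Finset.sum_congr rfl fun r _ => ?_
    congr 1
    field_simp
  rw [h6] at h5
  linarith

end Pool.Agent.STg.An
end

section

set_option autoImplicit false

open Complex Filter Topology
open scoped ComplexConjugate

namespace Pool.Agent.STg.An

/-! the logarithm of `‖sg z‖`. -/

/-- Proof: the product `∏' (1 - z ^ 4 / gp p ^ 4)` is a limit of finite products; take the norm and the
logarithm, which is continuous at the nonzero limit (`sg_ne_zero`): `HasProd` of the norms, then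
`Real.log` of the finite products is the sum of the logarithms (no factor vanishes,
`factor_zero_iff`). `log ‖sg z‖ = log ‖z‖ + log ‖∏'‖`. -/
theorem hasSum_log {z : ℂ} (hz : z ∉ Lam) :
    HasSum (fun p : ℕ × ℕ => Real.log ‖1 - z ^ 4 / gp p ^ 4‖)
      (Real.log ‖sg z‖ - Real.log ‖z‖) := by
  have hz0 : z ≠ 0 := by
    rintro rfl
    exact hz zero_mem_Lam
  have hne : ∀ p : ℕ × ℕ, 1 - z ^ 4 / gp p ^ 4 ≠ 0 := by
    intro p hp
    exact hz ((factor_zero_iff hz0).1 ⟨p, hp⟩)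
  have hsg := sg_ne_zero hz
  set P := ∏' p : ℕ × ℕ, (1 - z ^ 4 / gp p ^ 4) with hP
  have hsgP : sg z = z * P := rfl
  have hP0 : P ≠ 0 := by
    intro h
    apply hsg
    rw [hsgP, h, mul_zero]
  have hmul : Multipliable fun p : ℕ × ℕ => 1 - z ^ 4 / gp p ^ 4 := by
    have h1 : Summable fun p : ℕ × ℕ => ‖-(z ^ 4 / gp p ^ 4)‖ := by
      simpa [norm_neg] using summable_zgp z
    have h2 := multipliable_one_add_of_summable h1
    refine h2.congr fun p => ?_
    ring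
  have hprod : HasProd (fun p : ℕ × ℕ => 1 - z ^ 4 / gp p ^ 4) P := hmul.hasProd
  have hnorm := hprod.norm
  have hval : Real.log ‖sg z‖ - Real.log ‖z‖ = Real.log ‖P‖ := by
    rw [hsgP, norm_mul, Real.log_mul (norm_ne_zero_iff.2 hz0) (norm_ne_zero_iff.2 hP0)]
    ring
  rw [hval]
  have hlog : Tendsto (fun s : Finset (ℕ × ℕ) => Real.log (∏ p ∈ s, ‖1 - z ^ 4 / gp p ^ 4‖)) atTop
      (𝓝 (Real.log ‖P‖)) := Tendsto.log hnorm (norm_ne_zero_iff.2 hP0)
  show Tendsto _ atTop _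
  refine hlog.congr fun s => ?_
  rw [Real.log_prod]
  intro p _
  exact norm_ne_zero_iff.2 (hne p)

end Pool.Agent.STg.An
end

section

/-!
# An element with the coordinates `(1, 1 + 2 ^ k)`; primes prime to `δ`
-/

namespace Pool.Agent.STg

variable (U : UD)

lemma R5d_gN_natCast (n : ℕ) : gN (n : GaussianInt) = n ^ 2 := by
  have h : ((n : GaussianInt)).norm = (n : ℤ) * n := by
    simp [Zsqrtd.norm_natCast]
  rw [gN, h, Int.natAbs_mul, Int.natAbs_natCast, pow_two]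

lemma R5d_dvd_gN {a b : GaussianInt} (h : a ∣ b) : gN a ∣ gN b := by
  obtain ⟨c, rfl⟩ := h
  exact ⟨gN c, gN_mul a c⟩

lemma R5d_oddpart {n : ℕ} (h : Squarefree n) : ∃ d : ℕ, Odd d ∧ n ∣ 2 * d := by
  rcases Nat.even_or_odd n with he | ho
  · obtain ⟨m, hm⟩ := he
    refine ⟨m, ?_, ⟨1, by omega⟩⟩
    by_contra hcon
    rw [Nat.not_odd_iff_even] at hcon
    obtain ⟨r, hr⟩ := hcon
    have := h 2 ⟨r, by omega⟩
    exact absurd this (by decide)
  · exact ⟨n, ho, ⟨2, by ring⟩⟩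

/-- `α = 1 + 2 ^ (k - 1) d'`, `d'` the odd part of `N(δ)`; for `k ≥ 6` one has `16 δ ∣ α - 1`
(`δ ∣ N(δ) ∣ 2 d'`) and `N(α) = α ^ 2 = 1 + 2 ^ k d' + 2 ^ (2 k - 2) d' ^ 2 = 1 + 2 ^ k` modulo
`2 ^ (k + 1)`. -/
theorem exists_gam {k : ℕ} (hk : 6 ≤ k) : ∃ α : GaussianInt, Prim α ∧ IsCoprime α U.δ ∧
    sM U (k + 1) α = (1, nu (k + 1) (1 + 2 ^ k)) := by
  obtain ⟨d, hd, hnd⟩ := R5d_oddpart U.sqf
  obtain ⟨j, rfl⟩ : ∃ j, k = j + 6 := ⟨k - 6, by omega⟩
  obtain ⟨c, hc⟩ := hnd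
  have hδ : U.δ * star U.δ = ((gN U.δ : ℕ) : GaussianInt) := mul_star_eq U.δ
  have h16 : 16 * U.δ ∣ ((1 + 2 ^ (j + 5) * d : ℕ) : GaussianInt) - 1 := by
    refine ⟨2 ^ j * (star U.δ * c), ?_⟩
    have h1 : ((gN U.δ : ℕ) : GaussianInt) * (c : GaussianInt) = 2 * (d : GaussianInt) := by
      exact_mod_cast congrArg (Nat.cast : ℕ → GaussianInt) hc.symm
    push_cast
    calc (1 + 2 ^ (j + 5) * (d : GaussianInt)) - 1 = 16 * 2 ^ j * (2 * (d : GaussianInt)) := by ring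
      _ = 16 * 2 ^ j * ((U.δ * star U.δ) * (c : GaussianInt)) := by rw [hδ, h1]
      _ = 16 * U.δ * (2 ^ j * (star U.δ * c)) := by ring
  have hP : Prim ((1 + 2 ^ (j + 5) * d : ℕ) : GaussianInt) := by
    rw [prim_iff]
    have hre : ((1 + 2 ^ (j + 5) * d : ℕ) : GaussianInt).re = ((1 + 2 ^ (j + 5) * d : ℕ) : ℤ) := by
      exact Zsqrtd.re_natCast _
    have him : ((1 + 2 ^ (j + 5) * d : ℕ) : GaussianInt).im = 0 := by
      exact Zsqrtd.im_natCast _
    rw [hre, him]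
    refine ⟨Even.zero, ?_⟩
    push_cast
    have : (2 : ℤ) ^ (j + 5) * d = 4 * (2 ^ (j + 3) * d) := by ring
    rw [this]
    omega
  have hcop : IsCoprime ((1 + 2 ^ (j + 5) * d : ℕ) : GaussianInt) U.δ := by
    obtain ⟨q, hq⟩ := h16
    exact ⟨1, -16 * q, by linear_combination hq⟩
  refine ⟨((1 + 2 ^ (j + 5) * d : ℕ) : GaussianInt), hP, hcop, ?_⟩
  unfold sM
  congr 1
  · rw [U.psi.per _ 1 hP hcop h16]
    exact U.Ψ_one
  · rw [R5d_gN_natCast]
    apply nu_eq_of_mod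
    · apply Odd.pow
      rw [Nat.odd_iff]
      have : 2 ^ (j + 5) * d = 2 * (2 ^ (j + 4) * d) := by ring
      omega
    · rw [Nat.odd_iff]
      have : 2 ^ (j + 6) = 2 * 2 ^ (j + 5) := by ring
      omega
    · obtain ⟨e, rfl⟩ := hd
      have h1 : (1 + 2 ^ (j + 5) * (2 * e + 1)) ^ 2 = (1 + 2 ^ (j + 6)) +
          2 ^ (j + 6 + 1) * (e + 2 ^ (j + 3) * (2 * e + 1) ^ 2) := by ring
      rw [h1]
      simp

lemma R5d_unit {a : GaussianInt} (h : gN a = 1) : IsUnit a := by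
  rw [← Zsqrtd.norm_eq_one_iff]; exact h

lemma R5d_gN_unit {a : GaussianInt} (h : IsUnit a) : gN a = 1 := by
  rw [← Zsqrtd.norm_eq_one_iff] at h; exact h

lemma R5d_prime {a : GaussianInt} (h : (gN a).Prime) : Prime a := by
  apply Irreducible.prime
  constructor
  · intro hu
    rw [R5d_gN_unit hu] at h
    exact Nat.not_prime_one h
  · intro b c hbc
    rw [hbc, gN_mul] at h
    rcases (Nat.prime_mul_iff.1 h) with ⟨-, h1⟩ | ⟨-, h1⟩
    · right; exact R5d_unit h1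
    · left; exact R5d_unit h1

lemma R5d_gN_eq (a : GaussianInt) : (gN a : ℤ) = a.re ^ 2 + a.im ^ 2 := by
  rw [gN, Int.natAbs_of_nonneg (GaussianInt.norm_nonneg a), Zsqrtd.norm_def]
  ring

lemma R5d_not_dvd_star {l : ℕ} (hl : l.Prime) (hl2 : l ≠ 2) {q : GaussianInt} (hq : gN q = l) :
    ¬ q ∣ star q := by
  intro h
  have h1 : q ∣ (⟨2 * q.re, 0⟩ : GaussianInt) := by
    have : (⟨2 * q.re, 0⟩ : GaussianInt) = q + star q := by
      ext
      · simp; ring
      · simp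
    rw [this]
    exact dvd_add dvd_rfl h
  have h2 : q ∣ (⟨0, 2 * q.im⟩ : GaussianInt) := by
    have : (⟨0, 2 * q.im⟩ : GaussianInt) = q - star q := by
      ext
      · simp
      · simp; ring
    rw [this]
    exact dvd_sub dvd_rfl h
  have h3 := R5d_dvd_gN h1
  have h4 := R5d_dvd_gN h2
  have h3' : (l : ℤ) ∣ (2 * q.re) ^ 2 := by
    have : ((gN q : ℕ) : ℤ) ∣ ((gN (⟨2 * q.re, 0⟩ : GaussianInt) : ℕ) : ℤ) := by exact_mod_cast h3
    rw [R5d_gN_eq ⟨2 * q.re, 0⟩, hq] at this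
    simpa using this
  have h4' : (l : ℤ) ∣ (2 * q.im) ^ 2 := by
    have : ((gN q : ℕ) : ℤ) ∣ ((gN (⟨0, 2 * q.im⟩ : GaussianInt) : ℕ) : ℤ) := by exact_mod_cast h4
    rw [R5d_gN_eq ⟨0, 2 * q.im⟩, hq] at this
    simpa using this
  have hlp : Prime (l : ℤ) := Nat.prime_iff_prime_int.1 hl
  have hl2' : ¬ (l : ℤ) ∣ 2 := by
    intro hd
    have : l ∣ 2 := by exact_mod_cast hd
    exact hl2 ((Nat.prime_dvd_prime_iff_eq hl Nat.prime_two).1 this)
  have h5 : (l : ℤ) ∣ q.re := (hlp.dvd_or_dvd (hlp.dvd_of_dvd_pow h3')).resolve_left hl2'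
  have h6 : (l : ℤ) ∣ q.im := (hlp.dvd_or_dvd (hlp.dvd_of_dvd_pow h4')).resolve_left hl2'
  have h7 : (l : ℤ) ^ 2 ∣ q.re ^ 2 + q.im ^ 2 := dvd_add (pow_dvd_pow_of_dvd h5 2) (pow_dvd_pow_of_dvd h6 2)
  rw [← R5d_gN_eq, hq] at h7
  have h8 : l ^ 2 ∣ l := by exact_mod_cast h7
  have h9 := Nat.le_of_dvd hl.pos h8
  have := hl.two_le
  nlinarith

/-- For each odd prime number `l` there is a Gaussian prime `q ∣ l` not dividing `2 δ` (because
`N(δ)` is squarefree, `l ∤ δ`). -/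
lemma exists_prime_over {l : ℕ} (hl : l.Prime) (hl2 : l ≠ 2) :
    ∃ q : GaussianInt, Prime q ∧ q ∣ (l : GaussianInt) ∧ ¬ q ∣ 2 * U.δ := by
  have hgl : gN (l : GaussianInt) = l ^ 2 := R5d_gN_natCast l
  have hnotδ : ¬ (l : GaussianInt) ∣ U.δ := by
    intro h
    have h1 := R5d_dvd_gN h
    rw [hgl, pow_two] at h1
    have h2 := U.sqf l h1
    exact hl.one_lt.ne' (Nat.isUnit_iff.1 h2)
  have hnot2 : ∀ q : GaussianInt, Prime q → q ∣ (l : GaussianInt) → ¬ q ∣ 2 := by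
    intro q hq hql hq2
    have hco : IsCoprime (2 : ℤ) (l : ℤ) := by
      have : Nat.Coprime 2 l := (Nat.coprime_primes Nat.prime_two hl).2 (Ne.symm hl2)
      exact_mod_cast Nat.isCoprime_iff_coprime.2 this
    obtain ⟨a, b, hab⟩ := hco
    apply hq.not_isUnit
    apply isUnit_of_dvd_one
    have h1 : (1 : GaussianInt) = (a : GaussianInt) * 2 + (b : GaussianInt) * (l : GaussianInt) := by
      exact_mod_cast congrArg (Int.cast : ℤ → GaussianInt) hab.symm
    rw [h1]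
    exact dvd_add (Dvd.dvd.mul_left hq2 _) (Dvd.dvd.mul_left hql _)
  by_contra hcon
  push Not at hcon
  have hall : ∀ q : GaussianInt, Prime q → q ∣ (l : GaussianInt) → q ∣ U.δ := by
    intro q hq hql
    exact (hq.dvd_or_dvd (hcon q hq hql)).resolve_left (hnot2 q hq hql)
  have hl0 : (l : GaussianInt) ≠ 0 := by
    exact_mod_cast hl.ne_zero
  have hlu : ¬ IsUnit (l : GaussianInt) := by
    intro hu
    have := R5d_gN_unit hu
    rw [hgl] at this
    have := hl.two_le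
    nlinarith
  obtain ⟨q, hqi, hql⟩ := WfDvdMonoid.exists_irreducible_factor hlu hl0
  have hq := hqi.prime
  obtain ⟨s, hs⟩ := hql
  by_cases hsu : IsUnit s
  · apply hnotδ
    rw [hs]
    exact (hsu.mul_right_dvd).2 (hall q hq ⟨s, hs⟩)
  · have hns : gN q * gN s = l ^ 2 := by rw [← gN_mul, ← hs, hgl]
    have hgq : gN q = l := by
      obtain ⟨i, hi, hgi⟩ := (Nat.dvd_prime_pow hl).1 (Dvd.intro _ hns)
      interval_cases i
      · exfalso
        exact hq.not_isUnit (R5d_unit (by rw [hgi, pow_zero]))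
      · rw [hgi, pow_one]
      · exfalso
        apply hsu
        apply R5d_unit
        rw [hgi] at hns
        have hp : 0 < l ^ 2 := by have := hl.pos; positivity
        exact Nat.eq_of_mul_eq_mul_left hp (by rw [hns, mul_one])
    have hqs : q * star q = (l : GaussianInt) := by rw [mul_star_eq, hgq]
    have hgs : gN (star q) = l := by
      have : gN q * gN (star q) = l ^ 2 := by rw [← gN_mul, hqs, hgl]
      rw [hgq, pow_two] at this
      exact Nat.eq_of_mul_eq_mul_left hl.pos this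
    have hqp : Prime (star q) := R5d_prime (by rw [hgs]; exact hl)
    have d1 := hall q hq ⟨s, hs⟩
    have d2 := hall (star q) hqp (by rw [← hqs]; exact dvd_mul_left _ _)
    have hc : IsCoprime q (star q) :=
      (hqi.coprime_iff_not_dvd).2 (R5d_not_dvd_star hl hl2 hgq)
    apply hnotδ
    rw [← hqs]
    exact hc.mul_dvd d1 d2

end Pool.Agent.STg
end
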