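import Pool.Agent.Lib.MP_1ef7cf_nt_g.Q
import Pool.Agent.Lib.MP_1ef7cf_nt_g.Mg.G029

section

/-!
# Quadratic reciprocity in `ℤ[i]`: Euler criterion for split primes
-/

namespace Pool.Agent.STg

lemma R3b_cast_gN (p : GaussianInt) : ((gN p : ℕ) : ℤ) = p.re ^ 2 + p.im ^ 2 := by
  have h1 : ((gN p : ℕ) : ℤ) = p.norm := by
    unfold gN
    rw [Int.natCast_natAbs, abs_of_nonneg]
    exact GaussianInt.norm_nonneg p
  rw [h1, Zsqrtd.norm_def]
  ring

/-- `J(u | u² + v²) = 1` -/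
lemma R3b_jac {u v : ℤ} (hu : Odd u) (hv : Even v) (hc : IsCoprime u v) {d : ℕ}
    (hd : (d : ℤ) = u ^ 2 + v ^ 2) : jacobiSym u d = 1 := by
  have hd4 : d % 4 = 1 := by
    obtain ⟨a, ha⟩ := hu
    obtain ⟨b, hb⟩ := hv
    have : (d : ℤ) = 4 * (a ^ 2 + a + b ^ 2) + 1 := by
      rw [hd, ha, hb]; ring
    omega
  have hu' : Odd u.natAbs := Int.natAbs_odd.mpr hu
  have h1 : jacobiSym u d = jacobiSym (u.natAbs : ℤ) d := by
    rcases Int.natAbs_eq u with h | h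
    · rw [← h]
    · conv_lhs => rw [h]
      rw [jacobiSym.neg _ (by rw [Nat.odd_iff]; omega), ZMod.χ₄_nat_one_mod_four hd4, one_mul]
  rw [h1, ← jacobiSym.quadratic_reciprocity_one_mod_four hd4 hu']
  have h2 : jacobiSym (d : ℤ) u.natAbs = jacobiSym (v ^ 2) u.natAbs := by
    apply jacobiSym.mod_left'
    have h4 : ((u.natAbs : ℕ) : ℤ) ∣ (d : ℤ) - v ^ 2 := by
      rw [hd, Int.natAbs_dvd]
      exact ⟨u, by ring⟩
    exact Int.emod_eq_emod_iff_emod_sub_eq_zero.mpr (Int.emod_eq_zero_of_dvd h4)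
  rw [h2]
  apply jacobiSym.sq_one'
  have h3 : IsCoprime v u := hc.symm
  rw [Int.isCoprime_iff_gcd_eq_one] at h3
  simpa only [Int.gcd, Int.natAbs_natCast] using h3

/-- coprimality of the coordinates from the norm -/
lemma R3b_coprime {p : GaussianInt} (hq : Squarefree (gN p)) : IsCoprime p.re p.im := by
  rw [Int.isCoprime_iff_gcd_eq_one]
  by_contra hne
  obtain ⟨l, hl, hld⟩ := Nat.exists_prime_and_dvd hne
  have h1 : (l : ℤ) ∣ p.re := (Int.natCast_dvd_natCast.mpr hld).trans (Int.gcd_dvd_left ..)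
  have h2 : (l : ℤ) ∣ p.im := (Int.natCast_dvd_natCast.mpr hld).trans (Int.gcd_dvd_right ..)
  have h3 : ((l * l : ℕ) : ℤ) ∣ ((gN p : ℕ) : ℤ) := by
    rw [R3b_cast_gN]
    push_cast
    rw [← pow_two]
    exact dvd_add (pow_dvd_pow_of_dvd h1 2) (pow_dvd_pow_of_dvd h2 2)
  have h4 : l * l ∣ gN p := Int.natCast_dvd_natCast.mp h3
  have := hq l h4
  exact hl.one_lt.ne' (Nat.isUnit_iff.mp this)

lemma euler_split {p : GaussianInt} (hP : Prim p) (hq : Nat.Prime (gN p)) (a : GaussianInt) :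
    p ∣ a ^ ((gN p - 1) / 2) -
      ((jacobiSym (a.re * p.re + a.im * p.im) (gN p) : ℤ) : GaussianInt) := by
  have hpm := (prim_iff p).mp hP
  have hv : Even p.im := hpm.1
  have hu : Odd p.re := by
    obtain ⟨b, hb⟩ := hv
    rw [Int.odd_iff]
    have := hpm.2
    omega
  have hcop := R3b_coprime hq.squarefree
  have hx := R3b_jac hu hv hcop (R3b_cast_gN p)
  have hq4 := hP.gN_mod
  set q := gN p with hqdef
  set k := (q - 1) / 2 with hk
  have hk2 : q / 2 = k := by omega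
  have : Fact q.Prime := ⟨hq⟩
  have hpq : p ∣ ((q : ℤ) : GaussianInt) := by
    have := mul_star_eq p
    rw [← hqdef] at this
    exact ⟨star p, by rw [this]; simp⟩
  -- Euler criterion over ℤ
  have heul : ∀ z : ℤ, (q : ℤ) ∣ z ^ k - jacobiSym z q := by
    intro z
    rw [← ZMod.intCast_eq_intCast_iff_dvd_sub]
    rw [← jacobiSym.legendreSym.to_jacobiSym, legendreSym.eq_pow, hk2]
    push_cast
    rfl
  have heulG : ∀ z : ℤ, p ∣ (z : GaussianInt) ^ k - ((jacobiSym z q : ℤ) : GaussianInt) := by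
    intro z
    obtain ⟨c, hc⟩ := heul z
    have : (z : GaussianInt) ^ k - ((jacobiSym z q : ℤ) : GaussianInt) =
        ((q : ℤ) : GaussianInt) * (c : GaussianInt) := by
      rw [← Int.cast_mul, ← hc]
      push_cast
      rfl
    rw [this]
    exact dvd_mul_of_dvd_left hpq _
  have h1 := heulG p.re
  rw [hx] at h1
  have h2 := heulG (a.re * p.re + a.im * p.im)
  set m : ℤ := a.re * p.re + a.im * p.im with hm
  have h3 : p ∣ (p.re : GaussianInt) * a - (m : GaussianInt) := by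
    refine ⟨(⟨0, a.im⟩ : GaussianInt), ?_⟩
    ext
    · simp [hm]
      ring
    · simp
  have h4 : p ∣ ((p.re : GaussianInt) * a) ^ k - (m : GaussianInt) ^ k :=
    h3.trans (sub_dvd_pow_sub_pow _ _ _)
  have h5 : a ^ k - ((jacobiSym m q : ℤ) : GaussianInt) =
      -(((p.re : GaussianInt) ^ k - ((1 : ℤ) : GaussianInt)) * a ^ k) +
      ((((p.re : GaussianInt) * a) ^ k - (m : GaussianInt) ^ k) +
      ((m : GaussianInt) ^ k - ((jacobiSym m q : ℤ) : GaussianInt))) := by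
    rw [mul_pow]
    push_cast
    ring
  rw [h5]
  exact dvd_add (dvd_neg.mpr (dvd_mul_of_dvd_left h1 _)) (dvd_add h4 h2)

end Pool.Agent.STg
end

section

/-!
# Change of the level `k`: coordinates
-/

open Complex

namespace Pool.Agent.STg

/-- the projection from the level `k + 1` to the level `k` -/
def pr (k : ℕ) : Gam (k + 1) →* Gam k :=
  MonoidHom.prodMap (MonoidHom.id _) (ZMod.unitsMap (pow_dvd_pow 2 (Nat.le_succ k)))

/-- the non-trivial element of the kernel of `pr` -/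
def gam' (k : ℕ) : Gam (k + 1) := (1, nu (k + 1) (1 + 2 ^ k))

private lemma U2a_coe {k a : ℕ} (ha : Odd a) :
    ((nu k a : (ZMod (2 ^ k))ˣ) : ZMod (2 ^ k)) = (a : ZMod (2 ^ k)) := by
  have hc : a.Coprime (2 ^ k) := Nat.Coprime.pow_right k ((Nat.coprime_two_right).mpr ha)
  unfold nu
  rw [dif_pos hc]
  exact ZMod.coe_unitOfCoprime _ _

private lemma U2a_exists {k : ℕ} (hk : 1 ≤ k) (u : (ZMod (2 ^ k))ˣ) :
    ∃ n : ℕ, Odd n ∧ u = nu k n := by
  have h1 : ((u : ZMod (2 ^ k)).val).Coprime (2 ^ k) := ZMod.val_coe_unit_coprime u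
  have h2 : Odd ((u : ZMod (2 ^ k)).val) := by
    rw [← Nat.coprime_two_right]
    exact Nat.Coprime.coprime_dvd_right (dvd_pow_self 2 (by omega)) h1
  refine ⟨_, h2, ?_⟩
  apply Units.ext
  rw [U2a_coe h2]
  have : NeZero (2 ^ k) := ⟨by positivity⟩
  rw [ZMod.natCast_zmod_val]

private lemma U2a_mod {k n n' : ℕ} (hn' : Odd n') (h : n ≡ n' [MOD 2 ^ k]) :
    n ≡ n' [MOD 2 ^ (k + 1)] ∨ n ≡ (1 + 2 ^ k) * n' [MOD 2 ^ (k + 1)] := by
  have h1 : ((2 ^ k : ℕ) : ℤ) ∣ (n' : ℤ) - n := Nat.modEq_iff_dvd.mp h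
  obtain ⟨c, hc⟩ := h1
  obtain ⟨j, hj⟩ := hn'
  rcases Int.even_or_odd' c with ⟨d, hd | hd⟩
  · left
    refine Nat.modEq_iff_dvd.mpr ⟨d, ?_⟩
    rw [hc, hd]
    push_cast
    ring
  · right
    refine Nat.modEq_iff_dvd.mpr ⟨d + 1 + j, ?_⟩
    have h2 : (n : ℤ) = n' - 2 ^ k * (2 * d + 1) := by
      rw [hd] at hc
      push_cast at hc
      linarith
    rw [h2, hj]
    push_cast
    ring

lemma pr_surjective (k : ℕ) : Function.Surjective (pr k) := by
  intro g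
  have : NeZero (2 ^ (k + 1)) := ⟨by positivity⟩
  obtain ⟨u, hu⟩ := ZMod.unitsMap_surjective (pow_dvd_pow 2 (Nat.le_succ k)) g.2
  refine ⟨(g.1, u), ?_⟩
  unfold pr
  rw [MonoidHom.prodMap_def]
  exact Prod.ext rfl hu

lemma pr_mk {k n : ℕ} (hn : Odd n) (s : ℤˣ) : pr k (s, nu (k + 1) n) = (s, nu k n) := by
  have h1 : ZMod.unitsMap (pow_dvd_pow 2 (Nat.le_succ k)) (nu (k + 1) n) = nu k n := by
    apply Units.ext
    rw [ZMod.unitsMap_val, U2a_coe hn, U2a_coe hn]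
    exact ZMod.cast_natCast (pow_dvd_pow 2 (Nat.le_succ k)) n
  exact Prod.ext rfl h1

lemma pr_zc (k : ℕ) : pr k (zc (k + 1)) = zc k := by
  exact Prod.ext rfl (map_one (ZMod.unitsMap (pow_dvd_pow 2 (Nat.le_succ k))))

/-- the fibers of `pr` have two elements (`k ≥ 1`) -/
lemma pr_eq_iff {k : ℕ} (hk : 1 ≤ k) (g g' : Gam (k + 1)) :
    pr k g = pr k g' ↔ g = g' ∨ g = gam' k * g' := by
  obtain ⟨s, u⟩ := g
  obtain ⟨s', u'⟩ := g'
  obtain ⟨n, hn, rfl⟩ := U2a_exists (by omega) u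
  obtain ⟨n', hn', rfl⟩ := U2a_exists (by omega) u'
  have h2k : Even (2 ^ k) := (Nat.even_pow.mpr ⟨even_two, by omega⟩)
  have ho : Odd (1 + 2 ^ k) := odd_one.add_even h2k
  rw [pr_mk hn, pr_mk hn', Prod.mk.injEq, nu_eq_iff hn hn', Prod.mk.injEq]
  unfold gam'
  rw [Prod.mk_mul_mk, Prod.mk.injEq, one_mul, ← nu_mul ho hn', nu_eq_iff hn hn',
    nu_eq_iff hn (ho.mul hn')]
  constructor
  · rintro ⟨rfl, h⟩
    rcases U2a_mod hn' h with h1 | h1
    · exact Or.inl ⟨rfl, h1⟩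
    · exact Or.inr ⟨rfl, h1⟩
  · rintro (⟨rfl, h⟩ | ⟨rfl, h⟩)
    · exact ⟨rfl, h.of_dvd (pow_dvd_pow 2 (Nat.le_succ k))⟩
    · refine ⟨rfl, (h.of_dvd (pow_dvd_pow 2 (Nat.le_succ k))).trans ?_⟩
      refine Nat.modEq_iff_dvd.mpr ⟨-n', ?_⟩
      push_cast
      ring

lemma gam'_ne {k : ℕ} (hk : 1 ≤ k) (g : Gam (k + 1)) : gam' k * g ≠ g := by
  intro h
  have h1 : gam' k = 1 := mul_eq_right.mp h
  have h2 : nu (k + 1) (1 + 2 ^ k) = nu (k + 1) 1 := by
    rw [nu_one]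
    exact congrArg Prod.snd h1
  have h2k : Even (2 ^ k) := (Nat.even_pow.mpr ⟨even_two, by omega⟩)
  rw [nu_eq_iff (odd_one.add_even h2k) odd_one] at h2
  have h3 := (Nat.modEq_iff_dvd' (Nat.le_add_right 1 (2 ^ k))).mp h2.symm
  rw [Nat.add_sub_cancel_left] at h3
  have h4 := Nat.le_of_dvd (by positivity) h3
  rw [pow_succ] at h4
  have h5 : 0 < 2 ^ k := by positivity
  omega

variable (D : LemData) (U : UD)

lemma pr_sM {k : ℕ} {β : GaussianInt} (hβ : Prim β) : pr k (sM U (k + 1) β) = sM U k β := by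
  unfold sM
  exact pr_mk hβ.odd _

lemma SS_pr {k : ℕ} (hk : 1 ≤ k) (J : ℕ) (g : Gam (k + 1)) :
    SS D U k J (pr k g) = SS D U (k + 1) J g + SS D U (k + 1) J (gam' k * g) := by
  classical
  unfold SS
  rw [← Finset.sum_add_distrib]
  refine Finset.sum_congr rfl fun a ha => ?_
  have hp : Prim a := ((isPR_PR (U.f_ne_zero J)).1 a ha).1
  rw [← pr_sM U hp]
  have h1 := pr_eq_iff hk (sM U (k + 1) a) g
  have h2 := gam'_ne hk g
  by_cases e1 : sM U (k + 1) a = g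
  · rw [if_pos (h1.mpr (Or.inl e1)), if_pos e1, if_neg (by rw [e1]; exact h2.symm), add_zero]
  · by_cases e2 : sM U (k + 1) a = gam' k * g
    · rw [if_pos (h1.mpr (Or.inr e2)), if_neg e1, if_pos e2, zero_add]
    · rw [if_neg (fun h => (h1.mp h).elim e1 e2), if_neg e1, if_neg e2, add_zero]

lemma xv_pr {k : ℕ} (hk : 1 ≤ k) (J : ℕ) (g : Gam (k + 1)) :
    xv D U k J (pr k g) = xv D U (k + 1) J g * xv D U (k + 1) J (gam' k * g) := by
  unfold xv
  rw [← pr_zc k, ← map_mul, SS_pr D U hk, SS_pr D U hk, ← Real.exp_add, mul_left_comm (gam' k)]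
  congr 1
  ring

end Pool.Agent.STg
end
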