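import Pool.Agent.Lib.MP_1ef7cf_nt_g.R2
import Pool.Agent.Lib.MP_1ef7cf_nt_g.Mg.G030
import Pool.Agent.Lib.MP_1ef7cf_nt_g.Mg.G028

section

/-!
# Quadratic reciprocity in `ℤ[i]`: reciprocity for split primes
-/

namespace Pool.Agent.STg

lemma R3c_cast_gN (p : GaussianInt) : ((gN p : ℕ) : ℤ) = p.re ^ 2 + p.im ^ 2 := by
  have h1 : ((gN p : ℕ) : ℤ) = p.norm := by
    unfold gN
    rw [Int.natCast_natAbs, abs_of_nonneg]
    exact GaussianInt.norm_nonneg p
  rw [h1, Zsqrtd.norm_def]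
  ring

lemma R3c_natAbs_left {u : ℤ} {d : ℕ} (hd4 : d % 4 = 1) :
    jacobiSym (u.natAbs : ℤ) d = jacobiSym u d := by
  rcases Int.natAbs_eq u with h | h
  · rw [← h]
  · conv_rhs => rw [h]
    rw [jacobiSym.neg _ (by rw [Nat.odd_iff]; omega), ZMod.χ₄_nat_one_mod_four hd4, one_mul]

lemma R3c_mod {a b : ℤ} {d : ℕ} (h : (d : ℤ) ∣ a - b) : jacobiSym a d = jacobiSym b d :=
  jacobiSym.mod_left' (Int.emod_eq_emod_iff_emod_sub_eq_zero.mpr (Int.emod_eq_zero_of_dvd h))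

/-- `J(u | u² + v²) = 1` -/
lemma R3c_jac {u v : ℤ} (hu : Odd u) (hv : Even v) (hc : IsCoprime u v) {d : ℕ}
    (hd : (d : ℤ) = u ^ 2 + v ^ 2) : jacobiSym u d = 1 := by
  have hd4 : d % 4 = 1 := by
    obtain ⟨a, ha⟩ := hu
    obtain ⟨b, hb⟩ := hv
    have : (d : ℤ) = 4 * (a ^ 2 + a + b ^ 2) + 1 := by
      rw [hd, ha, hb]; ring
    omega
  have hu' : Odd u.natAbs := Int.natAbs_odd.mpr hu
  rw [← R3c_natAbs_left hd4, ← jacobiSym.quadratic_reciprocity_one_mod_four hd4 hu']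
  have h2 : jacobiSym (d : ℤ) u.natAbs = jacobiSym (v ^ 2) u.natAbs := by
    apply R3c_mod
    rw [hd, Int.natAbs_dvd]
    exact ⟨u, by ring⟩
  rw [h2]
  apply jacobiSym.sq_one'
  have h3 : IsCoprime v u := hc.symm
  rw [Int.isCoprime_iff_gcd_eq_one] at h3
  simpa only [Int.gcd, Int.natAbs_natCast] using h3

/-- coprimality of the coordinates from the norm -/
lemma R3c_coprime {p : GaussianInt} (hq : Squarefree (gN p)) : IsCoprime p.re p.im := by
  rw [Int.isCoprime_iff_gcd_eq_one]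
  by_contra hne
  obtain ⟨l, hl, hld⟩ := Nat.exists_prime_and_dvd hne
  have h1 : (l : ℤ) ∣ p.re := (Int.natCast_dvd_natCast.mpr hld).trans (Int.gcd_dvd_left ..)
  have h2 : (l : ℤ) ∣ p.im := (Int.natCast_dvd_natCast.mpr hld).trans (Int.gcd_dvd_right ..)
  have h3 : ((l * l : ℕ) : ℤ) ∣ ((gN p : ℕ) : ℤ) := by
    rw [R3c_cast_gN]
    push_cast
    rw [← pow_two]
    exact dvd_add (pow_dvd_pow_of_dvd h1 2) (pow_dvd_pow_of_dvd h2 2)
  have h4 : l * l ∣ gN p := Int.natCast_dvd_natCast.mp h3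
  have := hq l h4
  exact hl.one_lt.ne' (Nat.isUnit_iff.mp this)

/-- `δ' ∣ z` from divisibility of the coordinates of `z δ'*` -/
lemma R3c_dvd {p z : GaussianInt} (h0 : 0 < gN p) (h1 : ((gN p : ℕ) : ℤ) ∣ z.re * p.re + z.im * p.im)
    (h2 : ((gN p : ℕ) : ℤ) ∣ z.im * p.re - z.re * p.im) : p ∣ z := by
  obtain ⟨c, hc⟩ := h1
  obtain ⟨e, he⟩ := h2
  have hp0 : star p ≠ 0 := by
    intro h
    have : p = 0 := by simpa using h
    rw [this] at h0
    simp [gN] at h0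
  refine ⟨⟨c, e⟩, ?_⟩
  apply mul_right_cancel₀ hp0
  have h3 : p * ⟨c, e⟩ * star p = ((gN p : ℕ) : GaussianInt) * ⟨c, e⟩ := by
    rw [← mul_star_eq]; ring
  rw [h3]
  ext
  · simp
    linarith
  · simp
    linarith

/-- the coordinates of `z δ'*` from divisibility -/
lemma R3c_dvd' {p z : GaussianInt} (h : p ∣ z) : ((gN p : ℕ) : ℤ) ∣ z.re * p.re + z.im * p.im ∧
    ((gN p : ℕ) : ℤ) ∣ z.im * p.re - z.re * p.im := by
  obtain ⟨k, rfl⟩ := h
  rw [R3c_cast_gN]
  constructor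
  · refine ⟨k.re, ?_⟩
    simp
    ring
  · refine ⟨k.im, ?_⟩
    simp
    ring

lemma recip_split {δ' p : GaussianInt} {c : ℤ} (hδ : Prim δ') (hs : Squarefree (gN δ'))
    (hc : δ' ∣ (⟨c, -1⟩ : GaussianInt)) (hP : Prim p) (hq : Nat.Prime (gN p)) (hpδ : ¬ p ∣ δ') :
    jacobiSym (δ'.re * p.re + δ'.im * p.im) (gN p) = jc δ' c p := by
  have hpar : ∀ {z : GaussianInt}, Prim z → Odd z.re ∧ Even z.im := by
    intro z hz
    have hpm := (prim_iff z).mp hz
    have hv : Even z.im := hpm.1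
    refine ⟨?_, hv⟩
    obtain ⟨b, hb⟩ := hv
    rw [Int.odd_iff]
    have := hpm.2
    omega
  obtain ⟨hu, hv⟩ := hpar hδ
  obtain ⟨hx, hy⟩ := hpar hP
  have hd4 := hδ.gN_mod
  have hq4 := hP.gN_mod
  have hcop := R3c_coprime hs
  have hJu := R3c_jac hu hv hcop (R3c_cast_gN δ')
  have hNd := R3c_cast_gN δ'
  have hNp := R3c_cast_gN p
  unfold jc
  set d := gN δ' with hd
  set q := gN p with hqd
  set u := δ'.re with hud
  set v := δ'.im with hvd
  set x := p.re with hxd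
  set y := p.im with hyd
  set m : ℤ := u * x + v * y with hm
  set n : ℤ := u * y - v * x with hn
  -- (1)
  have h1 : jacobiSym (x + c * y) d = jacobiSym m d := by
    have h := (R3c_dvd' hc).1
    simp only [] at h
    have h2 : jacobiSym (u * (x + c * y)) d = jacobiSym m d := by
      apply R3c_mod
      have : u * (x + c * y) - m = (c * u + (-1) * v) * y := by rw [hm]; ring
      rw [this]
      exact dvd_mul_of_dvd_left h _
    rw [← h2, jacobiSym.mul_left, hJu, one_mul]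
  rw [h1]
  -- (2)
  have hsq : (q : ℤ) * d = m ^ 2 + n ^ 2 := by
    rw [hNd, hNp, hm, hn]; ring
  have hmodd : Odd m := by
    obtain ⟨a1, h1⟩ := hu
    obtain ⟨a2, h2⟩ := hv
    obtain ⟨a3, h3⟩ := hx
    refine ⟨2 * a1 * a3 + a1 + a3 + a2 * y, ?_⟩
    rw [hm, h1, h2, h3]; ring
  have hcop2 : Int.gcd n m = 1 := by
    by_contra hne
    obtain ⟨l, hl, hld⟩ := Nat.exists_prime_and_dvd hne
    have h1 : (l : ℤ) ∣ n := (Int.natCast_dvd_natCast.mpr hld).trans (Int.gcd_dvd_left ..)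
    have h2 : (l : ℤ) ∣ m := (Int.natCast_dvd_natCast.mpr hld).trans (Int.gcd_dvd_right ..)
    have h3 : ((l * l : ℕ) : ℤ) ∣ ((q * d : ℕ) : ℤ) := by
      push_cast
      rw [hsq, ← pow_two]
      exact dvd_add (pow_dvd_pow_of_dvd h2 2) (pow_dvd_pow_of_dvd h1 2)
    have h4 : l * l ∣ q * d := Int.natCast_dvd_natCast.mp h3
    by_cases hlq : l = q
    · -- then `p ∣ δ'`
      apply hpδ
      apply R3c_dvd hq.pos
      · rw [← hqd, ← hlq]; exact h2
      · rw [← hqd, ← hlq]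
        have : δ'.im * p.re - δ'.re * p.im = - n := by rw [hn]; ring
        rw [this]
        exact (dvd_neg).mpr h1
    · have h5 : Nat.Coprime (l * l) q := by
        have : Nat.Coprime l q := (Nat.coprime_primes hl hq).mpr hlq
        exact Nat.Coprime.mul_left this this
      have h6 : l * l ∣ d := h5.dvd_of_dvd_mul_left h4
      exact hl.one_lt.ne' (Nat.isUnit_iff.mp (hs l h6))
  -- (3)
  have hm' : Odd m.natAbs := Int.natAbs_odd.mpr hmodd
  have h3 : jacobiSym (q * d : ℤ) m.natAbs = 1 := by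
    have : jacobiSym (q * d : ℤ) m.natAbs = jacobiSym (n ^ 2) m.natAbs := by
      apply R3c_mod
      rw [hsq, Int.natAbs_dvd]
      exact ⟨m, by ring⟩
    rw [this]
    apply jacobiSym.sq_one'
    simpa only [Int.gcd, Int.natAbs_natCast] using hcop2
  rw [jacobiSym.mul_left] at h3
  rw [jacobiSym.quadratic_reciprocity_one_mod_four hq4 hm',
    jacobiSym.quadratic_reciprocity_one_mod_four hd4 hm', R3c_natAbs_left hq4,
    R3c_natAbs_left hd4] at h3
  rcases jacobiSym.trichotomy m q with h | h | h <;>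
    rcases jacobiSym.trichotomy m d with h' | h' | h' <;> rw [h, h'] at h3 ⊢ <;> simp at h3

end Pool.Agent.STg
end

section

/-!
# Galois functions
-/

open Complex

namespace Pool.Agent.STg

variable {U : UD} {k : ℕ}

lemma isGF_one : IsGF U k (fun _ => 1) := by
  refine ⟨fun _ => one_pos, fun _ => one_mem _, ?_, ?_⟩
  · intro φ s n _ _ _ g
    rw [ap_one, ofReal_one]
  · intro φ _ g
    rw [ap_one, norm_one]

lemma IsGF.mul {y y' : Gam k → ℝ} (h : IsGF U k y) (h' : IsGF U k y') :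
    IsGF U k (fun g => y g * y' g) := by
  refine ⟨fun g => mul_pos (h.pos g) (h'.pos g), fun g => mul_mem (h.mem g) (h'.mem g), ?_, ?_⟩
  · intro φ s n hn h1 h2 g
    rw [ap_mul φ (h.mem g) (h'.mem g), h.gal φ s n hn h1 h2 g, h'.gal φ s n hn h1 h2 g, ofReal_mul]
  · intro φ h1 g
    rw [ap_mul φ (h.mem g) (h'.mem g), norm_mul, h.abs φ h1 g, h'.abs φ h1 g, one_mul]

lemma IsGF.inv {y : Gam k → ℝ} (h : IsGF U k y) : IsGF U k (fun g => (y g)⁻¹) := by
  refine ⟨fun g => inv_pos.mpr (h.pos g), fun g => inv_mem (h.mem g), ?_, ?_⟩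
  · intro φ s n hn h1 h2 g
    rw [ap_inv φ (h.mem g), h.gal φ s n hn h1 h2 g, ofReal_inv]
  · intro φ h1 g
    rw [ap_inv φ (h.mem g), norm_inv, h.abs φ h1 g, inv_one]

lemma IsGF.pow {y : Gam k → ℝ} (h : IsGF U k y) (n : ℕ) : IsGF U k (fun g => y g ^ n) := by
  refine ⟨fun g => pow_pos (h.pos g) n, fun g => pow_mem (h.mem g) n, ?_, ?_⟩
  · intro φ s m hm h1 h2 g
    rw [ap_pow φ (h.mem g), h.gal φ s m hm h1 h2 g, ofReal_pow]
  · intro φ h1 g
    rw [ap_pow φ (h.mem g), norm_pow, h.abs φ h1 g, one_pow]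

lemma IsGF.zpow {y : Gam k → ℝ} (h : IsGF U k y) (n : ℤ) : IsGF U k (fun g => y g ^ n) := by
  cases n with
  | ofNat m =>
    have h1 : (fun g => y g ^ (Int.ofNat m)) = fun g => y g ^ m := by
      funext g
      exact zpow_natCast (y g) m
    rw [h1]
    exact h.pow m
  | negSucc m =>
    have h1 : (fun g => y g ^ (Int.negSucc m)) = fun g => (y g ^ (m + 1))⁻¹ := by
      funext g
      exact zpow_negSucc (y g) m
    rw [h1]
    exact (h.pow (m + 1)).inv

lemma IsGF.translate {y : Gam k → ℝ} (h : IsGF U k y) (γ : Gam k) :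
    IsGF U k (fun g => y (γ * g)) := by
  refine ⟨fun g => h.pos _, fun g => h.mem _, ?_, ?_⟩
  · intro φ s n hn h1 h2 g
    rw [h.gal φ s n hn h1 h2 (γ * g), mul_left_comm]
  · intro φ h1 g
    exact h.abs φ h1 _

end Pool.Agent.STg
end
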