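import Pool.Agent.Lib.MP_1ef7cf_nt_g.R3a
import Pool.Agent.Lib.MP_1ef7cf_nt_g.Mg.G058
import Pool.Agent.Lib.MP_1ef7cf_nt_g.Mg.G059
import Pool.Agent.Lib.MP_1ef7cf_nt_g.Mg.G042
import Pool.Agent.Lib.MP_1ef7cf_nt_g.Mg.G046

section

/-!
# Quadratic reciprocity in `ℤ[i]`
-/

namespace Pool.Agent.STg

theorem jc_leg {δ' p : GaussianInt} {c : ℤ} (hδ : Prim δ') (hs : Squarefree (gN δ'))
    (hc : δ' ∣ (⟨c, -1⟩ : GaussianInt)) (hP : Prim p) (hp : Prime p) (hpδ : ¬ p ∣ δ') :
    p ∣ δ' ^ ((gN p - 1) / 2) - ((jc δ' c p : ℤ) : GaussianInt) := by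
  rcases prime_shape hp hP with ⟨h1, h2, h3⟩ | h
  · have := euler_inert hP h1 h2 h3 δ'
    rwa [recip_inert hδ hs hc hP h1 h2 h3] at this
  · have := euler_split hP h δ'
    rwa [recip_split hδ hs hc hP h hpδ] at this

end Pool.Agent.STg
end

section

/-!
# Sums over primary Gaussian integers with given coordinates
-/

open NumberField IsDedekindDomain Pool.Agent.ST

namespace Pool.Agent.STg

variable (D : LemData) (U : UD)

/-- the sign of a class with the coordinates `x` -/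
private def S7b_E (k : ℕ) (s : ℤˣ) (n : ℕ) (x : Gam k) : ℤ :=
  open Classical in if x.2 = nu k n then (s : ℤ) * (x.1 : ℤ) else 0

open Classical in
private lemma S7b_E_eq (k : ℕ) (s : ℤˣ) (n : ℕ) (x : Gam k) : S7b_E k s n x =
    (if x = (s, nu k n) then 1 else 0) - (if x = zc k * (s, nu k n) then 1 else 0) := by
  obtain ⟨u, v⟩ := x
  unfold S7b_E zc
  rw [Prod.mk_mul_mk, one_mul]
  by_cases hv : v = nu k n
  · subst hv
    simp only [if_true, Prod.mk.injEq, and_true]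
    rcases Int.units_eq_one_or s with rfl | rfl <;> rcases Int.units_eq_one_or u with rfl | rfl <;>
      decide
  · simp [hv]

private lemma S7b_coef {k : ℕ} (s : ℤˣ) {n : ℕ} (hn : Odd n) (β : GaussianInt) (hβ : Prim β) :
    (if (2 : ℤ) ^ k ∣ (gN β : ℤ) - n then (s : ℤ) * ((U.Ψ β : ℤˣ) : ℤ) else 0 : ℤ) =
      S7b_E k s n (sM U k β) := by
  unfold S7b_E sM
  have h : (2 : ℤ) ^ k ∣ (gN β : ℤ) - n ↔ nu k (gN β) = nu k n := by
    rw [nu_eq_iff hβ.odd hn, Nat.ModEq.comm, Nat.modEq_iff_dvd]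
    push_cast
    rfl
  by_cases h1 : nu k (gN β) = nu k n
  · rw [if_pos (h.2 h1), if_pos h1]
  · rw [if_neg (fun h2 => h1 (h.1 h2)), if_neg h1]

/-- All primary `β` prime to `δ` are `a + f c` for a unique representative `a ∈ PR f` and `c`
(`isPR_PR`); `sM β = sM a` (`sM_per`). So the sum of `± N(β) ^ (-w)` over the `β` with `sM β = g`
(sign `+`) or `sM β = zc g` (sign `-`) is the corresponding finite sum of functions `G` of
`exists_G`. With `g = (s, nu n)`: `sM β = g` iff `Ψ(β) = s` and `nu (gN β) = nu n`, and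
`sM β = zc g` iff `Ψ(β) = -s` and `nu (gN β) = nu n`; the term is
`s Ψ(β) N(β) ^ (-w)` for all `β` with `nu (gN β) = nu n`. Derivative at `0`: the numbers
`c₀` cancel (the numbers of classes are equal, `card_translate` with `hz`), so it is
`-2 (SS g - SS (zc g)) = - log (xv g)`. -/
theorem exists_GM {k J : ℕ} (hJ : k + 4 ≤ J)
    (hz : ∃ β : GaussianInt, Prim β ∧ IsCoprime β U.δ ∧ sM U k β = zc k) (s : ℤˣ) {n : ℕ}
    (hn : Odd n) : ∃ G : ℂ → ℂ, DifferentiableOn ℂ G {1}ᶜ ∧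
      (∀ w : ℂ, 1 < w.re → HasSum (fun β : PD U =>
        (((if (2 : ℤ) ^ k ∣ (gN β.1 : ℤ) - n then (s : ℤ) * ((U.Ψ β.1 : ℤˣ) : ℤ) else 0 : ℤ)) : ℂ) *
          (gN β.1 : ℂ) ^ (-w)) (G w)) ∧
      deriv G 0 = ((-Real.log (xv D U k J (s, nu k n)) : ℝ) : ℂ) := by
  classical
  set f := U.f J with hf
  have hf0 : f ≠ 0 := U.f_ne_zero J
  have hfu : ¬ IsUnit f := U.f_not_unit (by omega)
  have hf3 : (⟨1, 1⟩ : GaussianInt) ^ 3 ∣ f := U.cube_dvd (by omega)
  have hPR := isPR_PR hf0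
  have hex : ∀ a, a ∈ PR f → ∃ G : ℂ → ℂ, DifferentiableOn ℂ G {1}ᶜ ∧
      (∀ w : ℂ, 1 < w.re → HasSum (fun c : GaussianInt => (gN (a + f * c) : ℂ) ^ (-w)) (G w)) ∧
      deriv G 0 = ((D.c₀ - 2 * D.ell ((a : ℂ) / (f : ℂ)) : ℝ) : ℂ) :=
    fun a ha => exists_G D hfu hf0 (hPR.1 a ha).2
  choose! G hG1 hG2 hG3 using hex
  set E : GaussianInt → ℤ := fun a => S7b_E k s n (sM U k a) with hE
  have hGd : ∀ a ∈ PR f, DifferentiableAt ℂ (G a) 0 := fun a ha =>
    (hG1 a ha 0 (by simp)).differentiableAt (isOpen_compl_singleton.mem_nhds (by simp))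
  refine ⟨fun w => ∑ a ∈ PR f, (E a : ℂ) * G a w, ?_, ?_, ?_⟩
  · exact DifferentiableOn.fun_sum fun a ha => (hG1 a ha).const_mul _
  · intro w hw
    -- one class
    have h1 : ∀ a ∈ PR f, HasSum (fun β : PD U => if f ∣ β.1 - a then
        (E β.1 : ℂ) * (gN β.1 : ℂ) ^ (-w) else 0) ((E a : ℂ) * G a w) := by
      intro a ha
      obtain ⟨ha1, ha2⟩ := hPR.1 a ha
      have hmem : ∀ c : GaussianInt, Prim (a + f * c) ∧ IsCoprime (a + f * c) U.δ := by
        intro c
        have h2 : f ∣ a - (a + f * c) := ⟨-c, by ring⟩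
        refine ⟨Prim.of_dvd hf3 ha1 h2, ?_⟩
        have h3 : IsCoprime (a + f * c) f := by
          rw [add_comm]
          exact (IsCoprime.add_mul_left_left_iff (x := a) (y := f) (z := c)).2 ha2 |> fun h => by
            rwa [add_comm] at h
        exact U.coprime_δ h3
      set i : GaussianInt → PD U := fun c => ⟨a + f * c, hmem c⟩ with hi
      have hinj : Function.Injective i := by
        intro c c' h
        have h2 : a + f * c = a + f * c' := congrArg Subtype.val h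
        exact mul_left_cancel₀ hf0 (add_left_cancel h2)
      refine (hinj.hasSum_iff ?_).1 ?_
      · intro β hβ
        refine if_neg ?_
        rintro ⟨c, hc⟩
        apply hβ
        refine ⟨c, Subtype.ext ?_⟩
        show a + f * c = β.1
        rw [← hc]
        ring
      · have h4 : ((fun β : PD U => if f ∣ β.1 - a then
            (E β.1 : ℂ) * (gN β.1 : ℂ) ^ (-w) else 0) ∘ i) =
            fun c => (E a : ℂ) * (gN (a + f * c) : ℂ) ^ (-w) := by
          funext c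
          have h5 : f ∣ (i c).1 - a := ⟨c, by show a + f * c - a = f * c; ring⟩
          have h6 : E (i c).1 = E a := by
            have h7 := sM_per U hJ (hmem c).1 (hmem c).2 h5
            show S7b_E k s n (sM U k (a + f * c)) = S7b_E k s n (sM U k a)
            rw [← h7]
          show (if f ∣ (i c).1 - a then (E (i c).1 : ℂ) * (gN (i c).1 : ℂ) ^ (-w) else 0) = _
          rw [if_pos h5, h6]
        rw [h4]
        exact (hG2 a ha w hw).mul_left _
    have h2 := hasSum_sum h1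
    have h3 : (fun β : PD U => (((if (2 : ℤ) ^ k ∣ (gN β.1 : ℤ) - n then
        (s : ℤ) * ((U.Ψ β.1 : ℤˣ) : ℤ) else 0 : ℤ)) : ℂ) * (gN β.1 : ℂ) ^ (-w)) =
        fun β : PD U => ∑ a ∈ PR f, if f ∣ β.1 - a then
          (E β.1 : ℂ) * (gN β.1 : ℂ) ^ (-w) else 0 := by
      funext β
      rw [S7b_coef U s hn β.1 β.2.1]
      obtain ⟨a, ⟨ha1, ha2⟩, huniq⟩ := hPR.2 β.1 β.2.1 (U.coprime_f β.2.1 J β.2.2)
      rw [Finset.sum_eq_single a, if_pos ha2]
      · intro b hb hba
        exact if_neg fun h => hba (huniq b ⟨hb, h⟩)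
      · intro h
        exact absurd ha1 h
    rw [h3]
    exact h2
  · have hd : HasDerivAt (fun w => ∑ a ∈ PR f, (E a : ℂ) * G a w)
        (∑ a ∈ PR f, (E a : ℂ) * deriv (G a) 0) 0 :=
      HasDerivAt.fun_sum fun a ha => (hGd a ha).hasDerivAt.const_mul _
    rw [hd.deriv]
    obtain ⟨β, hβ1, hβ2, hβ3⟩ := hz
    have hcard := card_translate U hJ hβ1 hβ2 (s, nu k n)
    rw [hβ3] at hcard
    have h1 : ∑ a ∈ PR f, (E a : ℂ) * deriv (G a) 0 =
        ((∑ a ∈ PR f, (E a : ℝ) * (D.c₀ - 2 * D.ell ((a : ℂ) / (f : ℂ))) : ℝ) : ℂ) := by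
      rw [Complex.ofReal_sum]
      refine Finset.sum_congr rfl fun a ha => ?_
      rw [hG3 a ha]
      push_cast
      ring
    rw [h1]
    congr 1
    have h2 : ∀ F : GaussianInt → ℝ, ∑ a ∈ PR f, (E a : ℝ) * F a =
        ∑ a ∈ PR f, (if sM U k a = (s, nu k n) then F a else 0) -
          ∑ a ∈ PR f, (if sM U k a = zc k * (s, nu k n) then F a else 0) := by
      intro F
      rw [← Finset.sum_sub_distrib]
      refine Finset.sum_congr rfl fun a _ => ?_
      show ((S7b_E k s n (sM U k a) : ℤ) : ℝ) * F a = _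
      rw [S7b_E_eq]
      push_cast
      split_ifs <;> ring
    have h3 : ∑ a ∈ PR f, (E a : ℝ) * (D.c₀ - 2 * D.ell ((a : ℂ) / (f : ℂ))) =
        D.c₀ * ∑ a ∈ PR f, (E a : ℝ) * 1 -
          2 * ∑ a ∈ PR f, (E a : ℝ) * D.ell ((a : ℂ) / (f : ℂ)) := by
      rw [Finset.mul_sum, Finset.mul_sum, ← Finset.sum_sub_distrib]
      refine Finset.sum_congr rfl fun a _ => ?_
      ring
    have h4 : ∑ a ∈ PR f, (E a : ℝ) * 1 = 0 := by
      rw [h2 (fun _ => 1)]
      rw [Finset.card_filter, Finset.card_filter] at hcard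
      have h5 : ((∑ a ∈ PR f, if sM U k a = zc k * (s, nu k n) then 1 else 0 : ℕ) : ℝ) =
          ((∑ a ∈ PR f, if sM U k a = (s, nu k n) then 1 else 0 : ℕ) : ℝ) := by
        exact_mod_cast hcard
      push_cast at h5
      rw [h5, sub_self]
    rw [h3, h4, h2 (fun a => D.ell ((a : ℂ) / (f : ℂ)))]
    unfold xv SS
    rw [Real.log_exp]
    ring

end Pool.Agent.STg
end
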