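import Pool.Agent.Lib.MP_1ef7cf_nt_g.R3a
import Pool.Agent.Lib.MP_1ef7cf_nt_g.Mg.G058
import Pool.Agent.Lib.MP_1ef7cf_nt_g.Mg.G060

section

/-!
# Supplementary laws; existence of the residue symbol
-/

namespace Pool.Agent.STg

/-- the symbol of `i`: `(-1) ^ ((N(β) - 1) / 4)` -/
def ji (β : GaussianInt) : ℤ := (-1) ^ ((gN β - 1) / 4)

/-- the symbol of `1 + i`: `χ₈ (x + y)` -/
def jt (β : GaussianInt) : ℤ := ZMod.χ₈ ((β.re + β.im : ℤ) : ZMod 8)

lemma R4a_gN (a : GaussianInt) : (gN a : ℤ) = a.re * a.re + a.im * a.im := by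
  unfold gN
  have h : a.norm = a.re * a.re + a.im * a.im := by
    rw [Zsqrtd.norm_def]; ring
  rw [h]
  have h2 : 0 ≤ a.re * a.re + a.im * a.im := by nlinarith [mul_self_nonneg a.re, mul_self_nonneg a.im]
  exact Int.natAbs_of_nonneg h2

/-- `N(a) = 1 + 4 s`, `N(b) = 1 + 4 t`, `N(a b) = 1 + 4 (s + t) + 16 s t`. -/
lemma ji_mul {a b : GaussianInt} (ha : Prim a) (hb : Prim b) : ji (a * b) = ji a * ji b := by
  have h1 := ha.gN_mod
  have h2 := hb.gN_mod
  obtain ⟨s, hs⟩ : ∃ s, gN a = 1 + 4 * s := ⟨gN a / 4, by omega⟩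
  obtain ⟨t, ht⟩ : ∃ t, gN b = 1 + 4 * t := ⟨gN b / 4, by omega⟩
  unfold ji
  rw [gN_mul, hs, ht]
  have e1 : (1 + 4 * s - 1) / 4 = s := by omega
  have e2 : (1 + 4 * t - 1) / 4 = t := by omega
  have e3 : ((1 + 4 * s) * (1 + 4 * t) - 1) / 4 = s + t + 2 * (2 * (s * t)) := by
    have : (1 + 4 * s) * (1 + 4 * t) = 1 + 4 * (s + t + 2 * (2 * (s * t))) := by ring
    rw [this]; omega
  rw [e1, e2, e3, pow_add, pow_add, pow_mul]
  norm_num

/-- `(x + y) (x' + y') - (x x' - y y' + x y' + x' y) = 2 y y'` is divisible by `8`. -/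
lemma jt_mul {a b : GaussianInt} (ha : Prim a) (hb : Prim b) : jt (a * b) = jt a * jt b := by
  obtain ⟨⟨k, hk⟩, _⟩ := (prim_iff a).1 ha
  obtain ⟨⟨l, hl⟩, _⟩ := (prim_iff b).1 hb
  unfold jt
  rw [← map_mul, ← Int.cast_mul]
  congr 1
  rw [ZMod.intCast_eq_intCast_iff_dvd_sub]
  rw [Zsqrtd.re_mul, Zsqrtd.im_mul]
  refine ⟨k * l, ?_⟩
  rw [hk, hl]
  push_cast
  ring

/-- `16 ∣ a - b` implies `N(a) = N(b)` modulo `8` -/
lemma ji_per {a b : GaussianInt} (ha : Prim a) (h : 16 ∣ a - b) : ji a = ji b := by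
  obtain ⟨c, hc⟩ := h
  have hre : a.re = b.re + 16 * c.re := by
    have := congrArg Zsqrtd.re hc
    simp at this
    linarith
  have him : a.im = b.im + 16 * c.im := by
    have := congrArg Zsqrtd.im hc
    simp at this
    linarith
  have h1 := ha.gN_mod
  have h2 : (gN a : ℤ) = gN b + 8 * (4 * b.re * c.re + 32 * c.re * c.re + 4 * b.im * c.im +
      32 * c.im * c.im) := by
    rw [R4a_gN, R4a_gN, hre, him]; ring
  unfold ji
  have h3 : (gN a : ℤ) % 8 = (gN b : ℤ) % 8 := by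
    rw [h2, Int.add_mul_emod_self_left]
  have h4 : gN a % 8 = gN b % 8 := by exact_mod_cast h3
  rcases Nat.even_or_odd ((gN a - 1) / 4) with h5 | h5
  · have h6 : Even ((gN b - 1) / 4) := by
      rw [Nat.even_iff] at h5 ⊢; omega
    rw [h5.neg_one_pow, h6.neg_one_pow]
  · have h6 : Odd ((gN b - 1) / 4) := by
      rw [Nat.odd_iff] at h5 ⊢; omega
    rw [h5.neg_one_pow, h6.neg_one_pow]

lemma jt_per {a b : GaussianInt} (h : 16 ∣ a - b) : jt a = jt b := by
  obtain ⟨c, hc⟩ := h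
  have hre : a.re = b.re + 16 * c.re := by
    have := congrArg Zsqrtd.re hc
    simp at this
    linarith
  have him : a.im = b.im + 16 * c.im := by
    have := congrArg Zsqrtd.im hc
    simp at this
    linarith
  unfold jt
  congr 1
  rw [ZMod.intCast_eq_intCast_iff_dvd_sub]
  refine ⟨-(2 * (c.re + c.im)), ?_⟩
  rw [hre, him]; push_cast; ring

/-- `i ^ ((N(p) - 1) / 2) = (-1) ^ ((N(p) - 1) / 4)` -/
lemma ji_leg {p : GaussianInt} (hP : Prim p) :
    p ∣ (⟨0, 1⟩ : GaussianInt) ^ ((gN p - 1) / 2) - ((ji p : ℤ) : GaussianInt) := by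
  have h1 := hP.gN_mod
  have e1 : (gN p - 1) / 2 = 2 * ((gN p - 1) / 4) := by omega
  have e2 : (⟨0, 1⟩ : GaussianInt) ^ 2 = -1 := by
    rw [sq]
    ext <;> simp
  rw [e1, pow_mul, e2]
  unfold ji
  push_cast
  rw [sub_self]
  exact dvd_zero _

lemma R4a_chi8_natAbs (m : ℤ) : ZMod.χ₈ ((m.natAbs : ℕ) : ZMod 8) = ZMod.χ₈ (m : ZMod 8) := by
  rcases Int.natAbs_eq m with h | h
  · conv_rhs => rw [h]
    rw [Int.cast_natCast]
  · conv_rhs => rw [h]
    rw [Int.cast_neg, Int.cast_natCast]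
    have : ∀ z : ZMod 8, ZMod.χ₈ z = ZMod.χ₈ (-z) := by decide
    exact this _

lemma R4a_jac_natAbs (m : ℤ) {q : ℕ} (hq : q % 4 = 1) :
    jacobiSym m q = jacobiSym (m.natAbs : ℤ) q := by
  rcases Int.natAbs_eq m with h | h
  · rw [← h]
  · have h1 : jacobiSym m q = jacobiSym (-1) q * jacobiSym (m.natAbs : ℤ) q := by
      rw [← jacobiSym.mul_left]
      congr 1
      rw [neg_one_mul]; exact h
    have h2 : Odd q := by rw [Nat.odd_iff]; omega
    rw [h1, jacobiSym.at_neg_one h2, ZMod.χ₄_nat_one_mod_four hq, one_mul]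

/-- Split case: `euler_split` with `a = 1 + i`: `(x + y | q) = (q | |x + y|)`, `q = x ^ 2 + y ^ 2 =
2 x ^ 2` modulo `x + y`, so it is `(2 | |x + y|) = χ₈ (x + y)`. Inert case: `(2 | |x|)`. -/
lemma jt_leg {p : GaussianInt} (hP : Prim p) (hp : Prime p) :
    p ∣ (⟨1, 1⟩ : GaussianInt) ^ ((gN p - 1) / 2) - ((jt p : ℤ) : GaussianInt) := by
  obtain ⟨hev, hmod⟩ := (prim_iff p).1 hP
  rcases prime_shape hp hP with ⟨h1, h2, h3⟩ | h
  · have h4 := euler_inert hP h1 h2 h3 ⟨1, 1⟩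
    have h5 : gN (⟨1, 1⟩ : GaussianInt) = 2 := by
      have := R4a_gN ⟨1, 1⟩
      norm_num at this
      exact_mod_cast this
    rw [h5] at h4
    have h6 : Odd p.re.natAbs := by rw [Nat.odd_iff]; omega
    have h7 : jacobiSym ((2 : ℕ) : ℤ) p.re.natAbs = jt p := by
      have := jacobiSym.at_two h6
      push_cast
      rw [this, R4a_chi8_natAbs]
      unfold jt
      rw [h1, add_zero]
    rwa [h7] at h4
  · have h4 := euler_split hP h ⟨1, 1⟩
    simp only [one_mul] at h4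
    have hq4 : gN p % 4 = 1 := hP.gN_mod
    have hodd : Odd (p.re + p.im) := by rw [Int.odd_iff]; omega
    have hodd' : Odd (p.re + p.im).natAbs := Int.natAbs_odd.2 hodd
    have h5 : jacobiSym (p.re + p.im) (gN p) = jt p := by
      rw [R4a_jac_natAbs _ hq4, ← jacobiSym.quadratic_reciprocity_one_mod_four hq4 hodd']
      have hgcd : Int.gcd p.re (p.re + p.im).natAbs = 1 := by
        have e0 : Int.gcd p.re ((p.re + p.im).natAbs : ℤ) = Int.gcd p.re (p.re + p.im) := by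
          unfold Int.gcd
          rw [Int.natAbs_natCast]
        rw [e0, Int.gcd_self_add_right]
        by_contra hne
        obtain ⟨l, hl, hl2⟩ := Nat.exists_prime_and_dvd hne
        have hl3 : (l : ℤ) ∣ p.re := (Int.natCast_dvd_natCast.2 hl2).trans (Int.gcd_dvd_left _ _)
        have hl4 : (l : ℤ) ∣ p.im := (Int.natCast_dvd_natCast.2 hl2).trans (Int.gcd_dvd_right _ _)
        have hl5 : ((l ^ 2 : ℕ) : ℤ) ∣ (gN p : ℤ) := by
          rw [R4a_gN]
          push_cast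
          rw [sq]
          exact dvd_add (mul_dvd_mul hl3 hl3) (mul_dvd_mul hl4 hl4)
        have hl6 : l ^ 2 ∣ gN p := Int.natCast_dvd_natCast.1 hl5
        have hsq : Squarefree (gN p) := h.squarefree
        have := hsq l (by rw [← sq]; exact hl6)
        exact hl.one_lt.ne' (Nat.isUnit_iff.1 this)
      have h6 : jacobiSym (gN p : ℤ) (p.re + p.im).natAbs =
          jacobiSym (2 * p.re ^ 2) (p.re + p.im).natAbs := by
        apply jacobiSym.mod_left'
        refine Int.modEq_iff_dvd.2 ?_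
        rw [Int.natAbs_dvd, R4a_gN]
        exact ⟨p.re - p.im, by ring⟩
      rw [h6, jacobiSym.mul_left, jacobiSym.sq_one' hgcd, mul_one, jacobiSym.at_two hodd',
        R4a_chi8_natAbs]
      rfl
    rwa [h5] at h4

end Pool.Agent.STg
end

section

/-!
# Existence of the residue symbol
-/

namespace Pool.Agent.STg

lemma R4_mul_congr {p x x' y y' : GaussianInt} (h : p ∣ x - x') (h' : p ∣ y - y') :
    p ∣ x * y - x' * y' := by
  have : x * y - x' * y' = (x - x') * y + x' * (y - y') := by ring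
  rw [this]
  exact dvd_add (h.mul_right _) (h'.mul_left _)

/-- the sign of an integer -/
def R4_u (x : ℤ) : ℤˣ := if x = -1 then -1 else 1

lemma R4_u_mul {x y : ℤ} (hx : x = 1 ∨ x = -1) (hy : y = 1 ∨ y = -1) :
    R4_u (x * y) = R4_u x * R4_u y := by
  rcases hx with rfl | rfl <;> rcases hy with rfl | rfl <;> decide

lemma R4_u_coe {x : ℤ} (hx : x = 1 ∨ x = -1) : ((R4_u x : ℤˣ) : ℤ) = x := by
  rcases hx with rfl | rfl <;> decide

lemma R4_ji (β : GaussianInt) : ji β = 1 ∨ ji β = -1 := neg_one_pow_eq_or ℤ _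

lemma R4_jt {β : GaussianInt} (h : Prim β) : jt β = 1 ∨ jt β = -1 := by
  have h1 := ((prim_iff β).1 h).2
  unfold jt
  rw [ZMod.χ₈_int_eq_if_mod_eight]
  have h2 : ¬ ((β.re + β.im) % 2 = 0) := by omega
  rw [if_neg h2]
  split_ifs
  · exact Or.inl rfl
  · exact Or.inr rfl

lemma R4_pow {x : ℤ} (hx : x = 1 ∨ x = -1) (n : ℕ) : x ^ n = 1 ∨ x ^ n = -1 := by
  rcases hx with rfl | rfl
  · exact Or.inl (one_pow n)
  · exact neg_one_pow_eq_or ℤ n

lemma R4_mul {x y : ℤ} (hx : x = 1 ∨ x = -1) (hy : y = 1 ∨ y = -1) :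
    x * y = 1 ∨ x * y = -1 := by
  rcases hx with rfl | rfl <;> rcases hy with rfl | rfl <;> decide

/-- **Existence of the symbol.** With the shape `δ = i ^ a (1 + i) ^ b δ'`, put
`Ψ(β) = ji(β) ^ a jt(β) ^ b jc(β)`, which is `1` or `-1` for primary `β` prime to `δ` (and `Ψ = 1`
otherwise). The properties follow from the lemmas on the three factors. -/
theorem exists_isPsi {δ : GaussianInt} (h : Squarefree (gN δ)) :
    ∃ Ψ : GaussianInt → ℤˣ, IsPsi δ Ψ := by
  obtain ⟨a, b, δ', c, hδ, hP, hs, hc⟩ := exists_shape h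
  obtain ⟨X, hX⟩ : ∃ X : GaussianInt → ℤ, X = fun β => ji β ^ a * jt β ^ b * jc δ' c β :=
    ⟨_, rfl⟩
  have hdvd : δ' ∣ δ := by rw [hδ]; exact Dvd.intro_left _ rfl
  have hX1 : ∀ β, Prim β → IsCoprime β δ → X β = 1 ∨ X β = -1 := by
    intro β hβ hβδ
    have h1 : IsCoprime β δ' := hβδ.of_isCoprime_of_dvd_right hdvd
    have h2 := jc_ne_zero hP hs hc h1
    have h3 : jc δ' c β = 1 ∨ jc δ' c β = -1 := by
      rcases jacobiSym.trichotomy (β.re + c * β.im) (gN δ') with h4 | h4 | h4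
      · exact absurd h4 h2
      · exact Or.inl h4
      · exact Or.inr h4
    rw [hX]
    exact R4_mul (R4_mul (R4_pow (R4_ji β) a) (R4_pow (R4_jt hβ) b)) h3
  refine ⟨fun β => R4_u (X β), ?_, ?_, ?_⟩
  · intro x y hx hy hxδ hyδ
    have h1 : X (x * y) = X x * X y := by
      rw [hX]
      simp only
      rw [ji_mul hx hy, jt_mul hx hy, jc_mul hP hs hc, mul_pow, mul_pow]
      ring
    change R4_u (X (x * y)) = R4_u (X x) * R4_u (X y)
    rw [h1]
    exact R4_u_mul (hX1 x hx hxδ) (hX1 y hy hyδ)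
  · intro x y hx hxδ hxy
    have h16 : 16 ∣ x - y := (Dvd.intro _ rfl).trans hxy
    have hd : δ' ∣ x - y := (hdvd.trans (Dvd.intro_left _ rfl)).trans hxy
    have h1 : X x = X y := by
      rw [hX]
      simp only
      rw [ji_per hx h16, jt_per h16, jc_per hP hs hc hd]
    change R4_u (X x) = R4_u (X y)
    rw [h1]
  · intro p hp hPp hpδ
    have hcop : IsCoprime p δ := (hp.irreducible.coprime_iff_not_dvd).2 hpδ
    have hpδ' : ¬ p ∣ δ' := fun h => hpδ (h.trans hdvd)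
    change p ∣ δ ^ ((gN p - 1) / 2) - (((R4_u (X p) : ℤˣ) : ℤ) : GaussianInt)
    rw [R4_u_coe (hX1 p hPp hcop)]
    have h1 := (ji_leg hPp)
    have h2 := (jt_leg hPp hp)
    have h3 := jc_leg hP hs hc hPp hp hpδ'
    have h4 : p ∣ ((⟨0, 1⟩ : GaussianInt) ^ ((gN p - 1) / 2)) ^ a - ((ji p : ℤ) : GaussianInt) ^ a :=
      h1.trans (sub_dvd_pow_sub_pow _ _ a)
    have h5 : p ∣ ((⟨1, 1⟩ : GaussianInt) ^ ((gN p - 1) / 2)) ^ b - ((jt p : ℤ) : GaussianInt) ^ b :=
      h2.trans (sub_dvd_pow_sub_pow _ _ b)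
    have h6 := R4_mul_congr (R4_mul_congr h4 h5) h3
    have e1 : δ ^ ((gN p - 1) / 2) = ((⟨0, 1⟩ : GaussianInt) ^ ((gN p - 1) / 2)) ^ a *
        ((⟨1, 1⟩ : GaussianInt) ^ ((gN p - 1) / 2)) ^ b * δ' ^ ((gN p - 1) / 2) := by
      rw [hδ, mul_pow, mul_pow]
      ring
    have e2 : ((X p : ℤ) : GaussianInt) = ((ji p : ℤ) : GaussianInt) ^ a *
        ((jt p : ℤ) : GaussianInt) ^ b * ((jc δ' c p : ℤ) : GaussianInt) := by
      rw [hX]
      push_cast
      rfl
    rw [e1, e2]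
    exact h6

end Pool.Agent.STg
end
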