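import Pool.Agent.Lib.MP_1ef7cf_nt_g.Mg.G053
import Pool.Agent.Lib.MP_1ef7cf_nt_g.Mg.G027
import Pool.Agent.Lib.MP_1ef7cf_nt_g.R1
import Pool.Agent.Lib.MP_1ef7cf_nt_g.Mg.G061
import Pool.Agent.Lib.MP_1ef7cf_nt_g.Mg.G044
import Pool.Agent.Lib.MP_1ef7cf_nt_g.Mg.G015

section

set_option autoImplicit false

open NumberField IsDedekindDomain nonZeroDivisors IntermediateField

namespace Pool.Agent.STg.F

open Pool.Agent.ST

variable {K : Type*} [Field K] [NumberField K] [Algebra K ℝ] {σ₂ : K →+* ℝ} {e : (𝓞 K)ˣ}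

lemma F24_le16 {j : ℕ} (hj : 4 ≤ j) :
    (Ideal.span {(2 : 𝓞 K)}) ^ j ≤ Ideal.span {(16 : 𝓞 K)} := by
  have h : Ideal.span {(16 : 𝓞 K)} = (Ideal.span {(2 : 𝓞 K)}) ^ 4 := by
    rw [Ideal.span_singleton_pow]; norm_num
  rw [h]
  exact Ideal.pow_le_pow_right hj

/-- comparison of absolute values modulo `M` -/
lemma F24_abs {M x y : ℤ} (h : M ∣ x - y) :
    M ∣ (x.natAbs : ℤ) - (y.natAbs : ℤ) ∨ M ∣ (x.natAbs : ℤ) + (y.natAbs : ℤ) := by
  rcases Int.natAbs_eq x with hx | hx <;> rcases Int.natAbs_eq y with hy | hy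
  · left; rw [← hx, ← hy]; exact h
  · right
    have : (x.natAbs : ℤ) + (y.natAbs : ℤ) = x - y := by omega
    rw [this]; exact h
  · right
    have : (x.natAbs : ℤ) + (y.natAbs : ℤ) = -(x - y) := by omega
    rw [this]; exact (dvd_neg).2 h
  · left
    have : (x.natAbs : ℤ) - (y.natAbs : ℤ) = -(x - y) := by omega
    rw [this]; exact (dvd_neg).2 h

lemma F24_top (D : FD σ₂ e) : Ideal.span {(16 : 𝓞 K)} ≠ ⊤ := by
  intro htop
  have h1 : Ideal.absNorm (Ideal.span {(16 : 𝓞 K)}) = 1 := by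
    rw [htop, ← Ideal.one_eq_top, map_one]
  rw [absNorm_nat] at h1
  have h3 : (Algebra.norm ℤ (16 : 𝓞 K)) = 256 := by
    have h := norm_real D (16 : 𝓞 K)
    have h0 : ((16 : 𝓞 K) : K) = 16 := map_ofNat (algebraMap (𝓞 K) K) 16
    have h4 : algebraMap K ℝ ((16 : 𝓞 K) : K) = 16 := by rw [h0, map_ofNat]
    have h5 : σ₂ ((16 : 𝓞 K) : K) = 16 := by rw [h0, map_ofNat]
    rw [h4, h5] at h
    have h6 : ((Algebra.norm ℤ (16 : 𝓞 K) : ℤ) : ℝ) = ((256 : ℤ) : ℝ) := by rw [h]; norm_num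
    exact_mod_cast h6
  rw [h3] at h1
  norm_num at h1

lemma F24_chi' (D : FD σ₂ e) {m : Ideal (𝓞 K)} (hj : m ≤ Ideal.span {(16 : 𝓞 K)}) {x y : 𝓞 K}
    (hx : x - 1 ∈ m) (hy : y - 1 ∈ m)
    (hs : 0 < σ₂ (x : K) * σ₂ (y : K)) : chiI e (Ideal.span {x}) = chiI e (Ideal.span {y}) := by
  have h1 := chi_rec D (hj hx)
  have h2 := chi_rec D (hj hy)
  rcases mul_pos_iff.1 hs with h | h
  · rw [h1.1 h.1, h2.1 h.2]
  · rw [h1.2 h.1, h2.2 h.2]

lemma F24_gen (D : FD σ₂ e) {k : ℕ} {m : Ideal (𝓞 K)} (hj4 : m ≤ Ideal.span {(16 : 𝓞 K)})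
    (hnrm : ∀ b : 𝓞 K, b - 1 ∈ m → (2 : ℤ) ^ k ∣ Algebra.norm ℤ b - 1)
    {I I' : Ideal (𝓞 K)} (hI : I ≠ ⊥)
    (hI' : I' ≠ ⊥) {J J' : primeTo (K := K) m}
    (hJ : ((J : (FI K)ˣ) : FI K) = (I : FI K)) (hJ' : ((J' : (FI K)ˣ) : FI K) = (I' : FI K))
    (h : cls σ₂ m J = cls σ₂ m J') :
    chiI e I = chiI e I' ∧ Real.cos (2 * Real.pi * (Ideal.absNorm I : ℕ) / 2 ^ k) =
      Real.cos (2 * Real.pi * (Ideal.absNorm I' : ℕ) / 2 ^ k) := by
  have hmtop : m ≠ ⊤ := fun h => F24_top (K := K) D (top_le_iff.1 (h ▸ hj4))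
  rw [cls_eq_iff] at h
  obtain ⟨α, ⟨a, b, hb, hab, hα⟩, hpos, hspan⟩ := h
  have hb0 : b ≠ 0 := by
    rintro rfl
    rw [hα] at hpos
    simp at hpos
  have ha0 : a ≠ 0 := by
    rintro rfl
    rw [hα] at hpos
    simp at hpos
  have hbK : (b : K) ≠ 0 := coe_ne_zero' hb0
  have ha := coprime_of_sub_mem hb hab
  -- the equation of ideals
  have heq : Ideal.span {a} * I = Ideal.span {b} * I' := by
    have h1 : ((J' : (FI K)ˣ) : FI K) = ((J : (FI K)ˣ) : FI K) *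
        FractionalIdeal.spanSingleton (𝓞 K)⁰ α := by
      rw [← hspan, ← Units.val_mul, mul_inv_cancel_left]
    rw [hJ, hJ', hα] at h1
    have h2 : (Ideal.span {b} : Ideal (𝓞 K)) * (I' : FI K) =
        ((Ideal.span {a} : Ideal (𝓞 K)) : FI K) * (I : FI K) := by
      rw [h1, coe_span_singleton, coe_span_singleton, mul_comm (I : FI K), ← mul_assoc,
        FractionalIdeal.spanSingleton_mul_spanSingleton]
      congr 2
      field_simp
    rw [← FractionalIdeal.coeIdeal_mul, ← FractionalIdeal.coeIdeal_mul] at h2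
    exact (FractionalIdeal.coeIdeal_injective h2).symm
  -- inverse of `b`
  obtain ⟨b', hbb'⟩ : ∃ b' : 𝓞 K, b * b' - 1 ∈ m := by
    obtain ⟨x, hx, y, hy, hxy⟩ := Ideal.isCoprime_iff_exists.1 hb
    obtain ⟨c, rfl⟩ := Ideal.mem_span_singleton'.1 hx
    refine ⟨c, ?_⟩
    have : b * c - 1 = -y := by linear_combination hxy
    rw [this]
    exact m.neg_mem hy
  have hab' : a * b' - 1 ∈ m := by
    have : a * b' - 1 = b' * (a - b) + (b * b' - 1) := by ring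
    rw [this]
    exact m.add_mem (m.mul_mem_left _ hab) hbb'
  have hb'0 : b' ≠ 0 := by
    rintro rfl
    apply hmtop
    rw [Ideal.eq_top_iff_one]
    have := m.neg_mem hbb'
    simpa using this
  have hσ : ∀ x : 𝓞 K, x ≠ 0 → σ₂ (x : K) ≠ 0 := fun x hx =>
    (map_ne_zero σ₂).2 (coe_ne_zero' hx)
  have hsg : 0 < σ₂ ((a * b' : 𝓞 K) : K) * σ₂ ((b * b' : 𝓞 K) : K) := by
    rw [hα, map_div₀] at hpos
    have h1 : 0 < σ₂ (a : K) * σ₂ (b : K) := by
      have h2 := mul_pos hpos (mul_self_pos.2 (hσ b hb0))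
      have h3 : σ₂ (a : K) / σ₂ (b : K) * (σ₂ (b : K) * σ₂ (b : K)) =
          σ₂ (a : K) * σ₂ (b : K) := by
        field_simp [hσ b hb0]
      rwa [h3] at h2
    push_cast
    rw [map_mul, map_mul]
    have h4 := mul_pos h1 (mul_self_pos.2 (hσ b' hb'0))
    have h5 : σ₂ (a : K) * σ₂ (b' : K) * (σ₂ (b : K) * σ₂ (b' : K)) =
        σ₂ (a : K) * σ₂ (b : K) * (σ₂ (b' : K) * σ₂ (b' : K)) := by ring
    rw [h5]
    exact h4
  have hspa := span_ne_bot ha0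
  have hspb := span_ne_bot hb0
  refine ⟨?_, ?_⟩
  · have h1 := F24_chi' D hj4 hab' hbb' hsg
    rw [chiI_span_mul e ha0 hb'0, chiI_span_mul e hb0 hb'0] at h1
    have h2 : chiI e (Ideal.span {a}) = chiI e (Ideal.span {b}) := by
      rcases chiI_sq e (Ideal.span {b'}) with h | h <;> rw [h] at h1 <;> linarith
    have h3 : chiI e (Ideal.span {a} * I) = chiI e (Ideal.span {b} * I') := by rw [heq]
    rw [chiI_mul e hspa hI, chiI_mul e hspb hI', h2] at h3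
    rcases chiI_sq e (Ideal.span {b}) with h | h <;> rw [h] at h3 <;> linarith
  · have h1 := hnrm _ hab'
    have h2 := hnrm _ hbb'
    rw [map_mul] at h1 h2
    have h3 : (2 : ℤ) ^ k ∣ Algebra.norm ℤ a - Algebra.norm ℤ b := by
      have h4 : Algebra.norm ℤ a - Algebra.norm ℤ b =
          Algebra.norm ℤ b * (Algebra.norm ℤ a * Algebra.norm ℤ b' - 1) -
          Algebra.norm ℤ a * (Algebra.norm ℤ b * Algebra.norm ℤ b' - 1) := by ring
      rw [h4]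
      exact dvd_sub (dvd_mul_of_dvd_right h1 _) (dvd_mul_of_dvd_right h2 _)
    have h5 := F24_abs h3
    rw [← absNorm_nat, ← absNorm_nat] at h5
    have h6 : (Ideal.absNorm (Ideal.span {a}) : ℤ) * (Ideal.absNorm I : ℤ) =
        (Ideal.absNorm (Ideal.span {b}) : ℤ) * (Ideal.absNorm I' : ℤ) := by
      rw [← Nat.cast_mul, ← Nat.cast_mul, ← map_mul, ← map_mul, heq]
    have hcop : IsCoprime ((2 : ℤ) ^ k) (Ideal.absNorm (Ideal.span {b}) : ℤ) := by
      rw [absNorm_nat]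
      have h7 : IsCoprime ((2 : ℤ) ^ k) (Algebra.norm ℤ b) := by
        obtain ⟨c, hc⟩ := h2
        exact ⟨-c, Algebra.norm ℤ b', by linear_combination hc⟩
      rcases Int.natAbs_eq (Algebra.norm ℤ b) with h | h
      · rwa [← h]
      · have h8 : ((Algebra.norm ℤ b).natAbs : ℤ) = -Algebra.norm ℤ b := by omega
        rw [h8]
        exact (IsCoprime.neg_right_iff _ _).2 h7
    have key : (2 : ℤ) ^ k ∣ ((Ideal.absNorm I : ℕ) : ℤ) - ((Ideal.absNorm I' : ℕ) : ℤ) ∨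
        (2 : ℤ) ^ k ∣ ((Ideal.absNorm I : ℕ) : ℤ) + ((Ideal.absNorm I' : ℕ) : ℤ) := by
      rcases h5 with h5 | h5
      · left
        apply hcop.dvd_of_dvd_mul_left
        have h9 : (Ideal.absNorm (Ideal.span {b}) : ℤ) * (((Ideal.absNorm I : ℕ) : ℤ) -
            ((Ideal.absNorm I' : ℕ) : ℤ)) = -(((Ideal.absNorm (Ideal.span {a}) : ℤ) -
            (Ideal.absNorm (Ideal.span {b}) : ℤ)) * (Ideal.absNorm I : ℤ)) := by
          linear_combination h6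
        rw [h9]
        exact (dvd_neg).2 (dvd_mul_of_dvd_left h5 _)
      · right
        apply hcop.dvd_of_dvd_mul_left
        have h9 : (Ideal.absNorm (Ideal.span {b}) : ℤ) * (((Ideal.absNorm I : ℕ) : ℤ) +
            ((Ideal.absNorm I' : ℕ) : ℤ)) = (((Ideal.absNorm (Ideal.span {a}) : ℤ) +
            (Ideal.absNorm (Ideal.span {b}) : ℤ)) * (Ideal.absNorm I : ℤ)) := by
          linear_combination (-1 : ℤ) * h6
        rw [h9]
        exact dvd_mul_of_dvd_left h5 _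
    have := (cos_mod_iff k (Ideal.absNorm I : ℤ) (Ideal.absNorm I' : ℤ)).2 key
    simpa using this

/-- TASK F24 (the coordinates depend only on the ray class).
PROOF. `m = span {2} ^ j`. `cls J = cls J'` gives (`cls_eq_iff`) `α ∈ K` with `OneMod m α`, `0 < σ₂ α`, `J⁻¹ J' = (α)`; `α = a / b`, `IsCoprime (span {b}) m`, `a - b ∈ m`, so `a`, `b ≠ 0` (`σ₂ α > 0`; `b ≠ 0` follows from `α ≠ 0`) and `span {a} * I = span {b} * I'` (as
fractional ideals: `(b) J' = (a) J`; `FractionalIdeal.coeIdeal_mul`, `coeIdeal_span_singleton`, `FractionalIdeal.coeIdeal_inj`). `IsCoprime (span {a}) m` (`coprime_of_sub_mem`).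
Since `b` is prime to `m`, there is `b'` with `b b' - 1 ∈ m` (`Ideal.isCoprime_iff_exists`), then `a b' - 1 ∈ m`. `16 ∣ 2 ^ j` (`hL.j4`), so `m ≤ span {16}` and `chi_rec` (F14) applies to `b b'` and `a b'`: `σ₂ (b b')` and `σ₂ (a b')` have the same sign (`σ₂ (a / b) > 0`) and are nonzero
(`b' ≠ 0` as `m ≠ ⊤`), so `chiI e (span {b b'}) = chiI e (span {a b'})`, hence `chiI e (span {a}) = chiI e (span {b})` (`chiI_span_mul`, the symbols are `± 1`: `chiI_sq`). From `span {a} * I = span {b} * I'` and `chiI_mul`: `chiI e I = chiI e I'`.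
Norms: `2 ^ k ∣ norm (b b') - 1` and `2 ^ k ∣ norm (a b') - 1` (`hL.nrm`), so `norm a ≡ norm a norm b' norm b ≡ norm b` modulo `2 ^ k` and both are odd (`k ≥ 1`), `absNorm (span {a}) = |norm a|` (`absNorm_nat`) so `N(a) ≡ ± N(b)` modulo `2 ^ k`, and from
`N(a) N(I) = N(b) N(I')` (`map_mul`): `N(b) (N(I') ∓ N(I)) ≡ 0` modulo `2 ^ k`, `N(b)` odd: cancel. `cos_mod_iff` (F19). -/
theorem coords_cls (D : FD σ₂ e) {j k : ℕ} (hL : Lev e j k) {I I' : Ideal (𝓞 K)} (hI : I ≠ ⊥)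
    (hI' : I' ≠ ⊥) {J J' : primeTo (K := K) ((Ideal.span {(2 : 𝓞 K)}) ^ j)}
    (hJ : ((J : (FI K)ˣ) : FI K) = (I : FI K)) (hJ' : ((J' : (FI K)ˣ) : FI K) = (I' : FI K))
    (h : cls σ₂ ((Ideal.span {(2 : 𝓞 K)}) ^ j) J = cls σ₂ ((Ideal.span {(2 : 𝓞 K)}) ^ j) J') :
    chiI e I = chiI e I' ∧ Real.cos (2 * Real.pi * (Ideal.absNorm I : ℕ) / 2 ^ k) =
      Real.cos (2 * Real.pi * (Ideal.absNorm I' : ℕ) / 2 ^ k) :=
  F24_gen D (F24_le16 hL.j4) hL.nrm hI hI' hJ hJ' h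

end Pool.Agent.STg.F
end

section

/-!
# Existence of the data `UD`
-/

namespace Pool.Agent.STg

theorem exists_ud {T : ℤ} (hT : T ≠ 0) : ∃ U : UD, U.T = T := by
  obtain ⟨δ, γ, h1, h2, h3⟩ := exists_fac hT
  obtain ⟨Ψ, hΨ⟩ := exists_isPsi h2
  exact ⟨⟨T, δ, γ, Ψ, h1, h2, h3, hΨ⟩, rfl⟩

end Pool.Agent.STg
end
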