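import Mathlib
import Pool.Agent.Lib.MP_1ef7cf_nt_g.Mg.G001

section

set_option autoImplicit false

open Complex Filter Topology
open scoped ComplexConjugate

namespace Pool.Agent.STg.An

/-! behaviour of the theta kernels at infinity. -/

theorem AnK3_aux (f g : ℝ → ℝ) (a b p q r : ℝ) (hp : 0 < p) (hq : 0 < q)
    (hf : (fun t => f t - a) =O[atTop] fun t => Real.exp (-p * t))
    (hg : (fun t => g t - b) =O[atTop] fun t => Real.exp (-q * t)) :
    (fun t : ℝ => f t * g t - a * b) =O[atTop] fun t : ℝ => t ^ r := by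
  have hf' : (fun t => f t - a) =O[atTop] fun t : ℝ => t ^ r :=
    hf.trans (isLittleO_exp_neg_mul_rpow_atTop hp r).isBigO
  have hg' : (fun t => g t - b) =O[atTop] fun t : ℝ => t ^ r :=
    hg.trans (isLittleO_exp_neg_mul_rpow_atTop hq r).isBigO
  have hg0 : (fun t => g t - b) =O[atTop] fun _ : ℝ => (1 : ℝ) := by
    have h := hg.trans (isLittleO_exp_neg_mul_rpow_atTop hq 0).isBigO
    simpa using h
  have hg1 : g =O[atTop] fun _ : ℝ => (1 : ℝ) := by
    have h := hg0.add (Asymptotics.isBigO_const_const b (one_ne_zero (α := ℝ)) atTop)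
    simpa using h
  have h1 : (fun t => (f t - a) * g t) =O[atTop] fun t : ℝ => t ^ r := by
    simpa using hf'.mul hg1
  have h2 : (fun t => a * (g t - b)) =O[atTop] fun t : ℝ => t ^ r := hg'.const_mul_left a
  have h3 : (fun t : ℝ => f t * g t - a * b) = fun t => (f t - a) * g t + a * (g t - b) := by
    funext t; ring
  rw [h3]
  exact h1.add h2

open Classical in
/-- Proof: with `a = if x = 0 then 1 else 0`, `b = if y = 0 then 1 else 0` and `f, g` the two kernels,
`f g - a b = (f - a) g + a (g - b)`, where `g = O(1)`, `f - a, g - b = O(exp (-p t))`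
(`HurwitzZeta.isBigO_atTop_evenKernel_sub`) and `exp (-p t) = O(t ^ r)`
(`isLittleO_exp_neg_mul_rpow_atTop`); compare `HurwitzZeta.hurwitzEvenFEPair`. -/
theorem ek_top (x y : UnitAddCircle) (r : ℝ) :
    (fun t : ℝ => ((HurwitzZeta.evenKernel x t * HurwitzZeta.evenKernel y t : ℝ) : ℂ) -
      (if x = 0 ∧ y = 0 then 1 else 0)) =O[atTop] fun t : ℝ => t ^ r := by
  obtain ⟨p, hp, hp'⟩ := HurwitzZeta.isBigO_atTop_evenKernel_sub x
  obtain ⟨q, hq, hq'⟩ := HurwitzZeta.isBigO_atTop_evenKernel_sub y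
  have h := AnK3_aux _ _ _ _ p q r hp hq hp' hq'
  have h2 := Complex.isBigO_ofReal_left.mpr h
  refine h2.congr_left (fun t => ?_)
  by_cases hx : x = 0 <;> by_cases hy : y = 0 <;> simp [hx, hy]

/-- Proof: the same with `HurwitzZeta.isBigO_atTop_cosKernel_sub`. -/
theorem ck_top (x y : UnitAddCircle) (r : ℝ) :
    (fun t : ℝ => ((HurwitzZeta.cosKernel x t * HurwitzZeta.cosKernel y t : ℝ) : ℂ) - 1)
      =O[atTop] fun t : ℝ => t ^ r := by
  obtain ⟨p, hp, hp'⟩ := HurwitzZeta.isBigO_atTop_cosKernel_sub x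
  obtain ⟨q, hq, hq'⟩ := HurwitzZeta.isBigO_atTop_cosKernel_sub y
  have h := AnK3_aux _ _ _ _ p q r hp hq hp' hq'
  have h2 := Complex.isBigO_ofReal_left.mpr h
  refine h2.congr_left (fun t => ?_)
  simp

end Pool.Agent.STg.An
end

section

set_option autoImplicit false

open Complex Filter Topology
open scoped ComplexConjugate

namespace Pool.Agent.STg.An

open Classical in
/-- The pair of theta kernels of the lattice `ℤ[i]` shifted by `x + y i`. -/
noncomputable def FEP (x y : UnitAddCircle) : WeakFEPair ℂ where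
  f := fun t : ℝ => ((HurwitzZeta.evenKernel x t * HurwitzZeta.evenKernel y t : ℝ) : ℂ)
  g := fun t : ℝ => ((HurwitzZeta.cosKernel x t * HurwitzZeta.cosKernel y t : ℝ) : ℂ)
  k := 1
  ε := 1
  f₀ := if x = 0 ∧ y = 0 then 1 else 0
  g₀ := 1
  hf_int := ek_int x y
  hg_int := ck_int x y
  hk := one_pos
  hε := one_ne_zero
  h_feq := fun t ht => ek_feq x y t ht
  hf_top := fun r => ek_top x y r
  hg_top := fun r => ck_top x y r

end Pool.Agent.STg.An
end
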