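import Pool.Agent.Lib.MP_1ef7cf_nt_g.AnDefs
import Pool.Agent.Lib.MP_1ef7cf_nt_g.Mg.G004
import Pool.Agent.Lib.MP_1ef7cf_nt_g.Mg.G001

section

set_option autoImplicit false

open Complex Filter Topology
open scoped ComplexConjugate

namespace Pool.Agent.STg.An

/-! uniqueness of the continued Dirichlet series; periodicity. -/

/-- Proof: for `1 < re s` the two `HasSum`s are equal after the reindexing `b ↦ a + b`, so
`F s / (s - 1) = G s / (s - 1)`, `F s = G s`; `entire_eq`. -/
theorem DirS_unique {z : ℂ} {a : GaussianInt} {F G : ℂ → ℂ} (hF : DirS z F)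
    (hG : DirS (z + a) G) : F = G := by
  apply entire_eq hF.1 hG.1
  intro s hs
  have h1 := hF.2 s hs
  have h2 := hG.2 s hs
  have h3 := ((Equiv.addLeft a).hasSum_iff
    (f := fun b : GaussianInt => ((‖z + (b : ℂ)‖ : ℝ) : ℂ) ^ (-2 * s))).2 h1
  have h4 : ((fun b : GaussianInt => ((‖z + (b : ℂ)‖ : ℝ) : ℂ) ^ (-2 * s)) ∘ (Equiv.addLeft a)) =
      fun b : GaussianInt => ((‖z + (a : ℂ) + (b : ℂ)‖ : ℝ) : ℂ) ^ (-2 * s) := by
    funext b
    simp only [Function.comp, Equiv.coe_addLeft]
    rw [map_add, add_assoc]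
  rw [h4] at h3
  have h5 := h3.unique h2
  have hs1 : s - 1 ≠ 0 := by
    intro h
    have h4 : s = 1 := sub_eq_zero.1 h
    rw [h4] at hs
    simp at hs
  field_simp at h5
  exact h5

/-- Proof: `DirS_unique` and the formula for the derivative in `Kron`. -/
theorem ell_add {c : ℝ} (hK : Kron c) {z : ℂ} (hz : z ∉ Lam) (a : GaussianInt) :
    ell (z + a) = ell z := by
  have hz' : z + (a : ℂ) ∉ Lam := fun h => hz ((add_coe_mem_iff a).1 h)
  obtain ⟨F, hF, -, -, hFd⟩ := hK z hz
  obtain ⟨G, hG, -, -, hGd⟩ := hK (z + a) hz'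
  have h1 := DirS_unique hF hG
  rw [h1, hGd] at hFd
  have h2 : c - 2 * ell (z + a) = c - 2 * ell z := by exact_mod_cast hFd
  linarith

/-- Proof: `mem_Lam` and induction on the integers. -/
theorem per_all {f : ℂ → ℂ} (h1 : ∀ z, f (z + 1) = f z) (hI : ∀ z, f (z + I) = f z) (z : ℂ)
    (a : GaussianInt) : f (z + a) = f z := by
  have key : ∀ (w : ℂ), (∀ z, f (z + w) = f z) → ∀ (n : ℤ) (z : ℂ), f (z + n * w) = f z := by
    intro w hw n
    induction n using Int.induction_on with
    | zero => intro z; simp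
    | succ i ih =>
      intro z
      have e : z + (((i : ℤ) + 1 : ℤ) : ℂ) * w = z + ((i : ℤ) : ℂ) * w + w := by push_cast; ring
      rw [e, hw, ih]
    | pred i ih =>
      intro z
      have e : z + ((-(i : ℤ) - 1 : ℤ) : ℂ) * w + w = z + ((-(i : ℤ) : ℤ) : ℂ) * w := by
        push_cast; ring
      rw [← hw, e, ih]
  have h2 : z + (a : ℂ) = z + ((a.re : ℤ) : ℂ) * 1 + ((a.im : ℤ) : ℂ) * I := by
    rw [GaussianInt.toComplex_def]
    ring
  rw [h2, key I hI, key 1 h1]

end Pool.Agent.STg.An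
end

section

set_option autoImplicit false

open Complex Filter Topology
open scoped ComplexConjugate

namespace Pool.Agent.STg.An

/-! Liouville's theorem for doubly periodic functions. -/

theorem AnM2_per {f : ℂ → ℂ} {p : ℂ} (hp : ∀ z, f (z + p) = f z) (m : ℤ) (z : ℂ) :
    f (z + (m : ℂ) * p) = f z := by
  induction m using Int.induction_on with
  | zero => simp
  | succ i ih =>
    have : z + ((((i : ℤ) + 1 : ℤ)) : ℂ) * p = (z + ((i : ℤ) : ℂ) * p) + p := by
      push_cast
      ring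
    rw [this, hp, ih]
  | pred i ih =>
    have h1 := hp (z + ((-(i : ℤ) - 1 : ℤ) : ℂ) * p)
    have : z + ((-(i : ℤ) - 1 : ℤ) : ℂ) * p + p = z + ((-(i : ℤ) : ℤ) : ℂ) * p := by
      push_cast
      ring
    rw [this] at h1
    rw [← h1, ih]

theorem AnM2_lam {f : ℂ → ℂ} (hp1 : ∀ z, f (z + 1) = f z) (hpI : ∀ z, f (z + I) = f z)
    {a : ℂ} (ha : a ∈ Lam) (z : ℂ) : f (z + a) = f z := by
  obtain ⟨m, n, rfl⟩ := mem_Lam.mp ha
  have h1 := AnM2_per hp1 m z
  rw [mul_one] at h1
  rw [← add_assoc, AnM2_per hpI n, h1]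

/-- Proof. First `f (z + a) = f z` for all `a ∈ Lam` (`mem_Lam`, induction on integers). Let
`g z = if z ∈ Lam then κ else f z`; then `g (z + a) = g z` for `a ∈ Lam`. `g` is differentiable at every
point: at `z ∉ Lam` it equals `f` near `z` (`isClosed_Lam`); at `0` it is differentiable on a punctured
neighbourhood (`eventually_notMem one_ne_zero`) and continuous (`hl`), so it is analytic
(`Complex.analyticAt_of_differentiable_on_punctured_nhds_of_continuousAt`); at `a ∈ Lam` by
translation. So `g` is entire. It is bounded: every point is congruent to a point of the compact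
set `closedBall 0 2` (subtract `⌊re z⌋ + ⌊im z⌋ i`). By `Differentiable.apply_eq_apply_of_bounded`
`g` is constant, equal to `g 0 = κ`. -/
theorem liouville {f : ℂ → ℂ} (hp1 : ∀ z, f (z + 1) = f z) (hpI : ∀ z, f (z + I) = f z)
    (hd : ∀ z, z ∉ Lam → DifferentiableAt ℂ f z) {κ : ℂ} (hl : Tendsto f (𝓝[≠] 0) (𝓝 κ)) :
    ∀ z, z ∉ Lam → f z = κ := by
  classical
  let g : ℂ → ℂ := fun z => if z ∈ Lam then κ else f z
  have hg0 : ∀ z ∈ Lam, g z = κ := fun z hz => if_pos hz
  have hg1 : ∀ z, z ∉ Lam → g z = f z := fun z hz => if_neg hz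
  have hgper : ∀ a ∈ Lam, ∀ z, g (z + a) = g z := by
    intro a ha z
    by_cases hz : z ∈ Lam
    · rw [hg0 z hz, hg0 _ (add_mem_Lam hz ha)]
    · have hz' : z + a ∉ Lam := by
        intro h
        apply hz
        have := sub_mem_Lam h ha
        rwa [add_sub_cancel_right] at this
      rw [hg1 z hz, hg1 _ hz', AnM2_lam hp1 hpI ha]
  have hdiff1 : ∀ z, z ∉ Lam → DifferentiableAt ℂ g z := by
    intro z hz
    refine (hd z hz).congr_of_eventuallyEq ?_
    filter_upwards [isClosed_Lam.isOpen_compl.mem_nhds hz] with w hw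
    exact hg1 w hw
  have hpunct : ∀ᶠ z in 𝓝[≠] (0 : ℂ), z ∉ Lam := by
    filter_upwards [eventually_notMem (α := 1) one_ne_zero] with z hz
    rwa [one_mul] at hz
  have hcont : ContinuousAt g 0 := by
    rw [continuousAt_iff_punctured_nhds, hg0 0 zero_mem_Lam]
    refine hl.congr' ?_
    filter_upwards [hpunct] with z hz
    exact (hg1 z hz).symm
  have hdiff0 : DifferentiableAt ℂ g 0 := by
    refine (Complex.analyticAt_of_differentiable_on_punctured_nhds_of_continuousAt ?_
      hcont).differentiableAt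
    filter_upwards [hpunct] with z hz
    exact hdiff1 z hz
  have hdiff : Differentiable ℂ g := by
    intro z
    by_cases hz : z ∈ Lam
    · have h1 : g = fun w => g (w + (-z)) := by
        funext w
        exact (hgper (-z) (neg_mem_Lam hz) w).symm
      rw [h1]
      have h2 : DifferentiableAt ℂ g (z + (-z)) := by
        rw [add_neg_cancel]
        exact hdiff0
      exact h2.comp z (differentiableAt_id.add_const (-z))
    · exact hdiff1 z hz
  have hbdd : Bornology.IsBounded (Set.range g) := by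
    have hcomp : IsCompact (g '' Metric.closedBall 0 2) :=
      (isCompact_closedBall (0 : ℂ) 2).image hdiff.continuous
    refine hcomp.isBounded.subset ?_
    rintro _ ⟨z, rfl⟩
    have ha : ((⌊z.re⌋ : ℤ) : ℂ) + ((⌊z.im⌋ : ℤ) : ℂ) * I ∈ Lam := mem_Lam.mpr ⟨_, _, rfl⟩
    refine ⟨z + -(((⌊z.re⌋ : ℤ) : ℂ) + ((⌊z.im⌋ : ℤ) : ℂ) * I), ?_, hgper _ (neg_mem_Lam ha) z⟩
    rw [Metric.mem_closedBall, dist_zero_right]
    have hre : (z + -(((⌊z.re⌋ : ℤ) : ℂ) + ((⌊z.im⌋ : ℤ) : ℂ) * I)).re = Int.fract z.re := by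
      rw [← Int.self_sub_floor]
      simp only [Complex.add_re, Complex.neg_re, Complex.add_im, Complex.neg_im, Complex.mul_re,
        Complex.mul_im, Complex.intCast_re, Complex.intCast_im, Complex.I_re, Complex.I_im]
      ring
    have him : (z + -(((⌊z.re⌋ : ℤ) : ℂ) + ((⌊z.im⌋ : ℤ) : ℂ) * I)).im = Int.fract z.im := by
      rw [← Int.self_sub_floor]
      simp only [Complex.add_re, Complex.neg_re, Complex.add_im, Complex.neg_im, Complex.mul_re,
        Complex.mul_im, Complex.intCast_re, Complex.intCast_im, Complex.I_re, Complex.I_im]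
      ring
    refine (Complex.norm_le_abs_re_add_abs_im _).trans ?_
    rw [hre, him, abs_of_nonneg (Int.fract_nonneg _), abs_of_nonneg (Int.fract_nonneg _)]
    have h1 := Int.fract_lt_one z.re
    have h2 := Int.fract_lt_one z.im
    linarith
  intro z hz
  rw [← hg1 z hz, hdiff.apply_eq_apply_of_bounded hbdd z 0, hg0 0 zero_mem_Lam]

end Pool.Agent.STg.An
end
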