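import Pool.Agent.Lib.MP_1ef7cf_nt_g.Mg.G008
import Pool.Agent.Lib.MP_1ef7cf_nt_g.Mg.G009
import Pool.Agent.Lib.MP_1ef7cf_nt_g.Mg.G007

section

set_option autoImplicit false

open Complex Filter Topology
open scoped ComplexConjugate

namespace Pool.Agent.STg.An

/-! symmetries of `sg` and the derivative at `0`. -/

theorem sg_zero : sg 0 = 0 := by
  unfold sg
  rw [zero_mul]

theorem sg_I (z : ℂ) : sg (I * z) = I * sg z := by
  unfold sg
  rw [mul_pow, I_pow_four, one_mul, mul_assoc]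

theorem sg_neg (z : ℂ) : sg (-z) = -sg z := by
  unfold sg
  have h : (-z) ^ 4 = z ^ 4 := by ring
  rw [h, neg_mul]

/-- Proof: `sg z = z * f z` with `f` differentiable (`prod_diff`), `f 0 = 1`. -/
theorem sg_hasDerivAt : HasDerivAt sg 1 0 := by
  have h1 := (prod_diff 0).hasDerivAt
  have h2 := (hasDerivAt_id (0 : ℂ)).mul h1
  have h3 : ∏' p : ℕ × ℕ, (1 - (0 : ℂ) ^ 4 / gp p ^ 4) = 1 := by
    have h4 : (fun p : ℕ × ℕ => (1 - (0 : ℂ) ^ 4 / gp p ^ 4)) = fun _ => 1 := by
      funext p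
      simp
    rw [h4, tprod_one]
  have h5 : HasDerivAt sg (1 * (∏' p : ℕ × ℕ, (1 - (0 : ℂ) ^ 4 / gp p ^ 4)) +
    id (0 : ℂ) * deriv (fun z : ℂ => ∏' p : ℕ × ℕ, (1 - z ^ 4 / gp p ^ 4)) 0) 0 := h2
  rw [h3, id, zero_mul, add_zero, one_mul] at h5
  exact h5

/-- Proof: from `sg_hasDerivAt` (`hasDerivAt_iff_tendsto_slope`). -/
theorem sg_div_tendsto : Tendsto (fun z => sg z / z) (𝓝[≠] 0) (𝓝 1) := by
  have h1 := hasDerivAt_iff_tendsto_slope.1 sg_hasDerivAt
  refine h1.congr fun z => ?_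
  rw [slope_def_field, sg_zero, sub_zero, sub_zero]

theorem ell_neg (z : ℂ) : ell (-z) = ell z := by
  unfold ell
  rw [sg_neg, norm_neg, norm_neg]

theorem ell_I (z : ℂ) : ell (I * z) = ell z := by
  unfold ell
  rw [sg_I, norm_mul, norm_mul, norm_I, one_mul, one_mul]

end Pool.Agent.STg.An
end

section

set_option autoImplicit false

open Complex Filter Topology
open scoped ComplexConjugate

namespace Pool.Agent.STg.An

/-! the quasi-periodicity of `sg`. -/

theorem AnE1_gen {c : ℝ} (hK : Kron c) (a : GaussianInt) (w : ℂ) (hw : (a : ℂ) = w) (hn : ‖w‖ = 1)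
    (hh : w / 2 ∉ Lam) (z : ℂ) :
    sg (z + w) = -(cexp (Real.pi * (conj w * z + 1 / 2)) * sg z) := by
  have hmod : ∀ z : ℂ, ‖sg (z + w)‖ = 1 * ‖cexp (Real.pi * (conj w * z + 1 / 2)) * sg z‖ := by
    intro z
    rw [one_mul, norm_mul]
    by_cases hz : z ∈ Lam
    · have hz' : z + w ∈ Lam := by rw [← hw]; exact (add_coe_mem_iff a).2 hz
      rw [(sg_eq_zero_iff _).2 hz, (sg_eq_zero_iff _).2 hz']
      simp
    · have hz' : z + w ∉ Lam := by
        rw [← hw]
        exact fun h => hz ((add_coe_mem_iff a).1 h)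
      have h1 := ell_add hK hz a
      rw [hw] at h1
      unfold ell at h1
      have h2 : ‖z + w‖ ^ 2 = ‖z‖ ^ 2 + 1 + 2 * (conj w * z).re := by
        rw [Complex.sq_norm, Complex.normSq_add, ← Complex.sq_norm, ← Complex.sq_norm, hn,
          mul_comm z]
        ring
      have hs1 : 0 < ‖sg z‖ := norm_pos_iff.2 (sg_ne_zero hz)
      have hs2 : 0 < ‖sg (z + w)‖ := norm_pos_iff.2 (sg_ne_zero hz')
      have h3 : Real.log ‖sg (z + w)‖ = Real.log ‖sg z‖ + Real.pi * ((conj w * z).re + 1 / 2) := by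
        rw [h2] at h1
        linarith
      have h4 : ‖cexp (Real.pi * (conj w * z + 1 / 2))‖ =
          Real.exp (Real.pi * ((conj w * z).re + 1 / 2)) := by
        rw [Complex.norm_exp]
        congr 1
        rw [Complex.re_ofReal_mul, Complex.add_re]
        norm_num
      rw [h4]
      have h5 := congrArg Real.exp h3
      rw [Real.exp_log hs2, Real.exp_add, Real.exp_log hs1] at h5
      rw [h5, mul_comm]
  have hf : DifferentiableOn ℂ (fun z => sg (z + w)) (∅ : Set ℂ)ᶜ :=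
    (sg_diff.comp (by fun_prop : Differentiable ℂ fun z : ℂ => z + w)).differentiableOn
  have hg : DifferentiableOn ℂ (fun z => cexp (Real.pi * (conj w * z + 1 / 2)) * sg z)
      (∅ : Set ℂ)ᶜ := by
    apply Differentiable.differentiableOn
    have h1 : Differentiable ℂ fun z : ℂ => cexp (Real.pi * (conj w * z + 1 / 2)) := by fun_prop
    exact h1.mul sg_diff
  obtain ⟨κ, hκ⟩ := modulus isClosed_empty Set.countable_empty hf hg (fun z _ => hmod z)
  have h1 := hκ (-(w / 2)) (by simp)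
  have h2 : -(w / 2) + w = w / 2 := by ring
  have hww : conj w * w = 1 := by
    rw [mul_comm, Complex.mul_conj, Complex.normSq_eq_norm_sq, hn]
    simp
  have h3 : conj w * -(w / 2) + 1 / 2 = 0 := by
    have : conj w * -(w / 2) = -(conj w * w) / 2 := by ring
    rw [this, hww]
    ring
  rw [h2, h3, mul_zero, Complex.exp_zero, one_mul, sg_neg] at h1
  have h4 := sg_ne_zero hh
  have h5 : κ = -1 := by
    have h6 : (κ + 1) * sg (w / 2) = 0 := by
      have h7 : (κ + 1) * sg (w / 2) = sg (w / 2) - κ * -sg (w / 2) := by ring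
      rw [h7, ← h1, sub_self]
    rcases mul_eq_zero.1 h6 with h7 | h7
    · exact eq_neg_of_add_eq_zero_left h7
    · exact absurd h7 h4
  have h6 := hκ z (by simp)
  rw [h6, h5]
  ring

/-- Proof: from the definition of `ell`, `ell (z + 1) = ell z` (`ell_add`) gives
`‖sg (z + 1)‖ = ‖cexp (π (z + 1 / 2)) * sg z‖` for `z ∉ Lam` (`‖z + 1‖² = ‖z‖² + 2 re z + 1`), and both
sides vanish for `z ∈ Lam`. By `modulus` with `D = ∅`, `sg (z + 1) = κ * (cexp (π (z + 1 / 2)) * sg z)`;
`z = -1 / 2` and `sg (-1 / 2) = -sg (1 / 2) ≠ 0` give `κ = -1`. -/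
theorem sg_add_one {c : ℝ} (hK : Kron c) (z : ℂ) :
    sg (z + 1) = -(cexp (Real.pi * (z + 1 / 2)) * sg z) := by
  have h := AnE1_gen hK 1 1 (by simp) (by simp) half_notMem z
  rw [map_one, one_mul] at h
  exact h

/-- Proof: the same with `‖z + I‖² = ‖z‖² + 2 im z + 1`, and `z = -I / 2`. -/
theorem sg_add_I {c : ℝ} (hK : Kron c) (z : ℂ) :
    sg (z + I) = -(cexp (Real.pi * (-(I * z) + 1 / 2)) * sg z) := by
  have hI : (((⟨0, 1⟩ : GaussianInt) : GaussianInt) : ℂ) = I := by
    rw [GaussianInt.toComplex_def]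
    simp
  have h := AnE1_gen hK ⟨0, 1⟩ I hI (by simp) I_half_notMem z
  rw [Complex.conj_I, neg_mul] at h
  exact h

end Pool.Agent.STg.An
end
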