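import Pool.Agent.Lib.MP_1ef7cf_nt_g.Mg.G010
import Pool.Agent.Lib.MP_1ef7cf_nt_g.Mg.G009

section

set_option autoImplicit false

open Complex Filter Topology
open scoped ComplexConjugate

namespace Pool.Agent.STg.An

/-! the functions `Phi`, algebraic properties. -/

theorem Phi_anti (u v : ℂ) : Phi v u = -Phi u v := by
  have h : sg (u - v) = -sg (v - u) := by rw [← sg_neg]; congr 1; ring
  rw [Phi, Phi, h, add_comm u v]
  ring

theorem Phi_neg (u z : ℂ) : Phi u (-z) = Phi u z := by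
  have h1 : sg (-z + u) = -sg (z - u) := by rw [← sg_neg]; congr 1; ring
  have h2 : sg (-z - u) = -sg (z + u) := by rw [← sg_neg]; congr 1; ring
  rw [Phi, Phi, h1, h2, sg_neg]
  ring

theorem Phi_self (u : ℂ) : Phi u u = 0 := by
  rw [Phi, sub_self, sg_zero]
  simp

theorem Phi_I (u z : ℂ) : Phi (I * u) (I * z) = -Phi u z := by
  have h1 : sg (I * z + I * u) = I * sg (z + u) := by rw [← mul_add, sg_I]
  have h2 : sg (I * z - I * u) = I * sg (z - u) := by rw [← mul_sub, sg_I]
  rw [Phi, Phi, h1, h2, sg_I, sg_I]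
  have h3 : -(I * sg (z + u) * (I * sg (z - u))) = sg (z + u) * sg (z - u) := by
    linear_combination (-(sg (z + u) * sg (z - u))) * I_mul_I
  have h4 : (I * sg z) ^ 2 * (I * sg u) ^ 2 = sg z ^ 2 * sg u ^ 2 := by
    have : (I : ℂ) ^ 2 = -1 := I_sq
    rw [mul_pow, mul_pow, this]; ring
  rw [h3, h4]
  ring

/-- Proof: `sg_add_one` for `z`, `z + u`, `z - u`; if `sg z = 0` both sides are `0`. -/
theorem Phi_add_one {c : ℝ} (hK : Kron c) (u z : ℂ) : Phi u (z + 1) = Phi u z := by
  have h1 : sg (z + 1 + u) = -(cexp (Real.pi * (z + u + 1 / 2)) * sg (z + u)) := by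
    rw [← sg_add_one hK]; congr 1; ring
  have h2 : sg (z + 1 - u) = -(cexp (Real.pi * (z - u + 1 / 2)) * sg (z - u)) := by
    rw [← sg_add_one hK]; congr 1; ring
  have h3 : cexp (Real.pi * (z + u + 1 / 2)) * cexp (Real.pi * (z - u + 1 / 2)) = cexp (Real.pi * (z + 1 / 2)) ^ 2 := by
    rw [← Complex.exp_add, sq, ← Complex.exp_add]; congr 1; ring
  have hne : cexp (Real.pi * (z + 1 / 2)) ^ 2 ≠ 0 := pow_ne_zero _ (Complex.exp_ne_zero _)
  rw [Phi, Phi, h1, h2, sg_add_one hK z]
  have h4 : -(-(cexp (Real.pi * (z + u + 1 / 2)) * sg (z + u)) * -(cexp (Real.pi * (z - u + 1 / 2)) * sg (z - u)))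
      = cexp (Real.pi * (z + 1 / 2)) ^ 2 * (-(sg (z + u) * sg (z - u))) := by
    linear_combination (-(sg (z + u) * sg (z - u))) * h3
  have h5 : (-(cexp (Real.pi * (z + 1 / 2)) * sg z)) ^ 2 * sg u ^ 2 = cexp (Real.pi * (z + 1 / 2)) ^ 2 * (sg z ^ 2 * sg u ^ 2) := by
    ring
  rw [h4, h5, mul_div_mul_left _ _ hne]

theorem Phi_add_I {c : ℝ} (hK : Kron c) (u z : ℂ) : Phi u (z + I) = Phi u z := by
  have h1 : sg (z + I + u) = -(cexp (Real.pi * (-(I * (z + u)) + 1 / 2)) * sg (z + u)) := by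
    rw [← sg_add_I hK]; congr 1; ring
  have h2 : sg (z + I - u) = -(cexp (Real.pi * (-(I * (z - u)) + 1 / 2)) * sg (z - u)) := by
    rw [← sg_add_I hK]; congr 1; ring
  have h3 : cexp (Real.pi * (-(I * (z + u)) + 1 / 2)) * cexp (Real.pi * (-(I * (z - u)) + 1 / 2))
      = cexp (Real.pi * (-(I * z) + 1 / 2)) ^ 2 := by
    rw [← Complex.exp_add, sq, ← Complex.exp_add]; congr 1; ring
  have hne : cexp (Real.pi * (-(I * z) + 1 / 2)) ^ 2 ≠ 0 := pow_ne_zero _ (Complex.exp_ne_zero _)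
  rw [Phi, Phi, h1, h2, sg_add_I hK z]
  have h4 : -(-(cexp (Real.pi * (-(I * (z + u)) + 1 / 2)) * sg (z + u)) * -(cexp (Real.pi * (-(I * (z - u)) + 1 / 2)) * sg (z - u)))
      = cexp (Real.pi * (-(I * z) + 1 / 2)) ^ 2 * (-(sg (z + u) * sg (z - u))) := by
    linear_combination (-(sg (z + u) * sg (z - u))) * h3
  have h5 : (-(cexp (Real.pi * (-(I * z) + 1 / 2)) * sg z)) ^ 2 * sg u ^ 2
      = cexp (Real.pi * (-(I * z) + 1 / 2)) ^ 2 * (sg z ^ 2 * sg u ^ 2) := by
    ring
  rw [h4, h5, mul_div_mul_left _ _ hne]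

/-- Proof: `per_all`. -/
theorem Phi_add {c : ℝ} (hK : Kron c) (u z : ℂ) (a : GaussianInt) : Phi u (z + a) = Phi u z :=
  per_all (f := Phi u) (Phi_add_one hK u) (Phi_add_I hK u) z a

/-- Proof: `Phi_anti`, `Phi_add`. -/
theorem Phi_add_left {c : ℝ} (hK : Kron c) (u z : ℂ) (a : GaussianInt) :
    Phi (u + a) z = Phi u z := by
  rw [Phi_anti z (u + a), Phi_add hK, Phi_anti u z, neg_neg]

theorem Phi_eq_zero_iff {u z : ℂ} (hu : u ∉ Lam) (hz : z ∉ Lam) :
    Phi u z = 0 ↔ z + u ∈ Lam ∨ z - u ∈ Lam := by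
  have h1 := sg_ne_zero hu
  have h2 := sg_ne_zero hz
  rw [Phi, div_eq_zero_iff, neg_eq_zero, mul_eq_zero, sg_eq_zero_iff, sg_eq_zero_iff]
  constructor
  · rintro (h | h)
    · exact h
    · exact absurd h (mul_ne_zero (pow_ne_zero _ h2) (pow_ne_zero _ h1))
  · intro h
    exact Or.inl h

theorem Phi_diff {u z : ℂ} (hu : u ∉ Lam) (hz : z ∉ Lam) : DifferentiableAt ℂ (Phi u) z := by
  have h1 := sg_ne_zero hu
  have h2 := sg_ne_zero hz
  have hs : Differentiable ℂ sg := sg_diff
  have h3 : DifferentiableAt ℂ (fun z => sg (z + u)) z := (hs _).comp z (differentiableAt_id.add_const _)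
  have h4 : DifferentiableAt ℂ (fun z => sg (z - u)) z := (hs _).comp z (differentiableAt_id.sub_const _)
  exact ((h3.mul h4).neg).div (((hs z).pow 2).mul_const _) (mul_ne_zero (pow_ne_zero _ h2) (pow_ne_zero _ h1))

end Pool.Agent.STg.An
end

section

set_option autoImplicit false

open Complex Filter Topology
open scoped ComplexConjugate

namespace Pool.Agent.STg.An

/-! the difference of two functions `Phi`. -/

/-- Proof: `dslope N 0` and `dslope (dslope N 0) 0` are differentiable; `N z = z * dslope N 0 z`; as `N`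
is even the derivative `dslope N 0 0 = deriv N 0` vanishes; so `N z / z ^ 2 = dslope (dslope N 0) 0 z`
for `z ≠ 0`, which is continuous. -/
theorem even_limit {N : ℂ → ℂ} (hN : Differentiable ℂ N) (he : ∀ z, N (-z) = N z) (h0 : N 0 = 0) :
    ∃ κ : ℂ, Tendsto (fun z => N z / z ^ 2) (𝓝[≠] 0) (𝓝 κ) := by
  have hder : deriv N 0 = 0 := by
    have h1 : deriv (fun z => N (-z)) 0 = -deriv N (-0) := deriv_comp_neg N 0
    have h2 : (fun z => N (-z)) = N := funext he
    rw [h2, neg_zero] at h1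
    have h3 : 2 * deriv N 0 = 0 := by linear_combination h1
    simpa using h3
  have hd1 : Differentiable ℂ (dslope N 0) := by
    have h1 : DifferentiableOn ℂ (dslope N 0) Set.univ :=
      (Complex.differentiableOn_dslope (Filter.univ_mem)).2 hN.differentiableOn
    exact differentiableOn_univ.1 h1
  have hd2 : Differentiable ℂ (dslope (dslope N 0) 0) := by
    have h1 : DifferentiableOn ℂ (dslope (dslope N 0) 0) Set.univ :=
      (Complex.differentiableOn_dslope (Filter.univ_mem)).2 hd1.differentiableOn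
    exact differentiableOn_univ.1 h1
  refine ⟨dslope (dslope N 0) 0 0, ?_⟩
  have h1 : Tendsto (dslope (dslope N 0) 0) (𝓝[≠] 0) (𝓝 (dslope (dslope N 0) 0 0)) :=
    (hd2.continuous.tendsto 0).mono_left nhdsWithin_le_nhds
  refine h1.congr' ?_
  filter_upwards [self_mem_nhdsWithin] with z hz
  have hz0 : z ≠ 0 := hz
  rw [dslope_of_ne _ hz0, slope_def_field, dslope_of_ne _ hz0, slope_def_field, dslope_same, hder,
    h0]
  field_simp
  ring

/-- Proof: `f z = Phi u z - Phi v z = -N z / (sg z) ^ 2` with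
`N z = sg (z + u) * sg (z - u) / sg u ^ 2 - sg (z + v) * sg (z - v) / sg v ^ 2`, entire and even,
`N 0 = -1 + 1 = 0`. By `even_limit` and `sg_div_tendsto` `f` has a limit `κ` at `0`; it has the periods
`1`, `I` and is differentiable outside of `Lam`. By `liouville` `f z = κ` for `z ∉ Lam`; `z = v` and
`Phi_self` give `κ = Phi u v`. -/
theorem Phi_sub {c : ℝ} (hK : Kron c) {u v z : ℂ} (hu : u ∉ Lam) (hv : v ∉ Lam) (hz : z ∉ Lam) :
    Phi u z - Phi v z = Phi u v := by
  have hsu := sg_ne_zero hu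
  have hsv := sg_ne_zero hv
  set N : ℂ → ℂ := fun z => sg (z + u) * sg (z - u) / sg u ^ 2 - sg (z + v) * sg (z - v) / sg v ^ 2
    with hNdef
  have hshift : ∀ w : ℂ, Differentiable ℂ fun z : ℂ => sg (z + w) := fun w =>
    sg_diff.comp (by fun_prop : Differentiable ℂ fun z : ℂ => z + w)
  have hshift' : ∀ w : ℂ, Differentiable ℂ fun z : ℂ => sg (z - w) := fun w =>
    sg_diff.comp (by fun_prop : Differentiable ℂ fun z : ℂ => z - w)
  have hN : Differentiable ℂ N :=
    (((hshift u).mul (hshift' u)).div_const _).sub (((hshift v).mul (hshift' v)).div_const _)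
  have hev : ∀ w z : ℂ, sg (-z + w) * sg (-z - w) = sg (z + w) * sg (z - w) := by
    intro w z
    have h1 : -z + w = -(z - w) := by ring
    have h2 : -z - w = -(z + w) := by ring
    rw [h1, h2, sg_neg, sg_neg]
    ring
  have he : ∀ z, N (-z) = N z := by
    intro z
    simp only [hNdef]
    rw [hev, hev]
  have h0 : N 0 = 0 := by
    simp only [hNdef]
    rw [zero_add, zero_sub, sg_neg, zero_add, zero_sub, sg_neg]
    field_simp
    ring
  obtain ⟨κ0, hκ0⟩ := even_limit hN he h0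
  have hlim : Tendsto (fun z => Phi u z - Phi v z) (𝓝[≠] 0) (𝓝 (-κ0)) := by
    have h1 : Tendsto (fun z => -(N z / z ^ 2 / (sg z / z) ^ 2)) (𝓝[≠] 0) (𝓝 (-(κ0 / 1 ^ 2))) :=
      (hκ0.div (sg_div_tendsto.pow 2) (by norm_num)).neg
    rw [one_pow, div_one] at h1
    refine h1.congr' ?_
    filter_upwards [self_mem_nhdsWithin, eventually_notMem one_ne_zero] with z hz hzL
    have hz0 : z ≠ 0 := hz
    rw [one_mul] at hzL
    have hsz := sg_ne_zero hzL
    simp only [hNdef]
    unfold Phi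
    field_simp
    ring
  have hper1 : ∀ z, (fun z => Phi u z - Phi v z) (z + 1) = (fun z => Phi u z - Phi v z) z := by
    intro z
    simp only
    rw [Phi_add_one hK, Phi_add_one hK]
  have hperI : ∀ z, (fun z => Phi u z - Phi v z) (z + I) = (fun z => Phi u z - Phi v z) z := by
    intro z
    simp only
    rw [Phi_add_I hK, Phi_add_I hK]
  have hL := liouville hper1 hperI
    (fun z hz => (Phi_diff hu hz).sub (Phi_diff hv hz)) hlim
  have h1 : Phi u z - Phi v z = -κ0 := hL z hz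
  have h2 : Phi u v - Phi v v = -κ0 := hL v hv
  rw [h1, ← h2, Phi_self, sub_zero]

end Pool.Agent.STg.An
end
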