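import Pool.Agent.Lib.MP_1ef7cf_nt_g.Mg.G011

section

set_option autoImplicit false

open Complex Filter Topology
open scoped ComplexConjugate

namespace Pool.Agent.STg.An

/-! the Weierstrass function. -/

/-- Proof: `Phi_sub` with `v = w0`, `Phi u w0 = -Phi w0 u`. -/
theorem PP_sub {c : ℝ} (hK : Kron c) {u z : ℂ} (hu : u ∉ Lam) (hz : z ∉ Lam) :
    PP z - PP u = Phi u z := by
  have h := Phi_sub hK hu w0_notMem hz
  rw [Phi_anti w0 u] at h
  rw [PP, PP]
  linear_combination -h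

theorem PP_add {c : ℝ} (hK : Kron c) (z : ℂ) (a : GaussianInt) : PP (z + a) = PP z :=
  Phi_add hK w0 z a

theorem PP_neg (z : ℂ) : PP (-z) = PP z := Phi_neg w0 z

/-- Proof: `w0 = I * (w0 - I)`, so `PP (I z) = -Phi (w0 - I) z = -Phi w0 z` by `Phi_I`,
`Phi_add_left`. -/
theorem PP_I {c : ℝ} (hK : Kron c) (z : ℂ) : PP (I * z) = -PP z := by
  have hco : (((⟨0, -1⟩ : GaussianInt)) : ℂ) = -I := by
    rw [GaussianInt.toComplex_def]; simp
  have h1 : I * (w0 + (((⟨0, -1⟩ : GaussianInt)) : ℂ)) = w0 := by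
    rw [hco, w0]
    linear_combination (-1 / 2 : ℂ) * I_mul_I
  have h2 := Phi_I (w0 + (((⟨0, -1⟩ : GaussianInt)) : ℂ)) z
  rw [h1, Phi_add_left hK] at h2
  exact h2

theorem PP_w0 : PP w0 = 0 := Phi_self w0

/-- Proof: `Phi_eq_zero_iff`, `w0_add_half_notMem`, `w0_sub_half_notMem`. -/
theorem PP_half_ne : PP (1 / 2) ≠ 0 := by
  rw [PP, Ne, Phi_eq_zero_iff w0_notMem half_notMem, not_or]
  constructor
  · rw [add_comm]; exact w0_add_half_notMem
  · intro h
    apply w0_sub_half_notMem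
    have := neg_mem_Lam h
    rwa [neg_sub] at this

/-- Proof: `I / 2 = I * (1 / 2)`. -/
theorem PP_I_half {c : ℝ} (hK : Kron c) : PP (I / 2) = -PP (1 / 2) := by
  rw [← PP_I hK, mul_one_div]

theorem PP_inj {c : ℝ} (hK : Kron c) {z u : ℂ} (hz : z ∉ Lam) (hu : u ∉ Lam) (h : PP z = PP u) :
    z - u ∈ Lam ∨ z + u ∈ Lam := by
  have h1 := PP_sub hK hu hz
  rw [h, sub_self] at h1
  exact ((Phi_eq_zero_iff hu hz).1 h1.symm).symm

theorem PP_diff {z : ℂ} (hz : z ∉ Lam) : DifferentiableAt ℂ PP z :=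
  Phi_diff w0_notMem hz

/-- Proof: `PP z = -(sg (z + w0) * sg (z - w0)) / (sg z ^ 2 * sg w0 ^ 2)`, `sg_div_tendsto`,
continuity of `sg`, `sg (-w0) = -sg w0`. -/
theorem PP_tendsto : Tendsto (fun z => z ^ 2 * PP z) (𝓝[≠] 0) (𝓝 1) := by
  have hs : Differentiable ℂ sg := sg_diff
  have hw : sg w0 ≠ 0 := sg_ne_zero w0_notMem
  have h1 : Tendsto (fun z => sg z / z) (𝓝[≠] 0) (𝓝 1) := sg_div_tendsto
  have h2 : Tendsto (fun z => sg (z + w0)) (𝓝[≠] 0) (𝓝 (sg w0)) := by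
    have : Tendsto (fun z => sg (z + w0)) (𝓝 0) (𝓝 (sg (0 + w0))) :=
      ((hs.continuous).comp (continuous_id.add continuous_const)).tendsto 0
    rw [zero_add] at this
    exact this.mono_left nhdsWithin_le_nhds
  have h3 : Tendsto (fun z => sg (z - w0)) (𝓝[≠] 0) (𝓝 (-sg w0)) := by
    have : Tendsto (fun z => sg (z - w0)) (𝓝 0) (𝓝 (sg (0 - w0))) :=
      ((hs.continuous).comp (continuous_id.sub continuous_const)).tendsto 0
    rw [zero_sub, sg_neg] at this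
    exact this.mono_left nhdsWithin_le_nhds
  have h4 : Tendsto (fun z => -(sg (z + w0) * sg (z - w0)) / ((sg z / z) ^ 2 * sg w0 ^ 2)) (𝓝[≠] 0)
      (𝓝 (-(sg w0 * -sg w0) / (1 ^ 2 * sg w0 ^ 2))) := by
    apply Tendsto.div
    · exact (h2.mul h3).neg
    · exact (h1.pow 2).mul_const _
    · rw [one_pow, one_mul]; exact pow_ne_zero _ hw
  have h5 : -(sg w0 * -sg w0) / (1 ^ 2 * sg w0 ^ 2) = 1 := by
    field_simp
  rw [h5] at h4
  apply h4.congr'
  have hmem : ∀ᶠ z in 𝓝[≠] (0 : ℂ), z ≠ 0 := eventually_mem_nhdsWithin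
  filter_upwards [hmem] with z hz
  rw [PP, Phi]
  by_cases h0 : sg z = 0
  · simp [h0]
  · field_simp

end Pool.Agent.STg.An
end

section

set_option autoImplicit false

open Complex Filter Topology
open scoped ComplexConjugate

namespace Pool.Agent.STg.An

/-! translation by `1 / 2`. -/

theorem AnE7_key {c : ℝ} (hK : Kron c) {z : ℂ} (hz : z ∉ Lam) (hz' : z + 1 / 2 ∉ Lam) :
    PP (z + 1 / 2) * (PP z - PP (1 / 2)) =
      (cexp (Real.pi * ((1 + I) / 2)) / sg w0 ^ 2) * (PP z + PP (1 / 2)) := by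
  have h1 : PP z - PP (1 / 2) = Phi (1 / 2) z := PP_sub hK half_notMem hz
  have h2 : PP z + PP (1 / 2) = Phi (I / 2) z := by
    have := PP_sub hK I_half_notMem hz
    rw [PP_I_half hK] at this
    rw [← this]; ring
  rw [h1, h2]
  have hI : sg (I / 2) ^ 2 = -sg (1 / 2) ^ 2 := by
    have h := sg_I (1 / 2)
    have h3 : I * (1 / 2 : ℂ) = I / 2 := by ring
    rw [h3] at h
    rw [h, mul_pow, I_sq]; ring
  have hA : sg (z + 1 / 2 + w0) = -(cexp (Real.pi * (z + I / 2 + 1 / 2)) * sg (z + I / 2)) := by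
    have h := sg_add_one hK (z + I / 2)
    have h3 : z + 1 / 2 + w0 = z + I / 2 + 1 := by
      unfold w0; ring
    rw [h3, h]
  have hB : sg (z + 1 / 2 - w0) = sg (z - I / 2) := by
    congr 1
    unfold w0; ring
  have hC : sg (z + 1 / 2) = -(cexp (Real.pi * z) * sg (z - 1 / 2)) := by
    have h := sg_add_one hK (z - 1 / 2)
    have h3 : z - 1 / 2 + 1 = z + 1 / 2 := by ring
    have h4 : z - 1 / 2 + 1 / 2 = z := by ring
    rw [h3, h4] at h
    exact h
  have hE : cexp (Real.pi * (z + I / 2 + 1 / 2)) =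
      cexp (Real.pi * z) * cexp (Real.pi * ((1 + I) / 2)) := by
    rw [← Complex.exp_add]; congr 1; ring
  have hC0 : sg (z + 1 / 2) ≠ 0 := sg_ne_zero hz'
  have hD0 : sg (z - 1 / 2) ≠ 0 := by
    intro h
    apply hC0
    rw [hC, h]; ring
  have hS0 : sg z ≠ 0 := sg_ne_zero hz
  have hH0 : sg (1 / 2) ≠ 0 := sg_ne_zero half_notMem
  have hW0 : sg w0 ≠ 0 := sg_ne_zero w0_notMem
  have hE0 : cexp (Real.pi * z) ≠ 0 := Complex.exp_ne_zero _
  unfold PP Phi
  rw [hI, hA, hB, hC, hE]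
  generalize cexp (Real.pi * ((1 + I) / 2)) = e
  generalize cexp (Real.pi * z) = f at *
  generalize sg (z + I / 2) = A at *
  generalize sg (z - I / 2) = B at *
  generalize sg (z - 1 / 2) = D at *
  generalize sg z = S at *
  generalize sg (1 / 2) = H at *
  generalize sg w0 = W at *
  field_simp

/-- Proof. `PP z - PP (1 / 2) = Phi (1 / 2) z`, `PP z + PP (1 / 2) = PP z - PP (I / 2) = Phi (I / 2) z`
(`PP_sub`), `sg (I / 2) = I * sg (1 / 2)`. With `z + 1 / 2 + w0 = z + I / 2 + 1`,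
`z + 1 / 2 - w0 = z - I / 2`, `sg (z + I / 2 + 1) = -cexp (π (z + I / 2 + 1 / 2)) * sg (z + I / 2)`,
`sg (z + 1 / 2) = -cexp (π z) * sg (z - 1 / 2)` one finds for `z, z + 1 / 2 ∉ Lam`
`PP (z + 1 / 2) * (PP z - PP (1 / 2)) = K * (PP z + PP (1 / 2))`,
`K = cexp (π (1 + I) / 2) / sg w0 ^ 2`. For `z = w0`: `PP (w0 + 1 / 2) = -PP (1 / 2)`
(`w0 + 1 / 2 = I / 2 + 1`), `PP w0 = 0`, so `K = PP (1 / 2)`. -/
theorem PP_add_half {c : ℝ} (hK : Kron c) {z : ℂ} (hz : z ∉ Lam) (hz' : z + 1 / 2 ∉ Lam) :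
    PP (z + 1 / 2) * (PP z - PP (1 / 2)) = PP (1 / 2) * (PP z + PP (1 / 2)) := by
  have h1 := AnE7_key hK hz hz'
  have h2 := AnE7_key hK w0_notMem w0_add_half_notMem
  have h3 : PP (w0 + 1 / 2) = -PP (1 / 2) := by
    have h := PP_add hK (I / 2) 1
    have h4 : I / 2 + ((1 : GaussianInt) : ℂ) = w0 + 1 / 2 := by
      unfold w0
      rw [show ((1 : GaussianInt) : ℂ) = 1 from by simp]
      ring
    rw [h4, PP_I_half hK] at h
    exact h
  rw [PP_w0, h3] at h2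
  have hne := PP_half_ne
  have h5 : cexp (Real.pi * ((1 + I) / 2)) / sg w0 ^ 2 = PP (1 / 2) := by
    apply mul_right_cancel₀ hne
    linear_combination -h2
  rw [h1, h5]

end Pool.Agent.STg.An
end

section

set_option autoImplicit false

open Complex Filter Topology
open scoped ComplexConjugate

namespace Pool.Agent.STg.An

/-! translation by `w0`. -/

/-- Proof: `z + w0 = (z - w0) + 1 + I`, `sg_add_one`, `sg_add_I`, `(1 - I) w0 = 1`. -/
theorem sg_add_w0 {c : ℝ} (hK : Kron c) (z : ℂ) :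
    sg (z + w0) = -(cexp (Real.pi * ((1 - I) * z)) * sg (z - w0)) := by
  have h1 : z + w0 = (z - w0) + 1 + I := by
    unfold w0
    ring
  have h2 : cexp (Real.pi * (-(I * (z - w0 + 1)) + 1 / 2)) * cexp (Real.pi * (z - w0 + 1 / 2)) =
      -cexp (Real.pi * ((1 - I) * z)) := by
    rw [← Complex.exp_add]
    have h3 : (Real.pi : ℂ) * (-(I * (z - w0 + 1)) + 1 / 2) + Real.pi * (z - w0 + 1 / 2) =
        Real.pi * ((1 - I) * z) - Real.pi * I := by
      unfold w0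
      have hI := Complex.I_mul_I
      linear_combination (Real.pi / 2 : ℂ) * hI
    rw [h3, Complex.exp_sub, Complex.exp_pi_mul_I, div_neg, div_one]
  rw [h1, sg_add_I hK, sg_add_one hK]
  linear_combination sg (z - w0) * h2

/-- Proof: `sg_add_one`, `sg_add_I`. -/
theorem sg_add_one_add_I {c : ℝ} (hK : Kron c) (z : ℂ) :
    sg (z + 1 + I) = -(cexp (Real.pi * (1 + (1 - I) * z)) * sg z) := by
  have h2 : cexp (Real.pi * (-(I * (z + 1)) + 1 / 2)) * cexp (Real.pi * (z + 1 / 2)) =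
      -cexp (Real.pi * (1 + (1 - I) * z)) := by
    rw [← Complex.exp_add]
    have h3 : (Real.pi : ℂ) * (-(I * (z + 1)) + 1 / 2) + Real.pi * (z + 1 / 2) =
        Real.pi * (1 + (1 - I) * z) - Real.pi * I := by
      ring
    rw [h3, Complex.exp_sub, Complex.exp_pi_mul_I, div_neg, div_one]
  rw [sg_add_I hK, sg_add_one hK]
  linear_combination sg z * h2

theorem AnE6_aux {c : ℝ} (hK : Kron c) {z : ℂ} (hz : z ∉ Lam) (hz' : z + w0 ∉ Lam) :
    PP (z + w0) * PP z = cexp Real.pi / sg w0 ^ 4 := by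
  have h0 : sg z ≠ 0 := sg_ne_zero hz
  have h1 : sg (z + w0) ≠ 0 := sg_ne_zero hz'
  have h2 : sg w0 ≠ 0 := sg_ne_zero w0_notMem
  have h3 := sg_add_w0 hK z
  have h4 : sg (z - w0) ≠ 0 := by
    intro h
    rw [h, mul_zero, neg_zero] at h3
    exact h1 h3
  have h5 := sg_add_one_add_I hK z
  have h6 : z + w0 + w0 = z + 1 + I := by
    unfold w0
    ring
  have h7 : z + w0 - w0 = z := by ring
  have h8 : cexp (Real.pi * (1 + (1 - I) * z)) = cexp Real.pi * cexp (Real.pi * ((1 - I) * z)) := by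
    rw [← Complex.exp_add]
    congr 1
    ring
  have h9 : cexp (Real.pi * ((1 - I) * z)) ≠ 0 := Complex.exp_ne_zero _
  unfold PP Phi
  rw [h6, h7, h5, h3, h8]
  field_simp

/-- Proof. For `z, z + w0 ∉ Lam` the definition of `PP`, `sg_add_w0` and `sg_add_one_add_I` (note
`z + w0 + w0 = z + 1 + I`, `z + w0 - w0 = z`) give `PP (z + w0) * PP z = cexp π / sg w0 ^ 4`, a constant.
For `z = 1 / 2` it is `PP (1 / 2 + w0) * PP (1 / 2) = PP (1 + I / 2) * PP (1 / 2) = -PP (1 / 2) ^ 2`. -/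
theorem PP_add_w0 {c : ℝ} (hK : Kron c) {z : ℂ} (hz : z ∉ Lam) (hz' : z + w0 ∉ Lam) :
    PP (z + w0) * PP z = -PP (1 / 2) ^ 2 := by
  have h1 : (1 / 2 : ℂ) + w0 ∉ Lam := by
    rw [add_comm]
    exact w0_add_half_notMem
  have h2 := AnE6_aux hK half_notMem h1
  have h3 : (1 / 2 : ℂ) + w0 = I / 2 + ((1 : GaussianInt) : ℂ) := by
    unfold w0
    simp
    ring
  rw [h3, PP_add hK, PP_I_half hK] at h2
  rw [AnE6_aux hK hz hz', ← h2]
  ring

end Pool.Agent.STg.An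
end
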