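import Pool.Agent.Lib.MP_1ef7cf_nt_g.Mg.G012
import Pool.Agent.Lib.MP_1ef7cf_nt_g.Mg.G006

section

set_option autoImplicit false

open Complex Filter Topology
open scoped ComplexConjugate

namespace Pool.Agent.STg.An

/-! the addition formula. -/

/-- Proof. By definition the left side is
`sg (z+u+w0) * sg (z+u-w0) * sg (z-u+w0) * sg (z-u-w0) / (sg w0 ^ 4 * sg z ^ 4 * sg u ^ 4)`
(`PP z - PP u = Phi u z`). If `u + w0 ∉ Lam`: by `PP_add_w0` and `PP_sub`
`e ^ 2 + PP z * PP u = PP u * (PP z - PP (u + w0)) = PP u * Phi (u + w0) z` (`e = PP (1 / 2)`), and with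
`sg_add_w0` this is `-cexp (-(π (1 - I) u)) * sg (z+u+w0) * sg (z-u-w0) / (sg u ^ 2 * sg w0 ^ 2 * sg z ^ 2)`.
By `sg_add_w0` for `z + u` and `z - u` the claim follows. If `u + w0 ∈ Lam`, then `PP u = PP w0 = 0`,
`PP (z - u) = PP (z + w0) = PP (z + u)` by periodicity and evenness, and the claim is the square of
`PP_add_w0`. -/
theorem PP_mul {c : ℝ} (hK : Kron c) {z u : ℂ} (hz : z ∉ Lam) (hu : u ∉ Lam) (h1 : z + u ∉ Lam)
    (h2 : z - u ∉ Lam) :
    PP (z + u) * PP (z - u) * (PP z - PP u) ^ 2 = (PP (1 / 2) ^ 2 + PP z * PP u) ^ 2 := by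
  have sz := sg_ne_zero hz
  have su := sg_ne_zero hu
  have s1 := sg_ne_zero h1
  have s2 := sg_ne_zero h2
  have sw := sg_ne_zero w0_notMem
  by_cases huw : u + w0 ∈ Lam
  · obtain ⟨a, ha⟩ := huw
    simp only at ha
    obtain ⟨b, hb⟩ := two_w0_mem
    simp only at hb
    have hu' : u = -w0 + (a : ℂ) := by rw [ha]; ring
    have e1 : PP u = 0 := by rw [hu', PP_add hK, PP_neg, PP_w0]
    have e2 : PP (z - u) = PP (z + w0) := by
      have : z - u = (z + w0) + ((-a : GaussianInt) : ℂ) := by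
        rw [hu', map_neg]; ring
      rw [this, PP_add hK]
    have e3 : PP (z + u) = PP (z + w0) := by
      have : z + u = (z + w0) + ((a - b : GaussianInt) : ℂ) := by
        rw [hu', map_sub, hb]; ring
      rw [this, PP_add hK]
    have hz' : z + w0 ∉ Lam := by
      intro h
      apply h2
      have : z - u = (z + w0) - (a : ℂ) := by rw [hu']; ring
      rw [this]
      exact sub_mem_Lam h (coe_mem_Lam a)
    have e4 := PP_add_w0 hK hz hz'
    rw [e1, e2, e3, mul_zero, add_zero, sub_zero]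
    linear_combination (PP (z + w0) * PP z - PP (1 / 2) ^ 2) * e4
  · have suw := sg_ne_zero huw
    have e1 := PP_add_w0 hK hu huw
    have e2 : PP z - PP (u + w0) = Phi (u + w0) z := PP_sub hK huw hz
    have e3 : PP (1 / 2) ^ 2 + PP z * PP u = PP u * Phi (u + w0) z := by
      rw [← e2]; linear_combination e1
    have e4 : PP z - PP u = Phi u z := PP_sub hK hu hz
    -- quasi periodicity
    have q1 := sg_add_w0 hK u
    have q2 := sg_add_w0 hK (z + u)
    have q3 := sg_add_w0 hK (z - u)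
    set E1 := cexp (Real.pi * ((1 - I) * u)) with hE1
    set E2 := cexp (Real.pi * ((1 - I) * (z + u))) with hE2
    set E3 := cexp (Real.pi * ((1 - I) * (z - u))) with hE3
    have hE1n : E1 ≠ 0 := Complex.exp_ne_zero _
    have hE2n : E2 ≠ 0 := Complex.exp_ne_zero _
    have hE3n : E3 ≠ 0 := Complex.exp_ne_zero _
    have hE : E2 = E3 * E1 ^ 2 := by
      rw [hE1, hE2, hE3, sq, ← Complex.exp_add, ← Complex.exp_add]; congr 1; ring
    have hsm : sg (u - w0) ≠ 0 := by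
      intro h
      rw [h, mul_zero, neg_zero] at q1
      exact suw q1
    have e5 : PP u * Phi (u + w0) z = -(sg (z + u + w0) * sg (z - u - w0)) / (E1 * (sg u ^ 2 * sg w0 ^ 2 * sg z ^ 2)) := by
      rw [PP, Phi, Phi, q1]
      have r1 : z + (u + w0) = z + u + w0 := by ring
      have r2 : z - (u + w0) = z - u - w0 := by ring
      rw [r1, r2]
      field_simp
    have e6 : PP (z + u) = -(sg (z + u + w0) * sg (z + u - w0)) / (sg (z + u) ^ 2 * sg w0 ^ 2) := rfl
    have e7 : PP (z - u) = -(sg (z - u + w0) * sg (z - u - w0)) / (sg (z - u) ^ 2 * sg w0 ^ 2) := rfl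
    have e8 : Phi u z = -(sg (z + u) * sg (z - u)) / (sg z ^ 2 * sg u ^ 2) := rfl
    rw [e3, e4, e5, e6, e7, e8, q2, q3, hE]
    field_simp

end Pool.Agent.STg.An
end

section

set_option autoImplicit false

open Complex Filter Topology
open scoped ComplexConjugate

namespace Pool.Agent.STg.An

/-! the normalized function `XX`: everything follows from the facts on `PP` by dividing by
`PP (1 / 2)` (`PP_half_ne`). -/

theorem XX_add {c : ℝ} (hK : Kron c) (z : ℂ) (a : GaussianInt) : XX (z + a) = XX z := by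
  rw [XX, XX, PP_add hK]

theorem XX_neg (z : ℂ) : XX (-z) = XX z := by
  rw [XX, XX, PP_neg]

theorem XX_I {c : ℝ} (hK : Kron c) (z : ℂ) : XX (I * z) = -XX z := by
  rw [XX, XX, PP_I hK, neg_div]

theorem XX_half : XX (1 / 2) = 1 := by
  rw [XX, div_self PP_half_ne]

theorem XX_w0 : XX w0 = 0 := by
  rw [XX, PP_w0, zero_div]

theorem XX_inj {c : ℝ} (hK : Kron c) {z u : ℂ} (hz : z ∉ Lam) (hu : u ∉ Lam) (h : XX z = XX u) :
    z - u ∈ Lam ∨ z + u ∈ Lam := by
  apply PP_inj hK hz hu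
  rw [XX, XX, div_left_inj' PP_half_ne] at h
  exact h

theorem XX_add_w0 {c : ℝ} (hK : Kron c) {z : ℂ} (hz : z ∉ Lam) (hz' : z + w0 ∉ Lam) :
    XX (z + w0) * XX z = -1 := by
  have h := PP_add_w0 hK hz hz'
  have hn := PP_half_ne
  rw [XX, XX, div_mul_div_comm, h, div_eq_iff (mul_ne_zero hn hn)]
  ring

theorem XX_add_half {c : ℝ} (hK : Kron c) {z : ℂ} (hz : z ∉ Lam) (hz' : z + 1 / 2 ∉ Lam) :
    XX (z + 1 / 2) * (XX z - 1) = XX z + 1 := by
  have h := PP_add_half hK hz hz'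
  have hn := PP_half_ne
  have e1 : XX (z + 1 / 2) * (XX z - 1) = (PP (z + 1 / 2) * (PP z - PP (1 / 2))) / PP (1 / 2) ^ 2 := by
    rw [XX, XX]; field_simp
  have e2 : XX z + 1 = (PP (1 / 2) * (PP z + PP (1 / 2))) / PP (1 / 2) ^ 2 := by
    rw [XX]; field_simp
  rw [e1, e2, h]

theorem XX_mul {c : ℝ} (hK : Kron c) {z u : ℂ} (hz : z ∉ Lam) (hu : u ∉ Lam) (h1 : z + u ∉ Lam)
    (h2 : z - u ∉ Lam) :
    XX (z + u) * XX (z - u) * (XX z - XX u) ^ 2 = (1 + XX z * XX u) ^ 2 := by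
  have h := PP_mul hK hz hu h1 h2
  have hn := PP_half_ne
  have e1 : XX (z + u) * XX (z - u) * (XX z - XX u) ^ 2 =
      (PP (z + u) * PP (z - u) * (PP z - PP u) ^ 2) / PP (1 / 2) ^ 4 := by
    rw [XX, XX, XX, XX]; field_simp
  have e2 : (1 + XX z * XX u) ^ 2 = ((PP (1 / 2) ^ 2 + PP z * PP u) ^ 2) / PP (1 / 2) ^ 4 := by
    rw [XX, XX]; field_simp
  rw [e1, e2, h]

theorem XX_diff {z : ℂ} (hz : z ∉ Lam) : DifferentiableAt ℂ XX z :=
  (PP_diff hz).div_const _

theorem XX_tendsto : Tendsto (fun z => z ^ 2 * XX z) (𝓝[≠] 0) (𝓝 (1 / PP (1 / 2))) := by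
  have h := PP_tendsto.div_const (PP (1 / 2))
  refine h.congr fun z => ?_
  rw [XX, mul_div_assoc]

/-- Proof: `XX z - XX u = Phi u z / PP (1 / 2)` (`PP_sub`), `log_norm_Phi`. -/
theorem log_norm_XX_sub {c : ℝ} (hK : Kron c) {z u : ℂ} (hz : z ∉ Lam) (hu : u ∉ Lam)
    (h1 : z + u ∉ Lam) (h2 : z - u ∉ Lam) : Real.log ‖XX z - XX u‖ =
      ell (z + u) + ell (z - u) - 2 * ell z - 2 * ell u - Real.log ‖PP (1 / 2)‖ := by
  have hn := PP_half_ne
  have e1 : XX z - XX u = Phi u z / PP (1 / 2) := by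
    rw [← PP_sub hK hu hz, XX, XX, sub_div]
  have hP : Phi u z ≠ 0 := by
    rw [Ne, Phi_eq_zero_iff hu hz, not_or]
    exact ⟨h1, h2⟩
  rw [e1, norm_div, Real.log_div (norm_ne_zero_iff.2 hP) (norm_ne_zero_iff.2 hn), log_norm_Phi hu hz h1 h2]

/-- Proof: the previous formula with `u = w0`, and `ell (z - w0) = ell (z + w0)` by `ell_add`. -/
theorem log_norm_XX {c : ℝ} (hK : Kron c) {z : ℂ} (hz : z ∉ Lam) (h1 : z + w0 ∉ Lam) :
    Real.log ‖XX z‖ = 2 * ell (z + w0) - 2 * ell z - 2 * ell w0 - Real.log ‖PP (1 / 2)‖ := by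
  obtain ⟨b, hb⟩ := two_w0_mem
  simp only at hb
  have h2 : z - w0 ∉ Lam := by
    intro h
    apply h1
    have : z + w0 = (z - w0) + (b : ℂ) := by rw [hb]; ring
    rw [this]
    exact add_mem_Lam h (coe_mem_Lam b)
  have e1 : ell (z + w0) = ell (z - w0) := by
    have : z + w0 = (z - w0) + (b : ℂ) := by rw [hb]; ring
    rw [this, ell_add hK h2]
  have e2 := log_norm_XX_sub hK hz w0_notMem h1 h2
  rw [XX_w0, sub_zero] at e2
  rw [e2, e1]
  ring

end Pool.Agent.STg.An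
end
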