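import Pool.Agent.Lib.MP_1ef7cf_nt_g.Mg.G007
import Pool.Agent.Lib.MP_1ef7cf_nt_g.Mg.G013
import Pool.Agent.Lib.MP_1ef7cf_nt_g.Mg.G006
import Pool.Agent.Lib.MP_1ef7cf_nt_g.Mg.G015

section

set_option autoImplicit false

open Complex Filter Topology
open scoped ComplexConjugate

namespace Pool.Agent.STg.An

/-! the values of `XX` at the torsion points. -/

theorem AnD5_rep {β : GaussianInt} (hβ : β ≠ 0) {S : Finset GaussianInt} (hS : RS β S) {u : ℂ}
    (hu : (β : ℂ) * u ∈ Lam) : ∃ r ∈ S, u - (r : ℂ) / (β : ℂ) ∈ Lam := by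
  obtain ⟨a, ha⟩ := hu
  obtain ⟨r, ⟨hr, c, hc⟩, _⟩ := hS a
  refine ⟨r, hr, c, ?_⟩
  have hβ' : (β : ℂ) ≠ 0 := by
    rw [Ne, GaussianInt.toComplex_eq_zero]
    exact hβ
  have h1 : (a : ℂ) - (r : ℂ) = (β : ℂ) * (c : ℂ) := by
    rw [← GaussianInt.toComplex_sub, hc, GaussianInt.toComplex_mul]
  have ha' : (a : ℂ) = (β : ℂ) * u := ha
  change (c : ℂ) = u - (r : ℂ) / (β : ℂ)
  rw [ha'] at h1
  field_simp
  linear_combination -h1

theorem AnD5_XX {c : ℝ} (hK : Kron c) {u v : ℂ} (h : u - v ∈ Lam) : XX u = XX v := by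
  obtain ⟨a, ha⟩ := h
  have ha' : (a : ℂ) = u - v := ha
  have h1 : u = v + (a : ℂ) := by rw [ha']; ring
  rw [h1, XX_add hK]

theorem AnD5_uniq {β : GaussianInt} (hβ : β ≠ 0) {S : Finset GaussianInt} (hS : RS β S)
    {r r' : GaussianInt} (hr : r ∈ S) (hr' : r' ∈ S)
    (h : (r : ℂ) / (β : ℂ) - (r' : ℂ) / (β : ℂ) ∈ Lam) : r = r' := by
  have h1 : ((r - r' : GaussianInt) : ℂ) / (β : ℂ) ∈ Lam := by
    rw [GaussianInt.toComplex_sub, sub_div]
    exact h
  rw [div_mem_iff hβ] at h1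
  obtain ⟨s, _, hs⟩ := hS r
  have h2 := hs r ⟨hr, by rw [sub_self]; exact dvd_zero _⟩
  have h3 := hs r' ⟨hr', h1⟩
  rw [h2, h3]

/-- Proof: if `β u ∈ Lam`, `β u = a` then `a` is congruent to some `r ∈ S` (`exists_RS`), `u - r / β ∈ Lam`,
so `XX u = XX (r / β)`: the set is contained in the image of `S`. -/
theorem finite_TSet {c : ℝ} (hK : Kron c) {β : GaussianInt} (hβ : β ≠ 0) :
    (TSet XX β).Finite := by
  obtain ⟨S, hS⟩ := exists_RS hβ
  refine Set.Finite.subset (S.finite_toSet.image fun r : GaussianInt => XX ((r : ℂ) / (β : ℂ))) ?_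
  rintro t ⟨u, _, hu, rfl⟩
  obtain ⟨r, hr, h⟩ := AnD5_rep hβ hS hu
  exact ⟨r, hr, (AnD5_XX hK h).symm⟩

theorem mem_TFin {c : ℝ} (hK : Kron c) {β : GaussianInt} (hβ : β ≠ 0) (t : ℂ) :
    t ∈ TFin XX β ↔ ∃ u : ℂ, u ∉ Lam ∧ (β : ℂ) * u ∈ Lam ∧ XX u = t := by
  unfold TFin
  rw [dif_pos (finite_TSet hK hβ), Set.Finite.mem_toFinset]
  rfl

open Classical in
/-- Proof: `r ↦ XX (r / β)` maps `{r ∈ S | ¬ β ∣ r}` onto `TFin XX β`, and by `XX_inj` two elements `r, r'`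
have the same image iff `r' ≡ r` or `r' ≡ -r` modulo `β`; `r ≡ -r` is impossible (`mem_of_two_mul`). So
each fibre has exactly two elements: `r` and the representative of `-r` (`Finset.sum_fiberwise_of_maps_to`,
`Finset.card_eq_two`). -/
theorem sum_torsion {c : ℝ} (hK : Kron c) {β : GaussianInt} (hβ : gOdd β)
    {S : Finset GaussianInt} (hS : RS β S) (f : ℂ → ℝ) :
    ∑ r ∈ S.filter (fun r => ¬ β ∣ r), f (XX ((r : ℂ) / (β : ℂ))) = 2 * ∑ t ∈ TFin XX β, f t := by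
  have hβ0 := ne_zero_of_gOdd hβ
  have hβ' : (β : ℂ) ≠ 0 := by
    rw [Ne, GaussianInt.toComplex_eq_zero]
    exact hβ0
  have hmaps : ∀ r ∈ S.filter (fun r => ¬ β ∣ r), XX ((r : ℂ) / (β : ℂ)) ∈ TFin XX β := by
    intro r hr
    rw [Finset.mem_filter] at hr
    rw [mem_TFin hK hβ0]
    refine ⟨(r : ℂ) / (β : ℂ), ?_, ?_, rfl⟩
    · rw [div_mem_iff hβ0]
      exact hr.2
    · rw [mul_div_cancel₀ _ hβ']
      exact coe_mem_Lam r
  rw [← Finset.sum_fiberwise_of_maps_to hmaps, Finset.mul_sum]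
  refine Finset.sum_congr rfl fun t ht => ?_
  rw [mem_TFin hK hβ0] at ht
  obtain ⟨u, hu, hβu, hut⟩ := ht
  obtain ⟨r₁, hr₁, h₁⟩ := AnD5_rep hβ0 hS hβu
  have hβu' : (β : ℂ) * (-u) ∈ Lam := by
    rw [mul_neg]
    exact neg_mem_Lam hβu
  obtain ⟨r₂, hr₂, h₂⟩ := AnD5_rep hβ0 hS hβu'
  have hfib : (S.filter (fun r => ¬ β ∣ r)).filter (fun r : GaussianInt => XX ((r : ℂ) / (β : ℂ)) = t) =
      {r₁, r₂} := by
    ext r
    rw [Finset.mem_filter, Finset.mem_filter, Finset.mem_insert, Finset.mem_singleton]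
    constructor
    · rintro ⟨⟨hr, hnd⟩, hrt⟩
      rw [← hut] at hrt
      have hrn : (r : ℂ) / (β : ℂ) ∉ Lam := by
        rw [div_mem_iff hβ0]
        exact hnd
      rcases XX_inj hK hrn hu hrt with h | h
      · left
        apply AnD5_uniq hβ0 hS hr hr₁
        have := add_mem_Lam h h₁
        have e : (r : ℂ) / (β : ℂ) - u + (u - (r₁ : ℂ) / (β : ℂ)) =
          (r : ℂ) / (β : ℂ) - (r₁ : ℂ) / (β : ℂ) := by ring
        rwa [e] at this
      · right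
        apply AnD5_uniq hβ0 hS hr hr₂
        have := add_mem_Lam h h₂
        have e : (r : ℂ) / (β : ℂ) + u + (-u - (r₂ : ℂ) / (β : ℂ)) =
          (r : ℂ) / (β : ℂ) - (r₂ : ℂ) / (β : ℂ) := by ring
        rwa [e] at this
    · have key : ∀ (v : ℂ) (r : GaussianInt), v ∉ Lam → XX v = t → r ∈ S →
          v - (r : ℂ) / (β : ℂ) ∈ Lam → (r ∈ S ∧ ¬ β ∣ r) ∧ XX ((r : ℂ) / (β : ℂ)) = t := by
        intro v r hv hvt hr h
        refine ⟨⟨hr, ?_⟩, ?_⟩
        · rw [← div_mem_iff hβ0]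
          intro h3
          apply hv
          have := add_mem_Lam h h3
          rwa [sub_add_cancel] at this
        · rw [← AnD5_XX hK h, hvt]
      rintro (rfl | rfl)
      · exact key u r hu hut hr₁ h₁
      · exact key (-u) r (fun h => hu (neg_mem_iff_Lam.1 h)) (by rw [XX_neg, hut]) hr₂ h₂
  have hne : r₁ ≠ r₂ := by
    rintro rfl
    have h3 := sub_mem_Lam h₁ h₂
    have e : u - (r₁ : ℂ) / (β : ℂ) - (-u - (r₁ : ℂ) / (β : ℂ)) = u + u := by ring
    rw [e] at h3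
    exact hu (mem_of_two_mul hβ hβu h3)
  have hcard : ((S.filter (fun r => ¬ β ∣ r)).filter
      (fun r : GaussianInt => XX ((r : ℂ) / (β : ℂ)) = t)).card = 2 := by
    rw [hfib]
    exact Finset.card_pair hne
  have hsum : ∑ r ∈ (S.filter (fun r => ¬ β ∣ r)).filter (fun r : GaussianInt => XX ((r : ℂ) / (β : ℂ)) = t),
      f (XX ((r : ℂ) / (β : ℂ))) =
      ∑ _r ∈ (S.filter (fun r => ¬ β ∣ r)).filter (fun r : GaussianInt => XX ((r : ℂ) / (β : ℂ)) = t), f t := by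
    refine Finset.sum_congr rfl fun r hr => ?_
    rw [(Finset.mem_filter.1 hr).2]
  rw [hsum, Finset.sum_const, hcard, nsmul_eq_mul]
  norm_num

end Pool.Agent.STg.An
end

section

set_option autoImplicit false

open Complex Filter Topology
open scoped ComplexConjugate

namespace Pool.Agent.STg.An

/-! the number of torsion values. -/

/-- Proof: `sum_torsion` with `f = 1`, `RS_card`, `RS_zero`. -/
theorem card_TFin {c : ℝ} (hK : Kron c) {β : GaussianInt} (hβ : gOdd β) :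
    2 * (TFin XX β).card + 1 = gN β := by
  classical
  have hβ0 : β ≠ 0 := ne_zero_of_gOdd hβ
  obtain ⟨S, hS⟩ := exists_RS hβ0
  have h1 := sum_torsion hK hβ hS (fun _ => (1 : ℝ))
  have h2 := RS_card hβ0 hS
  obtain ⟨r₀, hr0, hd0, huniq⟩ := RS_zero hS
  have h3 : S.filter (fun r => β ∣ r) = {r₀} := by
    ext r
    simp only [Finset.mem_filter, Finset.mem_singleton]
    constructor
    · rintro ⟨ha, hb⟩
      exact huniq r ha hb
    · rintro rfl
      exact ⟨hr0, hd0⟩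
  have h4 := Finset.card_filter_add_card_filter_not (s := S) (fun r => β ∣ r)
  rw [h3, Finset.card_singleton, h2] at h4
  simp only [Finset.sum_const, nsmul_eq_mul, mul_one] at h1
  have h5 : (S.filter (fun r => ¬ β ∣ r)).card = 2 * (TFin XX β).card := by exact_mod_cast h1
  omega

end Pool.Agent.STg.An
end

section

set_option autoImplicit false

open Complex Filter Topology
open scoped ComplexConjugate

namespace Pool.Agent.STg.An

/-! the function with divisor `∑ (u) - N(α) (0)`. -/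

/-- Proof. Let `S` be a residue system (`exists_RS`), `S' = {r ∈ S | ¬ α ∣ r}`, `u = r / α`. For `α z ∉ Lam`
and `r ∈ S'` the points `z`, `u`, `z ± u` are not in `Lam`, so `log_norm_XX_sub` applies and by
`sum_torsion`
`2 log ‖∏ (XX z - t)‖ = ∑_{S'} (ell (z + u) + ell (z - u) - 2 ell z - 2 ell u - log ‖PP (1 / 2)‖)`. By
`dist_ell`, `∑_{S'} ell (z + u) = ell (α z) + (gN α - 1) c / 2 - ell z` (the omitted `r₀` of `RS_zero` has
`r₀ / α ∈ Lam`, `ell_add`), and the same for `∑_{S'} ell (z - u) = ∑_{S'} ell (-z + u)` by evenness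
(`ell_neg`). As `S'` has `gN α - 1` elements, the right side is `2 (ell (α z) - gN α ell z) + const`. -/
theorem theta_XX {c : ℝ} (hK : Kron c) {α : GaussianInt} (hα : gOdd α) :
    ∃ C : ℝ, ∀ z : ℂ, (α : ℂ) * z ∉ Lam →
      Real.log ‖∏ t ∈ TFin XX α, (XX z - t)‖ = ell (α * z) - gN α * ell z + C := by
  classical
  have hα0 : α ≠ 0 := ne_zero_of_gOdd hα
  have hαc : (α : ℂ) ≠ 0 := by
    intro h
    apply hα0
    exact GaussianInt.toComplex_eq_zero.1 h
  obtain ⟨S, hS⟩ := exists_RS hα0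
  obtain ⟨r₀, hr0, hd0, huniq⟩ := RS_zero hS
  have hcard := RS_card hα0 hS
  set S' := S.filter (fun r => ¬ α ∣ r) with hS'
  have h3 : S.filter (fun r => α ∣ r) = {r₀} := by
    ext r
    simp only [Finset.mem_filter, Finset.mem_singleton]
    constructor
    · rintro ⟨ha, hb⟩
      exact huniq r ha hb
    · rintro rfl
      exact ⟨hr0, hd0⟩
  have hsplit : ∀ f : GaussianInt → ℝ, ∑ r ∈ S, f r = f r₀ + ∑ r ∈ S', f r := by
    intro f
    rw [← Finset.sum_filter_add_sum_filter_not S (fun r => α ∣ r) f, h3, Finset.sum_singleton]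
  have hcard' : (S'.card : ℝ) = (gN α : ℝ) - 1 := by
    have h4 := hsplit (fun _ => 1)
    simp only [Finset.sum_const, nsmul_eq_mul, mul_one] at h4
    rw [hcard] at h4
    linarith
  -- r₀ / α is a lattice point
  obtain ⟨b, hb⟩ := (div_mem_iff hα0 r₀).2 hd0
  simp only at hb
  set L := Real.log ‖PP (1 / 2)‖ with hL
  set K1 := ∑ r ∈ S', ell ((r : ℂ) / (α : ℂ)) with hK1
  refine ⟨((gN α : ℝ) - 1) * c / 2 - K1 - ((gN α : ℝ) - 1) * L / 2, ?_⟩
  intro z hz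
  have hz' : z ∉ Lam := fun h => hz (mul_mem_Lam (coe_mem_Lam α) h)
  have hzn : (α : ℂ) * (-z) ∉ Lam := by
    rw [mul_neg, neg_mem_iff_Lam]; exact hz
  have hzn' : -z ∉ Lam := by rw [neg_mem_iff_Lam]; exact hz'
  -- the sums of ell
  have s1 : ∑ r ∈ S', ell (z + (r : ℂ) / (α : ℂ)) = ell (α * z) + ((gN α : ℝ) - 1) * c / 2 - ell z := by
    have h4 := dist_ell hK hα0 hS hz
    rw [hsplit, ← hb, ell_add hK hz'] at h4
    linarith
  have s2 : ∑ r ∈ S', ell (z - (r : ℂ) / (α : ℂ)) = ell (α * z) + ((gN α : ℝ) - 1) * c / 2 - ell z := by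
    have h4 := dist_ell hK hα0 hS hzn
    rw [hsplit, ← hb, ell_add hK hzn', mul_neg, ell_neg, ell_neg] at h4
    have h5 : ∑ r ∈ S', ell (z - (r : ℂ) / (α : ℂ)) = ∑ r ∈ S', ell (-z + (r : ℂ) / (α : ℂ)) := by
      apply Finset.sum_congr rfl
      intro r _
      rw [← ell_neg]; congr 1; ring
    rw [h5]
    linarith
  -- the points are not in the lattice
  have key : ∀ r ∈ S', Real.log ‖XX z - XX ((r : ℂ) / (α : ℂ))‖ =
      ell (z + (r : ℂ) / (α : ℂ)) + ell (z - (r : ℂ) / (α : ℂ)) - 2 * ell z - 2 * ell ((r : ℂ) / (α : ℂ)) - L := by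
    intro r hr
    have hr' : ¬ α ∣ r := (Finset.mem_filter.1 hr).2
    have hu : (r : ℂ) / (α : ℂ) ∉ Lam := by
      intro h
      exact hr' ((div_mem_iff hα0 r).1 h)
    have h1 : z + (r : ℂ) / (α : ℂ) ∉ Lam := by
      intro h
      apply hz
      have h4 := sub_mem_Lam (mul_mem_Lam (coe_mem_Lam α) h) (coe_mem_Lam r)
      have h5 : (α : ℂ) * z = (α : ℂ) * (z + (r : ℂ) / (α : ℂ)) - (r : ℂ) := by field_simp; ring
      rw [h5]; exact h4
    have h2 : z - (r : ℂ) / (α : ℂ) ∉ Lam := by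
      intro h
      apply hz
      have h4 := add_mem_Lam (mul_mem_Lam (coe_mem_Lam α) h) (coe_mem_Lam r)
      have h5 : (α : ℂ) * z = (α : ℂ) * (z - (r : ℂ) / (α : ℂ)) + (r : ℂ) := by field_simp; ring
      rw [h5]; exact h4
    exact log_norm_XX_sub hK hz' hu h1 h2
  have hT := sum_torsion hK hα hS (fun t => Real.log ‖XX z - t‖)
  rw [← hS', Finset.sum_congr rfl key] at hT
  simp only [Finset.sum_sub_distrib, Finset.sum_add_distrib, Finset.sum_const, nsmul_eq_mul, ← Finset.mul_sum] at hT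
  rw [s1, s2, hcard', ← hK1] at hT
  have hne : ∀ t ∈ TFin XX α, ‖XX z - t‖ ≠ 0 := by
    intro t ht
    obtain ⟨u, hu, hbu, rfl⟩ := (mem_TFin hK hα0 t).1 ht
    rw [norm_ne_zero_iff]
    intro h0
    rcases XX_inj hK hz' hu (sub_eq_zero.1 h0) with h | h
    · apply hz
      have h2 := add_mem_Lam (mul_mem_Lam (coe_mem_Lam α) h) hbu
      have h3 : (α : ℂ) * z = (α : ℂ) * (z - u) + (α : ℂ) * u := by ring
      rw [h3]; exact h2
    · apply hz
      have h2 := sub_mem_Lam (mul_mem_Lam (coe_mem_Lam α) h) hbu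
      have h3 : (α : ℂ) * z = (α : ℂ) * (z + u) - (α : ℂ) * u := by ring
      rw [h3]; exact h2
  rw [norm_prod, Real.log_prod hne]
  linarith

end Pool.Agent.STg.An
end

section

set_option autoImplicit false

open Complex Filter Topology
open scoped ComplexConjugate

namespace Pool.Agent.STg.An

/-- The left side of the multiplication formula. -/
noncomputable def LL (β : GaussianInt) (z : ℂ) : ℂ :=
  XX (β * z) * ∏ t ∈ TFin XX β, (XX z - t) ^ 2

/-- The right side of the multiplication formula. -/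
noncomputable def MM (β : GaussianInt) (z : ℂ) : ℂ :=
  XX z * ∏ t ∈ TFin XX β, (1 + t * XX z) ^ 2

/-! no zeros outside of `{z | (1 + I) β z ∈ Lam}`. -/

/-- Proof: `XX v = 0 = XX w0` implies `v ± w0 ∈ Lam` (`XX_inj`), so `(1 + I) v ∈ Lam` as
`(1 + I) w0 = I`. -/
theorem XX_ne_zero {c : ℝ} (hK : Kron c) {v : ℂ} (hv : (1 + I) * v ∉ Lam) : XX v ≠ 0 := by
  have h1I : (1 + I : ℂ) ∈ Lam := add_mem_Lam one_mem_Lam I_mem_Lam
  have hw : (1 + I) * w0 = I := by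
    rw [w0]
    linear_combination (1 / 2 : ℂ) * I_mul_I
  have hv' : v ∉ Lam := fun h => hv (mul_mem_Lam h1I h)
  intro h0
  rcases XX_inj hK hv' w0_notMem (h0.trans XX_w0.symm) with h | h
  · apply hv
    have h2 := mul_mem_Lam h1I h
    have h3 : (1 + I) * v = (1 + I) * (v - w0) + I := by linear_combination (1 : ℂ) * hw
    rw [h3]
    exact add_mem_Lam h2 I_mem_Lam
  · apply hv
    have h2 := mul_mem_Lam h1I h
    have h3 : (1 + I) * v = (1 + I) * (v + w0) - I := by linear_combination (-1 : ℂ) * hw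
    rw [h3]
    exact sub_mem_Lam h2 I_mem_Lam

/-- Proof: `t = XX u` with `β u ∈ Lam`; if `XX z = XX u` then `z ± u ∈ Lam`, `β z ∈ Lam`. -/
theorem sub_ne_zero_T {c : ℝ} (hK : Kron c) {β : GaussianInt} (hβ : gOdd β) {z : ℂ}
    (hz : (β : ℂ) * z ∉ Lam) {t : ℂ} (ht : t ∈ TFin XX β) : XX z - t ≠ 0 := by
  have hβ0 : β ≠ 0 := ne_zero_of_gOdd hβ
  obtain ⟨u, hu, hbu, rfl⟩ := (mem_TFin hK hβ0 t).1 ht
  have hz' : z ∉ Lam := fun h => hz (mul_mem_Lam (coe_mem_Lam β) h)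
  intro h0
  rcases XX_inj hK hz' hu (sub_eq_zero.1 h0) with h | h
  · apply hz
    have h2 := add_mem_Lam (mul_mem_Lam (coe_mem_Lam β) h) hbu
    have h3 : (β : ℂ) * z = (β : ℂ) * (z - u) + (β : ℂ) * u := by ring
    rw [h3]; exact h2
  · apply hz
    have h2 := sub_mem_Lam (mul_mem_Lam (coe_mem_Lam β) h) hbu
    have h3 : (β : ℂ) * z = (β : ℂ) * (z + u) - (β : ℂ) * u := by ring
    rw [h3]; exact h2

/-- auxiliary facts on the torsion value t = XX u -/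
theorem AnD8_aux {c : ℝ} (hK : Kron c) {β : GaussianInt} (hβ : gOdd β) {u : ℂ} (hu : u ∉ Lam)
    (hbu : (β : ℂ) * u ∈ Lam) : u + w0 ∉ Lam ∧ XX (u + w0) * XX u = -1 := by
  have h1 : u + w0 ∉ Lam := by
    intro h
    apply odd_mul_w0_notMem hβ
    have h2 := sub_mem_Lam (mul_mem_Lam (coe_mem_Lam β) h) hbu
    have h3 : (β : ℂ) * w0 = (β : ℂ) * (u + w0) - (β : ℂ) * u := by ring
    rw [h3]; exact h2
  exact ⟨h1, XX_add_w0 hK hu h1⟩

/-- Proof: `t = XX u`, `β u ∈ Lam`, so `u + w0 ∉ Lam` (`odd_mul_w0_notMem`) and `XX (u + w0) * t = -1`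
(`XX_add_w0`), so `t ≠ 0`. If `1 + t XX z = 0` then `XX z = XX (u + w0)`, `z ± (u + w0) ∈ Lam`,
`β z ± β w0 ∈ Lam`, `(1 + I) β z ∈ Lam`. -/
theorem T_ne_zero {c : ℝ} (hK : Kron c) {β : GaussianInt} (hβ : gOdd β) {t : ℂ}
    (ht : t ∈ TFin XX β) : t ≠ 0 := by
  have hβ0 : β ≠ 0 := ne_zero_of_gOdd hβ
  obtain ⟨u, hu, hbu, rfl⟩ := (mem_TFin hK hβ0 t).1 ht
  obtain ⟨h1, h2⟩ := AnD8_aux hK hβ hu hbu
  intro h0
  rw [h0, mul_zero] at h2
  norm_num at h2

theorem one_add_ne_zero_T {c : ℝ} (hK : Kron c) {β : GaussianInt} (hβ : gOdd β) {z : ℂ}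
    (hz : (1 + I) * ((β : ℂ) * z) ∉ Lam) {t : ℂ} (ht : t ∈ TFin XX β) : 1 + t * XX z ≠ 0 := by
  have hβ0 : β ≠ 0 := ne_zero_of_gOdd hβ
  have h1I : (1 + I : ℂ) ∈ Lam := add_mem_Lam one_mem_Lam I_mem_Lam
  have htn := T_ne_zero hK hβ ht
  obtain ⟨u, hu, hbu, rfl⟩ := (mem_TFin hK hβ0 t).1 ht
  obtain ⟨h1, h2⟩ := AnD8_aux hK hβ hu hbu
  have hz' : z ∉ Lam := fun h => hz (mul_mem_Lam h1I (mul_mem_Lam (coe_mem_Lam β) h))
  intro h0
  have h3 : XX z = XX (u + w0) := by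
    apply mul_left_cancel₀ htn
    linear_combination h0 - h2
  have hw : (1 + I) * w0 = I := by
    rw [w0]
    linear_combination (1 / 2 : ℂ) * I_mul_I
  have hbI : (β : ℂ) * I ∈ Lam := mul_mem_Lam (coe_mem_Lam β) I_mem_Lam
  have hbu' : (1 + I) * ((β : ℂ) * u) ∈ Lam := mul_mem_Lam h1I hbu
  rcases XX_inj hK hz' h1 h3 with h | h
  · apply hz
    have h4 : (1 + I) * ((β : ℂ) * z) = (1 + I) * ((β : ℂ) * (z - (u + w0))) + (1 + I) * ((β : ℂ) * u) + (β : ℂ) * I := by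
      linear_combination (β : ℂ) * hw
    rw [h4]
    exact add_mem_Lam (add_mem_Lam (mul_mem_Lam h1I (mul_mem_Lam (coe_mem_Lam β) h)) hbu') hbI
  · apply hz
    have h4 : (1 + I) * ((β : ℂ) * z) = (1 + I) * ((β : ℂ) * (z + (u + w0))) - (1 + I) * ((β : ℂ) * u) - (β : ℂ) * I := by
      linear_combination (-(β : ℂ)) * hw
    rw [h4]
    exact sub_mem_Lam (sub_mem_Lam (mul_mem_Lam h1I (mul_mem_Lam (coe_mem_Lam β) h)) hbu') hbI

/-- `z` and `β z` are not in the kernel of `1 + I` -/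
theorem AnD8_aux2 {β : GaussianInt} {z : ℂ} (hz : (1 + I) * ((β : ℂ) * z) ∉ Lam) : (1 + I) * z ∉ Lam := by
  intro h
  apply hz
  have h2 := mul_mem_Lam (coe_mem_Lam β) h
  have h3 : (1 + I) * ((β : ℂ) * z) = (β : ℂ) * ((1 + I) * z) := by ring
  rw [h3]; exact h2

theorem LL_ne_zero {c : ℝ} (hK : Kron c) {β : GaussianInt} (hβ : gOdd β) {z : ℂ}
    (hz : (1 + I) * ((β : ℂ) * z) ∉ Lam) : LL β z ≠ 0 := by
  have h1I : (1 + I : ℂ) ∈ Lam := add_mem_Lam one_mem_Lam I_mem_Lam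
  have hbz : (β : ℂ) * z ∉ Lam := fun h => hz (mul_mem_Lam h1I h)
  rw [LL]
  apply mul_ne_zero (XX_ne_zero hK hz)
  exact Finset.prod_ne_zero_iff.2 fun t ht => pow_ne_zero _ (sub_ne_zero_T hK hβ hbz ht)

theorem MM_ne_zero {c : ℝ} (hK : Kron c) {β : GaussianInt} (hβ : gOdd β) {z : ℂ}
    (hz : (1 + I) * ((β : ℂ) * z) ∉ Lam) : MM β z ≠ 0 := by
  rw [MM]
  apply mul_ne_zero (XX_ne_zero hK (AnD8_aux2 hz))
  exact Finset.prod_ne_zero_iff.2 fun t ht => pow_ne_zero _ (one_add_ne_zero_T hK hβ hz ht)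

end Pool.Agent.STg.An
end
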