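import Pool.Agent.Lib.MP_1ef7cf_nt_g.AnDefs
import Pool.Agent.Lib.MP_1ef7cf_nt_g.AnH1
import Pool.Agent.Lib.MP_1ef7cf_nt_g.AnH2
import Pool.Agent.Lib.MP_1ef7cf_nt_g.Mg.G019
import Pool.Agent.Lib.MP_1ef7cf_nt_g.Mg.G002

section

set_option autoImplicit false

open Complex Filter Topology
open scoped ComplexConjugate

namespace Pool.Agent.STg.An

/-! the bound for `hh`. -/

/-- product of two approximations -/
theorem AnH4_prod {a b A B : ℂ} {e : ℝ} (he0 : 0 ≤ e) (hA : ‖A‖ ≤ 60) (hB : ‖B‖ ≤ 60)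
    (ha : ‖a - A‖ ≤ e) (hb : ‖b - B‖ ≤ e) : ‖a * b - A * B‖ ≤ e * (120 + e) := by
  have h : a * b - A * B = (a - A) * B + A * (b - B) + (a - A) * (b - B) := by ring
  rw [h]
  refine (norm_add_le _ _).trans ((add_le_add (norm_add_le _ _) le_rfl).trans ?_)
  rw [norm_mul, norm_mul, norm_mul]
  have h1 : ‖a - A‖ * ‖B‖ ≤ e * 60 := mul_le_mul ha hB (norm_nonneg _) he0
  have h2 : ‖A‖ * ‖b - B‖ ≤ 60 * e := mul_le_mul hA hb (norm_nonneg _) (by norm_num)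
  have h3 : ‖a - A‖ * ‖b - B‖ ≤ e * e := mul_le_mul ha hb (norm_nonneg _) he0
  linarith

theorem AnH4_ne {v : ℂ} (hv : ‖v‖ ≤ 1 / 2) : 1 + v ≠ 0 := by
  intro h
  have : v = -1 := by linear_combination h
  rw [this, norm_neg, norm_one] at hv
  norm_num at hv

/-- one of the four terms -/
theorem AnH4_term {C : ℝ} (hC : 0 ≤ C) (hT : ∀ s w : ℂ, ‖s‖ ≤ 3 → ‖w‖ ≤ 1 / 2 →
    ‖(1 + w) ^ (-s) - (1 - s * w + s * (s + 1) / 2 * w ^ 2 - s * (s + 1) * (s + 2) / 6 * w ^ 3)‖ ≤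
      C * ‖w‖ ^ 4) (s v : ℂ) (hs : ‖s‖ ≤ 3) (hv : ‖v‖ ≤ 1 / 2) :
    ‖((‖1 + v‖ : ℝ) : ℂ) ^ (-2 * s) - TP s v * TP s (conj v)‖ ≤ C * (120 + C) * ‖v‖ ^ 4 := by
  rw [norm_cpow_split (AnH4_ne hv) s]
  have hcs : ‖conj s‖ ≤ 3 := by rw [Complex.norm_conj]; exact hs
  have hcv : ‖conj v‖ ≤ 1 / 2 := by rw [Complex.norm_conj]; exact hv
  have h1 : ‖(1 + v) ^ (-s) - TP s v‖ ≤ C * ‖v‖ ^ 4 := hT s v hs hv
  have h2 : ‖conj ((1 + v) ^ (-(conj s))) - TP s (conj v)‖ ≤ C * ‖v‖ ^ 4 := by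
    rw [← TP_conj, ← map_sub, Complex.norm_conj]
    exact hT (conj s) v hcs hv
  have hv0 := norm_nonneg v
  have hv4 : ‖v‖ ^ 4 ≤ 1 := pow_le_one₀ hv0 (by linarith)
  have he0 : 0 ≤ C * ‖v‖ ^ 4 := by positivity
  refine (AnH4_prod he0 (TP_norm_le hs hv) (TP_norm_le hs hcv) h1 h2).trans ?_
  have h3 : C * ‖v‖ ^ 4 ≤ C := by
    calc C * ‖v‖ ^ 4 ≤ C * 1 := mul_le_mul_of_nonneg_left hv4 hC
      _ = C := mul_one C
  calc C * ‖v‖ ^ 4 * (120 + C * ‖v‖ ^ 4) ≤ C * ‖v‖ ^ 4 * (120 + C) :=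
        mul_le_mul_of_nonneg_left (by linarith) he0
    _ = C * (120 + C) * ‖v‖ ^ 4 := by ring

/-- Proof. For `v = 1 + i ^ k w`, `norm_cpow_split` gives
`‖v‖ ^ (-2 s) = (1 + i ^ k w) ^ (-s) * conj ((1 + i ^ k w) ^ (-conj s))`. By `cpow_taylor` (for `s` and for
`conj s`) each factor is `TP + O(‖w‖ ^ 4)`, with `TP` bounded (`TP_norm_le`); by `TP_conj`, `avg_TP`
with `v = conj w`, `w * conj w = ‖w‖ ^ 2`, the average of the main terms is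
`1 + s ^ 2 ‖w‖ ^ 2 + O(‖w‖ ^ 4)`. -/
theorem hh_bound : ∃ C : ℝ, 0 ≤ C ∧ ∀ s w : ℂ, ‖s‖ ≤ 3 → ‖w‖ ≤ 1 / 2 →
    ‖hh s w - 1 - s ^ 2 * ((‖w‖ ^ 2 : ℝ) : ℂ)‖ ≤ C * ‖w‖ ^ 4 := by
  obtain ⟨C, hC, hT⟩ := cpow_taylor
  refine ⟨C * (120 + C) + 200, by positivity, ?_⟩
  intro s w hs hw
  have hw0 := norm_nonneg w
  have hIw : ‖I * w‖ = ‖w‖ := by rw [norm_mul, Complex.norm_I, one_mul]
  have hnw : ‖-w‖ = ‖w‖ := norm_neg w
  have hnIw : ‖-(I * w)‖ = ‖w‖ := by rw [norm_neg, hIw]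
  have t1 := AnH4_term hC hT s w hs hw
  have t2 := AnH4_term hC hT s (I * w) hs (by rw [hIw]; exact hw)
  have t3 := AnH4_term hC hT s (-w) hs (by rw [hnw]; exact hw)
  have t4 := AnH4_term hC hT s (-(I * w)) hs (by rw [hnIw]; exact hw)
  rw [hIw] at t2
  rw [hnw, ← sub_eq_add_neg] at t3
  rw [hnIw, ← sub_eq_add_neg] at t4
  have c2 : conj (I * w) = -(I * conj w) := by rw [map_mul, Complex.conj_I]; ring
  have c3 : conj (-w) = - conj w := map_neg _ _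
  have c4 : conj (-(I * w)) = I * conj w := by rw [map_neg, c2, neg_neg]
  rw [c2] at t2
  rw [c3] at t3
  rw [c4] at t4
  have havg := avg_TP s w (conj w)
  have hww : w * conj w = ((‖w‖ ^ 2 : ℝ) : ℂ) := by
    rw [Complex.mul_conj, Complex.normSq_eq_norm_sq]
  rw [hww] at havg
  set x : ℂ := ((‖w‖ ^ 2 : ℝ) : ℂ) with hx
  have hxn : ‖x‖ = ‖w‖ ^ 2 := by
    rw [hx, Complex.norm_real, Real.norm_of_nonneg (by positivity)]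
  have hsplit : hh s w - 1 - s ^ 2 * x
      = ((((‖1 + w‖ : ℝ) : ℂ) ^ (-2 * s) - TP s w * TP s (conj w))
        + (((‖1 + I * w‖ : ℝ) : ℂ) ^ (-2 * s) - TP s (I * w) * TP s (-(I * conj w)))
        + (((‖1 - w‖ : ℝ) : ℂ) ^ (-2 * s) - TP s (-w) * TP s (-conj w))
        + (((‖1 - I * w‖ : ℝ) : ℂ) ^ (-2 * s) - TP s (-(I * w)) * TP s (I * conj w))) / 4
      + ((s * (s + 1) / 2) ^ 2 * x ^ 2 + (s * (s + 1) * (s + 2) / 6) ^ 2 * x ^ 3) := by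
    unfold hh
    linear_combination havg
  rw [hsplit]
  refine (norm_add_le _ _).trans ?_
  rw [norm_div]
  have h4 : ‖(4 : ℂ)‖ = 4 := by norm_num
  rw [h4]
  have hsum : ‖((((‖1 + w‖ : ℝ) : ℂ) ^ (-2 * s) - TP s w * TP s (conj w))
        + (((‖1 + I * w‖ : ℝ) : ℂ) ^ (-2 * s) - TP s (I * w) * TP s (-(I * conj w)))
        + (((‖1 - w‖ : ℝ) : ℂ) ^ (-2 * s) - TP s (-w) * TP s (-conj w))
        + (((‖1 - I * w‖ : ℝ) : ℂ) ^ (-2 * s) - TP s (-(I * w)) * TP s (I * conj w)))‖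
      ≤ 4 * (C * (120 + C) * ‖w‖ ^ 4) := by
    refine (norm_add_le _ _).trans ?_
    refine (add_le_add ((norm_add_le _ _).trans (add_le_add (norm_add_le _ _) le_rfl))
      le_rfl).trans ?_
    linarith
  have hs0 := norm_nonneg s
  have h1 : ‖s + 1‖ ≤ 4 := by
    refine (norm_add_le _ _).trans ?_
    rw [norm_one]; linarith
  have h2 : ‖s + 2‖ ≤ 5 := by
    refine (norm_add_le _ _).trans ?_
    have : ‖(2 : ℂ)‖ = 2 := by norm_num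
    rw [this]; linarith
  have ss : ‖s * (s + 1)‖ ≤ 12 := by
    rw [norm_mul]
    calc ‖s‖ * ‖s + 1‖ ≤ 3 * 4 := mul_le_mul hs h1 (norm_nonneg _) (by norm_num)
      _ = 12 := by norm_num
  have sss : ‖s * (s + 1) * (s + 2)‖ ≤ 60 := by
    rw [norm_mul]
    calc ‖s * (s + 1)‖ * ‖s + 2‖ ≤ 12 * 5 := mul_le_mul ss h2 (norm_nonneg _) (by norm_num)
      _ = 60 := by norm_num
  have q1 : ‖s * (s + 1) / 2‖ ≤ 6 := by
    rw [norm_div]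
    have : ‖(2 : ℂ)‖ = 2 := by norm_num
    rw [this]; linarith
  have q2 : ‖s * (s + 1) * (s + 2) / 6‖ ≤ 10 := by
    rw [norm_div]
    have : ‖(6 : ℂ)‖ = 6 := by norm_num
    rw [this]; linarith
  have r1 : ‖(s * (s + 1) / 2) ^ 2 * x ^ 2‖ ≤ 36 * ‖w‖ ^ 4 := by
    rw [norm_mul, norm_pow, norm_pow, hxn]
    have e1 : ‖s * (s + 1) / 2‖ ^ 2 ≤ 6 ^ 2 := pow_le_pow_left₀ (norm_nonneg _) q1 2
    calc ‖s * (s + 1) / 2‖ ^ 2 * (‖w‖ ^ 2) ^ 2 ≤ 6 ^ 2 * (‖w‖ ^ 2) ^ 2 :=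
          mul_le_mul_of_nonneg_right e1 (by positivity)
      _ = 36 * ‖w‖ ^ 4 := by ring
  have r2 : ‖(s * (s + 1) * (s + 2) / 6) ^ 2 * x ^ 3‖ ≤ 100 * ‖w‖ ^ 4 := by
    rw [norm_mul, norm_pow, norm_pow, hxn]
    have e1 : ‖s * (s + 1) * (s + 2) / 6‖ ^ 2 ≤ 10 ^ 2 := pow_le_pow_left₀ (norm_nonneg _) q2 2
    have e2 : (‖w‖ ^ 2) ^ 3 ≤ ‖w‖ ^ 4 := by
      have hw2 : ‖w‖ ^ 2 ≤ 1 := pow_le_one₀ hw0 (by linarith)
      calc (‖w‖ ^ 2) ^ 3 = ‖w‖ ^ 4 * ‖w‖ ^ 2 := by ring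
        _ ≤ ‖w‖ ^ 4 * 1 := mul_le_mul_of_nonneg_left hw2 (by positivity)
        _ = ‖w‖ ^ 4 := mul_one _
    calc ‖s * (s + 1) * (s + 2) / 6‖ ^ 2 * (‖w‖ ^ 2) ^ 3 ≤ 10 ^ 2 * ‖w‖ ^ 4 :=
          mul_le_mul e1 e2 (by positivity) (by norm_num)
      _ = 100 * ‖w‖ ^ 4 := by ring
  have r3 := (norm_add_le ((s * (s + 1) / 2) ^ 2 * x ^ 2)
    ((s * (s + 1) * (s + 2) / 6) ^ 2 * x ^ 3)).trans (add_le_add r1 r2)
  have r4 : 0 ≤ ‖w‖ ^ 4 := by positivity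
  have r5 := div_le_div_of_nonneg_right hsum (by norm_num : (0 : ℝ) ≤ 4)
  nlinarith

end Pool.Agent.STg.An
end

section

set_option autoImplicit false

open Complex Filter Topology
open scoped ComplexConjugate

namespace Pool.Agent.STg.An

/-! the bound for the functions `TT`. -/

theorem AnT2_UU {s : ℂ} (hs : s ∈ UU) : -(1 / 2) < s.re ∧ ‖s‖ ≤ 3 := by
  have h1 : ‖s - 1‖ < 3 / 2 := by
    rw [← dist_eq_norm]
    exact hs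
  constructor
  · have h2 := (abs_lt.1 (lt_of_le_of_lt (Complex.abs_re_le_norm (s - 1)) h1)).1
    rw [Complex.sub_re, Complex.one_re] at h2
    linarith
  · have h2 : ‖s‖ ≤ ‖s - 1‖ + ‖(1 : ℂ)‖ := by
      have := norm_add_le (s - 1) 1
      simpa using this
    rw [norm_one] at h2
    linarith

/-- Proof. For `s ∈ UU`: `-1 / 2 < re s`, `‖s‖ ≤ 3`, so `‖‖a‖ ^ (-2 s)‖ = ‖a‖ ^ (-2 re s) ≤ ‖a‖`
(`one_le_norm_NZ`), and for `‖a‖ ≥ 2 ‖z‖` by `hh_bound` `‖TT z a s‖ ≤ C ‖z‖ ^ 4 ‖a‖ ^ (-3)`. For the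
finitely many other `a` (`finite_norm_le`) `TT z a` is continuous, hence bounded by some `M a` on the
compact set `closedBall 1 (3 / 2)`. Let `u a` be `C ‖z‖ ^ 4 ‖a‖ ^ (-3)` resp. `M a`; it is summable by
`summable_NZ` (`3 > 2`). -/
theorem TT_bound {z : ℂ} (hz : z ∉ Lam) :
    ∃ u : NZ → ℝ, Summable u ∧ ∀ a : NZ, ∀ s ∈ UU, ‖TT z a s‖ ≤ u a := by
  classical
  obtain ⟨C, hC0, hC⟩ := hh_bound
  have hM : ∀ a : NZ, ∃ M : ℝ, ∀ s ∈ UU, ‖TT z a s‖ ≤ M := by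
    intro a
    obtain ⟨M, hM⟩ := (isCompact_closedBall (1 : ℂ) (3 / 2)).exists_bound_of_continuousOn
      (TT_diff hz a).continuous.continuousOn
    exact ⟨M, fun s hs => hM s (Metric.ball_subset_closedBall hs)⟩
  choose M hM using hM
  set v : NZ → ℝ := fun a => if ‖((a : GaussianInt) : ℂ)‖ ≤ 2 * ‖z‖ then M a else 0 with hv
  have hfin : {a : NZ | ‖((a : GaussianInt) : ℂ)‖ ≤ 2 * ‖z‖}.Finite :=
    (finite_norm_le (2 * ‖z‖)).preimage Subtype.val_injective.injOn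
  have hvs : Summable v := by
    apply summable_of_ne_finset_zero (s := hfin.toFinset)
    intro a ha
    have h : ¬ ‖((a : GaussianInt) : ℂ)‖ ≤ 2 * ‖z‖ := fun h => ha (hfin.mem_toFinset.2 h)
    simp only [hv]
    rw [if_neg h]
  have hus := (summable_NZ (r := 3) (by norm_num)).mul_left (C * ‖z‖ ^ 4)
  refine ⟨fun a => C * ‖z‖ ^ 4 * ‖((a : GaussianInt) : ℂ)‖ ^ (-(3 : ℝ)) + v a, hus.add hvs, ?_⟩
  intro a s hs
  set b : ℂ := ((a : GaussianInt) : ℂ) with hb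
  have hb1 : 1 ≤ ‖b‖ := one_le_norm_NZ a
  have hb0 : 0 < ‖b‖ := by linarith
  have hpos : 0 ≤ C * ‖z‖ ^ 4 * ‖b‖ ^ (-(3 : ℝ)) := by positivity
  show ‖TT z a s‖ ≤ C * ‖z‖ ^ 4 * ‖b‖ ^ (-(3 : ℝ)) + v a
  by_cases hab : ‖b‖ ≤ 2 * ‖z‖
  · have h1 : v a = M a := by simp only [hv]; rw [if_pos hab]
    rw [h1]
    have := hM a s hs
    linarith
  · have h1 : v a = 0 := by simp only [hv]; rw [if_neg hab]
    rw [h1, add_zero]
    obtain ⟨hre, hns⟩ := AnT2_UU hs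
    have hab' : 2 * ‖z‖ < ‖b‖ := not_le.1 hab
    have hw : ‖z / b‖ ≤ 1 / 2 := by
      rw [norm_div, div_le_iff₀ hb0]
      linarith
    have h2 := hC s (z / b) hns hw
    have h3 : ‖((‖b‖ : ℝ) : ℂ) ^ (-2 * s)‖ ≤ ‖b‖ := by
      rw [Complex.norm_cpow_eq_rpow_re_of_pos hb0]
      have h4 : (-2 * s).re = -2 * s.re := by simp
      rw [h4]
      calc ‖b‖ ^ (-2 * s.re) ≤ ‖b‖ ^ (1 : ℝ) :=
            Real.rpow_le_rpow_of_exponent_le hb1 (by linarith)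
        _ = ‖b‖ := Real.rpow_one _
    unfold TT
    rw [norm_mul]
    calc ‖((‖b‖ : ℝ) : ℂ) ^ (-2 * s)‖ * ‖hh s (z / b) - 1 - s ^ 2 * ((‖z / b‖ ^ 2 : ℝ) : ℂ)‖
        ≤ ‖b‖ * (C * ‖z / b‖ ^ 4) := mul_le_mul h3 h2 (norm_nonneg _) hb0.le
      _ = C * ‖z‖ ^ 4 * ‖b‖ ^ (-(3 : ℝ)) := by
          have h5 : ‖b‖ ^ (-(3 : ℝ)) = (‖b‖ ^ 3)⁻¹ := by
            rw [Real.rpow_neg hb0.le]
            congr 1
            exact_mod_cast Real.rpow_natCast ‖b‖ 3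
          rw [h5, norm_div]
          field_simp

end Pool.Agent.STg.An
end
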