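import Pool.Agent.Lib.MP_1ef7cf_nt_g.Mg.G018
import Pool.Agent.Lib.MP_1ef7cf_nt_g.Mg.G021

section

set_option autoImplicit false

open Complex Filter Topology
open scoped ComplexConjugate

namespace Pool.Agent.STg.An

/-! the function `RR`. -/

/-- Proof: `differentiableOn_tsum_of_summable_norm` with `TT_bound`. -/
theorem RR_diff {z : ℂ} (hz : z ∉ Lam) : DifferentiableOn ℂ (RR z) UU := by
  obtain ⟨u, hu, hb⟩ := TT_bound hz
  exact differentiableOn_tsum_of_summable_norm hu (fun a => (TT_diff hz a).differentiableOn)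
    Metric.isOpen_ball hb

theorem RR_zero (z : ℂ) : RR z 0 = 0 := by
  unfold RR
  simp [TT_zero]

/-- Proof: `hasSum_deriv_of_summable_norm` with `TT_bound`, `TT_deriv` (`0 ∈ UU`). -/
theorem RR_deriv {z : ℂ} (hz : z ∉ Lam) :
    HasSum (fun a : NZ =>
      ((-(1 / 2) * Real.log ‖1 - (z / ((a : GaussianInt) : ℂ)) ^ 4‖ : ℝ) : ℂ))
      (deriv (RR z) 0) := by
  obtain ⟨u, hu, hb⟩ := TT_bound hz
  have h0 : (0 : ℂ) ∈ UU := by
    unfold UU
    rw [Metric.mem_ball, dist_eq_norm]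
    norm_num
  have h1 := hasSum_deriv_of_summable_norm hu (fun a => (TT_diff hz a).differentiableOn)
    Metric.isOpen_ball hb h0
  have h2 : (fun a : NZ => deriv (TT z a) 0) = fun a : NZ =>
      ((-(1 / 2) * Real.log ‖1 - (z / ((a : GaussianInt) : ℂ)) ^ 4‖ : ℝ) : ℂ) := by
    funext a
    exact TT_deriv hz a
  rw [h2] at h1
  exact h1

end Pool.Agent.STg.An
end

section

set_option autoImplicit false

open Complex Filter Topology
open scoped ComplexConjugate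

namespace Pool.Agent.STg.An

/-! the identity on the disc `UU`. -/

/-- Proof: the three `HasSum`s `symm_sum`, `DirS0` at `s` and `DirS0` at `s + 1` (times `s ^ 2 ‖z‖ ^ 2`,
with `‖a‖ ^ (-2 (s + 1)) * ‖z‖ ^ 2 = ‖a‖ ^ (-2 s) * ‖z / a‖ ^ 2`) add up to the series `RR z s`;
multiply by `s - 1`. -/
theorem ident_half {z : ℂ} {F F0 : ℂ → ℂ} (hF : DirS z F) (hF0 : DirS0 F0)
    {s : ℂ} (hs : 1 < s.re) :
    F s = (s - 1) * ((‖z‖ : ℝ) : ℂ) ^ (-2 * s) + F0 s +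
      (s - 1) * s * ((‖z‖ ^ 2 : ℝ) : ℂ) * F0 (s + 1) + (s - 1) * RR z s := by
  have h1 := symm_sum hF hs
  have h2 := hF0.2.2 s hs
  have h3 := hF0.2.2 (s + 1) (by rw [Complex.add_re, Complex.one_re]; linarith)
  have hs0 : s ≠ 0 := by
    rintro rfl
    simp at hs
    linarith
  have hs1 : s - 1 ≠ 0 := by
    intro h
    have h4 : s = 1 := sub_eq_zero.1 h
    rw [h4] at hs
    simp at hs
  have h4 := (h1.sub h2).sub (h3.mul_left (s ^ 2 * ((‖z‖ ^ 2 : ℝ) : ℂ)))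
  have h5 : (fun a : NZ => ((‖((a : GaussianInt) : ℂ)‖ : ℝ) : ℂ) ^ (-2 * s) *
      hh s (z / ((a : GaussianInt) : ℂ)) - ((‖((a : GaussianInt) : ℂ)‖ : ℝ) : ℂ) ^ (-2 * s) -
      s ^ 2 * ((‖z‖ ^ 2 : ℝ) : ℂ) * ((‖((a : GaussianInt) : ℂ)‖ : ℝ) : ℂ) ^ (-2 * (s + 1))) =
      fun a : NZ => TT z a s := by
    funext a
    have hb : 0 < ‖((a : GaussianInt) : ℂ)‖ := by
      have := one_le_norm_NZ a
      linarith
    set b : ℂ := ((a : GaussianInt) : ℂ) with hbdef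
    have hbn : ((‖b‖ : ℝ) : ℂ) ≠ 0 := by exact_mod_cast hb.ne'
    have h6 : ((‖b‖ : ℝ) : ℂ) ^ (-2 * (s + 1)) = ((‖b‖ : ℝ) : ℂ) ^ (-2 * s) / ((‖b‖ : ℝ) : ℂ) ^ 2 := by
      have h7 : -2 * (s + 1) = -2 * s - (2 : ℕ) := by push_cast; ring
      rw [h7, Complex.cpow_sub _ _ hbn, Complex.cpow_natCast]
    unfold TT
    rw [← hbdef, h6, norm_div]
    push_cast
    field_simp
  rw [h5] at h4
  have h6 : RR z s = (F s / (s - 1) - ((‖z‖ : ℝ) : ℂ) ^ (-2 * s) - F0 s / (s - 1) -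
      s ^ 2 * ((‖z‖ ^ 2 : ℝ) : ℂ) * (F0 (s + 1) / (s + 1 - 1))) := h4.tsum_eq
  rw [h6, add_sub_cancel_right]
  field_simp
  ring

/-- Proof: both sides are analytic on the preconnected open set `UU` (`RR_diff`, `z ≠ 0`), and by
`ident_half` they agree near the point `2 ∈ UU` (`AnalyticOnNhd.eqOn_of_preconnected_of_eventuallyEq`). -/
theorem ident {z : ℂ} (hz : z ∉ Lam) {F F0 : ℂ → ℂ} (hF : DirS z F) (hF0 : DirS0 F0)
    {s : ℂ} (hs : s ∈ UU) :
    F s = (s - 1) * ((‖z‖ : ℝ) : ℂ) ^ (-2 * s) + F0 s +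
      (s - 1) * s * ((‖z‖ ^ 2 : ℝ) : ℂ) * F0 (s + 1) + (s - 1) * RR z s := by
  have hz0 : z ≠ 0 := by
    rintro rfl
    exact hz zero_mem_Lam
  have hzn : ((‖z‖ : ℝ) : ℂ) ≠ 0 := by
    have := norm_ne_zero_iff.2 hz0
    exact_mod_cast this
  have hUopen : IsOpen UU := Metric.isOpen_ball
  have h1 : AnalyticOnNhd ℂ F UU := hF.1.differentiableOn.analyticOnNhd hUopen
  have h2 : DifferentiableOn ℂ (fun s : ℂ => (s - 1) * ((‖z‖ : ℝ) : ℂ) ^ (-2 * s) + F0 s +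
      (s - 1) * s * ((‖z‖ ^ 2 : ℝ) : ℂ) * F0 (s + 1) + (s - 1) * RR z s) UU := by
    have hc : Differentiable ℂ fun s : ℂ => ((‖z‖ : ℝ) : ℂ) ^ (-2 * s) := by
      intro s
      apply DifferentiableAt.const_cpow
      · fun_prop
      · exact Or.inl hzn
    have hF0d := hF0.1
    have h3 : Differentiable ℂ fun s : ℂ => (s - 1) * ((‖z‖ : ℝ) : ℂ) ^ (-2 * s) + F0 s +
      (s - 1) * s * ((‖z‖ ^ 2 : ℝ) : ℂ) * F0 (s + 1) := by
      have h4 : Differentiable ℂ fun s : ℂ => F0 (s + 1) := hF0d.comp (by fun_prop)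
      exact (((by fun_prop : Differentiable ℂ fun s : ℂ => s - 1).mul hc).add hF0d).add
        ((by fun_prop : Differentiable ℂ fun s : ℂ => (s - 1) * s * ((‖z‖ ^ 2 : ℝ) : ℂ)).mul h4)
    exact h3.differentiableOn.add
      ((by fun_prop : Differentiable ℂ fun s : ℂ => s - 1).differentiableOn.mul (RR_diff hz))
  have h3 := h2.analyticOnNhd hUopen
  have h2U : (2 : ℂ) ∈ UU := by
    unfold UU
    rw [Metric.mem_ball, dist_eq_norm]
    norm_num
  have hev : F =ᶠ[𝓝 2] fun s : ℂ => (s - 1) * ((‖z‖ : ℝ) : ℂ) ^ (-2 * s) + F0 s +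
      (s - 1) * s * ((‖z‖ ^ 2 : ℝ) : ℂ) * F0 (s + 1) + (s - 1) * RR z s := by
    have h4 : IsOpen {s : ℂ | 1 < s.re} := isOpen_lt continuous_const Complex.continuous_re
    filter_upwards [h4.mem_nhds (show (1 : ℝ) < (2 : ℂ).re by norm_num)] with s hs
    exact ident_half hF hF0 hs
  have hpre : IsPreconnected UU := (convex_ball (1 : ℂ) (3 / 2)).isPreconnected
  exact h1.eqOn_of_preconnected_of_eventuallyEq h3 hpre h2U hev hs

end Pool.Agent.STg.An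
end
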