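import Pool.Agent.Lib.MP_1ef7cf_nt_g.Mg.G037
import Pool.Agent.Lib.MP_1ef7cf_nt_g.Mg.G033
import Pool.Agent.Lib.MP_1ef7cf_nt_g.Mg.G035

section

/-!
# Reduction is injective on torsion points of order prime to `π`
-/

open Complex

namespace Pool.Agent.STg

variable (D : LemData) (V : ValuationSubring ℂ) {π : GaussianInt}

private lemma D6_coeI : ((⟨0, 1⟩ : GaussianInt) : ℂ) = I := by
  rw [GaussianInt.toComplex_def']
  simp

private lemma D6_I_mem {z : ℂ} (h : I * z ∈ Lam) : z ∈ Lam := by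
  have h1 := Lam_neg (Lam_mul ⟨0, 1⟩ h)
  rw [D6_coeI] at h1
  have e : -(I * (I * z)) = z := by linear_combination (-z) * Complex.I_sq
  rwa [e] at h1

private lemma D6_mem_I {z : ℂ} (h : z ∈ Lam) : I * z ∈ Lam := by
  have h1 := Lam_mul ⟨0, 1⟩ h
  rwa [D6_coeI] at h1

private lemma D6_one_mem : (1 : ℂ) ∈ Lam := ⟨1, by simp⟩

private lemma D6_final {w u : ℂ} (h1 : w + u ∉ Lam) (h2 : w - u ∉ Lam)
    (h3 : (1 + I) * w + 1 / 2 ∈ Lam) (h4 : (1 + I) * u + 1 / 2 ∈ Lam) : False := by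
  have a1 : (1 + I) * (w - u) ∈ Lam := by
    have := Lam_sub h3 h4
    have e : (1 + I) * w + 1 / 2 - ((1 + I) * u + 1 / 2) = (1 + I) * (w - u) := by ring
    rwa [e] at this
  have a2 : (1 + I) * (w + u) ∈ Lam := by
    have := Lam_sub (Lam_add h3 h4) D6_one_mem
    have e : (1 + I) * w + 1 / 2 + ((1 + I) * u + 1 / 2) - 1 = (1 + I) * (w + u) := by ring
    rwa [e] at this
  have b1 := sub_w0_mem h2 a1
  have b2 := sub_w0_mem h1 a2
  have c1 := Lam_sub h3 (D6_mem_I h3)
  have c2 := Lam_sub (Lam_sub c1 (Lam_add b1 b2)) D6_one_mem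
  have e : (1 + I) * w + 1 / 2 - I * ((1 + I) * w + 1 / 2) - (w - u - (1 + I) / 2 + (w + u - (1 + I) / 2)) - 1
      = ((1 : GaussianInt) : ℂ) * ((1 + I) / 2) := by
    rw [GaussianInt.toComplex_one]
    linear_combination (-w) * Complex.I_sq
  rw [e] at c2
  refine w0_notMem ?_ c2
  show Odd (gN 1)
  rw [gN_one]
  exact odd_one

private lemma D6_half (hπ : Prime π) (hodd : gOdd π) (h : V.valuation (π : ℂ) < 1)
    {β : GaussianInt} (hβ : ¬ π ∣ β) {w : ℂ} (hw : w ∉ Lam) (hβw : (β : ℂ) * w ∈ Lam)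
    (hv : V.valuation (D.X w - 1) < 1) : w + 1 / 2 ∈ Lam := by
  by_contra hcon
  have h1 := D.X_add_half w hw hcon
  have h2v := val_two V hπ hodd h
  have hβ2 : ¬ π ∣ (⟨2, 0⟩ : GaussianInt) * β := by
    intro hd
    rcases hπ.dvd_or_dvd hd with h3 | h3
    · have h4 := (val_gauss_lt V hπ h _).mpr h3
      have e : ((⟨2, 0⟩ : GaussianInt) : ℂ) = 2 := by
        rw [GaussianInt.toComplex_def']
        simp
      rw [e, h2v] at h4
      exact lt_irrefl _ h4
    · exact hβ h3
  have h5 : (((⟨2, 0⟩ : GaussianInt) * β : GaussianInt) : ℂ) * (w + 1 / 2) ∈ Lam := by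
    have e : ((⟨2, 0⟩ : GaussianInt) : ℂ) = 2 := by
      rw [GaussianInt.toComplex_def']
      simp
    have h6 := Lam_add (Lam_mul ⟨2, 0⟩ hβw) (Lam_mul β D6_one_mem)
    rw [e] at h6
    rw [GaussianInt.toComplex_mul, e]
    have e2 : 2 * ((β : ℂ) * w) + (β : ℂ) * 1 = 2 * (β : ℂ) * (w + 1 / 2) := by ring
    rwa [e2] at h6
  have h7 := D.val_le_one V hπ hodd h hβ2 hcon h5
  have h8 : V.valuation (D.X w + 1) = 1 := by
    have e : D.X w + 1 = (D.X w - 1) + 2 := by ring
    rw [e, ← h2v]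
    apply Valuation.map_add_eq_of_lt_right
    rw [h2v]
    exact hv
  have h9 := congrArg V.valuation h1
  rw [map_mul, h8] at h9
  have h10 : V.valuation (D.X (w + 1 / 2)) * V.valuation (D.X w - 1) < 1 :=
    (mul_le_of_le_one_left' h7).trans_lt hv
  exact absurd h9 h10.ne

/-- `X_oneI` etc. with `v 2 = 1`: **reduction is injective on torsion points of order prime to `π`.**
Assume `v (x - x') < 1`, `x = X w`, `x' = X u`. By `X_mul` and `val_le_one` for `w + u`, `w - u`,
`v (1 + x x') ≤ v (x - x') < 1`, so `v (x ^ 2 + 1) < 1`. Put `w' = (1 + i) w`, `u' = (1 + i) u`. As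
`x ≠ 0` modulo the maximal ideal and `X ((1 + i) w) 2 i x = x ^ 2 - 1`, `w' ∉ Lam` (else
`x = 0`), and `X w' = i / x`, `X u' = i / x'` are congruent to the same `ε = 1` or `-1`
(`(i / x) ^ 2 = -1 / x ^ 2 = 1`). If `ε = 1` then `w' + 1/2 ∈ Lam`: otherwise
`X (w' + 1/2) = (X w' + 1) / (X w' - 1)` has `v > 1`, contradicting `val_le_one` (`w' + 1/2` is a
torsion point of order prime to `π`); in the same way `u' + 1/2 ∈ Lam`. If `ε = -1` the same argument
for `i w'`, `i u'`. In both cases `w' - u' ∈ Lam` and `w' + u' ∈ Lam`, so `w - u` and `w + u` are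
both `w₀ = (1 + i) / 2` modulo `Lam` (`sub_w0_mem`), so `2 w ∈ Lam`; but
`2 w = (1 - i) w' = (1 - i) / 2` modulo `Lam` up to a unit, a contradiction. -/
theorem LemData.val_sub_eq_one (hπ : Prime π) (hodd : gOdd π) (h : V.valuation (π : ℂ) < 1)
    {β : GaussianInt} (hβ : ¬ π ∣ β) {w u : ℂ} (hw : w ∉ Lam) (hu : u ∉ Lam)
    (hwu : w + u ∉ Lam) (hwu' : w - u ∉ Lam) (hβw : (β : ℂ) * w ∈ Lam) (hβu : (β : ℂ) * u ∈ Lam) :
    V.valuation (D.X w - D.X u) = 1 := by
  have vx := D.val_le_one V hπ hodd h hβ hw hβw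
  have vx' := D.val_le_one V hπ hodd h hβ hu hβu
  refine le_antisymm ((Valuation.map_sub _ _ _).trans (max_le vx vx')) ?_
  by_contra hcon
  have hlt := not_le.mp hcon
  have t1 : (β : ℂ) * (w + u) ∈ Lam := by rw [mul_add]; exact Lam_add hβw hβu
  have t2 : (β : ℂ) * (w - u) ∈ Lam := by rw [mul_sub]; exact Lam_sub hβw hβu
  have vp := D.val_le_one V hπ hodd h hβ hwu t1
  have vm := D.val_le_one V hπ hodd h hβ hwu' t2
  have h2v := val_two V hπ hodd h
  have hIv : V.valuation I = 1 := val_I V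
  have h1 := congrArg V.valuation (D.X_mul w u hw hu hwu hwu')
  rw [map_mul, map_mul, map_pow, map_pow] at h1
  have h2 : V.valuation (1 + D.X w * D.X u) ^ 2 < 1 := by
    rw [← h1]
    refine (mul_le_of_le_one_left' (mul_le_one' vp vm)).trans_lt ?_
    exact pow_lt_one₀ zero_le hlt two_ne_zero
  have h3 : V.valuation (1 + D.X w * D.X u) < 1 := by
    by_contra h4
    exact absurd h2 (not_lt.mpr (one_le_pow₀ (not_lt.mp h4)))
  have key : ∀ {w u : ℂ}, w ∉ Lam → V.valuation (D.X w) ≤ 1 → V.valuation (D.X w - D.X u) < 1 →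
      V.valuation (1 + D.X w * D.X u) < 1 → V.valuation (1 + D.X w ^ 2) < 1 ∧
      V.valuation (D.X w) = 1 ∧ (1 + I) * w ∉ Lam := by
    intro w u hw vx hlt h3
    have k1 : V.valuation (1 + D.X w ^ 2) < 1 := by
      have e : 1 + D.X w ^ 2 = (1 + D.X w * D.X u) + D.X w * (D.X w - D.X u) := by ring
      rw [e]
      refine (Valuation.map_add _ _ _).trans_lt (max_lt h3 ?_)
      rw [map_mul]
      exact (mul_le_of_le_one_left' vx).trans_lt hlt
    have k2 : V.valuation (D.X w ^ 2) = 1 := by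
      have e : D.X w ^ 2 = (1 + D.X w ^ 2) + (-1) := by ring
      have e1 : V.valuation (-1 : ℂ) = 1 := by rw [Valuation.map_neg, map_one]
      rw [e, ← e1]
      apply Valuation.map_add_eq_of_lt_right
      rw [e1]
      exact k1
    have k3 : V.valuation (D.X w) = 1 := by
      rw [map_pow] at k2
      refine le_antisymm vx ?_
      by_contra h4
      exact absurd k2 (pow_lt_one₀ zero_le (not_le.mp h4) two_ne_zero).ne
    refine ⟨k1, k3, ?_⟩
    intro hmem
    have h5 := sub_w0_mem hw hmem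
    obtain ⟨a, ha⟩ := (mem_Lam_iff _).mp h5
    have e : w = (1 + I) / 2 + (a : ℂ) := by rw [ha]; ring
    rw [e, D.X_add, D.X_w0, map_zero] at k3
    exact zero_ne_one k3
  obtain ⟨k1, k2, k3⟩ := key (u := u) hw vx hlt h3
  obtain ⟨l1, l2, l3⟩ := key (u := w) hu vx' (by rw [Valuation.map_sub_swap]; exact hlt)
    (by rw [mul_comm]; exact h3)
  have o1 := D.X_oneI w hw k3
  have o2 := D.X_oneI u hu l3
  have tw' : (β : ℂ) * ((1 + I) * w) ∈ Lam := by
    have := Lam_add hβw (D6_mem_I hβw)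
    have e : (β : ℂ) * w + I * ((β : ℂ) * w) = (β : ℂ) * ((1 + I) * w) := by ring
    rwa [e] at this
  have tu' : (β : ℂ) * ((1 + I) * u) ∈ Lam := by
    have := Lam_add hβu (D6_mem_I hβu)
    have e : (β : ℂ) * u + I * ((β : ℂ) * u) = (β : ℂ) * ((1 + I) * u) := by ring
    rwa [e] at this
  have vy := D.val_le_one V hπ hodd h hβ k3 tw'
  have vy' := D.val_le_one V hπ hodd h hβ l3 tu'
  have sq : V.valuation ((D.X ((1 + I) * w) - 1) * (D.X ((1 + I) * w) + 1)) < 1 := by
    have e : (D.X ((1 + I) * w) - 1) * (D.X ((1 + I) * w) + 1) * (-(2 * 2 * D.X w ^ 2)) =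
        (1 + D.X w ^ 2) ^ 2 := by
      linear_combination (D.X ((1 + I) * w) * (2 * I * D.X w) + (D.X w ^ 2 - 1)) * o1 +
        (-(4 * D.X w ^ 2 * D.X ((1 + I) * w) ^ 2)) * Complex.I_sq
    have v4 : V.valuation (-(2 * 2 * D.X w ^ 2)) = 1 := by
      rw [Valuation.map_neg, map_mul, map_mul, map_pow, h2v, k2, one_pow, mul_one, mul_one]
    have h4 := congrArg V.valuation e
    rw [map_mul, v4, mul_one, map_pow] at h4
    rw [h4]
    exact pow_lt_one₀ zero_le k1 two_ne_zero
  have dif : V.valuation (D.X ((1 + I) * w) - D.X ((1 + I) * u)) < 1 := by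
    have e : (D.X ((1 + I) * w) - D.X ((1 + I) * u)) * (2 * I * D.X w) =
        (D.X w - D.X u) * (D.X w + D.X u - D.X ((1 + I) * u) * (2 * I)) := by
      linear_combination o1 - o2
    have h4 := congrArg V.valuation e
    rw [map_mul, map_mul, map_mul, h2v, hIv, k2, one_mul, one_mul, mul_one, map_mul] at h4
    rw [h4]
    refine lt_of_le_of_lt (mul_le_of_le_one_right' ?_) hlt
    refine (Valuation.map_sub _ _ _).trans (max_le ((Valuation.map_add _ _ _).trans (max_le vx vx')) ?_)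
    rw [map_mul, map_mul, h2v, hIv, mul_one, mul_one]
    exact vy'
  rw [map_mul] at sq
  have hor : V.valuation (D.X ((1 + I) * w) - 1) < 1 ∨ V.valuation (D.X ((1 + I) * w) + 1) < 1 := by
    by_contra hc
    push Not at hc
    exact absurd sq (not_lt.mpr (one_le_mul hc.1 hc.2))
  rcases hor with h4 | h4
  · have h5 := D6_half D V hπ hodd h hβ k3 tw' h4
    have h6 := D6_half D V hπ hodd h hβ l3 tu' (by
      have e : D.X ((1 + I) * u) - 1 = (D.X ((1 + I) * w) - 1) - (D.X ((1 + I) * w) - D.X ((1 + I) * u)) := by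
        ring
      rw [e]
      exact (Valuation.map_sub _ _ _).trans_lt (max_lt h4 dif))
    exact D6_final hwu hwu' h5 h6
  · have eI : ∀ z : ℂ, I * ((1 + I) * z) = (1 + I) * (I * z) := fun z => by ring
    have h5 := D6_half D V hπ hodd h hβ (w := I * ((1 + I) * w)) (fun hc => k3 (D6_I_mem hc))
      (by
        have := D6_mem_I tw'
        have e : I * ((β : ℂ) * ((1 + I) * w)) = (β : ℂ) * (I * ((1 + I) * w)) := by ring
        rwa [e] at this)
      (by
        rw [D.X_I]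
        have e : -D.X ((1 + I) * w) - 1 = -(D.X ((1 + I) * w) + 1) := by ring
        rw [e, Valuation.map_neg]
        exact h4)
    have h6 := D6_half D V hπ hodd h hβ (w := I * ((1 + I) * u)) (fun hc => l3 (D6_I_mem hc))
      (by
        have := D6_mem_I tu'
        have e : I * ((β : ℂ) * ((1 + I) * u)) = (β : ℂ) * (I * ((1 + I) * u)) := by ring
        rwa [e] at this)
      (by
        rw [D.X_I]
        have e : -D.X ((1 + I) * u) - 1 = (D.X ((1 + I) * w) - D.X ((1 + I) * u)) - (D.X ((1 + I) * w) + 1) := by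
          ring
        rw [e]
        exact (Valuation.map_sub _ _ _).trans_lt (max_lt dif h4))
    rw [eI] at h5 h6
    refine D6_final (w := I * w) (u := I * u) ?_ ?_ h5 h6
    · rw [← mul_add]
      exact fun hc => hwu (D6_I_mem hc)
    · rw [← mul_sub]
      exact fun hc => hwu' (D6_I_mem hc)

end Pool.Agent.STg
end

section

/-!
# The fourth root of `d` in the torsion fields, and the action of the Frobenius elements
-/

open NumberField IsDedekindDomain Pool.Agent.ST Complex Pool.Agent.STg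

namespace Pool.Agent.STh

/-- `exp (2 π i / n)` -/
noncomputable def zn (n : ℕ) : ℂ := Complex.exp (2 * Real.pi * I / n)

lemma zn_prim {n : ℕ} (hn : n ≠ 0) : IsPrimitiveRoot (zn n) n := Complex.isPrimitiveRoot_exp n hn

variable {D : LemData}

/-- **The fourth root of `d`** is contained in every field containing the values of `X` at the
`n`-torsion points and the `n`-th roots of unity, `64 d ∣ n`. -/
theorem fourth_mem {d n : ℕ} (hd : d ≠ 0) (hn : 64 * d ∣ n) (hn0 : n ≠ 0) {F : IntermediateField QI ℂ}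
    (hX : ∀ w : ℂ, w ∉ Lam → (n : ℂ) * w ∈ Lam → D.X w ∈ F) (hz : zn n ∈ F) {r : ℂ}
    (hr : r ^ 4 = d) : r ∈ F := by
  obtain ⟨b, m, hm, hdm⟩ := Nat.exists_eq_two_pow_mul_odd hd
  have hX' : ∀ k : ℕ, k ∣ n → ∀ w : ℂ, w ∉ Lam → (k : ℂ) * w ∈ Lam → D.X w ∈ F := by
    rintro k ⟨l, hl⟩ w hw hkw
    refine hX w hw ?_
    have h1 := Lam_nat l hkw
    rw [hl]
    have e : ((k * l : ℕ) : ℂ) * w = (l : ℂ) * ((k : ℂ) * w) := by
      push_cast
      ring
    rw [e]
    exact h1
  obtain ⟨s, hs, δ, hδ, hs4⟩ := exists_fourth D hm (F := F) (hX' (4 * m) (by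
    refine Dvd.dvd.trans ?_ hn
    rw [hdm]
    exact ⟨16 * 2 ^ b, by ring⟩))
  obtain ⟨t, ht, ht2⟩ := exists_sqrt_oneI D (F := F) (hX' 8 (by
    refine Dvd.dvd.trans ?_ hn
    exact ⟨8 * d, by ring⟩))
  have hI4 : I ^ 4 = 1 := I_pow_four
  have ht4 : t ^ 4 = 2 * I := by
    calc t ^ 4 = (t ^ 2) ^ 2 := by ring
      _ = (1 + I) ^ 2 := by rw [ht2]
      _ = 2 * I := by linear_combination I_sq
  have hm0 : (m : ℂ) ≠ 0 := by
    rw [Nat.cast_ne_zero]
    rintro rfl
    exact absurd hm (by decide)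
  have hδ0 : δ ≠ 0 := by
    rintro rfl
    norm_num at hδ
  have ht0 : t ≠ 0 := by
    rintro rfl
    have h1 : (2 * I : ℂ) ≠ 0 := mul_ne_zero two_ne_zero I_ne_zero
    apply h1
    rw [← ht4]
    norm_num
  have hs0 : s ≠ 0 := by
    rintro rfl
    have h1 : δ * m ≠ 0 := mul_ne_zero hδ0 hm0
    apply h1
    rw [← hs4]
    norm_num
  have hst0 : s * t ^ b ≠ 0 := mul_ne_zero hs0 (pow_ne_zero b ht0)
  -- the quotient is a `16`-th root of unity
  have hq : (r / (s * t ^ b)) ^ 16 = 1 := by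
    have h1 : (s * t ^ b) ^ 4 = (δ * I ^ b) * r ^ 4 := by
      rw [hr, hdm]
      push_cast
      calc (s * t ^ b) ^ 4 = s ^ 4 * (t ^ 4) ^ b := by ring
        _ = δ * m * (2 * I) ^ b := by rw [hs4, ht4]
        _ = (δ * I ^ b) * (2 ^ b * m) := by ring
    have h2 : (s * t ^ b) ^ 16 = r ^ 16 := by
      calc (s * t ^ b) ^ 16 = ((s * t ^ b) ^ 4) ^ 4 := by ring
        _ = (δ ^ 4) * (I ^ 4) ^ b * r ^ 16 := by
            rw [h1]
            ring
        _ = r ^ 16 := by
            rw [hδ, hI4, one_pow]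
            ring
    rw [div_pow, h2]
    apply div_self
    rw [← h2]
    exact pow_ne_zero _ hst0
  have h16 : 16 ∣ n := Dvd.dvd.trans ⟨4 * d, by ring⟩ hn
  obtain ⟨l, hl⟩ := h16
  have hprim : IsPrimitiveRoot (zn n ^ l) 16 :=
    (zn_prim hn0).pow (Nat.pos_of_ne_zero hn0) (by rw [hl, mul_comm])
  obtain ⟨i, -, hi⟩ := hprim.eq_pow_of_pow_eq_one hq
  have h3 : r = (zn n ^ l) ^ i * (s * t ^ b) := by
    rw [hi, div_mul_cancel₀ _ hst0]
  rw [h3]
  exact mul_mem (pow_mem (pow_mem hz l) i) (mul_mem hs (pow_mem ht b))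

/-- the action of `β` on the values of `X` at the `n`-torsion points and on the roots of unity -/
structure Act (D : LemData) (n : ℕ) {E : IntermediateField QI ℂ} (β : GaussianInt)
    (σ : E ≃ₐ[QI] E) : Prop where
  X : ∀ w : ℂ, w ∉ Lam → (n : ℂ) * w ∈ Lam → ∀ x : E, (x : ℂ) = D.X w →
    ((σ x : E) : ℂ) = D.X (β * w)
  z : ∀ x : E, (x : ℂ) = zn n → ((σ x : E) : ℂ) = zn n ^ gN β

/-- `β w` is not in the lattice for `w` not in the lattice, `n w` in the lattice, `β` prime to `n`. -/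
lemma coprime_notMem {n : ℕ} {β : GaussianInt} (h : IsCoprime β (n : GaussianInt)) {w : ℂ}
    (hw : w ∉ Lam) (hnw : (n : ℂ) * w ∈ Lam) : (β : ℂ) * w ∉ Lam := by
  intro h1
  obtain ⟨a, b, hab⟩ := h
  apply hw
  have h2 : w = (a : ℂ) * ((β : ℂ) * w) + (b : ℂ) * ((n : ℂ) * w) := by
    have h3 : ((a * β + b * (n : GaussianInt) : GaussianInt) : ℂ) = 1 := by
      rw [hab]
      exact map_one GaussianInt.toComplex
    rw [map_add, map_mul, map_mul, map_natCast] at h3
    calc w = 1 * w := (one_mul w).symm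
      _ = ((a : ℂ) * (β : ℂ) + (b : ℂ) * (n : ℂ)) * w := by rw [h3]
      _ = _ := by ring
  rw [h2]
  exact Lam_add (Lam_mul a h1) (Lam_mul b hnw)

lemma mul_torsion {n : ℕ} (β : GaussianInt) {w : ℂ} (hnw : (n : ℂ) * w ∈ Lam) :
    (n : ℂ) * ((β : ℂ) * w) ∈ Lam := by
  have h := Lam_mul β hnw
  have e : (β : ℂ) * ((n : ℂ) * w) = (n : ℂ) * ((β : ℂ) * w) := by ring
  rwa [e] at h

lemma Act.one {n : ℕ} {E : IntermediateField QI ℂ} : Act D n 1 (1 : E ≃ₐ[QI] E) := by
  refine ⟨?_, ?_⟩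
  · intro w _ _ x hx
    rw [map_one, one_mul]
    exact hx
  · intro x hx
    rw [gN_one, pow_one]
    exact hx

lemma Act.mul {n : ℕ} {E : IntermediateField QI ℂ} {a b : GaussianInt}
    (hb : IsCoprime b (n : GaussianInt)) {σ τ : E ≃ₐ[QI] E}
    (hσ : Act D n a σ) (hτ : Act D n b τ) : Act D n (a * b) (σ * τ) := by
  refine ⟨?_, ?_⟩
  · intro w hw hnw x hx
    have hbw := coprime_notMem hb hw hnw
    have h1 := hσ.X ((b : ℂ) * w) hbw (mul_torsion b hnw) (τ x) (hτ.X w hw hnw x hx)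
    rw [AlgEquiv.mul_apply, h1, map_mul, mul_assoc]
  · intro x hx
    have h1 : τ x = x ^ gN b := by
      apply Subtype.ext
      rw [hτ.z x hx]
      change _ = (x : ℂ) ^ gN b
      rw [hx]
    rw [AlgEquiv.mul_apply, h1, map_pow]
    change ((σ x : E) : ℂ) ^ gN b = _
    rw [hσ.z x hx, gN_mul, pow_mul]

/-- roots of unity of order prime to the residue characteristic are distinct modulo the prime -/
lemma root_val {V : ValuationSubring ℂ} {n : ℕ} (hn : n ≠ 0) (hv : V.valuation (n : ℂ) = 1) {η : ℂ}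
    (h1 : η ^ n = 1) (h2 : V.valuation (η - 1) < 1) : η = 1 := by
  have hη : V.valuation η = 1 := by
    have h3 : V.valuation η ^ n = 1 := by
      rw [← map_pow, h1, map_one]
    exact (pow_eq_one_iff_of_nonneg zero_le hn).1 h3
  by_contra hne
  have h4 : (∑ i ∈ Finset.range n, η ^ i) * (η - 1) = 0 := by
    rw [geom_sum_mul, h1, sub_self]
  have h5 : ∑ i ∈ Finset.range n, η ^ i = 0 :=
    (mul_eq_zero.1 h4).resolve_right (sub_ne_zero.2 hne)
  have h6 : V.valuation (∑ i ∈ Finset.range n, (η ^ i - 1)) < 1 := by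
    refine Valuation.map_sum_lt _ one_ne_zero fun i _ => ?_
    have h7 : η ^ i - 1 = (∑ j ∈ Finset.range i, η ^ j) * (η - 1) := (geom_sum_mul η i).symm
    rw [h7]
    refine D5a_lt_mul V ?_ h2
    refine Valuation.map_sum_le _ fun j _ => ?_
    rw [map_pow, hη, one_pow]
  have h8 : (n : ℂ) = -∑ i ∈ Finset.range n, (η ^ i - 1) := by
    rw [Finset.sum_sub_distrib, h5, Finset.sum_const, Finset.card_range, nsmul_eq_mul, mul_one]
    ring
  rw [h8, Valuation.map_neg] at hv
  rw [hv] at h6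
  exact lt_irrefl _ h6

/-- **Frobenius elements.** -/
theorem frob_act {n : ℕ} (hn : n ≠ 0) {E : IntermediateField QI ℂ} [NumberField E]
    {P : PrI E} {V : ValuationSubring ℂ} (hV : OverP P V)
    {σ : E ≃ₐ[QI] E} (hσ : IsFrob QI P σ) {β : GaussianInt} (hβ : Prime β)
    (hP : Prim β) (hβn : ¬ β ∣ (n : GaussianInt)) (hβV : V.valuation (β : ℂ) < 1)
    (hN : pn (und QI P) = gN β) : Act D n β σ := by
  have hodd : gOdd β := hP.odd
  have hco : IsCoprime β (n : GaussianInt) := (Irreducible.coprime_iff_not_dvd hβ.irreducible).2 hβn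
  have hn' : ((n : GaussianInt)) ≠ 0 := Nat.cast_ne_zero.2 hn
  have hnC : (((n : GaussianInt)) : ℂ) = (n : ℂ) := map_natCast GaussianInt.toComplex n
  have hvn : V.valuation (n : ℂ) = 1 := by
    rw [← hnC]
    exact val_gauss_eq V hβ hβV hβn
  refine ⟨?_, ?_⟩
  · intro w hw hnw x hx
    have hβw := coprime_notMem hco hw hnw
    have hle : V.valuation (D.X w) ≤ 1 :=
      D.val_le_one V hβ hodd hβV hβn hw (by rw [hnC]; exact hnw)
    have h1 := D.frob_congr V hβ hP hβV hβw hle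
    have hle' : V.valuation (algebraMap E ℂ x) ≤ 1 := by
      change V.valuation (x : ℂ) ≤ 1
      rw [hx]
      exact hle
    have h2 := hV.frob hσ hle'
    rw [hN] at h2
    obtain ⟨h, hI, hh⟩ := exists_ext σ
    have h3 : ap h (D.X w) = ((σ x : E) : ℂ) := by
      rw [← hx]
      exact hh x
    have h4 := (D.stable hn' (t := D.X w) ⟨w, hw, by rw [hnC]; exact hnw, rfl⟩).2 h hI
    rw [h3] at h4
    obtain ⟨u, hu, hfu, hXu⟩ := h4
    by_contra hne
    have hfβ : (((n : GaussianInt)) : ℂ) * ((β : ℂ) * w) ∈ Lam := by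
      rw [hnC]
      exact mul_torsion β hnw
    have hne' : D.X u ≠ D.X (β * w) := by
      rw [hXu]
      exact hne
    have h7 : u + β * w ∉ Lam := by
      intro h8
      apply hne'
      obtain ⟨a, ha⟩ := h8
      have ha' : (a : ℂ) = u + β * w := ha
      have e : (β : ℂ) * w = -u + (a : ℂ) := by
        rw [ha']
        ring
      rw [e, D.X_add, D.X_neg]
    have h8 : u - β * w ∉ Lam := by
      intro h8
      apply hne'
      obtain ⟨a, ha⟩ := h8
      have ha' : (a : ℂ) = u - β * w := ha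
      have e : u = (β : ℂ) * w + (a : ℂ) := by
        rw [ha']
        ring
      rw [e, D.X_add]
    have h5 := D.val_sub_eq_one V hβ hodd hβV hβn hu hβw h7 h8 hfu hfβ
    have h6 : V.valuation (D.X u - D.X (β * w)) < 1 := by
      have e : D.X u - D.X (β * w) =
          (algebraMap E ℂ (σ x) - algebraMap E ℂ x ^ gN β) -
            (D.X (β * w) - D.X w ^ gN β) := by
        have e1 : algebraMap E ℂ (σ x) = D.X u := hXu.symm
        have e2 : algebraMap E ℂ x = D.X w := hx
        rw [e1, e2]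
        ring
      rw [e]
      exact lt_of_le_of_lt (Valuation.map_sub _ _ _) (max_lt h2 h1)
    rw [h5] at h6
    exact lt_irrefl _ h6
  · intro x hx
    have hz1 : zn n ^ n = 1 := (zn_prim hn).pow_eq_one
    have hz0 : zn n ≠ 0 := (zn_prim hn).ne_zero hn
    have hvz : V.valuation (zn n) = 1 := by
      have h1 : V.valuation (zn n) ^ n = 1 := by
        rw [← map_pow, hz1, map_one]
      exact (pow_eq_one_iff_of_nonneg zero_le hn).1 h1
    have hxx : x ^ n = 1 := by
      apply Subtype.ext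
      change (x : ℂ) ^ n = 1
      rw [hx]
      exact hz1
    have hσx : ((σ x : E) : ℂ) ^ n = 1 := by
      have h1 : (σ x) ^ n = 1 := by
        rw [← map_pow, hxx, map_one]
      exact congrArg (fun y : E => (y : ℂ)) h1
    have hle' : V.valuation (algebraMap E ℂ x) ≤ 1 := by
      change V.valuation (x : ℂ) ≤ 1
      rw [hx, hvz]
    have h2 := hV.frob hσ hle'
    rw [hN] at h2
    have e1 : algebraMap E ℂ (σ x) = ((σ x : E) : ℂ) := rfl
    have e2 : algebraMap E ℂ x = zn n := hx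
    rw [e1, e2] at h2
    have hq0 : zn n ^ gN β ≠ 0 := pow_ne_zero _ hz0
    have h3 : ((σ x : E) : ℂ) / zn n ^ gN β = 1 := by
      apply root_val hn hvn
      · rw [div_pow, hσx, ← pow_mul, mul_comm (gN β), pow_mul, hz1, one_pow, div_one]
      · have e : ((σ x : E) : ℂ) / zn n ^ gN β - 1 =
            (((σ x : E) : ℂ) - zn n ^ gN β) / zn n ^ gN β := by
          rw [sub_div, div_self hq0]
        rw [e, map_div₀, map_pow, hvz, one_pow, div_one]
        exact h2
    exact (div_eq_one_iff_eq hq0).1 h3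

end Pool.Agent.STh
end
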