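import Pool.Agent.Lib.MP_1ef7cf_nt_g.Mg.G023

section

set_option autoImplicit false

open NumberField IsDedekindDomain nonZeroDivisors IntermediateField

namespace Pool.Agent.STg.F

open Pool.Agent.ST

variable {K : Type*} [Field K] [NumberField K] [Algebra K ℝ] {σ₂ : K →+* ℝ} {e : (𝓞 K)ˣ}

/-- TASK F01 (trace and norm of a real quadratic field).
PROOF. `norm_real`: `ST.norm_eq` (file MP_1ef7cf_nt/RQ.lean: `((Algebra.norm ℚ x : ℚ) : ℝ) = sg1 K x * σ₂ x`) and
`Algebra.coe_norm_int` (see the proof of `ST.absNorm_eq` in RQ.lean). `trace_real`: copy the proof of `ST.norm_eq` with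
`Algebra.trace_eq_sum_embeddings` in place of `Algebra.norm_eq_prod_embeddings`, and `Algebra.coe_trace_int`.
`absNorm_nat`: `Ideal.absNorm_span_singleton`.
`cayley`: apply `algebraMap K ℝ` (injective): with `a = algebraMap K ℝ x`, `a' = σ₂ x` it says `a ^ 2 = (a + a') a - a a'`.
`norm_one_add`, `norm_lin`, `trace_lin`, `tre_spec`: cast both sides to `ℝ` (`Int.cast_injective`) and use `norm_real`, `trace_real`, `D.nrm`
(`e e' = -1` where `e' = σ₂ e`, `D.pos` gives `algebraMap K ℝ e ≠ 0`), `ring`/`field_simp`/`linear_combination`. `norm_e`: the same.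
`norm_mul_`: `map_mul`. `e_sq`: `cayley` for `x = e` and `norm_e`. -/
theorem norm_real (D : FD σ₂ e) (x : 𝓞 K) :
    ((Algebra.norm ℤ x : ℤ) : ℝ) = algebraMap K ℝ (x : K) * σ₂ (x : K) := by
  have h := norm_eq D.deg D.ne (x : K)
  rw [← Algebra.coe_norm_int (K := K) x] at h
  push_cast at h
  exact h

theorem trace_real (D : FD σ₂ e) (x : 𝓞 K) :
    ((Algebra.trace ℤ (𝓞 K) x : ℤ) : ℝ) = algebraMap K ℝ (x : K) + σ₂ (x : K) := by
  classical
  have h1 := trace_eq_sum_embeddings (K := ℚ) (L := K) ℂ (x := (x : K))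
  have hne : cemb (sg1 K) ≠ cemb σ₂ := by
    intro h
    apply D.ne
    ext y
    have := DFunLike.congr_fun h y
    have h3 : ((sg1 K y : ℝ) : ℂ) = (σ₂ y : ℂ) := this
    exact_mod_cast h3.symm
  have huniv : (Finset.univ : Finset (K →ₐ[ℚ] ℂ)) = {cemb (sg1 K), cemb σ₂} := by
    symm
    apply Finset.eq_of_subset_of_card_le (Finset.subset_univ _)
    rw [Finset.card_univ, AlgHom.card, D.deg, Finset.card_pair hne]
  rw [huniv, Finset.sum_pair hne] at h1
  have h3 : ((Algebra.trace ℚ K (x : K) : ℚ) : ℂ) = ((sg1 K x + σ₂ x : ℝ) : ℂ) := by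
    rw [Complex.ofReal_add]
    exact h1
  have h4 : ((Algebra.trace ℚ K (x : K) : ℚ) : ℝ) = sg1 K x + σ₂ x := by exact_mod_cast h3
  rw [← Algebra.coe_trace_int (K := K) x] at h4
  push_cast at h4
  exact h4

omit [Algebra K ℝ] in
theorem absNorm_nat (x : 𝓞 K) : Ideal.absNorm (Ideal.span {x}) = (Algebra.norm ℤ x).natAbs := by
  rw [Ideal.absNorm_span_singleton]

theorem cayley (D : FD σ₂ e) (x : 𝓞 K) :
    x ^ 2 = ((Algebra.trace ℤ (𝓞 K) x : ℤ) : 𝓞 K) * x - ((Algebra.norm ℤ x : ℤ) : 𝓞 K) := by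
  have hinj : Function.Injective (fun y : 𝓞 K => algebraMap K ℝ (y : K)) := by
    intro a b hab
    exact NumberField.RingOfIntegers.coe_injective ((algebraMap K ℝ).injective hab)
  apply hinj
  have ht := trace_real D x
  have hn := norm_real D x
  simp only [map_pow, map_sub, map_mul, map_intCast]
  rw [ht, hn]
  ring

theorem norm_one_add (D : FD σ₂ e) (m : ℤ) (x : 𝓞 K) :
    Algebra.norm ℤ (1 + (m : 𝓞 K) * x) =
      1 + m * Algebra.trace ℤ (𝓞 K) x + m ^ 2 * Algebra.norm ℤ x := by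
  have ht := trace_real D x
  have hn := norm_real D x
  have hn' := norm_real D (1 + (m : 𝓞 K) * x)
  apply Int.cast_injective (α := ℝ)
  push_cast
  rw [ht, hn, hn']
  simp only [map_add, map_mul, map_one, map_intCast]
  ring

theorem norm_e (D : FD σ₂ e) : Algebra.norm ℤ (e : 𝓞 K) = -1 := by
  have hn := norm_real D (e : 𝓞 K)
  rw [D.nrm] at hn
  apply Int.cast_injective (α := ℝ)
  rw [hn, mul_neg, mul_inv_cancel₀ D.pos.ne']
  simp

theorem e_sq (D : FD σ₂ e) : (e : 𝓞 K) ^ 2 = (tre e : 𝓞 K) * (e : 𝓞 K) + 1 := by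
  have h := cayley D (e : 𝓞 K)
  rw [norm_e D] at h
  rw [h, tre]
  push_cast
  ring

theorem norm_lin (D : FD σ₂ e) (a c : ℤ) :
    Algebra.norm ℤ ((a : 𝓞 K) + (c : 𝓞 K) * (e : 𝓞 K)) = a ^ 2 + a * c * tre e - c ^ 2 := by
  have ht := trace_real D (e : 𝓞 K)
  have hn := norm_real D (e : 𝓞 K)
  have hn' := norm_real D ((a : 𝓞 K) + (c : 𝓞 K) * (e : 𝓞 K))
  rw [norm_e D] at hn
  apply Int.cast_injective (α := ℝ)
  push_cast at hn ⊢
  rw [tre, ht, hn']
  simp only [map_add, map_mul, map_intCast]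
  linear_combination (-(c : ℝ) ^ 2) * hn

theorem trace_lin (D : FD σ₂ e) (a c : ℤ) :
    Algebra.trace ℤ (𝓞 K) ((a : 𝓞 K) + (c : 𝓞 K) * (e : 𝓞 K)) = 2 * a + c * tre e := by
  have ht := trace_real D (e : 𝓞 K)
  have ht' := trace_real D ((a : 𝓞 K) + (c : 𝓞 K) * (e : 𝓞 K))
  apply Int.cast_injective (α := ℝ)
  push_cast
  rw [tre, ht, ht']
  simp only [map_add, map_mul, map_intCast]
  ring

end Pool.Agent.STg.F
end

section

/-!
# Units of norm `-1` and odd trace
-/

open NumberField IsDedekindDomain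

namespace Pool.Agent.STg

open Pool.Agent.STg.F

variable {K : Type*} [Field K] [NumberField K] [Algebra K ℝ] {σ₂ : K →+* ℝ} {e : (𝓞 K)ˣ}

/-- Let `T = tre e` be odd. `𝓞 K / 2` has `4` elements (the norm of `(2)` is `4`), and the class `u` of `e`
satisfies `u ^ 2 = u + 1` (`e_sq`). So `0, 1, u, u + 1 = u ^ 2` are different (`u = 0` or `u = 1` would
give `1 = 0`), they are all elements, and the non-zero ones are powers of `u`. In particular the
quotient is a field. -/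
theorem odd_case (D : FD σ₂ e) (h : Odd (tre e)) : (Ideal.span {(2 : 𝓞 K)}).IsPrime ∧
    ∀ x : 𝓞 K, x ∉ Ideal.span {(2 : 𝓞 K)} →
      ∃ i : ℕ, x - (e : 𝓞 K) ^ i ∈ Ideal.span {(2 : 𝓞 K)} := by
  classical
  obtain ⟨s, hs⟩ := h
  set I : Ideal (𝓞 K) := Ideal.span {(2 : 𝓞 K)} with hI
  have hcard : Nat.card (𝓞 K ⧸ I) = 4 := by
    have h1 : Ideal.absNorm I = 4 := by
      have h2 := absNorm_nat (K := K) (2 : 𝓞 K)
      have h3 := norm_lin D 2 0
      have h4 : (((2 : ℤ) : 𝓞 K) + ((0 : ℤ) : 𝓞 K) * (e : 𝓞 K)) = 2 := by push_cast; ring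
      rw [h4] at h3
      rw [hI, h2, h3]
      norm_num
    rw [← h1, Ideal.absNorm_apply, Submodule.cardQuot_apply]
  have hfin : Finite (𝓞 K ⧸ I) := Nat.finite_of_card_ne_zero (by rw [hcard]; norm_num)
  let _ : Fintype (𝓞 K ⧸ I) := Fintype.ofFinite _
  have hcard' : Fintype.card (𝓞 K ⧸ I) = 4 := by rw [← Nat.card_eq_fintype_card, hcard]
  have hnt : Nontrivial (𝓞 K ⧸ I) := Fintype.one_lt_card_iff_nontrivial.1 (by rw [hcard']; norm_num)
  have h2 : (2 : 𝓞 K ⧸ I) = 0 := by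
    have : Ideal.Quotient.mk I (2 : 𝓞 K) = 0 :=
      Ideal.Quotient.eq_zero_iff_mem.2 (Ideal.mem_span_singleton_self _)
    rw [← this]
    rfl
  set u : 𝓞 K ⧸ I := Ideal.Quotient.mk I (e : 𝓞 K) with hu
  have hunit : IsUnit u := e.isUnit.map (Ideal.Quotient.mk I)
  have hu0 : u ≠ 0 := hunit.ne_zero
  have hsq : u ^ 2 = u + 1 := by
    have h3 := congrArg (Ideal.Quotient.mk I) (e_sq D)
    rw [map_pow, map_add, map_mul, map_one, map_intCast, hs] at h3
    rw [hu, h3]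
    push_cast
    linear_combination ((s : 𝓞 K ⧸ I) * Ideal.Quotient.mk I (e : 𝓞 K)) * h2
  have hu1 : u ≠ 1 := by
    intro h3
    rw [h3, one_pow] at hsq
    have h4 : (1 : 𝓞 K ⧸ I) = 0 := by linear_combination -hsq
    exact one_ne_zero h4
  have hu2 : u + 1 ≠ 0 := by
    intro h3
    apply hu1
    linear_combination h3 - h2
  have hu3 : u + 1 ≠ 1 := fun h3 => hu0 (by linear_combination h3)
  have hu4 : u + 1 ≠ u := fun h3 => one_ne_zero (α := 𝓞 K ⧸ I) (by linear_combination h3)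
  have huniv : ({0, 1, u, u + 1} : Finset (𝓞 K ⧸ I)) = Finset.univ := by
    apply Finset.eq_univ_of_card
    rw [hcard', Finset.card_insert_of_notMem, Finset.card_insert_of_notMem,
      Finset.card_insert_of_notMem, Finset.card_singleton]
    · simp
    · simp only [Finset.mem_insert, Finset.mem_singleton, not_or]
      exact ⟨hu1.symm, hu3.symm⟩
    · simp only [Finset.mem_insert, Finset.mem_singleton, not_or]
      exact ⟨zero_ne_one, hu0.symm, hu2.symm⟩
  have hpow : ∀ x : 𝓞 K, x ∉ I → ∃ i : ℕ, x - (e : 𝓞 K) ^ i ∈ I := by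
    intro x hx
    have h3 : Ideal.Quotient.mk I x ∈ ({0, 1, u, u + 1} : Finset (𝓞 K ⧸ I)) := by
      rw [huniv]; exact Finset.mem_univ _
    simp only [Finset.mem_insert, Finset.mem_singleton] at h3
    rcases h3 with h3 | h3 | h3 | h3
    · exact absurd (Ideal.Quotient.eq_zero_iff_mem.1 h3) hx
    · refine ⟨0, ?_⟩
      rw [← Ideal.Quotient.eq, pow_zero, map_one]
      exact h3
    · refine ⟨1, ?_⟩
      rw [← Ideal.Quotient.eq, pow_one]
      exact h3
    · refine ⟨2, ?_⟩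
      rw [← Ideal.Quotient.eq, map_pow, ← hu, hsq]
      exact h3
  refine ⟨?_, hpow⟩
  refine Ideal.isPrime_iff.2 ⟨?_, fun {x y} hxy => ?_⟩
  · exact Ideal.Quotient.nontrivial_iff.1 hnt
  · by_contra hcon
    rw [not_or] at hcon
    obtain ⟨i, hi⟩ := hpow x hcon.1
    obtain ⟨j, hj⟩ := hpow y hcon.2
    rw [← Ideal.Quotient.eq, map_pow, ← hu] at hi hj
    have h3 : Ideal.Quotient.mk I (x * y) = 0 := Ideal.Quotient.eq_zero_iff_mem.2 hxy
    rw [map_mul, hi, hj, ← pow_add] at h3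
    exact (hunit.pow (i + j)).ne_zero h3

lemma sq_case (D : FD σ₂ e) (h : tre e = 2) : ((e : 𝓞 K) - 1) ^ 2 = 2 := by
  have h1 := e_sq D
  rw [h] at h1
  push_cast at h1
  linear_combination h1

end Pool.Agent.STg
end
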