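import Pool.Agent.Lib.MP_1ef7cf_nt_g.Mg.G050
import Pool.Agent.Lib.MP_1ef7cf_nt_g.Mg.G023

section

/-!
# The rings of integers of `ℚ(√5)`, `ℚ(√2)`, `ℚ(√13)` are principal
-/

open NumberField IsDedekindDomain

namespace Pool.Agent.STg

open Pool.Agent.STg.F

variable {K : Type*} [Field K] [NumberField K] [Algebra K ℝ] {σ₂ : K →+* ℝ} {e : (𝓞 K)ˣ}

private lemma C2_discr (D : FD σ₂ e) : Algebra.discr ℤ ![(1 : 𝓞 K), (e : 𝓞 K)] = tre e ^ 2 + 4 := by
  have h1 : Algebra.trace ℤ (𝓞 K) (1 : 𝓞 K) = 2 := by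
    have h := trace_lin D 1 0
    push_cast at h
    simpa using h
  have he : Algebra.trace ℤ (𝓞 K) (e : 𝓞 K) = tre e := rfl
  have h2 : Algebra.trace ℤ (𝓞 K) ((e : 𝓞 K) * (e : 𝓞 K)) = tre e ^ 2 + 2 := by
    have h := trace_lin D 1 (tre e)
    have h3 : (e : 𝓞 K) * (e : 𝓞 K) = ((1 : ℤ) : 𝓞 K) + (tre e : 𝓞 K) * (e : 𝓞 K) := by
      rw [← pow_two, e_sq D]
      push_cast
      ring
    rw [h3, h]
    ring
  rw [Algebra.discr_def, Matrix.det_fin_two]
  simp only [Algebra.traceMatrix_apply, Algebra.traceForm_apply, Matrix.cons_val_zero,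
    Matrix.cons_val_one, one_mul, mul_one]
  rw [h1, he, h2]
  ring

/-- The discriminant of `K` divides the discriminant of the pair `1, e`. -/
theorem abs_discr_le (D : FD σ₂ e) : |NumberField.discr K| ≤ tre e ^ 2 + 4 := by
  have hr : Module.finrank ℤ (𝓞 K) = 2 := by rw [RingOfIntegers.rank, D.deg]
  let b : Module.Basis (Fin 2) ℤ (𝓞 K) := Module.finBasisOfFinrankEq ℤ (𝓞 K) hr
  have h1 := Algebra.discr_of_matrix_vecMul (A := ℤ) b (b.toMatrix ![(1 : 𝓞 K), (e : 𝓞 K)])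
  rw [Module.Basis.toMatrix_map_vecMul, C2_discr D, NumberField.discr_eq_discr] at h1
  have hpos : 0 < tre e ^ 2 + 4 := by positivity
  have hdvd : NumberField.discr K ∣ tre e ^ 2 + 4 := by
    rw [h1]
    exact Dvd.intro_left _ rfl
  exact Int.le_of_dvd hpos ((abs_dvd _ _).2 hdvd)

private lemma C2_places (hdeg : Module.finrank ℚ K = 2) : InfinitePlace.nrComplexPlaces K = 0 := by
  have h1 := InfinitePlace.card_add_two_mul_card_eq_rank K
  rw [hdeg] at h1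
  have h2 : 0 < InfinitePlace.nrRealPlaces K := by
    classical
    refine Fintype.card_pos_iff.2 ⟨⟨InfinitePlace.mk (Complex.ofRealHom.comp (algebraMap K ℝ)), ?_⟩⟩
    rw [InfinitePlace.isReal_mk_iff, ComplexEmbedding.isReal_iff]
    ext x
    simp [ComplexEmbedding.conjugate]
  omega

/-- Minkowski's bound. -/
theorem pid_small (D : FD σ₂ e) (h : |tre e| ≤ 3) : IsPrincipalIdealRing (𝓞 K) := by
  apply RingOfIntegers.isPrincipalIdealRing_of_abs_discr_lt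
  rw [C2_places D.deg, D.deg]
  have h1 := abs_discr_le D
  have h2 : tre e ^ 2 ≤ 9 := by
    have := sq_le_sq' (abs_le.1 h).1 (abs_le.1 h).2
    linarith
  have h3 : |NumberField.discr K| ≤ 13 := by linarith
  have h4 : ((|NumberField.discr K| : ℤ) : ℝ) ≤ 13 := by exact_mod_cast h3
  refine lt_of_le_of_lt h4 ?_
  norm_num [Nat.factorial]

end Pool.Agent.STg
end

section

set_option autoImplicit false

open NumberField IsDedekindDomain nonZeroDivisors IntermediateField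

namespace Pool.Agent.STg.F

open Pool.Agent.ST

variable {K : Type*} [Field K] [NumberField K] [Algebra K ℝ] {σ₂ : K →+* ℝ} {e : (𝓞 K)ˣ}

/-- TASK F09 (`l ∣ e₀ ^ 2 + 1` if `e` is an integer modulo `l`; inert primes).
PROOF of `dvd_sq_add_one`: `e - e₀ = l x` (`Ideal.mem_span_singleton`). Traces: `tre e - 2 e₀ = l * trace x` (`trace_lin` or `map_sub`, `map_mul`/`Algebra.smul_def`;
`Algebra.trace_algebraMap` for the integer `e₀`: rank `2`; the easiest is `trace_real` for `e - e₀` and for `x`, cast to `ℝ`). Norms (`norm_real`):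
`norm (e - e₀) = norm (l x) = l ^ 2 norm x`, and `norm (e - e₀) = norm_lin` for `a = -e₀`, `c = 1`: `e₀ ^ 2 - e₀ T - 1`. So `l ∣ e₀ ^ 2 - e₀ T - 1` and
`l ∣ T - 2 e₀`, hence `l ∣ (e₀ ^ 2 - e₀ T - 1) + e₀ (T - 2 e₀) = -(e₀ ^ 2 + 1)`.
PROOF of `chi_inert`: `k = 𝓞 K ⧸ v` is a field with `l ^ 2` elements and characteristic `l`; `u` = class of `e` satisfies `u ^ 2 = T u + 1` (`e_sq`), and
`u ^ l` satisfies the same equation (Frobenius `x ↦ x ^ l` is a ring homomorphism fixing the integer `T`: `frobenius`, `add_pow_char`, or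
`map_intCast (frobenius k l)`). So `(u ^ l - u) (u ^ l + u - T) = 0`.
(a) `u ^ l = u`: then `u` is a root of `X ^ l - X`, so `u` is in the prime field (`ZMod l → k` has `l` elements which are all the roots;
`Polynomial.card_roots'` or `FiniteField...`; Mathlib: `(ZMod.castHom ..).fieldRange`), `u = e₀` with `e₀ ∈ ℤ`, i.e. `e - e₀ ∈ v = span {l}`, so
`l ∣ e₀ ^ 2 + 1` (`dvd_sq_add_one`), `l ≡ 1` modulo `4` (`ZMod.mod_four_ne_three_of_sq_eq_neg_one`, `l` odd), `χ₄ l = 1`; and `u ^ ((l ^ 2 - 1) / 2) = (u ^ (l - 1)) ^ ((l + 1) / 2) = 1`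
(`u ≠ 0`, `u ^ (l - 1) = 1`). `chiP_eq_of` (F02).
(b) `u ^ l = T - u`: `u ^ (l + 1) = u (T - u) = T u - u ^ 2 = -1`, `u ^ ((l ^ 2 - 1) / 2) = (u ^ (l + 1)) ^ ((l - 1) / 2) = (-1) ^ ((l - 1) / 2)
= χ₄ l` (`ZMod.χ₄_eq_neg_one_pow`). `chiP_eq_of`. -/
theorem dvd_sq_add_one (D : FD σ₂ e) {l : ℕ} (e₀ : ℤ)
    (h : (e : 𝓞 K) - (e₀ : 𝓞 K) ∈ Ideal.span {(l : 𝓞 K)}) : (l : ℤ) ∣ e₀ ^ 2 + 1 := by
  rw [Ideal.mem_span_singleton] at h
  obtain ⟨x, hx⟩ := h
  have hx' : (((-e₀ : ℤ) : 𝓞 K) + ((1 : ℤ) : 𝓞 K) * (e : 𝓞 K)) = (l : 𝓞 K) * x := by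
    rw [← hx]; push_cast; ring
  have htr := trace_lin D (-e₀) 1
  have hno := norm_lin D (-e₀) 1
  rw [hx'] at htr hno
  have hl : (l : 𝓞 K) * x = (l : ℤ) • x := by
    rw [zsmul_eq_mul]; push_cast; rfl
  rw [hl, map_zsmul] at htr
  rw [map_mul] at hno
  have hnl : Algebra.norm ℤ (l : 𝓞 K) = (l : ℤ) ^ 2 := by
    have := norm_lin D (l : ℤ) 0
    push_cast at this
    rw [zero_mul, add_zero] at this
    rw [this]; ring
  rw [hnl] at hno
  rw [smul_eq_mul] at htr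
  refine ⟨-((l : ℤ) * Algebra.norm ℤ x + e₀ * Algebra.trace ℤ (𝓞 K) x), ?_⟩
  linear_combination hno + e₀ * htr

theorem chi_inert (D : FD σ₂ e) {l : ℕ} (hl : l.Prime) (h2 : l ≠ 2)
    (v : HeightOneSpectrum (𝓞 K)) (hv : Ideal.span {(l : 𝓞 K)} = v.asIdeal)
    (hN : Ideal.absNorm v.asIdeal = l ^ 2) : chiP e v.asIdeal = ZMod.χ₄ (l : ZMod 4) := by
  have hodd : l % 2 = 1 := (hl.eq_two_or_odd).resolve_left h2
  have hlv : (l : 𝓞 K) ∈ v.asIdeal := by rw [← hv]; exact Ideal.mem_span_singleton_self _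
  have h2v : (2 : 𝓞 K) ∉ v.asIdeal := by
    intro h
    apply v.isPrime.ne_top
    rw [Ideal.eq_top_iff_one]
    have h1 : (1 : 𝓞 K) = (l : 𝓞 K) - ((l / 2 : ℕ) : 𝓞 K) * 2 := by
      have : l = 2 * (l / 2) + 1 := by omega
      have h3 : (l : 𝓞 K) = 2 * ((l / 2 : ℕ) : 𝓞 K) + 1 := by
        conv_lhs => rw [this]
        push_cast
        ring
      rw [h3]; ring
    rw [h1]
    exact v.asIdeal.sub_mem hlv (v.asIdeal.mul_mem_left _ h)
  haveI := v.isMaximal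
  haveI : Fact l.Prime := ⟨hl⟩
  letI : Field (𝓞 K ⧸ v.asIdeal) := Ideal.Quotient.field v.asIdeal
  haveI : CharP (𝓞 K ⧸ v.asIdeal) l := by
    rw [CharP.charP_iff_prime_eq_zero hl]
    have : ((l : 𝓞 K ⧸ v.asIdeal)) = Ideal.Quotient.mk v.asIdeal (l : 𝓞 K) := by
      rw [map_natCast]
    rw [this]
    exact Ideal.Quotient.eq_zero_iff_mem.2 hlv
  set u : 𝓞 K ⧸ v.asIdeal := Ideal.Quotient.mk v.asIdeal (e : 𝓞 K) with hu
  have hu0 : u ≠ 0 := by
    have : IsUnit u := (Units.isUnit e).map (Ideal.Quotient.mk v.asIdeal)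
    exact this.ne_zero
  have husq : u ^ 2 = (tre e : 𝓞 K ⧸ v.asIdeal) * u + 1 := by
    have := congrArg (Ideal.Quotient.mk v.asIdeal) (e_sq D)
    rw [map_pow, map_add, map_mul, map_intCast, map_one] at this
    exact this
  have hfr := congrArg (frobenius (𝓞 K ⧸ v.asIdeal) l) husq
  rw [map_pow, map_add, map_mul, map_intCast, map_one, frobenius_def] at hfr
  have hfac : (u ^ l - u) * (u ^ l + u - (tre e : 𝓞 K ⧸ v.asIdeal)) = 0 := by
    linear_combination hfr - husq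
  -- reduction to the powers of `u`
  have hs : ZMod.χ₄ (l : ZMod 4) = 1 ∨ ZMod.χ₄ (l : ZMod 4) = -1 := by
    rcases (show l % 4 = 1 ∨ l % 4 = 3 by omega) with h | h
    · left; exact ZMod.χ₄_nat_one_mod_four h
    · right; exact ZMod.χ₄_nat_three_mod_four h
  apply chiP_eq_of e v h2v hs
  rw [hN, ← Ideal.Quotient.eq_zero_iff_mem, map_sub, map_pow, map_intCast, ← hu, sub_eq_zero]
  obtain ⟨j, hj⟩ : ∃ j, l = 2 * j + 1 := ⟨l / 2, by omega⟩
  have hexp : (l ^ 2 - 1) / 2 = (l - 1) * (j + 1) := by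
    rw [hj]
    have : (2 * j + 1) ^ 2 - 1 = 2 * ((2 * j + 1 - 1) * (j + 1)) := by
      have h3 : (2 * j + 1) ^ 2 = 2 * ((2 * j) * (j + 1)) + 1 := by ring
      rw [h3]
      simp
    rw [this, Nat.mul_div_cancel_left _ (by norm_num)]
  have hexp2 : (l ^ 2 - 1) / 2 = (l + 1) * (l / 2) := by
    rw [hexp, hj]
    have h3 : (2 * j + 1) / 2 = j := by omega
    have h4 : 2 * j + 1 - 1 = 2 * j := by omega
    rw [h3, h4]
    ring
  rcases mul_eq_zero.1 hfac with h | h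
  · -- `u` is in the prime field
    have hul : u ^ l = u := sub_eq_zero.1 h
    have hmem : u ∈ (⊥ : Subfield (𝓞 K ⧸ v.asIdeal)) := by
      rw [Subfield.mem_bot_iff_pow_eq_self (𝓞 K ⧸ v.asIdeal) l]
      exact hul
    obtain ⟨e₀, he₀⟩ := (mem_bot_iff_intCast l (𝓞 K ⧸ v.asIdeal)).1 hmem
    have hmemv : (e : 𝓞 K) - (e₀ : 𝓞 K) ∈ Ideal.span {(l : 𝓞 K)} := by
      rw [hv, ← Ideal.Quotient.eq_zero_iff_mem, map_sub, map_intCast, ← hu, sub_eq_zero]
      exact he₀.symm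
    have hdvd := dvd_sq_add_one D _ hmemv
    have h4 : l % 4 ≠ 3 := by
      apply ZMod.mod_four_ne_three_of_sq_eq_neg_one (p := l) (y := (e₀ : ZMod l))
      have := (ZMod.intCast_zmod_eq_zero_iff_dvd _ l).2 hdvd
      push_cast at this ⊢
      linear_combination this
    have h5 : l % 4 = 1 := by omega
    rw [ZMod.χ₄_nat_one_mod_four h5, hexp, pow_mul]
    have h6 : u ^ (l - 1) = 1 := by
      have h7 : u ^ (l - 1) * u = 1 * u := by
        rw [← pow_succ, Nat.sub_add_cancel hl.one_le, hul, one_mul]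
      exact mul_right_cancel₀ hu0 h7
    rw [h6, one_pow]
    simp
  · have hul : u ^ l = (tre e : 𝓞 K ⧸ v.asIdeal) - u := by linear_combination h
    have h6 : u ^ (l + 1) = -1 := by
      rw [pow_succ, hul]
      linear_combination (-1 : 𝓞 K ⧸ v.asIdeal) * husq
    rw [hexp2, pow_mul, h6, ZMod.χ₄_eq_neg_one_pow hodd]
    push_cast
    rfl

end Pool.Agent.STg.F
end
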