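import Pool.Agent.Lib.MP_1ef7cf_nt_g.Mg.G021
import Pool.Agent.Lib.MP_1ef7cf_nt_g.Mg.G040
import Pool.Agent.Lib.MP_1ef7cf_nt_g.Mg.G051
import Pool.Agent.Lib.MP_1ef7cf_nt_g.Mg.G019

section

set_option autoImplicit false

open NumberField IsDedekindDomain nonZeroDivisors IntermediateField

namespace Pool.Agent.STg.F

open Pool.Agent.ST

variable {K : Type*} [Field K] [NumberField K] [Algebra K ℝ] {σ₂ : K →+* ℝ} {e : (𝓞 K)ˣ}

omit [NumberField K] [Algebra K ℝ] in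
lemma F10_two {l : ℕ} (hl : l.Prime) (h2 : l ≠ 2) (v : HeightOneSpectrum (𝓞 K))
    (hlv : (l : 𝓞 K) ∈ v.asIdeal) : (2 : 𝓞 K) ∉ v.asIdeal := by
  have hodd : l % 2 = 1 := (hl.eq_two_or_odd).resolve_left h2
  intro h
  apply v.isPrime.ne_top
  rw [Ideal.eq_top_iff_one]
  have h1 : (1 : 𝓞 K) = (l : 𝓞 K) - ((l / 2 : ℕ) : 𝓞 K) * 2 := by
    have : l = 2 * (l / 2) + 1 := by omega
    have h3 : (l : 𝓞 K) = 2 * ((l / 2 : ℕ) : 𝓞 K) + 1 := by
      conv_lhs => rw [this]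
      push_cast
      ring
    rw [h3]; ring
  rw [h1]
  exact v.asIdeal.sub_mem hlv (v.asIdeal.mul_mem_left _ h)

/-- `f(e₁)` is divisible by `l` -/
lemma F10_root (D : FD σ₂ e) {l : ℕ} (hl : l.Prime) (v : HeightOneSpectrum (𝓞 K))
    (hlv : (l : 𝓞 K) ∈ v.asIdeal) (e₁ : ℤ) (h : (e : 𝓞 K) - (e₁ : 𝓞 K) ∈ v.asIdeal) :
    (l : ℤ) ∣ e₁ ^ 2 - tre e * e₁ - 1 := by
  apply dvd_of_mem v hl hlv
  have h1 := e_sq D
  have h2 : ((e₁ ^ 2 - tre e * e₁ - 1 : ℤ) : 𝓞 K) =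
      ((e : 𝓞 K) - (e₁ : 𝓞 K)) * ((tre e : 𝓞 K) - (e : 𝓞 K) - (e₁ : 𝓞 K)) := by
    push_cast
    linear_combination h1
  rw [h2]
  exact v.asIdeal.mul_mem_right _ h

/-- TASK F10 (split and ramified primes).
PROOF. `2 ∉ v` and `2 ∉ w` (`l ∈ v` and `l` is odd: `1 = l - 2 t ∈ v`). `exists_int` (F08): integers `e₁`, `e₂` with `e - e₁ ∈ v`, `e - e₂ ∈ w`. By `chiP_int` (F03):
`chiP e v = jacobiSym e₁ l`, `chiP e w = jacobiSym e₂ l`, so the product is `jacobiSym (e₁ e₂) l` and it is enough to show `l ∣ e₁ e₂ + 1`: then it is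
`jacobiSym (-1) l = χ₄ l` (`jacobiSym.mod_left'`, `jacobiSym.at_neg_one`).
Let `f(x) = x ^ 2 - T x - 1`; `f(e₁) ∈ v` (as `f(e) = 0` by `e_sq`), so `l ∣ f(e₁)` (`dvd_of_mem`), and `l ∣ f(e₂)`. So `l ∣ f(e₁) - f(e₂) = (e₁ - e₂) (e₁ + e₂ - T)`.
Case 1: `l ∣ e₁ + e₂ - T`: `e₁ e₂ + 1 ≡ e₁ (T - e₁) + 1 = -f(e₁) ≡ 0`. Done.
Case 2: `l ∣ e₁ - e₂`. Then `e - e₁ ∈ v` and `e - e₁ ∈ w`. If `v ≠ w`, `v ⊓ w = v * w` (`Ideal.inf_eq_mul_of_isCoprime`, two different maximal ideals are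
coprime), so `e - e₁ ∈ span {l}`, `l ∣ e₁ ^ 2 + 1` (`dvd_sq_add_one`) and `e₁ e₂ ≡ e₁ ^ 2`. If `v = w`: put `x = e - e₁`, `x ^ 2 ∈ v * v = span {l}`. By `cayley`:
`x ^ 2 = t x - n` with `t = trace x = T - 2 e₁` and `n = norm x` divisible by `l` (`n = f(e₁)`-like: `n = norm_lin (-e₁) 1`, or `n = t x - x ^ 2 ∈ v`, `dvd_of_mem`), so
`t x ∈ span {l}`. If `l ∣ t`: `T ≡ 2 e₁` and `f(e₁) ≡ e₁ ^ 2 - 2 e₁ ^ 2 - 1 = -(e₁ ^ 2 + 1)`: done. If `l ∤ t`, Bezout gives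
`x ∈ span {l}` and again `dvd_sq_add_one`. -/
theorem chi_split (D : FD σ₂ e) {l : ℕ} (hl : l.Prime) (h2 : l ≠ 2)
    (v w : HeightOneSpectrum (𝓞 K)) (hvw : Ideal.span {(l : 𝓞 K)} = v.asIdeal * w.asIdeal)
    (hv : Ideal.absNorm v.asIdeal = l) (hw : Ideal.absNorm w.asIdeal = l) :
    chiP e v.asIdeal * chiP e w.asIdeal = ZMod.χ₄ (l : ZMod 4) := by
  have hodd : l % 2 = 1 := (hl.eq_two_or_odd).resolve_left h2
  have hlvw : (l : 𝓞 K) ∈ v.asIdeal * w.asIdeal := by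
    rw [← hvw]; exact Ideal.mem_span_singleton_self _
  have hle1 : v.asIdeal * w.asIdeal ≤ v.asIdeal := Ideal.mul_le_left
  have hle2 : v.asIdeal * w.asIdeal ≤ w.asIdeal := Ideal.mul_le_right
  have hlv : (l : 𝓞 K) ∈ v.asIdeal := hle1 hlvw
  have hlw : (l : 𝓞 K) ∈ w.asIdeal := hle2 hlvw
  obtain ⟨e₁, h1⟩ := exists_int v hl hv (e : 𝓞 K)
  obtain ⟨e₂, h3⟩ := exists_int w hl hw (e : 𝓞 K)
  rw [chiP_int e v (F10_two hl h2 v hlv) e₁ h1, chiP_int e w (F10_two hl h2 w hlw) e₂ h3, hv, hw,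
    ← jacobiSym.mul_left]
  have hf1 := F10_root D hl v hlv e₁ h1
  have hf2 := F10_root D hl w hlw e₂ h3
  have hlp : Prime (l : ℤ) := Nat.prime_iff_prime_int.1 hl
  suffices hd : (l : ℤ) ∣ e₁ * e₂ + 1 by
    have hmod : jacobiSym (e₁ * e₂) l = jacobiSym (-1) l := by
      apply jacobiSym.mod_left'
      have h4 : (l : ℤ) ∣ (e₁ * e₂) - (-1) := by rw [sub_neg_eq_add]; exact hd
      exact (Int.modEq_iff_dvd.2 h4).symm
    rw [hmod, jacobiSym.at_neg_one (Nat.odd_iff.2 hodd)]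
  have hprod : (l : ℤ) ∣ (e₁ - e₂) * (e₁ + e₂ - tre e) := by
    have h5 := dvd_sub hf1 hf2
    have h6 : e₁ ^ 2 - tre e * e₁ - 1 - (e₂ ^ 2 - tre e * e₂ - 1) =
      (e₁ - e₂) * (e₁ + e₂ - tre e) := by ring
    rwa [h6] at h5
  -- if `e - e₁` is divisible by `l`, we are done in the second case
  have hfinish : (l : ℤ) ∣ e₁ - e₂ → (l : ℤ) ∣ e₁ ^ 2 + 1 → (l : ℤ) ∣ e₁ * e₂ + 1 := by
    intro h5 h6
    have h7 : e₁ * e₂ + 1 = (e₁ ^ 2 + 1) - e₁ * (e₁ - e₂) := by ring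
    rw [h7]
    exact dvd_sub h6 (h5.mul_left _)
  rcases hlp.dvd_or_dvd hprod with hc | hc
  · -- case 2
    apply hfinish hc
    have h1w : (e : 𝓞 K) - (e₁ : 𝓞 K) ∈ w.asIdeal := by
      obtain ⟨k, hk⟩ := hc
      have h5 : (e : 𝓞 K) - (e₁ : 𝓞 K) = ((e : 𝓞 K) - (e₂ : 𝓞 K)) - (k : 𝓞 K) * (l : 𝓞 K) := by
        have h6 : ((e₁ - e₂ : ℤ) : 𝓞 K) = ((l * k : ℤ) : 𝓞 K) := by rw [hk]
        push_cast at h6
        linear_combination -h6
      rw [h5]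
      exact w.asIdeal.sub_mem h3 (w.asIdeal.mul_mem_left _ hlw)
    by_cases hvwne : v = w
    · -- ramified
      subst hvwne
      set x : 𝓞 K := (e : 𝓞 K) - (e₁ : 𝓞 K) with hx
      have hx' : (((-e₁ : ℤ) : 𝓞 K) + ((1 : ℤ) : 𝓞 K) * (e : 𝓞 K)) = x := by
        rw [hx]; push_cast; ring
      have htr := trace_lin D (-e₁) 1
      have hno := norm_lin D (-e₁) 1
      rw [hx'] at htr hno
      have hcay := cayley D x
      have hxx : x ^ 2 ∈ Ideal.span {(l : 𝓞 K)} := by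
        rw [hvw, pow_two]; exact Ideal.mul_mem_mul h1 h1
      have hn : (l : ℤ) ∣ Algebra.norm ℤ x := by
        rw [hno]
        have : (-e₁) ^ 2 + -e₁ * 1 * tre e - 1 ^ 2 = e₁ ^ 2 - tre e * e₁ - 1 := by ring
        rw [this]
        exact hf1
      have hnm : ((Algebra.norm ℤ x : ℤ) : 𝓞 K) ∈ Ideal.span {(l : 𝓞 K)} := by
        obtain ⟨k, hk⟩ := hn
        rw [hk, Ideal.mem_span_singleton]
        exact ⟨(k : 𝓞 K), by push_cast; ring⟩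
      have htx : ((Algebra.trace ℤ (𝓞 K) x : ℤ) : 𝓞 K) * x ∈ Ideal.span {(l : 𝓞 K)} := by
        have h5 : ((Algebra.trace ℤ (𝓞 K) x : ℤ) : 𝓞 K) * x =
            x ^ 2 + ((Algebra.norm ℤ x : ℤ) : 𝓞 K) := by rw [hcay]; ring
        rw [h5]
        exact Ideal.add_mem _ hxx hnm
      by_cases ht : (l : ℤ) ∣ Algebra.trace ℤ (𝓞 K) x
      · rw [htr] at ht
        have h6 : e₁ ^ 2 + 1 = -(e₁ ^ 2 - tre e * e₁ - 1) - e₁ * (2 * -e₁ + 1 * tre e) := by ring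
        rw [h6]
        exact dvd_sub (dvd_neg.2 hf1) (ht.mul_left _)
      · have hcop : IsCoprime (l : ℤ) (Algebra.trace ℤ (𝓞 K) x) :=
          (hlp.coprime_iff_not_dvd).2 ht
        obtain ⟨a, b, hab⟩ := hcop
        apply dvd_sq_add_one D e₁
        have h7 : (e : 𝓞 K) - (e₁ : 𝓞 K) = (a : 𝓞 K) * x * (l : 𝓞 K) +
            (b : 𝓞 K) * (((Algebra.trace ℤ (𝓞 K) x : ℤ) : 𝓞 K) * x) := by
          have h8 : ((a * l + b * Algebra.trace ℤ (𝓞 K) x : ℤ) : 𝓞 K) = 1 := by rw [hab]; simp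
          push_cast at h8
          rw [← hx]
          linear_combination (-x) * h8
        rw [h7]
        exact Ideal.add_mem _ (Ideal.mul_mem_left _ _ (Ideal.mem_span_singleton_self _))
          (Ideal.mul_mem_left _ _ htx)
    · apply dvd_sq_add_one D e₁
      rw [hvw]
      have hcop : IsCoprime v.asIdeal w.asIdeal := by
        rw [Ideal.isCoprime_iff_sup_eq]
        apply Ideal.IsMaximal.coprime_of_ne v.isMaximal w.isMaximal
        intro h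
        exact hvwne (HeightOneSpectrum.ext h)
      rw [Ideal.mul_eq_inf_of_isCoprime hcop]
      exact ⟨h1, h1w⟩
  · have h5 : e₁ * e₂ + 1 = -(e₁ ^ 2 - tre e * e₁ - 1) + e₁ * (e₁ + e₂ - tre e) := by ring
    rw [h5]
    exact dvd_add (dvd_neg.2 hf1) (hc.mul_left _)

end Pool.Agent.STg.F
end

section

set_option autoImplicit false

open NumberField IsDedekindDomain nonZeroDivisors IntermediateField

namespace Pool.Agent.STg.F

open Pool.Agent.ST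

variable {K : Type*} [Field K] [NumberField K] [Algebra K ℝ] {σ₂ : K →+* ℝ} {e : (𝓞 K)ˣ}

/-- TASK F11 (the symbol of a rational integer).
PROOF. `chi_prime`: `decomp` (F08) and `chi_inert` (F09), `chi_split` (F10) with `chiI_prime`, `chiI_mul`. `chi_nat`: induction on the prime factorization of
`g` (`Nat.recOnMul` / `induction_on_primes`): `g = 1` : `chiI_top` (`Ideal.span {1} = ⊤`), `χ₄ 1 = 1`; `g = l g'` odd: both odd, `chiI_span_mul`, `χ₄` is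
multiplicative (`map_mul`, `Nat.cast_mul`). -/
theorem chi_prime (D : FD σ₂ e) {l : ℕ} (hl : l.Prime) (h2 : l ≠ 2) :
    chiI e (Ideal.span {(l : 𝓞 K)}) = ZMod.χ₄ (l : ZMod 4) := by
  rcases decomp D.deg hl with ⟨v, hv, hN⟩ | ⟨v, w, hvw, hv, hw⟩
  · rw [← chi_inert D hl h2 v hv hN, hv, chiI_prime]
  · rw [← chi_split D hl h2 v w hvw hv hw, hvw, chiI_mul e v.ne_bot w.ne_bot, chiI_prime,
      chiI_prime]

theorem chi_nat (D : FD σ₂ e) {g : ℕ} (hg : Odd g) :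
    chiI e (Ideal.span {(g : 𝓞 K)}) = ZMod.χ₄ (g : ZMod 4) := by
  induction g using Nat.recOnMul with
  | zero => simp at hg
  | one =>
    rw [Nat.cast_one, Ideal.span_singleton_one, chiI_top, Nat.cast_one, map_one]
  | prime p hp =>
    apply chi_prime D hp
    rintro rfl
    exact absurd hg (by decide)
  | mul a b iha ihb =>
    rw [Nat.odd_mul] at hg
    have ha0 : (a : 𝓞 K) ≠ 0 := by
      have : a ≠ 0 := by rintro rfl; exact absurd hg.1 (by decide)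
      exact_mod_cast this
    have hb0 : (b : 𝓞 K) ≠ 0 := by
      have : b ≠ 0 := by rintro rfl; exact absurd hg.2 (by decide)
      exact_mod_cast this
    rw [Nat.cast_mul, chiI_span_mul e ha0 hb0, iha hg.1, ihb hg.2, Nat.cast_mul, map_mul]

end Pool.Agent.STg.F
end
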