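import Pool.Agent.Lib.MP_1ef7cf_nt_g.Mg.G019
import Pool.Agent.Lib.MP_1ef7cf_nt_g.Mg.G052
import Pool.Agent.Lib.MP_1ef7cf_nt_h.Mg.G002
import Pool.Agent.Lib.MP_1ef7cf_nt_g.F07
import Pool.Agent.Lib.MP_1ef7cf_nt_g.Mg.G055
import Pool.Agent.Lib.MP_1ef7cf_nt_g.F13

section

set_option autoImplicit false

open NumberField IsDedekindDomain nonZeroDivisors IntermediateField

namespace Pool.Agent.STg.F

open Pool.Agent.ST

variable {K : Type*} [Field K] [NumberField K] [Algebra K ℝ] {σ₂ : K →+* ℝ} {e : (𝓞 K)ˣ}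

lemma F23_act_int {H : IntermediateField K ℝ} (σ : H ≃ₐ[K] H) (n : ℤ) {x : ℝ} (hx : x ∈ H) :
    act σ ((n : ℝ) * x) = n * act σ x := by
  have h1 : ((n : ℝ)) = algebraMap K ℝ (n : K) := by simp
  rw [h1, act_mul σ (H.algebraMap_mem _) hx, act_algebraMap]

/-- TASK F23 (an automorphism with the coordinates of a given ideal).
PROOF. `fd_Lf`, `abelian_Lf` (Galois), `numberField_of_fd`. For a prime `v` not above `2` take a prime `P` of `L = Lf e k` above `v` (`exists_ovr`) and a Frobenius element `φ` (`exists_isFrob`: `IsFrob K P φ` says `φ • x - x ^ pn (und K P) ∈ P`, `und K P = v`,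
`pn v = absNorm v`); `frob_sqrt`, `frob_cos` give its coordinates. Then `ideal_induction` (F04) with `m = span {2}` (`¬ v ∣ span {2}` gives `2 ∉ v`: `Ideal.dvd_span_singleton`): `I = ⊤`: `σ = 1`. Step `v * I`: `σ = φ * σ_I`, computed as in F20 (`act_comp`, `act_cos_mul`). -/
theorem exists_sig (D : FD σ₂ e) (k : ℕ) (I : Ideal (𝓞 K)) (hI : I ≠ ⊥)
    (h2 : IsCoprime I (Ideal.span {(2 : 𝓞 K)})) :
    ∃ σ : Lf e k ≃ₐ[K] Lf e k, act σ (se e) = (chiI e I : ℝ) * se e ∧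
      act σ (Real.cos (2 * Real.pi / 2 ^ k)) =
        Real.cos (2 * Real.pi * (Ideal.absNorm I : ℕ) / 2 ^ k) := by
  haveI := fd_Lf D k
  haveI := abelian_Lf D k
  haveI := numberField_of_fd (Lf e k)
  have hmain := ideal_induction (m := Ideal.span {(2 : 𝓞 K)})
    (p := fun I => ∃ σ : Lf e k ≃ₐ[K] Lf e k, act σ (se e) = (chiI e I : ℝ) * se e ∧
      act σ (Real.cos (2 * Real.pi / 2 ^ k)) =
        Real.cos (2 * Real.pi * (Ideal.absNorm I : ℕ) / 2 ^ k)) ?_ ?_ I hI h2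
  · exact hmain
  · refine ⟨1, ?_, ?_⟩
    · rw [act_one_left (se_mem e k), chiI_top]; simp
    · rw [act_one_left (cos_mem e k), ← Ideal.one_eq_top, map_one]; simp
  · rintro v I hv hI hIc ⟨σ, hσ1, hσ2⟩
    have hv2 : (2 : 𝓞 K) ∉ v.asIdeal := by
      intro h
      exact hv (Ideal.dvd_span_singleton.2 h)
    obtain ⟨P, hP⟩ := exists_ovr (K := K) (L := Lf e k) v
    obtain ⟨φ, hφ⟩ := exists_isFrob (K := K) P
    haveI := P.isPrime
    have hPv : P.asIdeal.under (𝓞 K) = v.asIdeal := by rw [← hP]; rfl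
    have hφ' : ∀ x : 𝓞 (Lf e k), φ • x - x ^ Ideal.absNorm v.asIdeal ∈ P.asIdeal := by
      intro x
      have := hφ x
      rw [hP] at this
      exact this
    have g1 := frob_sqrt D (Lf e k) (se_mem e k) v hv2 P.asIdeal hPv φ hφ'
    have g2 := frob_cos (Lf e k) (cos_mem e k) v hv2 P.asIdeal hPv φ hφ'
    refine ⟨φ * σ, ?_, ?_⟩
    · rw [act_comp _ _ (se_mem e k), hσ1, F23_act_int _ _ (se_mem e k), g1,
        chiI_mul e v.ne_bot hI, chiI_prime]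
      push_cast
      ring
    · rw [act_comp _ _ (cos_mem e k), hσ2, act_cos_mul (cos_mem e k) φ g2, map_mul]

end Pool.Agent.STg.F
end

section

set_option autoImplicit false

open NumberField IsDedekindDomain nonZeroDivisors IntermediateField

namespace Pool.Agent.STg.F

open Pool.Agent.ST

variable {K : Type*} [Field K] [NumberField K] [Algebra K ℝ] {σ₂ : K →+* ℝ} {e : (𝓞 K)ˣ}

/-- TASK F12 (reciprocity for all elements `a + c e`).
PROOF. Let `g = Int.gcd a c` (a positive natural number, odd because `a` is), `a = g a₀`, `c = g c₀`, `IsCoprime a₀ c₀` (`Int.isCoprime_iff_gcd_eq_one`,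
`Int.gcd_div_gcd_div_gcd`), `a₀` odd and `8 ∣ c₀` (`g` is odd and `8 ∣ g c₀`). `a + c e = g (a₀ + c₀ e)`, both factors nonzero,
`chiI_span_mul`, `chi_nat`, `chi_prim`; `χ₄ a = χ₄ g * χ₄ a₀`; `σ₂ (a + c e) = g σ₂ (a₀ + c₀ e)` has the sign of `σ₂ (a₀ + c₀ e)`. -/
theorem chi_lin (D : FD σ₂ e) {a c : ℤ} (ha : Odd a) (hc : 8 ∣ c) :
    (0 < σ₂ (((a : 𝓞 K) + (c : 𝓞 K) * (e : 𝓞 K) : 𝓞 K) : K) →
      chiI e (Ideal.span {(a : 𝓞 K) + (c : 𝓞 K) * (e : 𝓞 K)}) = ZMod.χ₄ (a : ZMod 4)) ∧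
    (σ₂ (((a : 𝓞 K) + (c : 𝓞 K) * (e : 𝓞 K) : 𝓞 K) : K) < 0 →
      chiI e (Ideal.span {(a : 𝓞 K) + (c : 𝓞 K) * (e : 𝓞 K)}) = -ZMod.χ₄ (a : ZMod 4)) := by
  have ha0 : a ≠ 0 := by
    rintro rfl
    exact absurd ha (by decide)
  have hg0 : 0 < Int.gcd a c := Int.gcd_pos_of_ne_zero_left c ha0
  obtain ⟨g, hg⟩ : ∃ g : ℕ, g = Int.gcd a c := ⟨_, rfl⟩
  have hgpos : 0 < g := by rw [hg]; exact hg0
  obtain ⟨a₀, ha₀⟩ : (g : ℤ) ∣ a := by rw [hg]; exact Int.gcd_dvd_left a c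
  obtain ⟨c₀, hc₀⟩ : (g : ℤ) ∣ c := by rw [hg]; exact Int.gcd_dvd_right a c
  have hgz : (g : ℤ) ≠ 0 := by exact_mod_cast hgpos.ne'
  have hco : IsCoprime a₀ c₀ := by
    rw [Int.isCoprime_iff_gcd_eq_one]
    have h1 : Int.gcd a c = g * Int.gcd a₀ c₀ := by
      rw [ha₀, hc₀, Int.gcd_mul_left, Int.natAbs_natCast]
    rw [← hg] at h1
    have h2 : g * 1 = g * Int.gcd a₀ c₀ := by rw [mul_one]; exact h1
    exact (Nat.eq_of_mul_eq_mul_left hgpos h2).symm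
  have hoddg : Odd (g : ℤ) := by
    rw [ha₀] at ha
    exact (Int.odd_mul.1 ha).1
  have hodda : Odd a₀ := by
    rw [ha₀] at ha
    exact (Int.odd_mul.1 ha).2
  have hoddgN : Odd g := by exact_mod_cast hoddg
  have h8 : (8 : ℤ) ∣ c₀ := by
    rw [hc₀] at hc
    have hcop : IsCoprime (8 : ℤ) (g : ℤ) := by
      have h2g : IsCoprime (2 : ℤ) (g : ℤ) := by
        rw [Int.isCoprime_iff_gcd_eq_one]
        have := (Nat.coprime_two_left (n := g)).2 hoddgN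
        exact_mod_cast this
      have := h2g.pow_left (m := 3)
      norm_num at this
      exact this
    exact hcop.dvd_of_dvd_mul_left hc
  have hfac : (a : 𝓞 K) + (c : 𝓞 K) * (e : 𝓞 K) =
      (g : 𝓞 K) * ((a₀ : 𝓞 K) + (c₀ : 𝓞 K) * (e : 𝓞 K)) := by
    rw [ha₀, hc₀]
    push_cast
    ring
  have hprim := chi_prim D hodda h8 hco
  have hnat := chi_nat D hoddgN
  have hgK : (g : 𝓞 K) ≠ 0 := by exact_mod_cast hgpos.ne'
  have hσ : σ₂ (((a : 𝓞 K) + (c : 𝓞 K) * (e : 𝓞 K) : 𝓞 K) : K) =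
      (g : ℝ) * σ₂ (((a₀ : 𝓞 K) + (c₀ : 𝓞 K) * (e : 𝓞 K) : 𝓞 K) : K) := by
    rw [hfac]
    simp
  have hgR : (0 : ℝ) < g := by exact_mod_cast hgpos
  have hχ : ZMod.χ₄ ((a : ℤ) : ZMod 4) = ZMod.χ₄ ((g : ℕ) : ZMod 4) * ZMod.χ₄ ((a₀ : ℤ) : ZMod 4) := by
    rw [ha₀, ← map_mul]
    push_cast
    rfl
  constructor
  · intro h
    rw [hσ] at h
    have h' := (pos_iff_pos_of_mul_pos h).1 hgR
    have hne : (a₀ : 𝓞 K) + (c₀ : 𝓞 K) * (e : 𝓞 K) ≠ 0 := by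
      intro h0
      rw [h0] at h'
      simp at h'
    rw [hfac, chiI_span_mul e hgK hne, hnat, hprim.1 h', hχ]
  · intro h
    rw [hσ] at h
    have h' : σ₂ (((a₀ : 𝓞 K) + (c₀ : 𝓞 K) * (e : 𝓞 K) : 𝓞 K) : K) < 0 := by
      by_contra hcon
      push Not at hcon
      have := mul_nonneg hgR.le hcon
      linarith
    have hne : (a₀ : 𝓞 K) + (c₀ : 𝓞 K) * (e : 𝓞 K) ≠ 0 := by
      intro h0
      rw [h0] at h'
      simp at h'
    rw [hfac, chiI_span_mul e hgK hne, hnat, hprim.2 h', hχ]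
    ring

end Pool.Agent.STg.F
end

section

set_option autoImplicit false

open NumberField IsDedekindDomain nonZeroDivisors IntermediateField

namespace Pool.Agent.STg.F

open Pool.Agent.ST

variable {K : Type*} [Field K] [NumberField K] [Algebra K ℝ] {σ₂ : K →+* ℝ} {e : (𝓞 K)ˣ}

/-- TASK F14 (reciprocity law for `b ≡ 1` modulo `16`).
PROOF. `b = 1 + 16 x` (`Ideal.mem_span_singleton`). `exists_mul` (F13): `2 M x = a + c e`, `M` odd. So `M b = M + 8 (2 M x) = (M + 8 a) + (8 c) e`. `chi_lin` (F12) for `M + 8 a` (odd), `8 c`: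
`chiI e (span {M b}) = ± χ₄ (M + 8 a) = ± χ₄ M` with the sign of `σ₂ (M b) = M σ₂ b` (`M > 0`). On the other hand `chiI e (span {M b}) = chiI e (span {M}) chiI e (span {b}) =
χ₄ M * chiI e (span {b})` (`chiI_span_mul`, `chi_nat`, `b ≠ 0` because `σ₂ b ≠ 0`). `χ₄ M = ± 1`, cancel. -/
theorem chi_rec (D : FD σ₂ e) {b : 𝓞 K} (hb : b - 1 ∈ Ideal.span {(16 : 𝓞 K)}) :
    (0 < σ₂ (b : K) → chiI e (Ideal.span {b}) = 1) ∧
    (σ₂ (b : K) < 0 → chiI e (Ideal.span {b}) = -1) := by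
  obtain ⟨x, hx⟩ := Ideal.mem_span_singleton.1 hb
  have hbx : b = 1 + 16 * x := by rw [← hx]; ring
  obtain ⟨M, a, c, hM, hMx⟩ := exists_mul D x
  have hMpos : 0 < M := hM.pos
  have hMZ : Odd (M : ℤ) := by exact_mod_cast hM
  have hodd : Odd ((M : ℤ) + 8 * a) := hMZ.add_even (by
    refine ⟨4 * a, by ring⟩)
  have h8 : (8 : ℤ) ∣ 8 * c := ⟨c, rfl⟩
  have hlin := chi_lin D hodd h8
  have hfac : ((((M : ℤ) + 8 * a : ℤ)) : 𝓞 K) + ((8 * c : ℤ) : 𝓞 K) * (e : 𝓞 K) = (M : 𝓞 K) * b := by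
    rw [hbx]
    push_cast
    linear_combination (-8 : 𝓞 K) * hMx
  rw [hfac] at hlin
  have hσ : σ₂ ((((M : 𝓞 K) * b : 𝓞 K)) : K) = (M : ℝ) * σ₂ (b : K) := by simp
  rw [hσ] at hlin
  have hMR : (0 : ℝ) < M := by exact_mod_cast hMpos
  have hMK : (M : 𝓞 K) ≠ 0 := by exact_mod_cast hMpos.ne'
  have hχ : ZMod.χ₄ (((M : ℤ) + 8 * a : ℤ) : ZMod 4) = ZMod.χ₄ ((M : ℕ) : ZMod 4) := by
    congr 1
    push_cast
    have : (8 : ZMod 4) = 0 := by decide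
    rw [this]
    ring
  rw [hχ] at hlin
  have hnat := chi_nat D hM
  have hsq : ZMod.χ₄ ((M : ℕ) : ZMod 4) * ZMod.χ₄ ((M : ℕ) : ZMod 4) = 1 := by
    rcases chiI_sq e (Ideal.span {(M : 𝓞 K)}) with h | h <;> rw [hnat] at h <;> rw [h] <;> norm_num
  constructor
  · intro h
    have hne : b ≠ 0 := by
      intro h0
      rw [h0] at h
      simp at h
    have h1 := hlin.1 (mul_pos hMR h)
    rw [chiI_span_mul e hMK hne, hnat] at h1
    have h2 := congrArg (fun z => ZMod.χ₄ ((M : ℕ) : ZMod 4) * z) h1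
    rw [← mul_assoc, hsq, one_mul] at h2
    exact h2
  · intro h
    have hne : b ≠ 0 := by
      intro h0
      rw [h0] at h
      simp at h
    have h1 := hlin.2 (mul_neg_of_pos_of_neg hMR h)
    rw [chiI_span_mul e hMK hne, hnat] at h1
    have h2 := congrArg (fun z => ZMod.χ₄ ((M : ℕ) : ZMod 4) * z) h1
    rw [← mul_assoc, hsq, one_mul, mul_neg, hsq] at h2
    exact h2

end Pool.Agent.STg.F
end
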