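import Pool.Agent.Lib.MP_1ef7cf_nt_g.Mg.G050

section

set_option autoImplicit false

open NumberField IsDedekindDomain nonZeroDivisors IntermediateField

namespace Pool.Agent.STg.F

open Pool.Agent.ST

variable {K : Type*} [Field K] [NumberField K] [Algebra K ℝ] {σ₂ : K →+* ℝ} {e : (𝓞 K)ˣ}

/-- TASK F27 (the case `2` inert: the structure modulo `2`).
PROOF. `mod_two`: `span {2}` is prime (maximal), `absNorm (span {2}) = 4` (`absNorm_nat`, `norm 2 = 4`, or `Algebra.norm_algebraMap`), so `𝓞 K ⧸ (2)` is a field with `4` elements. By `hgen` every nonzero element is a power of the class `u` of `e`; if `u = 1` there would be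
only `2` elements. `u ^ 3 = 1` (the group of units has order `3`). So the elements are `0, 1, u, u ^ 2`, all different, and `u ^ 2 = u + 1` because `u ^ 2 + u + 1 = 0` (`(u - 1)(u ^ 2 + u + 1) = u ^ 3 - 1 = 0`; characteristic `2`: `-1 = 1`).
`tre_odd`: `e ^ 2 = T e + 1` (`e_sq`); if `T` were even, `u ^ 2 = 1`, `u = 1`. 
`e_cube`: `e ^ 3 = T e ^ 2 + e = T (T e + 1) + e = (T ^ 2 + 1) e + T`. `T` odd: `(T ^ 2 + 1) / 2 = 1 + 2 w` is odd and `(T - 1) / 2 = s`: `e ^ 3 = 1 + 2 x`, `x = (1 + 2 w) e + s`, so `x ≡ e` or `x ≡ e + 1` modulo `2`.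
`e_six`: `e ^ 6 = (1 + 2 x) ^ 2 = 1 + 4 (x + x ^ 2)`, `x (x + 1) ≡ e (e + 1) = e ^ 2 + e ≡ (T + 1) e + 1 ≡ 1` modulo `2`. So `e ^ 6 - 5 ∈ span {8}`.
`trace_even`: if `trace x` is even, then `x ≡ 0` or `1` modulo `2`: otherwise `x = e + 2 y` or `x = e + 1 + 2 y` (`mod_two`; `e ^ 2 ≡ e + 1`) and `trace x = T + 2 (..)` or `T + 2 + 2 (..)` is odd (`trace_real` or `trace_lin`, `map_add`). -/
theorem F27_tre_odd (D : FD σ₂ e) (hp : (Ideal.span {(2 : 𝓞 K)}).IsPrime)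
    (hgen : ∀ x : 𝓞 K, x ∉ Ideal.span {(2 : 𝓞 K)} →
      ∃ i : ℕ, x - (e : 𝓞 K) ^ i ∈ Ideal.span {(2 : 𝓞 K)}) : Odd (tre e) := by
  by_contra hne
  obtain ⟨k, hk⟩ := Int.not_odd_iff_even.mp hne
  have h1 := e_sq D
  rw [hk] at h1
  push_cast at h1
  have h2 : ((e : 𝓞 K) - 1) * ((e : 𝓞 K) - 1) ∈ Ideal.span {(2 : 𝓞 K)} := by
    rw [Ideal.mem_span_singleton]
    exact ⟨(k : 𝓞 K) * e + 1 - e, by linear_combination h1⟩
  have h3 : (e : 𝓞 K) - 1 ∈ Ideal.span {(2 : 𝓞 K)} := (hp.mem_or_mem h2).elim id id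
  have h4 : Ideal.Quotient.mk (Ideal.span {(2 : 𝓞 K)}) (e : 𝓞 K) = 1 := by
    rw [← (Ideal.Quotient.mk (Ideal.span {(2 : 𝓞 K)})).map_one, Ideal.Quotient.eq]
    exact h3
  have h5 : ∀ z : 𝓞 K ⧸ Ideal.span {(2 : 𝓞 K)}, z = 0 ∨ z = 1 := by
    intro z
    obtain ⟨x, rfl⟩ := Ideal.Quotient.mk_surjective z
    by_cases hx : x ∈ Ideal.span {(2 : 𝓞 K)}
    · left; exact Ideal.Quotient.eq_zero_iff_mem.mpr hx
    · right
      obtain ⟨i, hi⟩ := hgen x hx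
      have := Ideal.Quotient.eq.mpr hi
      rw [this, map_pow, h4, one_pow]
  have h6 : Ideal.absNorm (Ideal.span {(2 : 𝓞 K)}) = 4 := by
    have h7 := norm_lin D 2 0
    have h8 : ((2 : ℤ) : 𝓞 K) + ((0 : ℤ) : 𝓞 K) * (e : 𝓞 K) = 2 := by push_cast; ring
    rw [h8] at h7
    rw [absNorm_nat, h7]
    norm_num
  have h7 : Nat.card (𝓞 K ⧸ Ideal.span {(2 : 𝓞 K)}) = 4 := by
    rw [← h6, Ideal.absNorm_apply, Submodule.cardQuot_apply]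
  have hfin : Finite (𝓞 K ⧸ Ideal.span {(2 : 𝓞 K)}) := Nat.finite_of_card_ne_zero (by omega)
  have h8 : (Set.univ : Set (𝓞 K ⧸ Ideal.span {(2 : 𝓞 K)})) ⊆ {0, 1} := by
    intro z _
    simpa using h5 z
  have h9 := Set.ncard_le_ncard h8 (Set.toFinite _)
  rw [Set.ncard_univ, h7] at h9
  have h10 := Set.ncard_insert_le (0 : 𝓞 K ⧸ Ideal.span {(2 : 𝓞 K)}) {1}
  rw [Set.ncard_singleton] at h10
  omega

theorem mod_two (D : FD σ₂ e) (hp : (Ideal.span {(2 : 𝓞 K)}).IsPrime)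
    (hgen : ∀ x : 𝓞 K, x ∉ Ideal.span {(2 : 𝓞 K)} →
      ∃ i : ℕ, x - (e : 𝓞 K) ^ i ∈ Ideal.span {(2 : 𝓞 K)}) (x : 𝓞 K) :
    ∃ y : 𝓞 K, x = 2 * y ∨ x = 1 + 2 * y ∨ x = (e : 𝓞 K) + 2 * y ∨ x = (e : 𝓞 K) + 1 + 2 * y := by
  obtain ⟨s, hs⟩ := F27_tre_odd D hp hgen
  have h1 := e_sq D
  rw [hs] at h1
  push_cast at h1
  have hpow : ∀ i : ℕ, ∃ y : 𝓞 K, (e : 𝓞 K) ^ i = 1 + 2 * y ∨ (e : 𝓞 K) ^ i = (e : 𝓞 K) + 2 * y ∨
      (e : 𝓞 K) ^ i = (e : 𝓞 K) + 1 + 2 * y := by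
    intro i
    induction i with
    | zero => exact ⟨0, Or.inl (by ring)⟩
    | succ i ih =>
      obtain ⟨y, hy | hy | hy⟩ := ih
      · refine ⟨e * y, Or.inr (Or.inl ?_)⟩
        rw [pow_succ, hy]; ring
      · refine ⟨s * e + e * y, Or.inr (Or.inr ?_)⟩
        rw [pow_succ, hy]; linear_combination h1
      · refine ⟨s * e + e * y + e, Or.inl ?_⟩
        rw [pow_succ, hy]; linear_combination h1
  by_cases hx : x ∈ Ideal.span {(2 : 𝓞 K)}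
  · rw [Ideal.mem_span_singleton] at hx
    obtain ⟨y, hy⟩ := hx
    exact ⟨y, Or.inl hy⟩
  · obtain ⟨i, hi⟩ := hgen x hx
    rw [Ideal.mem_span_singleton] at hi
    obtain ⟨z, hz⟩ := hi
    obtain ⟨y, hy | hy | hy⟩ := hpow i
    · exact ⟨y + z, Or.inr (Or.inl (by linear_combination hz + hy))⟩
    · exact ⟨y + z, Or.inr (Or.inr (Or.inl (by linear_combination hz + hy)))⟩
    · exact ⟨y + z, Or.inr (Or.inr (Or.inr (by linear_combination hz + hy)))⟩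

theorem tre_odd (D : FD σ₂ e) (hp : (Ideal.span {(2 : 𝓞 K)}).IsPrime)
    (hgen : ∀ x : 𝓞 K, x ∉ Ideal.span {(2 : 𝓞 K)} →
      ∃ i : ℕ, x - (e : 𝓞 K) ^ i ∈ Ideal.span {(2 : 𝓞 K)}) : Odd (tre e) := F27_tre_odd D hp hgen

theorem e_cube (D : FD σ₂ e) (hT : Odd (tre e)) :
    ∃ w : 𝓞 K, (e : 𝓞 K) ^ 3 = 1 + 2 * ((e : 𝓞 K) + 2 * w) ∨
      (e : 𝓞 K) ^ 3 = 1 + 2 * ((e : 𝓞 K) + 1 + 2 * w) := by
  obtain ⟨s, hs⟩ := hT
  have h1 := e_sq D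
  rw [hs] at h1
  push_cast at h1
  rcases Int.even_or_odd' s with ⟨r, hr | hr⟩
  · refine ⟨((s : 𝓞 K) ^ 2 + s) * e + r, Or.inl ?_⟩
    have h2 : (s : 𝓞 K) = 2 * (r : 𝓞 K) := by rw [hr]; push_cast; ring
    rw [h2] at h1 ⊢
    linear_combination ((e : 𝓞 K) + 4 * r + 1) * h1
  · refine ⟨((s : 𝓞 K) ^ 2 + s) * e + r, Or.inr ?_⟩
    have h2 : (s : 𝓞 K) = 2 * (r : 𝓞 K) + 1 := by rw [hr]; push_cast; ring
    rw [h2] at h1 ⊢
    linear_combination ((e : 𝓞 K) + 4 * r + 3) * h1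

theorem e_six (D : FD σ₂ e) (hT : Odd (tre e)) : ∃ w : 𝓞 K, (e : 𝓞 K) ^ 6 = 5 + 8 * w := by
  obtain ⟨w, hw⟩ := e_cube D hT
  obtain ⟨s, hs⟩ := hT
  have h1 := e_sq D
  rw [hs] at h1
  push_cast at h1
  have h6 : (e : 𝓞 K) ^ 6 = ((e : 𝓞 K) ^ 3) ^ 2 := by ring
  rcases hw with hw | hw
  · refine ⟨(s + 1) * e + 2 * e * w + 2 * w ^ 2 + w, ?_⟩
    rw [h6, hw]
    linear_combination 4 * h1
  · refine ⟨(s + 2) * e + 1 + 2 * (e + 1) * w + 2 * w ^ 2 + w, ?_⟩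
    rw [h6, hw]
    linear_combination 4 * h1

theorem trace_even (D : FD σ₂ e) (hp : (Ideal.span {(2 : 𝓞 K)}).IsPrime)
    (hgen : ∀ x : 𝓞 K, x ∉ Ideal.span {(2 : 𝓞 K)} →
      ∃ i : ℕ, x - (e : 𝓞 K) ^ i ∈ Ideal.span {(2 : 𝓞 K)}) (x : 𝓞 K)
    (hx : Even (Algebra.trace ℤ (𝓞 K) x)) : ∃ y : 𝓞 K, x = 2 * y ∨ x = 1 + 2 * y := by
  obtain ⟨s, hs⟩ := F27_tre_odd D hp hgen
  obtain ⟨t, ht⟩ := hx
  have h1 : Algebra.trace ℤ (𝓞 K) (e : 𝓞 K) = 2 * s + 1 := hs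
  have h2 : Algebra.trace ℤ (𝓞 K) (1 : 𝓞 K) = 2 := by simpa using trace_lin D 1 0
  obtain ⟨y, hy | hy | hy | hy⟩ := mod_two D hp hgen x
  · exact ⟨y, Or.inl hy⟩
  · exact ⟨y, Or.inr hy⟩
  · exfalso
    rw [hy, two_mul, map_add, map_add, h1] at ht
    omega
  · exfalso
    rw [hy, two_mul, map_add, map_add, map_add, h1, h2] at ht
    omega

end Pool.Agent.STg.F
end

section

set_option autoImplicit false

open NumberField IsDedekindDomain nonZeroDivisors IntermediateField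

namespace Pool.Agent.STg.F

open Pool.Agent.ST

variable {K : Type*} [Field K] [NumberField K] [Algebra K ℝ] {σ₂ : K →+* ℝ} {e : (𝓞 K)ˣ}

/-- TASK F29 (the case `K = ℚ(√2)`, `e = 1 + √2`: basic facts).
Let `π = e - 1`, `π ^ 2 = 2` (hypothesis `h`).
PROOF. `norm_pi`: `norm π = norm_lin` for `a = -1`, `c = 1`: `1 - T - 1 = -T` with `T = tre e = 2`: from `π ^ 2 = 2`: `e ^ 2 = 2 e + 1`, and `e ^ 2 = T e + 1` (`e_sq`), so `(T - 2) e = 0`, `T = 2` (`tre_two`).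
`mod_pi`: `absNorm (span {π}) = 2` (`absNorm_nat`), so `𝓞 K ⧸ (π)` has two elements and every `x` is `π y` or `1 + π y` (a ring with two elements is `{0, 1}`, `0 ≠ 1`).
`trace_pi`: `trace (π y)` is even, `y` arbitrary: `y = δ + π y'`, `δ ∈ {0, 1}`: `trace (π y) = δ trace π + 2 trace y'`, `trace π = T - 2 = 0`. `trace_even2`: `x = δ + π y`: `trace x = 2 δ + trace (π y)` is even. `trace_mod4`: for `x = 1 + π y`: `y = δ + π y'`: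
`trace x = 2 + δ trace π + 2 trace y' = 2 + 2 trace y'` and `trace y'` is even: `trace x ≡ 2` modulo `4`. (All traces: `map_add`, `map_mul` fails for products; use `trace_real`, or `2 * y' = (2 : ℤ) • y'` and `map_zsmul`.)
`level_norm`: `norm (1 + 2 ^ s x) = 1 + 2 ^ s trace x + 4 ^ s norm x` (`norm_one_add`), `x = 1 + π y`: `trace x = 2 + 4 t`, `s ≥ 2`: `≡ 1 + 2 ^ (s+1)` modulo `2 ^ (s+2)`. -/
theorem tre_two (D : FD σ₂ e) (h : ((e : 𝓞 K) - 1) ^ 2 = 2) : tre e = 2 := by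
  have h1 := e_sq D
  have h2 : ((tre e - 2 : ℤ) : 𝓞 K) * (e : 𝓞 K) = 0 := by
    push_cast
    linear_combination h - h1
  rcases mul_eq_zero.mp h2 with h3 | h3
  · have h4 : tre e - 2 = 0 := by exact_mod_cast h3
    omega
  · exact absurd h3 e.ne_zero

theorem F29_norm_pi (D : FD σ₂ e) (h : ((e : 𝓞 K) - 1) ^ 2 = 2) : Algebra.norm ℤ ((e : 𝓞 K) - 1) = -2 := by
  have h1 := norm_lin D (-1) 1
  rw [tre_two D h] at h1
  have h2 : (((-1 : ℤ) : 𝓞 K) + ((1 : ℤ) : 𝓞 K) * (e : 𝓞 K)) = (e : 𝓞 K) - 1 := by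
    push_cast; ring
  rw [h2] at h1
  rw [h1]; norm_num

theorem mod_pi (D : FD σ₂ e) (h : ((e : 𝓞 K) - 1) ^ 2 = 2) (x : 𝓞 K) :
    ∃ y : 𝓞 K, x = ((e : 𝓞 K) - 1) * y ∨ x = 1 + ((e : 𝓞 K) - 1) * y := by
  have h1 : Ideal.absNorm (Ideal.span {(e : 𝓞 K) - 1}) = 2 := by
    rw [absNorm_nat, F29_norm_pi D h]; rfl
  have h2 : Nat.card (𝓞 K ⧸ Ideal.span {(e : 𝓞 K) - 1}) = 2 := by
    rw [← h1, Ideal.absNorm_apply, Submodule.cardQuot_apply]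
  have h01 : (0 : 𝓞 K ⧸ Ideal.span {(e : 𝓞 K) - 1}) ≠ 1 := by
    intro h01
    have : Subsingleton (𝓞 K ⧸ Ideal.span {(e : 𝓞 K) - 1}) := subsingleton_of_zero_eq_one h01
    have := Nat.card_of_subsingleton (0 : 𝓞 K ⧸ Ideal.span {(e : 𝓞 K) - 1})
    omega
  obtain ⟨a, b, hab, hu⟩ := Nat.card_eq_two_iff.mp h2
  have hall : ∀ z : 𝓞 K ⧸ Ideal.span {(e : 𝓞 K) - 1}, z = 0 ∨ z = 1 := by
    intro z
    have hz : z ∈ ({a, b} : Set _) := hu ▸ Set.mem_univ z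
    have h0 : (0 : 𝓞 K ⧸ Ideal.span {(e : 𝓞 K) - 1}) ∈ ({a, b} : Set _) := hu ▸ Set.mem_univ _
    have h1' : (1 : 𝓞 K ⧸ Ideal.span {(e : 𝓞 K) - 1}) ∈ ({a, b} : Set _) := hu ▸ Set.mem_univ _
    simp only [Set.mem_insert_iff, Set.mem_singleton_iff] at hz h0 h1'
    rcases hz with hz | hz <;> rcases h0 with h0 | h0 <;> rcases h1' with h1' | h1'
    · exact absurd (h0.trans h1'.symm) h01
    · left; rw [hz, h0]
    · right; rw [hz, h1']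
    · exact absurd (h0.trans h1'.symm) h01
    · exact absurd (h0.trans h1'.symm) h01
    · right; rw [hz, h1']
    · left; rw [hz, h0]
    · exact absurd (h0.trans h1'.symm) h01
  rcases hall (Ideal.Quotient.mk _ x) with h3 | h3
  · rw [Ideal.Quotient.eq_zero_iff_mem, Ideal.mem_span_singleton] at h3
    obtain ⟨y, hy⟩ := h3
    exact ⟨y, Or.inl hy⟩
  · rw [← (Ideal.Quotient.mk (Ideal.span {(e : 𝓞 K) - 1})).map_one, Ideal.Quotient.eq,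
      Ideal.mem_span_singleton] at h3
    obtain ⟨y, hy⟩ := h3
    exact ⟨y, Or.inr (by rw [← hy]; ring)⟩

omit [NumberField K] [Algebra K ℝ] in
theorem F29_trace_two (y : 𝓞 K) : Algebra.trace ℤ (𝓞 K) (2 * y) = 2 * Algebra.trace ℤ (𝓞 K) y := by
  rw [two_mul, map_add, two_mul]

theorem F29_trace_pi (D : FD σ₂ e) (h : ((e : 𝓞 K) - 1) ^ 2 = 2) :
    Algebra.trace ℤ (𝓞 K) ((e : 𝓞 K) - 1) = 0 := by
  have h1 := trace_lin D (-1) 1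
  rw [tre_two D h] at h1
  have h2 : (((-1 : ℤ) : 𝓞 K) + ((1 : ℤ) : 𝓞 K) * (e : 𝓞 K)) = (e : 𝓞 K) - 1 := by
    push_cast; ring
  rw [h2] at h1
  rw [h1]; norm_num

theorem F29_trace_one (D : FD σ₂ e) : Algebra.trace ℤ (𝓞 K) (1 : 𝓞 K) = 2 := by
  have h1 := trace_lin D 1 0
  simpa using h1

theorem F29_pi_mul (D : FD σ₂ e) (h : ((e : 𝓞 K) - 1) ^ 2 = 2) (y : 𝓞 K) :
    ∃ y' : 𝓞 K, Algebra.trace ℤ (𝓞 K) (((e : 𝓞 K) - 1) * y) = 2 * Algebra.trace ℤ (𝓞 K) y' := by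
  obtain ⟨y', hy | hy⟩ := mod_pi D h y
  · refine ⟨y', ?_⟩
    rw [← F29_trace_two, hy]
    congr 1
    linear_combination y' * h
  · refine ⟨y', ?_⟩
    have h1 : ((e : 𝓞 K) - 1) * y = ((e : 𝓞 K) - 1) + 2 * y' := by
      rw [hy]; linear_combination y' * h
    rw [h1, map_add, F29_trace_pi D h, zero_add, F29_trace_two]

theorem trace_even2 (D : FD σ₂ e) (h : ((e : 𝓞 K) - 1) ^ 2 = 2) (x : 𝓞 K) :
    Even (Algebra.trace ℤ (𝓞 K) x) := by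
  obtain ⟨y, hy | hy⟩ := mod_pi D h x
  · obtain ⟨y', hy'⟩ := F29_pi_mul D h y
    rw [hy, hy']
    exact even_two_mul _
  · obtain ⟨y', hy'⟩ := F29_pi_mul D h y
    rw [hy, map_add, hy', F29_trace_one D]
    exact ⟨1 + Algebra.trace ℤ (𝓞 K) y', by ring⟩

theorem trace_mod4 (D : FD σ₂ e) (h : ((e : 𝓞 K) - 1) ^ 2 = 2) (y : 𝓞 K) :
    (4 : ℤ) ∣ Algebra.trace ℤ (𝓞 K) (1 + ((e : 𝓞 K) - 1) * y) - 2 := by
  obtain ⟨y', hy'⟩ := F29_pi_mul D h y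
  obtain ⟨t, ht⟩ := trace_even2 D h y'
  rw [map_add, hy', F29_trace_one D, ht]
  exact ⟨t, by ring⟩

theorem level_norm (D : FD σ₂ e) (h : ((e : 𝓞 K) - 1) ^ 2 = 2) {s : ℕ} (hs : 2 ≤ s) (y : 𝓞 K) :
    (2 : ℤ) ^ (s + 2) ∣
      Algebra.norm ℤ (1 + 2 ^ s * (1 + ((e : 𝓞 K) - 1) * y)) - (1 + 2 ^ (s + 1)) := by
  have h1 := norm_one_add D (2 ^ s) (1 + ((e : 𝓞 K) - 1) * y)
  push_cast at h1
  rw [h1]
  obtain ⟨t, ht⟩ := trace_mod4 D h y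
  obtain ⟨r, rfl⟩ : ∃ r, s = r + 2 := ⟨s - 2, by omega⟩
  refine ⟨t + 2 ^ r * Algebra.norm ℤ (1 + ((e : 𝓞 K) - 1) * y), ?_⟩
  have h2 : Algebra.trace ℤ (𝓞 K) (1 + ((e : 𝓞 K) - 1) * y) = 2 + 4 * t := by linarith
  rw [h2]
  ring

end Pool.Agent.STg.F
end
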