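import Pool.Agent.Lib.MP_1ef7cf_nt_g.Mg.G048
import Pool.Agent.Lib.MP_1ef7cf_nt_g.Mg.G028
import Pool.Agent.Lib.MP_1ef7cf_nt_g.Mg.G031
import Pool.Agent.Lib.MP_1ef7cf_nt_g.Mg.G059
import Pool.Agent.Lib.MP_1ef7cf_nt_g.Mg.G046
import Pool.Agent.Lib.MP_1ef7cf_nt_g.Mg.G044
import Pool.Agent.Lib.MP_1ef7cf_nt_g.Mg.G015

section

/-!
# The squares of the absolute values of the elliptic units are Galois functions
-/

open Complex

namespace Pool.Agent.STg

variable (D : LemData) (U : UD)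

lemma vv_mem_Nk {k J : ℕ} (hJ : k + 4 ≤ J) {α : GaussianInt} (hα : Prim α)
    (hαδ : IsCoprime α U.δ) (g : Gam k) : vv D U k J α g ∈ Nk U k := by
  refine mem_Nk_of_fixed U k (vv_mem_Qb D U (by omega) hα g) (fun h hI hA hz => ?_)
  have h1 := ap_vv D U hJ hα hαδ h hI (s := 1) (n := 1) odd_one (by rw [hA]; simp)
    (by rw [hz, pow_one]) g
  have h2 : ((1 : ℤˣ), nu k 1) = (1 : Gam k) := by
    rw [nu_one]
    rfl
  rw [h2, one_mul] at h1
  exact h1

lemma V5_norm_sq (v : ℂ) : ((‖v‖ ^ 2 : ℝ) : ℂ) = v * starRingEnd ℂ v := by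
  rw [Complex.mul_conj, Complex.normSq_eq_norm_sq]

lemma V5_norm_mem {k : ℕ} {v : ℂ} (hv : v ∈ Nk U k) : ‖v‖ ^ 2 ∈ Rk U k := by
  obtain ⟨h1, h2⟩ := re_im_mem U k hv
  rw [← Complex.normSq_eq_norm_sq, Complex.normSq_apply]
  exact add_mem (mul_mem h1 h1) (mul_mem h2 h2)

lemma V5_mem_Qb {k : ℕ} {v : ℂ} (hv : v ∈ Nk U k) : v ∈ Qb :=
  V4_L_le U k (re_im_mem U k hv)

/-- The action on `‖v‖ ^ 2 = v conj v`: `h (conj v) = conj (h' v)`, `h' = conj h conj`. -/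
lemma ap_norm_sq {k : ℕ} {v : ℂ} (hv : v ∈ Nk U k) {φ : Rk U k →+* ℂ} {h h' : Qb →+* ℂ}
    (hh : ∀ x : ℝ, x ∈ Rk U k → ap h (x : ℂ) = ap φ x)
    (hh' : ∀ x ∈ Qb, ap h' x = starRingEnd ℂ (ap h (starRingEnd ℂ x))) :
    ap φ (‖v‖ ^ 2) = ap h v * starRingEnd ℂ (ap h' v) := by
  have hvQ := V5_mem_Qb U hv
  rw [← hh _ (V5_norm_mem U hv), V5_norm_sq, ap_mul h hvQ (V4_conj_mem hvQ), hh' v hvQ,
    Complex.conj_conj]

lemma V5_coords {k : ℕ} {φ : Rk U k →+* ℂ} {h h' : Qb →+* ℂ} (hI : ap h I = I)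
    (hh : ∀ x : ℝ, x ∈ Rk U k → ap h (x : ℂ) = ap φ x)
    (hh' : ∀ x ∈ Qb, ap h' x = starRingEnd ℂ (ap h (starRingEnd ℂ x))) {n : ℕ} (hn : n % 4 = 1)
    (hc : ap φ (ck k) = (Real.cos (2 * Real.pi * n / 2 ^ k) : ℂ)) :
    ap h' I = I ∧ ap h (zk k) = zk k ^ n ∧ ap h' (zk k) = zk k ^ n := by
  have hI' : ap h' I = I := by
    have hIm : I ∈ Qb := V4_I_mem
    have h1 : ap h (-I) = -I := by
      have h2 := ap_sub h (zero_mem _) hIm
      rw [zero_sub, ap_zero, hI, zero_sub] at h2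
      exact h2
    rw [hh' I hIm, Complex.conj_I, h1, map_neg, Complex.conj_I, neg_neg]
  have hc1 : ap h (ck k : ℂ) = (Real.cos (2 * Real.pi * n / 2 ^ k) : ℂ) := by
    rw [hh _ (ck_mem U k), hc]
  have hc2 : ap h' (ck k : ℂ) = (Real.cos (2 * Real.pi * n / 2 ^ k) : ℂ) := by
    rw [hh' _ (V3c_ck_mem k), Complex.conj_ofReal, hc1, Complex.conj_ofReal]
  exact ⟨hI', ap_zk k h hI hn hc1, ap_zk k h' hI' hn hc2⟩

/-- **`‖vv‖ ^ 2` is a Galois function.** `gal`: extend `φ` to `h` (`exists_ext_Rk`), `h'` (`exists_conj`);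
both have coordinates `(s, n)` (`ap_A_first`, `ap_zk`; `h' i = i`, `h' (ck) = conj (h ck) = h ck`), so
`φ (‖vv g‖ ^ 2) = vv(g') conj (vv g') = ‖vv g'‖ ^ 2`, `g' = (s, nu n) g` (`ap_vv`). `abs`: `h`, `h'` have
the coordinates `(s, n)`, `(-s, n)` (`ap_A_second`, `exists_coord`), and `vv (zc g') = 1 / vv g'`
(`vv_zc`), so the absolute value of `vv(g') conj (1 / vv(g'))` is `1`. -/
theorem isGF_norm_sq {k J : ℕ} (hJ : k + 4 ≤ J) {α : GaussianInt} (hα : Prim α)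
    (hαδ : IsCoprime α U.δ) : IsGF U k (fun g => ‖vv D U k J α g‖ ^ 2) := by
  have hv := fun g => vv_mem_Nk D U hJ hα hαδ g
  have hA : U.A ∈ Qb := add_mem (V3c_r_mem U) (div_mem V4_I_mem (V3c_r_mem U))
  refine ⟨fun g => ?_, fun g => V5_norm_mem U (hv g), ?_, ?_⟩
  · exact pow_pos (norm_pos_iff.mpr (vv_ne_zero D U (by omega) hα hαδ g)) 2
  · intro φ s n hn hr hc g
    obtain ⟨h, hI, hh⟩ := exists_ext_Rk U k φ
    obtain ⟨h', hh'⟩ := exists_conj h
    obtain ⟨hI', hz, hz'⟩ := V5_coords U hI hh hh' hn hc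
    have hodd : Odd n := Nat.odd_iff.mpr (by omega)
    have hr1 : ap h (U.r : ℂ) = ((s : ℤ) : ℂ) * (U.r : ℂ) := by
      rw [hh _ (U.r_mem k), hr]
    obtain ⟨hA1, hA2⟩ := ap_A_first U h hI hr1
    rw [← hh' _ hA] at hA2
    have h1 := ap_vv D U hJ hα hαδ h hI hodd hA1 hz g
    have h2 := ap_vv D U hJ hα hαδ h' hI' hodd hA2 hz' g
    have h3 := ap_norm_sq U (hv g) hh hh'
    show ap φ (‖vv D U k J α g‖ ^ 2) = ((‖vv D U k J α ((s, nu k n) * g)‖ ^ 2 : ℝ) : ℂ)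
    rw [h3, h1, h2, V5_norm_sq]
  · intro φ he g
    obtain ⟨n, hn, hc⟩ := exists_coord U k φ
    obtain ⟨h, hI, hh⟩ := exists_ext_Rk U k φ
    obtain ⟨h', hh'⟩ := exists_conj h
    obtain ⟨hI', hz, hz'⟩ := V5_coords U hI hh hh' hn hc
    have hodd : Odd n := Nat.odd_iff.mpr (by omega)
    have hem : U.e ∈ Rk U k := by
      rw [← U.r_sq]
      exact pow_mem (U.r_mem k) 2
    have he1 : ap h (U.e : ℂ) = -((U.e : ℂ))⁻¹ := by
      rw [hh _ hem, he]
    obtain ⟨s, hA1, hA2⟩ := ap_A_second U h hI he1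
    rw [← hh' _ hA] at hA2
    have h1 := ap_vv D U hJ hα hαδ h hI hodd hA1 hz g
    have h2 := ap_vv D U hJ hα hαδ h' hI' hodd hA2 hz' g
    have h3 := ap_norm_sq U (hv g) hh hh'
    have h4 : ((-s, nu k n) * g : Gam k) = zc k * ((s, nu k n) * g) := by
      have h5 : ((-s, nu k n) : Gam k) = zc k * (s, nu k n) := by
        unfold zc
        rw [Prod.mk_mul_mk, one_mul, neg_one_mul]
      rw [h5, mul_assoc]
    have hne : vv D U k J α ((s, nu k n) * g) ≠ 0 :=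
      vv_ne_zero D U (by omega) hα hαδ _
    show ‖ap φ (‖vv D U k J α g‖ ^ 2)‖ = 1
    rw [h3, h1, h2, h4, vv_zc, norm_mul, Complex.norm_conj, norm_inv]
    exact mul_inv_cancel₀ (norm_ne_zero_iff.mpr hne)

end Pool.Agent.STg
end

section

/-!
# The squares and the quotients of the `xv`
-/

open Complex

namespace Pool.Agent.STg

variable {U : UD} {k : ℕ}

variable (D : LemData)

lemma exists_zc' (U : UD) (k : ℕ) : ∃ β : GaussianInt, Prim β ∧ IsCoprime β U.δ ∧ sM U k β = zc k := by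
  obtain ⟨α, h1, h2, h3, -⟩ := exists_zc U k (q := 1) isCoprime_one_left 0
  exact ⟨α, h1, h2, h3⟩

/-- `isGF_norm_sq` and `xv_vv` -/
lemma isGF_quot {J : ℕ} (hJ : k + 4 ≤ J) {α : GaussianInt} (hα : Prim α)
    (hαδ : IsCoprime α U.δ) :
    IsGF U k (fun g => xv D U k J (sM U k α * g) * (xv D U k J g ^ gN α)⁻¹) := by
  have h1 := isGF_norm_sq D U hJ hα hαδ
  have h2 : (fun g => xv D U k J (sM U k α * g) * (xv D U k J g ^ gN α)⁻¹) =
      fun g => ‖vv D U k J α g‖ ^ 2 := by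
    funext g
    rw [xv_vv D U hJ hα hαδ (exists_zc' U k) g]
    have h3 := (pow_pos (xv_pos D U (k := k) (J := J) g) (gN α)).ne'
    field_simp
  rw [h2]
  exact h1

/-- for `sM α = zc`: `xv g ^ (1 + N(α))` is a Galois function (`isGF_quot`, `xv_zc`, inverse) -/
lemma isGF_pow_zc {J : ℕ} (hJ : k + 4 ≤ J) {α : GaussianInt} (hα : Prim α)
    (hαδ : IsCoprime α U.δ) (hz : sM U k α = zc k) :
    IsGF U k (fun g => xv D U k J g ^ (1 + gN α)) := by
  have h1 := (isGF_quot D hJ hα hαδ).inv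
  have h2 : (fun g => (xv D U k J (sM U k α * g) * (xv D U k J g ^ gN α)⁻¹)⁻¹) =
      fun g => xv D U k J g ^ (1 + gN α) := by
    funext g
    rw [hz, xv_zc, ← mul_inv, inv_inv, pow_add, pow_one]
  rw [h2] at h1
  exact h1

/-- **Squares.** The integers `n` such that `xv ^ n` is a Galois function form a subgroup `d ℤ` of `ℤ`
(`IsGF.mul`, `IsGF.inv`, `isGF_one`). It contains `1 + N(α)` for all `α` with `sM α = zc`. For one
such `α`: `1 + N(α) = 2` modulo `4` (`Prim.gN_mod`), so `4 ∤ d`. Let `l` be an odd prime and `q ∣ l` a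
Gaussian prime not dividing `2 δ` (`exists_prime_over`); choose `α` with `sM α = zc` and `q ∣ α`
(`exists_zc` with `c = 0`): then `l ∣ N(α)`, so `l ∤ 1 + N(α)`, `l ∤ d`. Hence `d ∣ 2`. -/
theorem isGF_sq {J : ℕ} (hJ : k + 4 ≤ J) : IsGF U k (fun g => xv D U k J g ^ 2) := by
  let H : AddSubgroup ℤ :=
    { carrier := {n | IsGF U k (fun g => xv D U k J g ^ n)}
      add_mem' := by
        intro a b ha hb
        have h1 := IsGF.mul ha hb
        have h2 : (fun g => xv D U k J g ^ (a + b)) =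
            fun g => xv D U k J g ^ a * xv D U k J g ^ b := by
          funext g
          rw [zpow_add₀ (xv_pos D U g).ne']
        show IsGF U k (fun g => xv D U k J g ^ (a + b))
        rw [h2]
        exact h1
      zero_mem' := by
        show IsGF U k (fun g => xv D U k J g ^ (0 : ℤ))
        simp only [zpow_zero]
        exact isGF_one
      neg_mem' := by
        intro a ha
        have h1 := IsGF.inv ha
        have h2 : (fun g => xv D U k J g ^ (-a)) = fun g => (xv D U k J g ^ a)⁻¹ := by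
          funext g
          rw [zpow_neg]
        show IsGF U k (fun g => xv D U k J g ^ (-a))
        rw [h2]
        exact h1 }
  have hH : ∀ n : ℤ, n ∈ H ↔ IsGF U k (fun g => xv D U k J g ^ n) := fun n => Iff.rfl
  obtain ⟨d, hd⟩ := Int.subgroup_cyclic H
  have hdH : ∀ n : ℤ, n ∈ H ↔ d ∣ n := by
    intro n
    rw [hd, ← AddSubgroup.zmultiples_eq_closure, Int.mem_zmultiples_iff]
  have hα : ∀ α : GaussianInt, Prim α → IsCoprime α U.δ → sM U k α = zc k →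
      d.natAbs ∣ 1 + gN α := by
    intro α h1 h2 h3
    have h4 : (((1 + gN α : ℕ)) : ℤ) ∈ H := by
      rw [hH]
      simp only [zpow_natCast]
      exact isGF_pow_zc D hJ h1 h2 h3
    rw [hdH] at h4
    exact Int.natAbs_dvd_natAbs.mpr h4
  obtain ⟨α₀, hα₀, hα₀δ, hα₀z⟩ := exists_zc' U k
  have hm0 : d.natAbs ≠ 0 := by
    intro h0
    have h1 := hα α₀ hα₀ hα₀δ hα₀z
    rw [h0, zero_dvd_iff] at h1
    omega
  have hodd : ∀ l : ℕ, l.Prime → l ≠ 2 → ¬ l ∣ d.natAbs := by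
    intro l hl hl2 hld
    obtain ⟨q, hq, hql, hq2⟩ := exists_prime_over U hl hl2
    obtain ⟨α, h1, h2, h3, h4⟩ := exists_zc U k (q := q)
      (hq.coprime_iff_not_dvd.mpr hq2) 0
    rw [sub_zero] at h4
    have h5 : gN q ∣ gN α := R5d_dvd_gN h4
    have h6 : gN q ∣ l ^ 2 := by
      rw [← R5d_gN_natCast l]
      exact R5d_dvd_gN hql
    have h7 : gN q ≠ 1 := fun h => hq.not_isUnit (R5d_unit h)
    have h8 : l ∣ gN q := by
      obtain ⟨j, hj, hj'⟩ := (Nat.dvd_prime_pow hl).mp h6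
      have hj0 : j ≠ 0 := by
        intro h0
        rw [h0, pow_zero] at hj'
        exact h7 hj'
      rw [hj']
      exact dvd_pow_self l hj0
    have h9 : l ∣ 1 + gN α := hld.trans (hα α h1 h2 h3)
    have h10 : l ∣ 1 := (Nat.dvd_add_left (h8.trans h5)).mp h9
    exact hl.one_lt.ne' (Nat.dvd_one.mp h10)
  have h2 : d.natAbs ∣ 2 := by
    obtain ⟨a, m, hm, hdm⟩ := Nat.exists_eq_two_pow_mul_odd hm0
    have hm1 : m = 1 := by
      by_contra hne
      obtain ⟨l, hl, hlm⟩ := Nat.exists_prime_and_dvd hne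
      refine hodd l hl ?_ (hdm ▸ hlm.mul_left _)
      rintro rfl
      exact (Nat.not_even_iff_odd.mpr hm) (even_iff_two_dvd.mpr hlm)
    have ha : a < 2 := by
      by_contra hge
      have h4 : 4 ∣ d.natAbs := by
        rw [hdm]
        have h5 : (4 : ℕ) = 2 ^ 2 := rfl
        rw [h5]
        exact (pow_dvd_pow 2 (by omega)).mul_right m
      have h6 := h4.trans (hα α₀ hα₀ hα₀δ hα₀z)
      have h7 := hα₀.gN_mod
      omega
    rw [hdm, hm1, mul_one]
    have h8 : (2 : ℕ) ^ a ∣ 2 ^ 1 := pow_dvd_pow 2 (by omega)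
    rwa [pow_one] at h8
  have h3 : (2 : ℤ) ∈ H := by
    rw [hdH]
    exact Int.natAbs_dvd_natAbs.mp (by simpa using h2)
  rw [hH] at h3
  have h4 : (fun g => xv D U k J g ^ (2 : ℤ)) = fun g => xv D U k J g ^ 2 := by
    funext g
    exact zpow_natCast _ 2
  rw [h4] at h3
  exact h3

/-- **Quotients**: `xv (sM α g) / xv g = (xv (sM α g) / xv g ^ N(α)) (xv g ^ 2) ^ ((N(α) - 1) / 2)`. -/
theorem isGF_ratio {J : ℕ} (hJ : k + 4 ≤ J) {α : GaussianInt} (hα : Prim α)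
    (hαδ : IsCoprime α U.δ) :
    IsGF U k (fun g => xv D U k J (sM U k α * g) / xv D U k J g) := by
  have h1 := (isGF_quot D hJ hα hαδ).mul ((isGF_sq (U := U) (k := k) D hJ).pow ((gN α - 1) / 2))
  have h2 : (fun g => xv D U k J (sM U k α * g) / xv D U k J g) =
      fun g => xv D U k J (sM U k α * g) * (xv D U k J g ^ gN α)⁻¹ *
        (xv D U k J g ^ 2) ^ ((gN α - 1) / 2) := by
    funext g
    have h3 := hα.gN_mod
    obtain ⟨m, hm⟩ : ∃ m, gN α = 2 * m + 1 := ⟨(gN α - 1) / 2, by omega⟩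
    have h4 : (gN α - 1) / 2 = m := by omega
    rw [h4, hm, pow_succ, pow_mul]
    have h5 := (xv_pos D U (k := k) (J := J) g).ne'
    field_simp
  rw [h2]
  exact h1

end Pool.Agent.STg
end
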