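import Pool.Agent.Lib.MP_1ef7cf_nt_g.Mg.G058
import Pool.Agent.Lib.MP_1ef7cf_nt_g.U2b
import Pool.Agent.Lib.MP_1ef7cf_nt_g.Mg.G031
import Pool.Agent.Lib.MP_1ef7cf_nt_g.Mg.G062

section

/-!
# Change of the level `k`: descent of Galois functions
-/

open Complex

namespace Pool.Agent.STg

variable (U : UD)

/-- **Descent.** `mem`: `y (pr g)` is fixed by the embeddings over `Rk U k` (`exists_coord`,
`ap_ck_succ`, `nu_eq_of_cos`: `pr (1, nu n) = 1`), use `mem_Rk_of_fixed`. `gal`, `abs`: extend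
`φ` (`exists_ext_succ`), `exists_coord`, `nu_eq_of_cos`. -/
theorem isGF_down {k : ℕ} {y : Gam k → ℝ} (h : IsGF U (k + 1) (fun g => y (pr k g))) :
    IsGF U k y := by
  have hodd : ∀ {n : ℕ}, n % 4 = 1 → Odd n := fun hn => Nat.odd_iff.mpr (by omega)
  have hmem : ∀ g, y g ∈ Rk U k := by
    intro g
    obtain ⟨g', rfl⟩ := pr_surjective k g
    refine mem_Rk_of_fixed U (h.mem g') ?_
    intro φ' hφ'
    obtain ⟨n, hn, hc⟩ := exists_coord U (k + 1) φ'
    have h1 := ap_ck_succ U φ' hc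
    rw [hφ' _ (ck_mem U k)] at h1
    have h2 : Real.cos (2 * Real.pi * n / 2 ^ k) = Real.cos (2 * Real.pi * (1 : ℕ) / 2 ^ k) := by
      have h3 : ck k = Real.cos (2 * Real.pi * n / 2 ^ k) := by exact_mod_cast h1
      rw [← h3]
      unfold ck
      simp
    have h4 : nu k n = 1 := by
      rw [nu_eq_of_cos hn (by norm_num) h2, nu_one]
    have h5 := h.gal φ' 1 n hn (by
      rw [hφ' _ (UD.r_mem U k)]
      simp) hc g'
    rw [map_mul, pr_mk (hodd hn), h4] at h5
    have h6 : ((1 : ℤˣ), (1 : (ZMod (2 ^ k))ˣ)) = 1 := rfl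
    rw [h6, one_mul] at h5
    exact h5
  refine ⟨?_, hmem, ?_, ?_⟩
  · intro g
    obtain ⟨g', rfl⟩ := pr_surjective k g
    exact h.pos g'
  · intro φ s n hn hr hc g
    obtain ⟨g', rfl⟩ := pr_surjective k g
    obtain ⟨φ', hφ'⟩ := exists_ext_succ U φ
    obtain ⟨n', hn', hc'⟩ := exists_coord U (k + 1) φ'
    have h1 := ap_ck_succ U φ' hc'
    rw [hφ' _ (ck_mem U k), hc] at h1
    have h2 : Real.cos (2 * Real.pi * n / 2 ^ k) = Real.cos (2 * Real.pi * n' / 2 ^ k) := by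
      exact_mod_cast h1
    have h4 : nu k n = nu k n' := nu_eq_of_cos hn hn' h2
    have h5 := h.gal φ' s n' hn' (by rw [hφ' _ (UD.r_mem U k), hr]) hc' g'
    rw [map_mul, pr_mk (hodd hn'), ← h4] at h5
    rw [← hφ' _ (hmem (pr k g'))]
    exact h5
  · intro φ he g
    obtain ⟨g', rfl⟩ := pr_surjective k g
    obtain ⟨φ', hφ'⟩ := exists_ext_succ U φ
    have h1 : U.e ∈ Rk U k := by
      rw [← UD.r_sq]
      exact (Rk U k).pow_mem (UD.r_mem U k) 2
    have h2 := h.abs φ' (by rw [hφ' _ h1, he]) g'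
    rw [← hφ' _ (hmem (pr k g'))]
    exact h2

end Pool.Agent.STg
end

section

/-!
# The numbers `xv` form a Galois function
-/

open Complex

namespace Pool.Agent.STg

variable (D : LemData) (U : UD)

/-- `xv (pr g) = xv g xv (γ' g) = (xv g ^ 2) (xv (γ' g) / xv g)`, `γ' = gam' k = sM α`
(`exists_gam`, `isGF_sq`, `isGF_ratio`) and `isGF_down`. -/
theorem isGF_xv {k J : ℕ} (hk : 6 ≤ k) (hJ : k + 5 ≤ J) : IsGF U k (xv D U k J) := by
  refine isGF_down U ?_
  obtain ⟨α, hα, hαδ, hs⟩ := exists_gam U hk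
  have h1 : IsGF U (k + 1) (fun g => xv D U (k + 1) J g ^ 2) := isGF_sq D (by omega)
  have h2 := isGF_ratio (U := U) (k := k + 1) D (J := J) (by omega) hα hαδ
  have h3 := h1.mul h2
  have h4 : (fun g => xv D U k J (pr k g)) = (fun g => xv D U (k + 1) J g ^ 2 *
      (xv D U (k + 1) J (sM U (k + 1) α * g) / xv D U (k + 1) J g)) := by
    funext g
    rw [xv_pr D U (by omega : 1 ≤ k) J g, hs]
    have h5 : xv D U (k + 1) J g ≠ 0 := (Real.exp_pos _).ne'
    unfold gam'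
    field_simp
  rw [h4]
  exact h3

end Pool.Agent.STg
end
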