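import Pool.Agent.Lib.MP_1ef7cf_nt_g.Mg.G050
import Pool.Agent.Lib.MP_1ef7cf_nt_h.Mg.G002
import Pool.Agent.Lib.MP_1ef7cf_nt_g.Mg.G028
import Pool.Agent.Lib.MP_1ef7cf_nt_g.Mg.G019
import Pool.Agent.Lib.MP_1ef7cf_nt_g.Mg.G029
import Pool.Agent.Lib.MP_1ef7cf_nt_g.Mg.G040

section

/-!
# The fields `K(√e, cos (2 π / 2 ^ k))` and `Rk`
-/

open NumberField IsDedekindDomain Pool.Agent.ST IntermediateField

namespace Pool.Agent.STg

open Pool.Agent.STg.F

variable {K : Type*} [Field K] [NumberField K] [Algebra K ℝ] {σ₂ : K →+* ℝ} {e : (𝓞 K)ˣ}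

private lemma Z1a_sq (D : FD σ₂ e) : (algebraMap K ℝ ((e : 𝓞 K) : K)) ^ 2 =
    (tre e : ℝ) * algebraMap K ℝ ((e : 𝓞 K) : K) + 1 := by
  have h1 := congrArg (fun x : 𝓞 K => algebraMap K ℝ (x : K)) (Pool.Agent.STg.F.e_sq D)
  simpa using h1

/-- `e > 0`, `e ^ 2 = T e + 1` -/
lemma e_eq (D : FD σ₂ e) (U : UD) (hT : U.T = tre e) : algebraMap K ℝ ((e : 𝓞 K) : K) = U.e := by
  have h1 := Z1a_sq D
  have h2 := D.pos
  have h3 := UD.e_sq U
  have h4 := UD.e_pos U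
  rw [hT] at h3
  set x : ℝ := algebraMap K ℝ ((e : 𝓞 K) : K)
  have h5 : (x - U.e) * (x + U.e - (tre e : ℝ)) = 0 := by linear_combination h1 - h3
  rcases mul_eq_zero.1 h5 with h6 | h6
  · linarith
  · exfalso
    have h7 : x * U.e = -1 := by
      have h8 : x = (tre e : ℝ) - U.e := by linarith
      rw [h8]
      linear_combination -h3
    have h9 := mul_pos h2 h4
    linarith

lemma se_eq (D : FD σ₂ e) (U : UD) (hT : U.T = tre e) : se e = U.r := by
  unfold se UD.r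
  rw [e_eq D U hT]

/-- `T ≠ 0`: otherwise `e ^ 2 = 1`, `e = 1` which has norm `1`. -/
lemma tre_ne_zero (D : FD σ₂ e) : tre e ≠ 0 := by
  intro h0
  have h1 := Z1a_sq D
  have h2 := D.pos
  rw [h0] at h1
  have h3 : algebraMap K ℝ ((e : 𝓞 K) : K) = 1 := by
    have h4 : (algebraMap K ℝ ((e : 𝓞 K) : K)) ^ 2 = 1 ^ 2 := by
      rw [h1]
      simp
    exact (pow_left_inj₀ h2.le zero_le_one two_ne_zero).1 h4
  have h5 : ((e : 𝓞 K) : K) = 1 := by
    apply (algebraMap K ℝ).injective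
    rw [h3, map_one]
  have h6 := D.nrm
  rw [h3, h5, map_one] at h6
  norm_num at h6

/-- `K = ℚ(e)`: `e` is not rational (its norm is `-1` and `e > 0`, `e` rational would give `e = ± 1` with norm
`1`), and `K` is quadratic. -/
lemma mem_adjoin_e (D : FD σ₂ e) (U : UD) (hT : U.T = tre e) (a : K) :
    algebraMap K ℝ a ∈ IntermediateField.adjoin ℚ {U.e} := by
  have hfin : (Module.finrank ℚ K).Prime := by
    rw [D.deg]
    exact Nat.prime_two
  have hsimple := IntermediateField.isSimpleOrder_of_finrank_prime ℚ K hfin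
  have htop : IntermediateField.adjoin ℚ {((e : 𝓞 K) : K)} = ⊤ := by
    rcases hsimple.eq_bot_or_eq_top (IntermediateField.adjoin ℚ {((e : 𝓞 K) : K)}) with h1 | h1
    · exfalso
      have h2 : ((e : 𝓞 K) : K) ∈ (⊥ : IntermediateField ℚ K) := by
        rw [← h1]
        exact IntermediateField.mem_adjoin_simple_self ℚ _
      obtain ⟨q, hq⟩ := IntermediateField.mem_bot.1 h2
      have h3 := D.nrm
      have h4 := D.pos
      rw [← hq] at h3 h4
      rw [eq_ratCast, map_ratCast, map_ratCast] at h3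
      rw [eq_ratCast, map_ratCast] at h4
      have h5 : (0 : ℝ) < (q : ℝ)⁻¹ := inv_pos.2 h4
      linarith
    · exact h1
  have h1 : a ∈ IntermediateField.adjoin ℚ {((e : 𝓞 K) : K)} := by
    rw [htop]
    exact IntermediateField.mem_top
  have h2 : (IsScalarTower.toAlgHom ℚ K ℝ) a ∈
      (IntermediateField.adjoin ℚ {((e : 𝓞 K) : K)}).map (IsScalarTower.toAlgHom ℚ K ℝ) :=
    ⟨a, h1, rfl⟩
  rw [IntermediateField.adjoin_map, Set.image_singleton] at h2
  rw [← e_eq D U hT]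
  exact h2

/-- The two descriptions of the field. -/
theorem mem_Lf_iff (D : FD σ₂ e) (U : UD) (hT : U.T = tre e) (k : ℕ) (x : ℝ) :
    x ∈ Lf e k ↔ x ∈ Rk U k := by
  have hr : U.r ∈ Rk U k := UD.r_mem U k
  have hc : ck k ∈ Rk U k := ck_mem U k
  have he : U.e ∈ Rk U k := by
    rw [← UD.r_sq U]
    exact pow_mem hr 2
  have hle : IntermediateField.adjoin ℚ {U.e} ≤ Rk U k :=
    IntermediateField.adjoin_le_iff.2 (Set.singleton_subset_iff.2 he)
  have hK : ∀ a : K, algebraMap K ℝ a ∈ (Rk U k).toSubfield :=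
    fun a => hle (mem_adjoin_e D U hT a)
  constructor
  · intro hx
    have h1 : Lf e k ≤ (Rk U k).toSubfield.toIntermediateField hK := by
      refine sup_le ?_ ?_
      · refine IntermediateField.adjoin_le_iff.2 (Set.singleton_subset_iff.2 ?_)
        change se e ∈ Rk U k
        rw [se_eq D U hT]
        exact hr
      · refine IntermediateField.adjoin_le_iff.2 (Set.singleton_subset_iff.2 ?_)
        exact hc
    exact h1 hx
  · intro hx
    have h1 : Rk U k ≤ (Lf e k).restrictScalars ℚ := by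
      refine IntermediateField.adjoin_le_iff.2 ?_
      rintro y (rfl | rfl)
      · change U.r ∈ Lf e k
        rw [← se_eq D U hT]
        exact se_mem e k
      · exact cos_mem e k
    exact h1 hx

end Pool.Agent.STg
end

section

/-!
# The character of `e`
-/

open NumberField IsDedekindDomain

namespace Pool.Agent.STg

open Pool.Agent.STg.F

variable {K : Type*} [Field K] [NumberField K] [Algebra K ℝ] {σ₂ : K →+* ℝ} {e : (𝓞 K)ˣ}

/-- The character of `e` on the ideals: `chiI e` on the ideals prime to `2`, and `0` on the others. -/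
noncomputable def chiK (e : (𝓞 K)ˣ) (I : Ideal (𝓞 K)) : ℤ :=
  open Classical in if IsCoprime I (Ideal.span {(2 : 𝓞 K)}) then chiI e I else 0

lemma cm_chiK (e : (𝓞 K)ˣ) : CM (chiK e) := by
  classical
  refine ⟨?_, fun I J hI hJ => ?_⟩
  · have h1 : IsCoprime (⊤ : Ideal (𝓞 K)) (Ideal.span {(2 : 𝓞 K)}) := by
      rw [← Ideal.one_eq_top]
      exact isCoprime_one_left
    unfold chiK
    rw [if_pos h1, chiI_top]
  · unfold chiK
    by_cases h1 : IsCoprime I (Ideal.span {(2 : 𝓞 K)})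
    · by_cases h2 : IsCoprime J (Ideal.span {(2 : 𝓞 K)})
      · rw [if_pos (h1.mul_left h2), if_pos h1, if_pos h2, chiI_mul e hI hJ]
      · rw [if_neg fun h3 => h2 (IsCoprime.mul_left_iff.mp h3).2, if_neg h2, mul_zero]
    · rw [if_neg fun h3 => h1 (IsCoprime.mul_left_iff.mp h3).1, if_neg h1, zero_mul]

lemma chiK_two (e : (𝓞 K)ˣ) (P : HeightOneSpectrum (𝓞 K)) (h : (2 : 𝓞 K) ∈ P.asIdeal) :
    chiK e P.asIdeal = 0 := by
  classical
  unfold chiK
  refine if_neg fun h1 => ?_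
  rw [Ideal.isCoprime_iff_sup_eq, sup_eq_left.mpr ((Ideal.span_singleton_le_iff_mem _).mpr h)] at h1
  exact P.isPrime.ne_top h1

lemma chiK_odd (e : (𝓞 K)ˣ) (P : HeightOneSpectrum (𝓞 K)) (h : (2 : 𝓞 K) ∉ P.asIdeal) :
    chiK e P.asIdeal = chiP e P.asIdeal := by
  classical
  unfold chiK
  rw [if_pos, chiI_prime]
  rw [Ideal.isCoprime_iff_sup_eq]
  refine (P.isMaximal).1.2 _ (lt_of_le_of_ne le_sup_left fun h1 => h ?_)
  rw [h1]
  exact Ideal.mem_sup_right (Ideal.mem_span_singleton_self _)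

/-- `w = (2 e - T) / N(γ)`: `(2 e - T) ^ 2 = T ^ 2 + 4 = N(T + 2 i) = N(δ) N(γ) ^ 2`; `w` is
integral because `w ^ 2 = N(δ)`. -/
lemma exists_w (D : FD σ₂ e) (U : UD) (hT : U.T = tre e) : ∃ w : 𝓞 K,
    w ^ 2 = ((gN U.δ : ℕ) : 𝓞 K) ∧ w * ((gN U.γ : ℕ) : 𝓞 K) = 2 * (e : 𝓞 K) - (U.T : 𝓞 K) := by
  have hN : ∀ a : GaussianInt, ((gN a : ℕ) : ℤ) = a.norm := fun a => by
    unfold gN
    exact Int.natAbs_of_nonneg (GaussianInt.norm_nonneg a)
  have hfac : ((gN U.δ : ℕ) : ℤ) * ((gN U.γ : ℕ) : ℤ) ^ 2 = U.T ^ 2 + 4 := by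
    have h1 := congrArg Zsqrtd.norm U.fac
    rw [Zsqrtd.norm_mul, pow_two, Zsqrtd.norm_mul, ← hN U.γ, ← hN U.δ] at h1
    rw [Zsqrtd.norm_def] at h1
    linear_combination -h1
  have hγ : gN U.γ ≠ 0 := by
    intro h0
    rw [h0] at hfac
    have h1 : (0 : ℤ) < U.T ^ 2 + 4 := by positivity
    rw [← hfac] at h1
    simp at h1
  have hγK : ((gN U.γ : ℕ) : K) ≠ 0 := Nat.cast_ne_zero.mpr hγ
  have hfacO : ((gN U.δ : ℕ) : 𝓞 K) * ((gN U.γ : ℕ) : 𝓞 K) ^ 2 = (U.T : 𝓞 K) ^ 2 + 4 := by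
    exact_mod_cast congrArg (fun z : ℤ => (z : 𝓞 K)) hfac
  have hsq : (2 * (e : 𝓞 K) - (U.T : 𝓞 K)) ^ 2 =
      ((gN U.δ : ℕ) : 𝓞 K) * ((gN U.γ : ℕ) : 𝓞 K) ^ 2 := by
    rw [hfacO]
    have h1 := e_sq D
    rw [← hT] at h1
    linear_combination 4 * h1
  have hsqK : (((2 * (e : 𝓞 K) - (U.T : 𝓞 K) : 𝓞 K) : K)) ^ 2 =
      ((gN U.δ : ℕ) : K) * ((gN U.γ : ℕ) : K) ^ 2 := by
    have h1 := congrArg (algebraMap (𝓞 K) K) hsq
    rw [map_pow, map_mul, map_pow, map_natCast, map_natCast] at h1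
    exact h1
  have hw2 : (((2 * (e : 𝓞 K) - (U.T : 𝓞 K) : 𝓞 K) : K) / ((gN U.γ : ℕ) : K)) ^ 2 =
      ((gN U.δ : ℕ) : K) := by
    rw [div_pow, hsqK, mul_div_cancel_right₀ _ (pow_ne_zero 2 hγK)]
  have hint : IsIntegral ℤ (((2 * (e : 𝓞 K) - (U.T : 𝓞 K) : 𝓞 K) : K) / ((gN U.γ : ℕ) : K)) := by
    refine IsIntegral.of_pow (n := 2) two_pos ?_
    rw [hw2]
    have h1 : IsIntegral ℤ (algebraMap ℤ K ((gN U.δ : ℕ) : ℤ)) := isIntegral_algebraMap
    rw [eq_intCast, Int.cast_natCast] at h1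
    exact h1
  obtain ⟨w, hw⟩ := (IsIntegralClosure.isIntegral_iff (R := ℤ) (A := 𝓞 K) (B := K)).mp hint
  refine ⟨w, ?_, ?_⟩
  · apply RingOfIntegers.coe_injective
    rw [map_pow, map_natCast, hw]
    exact hw2
  · apply RingOfIntegers.coe_injective
    rw [map_mul, map_natCast, hw]
    exact div_mul_cancel₀ _ hγK

end Pool.Agent.STg
end
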