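import Pool.Agent.Lib.MP_1ef7cf_nt_g.Mg.G019
import Pool.Agent.Lib.MP_1ef7cf_nt_g.Mg.G052
import Pool.Agent.Lib.MP_1ef7cf_nt_g.Mg.G027
import Pool.Agent.Lib.MP_1ef7cf_nt_g.Mg.G028

section

set_option autoImplicit false

open NumberField IsDedekindDomain nonZeroDivisors IntermediateField

namespace Pool.Agent.STg.F

open Pool.Agent.ST

variable {K : Type*} [Field K] [NumberField K] [Algebra K ℝ] {σ₂ : K →+* ℝ} {e : (𝓞 K)ˣ}

lemma F20_act_int {H : IntermediateField K ℝ} (σ : H ≃ₐ[K] H) (n : ℤ) {x : ℝ} (hx : x ∈ H) :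
    act σ ((n : ℝ) * x) = n * act σ x := by
  have h1 : ((n : ℝ)) = algebraMap K ℝ (n : K) := by simp
  rw [h1, act_mul σ (H.algebraMap_mem _) hx, act_algebraMap]

/-- TASK F20 (coordinates of the Artin symbol of an ideal).
PROOF. First `art_prime` for a prime `v` with `J = v`: `¬ v ∣ m` (`coprime_of_mem_primeTo`, `coprime_prime_iff`), so `2 ∉ v` (`hm`). There is a prime `P` of `𝓞 H` above `v` (`exists_ovr`: `hA.finite`, `numberField_of_fd`; `und K P = v` means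
`P.asIdeal.under (𝓞 K) = v.asIdeal`), `(hA.frob v J hJ P.asIdeal _).2` is the hypothesis `hφ` of `frob_sqrt` (F17) and `frob_cos` (F18).
`art_coords`: `ideal_induction` (F04) with this `m` for the property: for all `J : primeTo m` with `J = I` the two formulas hold. `I = ⊤`: `J = 1` (`FractionalIdeal.coeIdeal_top`, `Subtype.ext`, `Units.ext`), `cls 1 = 1`, `Art 1 = 1`, `act_one_left`, `chiI_top`,
`absNorm ⊤ = 1`. Step `v * I`: let `Jv := prJ m v hv` (RCF.lean) and `J' := J * Jv⁻¹` (then `J' = I` as fractional ideals: `FractionalIdeal.coeIdeal_mul`, cancel), so `cls J = cls Jv * cls J'`,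
`act_comp`; `act (Art (cls Jv)) (act (Art (cls J')) (se e)) = act (Art (cls Jv)) (chiI e I * se e)` (`chiI e I` is an integer: `act_mul`, `act_algebraMap` for the integer; or `chiI_sq` and `act_neg`),
and for the cosine: `act (Art (cls Jv)) (cos (2 π N(I) / 2 ^ k)) = cos (2 π N(v) N(I) / 2 ^ k)` by `act_cos_mul` (F19), `map_mul absNorm`. -/
theorem art_prime (D : FD σ₂ e) {m : Ideal (𝓞 K)} (hm : Above m) {H : IntermediateField K ℝ}
    {Art : RayClassGroup σ₂ m ≃* (H ≃ₐ[K] H)} (hA : IsRayClassField σ₂ m H Art) {k : ℕ}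
    (hs : se e ∈ H) (hk : Real.cos (2 * Real.pi / 2 ^ k) ∈ H) (v : HeightOneSpectrum (𝓞 K))
    (J : primeTo (K := K) m) (hJ : ((J : (FI K)ˣ) : FI K) = v.asIdeal) :
    act (Art (cls σ₂ m J)) (se e) = (chiP e v.asIdeal : ℝ) * se e ∧
    act (Art (cls σ₂ m J)) (Real.cos (2 * Real.pi / 2 ^ k)) =
      Real.cos (2 * Real.pi * (Ideal.absNorm v.asIdeal : ℕ) / 2 ^ k) := by
  haveI := hA.finite
  haveI := hA.galois
  haveI := numberField_of_fd H
  have hv : ¬ v.asIdeal ∣ m := coprime_prime_iff.1 (coprime_of_mem_primeTo hJ J.2)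
  have h2 : (2 : 𝓞 K) ∉ v.asIdeal := fun h => hv (hm v h)
  obtain ⟨P, hP⟩ := exists_ovr (K := K) (L := H) v
  haveI := P.isPrime
  have hPv : P.asIdeal.under (𝓞 K) = v.asIdeal := by rw [← hP]; rfl
  have hf := (hA.frob v J hJ P.asIdeal hPv).2
  exact ⟨frob_sqrt D H hs v h2 P.asIdeal hPv _ hf, frob_cos H hk v h2 P.asIdeal hPv _ hf⟩

theorem art_coords (D : FD σ₂ e) {m : Ideal (𝓞 K)} (hm : Above m) {H : IntermediateField K ℝ}
    {Art : RayClassGroup σ₂ m ≃* (H ≃ₐ[K] H)} (hA : IsRayClassField σ₂ m H Art) {k : ℕ}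
    (hs : se e ∈ H) (hk : Real.cos (2 * Real.pi / 2 ^ k) ∈ H) (I : Ideal (𝓞 K)) (hI : I ≠ ⊥)
    (J : primeTo (K := K) m) (hJ : ((J : (FI K)ˣ) : FI K) = (I : FI K)) :
    act (Art (cls σ₂ m J)) (se e) = (chiI e I : ℝ) * se e ∧
    act (Art (cls σ₂ m J)) (Real.cos (2 * Real.pi / 2 ^ k)) =
      Real.cos (2 * Real.pi * (Ideal.absNorm I : ℕ) / 2 ^ k) := by
  have hmain := ideal_induction (m := m)
    (p := fun I => ∀ J : primeTo (K := K) m, ((J : (FI K)ˣ) : FI K) = (I : FI K) →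
      act (Art (cls σ₂ m J)) (se e) = (chiI e I : ℝ) * se e ∧
      act (Art (cls σ₂ m J)) (Real.cos (2 * Real.pi / 2 ^ k)) =
        Real.cos (2 * Real.pi * (Ideal.absNorm I : ℕ) / 2 ^ k)) ?_ ?_ I hI
      (coprime_of_mem_primeTo hJ J.2) J hJ
  · exact hmain
  · intro J hJ
    have h1 : J = 1 := by
      apply Subtype.ext
      apply Units.ext
      rw [hJ]
      simp
    rw [h1, map_one, map_one, act_one_left hs, act_one_left hk, chiI_top, ← Ideal.one_eq_top,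
      map_one]
    simp
  · intro v I hv hI hIc ih J hJ
    set Jv := prJ (K := K) m v hv with hJv
    have hJ' : (((J * Jv⁻¹ : primeTo (K := K) m) : (FI K)ˣ) : FI K) = (I : FI K) := by
      rw [Subgroup.coe_mul, Subgroup.coe_inv, Units.val_mul, hJ, FractionalIdeal.coeIdeal_mul,
        mul_comm (v.asIdeal : FI K), mul_assoc]
      have : (v.asIdeal : FI K) * (((Jv : (FI K)ˣ)⁻¹ : (FI K)ˣ) : FI K) = 1 := by
        have h3 : ((Jv : (FI K)ˣ) : FI K) = v.asIdeal := coe_prJ m v hv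
        rw [← h3, ← Units.val_mul, mul_inv_cancel, Units.val_one]
      rw [this, mul_one]
    obtain ⟨g1, g2⟩ := ih (J * Jv⁻¹) hJ'
    obtain ⟨f1, f2⟩ := art_prime D hm hA hs hk v Jv (coe_prJ m v hv)
    have hcls : cls σ₂ m J = cls σ₂ m Jv * cls σ₂ m (J * Jv⁻¹) := by
      rw [← map_mul]
      congr 1
      rw [mul_comm J, ← mul_assoc, mul_inv_cancel, one_mul]
    rw [hcls, map_mul]
    refine ⟨?_, ?_⟩
    · rw [act_comp _ _ hs, g1, F20_act_int _ _ hs, f1, chiI_mul e v.ne_bot hI, chiI_prime]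
      push_cast
      ring
    · rw [act_comp _ _ hk, g2, act_cos_mul hk _ f2, map_mul]

end Pool.Agent.STg.F
end

section

/-!
# The integral ideals in the classes with given coordinates
-/

open NumberField IsDedekindDomain Pool.Agent.ST

namespace Pool.Agent.STg

open Pool.Agent.STg.F

variable {K : Type*} [Field K] [NumberField K] [Algebra K ℝ] {σ₂ : K →+* ℝ} {e : (𝓞 K)ˣ}

/-- the set of the classes with the coordinates `s`, `n` -/
def ClsSet (e : (𝓞 K)ˣ) {m : Ideal (𝓞 K)} {H : IntermediateField K ℝ}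
    (Art : RayClassGroup σ₂ m ≃* (H ≃ₐ[K] H)) (k : ℕ) (s : ℤˣ) (n : ℕ) :
    Set (RayClassGroup σ₂ m) :=
  {A | act (Art A) (se e) = ((s : ℤ) : ℝ) * se e ∧
    act (Art A) (Real.cos (2 * Real.pi / 2 ^ k)) = Real.cos (2 * Real.pi * n / 2 ^ k)}

/-- An integral ideal `I` is in a class with the coordinates `s`, `n` iff `I` is prime to `2`,
`chiI e I = s`, and `2 ^ k` divides `N(I) - n` or `N(I) + n` (`art_coords`, `cos_mod_iff`). -/
lemma mem_idealsOf_iff' (D : FD σ₂ e) {m : Ideal (𝓞 K)}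
    (hm : ∀ v : HeightOneSpectrum (𝓞 K), v.asIdeal ∣ m ↔ (2 : 𝓞 K) ∈ v.asIdeal) (hm0 : m ≠ ⊥)
    {H : IntermediateField K ℝ} {Art : RayClassGroup σ₂ m ≃* (H ≃ₐ[K] H)}
    (hA : IsRayClassField σ₂ m H Art) {k : ℕ} (hs : se e ∈ H)
    (hk : Real.cos (2 * Real.pi / 2 ^ k) ∈ H) (s : ℤˣ) (n : ℕ) (I : Ideal (𝓞 K)) :
    (∃ A ∈ ClsSet e Art k s n, I ∈ idealsOf σ₂ m A) ↔
      I ≠ ⊥ ∧ IsCoprime I (Ideal.span {(2 : 𝓞 K)}) ∧ chiI e I = (s : ℤ) ∧
        ((2 : ℤ) ^ k ∣ (Ideal.absNorm I : ℤ) - n ∨ (2 : ℤ) ^ k ∣ (Ideal.absNorm I : ℤ) + n) := by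
  have hab : Above m := fun v hv => (hm v).2 hv
  have hse : 0 < se e := Real.sqrt_pos.2 D.pos
  have key : ∀ J : primeTo (K := K) m, ((J : (FI K)ˣ) : FI K) = (I : FI K) → I ≠ ⊥ →
      (cls σ₂ m J ∈ ClsSet e Art k s n ↔ chiI e I = (s : ℤ) ∧
        ((2 : ℤ) ^ k ∣ (Ideal.absNorm I : ℤ) - n ∨ (2 : ℤ) ^ k ∣ (Ideal.absNorm I : ℤ) + n)) := by
    intro J hJ hI
    obtain ⟨h1, h2⟩ := art_coords D hab hA hs hk I hI J hJ
    have e1 : Real.cos (2 * Real.pi * (Ideal.absNorm I : ℕ) / 2 ^ k) =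
        Real.cos (2 * Real.pi * ((Ideal.absNorm I : ℤ) : ℝ) / 2 ^ k) := by push_cast; rfl
    have e2 : Real.cos (2 * Real.pi * (n : ℕ) / 2 ^ k) =
        Real.cos (2 * Real.pi * ((n : ℤ) : ℝ) / 2 ^ k) := by push_cast; rfl
    unfold ClsSet
    rw [Set.mem_setOf_eq, h1, h2, e1, e2, cos_mod_iff]
    apply and_congr_left'
    constructor
    · intro h
      have h3 := mul_right_cancel₀ hse.ne' h
      exact_mod_cast h3
    · intro h
      rw [h]
  constructor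
  · rintro ⟨A, hAs, J, hJ, rfl⟩
    have hI : I ≠ ⊥ := by
      rintro rfl
      exact J.1.ne_zero (by rw [hJ]; simp)
    have hc : IsCoprime I m := coprime_of_mem_primeTo hJ J.2
    exact ⟨hI, (coprime_iff_two hm hm0 hI).1 hc, (key J hJ hI).1 hAs⟩
  · rintro ⟨hI, hc, h⟩
    have hc' : IsCoprime I m := (coprime_iff_two hm hm0 hI).2 hc
    let J : primeTo (K := K) m := ⟨uI I hI, coe_mem_primeTo (by rw [coe_uI]) hc'⟩
    have hJ : ((J : (FI K)ˣ) : FI K) = (I : FI K) := by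
      show ((uI I hI : (FI K)ˣ) : FI K) = I
      rw [coe_uI]
    exact ⟨cls σ₂ m J, (key J hJ hI).2 h, J, hJ, rfl⟩

end Pool.Agent.STg
end
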