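import Pool.Agent.Lib.MP_1ef7cf_nt.Core2
import Pool.Agent.Lib.MP_1ef7cf_nt_g.Mg.G031
import Pool.Agent.Lib.MP_1ef7cf_nt_g.Mg.G065
import Pool.Agent.Lib.MP_1ef7cf_nt_g.Mg.G069

section

/-!
# The action of the automorphisms on Galois functions
-/

open NumberField IsDedekindDomain Pool.Agent.ST IntermediateField

namespace Pool.Agent.STg

open Pool.Agent.STg.F

variable {K : Type*} [Field K] [NumberField K] [Algebra K ℝ] {σ₂ : K →+* ℝ} {e : (𝓞 K)ˣ}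

private noncomputable def Z1_inc (D : FD σ₂ e) (U : UD) (hT : U.T = tre e) (k : ℕ) :
    Rk U k →+* Lf e k where
  toFun x := ⟨(x : ℝ), (mem_Lf_iff D U hT k _).2 x.2⟩
  map_one' := rfl
  map_mul' _ _ := rfl
  map_zero' := rfl
  map_add' _ _ := rfl

private lemma Z1_ap_of_mem {U : UD} {k : ℕ} (φ : Rk U k →+* ℂ) {x : ℝ} (hx : x ∈ Rk U k) :
    ap φ x = φ ⟨x, hx⟩ := dif_pos hx

/-- transfer of embeddings -/
theorem exists_emb (D : FD σ₂ e) (U : UD) (hT : U.T = tre e) {k : ℕ} (g : Lf e k →+* ℂ) :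
    ∃ φ : Rk U k →+* ℂ, ∀ x ∈ Rk U k, ap φ x = emb g x := by
  refine ⟨g.comp (Z1_inc D U hT k), fun x hx => ?_⟩
  rw [Z1_ap_of_mem _ hx, emb_of_mem g ((mem_Lf_iff D U hT k x).2 hx)]
  rfl

/-- an automorphism gives an embedding -/
theorem exists_emb_act (D : FD σ₂ e) (U : UD) (hT : U.T = tre e) {k : ℕ}
    (γ : Lf e k ≃ₐ[K] Lf e k) : ∃ φ : Rk U k →+* ℂ, ∀ x ∈ Rk U k, ap φ x = (act γ x : ℂ) := by
  refine ⟨Complex.ofRealHom.comp ((algebraMap (Lf e k) ℝ).comp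
    ((γ : Lf e k →+* Lf e k).comp (Z1_inc D U hT k))), fun x hx => ?_⟩
  rw [Z1_ap_of_mem _ hx, act_of_mem γ ((mem_Lf_iff D U hT k x).2 hx)]
  rfl

/-- coordinates of the automorphisms: `act γ (se e) = s se e` (`(se e) ^ 2 = e ∈ K`) and `exists_coord` -/
theorem exists_coords (D : FD σ₂ e) (U : UD) (hT : U.T = tre e) {k : ℕ}
    (γ : Lf e k ≃ₐ[K] Lf e k) : ∃ (s : ℤˣ) (n : ℕ), n % 4 = 1 ∧
      act γ (se e) = ((s : ℤ) : ℝ) * se e ∧
      act γ (Real.cos (2 * Real.pi / 2 ^ k)) = Real.cos (2 * Real.pi * n / 2 ^ k) := by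
  obtain ⟨φ, hφ⟩ := exists_emb_act D U hT γ
  obtain ⟨n, hn, hc⟩ := exists_coord U k φ
  rw [hφ _ (ck_mem U k)] at hc
  have h2 : act γ (Real.cos (2 * Real.pi / 2 ^ k)) = Real.cos (2 * Real.pi * n / 2 ^ k) :=
    Complex.ofReal_injective hc
  have hse : se e ^ 2 = algebraMap K ℝ ((e : 𝓞 K) : K) := Real.sq_sqrt D.pos.le
  have h3 : act γ (se e) ^ 2 = se e ^ 2 := by
    rw [← act_pow γ (se_mem e k), hse, act_algebraMap]
  rcases sq_eq_sq_iff_eq_or_eq_neg.1 h3 with h4 | h4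
  · exact ⟨1, n, hn, by rw [h4]; simp, h2⟩
  · exact ⟨-1, n, hn, by rw [h4]; simp, h2⟩

/-- the action on a Galois function -/
theorem act_gf (D : FD σ₂ e) (U : UD) (hT : U.T = tre e) {k : ℕ} {y : Gam k → ℝ}
    (hy : IsGF U k y) (γ : Lf e k ≃ₐ[K] Lf e k) {s : ℤˣ} {n : ℕ} (hn : n % 4 = 1)
    (h1 : act γ (se e) = ((s : ℤ) : ℝ) * se e)
    (h2 : act γ (Real.cos (2 * Real.pi / 2 ^ k)) = Real.cos (2 * Real.pi * n / 2 ^ k))
    (g : Gam k) : act γ (y g) = y ((s, nu k n) * g) := by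
  obtain ⟨φ, hφ⟩ := exists_emb_act D U hT γ
  have e1 : ap φ U.r = ((s : ℤ) : ℂ) * (U.r : ℂ) := by
    rw [hφ _ (UD.r_mem U k), ← se_eq D U hT, h1]
    push_cast
    ring
  have e2 : ap φ (ck k) = (Real.cos (2 * Real.pi * n / 2 ^ k) : ℂ) := by
    rw [hφ _ (ck_mem U k)]
    unfold ck
    rw [h2]
  have e3 := hy.gal φ s n hn e1 e2 g
  rw [hφ _ (hy.mem g)] at e3
  exact Complex.ofReal_injective e3

/-- absolute values over the second embedding -/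
theorem abs_gf (D : FD σ₂ e) (U : UD) (hT : U.T = tre e) {k : ℕ} {y : Gam k → ℝ}
    (hy : IsGF U k y) (g : Lf e k →+* ℂ) (hg : Over σ₂ g) (c : Gam k) : ‖emb g (y c)‖ = 1 := by
  obtain ⟨φ, hφ⟩ := exists_emb D U hT g
  have he : U.e ∈ Rk U k := by
    rw [← UD.r_sq U]
    exact pow_mem (UD.r_mem U k) 2
  have e1 : ap φ U.e = -((U.e : ℂ))⁻¹ := by
    rw [hφ _ he, ← e_eq D U hT]
    have h2 : algebraMap K ℝ ((e : 𝓞 K) : K) ∈ Lf e k := (Lf e k).algebraMap_mem _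
    rw [emb_of_mem g h2]
    have h3 := hg ((e : 𝓞 K) : K)
    have h4 : (⟨algebraMap K ℝ ((e : 𝓞 K) : K), h2⟩ : Lf e k) =
        algebraMap K (Lf e k) ((e : 𝓞 K) : K) := rfl
    rw [h4, h3, D.nrm]
    push_cast
    rfl
  have e2 := hy.abs φ e1 c
  rwa [hφ _ (hy.mem c)] at e2

end Pool.Agent.STg
end

section

/-!
# The sums of the partial zeta functions of `K` over the classes with given coordinates
-/

open NumberField IsDedekindDomain Pool.Agent.ST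

namespace Pool.Agent.STg

open Pool.Agent.STg.F

variable {K : Type*} [Field K] [NumberField K] [Algebra K ℝ] {σ₂ : K →+* ℝ} {e : (𝓞 K)ˣ}

omit [Algebra K ℝ] in
private lemma S6_unique {m : Ideal (𝓞 K)} {A B : RayClassGroup σ₂ m} {I : Ideal (𝓞 K)}
    (hA : I ∈ idealsOf σ₂ m A) (hB : I ∈ idealsOf σ₂ m B) : A = B := by
  obtain ⟨J, hJ, rfl⟩ := hA
  obtain ⟨J', hJ', rfl⟩ := hB
  have h : J = J' := Subtype.ext (Units.ext (hJ.trans hJ'.symm))
  rw [h]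

omit [Algebra K ℝ] in
open Classical in
private lemma S6_ind {m : Ideal (𝓞 K)} (S : Finset (RayClassGroup σ₂ m)) (f : Ideal (𝓞 K) → ℂ)
    (I : Ideal (𝓞 K)) : ∑ A ∈ S, (idealsOf σ₂ m A).indicator f I =
      if ∃ A ∈ S, I ∈ idealsOf σ₂ m A then f I else 0 := by
  split_ifs with h
  · obtain ⟨A, hA, hI⟩ := h
    rw [Finset.sum_eq_single A, Set.indicator_of_mem hI]
    · intro B _ hBA
      exact Set.indicator_of_notMem (fun h' => hBA (S6_unique h' hI)) _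
    · intro h'
      exact absurd hA h'
  · refine Finset.sum_eq_zero fun A hA => Set.indicator_of_notMem (fun h' => h ⟨A, hA, h'⟩) _

/-- The sum of the partial zeta functions over the classes with coordinates `s`, `n` minus the sum for
`-s`, `n`: it is the sum over all ideals `I ≠ 0` prime to `2` with `N(I) = n` or `-n` modulo `2 ^ k` of
`s chiI(I) N(I) ^ (-w)` (`mem_idealsOf_iff'`; an ideal is in at most one class; `k ≥ 2` and `n` odd
imply that `N(I)` odd is automatic but we have `IsCoprime` anyway). Regroup by the norm. -/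
theorem hasSum_K (D : FD σ₂ e) {m : Ideal (𝓞 K)}
    (hm : ∀ v : HeightOneSpectrum (𝓞 K), v.asIdeal ∣ m ↔ (2 : 𝓞 K) ∈ v.asIdeal) (hm0 : m ≠ ⊥)
    {H : IntermediateField K ℝ} {Art : RayClassGroup σ₂ m ≃* (H ≃ₐ[K] H)}
    (hA : IsRayClassField σ₂ m H Art) {k : ℕ} (hs : se e ∈ H)
    (hk : Real.cos (2 * Real.pi / 2 ^ k) ∈ H) (s : ℤˣ) (n : ℕ)
    {Z : RayClassGroup σ₂ m → ℂ → ℂ} (hZ : ∀ A, IsPartialZeta σ₂ m A (Z A))
    {S S' : Finset (RayClassGroup σ₂ m)} (hS : ∀ A, A ∈ S ↔ A ∈ ClsSet e Art k s n)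
    (hS' : ∀ A, A ∈ S' ↔ A ∈ ClsSet e Art k (-s) n) {w : ℂ} (hw : 1 < w.re) :
    HasSum (fun l : ℕ => (((if l ≠ 0 ∧ ((2 : ℤ) ^ k ∣ (l : ℤ) - n ∨ (2 : ℤ) ^ k ∣ (l : ℤ) + n)
      then (s : ℤ) * cS (chiK e) l else 0 : ℤ)) : ℂ) * (l : ℂ) ^ (-w))
      (∑ A ∈ S, Z A w - ∑ A ∈ S', Z A w) := by
  classical
  set f : Ideal (𝓞 K) → ℂ := fun I => ((Ideal.absNorm I : ℕ) : ℂ) ^ (-w) with hf
  have h1 : ∀ A, HasSum ((idealsOf σ₂ m A).indicator f) (Z A w) := fun A =>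
    hasSum_subtype_iff_indicator.1 ((hZ A).hasSum hw)
  have h2 : HasSum (fun I => ∑ A ∈ S, (idealsOf σ₂ m A).indicator f I -
      ∑ A ∈ S', (idealsOf σ₂ m A).indicator f I) (∑ A ∈ S, Z A w - ∑ A ∈ S', Z A w) :=
    (hasSum_sum fun A _ => h1 A).sub (hasSum_sum fun A _ => h1 A)
  set c : Ideal (𝓞 K) → ℤ := fun I => if I ≠ ⊥ ∧ ((2 : ℤ) ^ k ∣ (Ideal.absNorm I : ℤ) - n ∨
    (2 : ℤ) ^ k ∣ (Ideal.absNorm I : ℤ) + n) then (s : ℤ) * chiK e I else 0 with hc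
  have hcl : ∀ (s : ℤˣ) (S : Finset (RayClassGroup σ₂ m)), (∀ A, A ∈ S ↔ A ∈ ClsSet e Art k s n) →
      ∀ I, (∃ A ∈ S, I ∈ idealsOf σ₂ m A) ↔
      I ≠ ⊥ ∧ IsCoprime I (Ideal.span {(2 : 𝓞 K)}) ∧ chiI e I = (s : ℤ) ∧
        ((2 : ℤ) ^ k ∣ (Ideal.absNorm I : ℤ) - n ∨ (2 : ℤ) ^ k ∣ (Ideal.absNorm I : ℤ) + n) := by
    intro s S hS I
    rw [← mem_idealsOf_iff' D hm hm0 hA hs hk s n I]
    simp only [hS]
  have h3 : ∀ I, ∑ A ∈ S, (idealsOf σ₂ m A).indicator f I -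
      ∑ A ∈ S', (idealsOf σ₂ m A).indicator f I = (c I : ℂ) * f I := by
    intro I
    rw [S6_ind, S6_ind]
    have e1 := hcl s S hS I
    have e2 := hcl (-s) S' hS' I
    by_cases hI : I ≠ ⊥ ∧ ((2 : ℤ) ^ k ∣ (Ideal.absNorm I : ℤ) - n ∨
        (2 : ℤ) ^ k ∣ (Ideal.absNorm I : ℤ) + n)
    · have hcI : c I = (s : ℤ) * chiK e I := by
        rw [hc]
        exact if_pos hI
      rw [hcI]
      by_cases hcop : IsCoprime I (Ideal.span {(2 : 𝓞 K)})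
      · have hK : chiK e I = chiI e I := by
          unfold chiK
          exact if_pos hcop
        rw [hK]
        have hs1 : s = 1 ∨ s = -1 := Int.units_eq_one_or s
        have e1' : (∃ A ∈ S, I ∈ idealsOf σ₂ m A) ↔ chiI e I = (s : ℤ) :=
          e1.trans ⟨fun h => h.2.2.1, fun h => ⟨hI.1, hcop, h, hI.2⟩⟩
        have e2' : (∃ A ∈ S', I ∈ idealsOf σ₂ m A) ↔ chiI e I = ((-s : ℤˣ) : ℤ) :=
          e2.trans ⟨fun h => h.2.2.1, fun h => ⟨hI.1, hcop, h, hI.2⟩⟩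
        rw [if_congr e1' rfl rfl, if_congr e2' rfl rfl]
        rcases hs1 with rfl | rfl <;> rcases chiI_sq e I with h | h <;> rw [h] <;> norm_num
      · have hK : chiK e I = 0 := by
          unfold chiK
          exact if_neg hcop
        rw [hK, if_neg (fun h => hcop (e1.1 h).2.1), if_neg (fun h => hcop (e2.1 h).2.1)]
        simp
    · have hcI : c I = 0 := by
        rw [hc]
        exact if_neg hI
      rw [hcI, if_neg (fun h => hI ⟨(e1.1 h).1, (e1.1 h).2.2.2⟩),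
        if_neg (fun h => hI ⟨(e2.1 h).1, (e2.1 h).2.2.2⟩)]
      simp
  have h4 : HasSum (fun I => (c I : ℂ) * ((Ideal.absNorm I : ℕ) : ℂ) ^ (-w))
      (∑ A ∈ S, Z A w - ∑ A ∈ S', Z A w) := by
    rw [funext h3] at h2
    exact h2
  have hfin : ∀ l : ℕ, {I : Ideal (𝓞 K) | Ideal.absNorm I = l}.Finite := by
    intro l
    rcases Nat.eq_zero_or_pos l with rfl | hl
    · refine (Set.finite_singleton (⊥ : Ideal (𝓞 K))).subset fun I hI => ?_
      exact Ideal.absNorm_eq_zero_iff.1 hI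
    · exact finite_norm hl.ne'
  have h5 := hasSum_regroup (fun I : Ideal (𝓞 K) => Ideal.absNorm I) hfin c h4
  have h6 : ∀ l : ℕ, (∑ᶠ I ∈ {I : Ideal (𝓞 K) | Ideal.absNorm I = l}, c I : ℤ) =
      if l ≠ 0 ∧ ((2 : ℤ) ^ k ∣ (l : ℤ) - n ∨ (2 : ℤ) ^ k ∣ (l : ℤ) + n)
        then (s : ℤ) * cS (chiK e) l else 0 := by
    intro l
    rw [finsum_mem_eq_finite_toFinset_sum _ (hfin l)]
    split_ifs with hl
    · rw [cS, finsum_mem_eq_finite_toFinset_sum _ (hfin l), Finset.mul_sum]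
      refine Finset.sum_congr rfl fun I hI => ?_
      have hN : Ideal.absNorm I = l := by simpa using hI
      rw [hc]
      refine if_pos ⟨?_, ?_⟩
      · rintro rfl
        rw [Ideal.absNorm_bot] at hN
        exact hl.1 hN.symm
      · rw [hN]
        exact hl.2
    · refine Finset.sum_eq_zero fun I hI => ?_
      have hN : Ideal.absNorm I = l := by simpa using hI
      rw [hc]
      refine if_neg fun h => hl ⟨?_, ?_⟩
      · rintro rfl
        exact h.1 (Ideal.absNorm_eq_zero_iff.1 hN)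
      · rw [← hN]
        exact h.2
  simp only [h6] at h5
  exact h5

end Pool.Agent.STg
end
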