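import Pool.Agent.Lib.MP_1ef7cf_nt_g.Mg.G063
import Pool.Agent.Lib.MP_1ef7cf_nt_b.Conj
import Pool.Agent.Lib.MP_1ef7cf_nt_g.Mg.G047
import Pool.Agent.Lib.MP_1ef7cf_nt_g.Mg.G066

section

/-!
# The numbers `xv` form a Galois function, all levels
-/

open Complex

namespace Pool.Agent.STg

variable (D : LemData) (U : UD)

/-- one step down: `xv (pr g) = xv g xv (γ' g)` (`xv_pr`), `IsGF.mul`, `IsGF.translate`, `isGF_down` -/
lemma isGF_step {k J : ℕ} (hk : 1 ≤ k) (h : IsGF U (k + 1) (xv D U (k + 1) J)) :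
    IsGF U k (xv D U k J) := by
  refine isGF_down U ?_
  have h1 : (fun g : Gam (k + 1) => xv D U k J (pr k g)) =
      fun g => xv D U (k + 1) J g * xv D U (k + 1) J (gam' k * g) := by
    funext g
    exact xv_pr D U hk J g
  rw [h1]
  exact h.mul (h.translate (gam' k))

/-- `isGF_xv` for `k ≥ 6`, and `isGF_step` (descending induction) for `k < 6` -/
theorem isGF_xv_all {k J : ℕ} (hk : 1 ≤ k) (hJ : k + 5 ≤ J) (hJ' : 11 ≤ J) :
    IsGF U k (xv D U k J) := by
  rcases le_or_gt 6 k with h6 | h6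
  · exact isGF_xv D U h6 hJ
  · have key : ∀ m k : ℕ, k + m = 6 → 1 ≤ k → IsGF U k (xv D U k J) := by
      intro m
      induction m with
      | zero =>
        intro k hk1 _
        have hk6 : k = 6 := by omega
        rw [hk6]
        exact isGF_xv D U le_rfl (by omega)
      | succ m ih =>
        intro k hk1 hk2
        exact isGF_step D U hk2 (ih (k + 1) (by omega) (by omega))
    exact key (6 - k) k (by omega) hk

end Pool.Agent.STg
end

section

/-!
# The numbers `xv` are units satisfying the conditions 2 and 3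
-/

open NumberField IsDedekindDomain Pool.Agent.ST IntermediateField

namespace Pool.Agent.STg

open Pool.Agent.STg.F

/-- **Integrality.** `x = xv g` is algebraic (`IsGF.mem`, `Rk_mem_Qb`); let `E` be a finite extension of
`ℚ(i)` in `ℂ` containing `x` (`exists_gal`). For each prime `P` of `E` and `V` over `P` there is a
Gaussian prime `π` with `v π < 1` (`exists_prime_pn`, `OverP.gauss`), so `v x = 1` by `val_xv`; use
`isIntegral_of_overP`. -/
theorem integral_xv (D : LemData) (U : UD) {k J : ℕ} (hk : 1 ≤ k) (hJ : k + 5 ≤ J)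
    (hJ' : 11 ≤ J) (g : Gam k) : IsIntegral ℤ (xv D U k J g) := by
  have hmem := (isGF_xv_all D U hk hJ hJ').mem g
  have hQ := Rk_mem_Qb U k hmem
  obtain ⟨E, hE, -, hSE⟩ := exists_gal {((xv D U k J g : ℝ) : ℂ)} (Set.finite_singleton _)
    (by rintro x rfl; exact hQ)
  have := hE
  have := numberField_E E
  have hx : ((xv D U k J g : ℝ) : ℂ) ∈ E := hSE rfl
  have h1 : IsIntegral ℤ (⟨_, hx⟩ : E) := by
    apply isIntegral_of_overP
    intro P V hV
    obtain ⟨π, hπ, -, hπ'⟩ := exists_prime_pn (und QI P)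
    have h2 : V.valuation (π : ℂ) < 1 := (hV.gauss π).2 ((hπ' π).2 dvd_rfl)
    exact (val_xv D U V hπ h2 (by omega) g).le
  have h2 : IsIntegral ℤ ((xv D U k J g : ℝ) : ℂ) :=
    h1.map (E.val.toRingHom.toIntAlgHom)
  obtain ⟨p, hp, hp'⟩ := h2
  refine ⟨p, hp, ?_⟩
  have h3 : ((Polynomial.eval₂ (algebraMap ℤ ℝ) (xv D U k J g) p : ℝ) : ℂ) = 0 := by
    rw [← hp', ← Complex.ofRealHom_eq_coe, Polynomial.hom_eval₂]
    congr 1
  exact_mod_cast h3

theorem integral_xv_inv (D : LemData) (U : UD) {k J : ℕ} (hk : 1 ≤ k) (hJ : k + 5 ≤ J)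
    (hJ' : 11 ≤ J) (g : Gam k) : IsIntegral ℤ (xv D U k J g)⁻¹ := by
  rw [← xv_zc]
  exact integral_xv D U hk hJ hJ' _

variable {K : Type*} [Field K] [NumberField K] [Algebra K ℝ] {σ₂ : K →+* ℝ} {e : (𝓞 K)ˣ}

theorem preStark_xv (D : LemData) (F : FD σ₂ e) (U : UD) (hT : U.T = tre e) {k J : ℕ}
    (hk : 1 ≤ k) (hJ : k + 5 ≤ J) (hJ' : 11 ≤ J) (g : Gam k) :
    STb.PreStark σ₂ (Lf e k) (xv D U k J g) where
  mem := (mem_Lf_iff F U hT k _).2 ((isGF_xv_all D U hk hJ hJ').mem g)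
  pos := by
    intro γ
    obtain ⟨s, n, hn, h1, h2⟩ := exists_coords F U hT γ
    rw [act_gf F U hT (isGF_xv_all D U hk hJ hJ') γ hn h1 h2 g]
    exact (isGF_xv_all D U hk hJ hJ').pos _
  int := integral_xv D U hk hJ hJ' g
  int_inv := integral_xv_inv D U hk hJ hJ' g
  abs := fun g' hg' => abs_gf F U hT (isGF_xv_all D U hk hJ hJ') g' hg' g

end Pool.Agent.STg
end
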