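import Pool.Agent.Lib.MP_1ef7cf_nt_g.Mg.G055
import Pool.Agent.Lib.MP_1ef7cf_nt_g.Mg.G065
import Pool.Agent.Lib.MP_1ef7cf_nt_g.S3b
import Pool.Agent.Lib.MP_1ef7cf_nt_g.S5a
import Pool.Agent.Lib.MP_1ef7cf_nt_h.Mg.G006
import Pool.Agent.Lib.MP_1ef7cf_nt_g.Mg.G041

section

/-!
# The primes of `K` over an odd prime number
-/

open NumberField IsDedekindDomain

namespace Pool.Agent.STg

open Pool.Agent.STg.F

variable {K : Type*} [Field K] [NumberField K] [Algebra K ℝ] {σ₂ : K →+* ℝ} {e : (𝓞 K)ˣ}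

lemma S3_sq_dvd (U : UD) {p : ℕ} (hp : p.Prime) (h2 : p ≠ 2) : ¬ p ^ 2 ∣ 4 * gN U.δ := by
  intro h
  have h1 : Nat.Coprime (p ^ 2) 4 := by
    have h3 : Nat.Coprime p 2 := (Nat.coprime_primes hp Nat.prime_two).2 h2
    have h4 : Nat.Coprime (p ^ 2) (2 ^ 2) := Nat.Coprime.pow 2 2 h3
    exact h4
  have h5 : p ^ 2 ∣ gN U.δ := h1.dvd_of_dvd_mul_left h
  rw [pow_two] at h5
  exact hp.one_lt.ne' (Nat.isUnit_iff.1 (U.sqf p h5))

/-- `w / p` is not an algebraic integer, more precisely `p ∤ 2 w` for odd `p`: `4 d` is not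
divisible by `p ^ 2`, `d = N(δ)` squarefree. -/
lemma not_dvd_two_w (U : UD) {w : 𝓞 K} (hw : w ^ 2 = ((gN U.δ : ℕ) : 𝓞 K)) {p : ℕ}
    (hp : p.Prime) (h2 : p ≠ 2) : ¬ (p : 𝓞 K) ∣ 2 * w := by
  rintro ⟨z, hz⟩
  apply S3_sq_dvd U hp h2
  have h1 : ((4 * gN U.δ : ℕ) : 𝓞 K) = ((p ^ 2 : ℕ) : 𝓞 K) * z ^ 2 := by
    push_cast
    rw [← hw]
    linear_combination (2 * w + (p : 𝓞 K) * z) * hz
  have h3 : Ideal.absNorm (Ideal.span {((4 * gN U.δ : ℕ) : 𝓞 K)}) =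
      Ideal.absNorm (Ideal.span {((p ^ 2 : ℕ) : 𝓞 K) * z ^ 2}) := by rw [h1]
  rw [← Ideal.span_singleton_mul_span_singleton, map_mul, Ideal.absNorm_span_natCast,
    Ideal.absNorm_span_natCast] at h3
  have h4 : (p ^ 2) ^ Module.finrank ℤ (𝓞 K) ∣ (4 * gN U.δ) ^ Module.finrank ℤ (𝓞 K) :=
    ⟨_, h3⟩
  have h5 : Module.finrank ℤ (𝓞 K) ≠ 0 := by
    rw [RingOfIntegers.rank]
    exact Module.finrank_pos.ne'
  exact (Nat.pow_dvd_pow_iff h5).1 h4

lemma S3_two_notMem {P : HeightOneSpectrum (𝓞 K)} {p : ℕ} (hp : p.Prime) (h2 : p ≠ 2)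
    (hpP : (p : 𝓞 K) ∈ P.asIdeal) : (2 : 𝓞 K) ∉ P.asIdeal := by
  intro h
  have h1 : (p : ℤ) ∣ 2 := by
    apply dvd_of_mem P hp hpP
    exact_mod_cast h
  have h3 : p ∣ 2 := by exact_mod_cast h1
  exact h2 ((Nat.prime_dvd_prime_iff_eq hp Nat.prime_two).1 h3)

/-- traces -/
lemma S3_trace (D : FD σ₂ e) (U : UD) (hT : U.T = tre e) {w : 𝓞 K}
    (hw : w * ((gN U.γ : ℕ) : 𝓞 K) = 2 * (e : 𝓞 K) - (U.T : 𝓞 K)) :
    Algebra.trace ℤ (𝓞 K) w = 0 := by
  have h1 : Algebra.trace ℤ (𝓞 K) (w * ((gN U.γ : ℕ) : 𝓞 K)) =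
      (gN U.γ : ℤ) * Algebra.trace ℤ (𝓞 K) w := by
    have h2 : w * ((gN U.γ : ℕ) : 𝓞 K) = (gN U.γ : ℤ) • w := by
      rw [zsmul_eq_mul, mul_comm]
      push_cast
      rfl
    rw [h2, map_zsmul, smul_eq_mul]
  have h3 : Algebra.trace ℤ (𝓞 K) (2 * (e : 𝓞 K) - (U.T : 𝓞 K)) = 0 := by
    have h4 := trace_lin D (-U.T) 2
    have h5 : 2 * (e : 𝓞 K) - (U.T : 𝓞 K) = ((-U.T : ℤ) : 𝓞 K) + ((2 : ℤ) : 𝓞 K) * (e : 𝓞 K) := by
      push_cast
      ring
    rw [h5, h4, hT]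
    ring
  rw [← hw, h1] at h3
  have h6 : (gN U.γ : ℤ) ≠ 0 := by
    intro h7
    have h8 : gN U.γ = 0 := by exact_mod_cast h7
    have h9 : U.γ.norm = 0 := by
      unfold gN at h8
      exact Int.natAbs_eq_zero.1 h8
    have h10 : U.γ = 0 := by
      exact (GaussianInt.norm_eq_zero).1 h9
    have h11 := U.fac
    rw [h10] at h11
    have h12 := congrArg Zsqrtd.im h11
    simp at h12
  exact (mul_eq_zero.1 h3).resolve_left h6

lemma S3_dvd (D : FD σ₂ e) (U : UD) (hT : U.T = tre e) {w : 𝓞 K}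
    (hw : w * ((gN U.γ : ℕ) : 𝓞 K) = 2 * (e : 𝓞 K) - (U.T : 𝓞 K)) {p : ℕ} {c : ℤ}
    (h : w - (c : 𝓞 K) ∈ Ideal.span {(p : 𝓞 K)}) : (p : ℤ) ∣ 2 * c := by
  obtain ⟨z, hz⟩ := Ideal.mem_span_singleton'.1 h
  have h1 := congrArg (Algebra.trace ℤ (𝓞 K)) hz
  have h2 : z * (p : 𝓞 K) = (p : ℤ) • z := by
    rw [zsmul_eq_mul, mul_comm]
    push_cast
    rfl
  have h3 : Algebra.trace ℤ (𝓞 K) ((c : ℤ) : 𝓞 K) = 2 * c := by
    have h4 := trace_lin D c 0
    rw [zero_mul, add_zero, Int.cast_zero, zero_mul, add_zero] at h4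
    exact h4
  rw [h2, map_zsmul, map_sub, S3_trace D U hT hw, h3, smul_eq_mul, zero_sub] at h1
  exact ⟨-Algebra.trace ℤ (𝓞 K) z, by linear_combination h1⟩

lemma S3_eq_of_le {P R : HeightOneSpectrum (𝓞 K)} (h : P.asIdeal ≤ R.asIdeal) : R = P := by
  apply HeightOneSpectrum.ext
  exact (P.isMaximal.eq_of_le R.isPrime.ne_top h).symm

lemma S3_le_of_mul {P Q R : HeightOneSpectrum (𝓞 K)} {p : ℕ}
    (h : Ideal.span {(p : 𝓞 K)} = P.asIdeal * Q.asIdeal) (hR : (p : 𝓞 K) ∈ R.asIdeal) :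
    R = P ∨ R = Q := by
  have h1 : P.asIdeal * Q.asIdeal ≤ R.asIdeal := by
    rw [← h, Ideal.span_singleton_le_iff_mem]
    exact hR
  rcases R.isPrime.mul_le.1 h1 with h2 | h2
  · exact Or.inl (S3_eq_of_le h2)
  · exact Or.inr (S3_eq_of_le h2)

lemma S3_mem_left {P Q : HeightOneSpectrum (𝓞 K)} {p : ℕ}
    (h : Ideal.span {(p : 𝓞 K)} = P.asIdeal * Q.asIdeal) : (p : 𝓞 K) ∈ P.asIdeal := by
  have h1 : P.asIdeal * Q.asIdeal ≤ P.asIdeal := Ideal.mul_le_left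
  have h2 : (p : 𝓞 K) ∈ Ideal.span {(p : 𝓞 K)} := Ideal.mem_span_singleton_self _
  rw [h] at h2
  exact h1 h2

lemma S3_mem_right {P Q : HeightOneSpectrum (𝓞 K)} {p : ℕ}
    (h : Ideal.span {(p : 𝓞 K)} = P.asIdeal * Q.asIdeal) : (p : 𝓞 K) ∈ Q.asIdeal := by
  have h1 : P.asIdeal * Q.asIdeal ≤ Q.asIdeal := Ideal.mul_le_right
  have h2 : (p : 𝓞 K) ∈ Ideal.span {(p : 𝓞 K)} := Ideal.mem_span_singleton_self _
  rw [h] at h2
  exact h1 h2

lemma S3_mem_self {P : HeightOneSpectrum (𝓞 K)} {p : ℕ}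
    (h : Ideal.span {(p : 𝓞 K)} = P.asIdeal) : (p : 𝓞 K) ∈ P.asIdeal := by
  have h2 : (p : 𝓞 K) ∈ Ideal.span {(p : 𝓞 K)} := Ideal.mem_span_singleton_self _
  rw [h] at h2
  exact h2

/-- no square root of `d` modulo `p` in the ideal `(p)` -/
lemma S3_contra (D : FD σ₂ e) (U : UD) (hT : U.T = tre e) {w : 𝓞 K}
    (hw : w * ((gN U.γ : ℕ) : 𝓞 K) = 2 * (e : 𝓞 K) - (U.T : 𝓞 K)) {p : ℕ} (hp : p.Prime)
    (h2 : p ≠ 2) {c : ℤ} (hc : (p : ℤ) ∣ (gN U.δ : ℤ) - c ^ 2) (hd : ¬ (p : ℤ) ∣ (gN U.δ : ℤ))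
    (h : w - (c : 𝓞 K) ∈ Ideal.span {(p : 𝓞 K)}) : False := by
  have h3 := S3_dvd D U hT hw h
  have hpp : Prime (p : ℤ) := Nat.prime_iff_prime_int.1 hp
  rcases hpp.dvd_or_dvd h3 with h4 | h4
  · have h5 : p ∣ 2 := by exact_mod_cast h4
    exact h2 ((Nat.prime_dvd_prime_iff_eq hp Nat.prime_two).1 h5)
  · apply hd
    have h5 : (p : ℤ) ∣ c ^ 2 := dvd_pow h4 two_ne_zero
    have h6 := dvd_add hc h5
    rwa [sub_add_cancel] at h6

/-- **Split**: `(d / p) = 1`, `d = N(δ)`. `d = c ^ 2` modulo `p`, so `p ∣ (w - c) (w + c)`. If `p` is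
inert, `p ∣ w - c` or `p ∣ w + c`; apply the conjugation of `K` (which maps `w` to `-w`; or use
traces: `trace w = 0`, so `w - c = p z` gives `-2 c = p trace z`) to get `p ∣ 2 c`, so `p ∣ d`,
contradiction. If `p = P ^ 2`: `(w - c) (w + c) ∈ P ^ 2`, and not both factors in `P`
(`2 c ∉ P`), so one of them is in `P ^ 2 = (p)`, the same contradiction. -/
theorem typeK_split (D : FD σ₂ e) (U : UD) (hT : U.T = tre e) {p : ℕ} (hp : p.Prime) (h2 : p ≠ 2)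
    (h : jacobiSym (gN U.δ) p = 1) : ∃ P Q : HeightOneSpectrum (𝓞 K), P ≠ Q ∧
      Ideal.absNorm P.asIdeal = p ∧ Ideal.absNorm Q.asIdeal = p ∧
      chiK e P.asIdeal * chiK e Q.asIdeal = ZMod.χ₄ (p : ZMod 4) ∧
      ∀ R : HeightOneSpectrum (𝓞 K), (p : 𝓞 K) ∈ R.asIdeal → R = P ∨ R = Q := by
  obtain ⟨w, hw1, hw2⟩ := exists_w D U hT
  have hfact : Fact p.Prime := ⟨hp⟩
  have hpp : Prime (p : ℤ) := Nat.prime_iff_prime_int.1 hp
  rw [← jacobiSym.legendreSym.to_jacobiSym] at h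
  have hd0 : ((gN U.δ : ℤ) : ZMod p) ≠ 0 := by
    intro h0
    rw [(legendreSym.eq_zero_iff p _).2 h0] at h
    exact zero_ne_one h
  have hd : ¬ (p : ℤ) ∣ (gN U.δ : ℤ) := fun h0 => hd0 ((ZMod.intCast_zmod_eq_zero_iff_dvd _ _).2 h0)
  obtain ⟨c, hc⟩ : ∃ c : ℤ, (p : ℤ) ∣ (gN U.δ : ℤ) - c ^ 2 := by
    obtain ⟨r, hr⟩ := (legendreSym.eq_one_iff p hd0).1 h
    obtain ⟨c, rfl⟩ := ZMod.intCast_surjective r
    refine ⟨c, (ZMod.intCast_zmod_eq_zero_iff_dvd _ _).1 ?_⟩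
    push_cast at hr ⊢
    rw [hr]
    ring
  have hc' : (p : ℤ) ∣ (gN U.δ : ℤ) - (-c) ^ 2 := by rwa [neg_sq]
  have hprod : (w - (c : 𝓞 K)) * (w - ((-c : ℤ) : 𝓞 K)) ∈ Ideal.span {(p : 𝓞 K)} := by
    obtain ⟨t, ht⟩ := hc
    refine Ideal.mem_span_singleton'.2 ⟨(t : 𝓞 K), ?_⟩
    have h1 : (((gN U.δ : ℤ) - c ^ 2 : ℤ) : 𝓞 K) = ((p : ℤ) * t : ℤ) := by rw [ht]
    push_cast at h1 ⊢
    linear_combination -h1 - hw1
  rcases decomp D.deg hp with ⟨v, hv, -⟩ | ⟨v, w', hvw, hv, hw'⟩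
  · exfalso
    rw [hv] at hprod
    rcases v.isPrime.mem_or_mem hprod with h1 | h1
    · rw [← hv] at h1
      exact S3_contra D U hT hw2 hp h2 hc hd h1
    · rw [← hv] at h1
      exact S3_contra D U hT hw2 hp h2 hc' hd h1
  · have hpv : (p : 𝓞 K) ∈ v.asIdeal := S3_mem_left hvw
    have hpw : (p : 𝓞 K) ∈ w'.asIdeal := S3_mem_right hvw
    refine ⟨v, w', ?_, hv, hw', ?_, fun R hR => S3_le_of_mul hvw hR⟩
    · intro hne
      subst hne
      have hsq : (w - (c : 𝓞 K)) * (w - ((-c : ℤ) : 𝓞 K)) ∈ v.asIdeal ^ 2 := by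
        rw [pow_two, ← hvw]
        exact hprod
      have := v.isPrime
      rcases Ideal.IsPrime.mul_mem_pow v.asIdeal hsq with h1 | h1
      · -- w - c in v, then w + c not in v
        have hsq' : (w - ((-c : ℤ) : 𝓞 K)) * (w - (c : 𝓞 K)) ∈ v.asIdeal ^ 2 := by
          rw [mul_comm]; exact hsq
        rcases Ideal.IsPrime.mul_mem_pow v.asIdeal hsq' with h3 | h3
        · have h4 : ((2 * c : ℤ) : 𝓞 K) ∈ v.asIdeal := by
            have h5 := v.asIdeal.sub_mem h3 h1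
            have h6 : w - ((-c : ℤ) : 𝓞 K) - (w - (c : 𝓞 K)) = ((2 * c : ℤ) : 𝓞 K) := by
              push_cast
              ring
            rwa [h6] at h5
          have h5 := dvd_of_mem v hp hpv h4
          rcases hpp.dvd_or_dvd h5 with h6 | h6
          · have h7 : p ∣ 2 := by exact_mod_cast h6
            exact h2 ((Nat.prime_dvd_prime_iff_eq hp Nat.prime_two).1 h7)
          · apply hd
            have h7 : (p : ℤ) ∣ c ^ 2 := dvd_pow h6 two_ne_zero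
            have h8 := dvd_add hc h7
            rwa [sub_add_cancel] at h8
        · rw [pow_two, ← hvw] at h3
          exact S3_contra D U hT hw2 hp h2 hc hd h3
      · rw [pow_two, ← hvw] at h1
        exact S3_contra D U hT hw2 hp h2 hc' hd h1
    · rw [chiK_odd e v (S3_two_notMem hp h2 hpv), chiK_odd e w' (S3_two_notMem hp h2 hpw)]
      exact chi_split D hp h2 v w' hvw hv hw'

/-- **Inert**: `(d / p) = -1`. A prime `P` of norm `p` would give `d = c ^ 2` modulo `p`, `w = c`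
modulo `P` (`exists_int_mod`). `chi_inert`. -/
theorem typeK_inert (D : FD σ₂ e) (U : UD) (hT : U.T = tre e) {p : ℕ} (hp : p.Prime) (h2 : p ≠ 2)
    (h : jacobiSym (gN U.δ) p = -1) : LT2 (chiK e) p (ZMod.χ₄ (p : ZMod 4)) := by
  obtain ⟨w, hw1, hw2⟩ := exists_w D U hT
  rcases decomp D.deg hp with ⟨v, hv, hN⟩ | ⟨v, w', hvw, hv, hw'⟩
  · have hpv : (p : 𝓞 K) ∈ v.asIdeal := S3_mem_self hv
    refine ⟨v, hN, ?_, ?_⟩
    · rw [chiK_odd e v (S3_two_notMem hp h2 hpv)]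
      exact chi_inert D hp h2 v hv hN
    · intro R hR
      apply S3_eq_of_le
      rw [← hv, Ideal.span_singleton_le_iff_mem]
      exact hR
  · exfalso
    have hpv : (p : 𝓞 K) ∈ v.asIdeal := S3_mem_left hvw
    obtain ⟨c, hc⟩ := exists_int v hp hv w
    have h1 : (((gN U.δ : ℤ) - c ^ 2 : ℤ) : 𝓞 K) ∈ v.asIdeal := by
      have h3 : (((gN U.δ : ℤ) - c ^ 2 : ℤ) : 𝓞 K) = (w + (c : 𝓞 K)) * (w - (c : 𝓞 K)) := by
        push_cast
        linear_combination -hw1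
      rw [h3]
      exact v.asIdeal.mul_mem_left _ hc
    have h3 := dvd_of_mem v hp hpv h1
    have h4 : jacobiSym (gN U.δ) p = jacobiSym (c ^ 2) p := by
      apply jacobiSym.mod_left'
      exact Int.emod_eq_emod_iff_emod_sub_eq_zero.2 (Int.emod_eq_zero_of_dvd h3)
    rw [h4, jacobiSym.pow_left] at h
    nlinarith [sq_nonneg (jacobiSym c p)]

/-- **Ramified**: `p ∣ d`. `w ^ 2 ∈ (p)`, so `w` is in all primes over `p`; if `p` is inert or split
then `p ∣ w`, contradiction. -/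
theorem typeK_ram (D : FD σ₂ e) (U : UD) (hT : U.T = tre e) {p : ℕ} (hp : p.Prime) (h2 : p ≠ 2)
    (h : p ∣ gN U.δ) : ∃ P : HeightOneSpectrum (𝓞 K), Ideal.absNorm P.asIdeal = p ∧
      ∀ R : HeightOneSpectrum (𝓞 K), (p : 𝓞 K) ∈ R.asIdeal → R = P := by
  obtain ⟨w, hw1, hw2⟩ := exists_w D U hT
  have hmem : ∀ R : HeightOneSpectrum (𝓞 K), (p : 𝓞 K) ∈ R.asIdeal → w ∈ R.asIdeal := by
    intro R hR
    apply R.isPrime.mem_of_pow_mem 2
    rw [hw1]
    obtain ⟨t, ht⟩ := h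
    rw [ht]
    push_cast
    exact R.asIdeal.mul_mem_right _ hR
  have hno : w ∉ Ideal.span {(p : 𝓞 K)} := by
    intro h1
    apply not_dvd_two_w U hw1 hp h2
    exact dvd_mul_of_dvd_right (Ideal.mem_span_singleton.1 h1) 2
  rcases decomp D.deg hp with ⟨v, hv, hN⟩ | ⟨v, w', hvw, hv, hw'⟩
  · exfalso
    apply hno
    rw [hv]
    exact hmem v (S3_mem_self hv)
  · have hpv : (p : 𝓞 K) ∈ v.asIdeal := S3_mem_left hvw
    have hpw : (p : 𝓞 K) ∈ w'.asIdeal := S3_mem_right hvw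
    have hvw' : v = w' := by
      by_contra hne
      apply hno
      have hcop : IsCoprime v.asIdeal w'.asIdeal := by
        rw [Ideal.isCoprime_iff_sup_eq]
        have hmax := v.isMaximal
        apply hmax.coprime_of_ne w'.isMaximal
        intro h3
        exact hne (HeightOneSpectrum.ext h3)
      rw [hvw, Ideal.mul_eq_inf_of_isCoprime hcop]
      exact ⟨hmem v hpv, hmem w' hpw⟩
    subst hvw'
    refine ⟨v, hv, fun R hR => ?_⟩
    rcases S3_le_of_mul hvw hR with h1 | h1 <;> exact h1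

end Pool.Agent.STg
end

section

/-!
# The characters of `e` and of `δ` have the same sums over the ideals of given norm
-/

open NumberField IsDedekindDomain Pool.Agent.ST

namespace Pool.Agent.STg

open Pool.Agent.STg.F

variable {K : Type*} [Field K] [NumberField K] [Algebra K ℝ] {σ₂ : K →+* ℝ} {e : (𝓞 K)ˣ}

lemma S5_mul_star (a : GaussianInt) : a * star a = ((gN a : ℕ) : GaussianInt) := mul_star_eq a

lemma S5_dvd_im {p : ℕ} {a : GaussianInt} (h : (p : GaussianInt) ∣ a) : (p : ℤ) ∣ a.im := by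
  obtain ⟨c, rfl⟩ := h
  have : (((p : ℕ) : GaussianInt) * c).im = p * c.im := by simp
  rw [this]
  exact Dvd.intro _ rfl

lemma S5_dvd_gN {p : ℕ} {a : GaussianInt} (h : (p : GaussianInt) ∣ a) : p ^ 2 ∣ gN a := by
  obtain ⟨c, rfl⟩ := h
  rw [gN_mul]
  have : gN ((p : ℕ) : GaussianInt) = p ^ 2 := by
    unfold gN
    rw [Zsqrtd.norm_natCast, Int.natAbs_mul, Int.natAbs_natCast]
    ring
  rw [this]
  exact Dvd.intro _ rfl

lemma S5_sq (U : UD) {p : ℕ} (hp : p.Prime) (h : p ^ 2 ∣ gN U.δ) : False := by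
  have h1 := U.sqf p (by rw [← pow_two]; exact h)
  exact hp.one_lt.ne' (Nat.isUnit_iff.1 h1)

/-- `p = 3` modulo `4` does not divide `N(δ)` -/
lemma S5_three (U : UD) {p : ℕ} (hp : p.Prime) (h4 : p % 4 = 3) : ¬ p ∣ gN U.δ := by
  intro h
  have : Fact p.Prime := ⟨hp⟩
  have hpr : Prime (p : GaussianInt) := GaussianInt.prime_of_nat_prime_of_mod_four_eq_three p h4
  have h1 : (p : GaussianInt) ∣ U.δ * star U.δ := by
    rw [S5_mul_star]
    exact Nat.cast_dvd_cast h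
  rcases hpr.dvd_or_dvd h1 with h2 | h2
  · exact S5_sq U hp (S5_dvd_gN h2)
  · have h3 : (p : GaussianInt) ∣ U.δ := by
      have h4 := R5b_star_dvd h2
      rw [star_star] at h4
      simpa using h4
    exact S5_sq U hp (S5_dvd_gN h3)

lemma S5_prod_dvd {π a : GaussianInt} (h1 : Prime π) (h2 : Prime (star π))
    (h3 : ¬ Associated π (star π)) (ha : π ∣ a) (hb : star π ∣ a) :
    ((gN π : ℕ) : GaussianInt) ∣ a := by
  rw [← S5_mul_star]
  have hcop : IsCoprime π (star π) := by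
    rw [h1.coprime_iff_not_dvd]
    intro h
    exact h3 ((h1.dvd_prime_iff_associated h2).1 h)
  exact hcop.mul_dvd ha hb

/-- not both conjugate primes divide `T + 2 i` -/
lemma S5_not_both (U : UD) {p : ℕ} (hp : p.Prime) (h4 : p % 4 = 1) {π : GaussianInt}
    (h1 : Prime π) (h2 : Prime (star π)) (h3 : ¬ Associated π (star π)) (hN : gN π = p)
    (ha : π ∣ (⟨U.T, 2⟩ : GaussianInt)) (hb : star π ∣ (⟨U.T, 2⟩ : GaussianInt)) : False := by
  have h5 := S5_prod_dvd h1 h2 h3 ha hb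
  rw [hN] at h5
  have h6 := S5_dvd_im h5
  have h7 : (p : ℤ) ∣ 2 := h6
  have h8 : p ∣ 2 := by exact_mod_cast h7
  have h9 := (Nat.prime_dvd_prime_iff_eq hp Nat.prime_two).1 h8
  omega

omit [Algebra K ℝ] in
lemma S5_two_notMem {P : HeightOneSpectrum (𝓞 K)} {p : ℕ} (hp : p.Prime) (h2 : p ≠ 2)
    (hP : Ideal.absNorm P.asIdeal = p) : (2 : 𝓞 K) ∉ P.asIdeal := by
  intro h
  have h1 : ((2 : ℤ) : 𝓞 K) ∈ P.asIdeal := by exact_mod_cast h
  have h3 := S5a_int_mem hp hP h1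
  have h4 : p ∣ 2 := by exact_mod_cast h3
  exact h2 ((Nat.prime_dvd_prime_iff_eq hp Nat.prime_two).1 h4)

lemma S5_chi_three {p : ℕ} (h4 : p % 4 = 3) : ZMod.χ₄ (p : ZMod 4) = -1 :=
  ZMod.χ₄_nat_three_mod_four h4

lemma S5_chi_one {p : ℕ} (h4 : p % 4 = 1) : ZMod.χ₄ (p : ZMod 4) = 1 :=
  ZMod.χ₄_nat_one_mod_four h4

lemma S5_jacobi {p d : ℕ} (hp : p.Prime) (h : ¬ p ∣ d) :
    jacobiSym (d : ℤ) p = 1 ∨ jacobiSym (d : ℤ) p = -1 := by
  apply jacobiSym.eq_one_or_neg_one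
  have h1 : Nat.Coprime d p := ((Nat.Prime.coprime_iff_not_dvd hp).2 h).symm
  rw [Int.gcd_natCast_natCast]
  exact h1

/-- `p = 3` modulo `4`: `p ∤ d = N(δ)`. `(d / p) = 1`: `typeK_split` (product of the values `-1`) and
`typeM_inert`; `(d / p) = -1`: `typeK_inert` and `typeM_inert`. -/
theorem match_three (D : FD σ₂ e) (U : UD) (hT : U.T = tre e) {p : ℕ} (hp : p.Prime)
    (h4 : p % 4 = 3) : Match (chiK e) (chiM U) p := by
  have h2 : p ≠ 2 := by omega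
  have hd := S5_three U hp h4
  rcases S5_jacobi hp hd with hj | hj
  · obtain ⟨P, Q, hne, hP, hQ, hprod, hR⟩ := typeK_split D U hT hp h2 hj
    have hM := typeM_inert U hp h4
    rw [hj] at hM
    rw [S5_chi_three h4] at hprod
    right; right; left
    refine ⟨?_, hM⟩
    rcases Int.mul_eq_neg_one_iff_eq_one_or_neg_one.1 hprod with ⟨ha, hb⟩ | ⟨ha, hb⟩
    · exact ⟨P, Q, hne, hP, hQ, ha, hb, hR⟩
    · exact ⟨Q, P, hne.symm, hQ, hP, hb, ha, fun R h => (hR R h).symm⟩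
  · have hK := typeK_inert D U hT hp h2 hj
    have hM := typeM_inert U hp h4
    rw [hj] at hM
    rw [S5_chi_three h4] at hK
    right; right; right; left
    exact ⟨hK, hM⟩

/-- `p = 1` modulo `4`: `π` as in `exists_pi`; not both `π`, `π' = star π` divide `T + 2 i` (otherwise
`p ∣ 2`). `(d / p) = 1`: `typeK_split`: the two values are equal, to `a` say; `Ψ(π) Ψ(π') = 1`
(`psi_mul_star`), and `a = Ψ(π)` or `a = Ψ(π')` by `sym_eq`. `(d / p) = -1`: `typeK_inert` (value `1`) and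
`Ψ(π) Ψ(π') = -1`. `p ∣ d`: exactly one of `π`, `π'` divides `δ`, say `π` (value of `chiM` is `0`), `π' ∤ T + 2 i`;
`typeK_ram`, `chiP e P = Ψ(π')` by `sym_eq`. -/
theorem match_one (D : FD σ₂ e) (U : UD) (hT : U.T = tre e) {p : ℕ} (hp : p.Prime)
    (h4 : p % 4 = 1) : Match (chiK e) (chiM U) p := by
  have h2 : p ≠ 2 := by omega
  obtain ⟨π, hπ, hπP, hπ', hπP', hna, hN, hN', hall⟩ := exists_pi hp h4
  have hM := typeM_split U hp hπ hπ' hna hN hN' hall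
  by_cases hd : p ∣ gN U.δ
  · obtain ⟨P, hP, hR⟩ := typeK_ram D U hT hp h2 hd
    right; right; right; right
    refine ⟨chiK e P.asIdeal, ⟨P, hP, rfl, hR⟩, ?_⟩
    rw [chiK_odd e P (S5_two_notMem hp h2 hP)]
    have hnotboth : ¬ (π ∣ U.δ ∧ star π ∣ U.δ) := by
      rintro ⟨ha, hb⟩
      have h5 := S5_prod_dvd hπ hπ' hna ha hb
      rw [hN] at h5
      exact S5_sq U hp (S5_dvd_gN h5)
    have hzero : ∀ ρ : GaussianInt, Prime ρ → Prim ρ → ρ ∣ U.δ →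
        chiM U (Ideal.span {gi ρ}) = 0 := by
      intro ρ hρ hρP hρδ
      unfold chiM
      rw [dif_neg]
      rintro ⟨β, hβ1, hβ2, hβ3⟩
      have h5 : Associated ρ β := S4a_assoc hβ3
      have h6 := Prim.eq_of_associated hρP hβ1 h5
      rw [← h6] at hβ2
      exact ((hρ.coprime_iff_not_dvd).1 hβ2) hρδ
    have hδT : U.δ ∣ (⟨U.T, 2⟩ : GaussianInt) := by
      rw [U.fac]
      exact Dvd.intro _ rfl
    have hcases : π ∣ U.δ ∨ star π ∣ U.δ := by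
      have h5 : π ∣ U.δ * star U.δ := by
        rw [S5_mul_star]
        have h6 : π ∣ ((p : ℕ) : GaussianInt) := by
          rw [← hN, ← S5_mul_star]
          exact Dvd.intro _ rfl
        exact h6.trans (Nat.cast_dvd_cast hd)
      rcases hπ.dvd_or_dvd h5 with h6 | h6
      · exact Or.inl h6
      · right
        have h7 := R5b_star_dvd h6
        rwa [star_star] at h7
    rcases hcases with hc | hc
    · have hnd : ¬ star π ∣ U.δ := fun h => hnotboth ⟨hc, h⟩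
      have hndT : ¬ star π ∣ (⟨U.T, 2⟩ : GaussianInt) := fun h =>
        S5_not_both U hp h4 hπ hπ' hna hN (hc.trans hδT) h
      have hs := sym_eq D U hT hp h2 hP hπ' hπP' hN' hndT
      rw [hs, ← chiM_span U hπP' ((hπ'.coprime_iff_not_dvd).2 hnd)]
      rw [hzero π hπ hπP hc] at hM
      exact hM
    · have hnd : ¬ π ∣ U.δ := fun h => hnotboth ⟨h, hc⟩
      have hndT : ¬ π ∣ (⟨U.T, 2⟩ : GaussianInt) := fun h =>
        S5_not_both U hp h4 hπ hπ' hna hN h (hc.trans hδT)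
      have hs := sym_eq D U hT hp h2 hP hπ hπP hN hndT
      rw [hs, ← chiM_span U hπP ((hπ.coprime_iff_not_dvd).2 hnd)]
      rw [hzero (star π) hπ' hπP' hc] at hM
      exact hM.symm
  · have hcop : IsCoprime π U.δ := R5b_cop (by rw [hN]; exact hp) (by rw [hN]; exact hd)
    have hcop' : IsCoprime (star π) U.δ := R5b_cop (by rw [hN']; exact hp) (by rw [hN']; exact hd)
    rw [chiM_span U hπP hcop, chiM_span U hπP' hcop'] at hM
    have hps := psi_mul_star U hp hπ hπP hπ' hπP' hN hd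
    rcases S5_jacobi hp hd with hj | hj
    · obtain ⟨P, Q, hne, hP, hQ, hprod, hR⟩ := typeK_split D U hT hp h2 hj
      rw [S5_chi_one h4] at hprod
      rw [hj] at hps
      left
      have hab : chiK e P.asIdeal = chiK e Q.asIdeal := by
        rcases Int.mul_eq_one_iff_eq_one_or_neg_one.1 hprod with ⟨ha, hb⟩ | ⟨ha, hb⟩ <;> rw [ha, hb]
      have hψ : ((U.Ψ π : ℤˣ) : ℤ) = ((U.Ψ (star π) : ℤˣ) : ℤ) := by
        rcases Int.mul_eq_one_iff_eq_one_or_neg_one.1 hps with ⟨ha, hb⟩ | ⟨ha, hb⟩ <;> rw [ha, hb]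
      have hkey : chiK e P.asIdeal = ((U.Ψ π : ℤˣ) : ℤ) := by
        rw [chiK_odd e P (S5_two_notMem hp h2 hP)]
        by_cases hdT : π ∣ (⟨U.T, 2⟩ : GaussianInt)
        · have hndT : ¬ star π ∣ (⟨U.T, 2⟩ : GaussianInt) := fun h =>
            S5_not_both U hp h4 hπ hπ' hna hN hdT h
          rw [hψ]
          exact sym_eq D U hT hp h2 hP hπ' hπP' hN' hndT
        · exact sym_eq D U hT hp h2 hP hπ hπP hN hdT
      exact ⟨_, _, ⟨P, Q, hne, hP, hQ, hkey, hab ▸ (hkey.trans hψ), hR⟩, hM⟩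
    · have hK := typeK_inert D U hT hp h2 hj
      rw [S5_chi_one h4] at hK
      rw [hj] at hps
      right; left
      refine ⟨hK, ?_⟩
      rcases Int.mul_eq_neg_one_iff_eq_one_or_neg_one.1 hps with ⟨ha, hb⟩ | ⟨ha, hb⟩
      · rw [ha, hb] at hM
        exact hM
      · rw [ha, hb] at hM
        exact hM.symm

theorem cS_K_eq_M (D : FD σ₂ e) (U : UD) (hT : U.T = tre e) {n : ℕ} (hn : n ≠ 0) :
    cS (chiK e) n = cS (chiM U) n := by
  refine cS_eq_of_match (cm_chiK e) (cm_chiM U) (chiK_two e) (chiM_two U) ?_ hn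
  intro p hp hp2
  have h1 := hp.eq_two_or_odd
  rcases h1 with h | h
  · exact absurd h hp2
  · rcases (show p % 4 = 1 ∨ p % 4 = 3 by omega) with h3 | h3
    · exact match_one D U hT hp h3
    · exact match_three D U hT hp h3

end Pool.Agent.STg
end
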