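import Pool.Agent.Lib.MP_1ef7cf_nt_g.Mg.G070
import Pool.Agent.Lib.MP_1ef7cf_nt_g.Mg.G069
import Pool.Agent.Lib.MP_1ef7cf_nt.Norm2
import Pool.Agent.Lib.MP_1ef7cf_nt_g.Mg.G068
import Pool.Agent.Lib.MP_1ef7cf_nt_g.Mg.G066
import Pool.Agent.Lib.MP_1ef7cf_nt_g.Mg.G044

section

/-!
# Antisymmetry
-/

open NumberField IsDedekindDomain Pool.Agent.ST

namespace Pool.Agent.STg

open Pool.Agent.STg.F

variable {K : Type*} [Field K] [NumberField K] [Algebra K ℝ] {σ₂ : K →+* ℝ} {e : (𝓞 K)ˣ}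

private lemma S8a_exists_two : ∃ v : HeightOneSpectrum (𝓞 K), (2 : 𝓞 K) ∈ v.asIdeal := by
  have hne : Ideal.span {(2 : 𝓞 K)} ≠ ⊤ := by
    rw [Ne, Ideal.span_singleton_eq_top]
    intro hu
    have h1 := hu.map (Algebra.norm ℤ)
    have h2 : Algebra.norm ℤ (2 : 𝓞 K) = 2 ^ Module.finrank ℤ (𝓞 K) := by
      have : (2 : 𝓞 K) = algebraMap ℤ (𝓞 K) 2 := by simp
      rw [this, Algebra.norm_algebraMap]
    rw [h2, Int.isUnit_iff] at h1
    have h3 : 0 < Module.finrank ℤ (𝓞 K) := by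
      rw [RingOfIntegers.rank]; exact Module.finrank_pos
    rcases h1 with h1 | h1
    · have h4 : (2 : ℤ) ∣ 1 := by rw [← h1]; exact dvd_pow_self 2 h3.ne'
      norm_num at h4
    · have h4 : (2 : ℤ) ∣ -1 := by rw [← h1]; exact dvd_pow_self 2 h3.ne'
      norm_num at h4
  obtain ⟨M, hM, hM2⟩ := Ideal.exists_le_maximal _ hne
  have h2 : (2 : 𝓞 K) ∈ M := hM2 (Ideal.mem_span_singleton_self _)
  refine ⟨⟨M, hM.isPrime, ?_⟩, h2⟩
  rintro rfl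
  rw [Ideal.mem_bot] at h2
  exact two_ne_zero h2

/-- multiplication by the class `c` maps the classes with coordinates `s`, `n` to those with
coordinates `-s`, `n` (`art_c`) -/
lemma mul_c_mem (D : FD σ₂ e) {m : Ideal (𝓞 K)}
    (hm : ∀ v : HeightOneSpectrum (𝓞 K), v.asIdeal ∣ m ↔ (2 : 𝓞 K) ∈ v.asIdeal) (hm0 : m ≠ ⊥)
    {H : IntermediateField K ℝ} {Art : RayClassGroup σ₂ m ≃* (H ≃ₐ[K] H)}
    (hA : IsRayClassField σ₂ m H Art) {k : ℕ} (hs : se e ∈ H)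
    (hk : Real.cos (2 * Real.pi / 2 ^ k) ∈ H) {c : RayClassGroup σ₂ m} (hc : IsC σ₂ m c)
    (s : ℤˣ) (n : ℕ) (A : RayClassGroup σ₂ m) :
    A ∈ ClsSet e Art k s n ↔ A * c ∈ ClsSet e Art k (-s) n := by
  obtain ⟨h1, h2⟩ := art_c D hm0 (fun v hv => (hm v).mpr hv) hA hs hk hc
  have e1 : act (Art (A * c)) (se e) = -act (Art A) (se e) := by
    rw [map_mul, act_comp _ _ hs, h1, act_neg _ hs]
  have e2 : act (Art (A * c)) (Real.cos (2 * Real.pi / 2 ^ k)) =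
      act (Art A) (Real.cos (2 * Real.pi / 2 ^ k)) := by
    rw [map_mul, act_comp _ _ hk, h2]
  show (act (Art A) (se e) = ((s : ℤ) : ℝ) * se e ∧
    act (Art A) (Real.cos (2 * Real.pi / 2 ^ k)) = Real.cos (2 * Real.pi * n / 2 ^ k)) ↔
    (act (Art (A * c)) (se e) = (((-s : ℤˣ) : ℤ) : ℝ) * se e ∧
    act (Art (A * c)) (Real.cos (2 * Real.pi / 2 ^ k)) = Real.cos (2 * Real.pi * n / 2 ^ k))
  rw [e1, e2, Units.val_neg]
  push_cast
  constructor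
  · rintro ⟨h3, h4⟩
    exact ⟨by rw [h3]; ring, h4⟩
  · rintro ⟨h3, h4⟩
    exact ⟨by linarith, h4⟩

/-- antisymmetry: `zd_mul_c` and `mul_c_mem` -/
lemma sum_zd_neg (D : FD σ₂ e) {m : Ideal (𝓞 K)}
    (hm : ∀ v : HeightOneSpectrum (𝓞 K), v.asIdeal ∣ m ↔ (2 : 𝓞 K) ∈ v.asIdeal) (hm0 : m ≠ ⊥)
    {H : IntermediateField K ℝ} {Art : RayClassGroup σ₂ m ≃* (H ≃ₐ[K] H)}
    (hA : IsRayClassField σ₂ m H Art) {k : ℕ} (hs : se e ∈ H)
    (hk : Real.cos (2 * Real.pi / 2 ^ k) ∈ H) (s : ℤˣ) (n : ℕ)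
    {S S' : Finset (RayClassGroup σ₂ m)} (hS : ∀ A, A ∈ S ↔ A ∈ ClsSet e Art k s n)
    (hS' : ∀ A, A ∈ S' ↔ A ∈ ClsSet e Art k (-s) n) :
    ∑ A ∈ S', zd σ₂ m A = -∑ A ∈ S, zd σ₂ m A := by
  obtain ⟨c, hc⟩ := exists_isC (σ₂ := σ₂) hm0
  have hm1 : m ≠ ⊤ := by
    rintro rfl
    obtain ⟨v, hv⟩ := S8a_exists_two (K := K)
    have h1 := (hm v).mpr hv
    exact v.isPrime.ne_top (top_le_iff.mp (Ideal.dvd_iff_le.mp h1))
  have h3 : ∑ A ∈ S', zd σ₂ m A = ∑ A ∈ S, zd σ₂ m (A * c) := by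
    symm
    refine Finset.sum_bij (fun A _ => A * c) ?_ ?_ ?_ ?_
    · intro A hA'
      exact (hS' _).mpr ((mul_c_mem D hm hm0 hA hs hk hc s n A).mp ((hS A).mp hA'))
    · intro A _ B _ hAB
      exact mul_right_cancel hAB
    · intro B hB
      refine ⟨B * c⁻¹, ?_, by rw [inv_mul_cancel_right]⟩
      refine (hS _).mpr ((mul_c_mem D hm hm0 hA hs hk hc s n _).mpr ?_)
      rw [inv_mul_cancel_right]
      exact (hS' B).mp hB
    · intro A _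
      rfl
  rw [h3, ← Finset.sum_neg_distrib]
  refine Finset.sum_congr rfl ?_
  intro A _
  have := zd_mul_c D.deg D.ne hm0 hm1 hc A
  linarith

end Pool.Agent.STg
end

section

/-!
# The values of the partial zeta functions
-/

open NumberField IsDedekindDomain Pool.Agent.ST

namespace Pool.Agent.STg

open Pool.Agent.STg.F

variable {K : Type*} [Field K] [NumberField K] [Algebra K ℝ] {σ₂ : K →+* ℝ} {e : (𝓞 K)ˣ}

omit [Algebra K ℝ] in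
private lemma S8_ne_top {m : Ideal (𝓞 K)}
    (hm : ∀ v : HeightOneSpectrum (𝓞 K), v.asIdeal ∣ m ↔ (2 : 𝓞 K) ∈ v.asIdeal) : m ≠ ⊤ := by
  rintro rfl
  have h2 : Ideal.span {(2 : 𝓞 K)} ≠ ⊤ := by
    intro h
    rw [Ideal.span_singleton_eq_top] at h
    have h3 := h.map (Algebra.norm ℤ)
    rw [Int.isUnit_iff] at h3
    have h4 : Algebra.norm ℤ (2 : 𝓞 K) = 2 ^ Module.finrank ℤ (𝓞 K) := by
      have := Algebra.norm_algebraMap (S := 𝓞 K) (2 : ℤ)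
      simpa using this
    have h5 : 0 < Module.finrank ℤ (𝓞 K) := by
      rw [RingOfIntegers.rank K]
      exact Module.finrank_pos
    rw [h4] at h3
    obtain ⟨r, hr⟩ : ∃ r, Module.finrank ℤ (𝓞 K) = r + 1 := ⟨_, (Nat.succ_pred_eq_of_pos h5).symm⟩
    rw [hr, pow_succ] at h3
    omega
  obtain ⟨P, hP, hle⟩ := Ideal.exists_le_maximal _ h2
  have h2P : (2 : 𝓞 K) ∈ P := hle (Ideal.mem_span_singleton_self _)
  have hPb : P ≠ ⊥ := by
    rintro rfl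
    exact two_ne_zero (α := 𝓞 K) h2P
  have h1 := (hm ⟨P, hP.isPrime, hPb⟩).2 h2P
  rw [Ideal.dvd_iff_le] at h1
  exact hP.isPrime.ne_top (top_le_iff.1 h1)

/-- **The values of the zeta functions.** `hasSum_K` and `hasSum_M` have the same terms: for `l ≠ 0`,
`cS (chiK e) l = cS (chiM U) l` (`cS_K_eq_M`), and it is `0` for `l = 3` modulo `4`
(`cS_chiM_three`); for `l = 1` modulo `4` and `k ≥ 2`, `n = 1` modulo `4`: `2 ^ k ∣ l + n` is
impossible (`4 ∤ 2`), and if `2 ^ k ∣ l - n` then `l = 1` modulo `4`. So the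
function `∑_S Z A - ∑_S' Z A` and the function `G` of `hasSum_M` agree for `Re w > 1`, hence outside
`1` (`eq_of_eq_right`), and the derivatives at `0` agree (`deriv_eq_of_eqOn`):
`∑_S zd - ∑_S' zd = - log xv`, and the left side is `2 ∑_S zd` (`sum_zd_neg`). -/
theorem S_main (D : LemData) (F : FD σ₂ e) (U : UD) (hT : U.T = tre e) {m : Ideal (𝓞 K)}
    (hm : ∀ v : HeightOneSpectrum (𝓞 K), v.asIdeal ∣ m ↔ (2 : 𝓞 K) ∈ v.asIdeal) (hm0 : m ≠ ⊥)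
    {H : IntermediateField K ℝ} {Art : RayClassGroup σ₂ m ≃* (H ≃ₐ[K] H)}
    (hA : IsRayClassField σ₂ m H Art) {k J : ℕ} (hk2 : 2 ≤ k) (hJ : k + 4 ≤ J) (hs : se e ∈ H)
    (hk : Real.cos (2 * Real.pi / 2 ^ k) ∈ H) (s : ℤˣ) {n : ℕ} (hn : n % 4 = 1)
    {S : Finset (RayClassGroup σ₂ m)} (hS : ∀ A, A ∈ S ↔ A ∈ ClsSet e Art k s n) :
    -2 * ∑ A ∈ S, zd σ₂ m A = Real.log (xv D U k J (s, nu k n)) := by
  classical
  have hfd := hA.finite
  have hfin : Finite (RayClassGroup σ₂ m) := Finite.of_equiv _ Art.symm.toEquiv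
  have hfty : Fintype (RayClassGroup σ₂ m) := Fintype.ofFinite _
  have hm1 : m ≠ ⊤ := S8_ne_top hm
  obtain ⟨S', hS'⟩ : ∃ S' : Finset (RayClassGroup σ₂ m), ∀ A, A ∈ S' ↔ A ∈ ClsSet e Art k (-s) n :=
    ⟨Finset.univ.filter (fun A => A ∈ ClsSet e Art k (-s) n), fun A => by simp⟩
  choose Z hZ _ using exists_pz (σ₂ := σ₂) F.deg F.ne hm0 hm1
  have hz : ∃ β : GaussianInt, Prim β ∧ IsCoprime β U.δ ∧ sM U k β = zc k := by
    obtain ⟨α, h1, h2, h3, _⟩ := exists_zc U k (q := 1) isCoprime_one_left 0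
    exact ⟨α, h1, h2, h3⟩
  have hodd : Odd n := by
    rw [Nat.odd_iff]
    omega
  obtain ⟨G, hG1, hG2, hG3⟩ := hasSum_M D U (k := k) (J := J) hJ hz s hodd
  have h4k : (4 : ℤ) ∣ 2 ^ k := by
    have : (4 : ℤ) = 2 ^ 2 := by norm_num
    rw [this]
    exact pow_dvd_pow 2 hk2
  have hterm : ∀ l : ℕ, (if l ≠ 0 ∧ ((2 : ℤ) ^ k ∣ (l : ℤ) - n ∨ (2 : ℤ) ^ k ∣ (l : ℤ) + n)
      then (s : ℤ) * cS (chiK e) l else 0 : ℤ) =
      (if l ≠ 0 ∧ (2 : ℤ) ^ k ∣ (l : ℤ) - n then (s : ℤ) * cS (chiM U) l else 0 : ℤ) := by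
    intro l
    by_cases hl : l = 0
    · rw [if_neg (by tauto), if_neg (by tauto)]
    · by_cases h1 : (2 : ℤ) ^ k ∣ (l : ℤ) - n
      · rw [if_pos ⟨hl, Or.inl h1⟩, if_pos ⟨hl, h1⟩, cS_K_eq_M F U hT hl]
      · by_cases h2 : (2 : ℤ) ^ k ∣ (l : ℤ) + n
        · rw [if_pos ⟨hl, Or.inr h2⟩, if_neg (fun h => h1 h.2), cS_K_eq_M F U hT hl]
          have h3 : (4 : ℤ) ∣ (l : ℤ) + n := h4k.trans h2
          have h4 : l % 4 = 3 := by omega
          rw [cS_chiM_three U h4, mul_zero]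
        · rw [if_neg (by tauto), if_neg (by tauto)]
  have hopen : IsOpen ({1}ᶜ : Set ℂ) := isOpen_compl_singleton
  have hGan : AnalyticOnNhd ℂ G {1}ᶜ := hG1.analyticOnNhd hopen
  have hS1 : AnalyticOnNhd ℂ (fun w => ∑ A ∈ S, Z A w) {1}ᶜ :=
    Finset.analyticOnNhd_fun_sum S fun A _ => (hZ A).1
  have hS2 : AnalyticOnNhd ℂ (fun w => ∑ A ∈ S', Z A w) {1}ᶜ :=
    Finset.analyticOnNhd_fun_sum S' fun A _ => (hZ A).1
  have heq : ∀ w : ℂ, 1 < w.re → (∑ A ∈ S, Z A w - ∑ A ∈ S', Z A w) = G w := by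
    intro w hw
    have a1 := hasSum_K F hm hm0 hA hs hk s n hZ hS hS' hw
    have a2 := hG2 w hw
    simp only [hterm] at a1
    exact a1.unique a2
  have h5 := deriv_eq_of_eqOn (eq_of_eq_right (hS1.sub hS2) hGan heq)
  have h0mem : (0 : ℂ) ∈ ({1}ᶜ : Set ℂ) := by simp
  have hd : ∀ A, DifferentiableAt ℂ (Z A) 0 := fun A => ((hZ A).1 0 h0mem).differentiableAt
  have h6 : deriv ((fun w => ∑ A ∈ S, Z A w) - (fun w => ∑ A ∈ S', Z A w)) 0 =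
      ((∑ A ∈ S, zd σ₂ m A - ∑ A ∈ S', zd σ₂ m A : ℝ) : ℂ) := by
    rw [deriv_sub (hS1 0 h0mem).differentiableAt (hS2 0 h0mem).differentiableAt,
      deriv_fun_sum (fun A _ => hd A), deriv_fun_sum (fun A _ => hd A)]
    push_cast
    congr 1
    · exact Finset.sum_congr rfl fun A _ => (zd_eq (hZ A)).symm
    · exact Finset.sum_congr rfl fun A _ => (zd_eq (hZ A)).symm
  rw [h6, hG3] at h5
  have h7 : ∑ A ∈ S, zd σ₂ m A - ∑ A ∈ S', zd σ₂ m A = -Real.log (xv D U k J (s, nu k n)) := by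
    exact_mod_cast h5
  rw [sum_zd_neg F hm hm0 hA hs hk s n hS hS'] at h7
  linarith

end Pool.Agent.STg
end
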