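import Pool.Agent.Lib.MP_1ef7cf_nt_g.Mg.G050
import Pool.Agent.Lib.MP_1ef7cf_nt_h.Mg.G002
import Pool.Agent.Lib.MP_1ef7cf_nt_f.Mg.G001
import Pool.Agent.Lib.MP_1ef7cf_nt_g.Mg.G064
import Pool.Agent.Lib.MP_1ef7cf_nt_g.Z4
import Pool.Agent.Lib.MP_1ef7cf_nt_g.Mg.G056
import Pool.Agent.Lib.MP_1ef7cf_nt_g.F26
import Pool.Agent.Lib.MP_1ef7cf_nt_g.F28
import Pool.Agent.Lib.MP_1ef7cf_nt_g.F30

section

/-!
# The tower grows at each step
-/

open NumberField IsDedekindDomain Pool.Agent.ST Pool.Agent.STb Pool.Agent.STf IntermediateField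

namespace Pool.Agent.STg

open Pool.Agent.STg.F

variable {K : Type*} [Field K] [NumberField K] [Algebra K ℝ] {σ₂ : K →+* ℝ} {e : (𝓞 K)ˣ}

lemma Lf_eq_twK (e : (𝓞 K)ˣ) (k : ℕ) : Lf e k = twK K⟮se e⟯ (k - 2) := layer_eq _ _

lemma Lf_mono (e : (𝓞 K)ˣ) {k k' : ℕ} (h : k ≤ k') : Lf e k ≤ Lf e k' := layer_mono _ h

/-- `2 + √2` is not `q b ^ 2` with `q` rational and `b ∈ ℚ(√2)`: take norms, `2` is not the square of a
rational number. -/
lemma two_add_sqrt {q a b : ℚ} (h : (2 : ℝ) + Real.sqrt 2 = q * (a + b * Real.sqrt 2) ^ 2) :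
    False := by
  have hs : Real.sqrt 2 ^ 2 = 2 := Real.sq_sqrt (by norm_num)
  have h1 : (2 : ℝ) - q * (a ^ 2 + 2 * b ^ 2) = (2 * q * a * b - 1) * Real.sqrt 2 := by
    linear_combination h + q * b ^ 2 * hs
  have h2 : (2 * q * a * b - 1 : ℚ) = 0 := by
    by_contra h3
    apply irrational_sqrt_two
    refine ⟨(2 - q * (a ^ 2 + 2 * b ^ 2)) / (2 * q * a * b - 1), ?_⟩
    have h4 : ((2 * q * a * b - 1 : ℚ) : ℝ) ≠ 0 := by exact_mod_cast h3
    push_cast at h4 ⊢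
    rw [div_eq_iff h4]
    linear_combination h1
  have h3 : (2 * q * a * b - 1 : ℝ) = 0 := by exact_mod_cast h2
  have h4 : (2 : ℝ) - q * (a ^ 2 + 2 * b ^ 2) = 0 := by rw [h1, h3, zero_mul]
  have h5 : (q * (a ^ 2 - 2 * b ^ 2) : ℝ) ^ 2 = 2 := by
    linear_combination (-2 - (q * (a ^ 2 + 2 * b ^ 2) : ℝ)) * h4 -
      2 * (2 * q * a * b + 1 : ℝ) * h3
  apply irrational_sqrt_two
  refine ⟨|q * (a ^ 2 - 2 * b ^ 2)|, ?_⟩
  push_cast
  rw [← Real.sqrt_sq_eq_abs]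
  congr 1

lemma Z3a_cc_one : cc 1 = Real.sqrt 2 := by
  rw [cc_succ, cc_zero, add_zero]

/-- the square root of the discriminant -/
noncomputable def Z3a_th (e : (𝓞 K)ˣ) : ℝ := 2 * algebraMap K ℝ ((e : 𝓞 K) : K) - (tre e : ℝ)

lemma Z3a_th_sq (D : FD σ₂ e) : Z3a_th e ^ 2 = (((tre e ^ 2 + 4 : ℤ) : ℚ) : ℝ) := by
  have h1 : (algebraMap K ℝ ((e : 𝓞 K) : K)) ^ 2 =
      (tre e : ℝ) * algebraMap K ℝ ((e : 𝓞 K) : K) + 1 := by
    have h2 := congrArg (fun x : 𝓞 K => algebraMap K ℝ (x : K)) (e_sq D)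
    simp only [map_pow, map_add, map_mul, map_intCast, map_one] at h2
    exact h2
  unfold Z3a_th
  push_cast
  linear_combination 4 * h1

lemma Z3a_notMem_bot (D : FD σ₂ e) : Z3a_th e ∉ (⊥ : IntermediateField ℚ ℝ) := by
  intro h
  obtain ⟨q, hq⟩ := IntermediateField.mem_bot.1 h
  have h1 : algebraMap K ℝ ((e : 𝓞 K) : K) = algebraMap K ℝ (((q + tre e) / 2 : ℚ) : K) := by
    rw [map_ratCast]
    unfold Z3a_th at hq
    have h2 : (q : ℝ) = 2 * algebraMap K ℝ ((e : 𝓞 K) : K) - (tre e : ℝ) := hq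
    push_cast
    rw [h2]
    ring
  have h3 : ((e : 𝓞 K) : K) = (((q + tre e) / 2 : ℚ) : K) := (algebraMap K ℝ).injective h1
  have h4 : σ₂ ((e : 𝓞 K) : K) = algebraMap K ℝ ((e : 𝓞 K) : K) := by
    rw [h3, map_ratCast, map_ratCast]
  have h5 := D.nrm
  rw [h4] at h5
  have h6 := D.pos
  have h7 : 0 < (algebraMap K ℝ ((e : 𝓞 K) : K))⁻¹ := inv_pos.2 h6
  linarith

lemma Z3a_K0 (D : FD σ₂ e) : K0 K = ext ⊥ (Z3a_th e) := by
  symm
  have hle : ext ⊥ (Z3a_th e) ≤ K0 K := by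
    apply ext_le bot_le
    apply mem_K0.2
    refine ⟨2 * ((e : 𝓞 K) : K) - (tre e : K), ?_⟩
    unfold Z3a_th
    rw [map_sub, map_mul, map_ofNat, map_intCast]
  apply IntermediateField.eq_of_le_of_finrank_le hle
  rw [finrank_K0 D.deg]
  have hfd : FiniteDimensional ℚ (ext ⊥ (Z3a_th e)) :=
    FiniteDimensional.of_injective (IntermediateField.inclusion hle).toLinearMap
      (IntermediateField.inclusion hle).injective
  by_contra hcon
  push Not at hcon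
  have h1 : 0 < Module.finrank ℚ (ext ⊥ (Z3a_th e)) := Module.finrank_pos
  have h2 : Module.finrank ℚ (ext ⊥ (Z3a_th e)) = 1 := by omega
  have h3 := IntermediateField.finrank_eq_one_iff.1 h2
  apply Z3a_notMem_bot D
  rw [← h3]
  exact self_mem_ext _ _

lemma Z3a_mem_F2 {x : ℝ} : x ∈ ext (⊥ : IntermediateField ℚ ℝ) (cc 1) ↔
    ∃ a b : ℚ, x = a + b * Real.sqrt 2 := by
  have h1 : cc 1 ^ 2 ∈ (⊥ : IntermediateField ℚ ℝ) := by
    rw [cc_sq, cc_zero, add_zero]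
    exact ofNat_mem _ 2
  have h2 : cc 1 ∉ (⊥ : IntermediateField ℚ ℝ) := by
    intro h
    obtain ⟨q, hq⟩ := IntermediateField.mem_bot.1 h
    apply irrational_sqrt_two
    rw [Z3a_cc_one] at hq
    exact ⟨q, hq⟩
  rw [mem_ext_iff h1 h2]
  constructor
  · rintro ⟨a, ha, b, hb, rfl⟩
    obtain ⟨a, rfl⟩ := IntermediateField.mem_bot.1 ha
    obtain ⟨b, rfl⟩ := IntermediateField.mem_bot.1 hb
    exact ⟨a, b, by rw [Z3a_cc_one]; rfl⟩
  · rintro ⟨a, b, rfl⟩
    exact ⟨a, (⊥ : IntermediateField ℚ ℝ).algebraMap_mem a, b,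
      (⊥ : IntermediateField ℚ ℝ).algebraMap_mem b, by rw [Z3a_cc_one]⟩

lemma Z3a_stepB (D : FD σ₂ e) : cc 2 ∉ ext (K0 K) (cc 1) := by
  intro h
  rw [Z3a_K0 D, ext_comm'] at h
  have hcc : cc 2 ^ 2 = 2 + Real.sqrt 2 := by rw [cc_sq, Z3a_cc_one]
  have hF2 : (2 : ℝ) + Real.sqrt 2 ∈ ext (⊥ : IntermediateField ℚ ℝ) (cc 1) :=
    Z3a_mem_F2.2 ⟨2, 1, by push_cast; ring⟩
  have hkey : ∀ u ∈ ext (⊥ : IntermediateField ℚ ℝ) (cc 1), ∀ q : ℚ,
      (2 : ℝ) + Real.sqrt 2 ≠ q * u ^ 2 := by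
    rintro u hu q h1
    obtain ⟨a, b, rfl⟩ := Z3a_mem_F2.1 hu
    exact two_add_sqrt h1
  by_cases hth : Z3a_th e ∈ ext (⊥ : IntermediateField ℚ ℝ) (cc 1)
  · rw [ext_eq_self hth] at h
    apply hkey _ h 1
    rw [hcc]
    push_cast
    ring
  · have hsq : Z3a_th e ^ 2 ∈ ext (⊥ : IntermediateField ℚ ℝ) (cc 1) := by
      rw [Z3a_th_sq D]
      exact (ext (⊥ : IntermediateField ℚ ℝ) (cc 1)).algebraMap_mem _
    obtain ⟨u, hu, v, hv, huv⟩ := (mem_ext_iff hsq hth).1 h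
    have h1 : (2 + Real.sqrt 2) + 0 * Z3a_th e =
        (u ^ 2 + v ^ 2 * Z3a_th e ^ 2) + (2 * u * v) * Z3a_th e := by
      rw [← hcc, huv]
      ring
    obtain ⟨h2, h3⟩ := coords_unique hth hF2 (zero_mem _)
      (add_mem (pow_mem hu 2) (mul_mem (pow_mem hv 2) hsq))
      (mul_mem (mul_mem (ofNat_mem _ 2) hu) hv) h1
    have h4 : u = 0 ∨ v = 0 := by
      have : u * v = 0 := by linarith
      exact mul_eq_zero.1 this
    rcases h4 with h4 | h4
    · apply hkey v hv ((tre e ^ 2 + 4 : ℤ) : ℚ)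
      rw [h2, h4, Z3a_th_sq D]
      ring
    · apply hkey u hu 1
      rw [h2, h4]
      push_cast
      ring

lemma Z3a_base (D : FD σ₂ e) : cc 2 ∉ twK K⟮se e⟯ 1 := by
  intro h
  have hfd : FiniteDimensional K (twK K⟮se e⟯ 1) := by
    have := fd_Lf D 3
    rw [Lf_eq_twK] at this
    exact this
  have hab : IsAbelianGalois K (twK K⟮se e⟯ 1) := by
    have := abelian_Lf D 3
    rw [Lf_eq_twK] at this
    exact this
  obtain ⟨γ, hγ⟩ := exists_isConj (L := twK K⟮se e⟯ 1) σ₂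
  apply Z3a_stepB D
  -- the fixed field contains K(√2)
  have hbot : (⊥ : IntermediateField K ℝ) ≤ K⟮se e⟯ := bot_le
  have hle1 : twK (⊥ : IntermediateField K ℝ) 1 ≤ twK K⟮se e⟯ 1 :=
    twK_le (bot_le) (cc_mem_twK _ _)
  have hfix : twK (⊥ : IntermediateField K ℝ) 1 ≤ eqField γ 1 := by
    apply twK_le bot_le
    exact eqField_iff.2 ⟨cc_mem_twK _ _, hγ.fix_cc (cc_mem_twK _ _)⟩
  have hrs : rs (twK (⊥ : IntermediateField K ℝ) 1) = ext (K0 K) (cc 1) := rs_twK _ 1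
  have hrs2 : rs (twK K⟮se e⟯ 1) = ext (ext (K0 K) (cc 1)) (se e) := by
    rw [rs_twK]
    unfold tw
    rw [← bot_sup_eq K⟮se e⟯, rs_sup_adjoin, ext_comm']
  have h' : cc 2 ∈ ext (ext (K0 K) (cc 1)) (se e) := by
    rw [← hrs2]
    exact h
  by_cases hse : se e ∈ ext (K0 K) (cc 1)
  · rwa [ext_eq_self hse] at h'
  have hse2 : se e ^ 2 = algebraMap K ℝ ((e : 𝓞 K) : K) := by
    unfold se
    exact Real.sq_sqrt D.pos.le
  have hsq : se e ^ 2 ∈ ext (K0 K) (cc 1) := by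
    rw [hse2]
    exact le_ext _ _ (mem_K0.2 ⟨_, rfl⟩)
  obtain ⟨a, ha, b, hb, hab'⟩ := (mem_ext_iff hsq hse).1 h'
  have ha1 : a ∈ twK (⊥ : IntermediateField K ℝ) 1 := by
    have : a ∈ rs (twK (⊥ : IntermediateField K ℝ) 1) := by rw [hrs]; exact ha
    exact this
  have hb1 : b ∈ twK (⊥ : IntermediateField K ℝ) 1 := by
    have : b ∈ rs (twK (⊥ : IntermediateField K ℝ) 1) := by rw [hrs]; exact hb
    exact this
  have hsm : se e ∈ twK K⟮se e⟯ 1 := le_twK _ _ (mem_adjoin_simple_self K _)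
  -- the conjugation changes the sign of the square root
  have hact : act γ (se e) = - se e := by
    have h1 : (act γ (se e)) ^ 2 = se e ^ 2 := by
      rw [← act_pow γ hsm, hse2, act_algebraMap]
    rcases sq_eq_sq_iff_eq_or_eq_neg.1 h1 with h2 | h2
    · exfalso
      obtain ⟨g, hg⟩ := exists_over (H := twK K⟮se e⟯ 1) σ₂
      have h3 := hγ g hg _ hsm
      rw [h2] at h3
      have h4 : (emb g (se e)).im = 0 := Complex.conj_eq_iff_im.1 h3.symm
      have h5 : (emb g (se e)) ^ 2 = ((σ₂ ((e : 𝓞 K) : K) : ℝ) : ℂ) := by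
        rw [pow_two, ← emb_mul g hsm hsm, ← pow_two, hse2,
          emb_of_mem g ((twK K⟮se e⟯ 1).algebraMap_mem _)]
        exact hg _
      have h6 : ((emb g (se e)).re) ^ 2 = σ₂ ((e : 𝓞 K) : K) := by
        have h7 := congrArg Complex.re h5
        rw [pow_two, Complex.mul_re, h4, Complex.ofReal_re] at h7
        rw [← h7]
        ring
      have h8 : 0 < (algebraMap K ℝ ((e : 𝓞 K) : K))⁻¹ := inv_pos.2 D.pos
      rw [D.nrm] at h6
      nlinarith [sq_nonneg (emb g (se e)).re]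
    · exact h2
  have h1 := hγ.fix_cc h
  rw [hab', act_add γ (hle1 ha1) (mul_mem (hle1 hb1) hsm), act_mul γ (hle1 hb1) hsm, hact,
    (eqField_iff.1 (hfix ha1)).2, (eqField_iff.1 (hfix hb1)).2] at h1
  have h2 : b * se e = 0 := by linarith
  rw [hab', h2, add_zero]
  exact ha

/-- **The tower grows at each step from the level `3` on**: `cos (2 π / 2 ^ (k + 1)) ∉ Lf e k` for
`k ≥ 3`. By `STf.cc_notMem_succ` (and `rs_twK`, see `STf.exists_forall_not_mem`) it is enough to treat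
`k = 3`: `cc 2 = √(2 + √2) ∉ K(√e, √2)`. The conjugation `γ` of `K(√e, √2)` over `σ₂`
(`STb.exists_isConj`) fixes `cc 2` (`IsConj.fix_cc`) and maps `√e` to `-√e` (its square is
negative at `σ₂`). So `cc 2` is in the fixed field of `γ`, which is `K(√2)`: an element
`a + b √e`, `a, b ∈ K(√2)`, is mapped to `a - b √e`. Let `K = ℚ(√d)`. If `√2 ∈ K` then `K = ℚ(√2)` and `2 + √2` is a
square in `ℚ(√2)`, a contradiction by `two_add_sqrt`. If not, `cc 2 = a + b √d` with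
`a, b ∈ ℚ(√2)`, `2 + √2 = a ^ 2 + d b ^ 2 + 2 a b √d` and `√d ∉ ℚ(√2)`, so `a b = 0` and `2 + √2` is
`a ^ 2` or `d b ^ 2`, a contradiction. -/
theorem step_proper (F : FD σ₂ e) {k : ℕ} (hk : 3 ≤ k) :
    Real.cos (2 * Real.pi / 2 ^ (k + 1)) ∉ Lf e k := by
  obtain ⟨n, rfl⟩ : ∃ n, k = n + 3 := ⟨k - 3, by omega⟩
  have hmain : ∀ n : ℕ, cc (n + 2) ∉ twK K⟮se e⟯ (n + 1) := by
    intro n
    induction n with
    | zero => exact Z3a_base F
    | succ n ih =>
      have h1 : cc (n + 1 + 1) ∉ tw (rs K⟮se e⟯) (n + 1) := by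
        rw [← rs_twK]; exact ih
      have h2 := cc_notMem_succ h1
      rw [← rs_twK] at h2
      exact h2
  intro h
  apply hmain n
  rw [Lf_eq_twK] at h
  have h1 : cc (n + 2) = 2 * Real.cos (2 * Real.pi / 2 ^ (n + 3 + 1)) := cc_eq_cos (n + 2)
  rw [h1]
  exact mul_mem (ofNat_mem _ 2) h

end Pool.Agent.STg
end

section

/-!
# Norms in the tower
-/

open NumberField IsDedekindDomain Pool.Agent.ST Pool.Agent.STb Pool.Agent.STf IntermediateField

namespace Pool.Agent.STg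

open Pool.Agent.STg.F

variable {K : Type*} [Field K] [NumberField K] [Algebra K ℝ] {σ₂ : K →+* ℝ} {e : (𝓞 K)ˣ}

/-- **One step.** Let `k ≥ 2` and `cos (2 π / 2 ^ (k + 1)) ∉ Lf e k`. Then the group of the automorphisms of
`Lf e (k + 1)` which are trivial on `Lf e k` has two elements `1`, `τ`, and `τ` has the coordinates
`gam' k`: `exists_coords`: `s = 1`, `cos (2 π n / 2 ^ k) = cos (2 π / 2 ^ k)` (double angle), so
`nu k n = 1` (`nu_eq_of_cos`), and `nu (k + 1) n ≠ 1` since `τ ≠ 1` (`ext_coords`), so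
`(1, nu (k + 1) n) = gam' k` by `pr_eq_iff`. So the product over the fibre is `xv g xv (gam' g) = xv (pr g)`
(`xv_pr`). -/
theorem fibProd_step (D : LemData) (F : FD σ₂ e) (U : UD) (hT : U.T = tre e) {k J : ℕ}
    (hk : 2 ≤ k) (hJ : k + 6 ≤ J) (hJ' : 11 ≤ J)
    (hc : Real.cos (2 * Real.pi / 2 ^ (k + 1)) ∉ Lf e k) [Normal K (Lf e k)]
    [FiniteDimensional K (Lf e (k + 1))] (g : Gam (k + 1)) :
    fibProd (Lf_mono e (Nat.le_succ k)) (xv D U (k + 1) J g) 1 = xv D U k J (pr k g) := by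
  classical
  have hab : IsAbelianGalois K (Lf e (k + 1)) := abelian_Lf F (k + 1)
  have hgal : IsGalois K (Lf e (k + 1)) := hab.toIsGalois
  set h := Lf_mono e (Nat.le_succ k) with hh
  have hy : IsGF U (k + 1) (xv D U (k + 1) J) := isGF_xv_all D U (by omega) (by omega) hJ'
  set θ : ℝ := 2 * Real.pi / 2 ^ (k + 1) with hθ
  have hmem : ∀ c, xv D U (k + 1) J c ∈ Lf e (k + 1) := fun c =>
    (mem_Lf_iff F U hT (k + 1) _).2 (hy.mem c)
  have hse : se e ≠ 0 := (Real.sqrt_pos.2 F.pos).ne'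
  have hdbl : Real.cos (2 * Real.pi / 2 ^ k) = 2 * Real.cos θ ^ 2 - 1 := by
    rw [← Real.cos_two_mul]
    congr 1
    rw [hθ, pow_succ]
    field_simp
  have hcos : Real.cos θ ∈ Lf e (k + 1) := cos_mem e (k + 1)
  have h2K : (2 : ℝ) = algebraMap K ℝ 2 := (map_ofNat (algebraMap K ℝ) 2).symm
  have h2m : (2 : ℝ) ∈ Lf e (k + 1) := by
    rw [h2K]
    exact (Lf e (k + 1)).algebraMap_mem 2
  -- coordinates of the elements of the fibre
  have key : ∀ γ : Lf e (k + 1) ≃ₐ[K] Lf e (k + 1), res h γ = 1 →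
      γ = 1 ∨ (act γ (Real.cos θ) =
          Real.cos (2 * Real.pi * ((1 + 2 ^ k : ℕ) : ℤ) / 2 ^ (k + 1)) ∧
        act γ (xv D U (k + 1) J g) = xv D U (k + 1) J (gam' k * g)) := by
    intro γ hγ
    rw [res_eq_one_iff] at hγ
    obtain ⟨s, n, hn4, hs, hc'⟩ := exists_coords F U hT γ
    have h1 := hγ _ (se_mem e k)
    have hs1 : s = 1 := by
      rw [h1] at hs
      have h2 : ((s : ℤ) : ℝ) = 1 := by
        have := mul_right_cancel₀ hse (show (1 : ℝ) * se e = ((s : ℤ) : ℝ) * se e by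
          rw [one_mul]; exact hs)
        exact this.symm
      have h3 : (s : ℤ) = 1 := by exact_mod_cast h2
      exact Units.ext h3
    subst hs1
    have h2 := hγ _ (cos_mem e k)
    have h3 : act γ (Real.cos (2 * Real.pi / 2 ^ k)) = Real.cos (2 * Real.pi * n / 2 ^ k) := by
      rw [hdbl, sub_eq_add_neg, act_add _ (mul_mem h2m (pow_mem hcos 2))
          (neg_mem (one_mem _)), act_neg _ (one_mem _), act_one_right,
        act_mul _ h2m (pow_mem hcos 2), act_pow _ hcos]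
      have h4 : act γ (2 : ℝ) = 2 := by
        rw [h2K]
        exact act_algebraMap γ (2 : K)
      rw [h4, hc', ← sub_eq_add_neg, ← Real.cos_two_mul]
      congr 1
      rw [pow_succ]
      field_simp
    have h5 : nu k n = nu k 1 := by
      apply nu_eq_of_cos hn4 (by norm_num)
      rw [← h3, h2]
      norm_num
    have hodd : Odd n := by
      rw [Nat.odd_iff]
      omega
    have h6 : pr k (1, nu (k + 1) n) = pr k 1 := by
      rw [pr_mk hodd, h5, nu_one, map_one]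
      rfl
    rcases (pr_eq_iff (by omega) _ _).1 h6 with h7 | h7
    · left
      have h8 : nu (k + 1) n = nu (k + 1) 1 := by
        rw [nu_one]
        exact congrArg Prod.snd h7
      have h9 : n ≡ 1 [MOD 2 ^ (k + 1)] := (nu_eq_iff hodd odd_one).1 h8
      apply ext_coords
      · rw [hs, act_one_left (se_mem e (k + 1))]
        simp
      · rw [hc', act_one_left hcos]
        have h10 : (2 : ℤ) ^ (k + 1) ∣ (n : ℤ) - 1 := by
          have := (Nat.modEq_iff_dvd.1 h9.symm)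
          push_cast at this
          exact this
        have h11 := (cos_mod_iff (k + 1) (n : ℤ) 1).2 (Or.inl h10)
        push_cast at h11
        rw [h11]
        congr 1
        rw [mul_one]
    · right
      have h12 : act γ (xv D U (k + 1) J g) = xv D U (k + 1) J (gam' k * g) := by
        rw [act_gf F U hT hy γ hn4 hs hc' g, h7, mul_one]
      refine ⟨?_, h12⟩
      have hodd2 : Odd (1 + 2 ^ k) := by
        obtain ⟨k', rfl⟩ : ∃ k', k = k' + 1 := ⟨k - 1, by omega⟩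
        rw [Nat.odd_iff, pow_succ]
        omega
      have h13 : nu (k + 1) n = nu (k + 1) (1 + 2 ^ k) := by
        have := congrArg Prod.snd h7
        rw [mul_one] at this
        exact this
      have h14 : n ≡ 1 + 2 ^ k [MOD 2 ^ (k + 1)] := (nu_eq_iff hodd hodd2).1 h13
      have h15 : (2 : ℤ) ^ (k + 1) ∣ (n : ℤ) - ((1 + 2 ^ k : ℕ) : ℤ) := by
        have := (Nat.modEq_iff_dvd.1 h14.symm)
        push_cast at this ⊢
        exact this
      have h16 := (cos_mod_iff (k + 1) (n : ℤ) ((1 + 2 ^ k : ℕ) : ℤ)).2 (Or.inl h15)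
      rw [hc', ← h16]
      push_cast
      rfl
  -- a non-trivial element
  obtain ⟨τ, hτ1, hτ2⟩ : ∃ τ : Lf e (k + 1) ≃ₐ[K] Lf e (k + 1), res h τ = 1 ∧
      act τ (Real.cos θ) ≠ Real.cos θ := by
    by_contra hcon
    push Not at hcon
    exact hc (mem_of_fixed h hcos fun γ hγ => hcon γ ((res_eq_one_iff h γ).2 hγ))
  have hτ3 : act τ (xv D U (k + 1) J g) = xv D U (k + 1) J (gam' k * g) := by
    rcases key τ hτ1 with h1 | h1
    · exact absurd (by rw [h1, act_one_left hcos]) hτ2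
    · exact h1.2
  have hne : (1 : Lf e (k + 1) ≃ₐ[K] Lf e (k + 1)) ≠ τ := by
    rintro rfl
    exact hτ2 (act_one_left hcos)
  have hfib : fib h (1 : Lf e k ≃ₐ[K] Lf e k) = {1, τ} := by
    ext γ
    rw [mem_fib, Finset.mem_insert, Finset.mem_singleton]
    constructor
    · intro hγ
      rcases key γ hγ with h1 | ⟨h1, -⟩
      · exact Or.inl h1
      · right
        rcases key τ hτ1 with h2 | ⟨h2, -⟩
        · exact absurd h2.symm hne
        · apply ext_coords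
          · rw [(res_eq_one_iff h γ).1 hγ _ (se_mem e k), (res_eq_one_iff h τ).1 hτ1 _ (se_mem e k)]
          · exact h1.trans h2.symm
    · rintro (rfl | rfl)
      · exact map_one _
      · exact hτ1
  unfold fibProd
  rw [hfib, Finset.prod_pair hne, act_one_left (hmem g), hτ3, xv_pr D U (by omega)]

/-- Iterate (`fibProd_trans`): for all `k ≤ N` with `k ≥ 2` and all steps proper. -/
theorem fibProd_xv (D : LemData) (F : FD σ₂ e) (U : UD) (hT : U.T = tre e) {k N J : ℕ}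
    (hk : 2 ≤ k) (hkN : k ≤ N) (hJ : N + 5 ≤ J) (hJ' : 11 ≤ J)
    (hc : ∀ i, k ≤ i → i < N → Real.cos (2 * Real.pi / 2 ^ (i + 1)) ∉ Lf e i)
    [Normal K (Lf e k)] [FiniteDimensional K (Lf e N)] :
    fibProd (Lf_mono e hkN) (xv D U N J 1) 1 = xv D U k J 1 := by
  rename_i _ hfdN
  revert hfdN hJ hc
  induction N, hkN using Nat.le_induction with
  | base =>
    intro hJ hc hfdN
    have hy : IsGF U k (xv D U k J) := isGF_xv_all D U (by omega) (by omega) hJ'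
    have hmem : xv D U k J 1 ∈ Lf e k := (mem_Lf_iff F U hT k _).2 (hy.mem 1)
    have hfib : fib (Lf_mono e (le_refl k)) (1 : Lf e k ≃ₐ[K] Lf e k) = {1} := by
      ext γ
      rw [mem_fib, Finset.mem_singleton, res_eq_one_iff]
      constructor
      · intro h
        apply act_ext
        intro x hx
        rw [h x hx, act_one_left hx]
      · rintro rfl x hx
        exact act_one_left hx
    unfold fibProd
    rw [hfib, Finset.prod_singleton, act_one_left hmem]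
  | succ N hkN ih =>
    intro hJ hc hfdN
    have hab1 : IsAbelianGalois K (Lf e (N + 1)) := abelian_Lf F (N + 1)
    have hab : IsAbelianGalois K (Lf e N) := abelian_Lf F N
    have hfd : FiniteDimensional K (Lf e N) := fd_of_le (Lf_mono e (Nat.le_succ N))
    have hy : IsGF U (N + 1) (xv D U (N + 1) J) := isGF_xv_all D U (by omega) (by omega) hJ'
    have hmem : xv D U (N + 1) J 1 ∈ Lf e (N + 1) := (mem_Lf_iff F U hT (N + 1) _).2 (hy.mem 1)
    have h1 := fibProd_trans (Lf_mono e hkN) (Lf_mono e (Nat.le_succ N)) hmem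
      (1 : Lf e k ≃ₐ[K] Lf e k)
    have h2 := fibProd_step D F U hT (k := N) (J := J) (hk.trans hkN) (by omega) hJ'
      (hc N hkN (Nat.lt_succ_self N)) 1
    rw [map_one] at h2
    rw [h2, ih (by omega) (fun i h3 h4 => hc i h3 (by omega))] at h1
    exact h1.symm

end Pool.Agent.STg
end

section

/-!
# Stark's conditions with square roots for the layers
-/

open NumberField IsDedekindDomain Pool.Agent.ST Pool.Agent.STb Pool.Agent.STf IntermediateField

namespace Pool.Agent.STg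

open Pool.Agent.STg.F

variable {K : Type*} [Field K] [NumberField K] [Algebra K ℝ] {σ₂ : K →+* ℝ} {e : (𝓞 K)ˣ}

/-- `Lf e j = Lf e 2` for `j ≤ 2`. If `cos (2 π / 8) ∈ Lf e 2` then `Lf e 2 = Lf e 3`. Take `k = j` if
`j ≥ 3`; for `j ≤ 2` take `k = 2` if `cos (2 π / 8) ∉ Lf e 2` and `k = 3` otherwise (`step_proper`). -/
theorem exists_level_k (F : FD σ₂ e) (j : ℕ) : ∃ k, 2 ≤ k ∧ Lf e k = Lf e j ∧
    ∀ i, k ≤ i → Real.cos (2 * Real.pi / 2 ^ (i + 1)) ∉ Lf e i := by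
  rcases Nat.lt_or_ge 2 j with hj | hj
  · exact ⟨j, by omega, rfl, fun i hi => step_proper F (by omega)⟩
  · have h2 : Lf e j = Lf e 2 := by
      rw [Lf_eq_twK, Lf_eq_twK]
      congr 1
      omega
    by_cases hc : Real.cos (2 * Real.pi / 2 ^ 3) ∈ Lf e 2
    · refine ⟨3, by norm_num, ?_, fun i hi => step_proper F hi⟩
      rw [h2]
      apply le_antisymm
      · exact sup_le le_sup_left (by rw [adjoin_simple_le_iff]; exact hc)
      · exact Lf_mono e (by norm_num)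
    · refine ⟨2, le_rfl, h2.symm, fun i hi => ?_⟩
      rcases Nat.eq_or_lt_of_le hi with rfl | hi
      · exact hc
      · exact step_proper F hi

lemma Z5_sq (F : FD σ₂ e) : se e ^ 2 = algebraMap K ℝ ((e : 𝓞 K) : K) :=
  Real.sq_sqrt F.pos.le

lemma Z5_irr (F : FD σ₂ e) : Irreducible ((Polynomial.X : Polynomial K) ^ 2 -
    Polynomial.C ((e : 𝓞 K) : K)) := by
  apply X_pow_sub_C_irreducible_of_prime Nat.prime_two
  intro b hb
  have h1 := F.nrm
  rw [← hb, map_pow, hb] at h1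
  have h2 : 0 < (algebraMap K ℝ ((e : 𝓞 K) : K))⁻¹ := inv_pos.2 F.pos
  have h3 := sq_nonneg (σ₂ b)
  linarith

lemma Z5_int (F : FD σ₂ e) : IsIntegral K (se e) := by
  refine ⟨(Polynomial.X : Polynomial K) ^ 2 - Polynomial.C ((e : 𝓞 K) : K),
    Polynomial.monic_X_pow_sub_C _ (by norm_num), ?_⟩
  rw [Polynomial.eval₂_sub, Polynomial.eval₂_pow, Polynomial.eval₂_X, Polynomial.eval₂_C, Z5_sq F,
    sub_self]

/-- `e` is not a square in `K` (`σ₂ e < 0`) -/
lemma finrank_L (F : FD σ₂ e) : Module.finrank K K⟮se e⟯ = 2 := by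
  rw [IntermediateField.adjoin.finrank (Z5_int F)]
  rw [← minpoly.eq_of_irreducible_of_monic (Z5_irr F) (x := se e)
    (by rw [map_sub, map_pow, Polynomial.aeval_X, Polynomial.aeval_C, Z5_sq F, sub_self])
    (Polynomial.monic_X_pow_sub_C _ (by norm_num))]
  exact Polynomial.natDegree_X_pow_sub_C

/-- **Abelian square roots.** There is `N₀` such that for all `N ≥ N₀`, `J ≥ N + 11`, and all
`L' ≤ Lf e (N - 1)` normal over `K`: the extension generated by the square root of the norm to `L'` of `xv D U N J 1` is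
abelian over `K`. This is `STf.exists_level` for `L = K⟮se e⟯` (`Lf e N = twK L (N - 2)`) and
`preStark_xv`. -/
theorem exists_N (D : LemData) (F : FD σ₂ e) (U : UD) (hT : U.T = tre e) : ∃ N₀ : ℕ, 4 ≤ N₀ ∧
    ∀ N, N₀ ≤ N → ∀ J, N + 11 ≤ J → ∀ (_ : FiniteDimensional K (Lf e N))
      (L' : IntermediateField K ℝ) [Normal K L'] (h : L' ≤ Lf e N), L' ≤ Lf e (N - 1) →
        IsAbelianGalois K (sqrtExt L' (fibProd h (xv D U N J 1) 1)) := by
  have hfd : FiniteDimensional K K⟮se e⟯ := adjoin.finiteDimensional (Z5_int F)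
  have hab : IsAbelianGalois K K⟮se e⟯ := by
    have := abelian_Lf F 0
    exact isAbelianGalois_of_le (M := Lf e 0) le_sup_left
  obtain ⟨n₀, hn₀⟩ := exists_level (σ₂ := σ₂) F.deg F.ne (L := K⟮se e⟯)
    ⟨1, by rw [finrank_L F, pow_one]⟩
  refine ⟨n₀ + 4, by omega, fun N hN J hJ hfdN L' hL' h hle => ?_⟩
  obtain ⟨n, rfl⟩ : ∃ n, N = n + 3 := ⟨N - 3, by omega⟩
  have key : ∀ (M : IntermediateField K ℝ) (_ : M = twK K⟮se e⟯ (n + 1)) [FiniteDimensional K M]
      (x : ℝ) (_ : PreStark σ₂ M x) (h : L' ≤ M) (_ : L' ≤ twK K⟮se e⟯ n),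
      IsAbelianGalois K (sqrtExt L' (fibProd h x 1)) := by
    intro M hM hfM x hx h h'
    subst hM
    exact hn₀ n (by omega) x hx L' h'
  refine key (Lf e (n + 3)) (Lf_eq_twK e (n + 3)) _
    (preStark_xv D F U hT (by omega) (by omega) (by omega) 1) h ?_
  have h1 : Lf e (n + 3 - 1) = twK K⟮se e⟯ n := Lf_eq_twK e (n + 3 - 1)
  rw [← h1]
  exact hle

/-- **Theorem 2.** Let `k` be as in `exists_level_k`, `N = max N₀ (k + 1)`, `J = N + 11`. `exists_N` for
`L' = Lf e k`, `fibProd_xv`, `td_xv` and `starkTateIn_of_td`. (`m ≠ ⊤`: there is a prime above `2`,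
`ne_top_of_two`.) -/
theorem starkTateIn_layer (D : LemData) (F : FD σ₂ e) {m : Ideal (𝓞 K)}
    (hm : ∀ v : HeightOneSpectrum (𝓞 K), v.asIdeal ∣ m ↔ (2 : 𝓞 K) ∈ v.asIdeal) (hm0 : m ≠ ⊥)
    {H : IntermediateField K ℝ} {Art : RayClassGroup σ₂ m ≃* (H ≃ₐ[K] H)}
    (hA : IsRayClassField σ₂ m H Art) (j : ℕ) (hL : Lf e j ≤ H) :
    StarkRQ.StarkTateIn σ₂ m (Lf e j) := by
  obtain ⟨k, hk, hkj, hc⟩ := exists_level_k F j
  rw [← hkj] at hL ⊢
  obtain ⟨U, hT⟩ := exists_ud (tre_ne_zero F)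
  obtain ⟨N₀, hN₀, hN⟩ := exists_N D F U hT
  have hab : IsAbelianGalois K (Lf e k) := abelian_Lf F k
  have hfd : FiniteDimensional K (Lf e (max N₀ (k + 1))) := fd_Lf F _
  have hkN : k + 1 ≤ max N₀ (k + 1) := le_max_right _ _
  have hNN : N₀ ≤ max N₀ (k + 1) := le_max_left _ _
  have h1 := hN (max N₀ (k + 1)) hNN (max N₀ (k + 1) + 11) le_rfl hfd (Lf e k)
    (Lf_mono e (by omega)) (Lf_mono e (by omega))
  rw [fibProd_xv D F U hT hk (by omega) (by omega) (by omega) (fun i hi _ => hc i hi)] at h1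
  have h2 := td_xv D F U hT hm hm0 hA (k := k) (J := max N₀ (k + 1) + 11) hk (by omega) (by omega) hL
  exact starkTateIn_of_td F.deg F.ne hm0 (ne_top_of_two fun v hv => (hm v).2 hv) h2 h1

end Pool.Agent.STg
end

section

/-!
# The full assertion for the moduli with the same prime divisors as `2`
-/

open NumberField IsDedekindDomain Pool.Agent.ST Pool.Agent.STb Pool.Agent.STf IntermediateField

namespace Pool.Agent.STg

open Pool.Agent.STg.F

variable {K : Type*} [Field K] [NumberField K] [Algebra K ℝ] {σ₂ : K →+* ℝ} {e : (𝓞 K)ˣ}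

/-- a power of `(2)` is contained in `m` -/
lemma exists_pow_le {m : Ideal (𝓞 K)}
    (hm : ∀ v : HeightOneSpectrum (𝓞 K), v.asIdeal ∣ m ↔ (2 : 𝓞 K) ∈ v.asIdeal) (hm0 : m ≠ ⊥) :
    ∃ i : ℕ, (Ideal.span {(2 : 𝓞 K)}) ^ i ≤ m := by
  have h1 : (2 : 𝓞 K) ∈ m.radical := by
    rw [Ideal.radical_eq_sInf, Submodule.mem_sInf]
    rintro P ⟨hP, hPp⟩
    have hP0 : P ≠ ⊥ := by
      rintro rfl
      exact hm0 (le_bot_iff.1 hP)
    exact (hm ⟨P, hPp, hP0⟩).1 (Ideal.dvd_iff_le.2 hP)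
  obtain ⟨i, hi⟩ := Ideal.mem_radical_iff.1 h1
  refine ⟨i, ?_⟩
  rw [Ideal.span_singleton_pow, Ideal.span_singleton_le_iff_mem]
  exact hi

omit [Algebra K ℝ] in
lemma Z6_dvd {j : ℕ} (hj : j ≠ 0) (v : HeightOneSpectrum (𝓞 K)) :
    v.asIdeal ∣ (Ideal.span {(2 : 𝓞 K)}) ^ j ↔ (2 : 𝓞 K) ∈ v.asIdeal := by
  rw [v.prime.dvd_pow_iff_dvd hj, Ideal.dvd_span_singleton]

omit [Algebra K ℝ] in
lemma Z6_ne_bot (j : ℕ) : (Ideal.span {(2 : 𝓞 K)}) ^ j ≠ ⊥ :=
  pow_ne_bot' span_two_ne_bot _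

/-- **Theorem 1.** Let `(2) ^ i ≤ m`. For `j ≥ max i 4` the ray class field of modulus `(2) ^ j` is
`Lf e (j + a)` (`exists_rcf`). Let `j₁ = max i 4`, and `j ≥ j₁ + 1` with `N = j + a ≥ N₀`
(`exists_N`), `J = N + 11`. `STf.rcf_same` (or a similar lemma of the library) gives a ray class field `H` of modulus `m`; it is
contained in those of modulus `(2) ^ j₁` and `(2) ^ j` (`IsRCF.le`, as in `STf.tower`), so
`H ≤ Lf e (j₁ + a) ≤ Lf e (N - 1)`. By `td_xv` for the modulus `(2) ^ j` and `TD.down`: `TD σ₂ m H (fibProd ..)`; by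
`exists_N` the square root condition; `starkTateIn_of_td` and `starkTate_of_in`. -/
theorem starkTate_main (D : LemData) (F : FD σ₂ e) [IsPrincipalIdealRing (𝓞 K)] {a : ℕ}
    (hlev : ∀ j, 4 ≤ j → Lev e j (j + a)) {m : Ideal (𝓞 K)}
    (hm : ∀ v : HeightOneSpectrum (𝓞 K), v.asIdeal ∣ m ↔ (2 : 𝓞 K) ∈ v.asIdeal) (hm0 : m ≠ ⊥) :
    StarkRQ.StarkTate σ₂ m := by
  obtain ⟨i, hi⟩ := exists_pow_le hm hm0
  obtain ⟨U, hT⟩ := exists_ud (tre_ne_zero F)
  obtain ⟨N₀, hN₀, hN⟩ := exists_N D F U hT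
  have hm1 : m ≠ ⊤ := ne_top_of_two fun v hv => (hm v).2 hv
  obtain ⟨j₁, hj₁i, hj₁4⟩ : ∃ j₁, i ≤ j₁ ∧ 4 ≤ j₁ := ⟨max i 4, le_max_left _ _, le_max_right _ _⟩
  obtain ⟨j, hj1, hj2⟩ : ∃ j, j₁ + 1 ≤ j ∧ N₀ ≤ j := ⟨max (j₁ + 1) N₀, le_max_left _ _, le_max_right _ _⟩
  obtain ⟨A₁, hA₁⟩ := exists_rcf F (hlev j₁ hj₁4)
  obtain ⟨A, hA⟩ := exists_rcf F (hlev j (by omega))
  have hle₁ : (Ideal.span {(2 : 𝓞 K)}) ^ j₁ ≤ m := (Ideal.pow_le_pow_right hj₁i).trans hi
  have hle : (Ideal.span {(2 : 𝓞 K)}) ^ j ≤ m := (Ideal.pow_le_pow_right (by omega)).trans hi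
  obtain ⟨H, Art, hr, hH⟩ := rcf_same hle₁
    (fun v hv => (hm v).2 ((Z6_dvd (by omega) v).1 hv)) hA₁
  have hfdH := hr.finite
  have habH : IsAbelianGalois K H := hr.isRCF.abelian
  have hfdN : FiniteDimensional K (Lf e (j + a)) := fd_Lf F _
  have hHN : H ≤ Lf e (j + a) := hH.trans (Lf_mono e (by omega))
  have htd := td_xv D F U hT (Z6_dvd (by omega)) (Z6_ne_bot j) hA (k := j + a) (J := j + a + 11)
    (by omega) (by omega) (by omega) le_rfl
  have hd := htd.down F.deg F.ne hle (Z6_ne_bot j) hm0 hm1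
    (fun v hv => (hm v).2 ((Z6_dvd (by omega) v).1 hv)) hr le_rfl hHN
  have hab := hN (j + a) (by omega) (j + a + 11) le_rfl hfdN H hHN
    (hH.trans (Lf_mono e (by omega)))
  exact starkTate_of_in hm0 hr (starkTateIn_of_td F.deg F.ne hm0 hm1 hd hab)

/-- the two cases -/
theorem starkTate_cases (D : LemData) (F : FD σ₂ e) [IsPrincipalIdealRing (𝓞 K)]
    (h : ((Ideal.span {(2 : 𝓞 K)}).IsPrime ∧ ∀ x : 𝓞 K, x ∉ Ideal.span {(2 : 𝓞 K)} →
      ∃ i : ℕ, x - (e : 𝓞 K) ^ i ∈ Ideal.span {(2 : 𝓞 K)}) ∨ ((e : 𝓞 K) - 1) ^ 2 = 2)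
    {m : Ideal (𝓞 K)}
    (hm : ∀ v : HeightOneSpectrum (𝓞 K), v.asIdeal ∣ m ↔ (2 : 𝓞 K) ∈ v.asIdeal) (hm0 : m ≠ ⊥) :
    StarkRQ.StarkTate σ₂ m := by
  rcases h with ⟨h1, h2⟩ | h
  · exact starkTate_main D F (a := 0) (fun j hj => lev_inert F h1 h2 j hj) hm hm0
  · exact starkTate_main D F (a := 1) (fun j hj => lev_sqrt2 F h j hj) hm hm0

end Pool.Agent.STg
end
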