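import Pool.Agent.Lib.MP_1ef7cf_nt_g.Mg.G035
import Pool.Agent.Lib.MP_1ef7cf_nt_g.Mg.G060
import Pool.Agent.Lib.MP_1ef7cf_nt_g.Mg.G053
import Pool.Agent.Lib.MP_1ef7cf_nt_g.Mg.G069
import Pool.Agent.Lib.MP_1ef7cf_nt_g.Mg.G046
import Pool.Agent.Lib.MP_1ef7cf_nt_h.Mg.G007

section

/-!
# Sums over primary Gaussian integers, regrouped by the norm
-/

open NumberField IsDedekindDomain Pool.Agent.ST

namespace Pool.Agent.STg

variable (D : LemData) (U : UD)

/-- Regroup by the norm (`hasSum_regroup`, `cS_chiM`). -/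
theorem hasSum_M {k J : ℕ} (hJ : k + 4 ≤ J)
    (hz : ∃ β : GaussianInt, Prim β ∧ IsCoprime β U.δ ∧ sM U k β = zc k) (s : ℤˣ) {n : ℕ}
    (hn : Odd n) : ∃ G : ℂ → ℂ, DifferentiableOn ℂ G {1}ᶜ ∧
      (∀ w : ℂ, 1 < w.re → HasSum (fun l : ℕ =>
        (((if l ≠ 0 ∧ (2 : ℤ) ^ k ∣ (l : ℤ) - n then (s : ℤ) * cS (chiM U) l else 0 : ℤ)) : ℂ) *
          (l : ℂ) ^ (-w)) (G w)) ∧
      deriv G 0 = ((-Real.log (xv D U k J (s, nu k n)) : ℝ) : ℂ) := by
  obtain ⟨G, hG, hsum, hder⟩ := exists_GM D U hJ hz s hn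
  refine ⟨G, hG, fun w hw => ?_, hder⟩
  have hw0 : -w ≠ 0 := by
    intro h
    have h1 : w = 0 := neg_eq_zero.mp h
    rw [h1, Complex.zero_re] at hw
    linarith
  have hfin : ∀ l : ℕ, {β : PD U | gN β.1 = l}.Finite := fun l =>
    (finite_gN l).preimage Subtype.val_injective.injOn
  have h1 := hasSum_regroup (fun β : PD U => gN β.1) hfin
    (fun β => if (2 : ℤ) ^ k ∣ (gN β.1 : ℤ) - n then (s : ℤ) * ((U.Ψ β.1 : ℤˣ) : ℤ) else 0)
    (hsum w hw)
  refine h1.congr_fun fun l => ?_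
  by_cases hl : l = 0
  · subst hl
    have h0 : ((0 : ℕ) : ℂ) ^ (-w) = 0 := by rw [Nat.cast_zero, Complex.zero_cpow hw0]
    rw [h0, mul_zero, mul_zero]
  congr 2
  have h2 : ∑ᶠ i ∈ {i : PD U | gN i.1 = l},
      (if (2 : ℤ) ^ k ∣ (gN i.1 : ℤ) - n then (s : ℤ) * ((U.Ψ i.1 : ℤˣ) : ℤ) else 0) =
      ∑ᶠ i ∈ {i : PD U | gN i.1 = l},
      (if (2 : ℤ) ^ k ∣ (l : ℤ) - n then (s : ℤ) * ((U.Ψ i.1 : ℤˣ) : ℤ) else 0) := by
    refine finsum_mem_congr rfl fun i hi => ?_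
    have h3 : gN i.1 = l := hi
    rw [h3]
  rw [h2]
  by_cases hd : (2 : ℤ) ^ k ∣ (l : ℤ) - n
  · simp only [if_pos hd, if_pos (And.intro hl hd)]
    rw [← mul_finsum_mem, cS_chiM U l hl]
    congr 1
    have h4 : {β : GaussianInt | Prim β ∧ IsCoprime β U.δ ∧ gN β = l} =
        Subtype.val '' {i : PD U | gN i.1 = l} := by
      ext β
      constructor
      · rintro ⟨ha, hb, hc⟩
        exact ⟨⟨β, ha, hb⟩, hc, rfl⟩
      · rintro ⟨i, hi, rfl⟩
        exact ⟨i.2.1, i.2.2, hi⟩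
    rw [h4, finsum_mem_image Subtype.val_injective.injOn]
  · rw [if_neg (fun h => hd h.2)]
    simp only [if_neg hd, finsum_zero]

end Pool.Agent.STg
end

section

set_option autoImplicit false

open NumberField IsDedekindDomain nonZeroDivisors IntermediateField

namespace Pool.Agent.STg.F

open Pool.Agent.ST

variable {K : Type*} [Field K] [NumberField K] [Algebra K ℝ] {σ₂ : K →+* ℝ} {e : (𝓞 K)ˣ}

private lemma F21_cos (k N : ℕ) (M a : ℤ) (hN : N = M.natAbs) (hM : M = 1 + 2 ^ k * a) :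
    Real.cos (2 * Real.pi * (N : ℝ) / 2 ^ k) = Real.cos (2 * Real.pi / 2 ^ k) := by
  have h := (cos_mod_iff k (N : ℤ) 1).2 (by
    rcases Int.natAbs_eq M with h | h
    · left
      rw [hN, ← h, hM]
      exact ⟨a, by ring⟩
    · right
      have h2 : (M.natAbs : ℤ) = -M := by omega
      rw [hN, h2, hM]
      exact ⟨-a, by ring⟩)
  push_cast at h
  rwa [mul_one] at h

/-- TASK F21 (the Artin symbol of `c`). -/
theorem art_c (D : FD σ₂ e) {m : Ideal (𝓞 K)} (hm0 : m ≠ ⊥) (hm : Above m)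
    {H : IntermediateField K ℝ} {Art : RayClassGroup σ₂ m ≃* (H ≃ₐ[K] H)}
    (hA : IsRayClassField σ₂ m H Art) {k : ℕ} (hs : se e ∈ H)
    (hk : Real.cos (2 * Real.pi / 2 ^ k) ∈ H) {c : RayClassGroup σ₂ m} (hc : IsC σ₂ m c) :
    act (Art c) (se e) = -se e ∧
    act (Art c) (Real.cos (2 * Real.pi / 2 ^ k)) = Real.cos (2 * Real.pi / 2 ^ k) := by
  obtain ⟨z, C, hz1, hz2, hC, rfl⟩ := hc
  obtain ⟨t, ht⟩ : ∃ t : 𝓞 K, t = 16 * 2 ^ k := ⟨_, rfl⟩
  have ht0 : t ≠ 0 := by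
    rw [ht]
    exact mul_ne_zero (by norm_num) (pow_ne_zero _ two_ne_zero)
  have hn : m * Ideal.span {t} ≠ ⊥ := by
    rw [← Ideal.zero_eq_bot] at hm0 ⊢
    refine mul_ne_zero hm0 ?_
    rw [Ideal.zero_eq_bot, Ne, Ideal.span_singleton_eq_bot]
    exact ht0
  obtain ⟨z', h1, h2⟩ := exists_neg σ₂ hn 1
  have hz'm : z' - 1 ∈ m := (Ideal.mul_le_left : m * Ideal.span {t} ≤ m) h1
  have hz't : z' - 1 ∈ Ideal.span {t} :=
    (Ideal.mul_le_right : m * Ideal.span {t} ≤ Ideal.span {t}) h1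
  obtain ⟨x, hx⟩ := Ideal.mem_span_singleton.1 hz't
  have hz0 : (z : K) ≠ 0 := by
    intro h
    rw [h, map_zero] at hz2
    exact lt_irrefl _ hz2
  have hz0' : (z' : K) ≠ 0 := by
    intro h
    rw [h, map_zero] at h2
    exact lt_irrefl _ h2
  obtain ⟨C', hC'⟩ : ∃ C' : primeTo (K := K) m, (C' : (FI K)ˣ) = uP (z' : K) hz0' :=
    ⟨⟨uP (z' : K) hz0', coe_mem_primeTo (I := Ideal.span {z'})
      (by rw [coe_uP, coe_span_singleton]) (coprime_span_of_sub_one_mem hz'm)⟩, rfl⟩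
  have hC'2 : ((C' : (FI K)ˣ) : FI K) = ((Ideal.span {z'} : Ideal (𝓞 K)) : FI K) := by
    rw [hC', coe_uP, coe_span_singleton]
  have hcls : cls σ₂ m C = cls σ₂ m C' := by
    rw [cls_eq_iff]
    refine ⟨(z : K)⁻¹ * z', (oneMod_of_sub_one_mem hz1).inv.mul (oneMod_of_sub_one_mem hz'm), ?_, ?_⟩
    · rw [map_mul, map_inv₀]
      exact mul_pos_of_neg_of_neg (inv_lt_zero.2 hz2) h2
    · rw [Units.val_mul, Units.val_inv_eq_inv_val, hC, hC'2, coe_span_singleton,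
        coe_span_singleton, FractionalIdeal.spanSingleton_inv,
        FractionalIdeal.spanSingleton_mul_spanSingleton]
  rw [hcls]
  have hne : Ideal.span {z'} ≠ (⊥ : Ideal (𝓞 K)) := by
    rw [Ne, Ideal.span_singleton_eq_bot]
    rintro rfl
    exact hz0' (by simp)
  obtain ⟨g1, g2⟩ := art_coords D hm hA hs hk (Ideal.span {z'}) hne C' hC'2
  have hchi := (chi_rec D (b := z') (Ideal.mem_span_singleton.2
    ⟨2 ^ k * x, by rw [hx, ht]; ring⟩)).2 h2
  refine ⟨?_, ?_⟩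
  · rw [g1, hchi]
    push_cast
    ring
  · rw [g2]
    have hz'eq : z' = 1 + (((2 : ℤ) ^ k : ℤ) : 𝓞 K) * (16 * x) := by
      push_cast
      linear_combination hx + x * ht
    have hnorm := norm_one_add D ((2 : ℤ) ^ k) (16 * x)
    rw [← hz'eq] at hnorm
    refine F21_cos k _ _ (Algebra.trace ℤ (𝓞 K) (16 * x) +
      2 ^ k * Algebra.norm ℤ (16 * x)) (absNorm_nat z') ?_
    rw [hnorm]
    ring

end Pool.Agent.STg.F
end

section

/-!
# Sums over primary Gaussian integers with given coordinates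

`MP_1ef7cf_nt_g/S7b.lean` and `S7.lean` with the value `0` of the continuation at `0`.
-/

open NumberField IsDedekindDomain Pool.Agent.ST

namespace Pool.Agent.STt

open Pool.Agent.STg

variable (D : LemData) (U : UD)

/-- the sign of a class with the coordinates `x` -/
private def GM_E (k : ℕ) (s : ℤˣ) (n : ℕ) (x : Gam k) : ℤ :=
  open Classical in if x.2 = nu k n then (s : ℤ) * (x.1 : ℤ) else 0

open Classical in
private lemma GM_E_eq (k : ℕ) (s : ℤˣ) (n : ℕ) (x : Gam k) : GM_E k s n x =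
    (if x = (s, nu k n) then 1 else 0) - (if x = zc k * (s, nu k n) then 1 else 0) := by
  obtain ⟨u, v⟩ := x
  unfold GM_E zc
  rw [Prod.mk_mul_mk, one_mul]
  by_cases hv : v = nu k n
  · subst hv
    simp only [if_true, Prod.mk.injEq, and_true]
    rcases Int.units_eq_one_or s with rfl | rfl <;> rcases Int.units_eq_one_or u with rfl | rfl <;>
      decide
  · simp [hv]

private lemma GM_coef {k : ℕ} (s : ℤˣ) {n : ℕ} (hn : Odd n) (β : GaussianInt) (hβ : Prim β) :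
    (if (2 : ℤ) ^ k ∣ (gN β : ℤ) - n then (s : ℤ) * ((U.Ψ β : ℤˣ) : ℤ) else 0 : ℤ) =
      GM_E k s n (sM U k β) := by
  unfold GM_E sM
  have h : (2 : ℤ) ^ k ∣ (gN β : ℤ) - n ↔ nu k (gN β) = nu k n := by
    rw [nu_eq_iff hβ.odd hn, Nat.ModEq.comm, Nat.modEq_iff_dvd]
    push_cast
    rfl
  by_cases h1 : nu k (gN β) = nu k n
  · rw [if_pos (h.2 h1), if_pos h1]
  · rw [if_neg (fun h2 => h1 (h.1 h2)), if_neg h1]

/-- All primary `β` prime to `δ` are `a + f c` for a unique representative `a ∈ PR f` and `c`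
(`isPR_PR`); `sM β = sM a` (`sM_per`). So the sum of `± N(β) ^ (-w)` over the `β` with `sM β = g`
(sign `+`) or `sM β = zc g` (sign `-`) is the corresponding finite sum of functions `G` of
`exists_G`. With `g = (s, nu n)`: `sM β = g` iff `Ψ(β) = s` and `nu (gN β) = nu n`, and
`sM β = zc g` iff `Ψ(β) = -s` and `nu (gN β) = nu n`; the term is
`s Ψ(β) N(β) ^ (-w)` for all `β` with `nu (gN β) = nu n`. Derivative at `0`: the numbers
`c₀` cancel (the numbers of classes are equal, `card_translate` with `hz`), so it is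
`-2 (SS g - SS (zc g)) = - log (xv g)`. -/
theorem exists_GM0 {k J : ℕ} (hJ : k + 4 ≤ J)
    (hz : ∃ β : GaussianInt, Prim β ∧ IsCoprime β U.δ ∧ sM U k β = zc k) (s : ℤˣ) {n : ℕ}
    (hn : Odd n) : ∃ G : ℂ → ℂ, DifferentiableOn ℂ G {1}ᶜ ∧ G 0 = 0 ∧
      (∀ w : ℂ, 1 < w.re → HasSum (fun β : PD U =>
        (((if (2 : ℤ) ^ k ∣ (gN β.1 : ℤ) - n then (s : ℤ) * ((U.Ψ β.1 : ℤˣ) : ℤ) else 0 : ℤ)) : ℂ) *
          (gN β.1 : ℂ) ^ (-w)) (G w)) ∧
      deriv G 0 = ((-Real.log (xv D U k J (s, nu k n)) : ℝ) : ℂ) := by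
  classical
  set f := U.f J with hf
  have hf0 : f ≠ 0 := U.f_ne_zero J
  have hfu : ¬ IsUnit f := U.f_not_unit (by omega)
  have hf3 : (⟨1, 1⟩ : GaussianInt) ^ 3 ∣ f := U.cube_dvd (by omega)
  have hPR := isPR_PR hf0
  have hex : ∀ a, a ∈ PR f → ∃ G : ℂ → ℂ, DifferentiableOn ℂ G {1}ᶜ ∧ G 0 = 0 ∧
      (∀ w : ℂ, 1 < w.re → HasSum (fun c : GaussianInt => (gN (a + f * c) : ℂ) ^ (-w)) (G w)) ∧
      deriv G 0 = ((D.c₀ - 2 * D.ell ((a : ℂ) / (f : ℂ)) : ℝ) : ℂ) :=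
    fun a ha => STh.exists_G D hfu hf0 (hPR.1 a ha).2
  choose! G hG1 hG0 hG2 hG3 using hex
  set E : GaussianInt → ℤ := fun a => GM_E k s n (sM U k a) with hE
  have hGd : ∀ a ∈ PR f, DifferentiableAt ℂ (G a) 0 := fun a ha =>
    (hG1 a ha 0 (by simp)).differentiableAt (isOpen_compl_singleton.mem_nhds (by simp))
  refine ⟨fun w => ∑ a ∈ PR f, (E a : ℂ) * G a w, ?_, ?_, ?_, ?_⟩
  · exact DifferentiableOn.fun_sum fun a ha => (hG1 a ha).const_mul _
  · refine Finset.sum_eq_zero fun a ha => ?_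
    rw [hG0 a ha, mul_zero]
  · intro w hw
    -- one class
    have h1 : ∀ a ∈ PR f, HasSum (fun β : PD U => if f ∣ β.1 - a then
        (E β.1 : ℂ) * (gN β.1 : ℂ) ^ (-w) else 0) ((E a : ℂ) * G a w) := by
      intro a ha
      obtain ⟨ha1, ha2⟩ := hPR.1 a ha
      have hmem : ∀ c : GaussianInt, Prim (a + f * c) ∧ IsCoprime (a + f * c) U.δ := by
        intro c
        have h2 : f ∣ a - (a + f * c) := ⟨-c, by ring⟩
        refine ⟨Prim.of_dvd hf3 ha1 h2, ?_⟩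
        have h3 : IsCoprime (a + f * c) f := by
          rw [add_comm]
          exact (IsCoprime.add_mul_left_left_iff (x := a) (y := f) (z := c)).2 ha2 |> fun h => by
            rwa [add_comm] at h
        exact U.coprime_δ h3
      set i : GaussianInt → PD U := fun c => ⟨a + f * c, hmem c⟩ with hi
      have hinj : Function.Injective i := by
        intro c c' h
        have h2 : a + f * c = a + f * c' := congrArg Subtype.val h
        exact mul_left_cancel₀ hf0 (add_left_cancel h2)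
      refine (hinj.hasSum_iff ?_).1 ?_
      · intro β hβ
        refine if_neg ?_
        rintro ⟨c, hc⟩
        apply hβ
        refine ⟨c, Subtype.ext ?_⟩
        show a + f * c = β.1
        rw [← hc]
        ring
      · have h4 : ((fun β : PD U => if f ∣ β.1 - a then
            (E β.1 : ℂ) * (gN β.1 : ℂ) ^ (-w) else 0) ∘ i) =
            fun c => (E a : ℂ) * (gN (a + f * c) : ℂ) ^ (-w) := by
          funext c
          have h5 : f ∣ (i c).1 - a := ⟨c, by show a + f * c - a = f * c; ring⟩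
          have h6 : E (i c).1 = E a := by
            have h7 := sM_per U hJ (hmem c).1 (hmem c).2 h5
            show GM_E k s n (sM U k (a + f * c)) = GM_E k s n (sM U k a)
            rw [← h7]
          show (if f ∣ (i c).1 - a then (E (i c).1 : ℂ) * (gN (i c).1 : ℂ) ^ (-w) else 0) = _
          rw [if_pos h5, h6]
        rw [h4]
        exact (hG2 a ha w hw).mul_left _
    have h2 := hasSum_sum h1
    have h3 : (fun β : PD U => (((if (2 : ℤ) ^ k ∣ (gN β.1 : ℤ) - n then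
        (s : ℤ) * ((U.Ψ β.1 : ℤˣ) : ℤ) else 0 : ℤ)) : ℂ) * (gN β.1 : ℂ) ^ (-w)) =
        fun β : PD U => ∑ a ∈ PR f, if f ∣ β.1 - a then
          (E β.1 : ℂ) * (gN β.1 : ℂ) ^ (-w) else 0 := by
      funext β
      rw [GM_coef U s hn β.1 β.2.1]
      obtain ⟨a, ⟨ha1, ha2⟩, huniq⟩ := hPR.2 β.1 β.2.1 (U.coprime_f β.2.1 J β.2.2)
      rw [Finset.sum_eq_single a, if_pos ha2]
      · intro b hb hba
        exact if_neg fun h => hba (huniq b ⟨hb, h⟩)
      · intro h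
        exact absurd ha1 h
    rw [h3]
    exact h2
  · have hd : HasDerivAt (fun w => ∑ a ∈ PR f, (E a : ℂ) * G a w)
        (∑ a ∈ PR f, (E a : ℂ) * deriv (G a) 0) 0 :=
      HasDerivAt.fun_sum fun a ha => (hGd a ha).hasDerivAt.const_mul _
    rw [hd.deriv]
    obtain ⟨β, hβ1, hβ2, hβ3⟩ := hz
    have hcard := card_translate U hJ hβ1 hβ2 (s, nu k n)
    rw [hβ3] at hcard
    have h1 : ∑ a ∈ PR f, (E a : ℂ) * deriv (G a) 0 =
        ((∑ a ∈ PR f, (E a : ℝ) * (D.c₀ - 2 * D.ell ((a : ℂ) / (f : ℂ))) : ℝ) : ℂ) := by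
      rw [Complex.ofReal_sum]
      refine Finset.sum_congr rfl fun a ha => ?_
      rw [hG3 a ha]
      push_cast
      ring
    rw [h1]
    congr 1
    have h2 : ∀ F : GaussianInt → ℝ, ∑ a ∈ PR f, (E a : ℝ) * F a =
        ∑ a ∈ PR f, (if sM U k a = (s, nu k n) then F a else 0) -
          ∑ a ∈ PR f, (if sM U k a = zc k * (s, nu k n) then F a else 0) := by
      intro F
      rw [← Finset.sum_sub_distrib]
      refine Finset.sum_congr rfl fun a _ => ?_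
      show ((GM_E k s n (sM U k a) : ℤ) : ℝ) * F a = _
      rw [GM_E_eq]
      push_cast
      split_ifs <;> ring
    have h3 : ∑ a ∈ PR f, (E a : ℝ) * (D.c₀ - 2 * D.ell ((a : ℂ) / (f : ℂ))) =
        D.c₀ * ∑ a ∈ PR f, (E a : ℝ) * 1 -
          2 * ∑ a ∈ PR f, (E a : ℝ) * D.ell ((a : ℂ) / (f : ℂ)) := by
      rw [Finset.mul_sum, Finset.mul_sum, ← Finset.sum_sub_distrib]
      refine Finset.sum_congr rfl fun a _ => ?_
      ring
    have h4 : ∑ a ∈ PR f, (E a : ℝ) * 1 = 0 := by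
      rw [h2 (fun _ => 1)]
      rw [Finset.card_filter, Finset.card_filter] at hcard
      have h5 : ((∑ a ∈ PR f, if sM U k a = zc k * (s, nu k n) then 1 else 0 : ℕ) : ℝ) =
          ((∑ a ∈ PR f, if sM U k a = (s, nu k n) then 1 else 0 : ℕ) : ℝ) := by
        exact_mod_cast hcard
      push_cast at h5
      rw [h5, sub_self]
    rw [h3, h4, h2 (fun a => D.ell ((a : ℂ) / (f : ℂ)))]
    unfold xv SS
    rw [Real.log_exp]
    ring

/-- Regroup by the norm (`hasSum_regroup`, `cS_chiM`). -/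
theorem hasSum_M0 {k J : ℕ} (hJ : k + 4 ≤ J)
    (hz : ∃ β : GaussianInt, Prim β ∧ IsCoprime β U.δ ∧ sM U k β = zc k) (s : ℤˣ) {n : ℕ}
    (hn : Odd n) : ∃ G : ℂ → ℂ, DifferentiableOn ℂ G {1}ᶜ ∧ G 0 = 0 ∧
      (∀ w : ℂ, 1 < w.re → HasSum (fun l : ℕ =>
        (((if l ≠ 0 ∧ (2 : ℤ) ^ k ∣ (l : ℤ) - n then (s : ℤ) * cS (chiM U) l else 0 : ℤ)) : ℂ) *
          (l : ℂ) ^ (-w)) (G w)) ∧
      deriv G 0 = ((-Real.log (xv D U k J (s, nu k n)) : ℝ) : ℂ) := by
  obtain ⟨G, hG, hG0, hsum, hder⟩ := exists_GM0 D U hJ hz s hn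
  refine ⟨G, hG, hG0, fun w hw => ?_, hder⟩
  have hw0 : -w ≠ 0 := by
    intro h
    have h1 : w = 0 := neg_eq_zero.mp h
    rw [h1, Complex.zero_re] at hw
    linarith
  have hfin : ∀ l : ℕ, {β : PD U | gN β.1 = l}.Finite := fun l =>
    (finite_gN l).preimage Subtype.val_injective.injOn
  have h1 := hasSum_regroup (fun β : PD U => gN β.1) hfin
    (fun β => if (2 : ℤ) ^ k ∣ (gN β.1 : ℤ) - n then (s : ℤ) * ((U.Ψ β.1 : ℤˣ) : ℤ) else 0)
    (hsum w hw)
  refine h1.congr_fun fun l => ?_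
  by_cases hl : l = 0
  · subst hl
    have h0 : ((0 : ℕ) : ℂ) ^ (-w) = 0 := by rw [Nat.cast_zero, Complex.zero_cpow hw0]
    rw [h0, mul_zero, mul_zero]
  congr 2
  have h2 : ∑ᶠ i ∈ {i : PD U | gN i.1 = l},
      (if (2 : ℤ) ^ k ∣ (gN i.1 : ℤ) - n then (s : ℤ) * ((U.Ψ i.1 : ℤˣ) : ℤ) else 0) =
      ∑ᶠ i ∈ {i : PD U | gN i.1 = l},
      (if (2 : ℤ) ^ k ∣ (l : ℤ) - n then (s : ℤ) * ((U.Ψ i.1 : ℤˣ) : ℤ) else 0) := by
    refine finsum_mem_congr rfl fun i hi => ?_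
    have h3 : gN i.1 = l := hi
    rw [h3]
  rw [h2]
  by_cases hd : (2 : ℤ) ^ k ∣ (l : ℤ) - n
  · simp only [if_pos hd, if_pos (And.intro hl hd)]
    rw [← mul_finsum_mem, cS_chiM U l hl]
    congr 1
    have h4 : {β : GaussianInt | Prim β ∧ IsCoprime β U.δ ∧ gN β = l} =
        Subtype.val '' {i : PD U | gN i.1 = l} := by
      ext β
      constructor
      · rintro ⟨ha, hb, hc⟩
        exact ⟨⟨β, ha, hb⟩, hc, rfl⟩
      · rintro ⟨i, hi, rfl⟩
        exact ⟨i.2.1, i.2.2, hi⟩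
    rw [h4, finsum_mem_image Subtype.val_injective.injOn]
  · rw [if_neg (fun h => hd h.2)]
    simp only [if_neg hd, finsum_zero]

end Pool.Agent.STt
end
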