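import Pool.Agent.Lib.MP_1ef7cf_nt_g.Mg.G017
import Pool.Agent.Lib.MP_1ef7cf_nt_g.Mg.G050
import Pool.Agent.Lib.MP_1ef7cf_nt_g.Mg.G051
import Pool.Agent.Lib.MP_1ef7cf_nt_g.Mg.G067
import Pool.Agent.Lib.MP_1ef7cf_nt_t.E3
import Pool.Agent.Lib.MP_1ef7cf_nt_h.Z4a
import Pool.Agent.Lib.MP_1ef7cf_nt_g.Mg.G070

section

/-!
# Summary of the results on real quadratic fields with a unit of norm `-1`
-/

open NumberField IsDedekindDomain IntermediateField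

namespace Pool.Agent.STg

open Pool.Agent.STg.F

variable {K : Type*} [Field K] [NumberField K] [Algebra K ℝ] {σ₂ : K →+* ℝ} {e : (𝓞 K)ˣ}

/-- the data from the norm of the unit -/
lemma fd_of_norm (hK : Module.finrank ℚ K = 2) (hσ : σ₂ ≠ algebraMap K ℝ)
    (he : 0 < algebraMap K ℝ ((e : 𝓞 K) : K)) (hN : Algebra.norm ℤ (e : 𝓞 K) = -1) :
    FD σ₂ e := by
  refine ⟨hK, hσ, he, ?_⟩
  have h1 := ST.norm_eq (K := K) (σ₂ := σ₂) hK hσ ((e : 𝓞 K) : K)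
  have h2 : ((Algebra.norm ℚ ((e : 𝓞 K) : K) : ℚ) : ℝ) = -1 := by
    have h3 : ((Algebra.norm ℤ (e : 𝓞 K) : ℤ) : ℚ) = Algebra.norm ℚ ((e : 𝓞 K) : K) :=
      Algebra.coe_norm_int _
    rw [← h3, hN]
    norm_num
  rw [h2] at h1
  have h4 : algebraMap K ℝ ((e : 𝓞 K) : K) ≠ 0 := he.ne'
  have h5 : ST.sg1 K ((e : 𝓞 K) : K) = algebraMap K ℝ ((e : 𝓞 K) : K) := rfl
  rw [h5] at h1
  field_simp
  linarith

/-- the layers -/
theorem fin_layer (hK : Module.finrank ℚ K = 2) (hσ : σ₂ ≠ algebraMap K ℝ)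
    (he : 0 < algebraMap K ℝ ((e : 𝓞 K) : K)) (hN : Algebra.norm ℤ (e : 𝓞 K) = -1)
    {m : Ideal (𝓞 K)} (hm0 : m ≠ ⊥)
    (hm : ∀ v : HeightOneSpectrum (𝓞 K), v.asIdeal ∣ m ↔ (2 : 𝓞 K) ∈ v.asIdeal)
    {H : IntermediateField K ℝ} {Art : ST.RayClassGroup σ₂ m ≃* (H ≃ₐ[K] H)}
    (hA : ST.IsRayClassField σ₂ m H Art) (k : ℕ)
    (hL : StarkRQ.layer K⟮√(algebraMap K ℝ ((e : 𝓞 K) : K))⟯ k ≤ H) :
    StarkRQ.StarkTateIn σ₂ m (StarkRQ.layer K⟮√(algebraMap K ℝ ((e : 𝓞 K) : K))⟯ k) := by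
  obtain ⟨D⟩ := exists_lemData
  exact starkTateIn_layer D (fd_of_norm hK hσ he hN) hm hm0 hA k hL

/-- the full assertion -/
theorem fin_full (hK : Module.finrank ℚ K = 2) (hσ : σ₂ ≠ algebraMap K ℝ)
    (he : 0 < algebraMap K ℝ ((e : 𝓞 K) : K)) (hN : Algebra.norm ℤ (e : 𝓞 K) = -1)
    (hT : Odd (Algebra.trace ℤ (𝓞 K) (e : 𝓞 K)) ∨ Algebra.trace ℤ (𝓞 K) (e : 𝓞 K) = 2)
    (hP : IsPrincipalIdealRing (𝓞 K) ∨ |Algebra.trace ℤ (𝓞 K) (e : 𝓞 K)| ≤ 3)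
    {m : Ideal (𝓞 K)} (hm0 : m ≠ ⊥)
    (hm : ∀ v : HeightOneSpectrum (𝓞 K), v.asIdeal ∣ m ↔ (2 : 𝓞 K) ∈ v.asIdeal) :
    StarkRQ.StarkTate σ₂ m := by
  obtain ⟨D⟩ := exists_lemData
  have F := fd_of_norm hK hσ he hN
  have hPID : IsPrincipalIdealRing (𝓞 K) := by
    rcases hP with h | h
    · exact h
    · exact pid_small F h
  refine starkTate_cases D F ?_ hm hm0
  rcases hT with h | h
  · exact Or.inl (odd_case F h)
  · exact Or.inr (sq_case F h)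

end Pool.Agent.STg
end

section

/-!
# Good elements
-/

open NumberField IsDedekindDomain Pool.Agent.ST Pool.Agent.STb Pool.Agent.STf IntermediateField

namespace Pool.Agent.STt

open Pool.Agent.STg Pool.Agent.STh Pool.Agent.STh.F

variable {K : Type*} [Field K] [NumberField K] [Algebra K ℝ] {σ₂ : K →+* ℝ} {a : 𝓞 K}

/-- **Adding a prime.** `N(v)` is prime to `Q` (`N(v) = p ^ f`, `p ∈ v`, `Q ∉ v`: `STg.F.absNorm_pow`). Let `φ` have the coordinates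
`chiP a v`, `N(v)` (`exists_sig_prime`), `x' = x / act φ⁻¹ x`. `pre`: quotient of two elements with `PreStark` (`act φ⁻¹ x`: the group is
commutative; `PreStark.abs_act`; `emb_inv`, `emb_mul`). `gk`: for `τ` with the data `(s, b)` let `(s', b')` be the data of `τ φ⁻¹`;
`τ = (τ φ⁻¹) φ`, so `s = s' chiP`, i.e. `s' = s chiP`, and `cos (2 π b / Q) = cos (2 π b' N(v) / Q)` (`Co.mul`, `cos_mod_iff`): `GK_mul`;
`log (act τ x') = log (act τ x) - log (act (τ φ⁻¹) x)`. `ab`: `fibProd x' 1 = y / act φ₁⁻¹ y`, `y = fibProd x 1 ∈ L`, `φ₁ = res φ`. The field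
`M = sqrtExt L y` is abelian over `K`; let `ψ` be an extension of `φ₁⁻¹` to `M` (`res_surjective`): `act ψ √y = ± √(act φ₁⁻¹ y)`. So
`√(y / act φ₁⁻¹ y) ∈ M` and `sqrtExt L (fibProd x' 1) ≤ M`; `isAbelianGalois_of_le`. -/
theorem Good_mul {Q : ℕ} (D : FE σ₂ a Q) {m : Ideal (𝓞 K)}
    {v : HeightOneSpectrum (𝓞 K)} (hv : ¬ v.asIdeal ∣ m) (hvQ : (Q : 𝓞 K) ∉ v.asIdeal)
    {L : IntermediateField K ℝ} [FiniteDimensional K L] [IsAbelianGalois K L]
    {hLF : L ≤ Lf a Q} {x : ℝ} (h : Good σ₂ a m Q L hLF x) :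
    ∃ x', Good σ₂ a (m * v.asIdeal) Q L hLF x' := by
  obtain ⟨φ, hφ⟩ := exists_sig_prime_e D v hvQ
  have hx := h.pre
  have hmem := hx.mem
  have hφm : act φ⁻¹ x ∈ Lf a Q := act_mem _ hmem
  have hx' := Z4a_pre (ψ := φ⁻¹) hx
  refine ⟨x / act φ⁻¹ x, hx', ?_, ?_⟩
  · intro τ
    obtain ⟨s, b, hCo, hG⟩ := h.gk τ
    obtain ⟨s', b', hCo', hG'⟩ := h.gk (τ * φ⁻¹)
    refine ⟨s, b, hCo, ?_⟩
    have h1 : Co a Q τ ((s' : ℤ) * chiP a v.asIdeal) (b' * Ideal.absNorm v.asIdeal) := by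
      have h2 := Co.mul (se_mem a Q) (cos_mem a Q) hCo' hφ
      rwa [inv_mul_cancel_right] at h2
    have hse : se a ≠ 0 := D.se_pos.ne'
    have hs1 : (s : ℤ) = (s' : ℤ) * chiP a v.asIdeal := by
      have h2 := hCo.hs.symm.trans h1.hs
      have h3 := mul_right_cancel₀ hse h2
      exact_mod_cast h3
    have hs2 : (s' : ℤ) = (s : ℤ) * chiP a v.asIdeal := by
      rw [hs1, mul_assoc]
      rcases chiP_sq a v.asIdeal with h2 | h2 <;> rw [h2] <;> ring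
    have hb1 : (Q : ℤ) ∣ (Ideal.absNorm v.asIdeal : ℤ) * b' - b ∨
        (Q : ℤ) ∣ (Ideal.absNorm v.asIdeal : ℤ) * b' + b := by
      have h2 := hCo.hc.symm.trans h1.hc
      have h3 := (cos_mod_iff D.Q0 ((b' * Ideal.absNorm v.asIdeal : ℕ) : ℤ) (b : ℤ)).1 (by
        rw [Int.cast_natCast, Int.cast_natCast]
        exact h2.symm)
      rcases h3 with h3 | h3
      · left
        push_cast at h3
        rwa [mul_comm (b' : ℤ)] at h3
      · right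
        push_cast at h3
        rwa [mul_comm (b' : ℤ)] at h3
    have hlog : Real.log (act τ (x / act φ⁻¹ x)) =
        Real.log (act τ x) - Real.log (act (τ * φ⁻¹) x) := by
      rw [act_div τ hmem hφm, Real.log_div (act_ne_zero τ hmem hx.pos'.ne')
        (act_ne_zero τ hφm (act_ne_zero _ hmem hx.pos'.ne')), act_comp _ _ hmem]
    rw [hlog]
    exact GK_mul hv (Z4a_coprime v hvQ) hs2 hb1 hG hG'
  · have hab := h.ab
    set y := fibProd hLF x 1 with hy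
    have hyL : y ∈ L := fibProd_mem_base hLF hmem 1
    have hyP : PreStark σ₂ L y := hx.fibProd hLF
    set ψ := res hLF φ⁻¹ with hψ
    have h1 : fibProd hLF (x / act φ⁻¹ x) 1 = y / act ψ y := by
      have h2 : act ψ y = ∏ γ ∈ fib hLF (1 : L ≃ₐ[K] L), act γ (act φ⁻¹ x) := by
        rw [hψ, act_res hLF φ⁻¹ hyL, hy]
        unfold fibProd
        rw [act_prod _ _ _ fun γ _ => act_mem γ hmem]
        exact Finset.prod_congr rfl fun γ _ => act_act_comm _ _ hmem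
      rw [h2, hy]
      unfold fibProd
      rw [← Finset.prod_div_distrib]
      exact Finset.prod_congr rfl fun γ _ => act_div γ hmem hφm
    rw [h1]
    have h3 : Real.sqrt (y / act ψ y) ∈ sqrtExt L y := by
      rw [Real.sqrt_div hyP.pos'.le]
      exact div_mem (sqrt_mem_sqrtExt L y) (sqrt_act_mem hyL hyP.pos ψ)
    exact isAbelianGalois_of_le (M := sqrtExt L y) (sqrtExt_le (le_sqrtExt L y) h3)

omit [Algebra K ℝ] in
private lemma E4_dvd_prime {v w : HeightOneSpectrum (𝓞 K)} (h : v.asIdeal ∣ w.asIdeal) : v = w := by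
  have h1 : w.asIdeal ≤ v.asIdeal := Ideal.dvd_iff_le.1 h
  have h2 : w.asIdeal = v.asIdeal := w.isMaximal.eq_of_le v.isPrime.ne_top h1
  exact HeightOneSpectrum.ext h2.symm

omit [Algebra K ℝ] in
private lemma E4_dvd_iff (m₀ : Ideal (𝓞 K)) (T : Finset (HeightOneSpectrum (𝓞 K)))
    (v : HeightOneSpectrum (𝓞 K)) :
    v.asIdeal ∣ m₀ * ∏ w ∈ T, w.asIdeal ↔ v.asIdeal ∣ m₀ ∨ v ∈ T := by
  have hv : Prime v.asIdeal := v.prime
  rw [hv.dvd_mul, Prime.dvd_finsetProd_iff hv]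
  constructor
  · rintro (h | ⟨w, hw, h⟩)
    · exact Or.inl h
    · exact Or.inr (by rw [E4_dvd_prime h]; exact hw)
  · rintro (h | h)
    · exact Or.inl h
    · exact Or.inr ⟨v, h, dvd_rfl⟩

/-- **All moduli.** Induction on the primes `v ∣ m` with `v ∤ m₀`. -/
theorem good_ind {Q : ℕ} (D : FE σ₂ a Q) {m₀ m : Ideal (𝓞 K)} (hm₀ : m₀ ≠ ⊥) (hm0 : m ≠ ⊥)
    (h0Q : ∀ v : HeightOneSpectrum (𝓞 K), (Q : 𝓞 K) ∈ v.asIdeal → v.asIdeal ∣ m₀)
    (hm : ∀ v : HeightOneSpectrum (𝓞 K), v.asIdeal ∣ m₀ → v.asIdeal ∣ m) {L : IntermediateField K ℝ}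
    [FiniteDimensional K L] [IsAbelianGalois K L] (hLF : L ≤ Lf a Q)
    (hbase : ∃ x, Good σ₂ a m₀ Q L hLF x) :
    ∃ x, Good σ₂ a m Q L hLF x := by
  classical
  have hfin : {v : HeightOneSpectrum (𝓞 K) | v.asIdeal ∣ m ∧ ¬ v.asIdeal ∣ m₀}.Finite :=
    (finite_dvd hm0).subset fun v hv => hv.1
  have hind : ∀ T : Finset (HeightOneSpectrum (𝓞 K)), (∀ v ∈ T, ¬ v.asIdeal ∣ m₀) →
      ∃ x, Good σ₂ a (m₀ * ∏ w ∈ T, w.asIdeal) Q L hLF x := by
    intro T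
    induction T using Finset.induction_on with
    | empty =>
      intro _
      rw [Finset.prod_empty, mul_one]
      exact hbase
    | insert v T hvT ih =>
      intro hT
      obtain ⟨x, hx⟩ := ih fun w hw => hT w (Finset.mem_insert_of_mem hw)
      have hvn := hT v (Finset.mem_insert_self _ _)
      have hv : ¬ v.asIdeal ∣ m₀ * ∏ w ∈ T, w.asIdeal := by
        rw [E4_dvd_iff]
        rintro (h | h)
        · exact hvn h
        · exact hvT h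
      obtain ⟨x', hx'⟩ := Good_mul D hv (fun h => hvn (h0Q v h)) hx
      refine ⟨x', ?_⟩
      rw [Finset.prod_insert hvT, mul_comm v.asIdeal, ← mul_assoc]
      exact hx'
  obtain ⟨x, hx⟩ := hind hfin.toFinset fun v hv => ((Set.Finite.mem_toFinset hfin).1 hv).2
  refine ⟨x, Good.congr ?_ hm0 ?_ hx⟩
  · apply mul_ne_zero
    · exact hm₀
    · exact Finset.prod_ne_zero_iff.2 fun w _ => w.ne_bot
  · intro v
    rw [E4_dvd_iff, Set.Finite.mem_toFinset]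
    constructor
    · rintro (h | h)
      · exact hm v h
      · exact h.1
    · intro h
      by_cases h1 : v.asIdeal ∣ m₀
      · exact Or.inl h1
      · exact Or.inr ⟨h, h1⟩

/-- **The conditions 1-3.** `rcf`: `hA`; `pre`: `PreStark.fibProd`; `act`: `act γ (fibProd x 1) = fibProd x γ` (`act_fibProd_one`),
`log (fibProd x γ) = ∑ log (act τ x) = -2 ∑ zd` (`S_main` with `t τ = log (act τ x)`), so it is `pf hLH (ez σ₂ m Art) γ`. Compare
`MP_1ef7cf_nt_g/Z4.lean`. -/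
theorem td_of_good_e {Q : ℕ} (D : FE σ₂ a Q)
    {m : Ideal (𝓞 K)} (hm0 : m ≠ ⊥) (hm : Above Q m) {H : IntermediateField K ℝ}
    {Art : RayClassGroup σ₂ m ≃* (H ≃ₐ[K] H)} (hA : IsRayClassField σ₂ m H Art)
    {L : IntermediateField K ℝ} [FiniteDimensional K L] [IsAbelianGalois K L] (hLH : L ≤ H)
    {hLF : L ≤ Lf a Q} {x : ℝ} (h : Good σ₂ a m Q L hLF x) : TD σ₂ m L (fibProd hLF x 1) := by
  classical
  have hfd : FiniteDimensional K H := hA.finite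
  refine ⟨H, Art, hfd, inferInstance, hLH, ⟨hA, h.pre.fibProd hLF, fun γ => ?_⟩⟩
  rw [act_fibProd_one hLF h.pre.mem]
  have h1 := S_main_e D hm0 hm hA hLH hLF (fun τ => Real.log (act τ x)) h.gk γ
  unfold pf ez
  rw [← Real.exp_sum, ← Finset.mul_sum, h1, Real.exp_sum]
  unfold fibProd
  exact Finset.prod_congr rfl fun τ _ => (Real.exp_log (h.pre.pos τ)).symm

end Pool.Agent.STt
end

section

/-!
# The fields `K(√e, cos (2 π / 2 ^ k))` and all moduli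

`e > 0` is a unit of norm `-1`. The theorem `starkTateIn_general`: for all moduli which are divisible by the primes above `2` and all
subfields of the ray class field and of one of these fields.
-/

open NumberField IsDedekindDomain Pool.Agent.ST Pool.Agent.STb Pool.Agent.STf IntermediateField

namespace Pool.Agent.STt

open Pool.Agent.STg

variable {K : Type*} [Field K] [NumberField K] [Algebra K ℝ] {σ₂ : K →+* ℝ} {e : (𝓞 K)ˣ}

omit [NumberField K] in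
lemma Lf_cast (e : (𝓞 K)ˣ) (k : ℕ) : STh.F.Lf (e : 𝓞 K) (2 ^ k) = STg.F.Lf e k := by
  unfold STh.F.Lf STg.F.Lf StarkRQ.layer
  have h1 : STh.F.se (e : 𝓞 K) = STg.F.se e := rfl
  rw [h1]
  push_cast
  rfl

/-- the data for the unit `e` and `Q = 2 ^ k` -/
lemma fe_of_fd (F : STg.F.FD σ₂ e) {k : ℕ} (hk : 1 ≤ k) : FE σ₂ (e : 𝓞 K) (2 ^ k) where
  deg := F.deg
  ne := F.ne
  pos := F.pos
  neg := by
    rw [F.nrm]
    exact neg_lt_zero.2 (inv_pos.2 F.pos)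
  Q0 := by positivity
  two := dvd_pow_self 2 (by omega)
  mem := fun v hv => absurd (Ideal.eq_top_of_isUnit_mem _ hv e.isUnit) v.isPrime.ne_top

omit [Algebra K ℝ] in
/-- the two definitions of the coefficients agree -/
lemma cK_eq_cS (e : (𝓞 K)ˣ) {l : ℕ} (hl : l ≠ 0) :
    STh.F.cK (e : 𝓞 K) (Ideal.span {(2 : 𝓞 K)}) l = cS (STg.chiK e) l := by
  classical
  unfold STh.F.cK cS
  refine finsum_mem_congr rfl fun I hI => ?_
  have hI0 : I ≠ ⊥ := by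
    rintro rfl
    have h1 : Ideal.absNorm (⊥ : Ideal (𝓞 K)) = l := hI
    rw [Ideal.absNorm_bot] at h1
    exact hl h1.symm
  unfold STh.F.chiK STg.chiK
  by_cases h : IsCoprime I (Ideal.span {(2 : 𝓞 K)})
  · rw [if_pos ⟨hI0, h⟩, if_pos h]
    rfl
  · rw [if_neg (fun h' => h h'.2), if_neg h]

/-- the analytic statement for the modulus `2` -/
lemma GK_e (D : LemData) (F : STg.F.FD σ₂ e) (U : UD) (hT : U.T = STg.F.tre e) {k J : ℕ} (hk : 2 ≤ k)
    (hJ : k + 4 ≤ J) (s : ℤˣ) {b : ℕ} (hb : b % 4 = 1) :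
    STh.F.GK (e : 𝓞 K) (Ideal.span {(2 : 𝓞 K)}) (2 ^ k) (s : ℤ) b (Real.log (xv D U k J (s, nu k b))) := by
  classical
  have hz : ∃ β : GaussianInt, Prim β ∧ IsCoprime β U.δ ∧ sM U k β = zc k := by
    obtain ⟨α, h1, h2, h3, _⟩ := exists_zc U k (q := 1) isCoprime_one_left 0
    exact ⟨α, h1, h2, h3⟩
  have hodd : Odd b := by
    rw [Nat.odd_iff]
    omega
  obtain ⟨G, hG1, hG0, hG2, hG3⟩ := hasSum_M0 D U (k := k) (J := J) hJ hz s hodd
  refine ⟨G, hG1, hG0, fun w hw => ?_, hG3⟩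
  have h4k : (4 : ℤ) ∣ 2 ^ k := by
    have : (4 : ℤ) = 2 ^ 2 := by norm_num
    rw [this]
    exact pow_dvd_pow 2 hk
  have hterm : ∀ l : ℕ, (if l ≠ 0 ∧ (((2 ^ k : ℕ) : ℤ) ∣ (l : ℤ) - b ∨ ((2 ^ k : ℕ) : ℤ) ∣ (l : ℤ) + b)
      then (s : ℤ) * STh.F.cK (e : 𝓞 K) (Ideal.span {(2 : 𝓞 K)}) l else 0 : ℤ) =
      (if l ≠ 0 ∧ (2 : ℤ) ^ k ∣ (l : ℤ) - b then (s : ℤ) * cS (chiM U) l else 0 : ℤ) := by
    intro l
    rw [Nat.cast_pow, Nat.cast_ofNat]
    by_cases hl : l = 0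
    · rw [if_neg (by tauto), if_neg (by tauto)]
    · by_cases h1 : (2 : ℤ) ^ k ∣ (l : ℤ) - b
      · rw [if_pos ⟨hl, Or.inl h1⟩, if_pos ⟨hl, h1⟩, cK_eq_cS e hl, cS_K_eq_M F U hT hl]
      · by_cases h2 : (2 : ℤ) ^ k ∣ (l : ℤ) + b
        · rw [if_pos ⟨hl, Or.inr h2⟩, if_neg (fun h => h1 h.2), cK_eq_cS e hl, cS_K_eq_M F U hT hl]
          have h3 : (4 : ℤ) ∣ (l : ℤ) + b := h4k.trans h2
          have h4 : l % 4 = 3 := by omega
          rw [cS_chiM_three U h4, mul_zero]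
        · rw [if_neg (by tauto), if_neg (by tauto)]
  have h := hG2 w hw
  simp only [← hterm] at h
  exact h

open STg.F in
/-- **The modulus `2`.** -/
theorem good_base_e (D : LemData) (F : STg.F.FD σ₂ e) (j : ℕ) : ∃ k, 2 ≤ k ∧ STg.F.Lf e k = STg.F.Lf e j ∧
    ∀ (L : IntermediateField K ℝ) [FiniteDimensional K L] [IsAbelianGalois K L]
      (hLF : L ≤ STh.F.Lf (e : 𝓞 K) (2 ^ k)),
      ∃ x, STh.Good σ₂ (e : 𝓞 K) (Ideal.span {(2 : 𝓞 K)}) (2 ^ k) L hLF x := by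
  obtain ⟨k, hk, hkj, hc⟩ := exists_level_k F j
  refine ⟨k, hk, hkj, fun L hfdL habL hLF => ?_⟩
  obtain ⟨U, hT⟩ := exists_ud (tre_ne_zero F)
  obtain ⟨N₀, hN₀, hN⟩ := exists_N D F U hT
  obtain ⟨N, hNk, hNN⟩ : ∃ N, k + 1 ≤ N ∧ N₀ ≤ N := ⟨max N₀ (k + 1), le_max_right _ _, le_max_left _ _⟩
  have hfd : FiniteDimensional K (STg.F.Lf e N) := fd_Lf F _
  have hab' : IsAbelianGalois K (STg.F.Lf e N) := abelian_Lf F N
  have habk : IsAbelianGalois K (STg.F.Lf e k) := abelian_Lf F k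
  have hfdk : FiniteDimensional K (STg.F.Lf e k) := fd_Lf F k
  have hkN : STg.F.Lf e k ≤ STg.F.Lf e N := Lf_mono e (by omega)
  have hLj : L ≤ STg.F.Lf e k := by
    rw [← Lf_cast]
    exact hLF
  have h1 := hN N hNN (N + 11) le_rfl hfd L (hLj.trans hkN) (hLj.trans (Lf_mono e (by omega)))
  have hx := fibProd_xv D F U hT (N := N) (J := N + 11) hk (by omega) (by omega) (by omega) (fun i hi _ => hc i hi)
  have hmem : xv D U N (N + 11) 1 ∈ STg.F.Lf e N := (preStark_xv D F U hT (by omega) (by omega) (by omega) 1).mem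
  have h4 := fibProd_trans hLj hkN hmem (1 : L ≃ₐ[K] L)
  rw [hx] at h4
  rw [← h4] at h1
  -- transport to the field `STh.F.Lf e (2 ^ k)`
  have key : ∀ (M : IntermediateField K ℝ) (_ : M = STg.F.Lf e k) [FiniteDimensional K M] (h : L ≤ M),
      IsAbelianGalois K (sqrtExt L (fibProd h (xv D U k (N + 11) 1) 1)) ∧
      PreStark σ₂ M (xv D U k (N + 11) 1) ∧
      ∀ τ : M ≃ₐ[K] M, ∃ (s : ℤˣ) (b : ℕ), b % 4 = 1 ∧ act τ (STg.F.se e) = ((s : ℤ) : ℝ) * STg.F.se e ∧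
        act τ (Real.cos (2 * Real.pi / 2 ^ k)) = Real.cos (2 * Real.pi * b / 2 ^ k) ∧
        act τ (xv D U k (N + 11) 1) = xv D U k (N + 11) (s, nu k b) := by
    intro M hM hfM h
    subst hM
    refine ⟨h1, preStark_xv D F U hT (by omega) (by omega) (by omega) 1, fun τ => ?_⟩
    obtain ⟨s, b, hb, hs, hcs⟩ := exists_coords F U hT τ
    refine ⟨s, b, hb, hs, hcs, ?_⟩
    rw [act_gf F U hT (isGF_xv_all D U (by omega) (by omega) (by omega)) τ hb hs hcs 1, mul_one]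
  obtain ⟨k1, k2, k3⟩ := key _ (Lf_cast e k) hLF
  refine ⟨xv D U k (N + 11) 1, k2, fun τ => ?_, k1⟩
  obtain ⟨s, b, hb, hs, hcs, hxx⟩ := k3 τ
  refine ⟨s, b, ⟨hs, ?_⟩, ?_⟩
  · push_cast
    exact hcs
  · rw [hxx]
    exact GK_e D F U hT hk (by omega) s hb

omit [NumberField K] [Algebra K ℝ] in
lemma E5_two_mem {v : HeightOneSpectrum (𝓞 K)} {k : ℕ} (h : ((2 ^ k : ℕ) : 𝓞 K) ∈ v.asIdeal) :
    (2 : 𝓞 K) ∈ v.asIdeal := by
  push_cast at h
  exact v.isPrime.mem_of_pow_mem k h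

open STg.F in
/-- **All moduli, all subfields.** `K` is real quadratic with a unit `e > 0` of norm `-1`, `m ≠ 0` is divisible by all primes above
`2`, `L ≤ H`, `L ≤ K(√e, cos (2 π / 2 ^ j))`. -/
theorem starkTateIn_general (D : LemData) (F : STg.F.FD σ₂ e) {m : Ideal (𝓞 K)}
    (hm : ∀ v : HeightOneSpectrum (𝓞 K), (2 : 𝓞 K) ∈ v.asIdeal → v.asIdeal ∣ m) (hm0 : m ≠ ⊥)
    {H : IntermediateField K ℝ} {Art : RayClassGroup σ₂ m ≃* (H ≃ₐ[K] H)}
    (hA : IsRayClassField σ₂ m H Art) (j : ℕ) {L : IntermediateField K ℝ} (hLH : L ≤ H)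
    (hLj : L ≤ STg.F.Lf e j) : StarkRQ.StarkTateIn σ₂ m L := by
  obtain ⟨k, hk, hkj, hgood⟩ := good_base_e D F j
  have habj : IsAbelianGalois K (STg.F.Lf e j) := abelian_Lf F j
  have hfdj : FiniteDimensional K (STg.F.Lf e j) := fd_Lf F j
  have habL : IsAbelianGalois K L := isAbelianGalois_of_le hLj
  have hfdL : FiniteDimensional K L := fd_of_le hLj
  have hLF : L ≤ STh.F.Lf (e : 𝓞 K) (2 ^ k) := by
    rw [Lf_cast, hkj]
    exact hLj
  have hFE : FE σ₂ (e : 𝓞 K) (2 ^ k) := fe_of_fd F (by omega)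
  have h2 : (2 : 𝓞 K) ≠ 0 := two_ne_zero
  have hm2 : Ideal.span {(2 : 𝓞 K)} ≠ ⊥ := by
    rw [Ne, Ideal.span_singleton_eq_bot]
    exact h2
  obtain ⟨x, hx⟩ := good_ind hFE hm2 hm0
    (fun v hv => Ideal.dvd_span_singleton.2 (E5_two_mem hv))
    (fun v hv => hm v (Ideal.dvd_span_singleton.1 hv)) hLF (hgood L hLF)
  have hAb : STh.F.Above (2 ^ k) m := fun v hv => hm v (E5_two_mem hv)
  have h3 := td_of_good_e hFE hm0 hAb hA hLH hx
  exact starkTateIn_of_td F.deg F.ne hm0 (ne_top_of_two fun v hv => hm v hv) h3 hx.ab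

end Pool.Agent.STt
end
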